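import Pool.Agent.Lib_MP_418a80_t3.TwistSO

/-!
# The amplification of a strictly outer action is strictly outer
-/

set_option autoImplicit false
set_option linter.unusedVariables false
set_option linter.unusedSectionVars false

open Topology Filter MeasureTheory
open scoped ENNReal

namespace Pool.Agent.AbCoc

universe u v w

section
variable {A : Type u} [CStarAlgebra A] [PartialOrder A] [StarOrderedRing A]
  {K : Type v} [NormedAddCommGroup K] [InnerProductSpace ℂ K]
variable {G : Type w} [Group G] [TopologicalSpace G] {T : TrAlg A K} (S : TrAct G T)

/-- the trivial twist is the amplification -/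
theorem TrAct.twist_one (N : ℕ) [NeZero N] :
    S.twist N (fun _ => (1 : G →* Circle)) (fun _ => continuous_const) = S.amp N := by
  have h : ∀ g, twMap (S.α g) N (fun i => (fun _ : Fin N => (1 : G →* Circle)) i g)
      = matMap (S.α g) N := by
    intro g
    refine StarAlgHom.ext fun M => ?_
    ext i j
    rw [twMap_apply, matMap_apply]
    simp
  unfold TrAct.twist TrAct.amp
  congr 1
  funext g
  exact h g

end

section
variable {A : Type u} [CStarAlgebra A] [PartialOrder A] [StarOrderedRing A]
  {K : Type v} [NormedAddCommGroup K] [InnerProductSpace ℂ K] [CompleteSpace K]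
variable {G : Type w} [Group G] [TopologicalSpace G] [IsTopologicalGroup G]
  [SecondCountableTopology G] [LocallyCompactSpace G] [MeasurableSpace G] [BorelSpace G]
  (μ : Measure G) [μ.IsHaarMeasure] {T : TrAlg A K} (S : TrAct G T)

/-- **strict outerness passes to the amplifications** -/
theorem TrAct.SO_amp (N : ℕ) [NeZero N] [PartialOrder (Mat N A)] [StarOrderedRing (Mat N A)]
    (hSO : S.SO μ Set.univ) : (S.amp N).SO μ Set.univ := by
  have h := S.SO_twist μ N (fun _ => (1 : G →* Circle)) (fun _ => continuous_const) hSO
  rwa [S.twist_one N] at h

end

end Pool.Agent.AbCoc
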