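import Pool.Agent.Lib_MP_418a80_nm.NUn3
import Pool.Agent.Lib_MP_418a80_nm.NFinVN
import Pool.Agent.Lib_MP_418a80_t3.SOAmp
import Pool.Agent.Lib_MP_418a80_un.UF6

/-!
# MP_418a80_an, general `M`: the property `KeyAll` of a group and its consequences

`KeyAll H`: KEY holds for every strictly outer action of the amenable group `H` on a tracial
algebra. It passes from a closed subgroup to the actions of `G` restricted to it, to the twists by
characters and to the matrices. If the elements of `G` with twists belong to a closed normal subgroup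
`N` with `KeyAll N` then every strictly outer action of `G` has an ergodic cocycle perturbation.
-/

set_option autoImplicit false
set_option linter.unusedVariables false
set_option linter.unusedSectionVars false

open MeasureTheory Topology Filter TopologicalSpace
open scoped ENNReal

namespace Pool.Agent.AbCoc

universe u v w z

/-- KEY for every strictly outer action of `H` on a tracial algebra (`H` amenable) -/
structure KeyAll (H : Type w) [Group H] [TopologicalSpace H] : Prop where
  key : ∀ [IsTopologicalGroup H] [T2Space H] [SecondCountableTopology H] [LocallyCompactSpace H]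
    [MeasurableSpace H] [BorelSpace H] (ν : Measure H) [ν.IsHaarMeasure], Reiter ν →
    ∀ (A : Type u) [CStarAlgebra A] (K : Type v) [NormedAddCommGroup K] [InnerProductSpace ℂ K]
      [CompleteSpace K] (T : TrAlg A K) (S : TrAct H T), S.SO ν Set.univ → S.Key

section plumb
variable {A : Type u} [CStarAlgebra A] {K : Type v} [NormedAddCommGroup K]
  [InnerProductSpace ℂ K] [CompleteSpace K]
variable {G : Type w} [Group G] [TopologicalSpace G] [IsTopologicalGroup G] [T2Space G]
  [SecondCountableTopology G] [LocallyCompactSpace G] [MeasurableSpace G] [BorelSpace G]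
  (μ : Measure G) [μ.IsHaarMeasure] {T : TrAlg A K} (S : TrAct G T)
variable {H : Type z} [Group H] [TopologicalSpace H] [IsTopologicalGroup H] [T2Space H]
  [SecondCountableTopology H] [LocallyCompactSpace H]
  (j : H →* G) (hj : Continuous j)

include μ in
theorem KeyAll.key_cm (hH : KeyAll.{u, v, z} H) (hj' : IsClosedEmbedding j) (hR : Reiter μ)
    (hSO : S.SO μ Set.univ) : (S.cm j hj).Key := by
  borelize H
  exact hH.key Measure.haar (reiter_of_isClosedEmbedding μ Measure.haar j hj' hR) A K T (S.cm j hj)
    (S.SO_cm' μ Measure.haar j hj hj' hSO)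

variable [PartialOrder A] [StarOrderedRing A]

include μ in
theorem KeyAll.key_twist (hH : KeyAll.{u, v, z} H) (hj' : IsClosedEmbedding j) (hR : Reiter μ)
    (hSO : S.SO μ Set.univ) (N : ℕ) [NeZero N] (χ : Fin N → (H →* Circle))
    (hχ : ∀ i, Continuous (χ i)) : ((S.cm j hj).twist N χ hχ).Key := by
  borelize H
  let := CStarAlgebra.spectralOrder (Mat N A)
  have := CStarAlgebra.spectralOrderedRing (Mat N A)
  exact hH.key Measure.haar (reiter_of_isClosedEmbedding μ Measure.haar j hj' hR) (Mat N A)
    (MatK N K) (T.amp N) ((S.cm j hj).twist N χ hχ)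
    ((S.cm j hj).SO_twist Measure.haar N χ hχ (S.SO_cm' μ Measure.haar j hj hj' hSO))

include μ in
theorem KeyAll.key_amp (hH : KeyAll.{u, v, z} H) (hj' : IsClosedEmbedding j) (hR : Reiter μ)
    (hSO : S.SO μ Set.univ) (N : ℕ) [NeZero N] : ((S.cm j hj).amp N).Key := by
  rw [← (S.cm j hj).twist_one N]
  exact hH.key_twist μ S j hj hj' hR hSO N _ _

end plumb

section base
variable {G : Type w} [Group G] [TopologicalSpace G] [IsTopologicalGroup G] [T2Space G]
  [SecondCountableTopology G] [LocallyCompactSpace G]

/-- KEY for `StepATyp` groups -/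
theorem keyAll_of_stepATyp (h : ∀ [MeasurableSpace G] [BorelSpace G] (ν : Measure G)
    [ν.IsHaarMeasure], Reiter ν → ∀ (A : Type u) [CStarAlgebra A] (K : Type v)
    [NormedAddCommGroup K] [InnerProductSpace ℂ K] [CompleteSpace K] (T : TrAlg A K)
    (S : TrAct G T), S.SO ν Set.univ → S.StepATyp) : KeyAll.{u, v, w} G := by
  refine ⟨fun ν _ hR A _ K _ _ _ T S hSO => ?_⟩
  exact TrAct.key_of_stepATyp _ (h ν hR A K T S hSO)

/-- the groups of the union theorem -/
theorem keyAll_of_qmap [NoncompactSpace G] {V : Type z} [NormedAddCommGroup V] [NormedSpace ℝ V]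
    [FiniteDimensional ℝ V] (Q : QMap G V) : KeyAll.{u, v, w} G := by
  refine keyAll_of_stepATyp fun ν _ hR A _ K _ _ _ T S hSO => ?_
  let _ : MeasurableSpace V := borel V
  have : BorelSpace V := ⟨rfl⟩
  exact S.stepATyp_of_qmap' ν Q hSO hR

/-- the groups of the union theorem -/
theorem keyAll_of_euclByCo [NoncompactSpace G] (L : Subgroup G) (n : ℕ)
    (q : ↥L →* Multiplicative (EuclideanSpace ℝ (Fin n))) (hL : IsOpen (L : Set G))
    (hq : Continuous q) (hs : Function.Surjective q) (hk : IsCompact (q.ker : Set ↥L)) :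
    KeyAll.{u, v, w} G := by
  obtain ⟨Q⟩ := exists_qmap L hL q hq hs hk
  exact keyAll_of_qmap Q

end base

section vn
variable {H : Type u} [NormedAddCommGroup H] [InnerProductSpace ℂ H] [CompleteSpace H]
variable {G : Type v} [Group G] [TopologicalSpace G] [IsTopologicalGroup G]
  [SecondCountableTopology G] [LocallyCompactSpace G] [T2Space G]
  [MeasurableSpace G] [BorelSpace G] (μ : Measure G) [μ.IsHaarMeasure]
  {M : VonNeumannAlgebra H} {α : G → (H →L[ℂ] H) → (H →L[ℂ] H)}

/-- strictly outer actions such that all elements with twisted central sequences belong to a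
closed normal subgroup `N` with `KeyAll N` -/
theorem twist_theorem_keyAll [NoncompactSpace G] [SeparableSpace H] (hM : IsII1Factor M)
    (hα : IsAction M α) (hG : ErgLC.FolnerCondition μ) (hout : IsStrictlyOuter μ M α)
    (N : Subgroup G) [N.Normal] (hN : IsClosed (N : Set G))
    (htw : ∀ g : G, HasTwistedCentral M (α g) → g ∈ N)
    (hkey : NoncompactSpace N → KeyAll.{u, u, v} N) :
    ∃ v : G → (H →L[ℂ] H), IsCocycle M α v ∧ PerturbationIsErgodic M α v := by
  obtain ⟨ξ, h⟩ := hM.trace
  let := CStarAlgebra.spectralOrder (Alg M)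
  have := CStarAlgebra.spectralOrderedRing (Alg M)
  have hfac : ∀ x : Alg M, (∀ y, x * y = y * x) → ∃ c : ℂ, x = c • (1 : Alg M) := by
    intro x hx
    obtain ⟨c, hc⟩ := hM.factor x x.2 fun y hy => congrArg Subtype.val (hx ⟨y, hy⟩)
    exact ⟨c, Subtype.ext hc⟩
  have hSO := so_actOf μ ξ h hM.factor hα hout
  have htw' : ∀ g, (actOf ξ h hM.factor hα).HasTwist g → g ∈ N := fun g hg =>
    htw g (hasTwistedCentral_of_hasTwist ξ h hM.factor hα hg)
  have hR := reiter_of_folner μ hG
  have : LocallyCompactSpace N := hN.isClosedEmbedding_subtypeVal.locallyCompactSpace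
  have : SecondCountableTopology N :=
    inferInstanceAs (SecondCountableTopology ((N : Set G) : Set G))
  refine exists_of_key ξ h hα (actOf ξ h hM.factor hα) (fun g x => rfl)
    (TrAct.key_of_stepADom _ ?_)
  refine (actOf ξ h hM.factor hα).stepADom_of_twist_key μ hfac hSO hR N hN htw' fun hc => ?_
  exact ⟨(hkey hc).key_cm μ _ N.subtype continuous_subtype_val hN.isClosedEmbedding_subtypeVal hR
    hSO, fun n _ => (hkey hc).key_amp μ _ N.subtype continuous_subtype_val
      hN.isClosedEmbedding_subtypeVal hR hSO n⟩

/-- `KeyAll G` gives the theorem for all II₁ factors -/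
theorem keyAll_theorem [NoncompactSpace G] [SeparableSpace H] (hkey : KeyAll.{u, u, v} G)
    (hM : IsII1Factor M) (hα : IsAction M α) (hG : ErgLC.FolnerCondition μ)
    (hout : IsStrictlyOuter μ M α) :
    ∃ v : G → (H →L[ℂ] H), IsCocycle M α v ∧ PerturbationIsErgodic M α v := by
  obtain ⟨ξ, h⟩ := hM.trace
  refine exists_of_key ξ h hα (actOf ξ h hM.factor hα) (fun g x => rfl) ?_
  exact hkey.key μ (reiter_of_folner μ hG) _ _ _ (actOf ξ h hM.factor hα)
    (so_actOf μ ξ h hM.factor hα hout)

end vn

end Pool.Agent.AbCoc
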