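import Pool.Agent.Lib_MP_418a80_t3.Twist
import Pool.Agent.Lib_MP_418a80_nm.NKey

/-!
# Near-eigenoperators for a character from the KEY property of the twisted `2 × 2` matrices
-/

set_option autoImplicit false
set_option linter.unusedVariables false
set_option linter.unusedSectionVars false

open Topology Filter MeasureTheory
open scoped ENNReal

namespace Pool.Agent.AbCoc

universe u v w

section
variable {A : Type u} [CStarAlgebra A] [PartialOrder A] [StarOrderedRing A]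
  {K : Type v} [NormedAddCommGroup K] [InnerProductSpace ℂ K] [CompleteSpace K]
variable {G : Type w} [Group G] [TopologicalSpace G] {T : TrAlg A K}

/-- the pair of characters `(1, χ)` -/
noncomputable def tw2 (χ : G →* Circle) : Fin 2 → (G →* Circle) := ![1, χ]

theorem tw2_cont {χ : G →* Circle} (hχ : Continuous χ) (i : Fin 2) : Continuous (tw2 χ i) := by
  fin_cases i
  · exact continuous_const
  · exact hχ

theorem TrAlg.amp_τ_entry (T : TrAlg A K) (n : ℕ) [NeZero n] (i : Fin n) (y : A) :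
    (T.amp n).τ (ent n i i y) = (n : ℂ)⁻¹ * T.τ y := by
  rw [T.amp_τ, Finset.sum_eq_single i]
  · rw [ent_apply, if_pos rfl, if_pos rfl]
  · intro j _ hj
    rw [ent_apply, if_neg hj]
    have h := T.τ_smul 0 (0 : A)
    rwa [zero_smul, zero_mul] at h
  · intro h; exact absurd (Finset.mem_univ i) h

/-- **near-eigenoperators** for the character `χ`, uniformly bounded below -/
theorem TrAct.exists_eigen (S : TrAct G T) (χ : G →* Circle) (hχ : Continuous χ)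
    (hkey : (S.twist 2 (tw2 χ) (tw2_cont hχ)).Key)
    {b1 b2 : A} (hb1 : S.Fixed b1) (hb2 : S.Fixed b2) (hs1 : star b1 = b1) (hs2 : star b2 = b2)
    (C : Set G) (hC : IsCompact C) (ε : ℝ) (hε : 0 < ε) :
    ∃ u : A, ‖u‖ ≤ 1 ∧ (∀ s ∈ C, ‖T.ι (S.α s u - (χ s : ℂ) • u)‖ ≤ ε) ∧
      ‖T.ι b1‖ ^ 2 * ‖T.ι b2‖ ^ 2 / 2 - ε ≤ ‖T.ι (b1 * u * b2)‖ ^ 2 := by
  obtain ⟨W, hW⟩ : ∃ W : TrAct G (T.amp 2), W = S.twist 2 (tw2 χ) (tw2_cont hχ) := ⟨_, rfl⟩
  have hWα : ∀ (g : G) (M : Mat 2 A) (i j : Fin 2), W.α g M i j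
      = ((tw2 χ i g : ℂ) * star (tw2 χ j g : ℂ)) • S.α g (M i j) := by
    intro g M i j
    rw [hW]
    rfl
  rw [← hW] at hkey
  obtain ⟨c, hc⟩ : ∃ c : ℝ, c = ‖T.ι b2‖ ^ 2 / 2 := ⟨_, rfl⟩
  obtain ⟨e1, he1⟩ : ∃ e1 : Mat 2 A, e1 = ent 2 1 1 (b2 * b2) := ⟨_, rfl⟩
  obtain ⟨e0, he0⟩ : ∃ e0 : Mat 2 A, e0 = ent 2 0 0 (b1 * b1) := ⟨_, rfl⟩
  obtain ⟨x, hx⟩ : ∃ x : Mat 2 A, x = e1 - (c : ℂ) • (1 : Mat 2 A) := ⟨_, rfl⟩
  have he1s : star e1 = e1 := by rw [he1, ent_star, star_mul, hs2]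
  have he1τ : (T.amp 2).τ e1 = (c : ℂ) := by
    rw [he1, T.amp_τ_entry, T.τ_sa_sq hs2, hc]
    push_cast
    ring
  have he0τ : (T.amp 2).τ e0 = ((‖T.ι b1‖ ^ 2 / 2 : ℝ) : ℂ) := by
    rw [he0, T.amp_τ_entry, T.τ_sa_sq hs1]
    push_cast
    ring
  have hxs : IsSelfAdjoint x := by
    rw [isSelfAdjoint_iff, hx, star_sub, he1s, star_smul, star_one, Complex.star_def,
      Complex.conj_ofReal]
  have hx0 : (T.amp 2).τ x = 0 := by
    rw [hx, (T.amp 2).τ_sub, (T.amp 2).τ_smul, (T.amp 2).τ_one, he1τ, mul_one, sub_self]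
  obtain ⟨β, hβ⟩ : ∃ β : ℝ, β = ‖(T.amp 2).ι e0‖ := ⟨_, rfl⟩
  have hβ0 : 0 ≤ β := by rw [hβ]; exact norm_nonneg _
  obtain ⟨δ, hδ⟩ : ∃ δ : ℝ, δ = ε / (2 * (β + 1)) := ⟨_, rfl⟩
  have hδ0 : 0 < δ := by rw [hδ]; positivity
  have hδε : δ ≤ ε / 2 := by
    rw [hδ]
    exact div_le_div_of_nonneg_left hε.le (by norm_num) (by linarith)
  obtain ⟨U, hU1, hU2, hUC, hUE⟩ := hkey Unit (fun _ => x) (fun _ => hxs) (fun _ => hx0) C hC δ hδ0
  have hUE := hUE ()
  have hUn : ‖U‖ ≤ 1 := TrAct.norm_unit_le (T.amp 2) U hU1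
  refine ⟨U 0 1, ?_, ?_, ?_⟩
  · exact (CStarMatrix.norm_entry_le_norm (M := U) (i := 0) (j := 1)).trans hUn
  · intro s hs
    have h1 := T.norm_apply_le_amp 2 (W.α s U - U) 0 1
    have h2 : ‖T.ampL 2 (W.α s U - U)‖ ≤ δ := hUC s hs
    have h3 : (W.α s U - U) 0 1 = (star (χ s : ℂ)) • S.α s (U 0 1) - U 0 1 := by
      change W.α s U 0 1 - U 0 1 = _
      rw [hWα]
      congr 2
      change ((1 : Circle) : ℂ) * star (χ s : ℂ) = _
      rw [Circle.coe_one, one_mul]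
    have h4 : S.α s (U 0 1) - (χ s : ℂ) • U 0 1 = (χ s : ℂ) • ((W.α s U - U) 0 1) := by
      rw [h3, smul_sub, smul_smul, circle_mul_star, one_smul]
    rw [h4, map_smul, norm_smul, Circle.norm_coe, one_mul]
    refine h1.trans ?_
    push_cast
    linarith
  · -- the mass
    have hf0 : W.Fixed e0 := by
      intro g
      ext i j
      rw [hWα, he0, ent_apply]
      by_cases hi : i = 0
      · by_cases hj : j = 0
        · rw [if_pos hi, if_pos hj, hi, hj, map_mul, hb1]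
          change (((1 : Circle) : ℂ) * star ((1 : Circle) : ℂ)) • _ = _
          rw [Circle.coe_one, star_one, one_mul, one_smul]
        · rw [if_pos hi, if_neg hj, map_zero, smul_zero]
      · rw [if_neg hi, map_zero, smul_zero]
    obtain ⟨Z, hZ⟩ : ∃ Z : Mat 2 A, Z = U * x * star U := ⟨_, rfl⟩
    have hZ2 : U * e1 * star U = Z + (c : ℂ) • (1 : Mat 2 A) := by
      rw [hZ, hx, mul_sub, sub_mul, mul_smul_comm, mul_one, smul_mul_assoc, hU2, sub_add_cancel]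
    have h5 : (T.amp 2).τ (e0 * (U * e1 * star U))
        = (T.amp 2).τ (e0 * W.E Z) + (c : ℂ) * ((‖T.ι b1‖ ^ 2 / 2 : ℝ) : ℂ) := by
      rw [hZ2, mul_add, (T.amp 2).τ_add, mul_smul_comm, mul_one, (T.amp 2).τ_smul, he0τ]
      congr 1
      rw [← W.E_mul_left hf0, W.τ_E]
    have h6 : ‖(T.amp 2).τ (e0 * W.E Z)‖ ≤ β * δ := by
      have h7 : ‖(T.amp 2).τ (e0 * W.E Z)‖ ≤ ‖(T.amp 2).ι e0‖ * ‖(T.amp 2).ι (W.E Z)‖ := by
        have h := (T.amp 2).inner_eq_τ (star e0) (W.E Z)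
        rw [star_star] at h
        rw [← h, ← (T.amp 2).norm_star e0]
        exact norm_inner_le_norm _ _
      refine h7.trans ?_
      rw [← hβ]
      refine mul_le_mul_of_nonneg_left ?_ hβ0
      rw [hZ]
      exact hUE
    have h8 : (T.amp 2).τ (e0 * (U * e1 * star U)) = (((1 / 2) * ‖T.ι (b1 * U 0 1 * b2)‖ ^ 2 : ℝ) : ℂ) := by
      have h9 : e0 * (U * e1 * star U) = ent 2 0 0 b1 * (ent 2 0 0 b1 * (U * e1 * star U)) := by
        rw [← mul_assoc (ent 2 0 0 b1), ent_mul_ent, he0]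
      have h10 : ent 2 0 0 b1 * (U * e1 * star U) * ent 2 0 0 b1
          = (ent 2 0 0 b1 * U * ent 2 1 1 b2) * star (ent 2 0 0 b1 * U * ent 2 1 1 b2) := by
        rw [star_mul, star_mul, ent_star, ent_star, hs1, hs2, he1, ← ent_mul_ent 2 1 1 1 b2 b2]
        noncomm_ring
      rw [h9, (T.amp 2).τ_mul_comm, h10]
      have h11 : ent 2 0 0 b1 * U * ent 2 1 1 b2 = ent 2 0 1 (b1 * U 0 1 * b2) := by
        ext i j
        rw [CStarMatrix.mul_apply, Fin.sum_univ_two, CStarMatrix.mul_apply, CStarMatrix.mul_apply,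
          Fin.sum_univ_two, Fin.sum_univ_two]
        simp only [ent_apply]
        fin_cases i <;> fin_cases j <;> simp
      rw [h11, ent_star, ent_mul_ent, T.amp_τ_entry, T.τ_mul_comm]
      have h12 := T.norm_sq (b1 * U 0 1 * b2)
      have h13 : T.τ (star (b1 * U 0 1 * b2) * (b1 * U 0 1 * b2))
          = ((‖T.ι (b1 * U 0 1 * b2)‖ ^ 2 : ℝ) : ℂ) := by
        rw [← T.inner_eq_τ, inner_self_eq_norm_sq_to_K]
        norm_cast
      rw [h13]
      push_cast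
      ring
    have h14 : (1 / 2) * ‖T.ι (b1 * U 0 1 * b2)‖ ^ 2
        = ((T.amp 2).τ (e0 * W.E Z)).re + c * (‖T.ι b1‖ ^ 2 / 2) := by
      have h15 := congrArg Complex.re (h8.symm.trans h5)
      rw [Complex.add_re, ← Complex.ofReal_mul, Complex.ofReal_re, Complex.ofReal_re] at h15
      exact h15
    have h16 : |((T.amp 2).τ (e0 * W.E Z)).re| ≤ β * δ := (Complex.abs_re_le_norm _).trans h6
    have h17 := (abs_le.1 h16).1
    have h18 : β * δ ≤ ε / 2 := by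
      rw [hδ]
      have hb : 0 < 2 * (β + 1) := by positivity
      rw [← mul_div_assoc, div_le_div_iff₀ hb (by norm_num)]
      nlinarith
    rw [hc] at h14
    linarith

end

end Pool.Agent.AbCoc
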