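import Pool.Agent.Lib_MP_418a80_t3.Heis7
import Pool.Agent.Lib_MP_418a80_t3.T3Class

/-!
# The Heisenberg step, part 8: `KeyAll`
-/

set_option autoImplicit false
set_option linter.unusedVariables false
set_option linter.unusedSectionVars false

open Topology Filter MeasureTheory TopologicalSpace
open scoped RealInnerProductSpace ComplexConjugate

namespace Pool.Agent.AbCoc

universe u v w z

variable {G : Type w} [Group G] [TopologicalSpace G] [IsTopologicalGroup G] [T2Space G]
  [SecondCountableTopology G] [LocallyCompactSpace G] {n : ℕ}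

/-- **The Heisenberg step**: `KeyAll` of `ker a` and of all kernels of `⟪χ0, (a, b)⟫`, `χ0 ≠ 0`,
gives `KeyAll` of `G` -/
theorem keyAll_heis (H : HeisData G n) (hn : 0 < n) (hA : KeyAll.{u, v, w} H.toHData.kerA)
    (hX : ∀ χ0 : LV n, χ0 ≠ 0 → KeyAll.{u, v, w} (H.toHData.kerX χ0)) : KeyAll.{u, v, w} G := by
  refine keyAll_of_stepATyp fun ν _ hR A _ K _ _ _ T S hSO => ?_
  let _ : PartialOrder A := CStarAlgebra.spectralOrder A
  have _ : StarOrderedRing A := CStarAlgebra.spectralOrderedRing A
  have hcA := H.toHData.isClosed_kerA.isClosedEmbedding_subtypeVal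
  have _ : LocallyCompactSpace H.toHData.kerA := hcA.locallyCompactSpace
  have _ : SecondCountableTopology H.toHData.kerA :=
    inferInstanceAs (SecondCountableTopology ((H.toHData.kerA : Set G) : Set G))
  refine S.stepATyp_of_heis H hn (fun χ hχ => ?_) (fun χ0 hχ0 χ hχ => ?_)
  · exact hA.key_twist ν S H.toHData.kerA.subtype continuous_subtype_val hcA hR hSO 2 (tw2 χ)
      (tw2_cont hχ)
  · have hcX := (H.toHData.isClosed_kerX χ0).isClosedEmbedding_subtypeVal
    have _ : LocallyCompactSpace (H.toHData.kerX χ0) := hcX.locallyCompactSpace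
    have _ : SecondCountableTopology (H.toHData.kerX χ0) :=
      inferInstanceAs (SecondCountableTopology ((H.toHData.kerX χ0 : Set G) : Set G))
    exact (hX χ0 hχ0).key_twist ν S (H.toHData.kerX χ0).subtype continuous_subtype_val hcX hR hSO
      2 (tw2 χ) (tw2_cont hχ)

end Pool.Agent.AbCoc
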