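import Pool.Agent.Lib_MP_418a80_t3.NG0

/-!
# MP_418a80_an, T3, group side: chains of subgroups with quotients `ℝ`

[NG2c] `PCh.subgroupOf`: restriction of a chain to a stable subgroup `H`. Induction on the chain:
`bot`: `Subgroup.bot_subgroupOf`. `step N N' p`: let `p' x = p ⟨x, _⟩` on `N.subgroupOf H`. If `p' = 0`,
then `N.subgroupOf H = N'.subgroupOf H` and we use the result for `N'`. Otherwise `p'` is onto because
`p' (pw t x) = t * p' x` (`RPow.map_pw` for `(R.res H hH).res (N.subgroupOf H) _`), and we use `step`; if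
the two lengths are equal then `N' ≤ H` and for `g ∈ N` there is `x ∈ N ⊓ H` with `p x = p g`, so
`x⁻¹ * g ∈ N' ≤ H`.

`PCh.of_hom`: induction on `m`; for `q : ↥N → (Fin (m + 1) → ℝ)` let `N'' = {g ∈ N | q g 0 = 0}` (as a
subgroup of `G`, closed under `pw`), with `q''` the other coordinates (`Fin.tail`), apply the induction
hypothesis to `N''`, then `step` with `p g = q g 0`.
-/

set_option autoImplicit false

open Topology Filter

namespace Pool.Agent.AbCoc

universe u v w

/-- chains of (stable) subgroups with quotients `ℝ` -/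
inductive PCh {G : Type w} [Group G] [TopologicalSpace G] (R : RPow G) : Subgroup G → ℕ → Prop
  | bot : PCh R ⊥ 0
  | step (N N' : Subgroup G) (k : ℕ) (p : ↥N → ℝ) (hN : R.St N) (hle : N' ≤ N) (hp : Continuous p)
      (hm : ∀ g h, p (g * h) = p g + p h) (hs : Function.Surjective p)
      (hk : ∀ g : ↥N, p g = 0 ↔ (g : G) ∈ N') (h : PCh R N' k) : PCh R N (k + 1)

variable {G : Type w} [Group G] [TopologicalSpace G] [T2Space G] [IsTopologicalGroup G] {R : RPow G}

private theorem NG2c_one {N : Subgroup G} {W : Type*} [AddCommGroup W] (p : ↥N → W)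
    (hm : ∀ g h, p (g * h) = p g + p h) : p 1 = 0 := by
  have h := hm 1 1
  rw [mul_one] at h
  exact left_eq_add.1 h

private theorem NG2c_inv {N : Subgroup G} {W : Type*} [AddCommGroup W] (p : ↥N → W)
    (hm : ∀ g h, p (g * h) = p g + p h) (g : ↥N) : p g⁻¹ = -p g := by
  have h := hm g⁻¹ g
  rw [inv_mul_cancel, NG2c_one p hm] at h
  exact eq_neg_of_add_eq_zero_left h.symm

theorem PCh.subgroupOf {N : Subgroup G} {k : ℕ} (h : PCh R N k) (H : Subgroup G) (hH : R.St H) :
    ∃ k', k' ≤ k ∧ PCh (R.res H hH) (N.subgroupOf H) k' ∧ (k' = k → N ≤ H) := by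
  induction h with
  | bot =>
    refine ⟨0, le_rfl, ?_, fun _ => bot_le⟩
    rw [Subgroup.bot_subgroupOf]
    exact PCh.bot
  | step N N' k p hN hle hp hm hs hk hN' ih =>
    obtain ⟨k', hk', hP, himp⟩ := ih
    let p' : ↥(N.subgroupOf H) → ℝ := fun x => p ⟨x.1.1, Subgroup.mem_subgroupOf.1 x.2⟩
    have hp' : Continuous p' :=
      hp.comp ((continuous_subtype_val.comp continuous_subtype_val).subtype_mk _)
    have hm' : ∀ g h, p' (g * h) = p' g + p' h := fun g h =>
      hm ⟨g.1.1, Subgroup.mem_subgroupOf.1 g.2⟩ ⟨h.1.1, Subgroup.mem_subgroupOf.1 h.2⟩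
    by_cases h0 : ∀ x, p' x = 0
    · have he : N.subgroupOf H = N'.subgroupOf H := by
        ext g
        rw [Subgroup.mem_subgroupOf, Subgroup.mem_subgroupOf]
        constructor
        · intro hg
          exact (hk ⟨g, hg⟩).1 (h0 ⟨g, Subgroup.mem_subgroupOf.2 hg⟩)
        · intro hg
          exact hle hg
      rw [he]
      exact ⟨k', hk'.trans (Nat.le_succ k), hP, fun h => absurd h (by omega)⟩
    · push Not at h0
      obtain ⟨x₀, hx₀⟩ := h0
      have hSt := R.st_subgroupOf hH hN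
      have hs' : Function.Surjective p' := by
        intro r
        refine ⟨((R.res H hH).res (N.subgroupOf H) hSt).pw (r / p' x₀) x₀, ?_⟩
        rw [((R.res H hH).res (N.subgroupOf H) hSt).map_pw p' hp' hm', smul_eq_mul,
          div_mul_cancel₀ _ hx₀]
      refine ⟨k' + 1, Nat.succ_le_succ hk', ?_, ?_⟩
      · refine PCh.step (N.subgroupOf H) (N'.subgroupOf H) k' p' hSt ?_ hp' hm' hs' ?_ hP
        · intro g hg
          rw [Subgroup.mem_subgroupOf] at hg ⊢
          exact hle hg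
        · intro g
          rw [Subgroup.mem_subgroupOf]
          exact hk _
      · intro he
        have hN'H := himp (Nat.succ_injective he)
        intro g hg
        obtain ⟨x, hx⟩ := hs' (p ⟨g, hg⟩)
        have hxN : (x : H).1 ∈ N := Subgroup.mem_subgroupOf.1 x.2
        have h1 : p (⟨(x : H).1, hxN⟩⁻¹ * ⟨g, hg⟩) = 0 := by
          rw [hm, NG2c_inv p hm]
          have hx2 : p ⟨(x : H).1, hxN⟩ = p ⟨g, hg⟩ := hx
          rw [hx2, neg_add_cancel]
        have h2 := hN'H ((hk _).1 h1)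
        have h3 : ((x : H) : G)⁻¹ * g ∈ H := h2
        have h4 := H.mul_mem (x : H).2 h3
        rwa [mul_inv_cancel_left] at h4

private def NG2c_K (N : Subgroup G) {m : ℕ} (q : ↥N → (Fin (m + 1) → ℝ))
    (hm : ∀ g h, q (g * h) = q g + q h) : Subgroup G where
  carrier := {g | ∃ h : g ∈ N, q ⟨g, h⟩ 0 = 0}
  one_mem' := ⟨N.one_mem, by
    have h := NG2c_one q hm
    have h1 : q ⟨1, N.one_mem⟩ = 0 := h
    rw [h1]
    rfl⟩
  mul_mem' := by
    rintro a b ⟨ha, ha'⟩ ⟨hb, hb'⟩
    refine ⟨N.mul_mem ha hb, ?_⟩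
    have h := hm ⟨a, ha⟩ ⟨b, hb⟩
    have h1 : q ⟨a * b, N.mul_mem ha hb⟩ = q ⟨a, ha⟩ + q ⟨b, hb⟩ := h
    rw [h1, Pi.add_apply, ha', hb', add_zero]
  inv_mem' := by
    rintro a ⟨ha, ha'⟩
    refine ⟨N.inv_mem ha, ?_⟩
    have h := NG2c_inv q hm ⟨a, ha⟩
    have h1 : q ⟨a⁻¹, N.inv_mem ha⟩ = -q ⟨a, ha⟩ := h
    rw [h1, Pi.neg_apply, ha', neg_zero]

theorem PCh.of_hom {N' : Subgroup G} {k : ℕ} (h : PCh R N' k) {m : ℕ} (N : Subgroup G)
    (hN : R.St N) (hle : N' ≤ N) (q : ↥N → (Fin m → ℝ)) (hq : Continuous q)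
    (hm : ∀ g h, q (g * h) = q g + q h) (hs : Function.Surjective q)
    (hk : ∀ g : ↥N, q g = 0 ↔ (g : G) ∈ N') : PCh R N (k + m) := by
  induction m generalizing N with
  | zero =>
    have he : N = N' := by
      apply le_antisymm _ hle
      intro g hg
      exact (hk ⟨g, hg⟩).1 (Subsingleton.elim _ _)
    rw [he]
    exact h
  | succ m ih =>
    have hmem : ∀ g : G, g ∈ NG2c_K N q hm ↔ ∃ h : g ∈ N, q ⟨g, h⟩ 0 = 0 := fun g => Iff.rfl
    have hle2 : NG2c_K N q hm ≤ N := fun g hg => ((hmem g).1 hg).fst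
    have hSt : R.St (NG2c_K N q hm) := by
      intro t g hg
      obtain ⟨h1, h2⟩ := (hmem g).1 hg
      refine (hmem _).2 ⟨hN t g h1, ?_⟩
      have h3 := (R.res N hN).map_pw q hq hm t ⟨g, h1⟩
      have h4 : q ⟨R.pw t g, hN t g h1⟩ = t • q ⟨g, h1⟩ := h3
      rw [h4, Pi.smul_apply, h2, smul_zero]
    have hP : PCh R (NG2c_K N q hm) (k + m) := by
      refine ih (NG2c_K N q hm) hSt ?_ (fun g => Fin.tail (q ⟨g.1, hle2 g.2⟩)) ?_ ?_ ?_ ?_
      · intro g hg
        refine (hmem g).2 ⟨hle hg, ?_⟩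
        rw [(hk ⟨g, hle hg⟩).2 hg]
        rfl
      · have h1 : Continuous fun g : ↥(NG2c_K N q hm) => q ⟨g.1, hle2 g.2⟩ :=
          hq.comp (continuous_subtype_val.subtype_mk _)
        exact continuous_pi fun i => (continuous_apply i.succ).comp h1
      · intro g h
        have h1 : q ⟨(g * h : ↥(NG2c_K N q hm)).1, hle2 (g * h).2⟩
            = q ⟨g.1, hle2 g.2⟩ + q ⟨h.1, hle2 h.2⟩ := hm ⟨g.1, hle2 g.2⟩ ⟨h.1, hle2 h.2⟩
        rw [h1]
        rfl
      · intro v
        obtain ⟨g, hg⟩ := hs (Fin.cons 0 v)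
        refine ⟨⟨g.1, (hmem _).2 ⟨g.2, ?_⟩⟩, ?_⟩
        · show q g 0 = 0
          rw [hg]
          rfl
        · show Fin.tail (q g) = v
          rw [hg]
          rfl
      · intro g
        obtain ⟨h1, h2⟩ := (hmem g.1).1 g.2
        constructor
        · intro h3
          refine (hk ⟨g.1, h1⟩).1 ?_
          funext i
          refine Fin.cases ?_ (fun i => ?_) i
          · exact h2
          · exact congrFun h3 i
        · intro h3
          have h4 := (hk ⟨g.1, h1⟩).2 h3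
          show Fin.tail (q ⟨g.1, h1⟩) = 0
          rw [h4]
          rfl
    refine PCh.step N (NG2c_K N q hm) (k + m) (fun g => q g 0) hN hle2
      ((continuous_apply 0).comp hq) ?_ ?_ ?_ hP
    · intro g h
      show q (g * h) 0 = q g 0 + q h 0
      rw [hm]
      rfl
    · intro r
      obtain ⟨g, hg⟩ := hs (Fin.cons r 0)
      refine ⟨g, ?_⟩
      show q g 0 = r
      rw [hg]
      rfl
    · intro g
      rw [hmem]
      constructor
      · intro h1
        exact ⟨g.2, h1⟩
      · rintro ⟨_, h1⟩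
        exact h1

end Pool.Agent.AbCoc
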