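import Pool.Agent.Lib_MP_418a80_t3.NG4b
import Pool.Agent.Lib_MP_418a80_t3.NG2c
import Pool.Agent.Lib_MP_418a80_t3.Heis8

/-!
# MP_418a80_an, T3, group side: nilpotent groups with continuous real powers have `KeyAll`

A locally compact, second countable Hausdorff group `G ≠ 1` which is nilpotent and has continuous real
powers with unique roots (`RPow G`; these are exactly the simply connected nilpotent Lie groups) has
`KeyAll`.
-/

set_option autoImplicit false
set_option linter.unusedSectionVars false
set_option linter.unusedVariables false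
set_option linter.unusedSimpArgs false

open MeasureTheory Topology Filter TopologicalSpace
open scoped commutatorElement RealInnerProductSpace

namespace Pool.Agent.AbCoc

universe u v w

/-- the upper central series has finite length in the sense of `PCh` -/
theorem RPow.exists_pch {G : Type w} [Group G] [TopologicalSpace G] [T2Space G]
    [IsTopologicalGroup G] [LocallyCompactSpace G] (R : RPow G) (i : ℕ) :
    ∃ k, PCh R (Subgroup.upperCentralSeries G i) k := by
  induction i with
  | zero => exact ⟨0, PCh.bot⟩
  | succ i ih =>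
    obtain ⟨k, hk⟩ := ih
    set N := Subgroup.upperCentralSeries G (i + 1) with hN
    set N' := Subgroup.upperCentralSeries G i with hN'
    have h1 := R.rn_upper (i + 1)
    have h2 := R.rn_upper i
    have hle : N' ≤ N := Subgroup.upperCentralSeries_mono G (Nat.le_succ i)
    have : LocallyCompactSpace N := h1.closed.isClosedEmbedding_subtypeVal.locallyCompactSpace
    obtain ⟨m, q, hq, hqm, hqs, hqk⟩ := RPow.exists_hom (R.res N h1.st) (K := N'.subgroupOf N)
      (h2.closed.preimage continuous_subtype_val) (R.st_subgroupOf h1.st h2.st) (by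
        intro g h
        rw [Subgroup.mem_subgroupOf]
        have := Subgroup.mem_upperCentralSeries_succ_iff.1 g.2 (h : G)
        rwa [commutatorElement_def] at this)
    refine ⟨k + m, hk.of_hom N h1.st hle (fun g => (q g).ofLp)
      ((PiLp.continuous_ofLp 2 _).comp hq) (fun g h => by rw [hqm]; rfl) ?_ fun g => ?_⟩
    · intro v
      obtain ⟨g, hg⟩ := hqs (WithLp.toLp 2 v)
      exact ⟨g, by change (q g).ofLp = v; rw [hg]⟩
    · rw [← Subgroup.mem_subgroupOf, ← hqk]
      constructor
      · intro h
        ext i
        exact congrFun h i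
      · intro h
        rw [h]
        rfl

/-- proper closed stable subgroups have shorter chains -/
theorem PCh.lt_of_ne_top {G : Type w} [Group G] [TopologicalSpace G] [T2Space G]
    [IsTopologicalGroup G] {R : RPow G} {k : ℕ} (h : PCh R (⊤ : Subgroup G) k) (H : Subgroup G)
    (hH : R.St H) (hne : H ≠ ⊤) : ∃ k', k' < k ∧ PCh (R.res H hH) (⊤ : Subgroup H) k' := by
  obtain ⟨k', h1, h2, h3⟩ := h.subgroupOf H hH
  have e : (⊤ : Subgroup G).subgroupOf H = ⊤ := by
    ext x
    simp [Subgroup.mem_subgroupOf]
  rw [e] at h2
  refine ⟨k', lt_of_le_of_ne h1 fun h4 => hne ?_, h2⟩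
  exact top_le_iff.1 (h3 h4)

/-- vector groups -/
theorem keyAll_of_comm {G : Type w} [Group G] [TopologicalSpace G] [T2Space G]
    [IsTopologicalGroup G] [SecondCountableTopology G] [LocallyCompactSpace G] [Nontrivial G]
    (R : RPow G) (hc : ∀ a b : G, a * b = b * a) : KeyAll.{u, v, w} G := by
  obtain ⟨m, q, hq, hqm, hqb⟩ := R.exists_euclid hc
  have hm : 0 < m := by
    rcases Nat.eq_zero_or_pos m with h | h
    · exfalso
      subst h
      obtain ⟨a, b, hab⟩ := exists_pair_ne G
      apply hab
      apply hqb.1
      exact Subsingleton.elim _ _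
    · exact h
  have hnc : NoncompactSpace G := by
    have : Nonempty (Fin m) := ⟨⟨0, hm⟩⟩
    rw [← not_compactSpace_iff]
    intro hcs
    have h1 : IsCompact (Set.range q) := isCompact_range hq
    rw [hqb.2.range_eq] at h1
    exact noncompact_univ (EuclideanSpace ℝ (Fin m)) h1
  refine keyAll_of_euclByCo (⊤ : Subgroup G) m
    (MonoidHom.mk' (fun g => Multiplicative.ofAdd (q g)) fun a b => by
      rw [Subgroup.coe_mul, hqm]; rfl) (by rw [Subgroup.coe_top]; exact isOpen_univ)
    (hq.comp continuous_subtype_val) (fun v => ?_) ?_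
  · obtain ⟨g, hg⟩ := hqb.2 v.toAdd
    exact ⟨⟨g, trivial⟩, by
      change Multiplicative.ofAdd (q g) = v
      rw [hg]
      rfl⟩
  · have hq1 : q 1 = 0 := by
      have h := hqm 1 1
      rw [mul_one] at h
      exact left_eq_add.1 h
    have e : ((MonoidHom.mk' (fun g : (⊤ : Subgroup G) => Multiplicative.ofAdd (q g)) fun a b => by
        rw [Subgroup.coe_mul, hqm]; rfl).ker : Set (⊤ : Subgroup G)) = {1} := by
      ext g
      constructor
      · intro hg
        have h1 : q g = 0 := hg
        rw [← hq1] at h1
        exact Subtype.ext (hqb.1 h1)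
      · rintro rfl
        exact one_mem _
    rw [e]
    exact isCompact_singleton

/-- **nilpotent groups with continuous real powers** -/
theorem keyAll_of_pch (k : ℕ) : ∀ (G : Type w) [Group G] [TopologicalSpace G] [T2Space G]
    [IsTopologicalGroup G] [SecondCountableTopology G] [LocallyCompactSpace G] [Nontrivial G]
    [Group.IsNilpotent G] (R : RPow G), PCh R (⊤ : Subgroup G) k → KeyAll.{u, v, w} G := by
  induction k using Nat.strong_induction_on with
  | h k ih =>
    intro G _ _ _ _ _ _ _ _ R hR
    by_cases hc : ∀ a b : G, a * b = b * a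
    · exact keyAll_of_comm R hc
    · push Not at hc
      obtain ⟨Z⟩ := R.exists_zdata hc
      obtain ⟨n, H, hn⟩ := Z.exists_heis
      have hsub : ∀ L : Subgroup G, IsClosed (L : Set G) → R.St L → L ≠ ⊤ → (∃ z ∈ L, z ≠ 1) →
          KeyAll.{u, v, w} L := by
        intro L hL hLs hLt ⟨z, hz, hz1⟩
        obtain ⟨k', hk', hp⟩ := hR.lt_of_ne_top L hLs hLt
        have : LocallyCompactSpace L := hL.isClosedEmbedding_subtypeVal.locallyCompactSpace
        have : SecondCountableTopology L :=
          inferInstanceAs (SecondCountableTopology ((L : Set G) : Set G))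
        have : Nontrivial L := ⟨⟨z, hz⟩, 1, fun h => hz1 (congrArg Subtype.val h)⟩
        exact ih k' hk' L (R.res L hLs) hp
      -- a nontrivial element of the kernels
      obtain ⟨z, hz⟩ : ∃ z, z = ⁅H.x ⟨0, hn⟩ 1, H.y ⟨0, hn⟩ 1⁆ := ⟨_, rfl⟩
      have haz : H.a z = 0 := by
        have h1 := H.toHData.amul
        have h2 := H.toHData.a_inv
        change H.toHData.a z = 0
        rw [hz, commutatorElement_def, h1, h1, h1, h2, h2]
        abel
      have hbz : H.b z = 0 := by
        have h1 := H.toHData.bmul
        have h2 := H.toHData.b_inv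
        change H.toHData.b z = 0
        rw [hz, commutatorElement_def, h1, h1, h1, h2, h2]
        abel
      have hz1 : z ≠ 1 := by
        intro h
        rw [hz, commutatorElement_eq_one_iff_mul_comm] at h
        have h1 := congrArg H.ξ h
        rw [H.ξmul, H.ξmul, H.ax, H.by', H.ay, inner_zero_left, add_zero, add_comm (H.ξ (H.x _ _)),
          add_eq_left, inner_eq_sum, Finset.sum_eq_single ⟨0, hn⟩] at h1
        · simp at h1
        · intro j _ hj
          simp [hj]
        · intro h2
          exact absurd (Finset.mem_univ _) h2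
      refine keyAll_heis H hn ?_ fun χ0 hχ0 => ?_
      · refine hsub _ H.toHData.isClosed_kerA (R.st_of_hom H.a H.ha H.amul _ fun g => Iff.rfl) ?_
          ⟨z, haz, hz1⟩
        intro htop
        have h1 : H.x ⟨0, hn⟩ 1 ∈ H.toHData.kerA := by rw [htop]; trivial
        have h2 : H.a (H.x ⟨0, hn⟩ 1) = 0 := h1
        rw [H.ax] at h2
        have h3 := congrArg (fun v : EuclideanSpace ℝ (Fin n) => v ⟨0, hn⟩) h2
        simp at h3
      · refine hsub _ (H.toHData.isClosed_kerX χ0) (R.st_of_hom (fun g => ⟪χ0, H.toHData.p g⟫)
          (Continuous.inner (𝕜 := ℝ) continuous_const H.toHData.continuous_p)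
          (fun g h => by rw [H.toHData.p_mul, inner_add_right]) _ fun g => Iff.rfl) ?_ ⟨z, ?_, hz1⟩
        · intro htop
          have h1 : H.toHData.σ χ0 ∈ H.toHData.kerX χ0 := by rw [htop]; trivial
          rw [H.toHData.mem_kerX, H.toHData.p_σ, inner_self_eq_zero] at h1
          exact hχ0 h1
        · rw [H.toHData.mem_kerX]
          have h1 : H.toHData.p z = 0 := LV_ext haz hbz
          rw [h1, inner_zero_right]

/-- **simply connected nilpotent Lie groups**: a nontrivial locally compact second countable group
which is nilpotent and has continuous real powers with unique roots has `KeyAll` -/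
theorem nilpotent_keyAll {G : Type w} [Group G] [TopologicalSpace G] [T2Space G]
    [IsTopologicalGroup G] [SecondCountableTopology G] [LocallyCompactSpace G] [Nontrivial G]
    [Group.IsNilpotent G] (R : RPow G) : KeyAll.{u, v, w} G := by
  obtain ⟨N, hN⟩ := Group.IsNilpotent.nilpotent G
  obtain ⟨k, hk⟩ := R.exists_pch N
  rw [hN] at hk
  exact keyAll_of_pch k G R hk

end Pool.Agent.AbCoc
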