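import Pool.Agent.Lib_MP_418a80_t3.ContrKey
import Pool.Agent.Lib_MP_418a80_t3.NG5
import Pool.Agent.Lib_MP_418a80_on.OnClass

/-!
# MP_418a80_an, T3: invariance of `KeyAll` under isomorphisms; open normal nilpotent subgroups
-/

set_option autoImplicit false
set_option linter.unusedVariables false
set_option linter.unusedSectionVars false

open MeasureTheory Topology Filter TopologicalSpace
open scoped ENNReal

namespace Pool.Agent.AbCoc

universe u v w z

section
variable {G : Type w} [Group G] [TopologicalSpace G] [IsTopologicalGroup G] [T2Space G]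
  [SecondCountableTopology G] [LocallyCompactSpace G]
variable {H : Type z} [Group H] [TopologicalSpace H] [IsTopologicalGroup H] [T2Space H]
  [SecondCountableTopology H] [LocallyCompactSpace H]

/-- `KeyAll` is invariant under isomorphisms of topological groups -/
theorem KeyAll.congr (j : H →* G) (hj : IsClosedEmbedding j) (hs : Function.Surjective j)
    (hH : KeyAll.{u, v, z} H) : KeyAll.{u, v, w} G := by
  refine keyAll_of_contracts j hj ?_ hH
  intro D hD
  refine ⟨j ⁻¹' D, hj.isCompact_preimage hD, fun V hV => ⟨1, fun s hs' => ?_⟩⟩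
  obtain ⟨c, rfl⟩ := hs s
  exact ⟨c, hs', 1, mem_of_mem_nhds hV, by simp⟩

end

section
variable {G : Type w} [Group G] [TopologicalSpace G] [IsTopologicalGroup G] [T2Space G]
  [SecondCountableTopology G] [LocallyCompactSpace G]

/-- chains in a closed subgroup `H` with `KeyAll` at each stage give towers -/
theorem kTower_of_pch (H : Subgroup G) (hH : IsClosed (H : Set G)) [Group.IsNilpotent H]
    (R : RPow H) {N : Subgroup H} {k : ℕ} (h : PCh R N k) (hN : IsClosed (N : Set H)) :
    KTower.{u, v, w} (N.map H.subtype) := by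
  have : LocallyCompactSpace H := hH.isClosedEmbedding_subtypeVal.locallyCompactSpace
  have : SecondCountableTopology H :=
    inferInstanceAs (SecondCountableTopology ((H : Set G) : Set G))
  classical
  induction h with
  | bot =>
    rw [Subgroup.map_bot]
    exact KTower.bot
  | step N N' k p hNs hle hp hm hs hk _ ih =>
    have hN' : IsClosed (N' : Set H) := by
      have e : (N' : Set H) = Subtype.val '' {g : N | p g = 0} := by
        ext g
        constructor
        · intro hg
          exact ⟨⟨g, hle hg⟩, (hk _).2 hg, rfl⟩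
        · rintro ⟨g, hg, rfl⟩
          exact (hk _).1 hg
      rw [e]
      exact hN.isClosedEmbedding_subtypeVal.isClosedMap _ (isClosed_singleton.preimage hp)
    have hcl : IsClosed ((N.map H.subtype : Subgroup G) : Set G) := by
      rw [Subgroup.coe_map]
      exact hH.isClosedEmbedding_subtypeVal.isClosedMap _ hN
    have hmem : ∀ g : G, g ∈ N.map H.subtype ↔ ∃ h : g ∈ H, (⟨g, h⟩ : H) ∈ N := by
      intro g
      rw [Subgroup.mem_map]
      constructor
      · rintro ⟨x, hx, rfl⟩
        exact ⟨x.2, hx⟩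
      · rintro ⟨h, hx⟩
        exact ⟨⟨g, h⟩, hx, rfl⟩
    have hmem' : ∀ g : G, g ∈ N'.map H.subtype ↔ ∃ h : g ∈ H, (⟨g, h⟩ : H) ∈ N' := by
      intro g
      rw [Subgroup.mem_map]
      constructor
      · rintro ⟨x, hx, rfl⟩
        exact ⟨x.2, hx⟩
      · rintro ⟨h, hx⟩
        exact ⟨⟨g, h⟩, hx, rfl⟩
    -- the homomorphism on the image
    obtain ⟨pp, hpp⟩ : ∃ pp : G → EuclideanSpace ℝ (Fin 1),
        ∀ (g : G) (h : g ∈ H) (h' : (⟨g, h⟩ : H) ∈ N), pp g
          = WithLp.toLp 2 (fun _ => p ⟨⟨g, h⟩, h'⟩) :=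
      ⟨fun g => if h : ∃ h : g ∈ H, (⟨g, h⟩ : H) ∈ N then
        WithLp.toLp 2 (fun _ => p ⟨⟨g, h.1⟩, h.2⟩) else 0, fun g h h' => dif_pos ⟨h, h'⟩⟩
    refine KTower.step _ (N'.map H.subtype) 1 pp one_pos hcl
      ⟨?_, ?_, ?_, ?_, Subgroup.map_mono hle⟩ ?_ (ih hN')
    · rw [continuousOn_iff_continuous_domRestrict]
      have e : (N.map H.subtype : Set G).domRestrict pp = fun g : (N.map H.subtype : Set G) =>
          WithLp.toLp 2 (fun _ : Fin 1 => p ⟨⟨g, ((hmem g).1 g.2).1⟩, ((hmem g).1 g.2).2⟩) := by
        funext g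
        exact hpp _ _ _
      rw [e]
      refine (PiLp.continuous_toLp 2 _).comp (continuous_pi fun _ => hp.comp ?_)
      exact (continuous_subtype_val.subtype_mk _).subtype_mk _
    · intro s hs t ht
      obtain ⟨h1, h2⟩ := (hmem s).1 hs
      obtain ⟨h3, h4⟩ := (hmem t).1 ht
      rw [hpp s h1 h2, hpp t h3 h4, hpp (s * t) (mul_mem h1 h3) (mul_mem h2 h4)]
      ext i
      exact hm ⟨⟨s, h1⟩, h2⟩ ⟨⟨t, h3⟩, h4⟩
    · intro q
      obtain ⟨x, hx⟩ := hs (q 0)
      refine ⟨(x : H), (hmem _).2 ⟨x.1.2, x.2⟩, ?_⟩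
      rw [hpp _ x.1.2 x.2]
      ext i
      rw [Subsingleton.elim i 0]
      exact hx
    · intro s hs
      obtain ⟨h1, h2⟩ := (hmem s).1 hs
      rw [hpp s h1 h2, hmem' s]
      constructor
      · intro h
        have h5 : p ⟨⟨s, h1⟩, h2⟩ = 0 := congrArg (fun v : EuclideanSpace ℝ (Fin 1) => v 0) h
        exact ⟨h1, (hk _).1 h5⟩
      · rintro ⟨h5, h6⟩
        have h7 : p ⟨⟨s, h1⟩, h2⟩ = 0 := (hk _).2 h6
        ext i
        exact h7
    · -- `KeyAll` of the image
      have : LocallyCompactSpace N := hN.isClosedEmbedding_subtypeVal.locallyCompactSpace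
      have : SecondCountableTopology N :=
        inferInstanceAs (SecondCountableTopology ((N : Set H) : Set H))
      have : LocallyCompactSpace (N.map H.subtype) :=
        hcl.isClosedEmbedding_subtypeVal.locallyCompactSpace
      have : SecondCountableTopology (N.map H.subtype) :=
        inferInstanceAs (SecondCountableTopology ((N.map H.subtype : Set G) : Set G))
      obtain ⟨x, hx⟩ := hs 1
      have hx1 : x ≠ 1 := by
        rintro rfl
        have h := hm 1 1
        rw [mul_one] at h
        rw [left_eq_add.1 h] at hx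
        exact zero_ne_one hx
      have : Nontrivial N := ⟨⟨x, 1, hx1⟩⟩
      have hK : KeyAll.{u, v, w} N := nilpotent_keyAll (R.res N hNs)
      obtain ⟨j, hj⟩ : ∃ j : N →* (N.map H.subtype : Subgroup G), ∀ n, (j n : G) = ((n : H) : G) :=
        ⟨{ toFun := fun n => ⟨n, (hmem _).2 ⟨n.1.2, n.2⟩⟩
           map_one' := rfl
           map_mul' := fun a b => rfl }, fun n => rfl⟩
      refine KeyAll.congr j ?_ ?_ hK
      · have h1 : IsClosedEmbedding (fun n : N => ((n : H) : G)) :=
          hH.isClosedEmbedding_subtypeVal.comp hN.isClosedEmbedding_subtypeVal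
        have h2 : (fun n : N => ((n : H) : G)) = Subtype.val ∘ j := funext fun n => (hj n).symm
        rw [h2] at h1
        exact IsClosedEmbedding.of_comp hcl.isClosedEmbedding_subtypeVal.isEmbedding h1
      · rintro ⟨g, hg⟩
        obtain ⟨h1, h2⟩ := (hmem g).1 hg
        exact ⟨⟨⟨g, h1⟩, h2⟩, Subtype.ext (hj _)⟩

/-- **open normal nilpotent subgroups**: if `G` has an open normal nontrivial subgroup which is
nilpotent and has continuous real powers then `KeyAll G` -/
theorem keyAll_of_open_nilpotent (H : Subgroup G) [H.Normal] (hH : IsOpen (H : Set G))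
    [Nontrivial H] [Group.IsNilpotent H] (R : RPow H) : KeyAll.{u, v, w} G := by
  have hcl : IsClosed (H : Set G) := H.isClosed_of_isOpen hH
  have : LocallyCompactSpace H := hcl.isClosedEmbedding_subtypeVal.locallyCompactSpace
  obtain ⟨N, hN⟩ := Group.IsNilpotent.nilpotent H
  obtain ⟨k, hk⟩ := R.exists_pch N
  rw [hN] at hk
  have h1 := kTower_of_pch.{u, v, w} H hcl R hk isClosed_univ
  have e : (⊤ : Subgroup H).map H.subtype = H := by
    rw [← MonoidHom.range_eq_map, Subgroup.range_subtype]
  rw [e] at h1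
  exact keyAll_of_kTower H hH (H.ne_bot_iff_exists_ne_one.2 (exists_ne 1)) h1

end

end Pool.Agent.AbCoc
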