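import Mathlib

/-!
# MP_418a80_an, T3, group side: groups with continuous real powers

`RPow G`: a jointly continuous map `pw : ℝ → G → G` with `pw 1 g = g`, `pw (s + t) g = pw s g * pw t g`,
and unique roots. Simply connected nilpotent Lie groups (more generally: exponential Lie groups) have it.
-/

set_option autoImplicit false

open Topology Filter

namespace Pool.Agent.AbCoc

universe u v w

/-- one-parameter groups in a group with unique roots are determined by the value at `1` -/
theorem oneParam_ext {Q : Type w} [Group Q] [TopologicalSpace Q] [T2Space Q]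
    (root : ∀ n : ℕ, 0 < n → ∀ g h : Q, g ^ n = h ^ n → g = h) (φ ψ : ℝ → Q)
    (hφ : Continuous φ) (hψ : Continuous ψ) (aφ : ∀ s t, φ (s + t) = φ s * φ t)
    (aψ : ∀ s t, ψ (s + t) = ψ s * ψ t) (h1 : φ 1 = ψ 1) (t : ℝ) : φ t = ψ t := by
  have key : ∀ θ : ℝ → Q, (∀ s t, θ (s + t) = θ s * θ t) → ∀ (m : ℤ) (t : ℝ),
      θ (m * t) = θ t ^ m := by
    intro θ aθ m t
    have h := map_zpow (MonoidHom.mk' (fun x : Multiplicative ℝ => θ x.toAdd)
      fun a b => aθ a.toAdd b.toAdd) (Multiplicative.ofAdd t) m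
    simp only [MonoidHom.mk'_apply, toAdd_ofAdd, toAdd_zpow, zsmul_eq_mul] at h
    exact h
  have h2 : φ ∘ ((↑) : ℚ → ℝ) = ψ ∘ ((↑) : ℚ → ℝ) := by
    funext q
    refine root q.den q.den_pos _ _ ?_
    have h3 : ∀ θ : ℝ → Q, (∀ s t, θ (s + t) = θ s * θ t) → θ (q : ℝ) ^ q.den = θ 1 ^ q.num := by
      intro θ aθ
      rw [← key θ aθ q.num 1, ← zpow_natCast, ← key θ aθ q.den (q : ℝ), mul_one]
      congr 1
      rw [Int.cast_natCast, mul_comm]
      exact_mod_cast Rat.mul_den_eq_num q
    change φ (q : ℝ) ^ q.den = ψ (q : ℝ) ^ q.den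
    rw [h3 φ aφ, h3 ψ aψ, h1]
  exact congrFun (Rat.denseRange_cast.equalizer hφ hψ h2) t

/-- continuous real powers with unique roots -/
structure RPow (G : Type w) [Group G] [TopologicalSpace G] where
  pw : ℝ → G → G
  cont : Continuous fun x : ℝ × G => pw x.1 x.2
  one : ∀ g, pw 1 g = g
  add : ∀ s t g, pw (s + t) g = pw s g * pw t g
  root : ∀ n : ℕ, 0 < n → ∀ g h : G, g ^ n = h ^ n → g = h

namespace RPow

variable {G : Type w} [Group G] [TopologicalSpace G] (R : RPow G)

theorem cont_left (g : G) : Continuous fun t => R.pw t g :=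
  R.cont.comp (continuous_id.prodMk continuous_const)

theorem cont_right (t : ℝ) : Continuous (R.pw t) :=
  R.cont.comp (continuous_const.prodMk continuous_id)

theorem zero (g : G) : R.pw 0 g = 1 := by
  have h := R.add 0 0 g
  rw [add_zero] at h
  exact left_eq_mul.1 h

theorem neg (t : ℝ) (g : G) : R.pw (-t) g = (R.pw t g)⁻¹ := by
  have h := R.add (-t) t g
  rw [neg_add_cancel, R.zero] at h
  exact (inv_eq_of_mul_eq_one_left h.symm).symm

theorem comm (s t : ℝ) (g : G) : R.pw s g * R.pw t g = R.pw t g * R.pw s g := by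
  rw [← R.add, ← R.add, add_comm]

theorem natCast (n : ℕ) (g : G) : R.pw n g = g ^ n := by
  induction n with
  | zero => rw [Nat.cast_zero, R.zero, pow_zero]
  | succ n ih => rw [Nat.cast_succ, R.add, ih, R.one, pow_succ]

theorem pow_eq (n : ℕ) (t : ℝ) (g : G) : R.pw t g ^ n = R.pw (n * t) g := by
  induction n with
  | zero => rw [Nat.cast_zero, zero_mul, R.zero, pow_zero]
  | succ n ih => rw [pow_succ, ih, Nat.cast_succ, add_mul, one_mul, R.add]

theorem inv_pow (n : ℕ) (hn : 0 < n) (g : G) : R.pw (n : ℝ)⁻¹ g ^ n = g := by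
  rw [R.pow_eq, mul_inv_cancel₀ (Nat.cast_ne_zero.2 hn.ne'), R.one]

section T2
variable [T2Space G]

theorem eq_pw (φ : ℝ → G) (hφ : Continuous φ) (aφ : ∀ s t, φ (s + t) = φ s * φ t) (t : ℝ) :
    φ t = R.pw t (φ 1) :=
  oneParam_ext R.root φ (fun t => R.pw t (φ 1)) hφ (R.cont_left _) aφ
    (fun s t => R.add s t _) (R.one _).symm t

theorem pw_one (t : ℝ) : R.pw t 1 = 1 :=
  (R.eq_pw (fun _ => 1) continuous_const (fun _ _ => (mul_one 1).symm) t).symm

theorem pw_pw (s t : ℝ) (g : G) : R.pw s (R.pw t g) = R.pw (s * t) g := by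
  have h := R.eq_pw (fun s => R.pw (s * t) g) ((R.cont_left g).comp (continuous_mul_const t))
    (fun a b => by rw [add_mul, R.add]) s
  rw [one_mul] at h
  exact h.symm

theorem pw_conj [IsTopologicalGroup G] (t : ℝ) (c g : G) :
    R.pw t (c * g * c⁻¹) = c * R.pw t g * c⁻¹ := by
  have h := R.eq_pw (fun t => c * R.pw t g * c⁻¹)
    ((continuous_const.mul (R.cont_left g)).mul continuous_const)
    (fun a b => by rw [R.add]; group) t
  rw [R.one] at h
  exact h.symm

theorem pw_comm_right [IsTopologicalGroup G] {g h : G} (hc : g * h = h * g) (t : ℝ) :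
    R.pw t g * h = h * R.pw t g := by
  have h1 := R.pw_conj t h g
  rw [← hc, mul_inv_cancel_right] at h1
  rw [eq_mul_inv_iff_mul_eq] at h1
  exact h1

theorem pw_comm [IsTopologicalGroup G] {g h : G} (hc : g * h = h * g) (s t : ℝ) :
    R.pw s g * R.pw t h = R.pw t h * R.pw s g :=
  (R.pw_comm_right (R.pw_comm_right hc s).symm t).symm

theorem pw_mul [IsTopologicalGroup G] {g h : G} (hc : g * h = h * g) (t : ℝ) :
    R.pw t (g * h) = R.pw t g * R.pw t h := by
  have h1 := R.eq_pw (fun t => R.pw t g * R.pw t h) ((R.cont_left g).mul (R.cont_left h))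
    (fun a b => by
      rw [R.add, R.add]
      have := R.pw_comm hc b a
      calc R.pw a g * R.pw b g * (R.pw a h * R.pw b h)
          = R.pw a g * (R.pw b g * R.pw a h) * R.pw b h := by group
        _ = R.pw a g * (R.pw a h * R.pw b g) * R.pw b h := by rw [this]
        _ = _ := by group) t
  rw [R.one, R.one] at h1
  exact h1.symm

end T2

/-- continuous homomorphisms to a vector space are homogeneous -/
theorem map_pw {V : Type v} [AddCommGroup V] [Module ℝ V] [TopologicalSpace V]
    [ContinuousSMul ℝ V] [T2Space V] (f : G → V) (hf : Continuous f)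
    (hm : ∀ g h, f (g * h) = f g + f h) (t : ℝ) (g : G) : f (R.pw t g) = t • f g := by
  have h := map_real_smul (AddMonoidHom.mk' (fun t => f (R.pw t g))
    fun a b => by rw [R.add, hm]) (hf.comp (R.cont_left g)) t 1
  simp only [AddMonoidHom.mk'_apply, smul_eq_mul, mul_one, R.one] at h
  exact h

/-- stable subgroups -/
def St (H : Subgroup G) : Prop := ∀ (t : ℝ) (g : G), g ∈ H → R.pw t g ∈ H

theorem st_top : R.St ⊤ := fun _ _ _ => Subgroup.mem_top _

theorem st_bot [T2Space G] : R.St ⊥ := fun t g hg => by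
  rw [Subgroup.mem_bot] at hg ⊢
  rw [hg, R.pw_one]

theorem St.inf {R : RPow G} {H H' : Subgroup G} (h : R.St H) (h' : R.St H') : R.St (H ⊓ H') :=
  fun t g hg => ⟨h t g hg.1, h' t g hg.2⟩

theorem st_sInf {R : RPow G} {s : Set (Subgroup G)} (h : ∀ H ∈ s, R.St H) : R.St (sInf s) :=
  fun t g hg => Subgroup.mem_sInf.2 fun H hH => h H hH t g (Subgroup.mem_sInf.1 hg H hH)

/-- stable subgroups are isolated -/
theorem St.isolated {R : RPow G} {H : Subgroup G} (h : R.St H) {n : ℕ} (hn : 0 < n) {g : G}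
    (hg : g ^ n ∈ H) [T2Space G] : g ∈ H := by
  have h1 := h (n : ℝ)⁻¹ _ hg
  rw [← R.natCast, R.pw_pw, inv_mul_cancel₀ (Nat.cast_ne_zero.2 hn.ne'), R.one] at h1
  exact h1

/-- the kernel of a continuous homomorphism to a vector space is stable -/
theorem st_of_hom {V : Type v} [AddCommGroup V] [Module ℝ V] [TopologicalSpace V]
    [ContinuousSMul ℝ V] [T2Space V] (f : G → V) (hf : Continuous f)
    (hm : ∀ g h, f (g * h) = f g + f h) (H : Subgroup G) (hH : ∀ g, g ∈ H ↔ f g = 0) :
    R.St H := fun t g hg => by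
  rw [hH] at hg ⊢
  rw [R.map_pw f hf hm, hg, smul_zero]

/-- restriction to a stable subgroup -/
def res (H : Subgroup G) (hH : R.St H) : RPow H where
  pw t g := ⟨R.pw t g, hH t g g.2⟩
  cont := (R.cont.comp (continuous_fst.prodMk (continuous_subtype_val.comp
    continuous_snd))).subtype_mk _
  one g := Subtype.ext (R.one g)
  add s t g := Subtype.ext (R.add s t g)
  root n hn g h hgh := Subtype.ext (R.root n hn g h (by
    have := congrArg Subtype.val hgh
    simpa using this))

theorem res_pw (H : Subgroup G) (hH : R.St H) (t : ℝ) (g : H) :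
    ((R.res H hH).pw t g : G) = R.pw t g := rfl

theorem st_subgroupOf {H K : Subgroup G} (hH : R.St H) (hK : R.St K) :
    (R.res H hH).St (K.subgroupOf H) := fun t g hg => by
  rw [Subgroup.mem_subgroupOf] at hg ⊢
  exact hK t g hg

/-- products of one-parameter groups -/
noncomputable def prd {n : ℕ} (X : Fin n → G) (v : EuclideanSpace ℝ (Fin n)) : G :=
  ((List.finRange n).map fun i => R.pw (v i) (X i)).prod

theorem prd_zero {n : ℕ} (X : Fin n → G) : R.prd X 0 = 1 := by
  unfold prd
  refine List.prod_eq_one fun x hx => ?_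
  obtain ⟨i, _, rfl⟩ := List.mem_map.1 hx
  exact R.zero _

theorem continuous_prd [IsTopologicalGroup G] {n : ℕ} (X : Fin n → G) : Continuous (R.prd X) := by
  unfold prd
  refine continuous_list_prod _ fun i _ => ?_
  exact (R.cont_left (X i)).comp (EuclideanSpace.proj i).continuous

theorem prd_mem {n : ℕ} (X : Fin n → G) (v : EuclideanSpace ℝ (Fin n)) {H : Subgroup G}
    (hH : R.St H) (hX : ∀ i, X i ∈ H) : R.prd X v ∈ H := by
  unfold prd
  refine list_prod_mem fun x hx => ?_
  obtain ⟨i, _, rfl⟩ := List.mem_map.1 hx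
  exact hH _ _ (hX i)

theorem map_prd {V : Type v} [AddCommGroup V] [Module ℝ V] [TopologicalSpace V]
    [ContinuousSMul ℝ V] [T2Space V] (f : G → V) (hf : Continuous f)
    (hm : ∀ g h, f (g * h) = f g + f h) {n : ℕ} (X : Fin n → G) (v : EuclideanSpace ℝ (Fin n)) :
    f (R.prd X v) = ∑ i, v i • f (X i) := by
  unfold prd
  have h1 : ∀ l : List (Fin n), f ((l.map fun i => R.pw (v i) (X i)).prod)
      = (l.map fun i => v i • f (X i)).sum := by
    intro l
    induction l with
    | nil =>
      have h := hm 1 1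
      rw [mul_one] at h
      simpa using left_eq_add.1 h
    | cons a l ih =>
      rw [List.map_cons, List.prod_cons, hm, ih, List.map_cons, List.sum_cons, R.map_pw f hf hm]
  rw [h1, Fin.sum_univ_def]

end RPow

end Pool.Agent.AbCoc
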