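import Pool.Agent.Lib_MP_418a80_t3.Defs

/-!
# MP_418a80_an, T3: elementary facts on dominated and on labelled families
-/

set_option autoImplicit false
set_option linter.unusedVariables false
set_option linter.unusedSectionVars false

open Topology Filter MeasureTheory
open scoped RealInnerProductSpace ComplexConjugate

namespace Pool.Agent.AbCoc

universe u v w z

theorem ch_zero : ch 0 = 1 := by simp [ch]

theorem ch_add (s t : ℝ) : ch (s + t) = ch s * ch t := by
  unfold ch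
  rw [← Complex.exp_add]
  congr 1
  push_cast
  ring

theorem norm_ch (t : ℝ) : ‖ch t‖ = 1 := Complex.norm_exp_ofReal_mul_I t

theorem ch_ne_zero (t : ℝ) : ch t ≠ 0 := Complex.exp_ne_zero _

theorem continuous_ch : Continuous ch := by
  unfold ch
  fun_prop

theorem conj_ch (t : ℝ) : conj (ch t) = ch (-t) := by
  unfold ch
  rw [← Complex.exp_conj, map_mul, Complex.conj_ofReal, Complex.conj_I]
  congr 1
  push_cast
  ring

theorem ch_mul_conj (t : ℝ) : ch t * conj (ch t) = 1 := by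
  rw [conj_ch, ← ch_add, add_neg_cancel, ch_zero]

theorem ch_sub (s t : ℝ) : ch (s - t) = ch s * conj (ch t) := by
  rw [sub_eq_add_neg, ch_add, conj_ch]

theorem norm_ch_sub_one_le (t : ℝ) : ‖ch t - 1‖ ≤ |t| := by
  have h := Real.norm_exp_I_mul_ofReal_sub_one_le (x := t)
  unfold ch
  rwa [mul_comm, ← Real.norm_eq_abs]

theorem norm_ch_sub_ch_le (s t : ℝ) : ‖ch s - ch t‖ ≤ |s - t| := by
  have h : ch s - ch t = (ch (s - t) - 1) * ch t := by
    rw [sub_mul, one_mul, ← ch_add, sub_add_cancel]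
  rw [h, norm_mul, norm_ch, mul_one]
  exact norm_ch_sub_one_le _

section
variable {G : Type w} {V : Type z} [NormedAddCommGroup V] [InnerProductSpace ℝ V] (p : G → V)

theorem pch_zero (g : G) : pch p 0 g = 1 := by simp [pch, ch_zero]

theorem pch_add (q q' : V) (g : G) : pch p (q + q') g = pch p q g * pch p q' g := by
  rw [pch, inner_add_left, ch_add]; rfl

theorem norm_pch (q : V) (g : G) : ‖pch p q g‖ = 1 := norm_ch _

theorem conj_pch (q : V) (g : G) : conj (pch p q g) = pch p (-q) g := by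
  rw [pch, conj_ch, pch, inner_neg_left]

end

section
variable {A : Type u} [CStarAlgebra A] {K : Type v} [NormedAddCommGroup K]
  [InnerProductSpace ℂ K] [CompleteSpace K]

namespace TrAlg
variable (T : TrAlg A K) {J : Type} [Fintype J] {J' : Type} [Fintype J']

theorem ms_nonneg (y : J → A) : 0 ≤ T.ms y := Finset.sum_nonneg fun _ _ => sq_nonneg _

theorem norm_smul_sq (c : ℂ) (a : A) : ‖T.ι (c • a)‖ ^ 2 = ‖c‖ ^ 2 * ‖T.ι a‖ ^ 2 := by
  rw [map_smul, norm_smul, mul_pow]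

variable {T}

theorem Dm.ms_le {C : ℝ} {y : J → A} (h : T.Dm C y) : T.ms y ≤ C := by
  have := h.1 1
  simpa [T.norm_one, TrAlg.ms] using this

theorem Dm.nonneg {C : ℝ} {y : J → A} (h : T.Dm C y) : 0 ≤ C := (T.ms_nonneg y).trans h.ms_le

theorem Dm.mono {C C' : ℝ} {y : J → A} (h : T.Dm C y) (hC : C ≤ C') : T.Dm C' y :=
  ⟨fun z => (h.1 z).trans (mul_le_mul_of_nonneg_right hC (sq_nonneg _)),
    fun z => (h.2 z).trans (mul_le_mul_of_nonneg_right hC (sq_nonneg _))⟩

theorem Dm.star {C : ℝ} {y : J → A} (h : T.Dm C y) : T.Dm C (fun j => star (y j)) := by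
  constructor
  · intro z
    have h1 := h.2 (Star.star z)
    rw [T.norm_star] at h1
    refine le_trans (le_of_eq (Finset.sum_congr rfl fun j _ => ?_)) h1
    rw [← T.norm_star (Star.star (y j) * z), star_mul, star_star]
  · intro z
    have h1 := h.1 (Star.star z)
    rw [T.norm_star] at h1
    refine le_trans (le_of_eq (Finset.sum_congr rfl fun j _ => ?_)) h1
    rw [← T.norm_star (z * Star.star (y j)), star_mul, star_star]

theorem ms_star (y : J → A) : T.ms (fun j => Star.star (y j)) = T.ms y :=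
  Finset.sum_congr rfl fun j _ => by rw [T.norm_star]

/-- products of dominated families -/
theorem Dm.mul {C C' : ℝ} {y : J → A} {y' : J' → A} (h : T.Dm C y) (h' : T.Dm C' y') :
    T.Dm (C * C') (fun jk : J × J' => y jk.1 * y' jk.2) := by
  have hC := h.nonneg
  have hC' := h'.nonneg
  constructor
  · intro z
    rw [Fintype.sum_prod_type_right]
    calc ∑ k, ∑ j, ‖T.ι (y j * y' k * z)‖ ^ 2
        ≤ ∑ k, C * ‖T.ι (y' k * z)‖ ^ 2 := by
          refine Finset.sum_le_sum fun k _ => ?_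
          refine le_trans (le_of_eq (Finset.sum_congr rfl fun j _ => ?_)) (h.1 (y' k * z))
          rw [mul_assoc]
      _ ≤ C * (C' * ‖T.ι z‖ ^ 2) := by
          rw [← Finset.mul_sum]
          exact mul_le_mul_of_nonneg_left (h'.1 z) hC
      _ = C * C' * ‖T.ι z‖ ^ 2 := by ring
  · intro z
    rw [Fintype.sum_prod_type]
    calc ∑ j, ∑ k, ‖T.ι (z * (y j * y' k))‖ ^ 2
        ≤ ∑ j, C' * ‖T.ι (z * y j)‖ ^ 2 := by
          refine Finset.sum_le_sum fun j _ => ?_
          refine le_trans (le_of_eq (Finset.sum_congr rfl fun k _ => ?_)) (h'.2 (z * y j))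
          rw [mul_assoc]
      _ ≤ C' * (C * ‖T.ι z‖ ^ 2) := by
          rw [← Finset.mul_sum]
          exact mul_le_mul_of_nonneg_left (h.2 z) hC'
      _ = C * C' * ‖T.ι z‖ ^ 2 := by ring

theorem Dm.cut {C : ℝ} {y : J → A} (h : T.Dm C y) (P : J → Prop) [DecidablePred P] :
    T.Dm C (fun j => if P j then y j else 0) := by
  constructor
  · intro z
    refine le_trans (Finset.sum_le_sum fun j _ => ?_) (h.1 z)
    dsimp only
    split_ifs
    · exact le_rfl
    · simp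
  · intro z
    refine le_trans (Finset.sum_le_sum fun j _ => ?_) (h.2 z)
    dsimp only
    split_ifs
    · exact le_rfl
    · simp

theorem Dm.smul {C : ℝ} {y : J → A} (h : T.Dm C y) (c : ℂ) :
    T.Dm (‖c‖ ^ 2 * C) (fun j => c • y j) := by
  constructor
  · intro z
    calc ∑ j, ‖T.ι (c • y j * z)‖ ^ 2 = ‖c‖ ^ 2 * ∑ j, ‖T.ι (y j * z)‖ ^ 2 := by
          rw [Finset.mul_sum]
          refine Finset.sum_congr rfl fun j _ => ?_
          rw [smul_mul_assoc, T.norm_smul_sq]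
      _ ≤ ‖c‖ ^ 2 * (C * ‖T.ι z‖ ^ 2) := mul_le_mul_of_nonneg_left (h.1 z) (sq_nonneg _)
      _ = ‖c‖ ^ 2 * C * ‖T.ι z‖ ^ 2 := by ring
  · intro z
    calc ∑ j, ‖T.ι (z * c • y j)‖ ^ 2 = ‖c‖ ^ 2 * ∑ j, ‖T.ι (z * y j)‖ ^ 2 := by
          rw [Finset.mul_sum]
          refine Finset.sum_congr rfl fun j _ => ?_
          rw [mul_smul_comm, T.norm_smul_sq]
      _ ≤ ‖c‖ ^ 2 * (C * ‖T.ι z‖ ^ 2) := mul_le_mul_of_nonneg_left (h.2 z) (sq_nonneg _)
      _ = ‖c‖ ^ 2 * C * ‖T.ι z‖ ^ 2 := by ring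

theorem Dm.sum_elim {C C' : ℝ} {y : J → A} {y' : J' → A} (h : T.Dm C y) (h' : T.Dm C' y') :
    T.Dm (C + C') (Sum.elim y y') := by
  constructor
  · intro z
    rw [Fintype.sum_sum_type, add_mul]
    exact add_le_add (h.1 z) (h'.1 z)
  · intro z
    rw [Fintype.sum_sum_type, add_mul]
    exact add_le_add (h.2 z) (h'.2 z)

/-- a single element -/
theorem Dm.single {a : A} {C : ℝ} (h : ‖a‖ ^ 2 ≤ C) : T.Dm C (fun _ : Unit => a) := by
  constructor
  · intro z
    rw [Fintype.sum_unique]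
    calc ‖T.ι (a * z)‖ ^ 2 ≤ (‖a‖ * ‖T.ι z‖) ^ 2 :=
          pow_le_pow_left₀ (norm_nonneg _) (T.mul_le _ _) 2
      _ = ‖a‖ ^ 2 * ‖T.ι z‖ ^ 2 := by ring
      _ ≤ C * ‖T.ι z‖ ^ 2 := mul_le_mul_of_nonneg_right h (sq_nonneg _)
  · intro z
    rw [Fintype.sum_unique]
    calc ‖T.ι (z * a)‖ ^ 2 ≤ (‖T.ι z‖ * ‖a‖) ^ 2 :=
          pow_le_pow_left₀ (norm_nonneg _) (T.mul_le' _ _) 2
      _ = ‖a‖ ^ 2 * ‖T.ι z‖ ^ 2 := by ring
      _ ≤ C * ‖T.ι z‖ ^ 2 := mul_le_mul_of_nonneg_right h (sq_nonneg _)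

end TrAlg

namespace TrAct
variable {G : Type w} [Group G] [TopologicalSpace G] {T : TrAlg A K} (S : TrAct G T)
  {J : Type} [Fintype J] {J' : Type} [Fintype J']

theorem dm_act {C : ℝ} {y : J → A} (h : T.Dm C y) (g : G) : T.Dm C (fun j => S.α g (y j)) := by
  constructor
  · intro z
    have h1 := h.1 (S.α g⁻¹ z)
    rw [S.norm_map] at h1
    refine le_trans (le_of_eq (Finset.sum_congr rfl fun j _ => ?_)) h1
    rw [← S.norm_map g (y j * S.α g⁻¹ z), map_mul (S.α g), S.apply_inv]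
  · intro z
    have h1 := h.2 (S.α g⁻¹ z)
    rw [S.norm_map] at h1
    refine le_trans (le_of_eq (Finset.sum_congr rfl fun j _ => ?_)) h1
    rw [← S.norm_map g (S.α g⁻¹ z * y j), map_mul (S.α g), S.apply_inv]

theorem ms_act (y : J → A) (g : G) : T.ms (fun j => S.α g (y j)) = T.ms y :=
  Finset.sum_congr rfl fun j _ => by rw [S.norm_map]

variable {S} {Q : Type z} {chi : Q → G → ℂ} {B : Set Q} {b : A} {D : Set G} {κ C : ℝ}

theorem IsLab.mono {y : J → A} {r : J → Q} (h : S.IsLab chi B b D κ C y r) {B' : Set Q}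
    (hB : B ⊆ B') {D' : Set G} (hD : D' ⊆ D) {κ' C' : ℝ} (hκ : κ ≤ κ') (hC : C ≤ C') :
    S.IsLab chi B' b D' κ' C' y r where
  lft := h.lft
  rgt := h.rgt
  lab := fun j => hB (h.lab j)
  dm := h.dm.mono hC
  ne := fun g hg => (h.ne g (hD hg)).trans hκ

/-- keep only the labels in `B'` -/
theorem IsLab.cut {y : J → A} {r : J → Q} (h : S.IsLab chi B b D κ C y r) (B' : Set Q)
    [DecidablePred (· ∈ B')] (q0 : Q) (hq0 : q0 ∈ B') :
    S.IsLab chi B' b D κ C (fun j => if r j ∈ B' then y j else 0)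
      (fun j => if r j ∈ B' then r j else q0) where
  lft := fun j => by
    split_ifs
    · exact h.lft j
    · exact mul_zero _
  rgt := fun j => by
    split_ifs
    · exact h.rgt j
    · exact zero_mul _
  lab := fun j => by
    split_ifs with hj
    · exact hj
    · exact hq0
  dm := h.dm.cut _
  ne := fun g hg => by
    refine le_trans (Finset.sum_le_sum fun j _ => ?_) (h.ne g hg)
    split_ifs
    · exact le_rfl
    · simp

theorem LabA.mono {B' : Set Q} (h : S.LabA chi B b) (hB : B ⊆ B') : S.LabA chi B' b := by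
  obtain ⟨C, c, hc, h⟩ := h
  refine ⟨C, c, hc, fun D hD κ hκ => ?_⟩
  obtain ⟨J, hJ, y, r, hy, hm⟩ := h D hD κ hκ
  exact ⟨J, hJ, y, r, hy.mono hB subset_rfl le_rfl le_rfl, hm⟩

theorem HLabA.mono {B' : Set Q} (h : S.HLabA chi B b) (hB : B ⊆ B') : S.HLabA chi B' b :=
  fun b' hb' h0 hbb' => (h b' hb' h0 hbb').mono hB

/-- from a smaller corner to a larger one -/
theorem LabA.of_le {b' : A} (hb : star b = b) (hb' : star b' = b') (hbb' : b * b' = b')
    (h : S.LabA chi B b') : S.LabA chi B b := by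
  obtain ⟨C, c, hc, h⟩ := h
  refine ⟨C, c, hc, fun D hD κ hκ => ?_⟩
  obtain ⟨J, hJ, y, r, hy, hm⟩ := h D hD κ hκ
  have hb'b : b' * b = b' := by
    have := congrArg star hbb'
    rwa [star_mul, hb, hb'] at this
  refine ⟨J, hJ, y, r, ⟨fun j => ?_, fun j => ?_, hy.lab, hy.dm, hy.ne⟩, hm⟩
  · rw [← hy.lft j, ← mul_assoc, hbb']
  · rw [← hy.rgt j, mul_assoc, hb'b]

theorem HLabA.of_le {b' : A} (hbb' : b * b' = b') (h : S.HLabA chi B b) :
    S.HLabA chi B b' := fun b'' hb'' h0 hle => h b'' hb'' h0 (by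
  calc b * b'' = b * (b' * b'') := by rw [hle]
    _ = b' * b'' := by rw [← mul_assoc, hbb']
    _ = b'' := hle)

theorem HLabA.labA (h : S.HLabA chi B b) (hb : S.IsPrj b) (h0 : b ≠ 0) : S.LabA chi B b :=
  h b hb h0 hb.mul_self

section V
variable {V : Type z} [NormedAddCommGroup V] [InnerProductSpace ℝ V] {p : G → V}

/-- the label `0` is available in every corner -/
theorem labA_zero {b : A} (hb : S.IsPrj b) (h0 : b ≠ 0) {B : Set V} (hB : (0 : V) ∈ B) :
    S.LabA (pch p) B b := by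
  have h1 : 0 < ‖T.ι b‖ ^ 2 := by
    have : T.ι b ≠ 0 := fun h => h0 (T.inj (by rw [h, map_zero]))
    positivity
  refine ⟨‖b‖ ^ 2, ‖T.ι b‖ ^ 2, h1, fun D hD κ hκ => ⟨Unit, inferInstance, fun _ => b, fun _ => 0,
    ⟨fun _ => hb.mul_self, fun _ => hb.mul_self, fun _ => hB, TrAlg.Dm.single le_rfl, ?_⟩, ?_⟩⟩
  · intro g hg
    rw [Fintype.sum_unique, pch_zero, hb.fix g]
    simpa using hκ.le
  · unfold TrAlg.ms
    rw [Fintype.sum_unique]

theorem hlabA_zero {b : A} {B : Set V} (hB : (0 : V) ∈ B) : S.HLabA (pch p) B b :=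
  fun b' hb' h0 _ => labA_zero hb' h0 hB

/-- adjoints -/
theorem LabA.neg {b : A} (hb : star b = b) {B : Set V} (h : S.LabA (pch p) B b) :
    S.LabA (pch p) {q | -q ∈ B} b := by
  obtain ⟨C, c, hc, h⟩ := h
  refine ⟨C, c, hc, fun D hD κ hκ => ?_⟩
  obtain ⟨J, hJ, y, r, hy, hm⟩ := h D hD κ hκ
  refine ⟨J, hJ, fun j => star (y j), fun j => -r j, ⟨fun j => ?_, fun j => ?_, fun j => ?_,
    hy.dm.star, fun g hg => ?_⟩, ?_⟩
  · rw [← hb, ← star_mul, hy.rgt]
  · rw [← hb, ← star_mul, hy.lft]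
  · change - -r j ∈ B
    rw [neg_neg]
    exact hy.lab j
  · refine le_trans (le_of_eq (Finset.sum_congr rfl fun j _ => ?_)) (hy.ne g hg)
    rw [← T.norm_star, star_sub, star_smul, ← map_star, star_star]
    rw [← conj_pch]
    simp
  · rwa [TrAlg.ms_star]

theorem HLabA.neg {b : A} {B : Set V} (h : S.HLabA (pch p) B b) :
    S.HLabA (pch p) {q | -q ∈ B} b :=
  fun b' hb' h0 hle => (h b' hb' h0 hle).neg hb'.star_eq

end V

end TrAct

end

end Pool.Agent.AbCoc
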