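import Pool.Agent.Lib_MP_418a80_ab.Tr

/-!
# Multiplets (M1), (M2): finite Plancherel for families of vectors of a tracial algebra

`Chs Λ F`: finitely many characters `χ c` of the abelian group `Λ`, orthonormal on the finite set
`F ⊆ Λ` after multiplication by `r` (`r ^ 2 = 1 / |C|`). `E.X v c = r ∑_{j ∈ F} χ c j • v j` for an
arbitrary family `v : Λ → A`. Everything which is needed about `X` is an exact Plancherel identity.
`exists_chs`, `exists_chs_int`: existence for every finite set of `Fin n → ℤ`, of `ℤ`.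
-/

set_option autoImplicit false
set_option linter.unusedVariables false
set_option linter.unusedSectionVars false

open Topology Filter
open scoped ComplexConjugate

namespace Pool.Agent.AbCoc

universe u v w

/-- finitely many characters of `Λ`, orthonormal on `F` after normalisation -/
structure Chs (Λ : Type) [AddCommGroup Λ] (F : Finset Λ) where
  C : Type
  fin : Fintype C
  χ : C → Λ → ℂ
  unit : ∀ c j, ‖χ c j‖ = 1
  add : ∀ c j k, χ c (j + k) = χ c j * χ c k
  r : ℝ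
  r_pos : 0 < r
  r_sq : r ^ 2 * (Fintype.card C : ℝ) = 1
  orth : ∀ j ∈ F, ∀ k ∈ F, j ≠ k → ∑ c, conj (χ c j) * χ c k = 0

attribute [instance] Chs.fin

namespace Chs
variable {Λ : Type} [AddCommGroup Λ] {F : Finset Λ} (E : Chs Λ F)

theorem conj_mul_self (c : E.C) (j : Λ) : conj (E.χ c j) * E.χ c j = 1 := by
  rw [← Complex.normSq_eq_conj_mul_self, Complex.normSq_eq_norm_sq, E.unit]
  norm_num

theorem zero (c : E.C) : E.χ c 0 = 1 := by
  have h := E.add c 0 0
  rw [add_zero] at h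
  have h0 : E.χ c 0 ≠ 0 := fun h0 => by
    have := E.unit c 0
    rw [h0, norm_zero] at this
    exact zero_ne_one this
  exact (mul_right_cancel₀ h0 (by rw [one_mul]; exact h)).symm

theorem neg (c : E.C) (j : Λ) : E.χ c (-j) = conj (E.χ c j) := by
  have h1 : E.χ c (-j) * E.χ c j = 1 := by rw [← E.add, neg_add_cancel, E.zero]
  have h2 := E.conj_mul_self c j
  have h0 : E.χ c j ≠ 0 := fun h0 => by
    have := E.unit c j
    rw [h0, norm_zero] at this
    exact zero_ne_one this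
  exact mul_right_cancel₀ h0 (h1.trans h2.symm)

theorem orth' [DecidableEq Λ] {j k : Λ} (hj : j ∈ F) (hk : k ∈ F) :
    (E.r : ℂ) ^ 2 * ∑ c, conj (E.χ c j) * E.χ c k = if j = k then 1 else 0 := by
  by_cases h : j = k
  · subst h
    rw [if_pos rfl]
    simp only [E.conj_mul_self, Finset.sum_const, Finset.card_univ, nsmul_eq_mul, mul_one]
    exact_mod_cast E.r_sq
  · rw [if_neg h, E.orth j hj k hk h, mul_zero]

section
variable {A : Type u} [CStarAlgebra A]

/-- the multiplet of a family of vectors -/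
noncomputable def X (v : Λ → A) (c : E.C) : A := (E.r : ℂ) • ∑ j ∈ F, E.χ c j • v j

theorem X_congr {v w : Λ → A} (h : ∀ j ∈ F, v j = w j) (c : E.C) : E.X v c = E.X w c := by
  unfold X
  congr 1
  exact Finset.sum_congr rfl fun j hj => by rw [h j hj]

theorem X_add (v w : Λ → A) (c : E.C) : E.X (fun j => v j + w j) c = E.X v c + E.X w c := by
  unfold X
  rw [← smul_add, ← Finset.sum_add_distrib]
  simp only [smul_add]

theorem X_sub (v w : Λ → A) (c : E.C) : E.X (fun j => v j - w j) c = E.X v c - E.X w c := by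
  unfold X
  rw [← smul_sub, ← Finset.sum_sub_distrib]
  simp only [smul_sub]

theorem X_smul (a : ℂ) (v : Λ → A) (c : E.C) : E.X (fun j => a • v j) c = a • E.X v c := by
  have h : ∑ j ∈ F, E.χ c j • (a • v j) = a • ∑ j ∈ F, E.χ c j • v j := by
    rw [Finset.smul_sum]
    exact Finset.sum_congr rfl fun j _ => smul_comm (E.χ c j) a (v j)
  unfold X
  rw [h]
  exact smul_comm _ _ _

theorem X_sum {I : Type*} (s : Finset I) (v : I → Λ → A) (c : E.C) :
    E.X (fun j => ∑ i ∈ s, v i j) c = ∑ i ∈ s, E.X (v i) c := by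
  unfold X
  rw [← Finset.smul_sum, Finset.sum_comm]
  congr 1
  exact Finset.sum_congr rfl fun j _ => Finset.smul_sum

theorem X_mul (v : Λ → A) (z : A) (c : E.C) : E.X v c * z = E.X (fun j => v j * z) c := by
  unfold X
  rw [smul_mul_assoc, Finset.sum_mul]
  simp only [smul_mul_assoc]

theorem mul_X (v : Λ → A) (z : A) (c : E.C) : z * E.X v c = E.X (fun j => z * v j) c := by
  unfold X
  rw [mul_smul_comm, Finset.mul_sum]
  simp only [mul_smul_comm]

theorem map_X {B : Type w} [CStarAlgebra B] (φ : A →⋆ₐ[ℂ] B) (v : Λ → A) (c : E.C) :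
    φ (E.X v c) = E.X (fun j => φ (v j)) c := by
  unfold X
  rw [map_smul, map_sum]
  simp only [map_smul]

/-- the shift of the grid is a phase: `u` is supported in `F ∩ (F + k)` -/
theorem X_shift (u : Λ → A) (k : Λ) (h1 : ∀ j, u j ≠ 0 → j ∈ F) (h2 : ∀ j, u j ≠ 0 → j - k ∈ F)
    (c : E.C) : E.X (fun j => u (j + k)) c = conj (E.χ c k) • E.X u c := by
  classical
  have e1 : E.χ c k * conj (E.χ c k) = 1 := by rw [mul_comm]; exact E.conj_mul_self c k
  unfold X
  rw [smul_comm (conj (E.χ c k))]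
  congr 1
  rw [Finset.smul_sum]
  have h3 : ∑ j ∈ F, E.χ c j • u (j + k)
      = ∑ j ∈ F.filter (fun j => u (j + k) ≠ 0), E.χ c j • u (j + k) := by
    rw [Finset.sum_filter]
    refine Finset.sum_congr rfl fun j _ => ?_
    by_cases h : u (j + k) = 0
    · rw [if_neg (by rw [h]; exact fun h => h rfl), h, smul_zero]
    · rw [if_pos h]
  have h4 : ∑ j ∈ F, conj (E.χ c k) • E.χ c j • u j
      = ∑ j ∈ F.filter (fun j => u j ≠ 0), conj (E.χ c k) • E.χ c j • u j := by
    rw [Finset.sum_filter]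
    refine Finset.sum_congr rfl fun j _ => ?_
    by_cases h : u j = 0
    · rw [if_neg (by rw [h]; exact fun h => h rfl), h, smul_zero, smul_zero]
    · rw [if_pos h]
  rw [h3, h4]
  refine Finset.sum_bij' (fun j _ => j + k) (fun j _ => j - k) ?_ ?_ ?_ ?_ ?_
  · intro j hj
    rw [Finset.mem_filter] at hj ⊢
    exact ⟨h1 _ hj.2, hj.2⟩
  · intro j hj
    rw [Finset.mem_filter] at hj ⊢
    rw [sub_add_cancel]
    exact ⟨h2 _ hj.2, hj.2⟩
  · intro j _; simp
  · intro j _; simp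
  · intro j _
    rw [E.add, mul_comm (E.χ c j), ← smul_smul, smul_smul (conj (E.χ c k)),
      mul_comm (conj (E.χ c k)), e1, one_smul]

/-- Plancherel with an element in the middle, `∑ X* a X` -/
theorem sum_star_mul_mul (v w : Λ → A) (a : A) :
    ∑ c, star (E.X v c) * a * E.X w c = ∑ j ∈ F, star (v j) * a * w j := by
  classical
  have e : ∀ c, star (E.X v c) * a * E.X w c
      = ∑ j ∈ F, ∑ k ∈ F, ((E.r : ℂ) ^ 2 * (conj (E.χ c j) * E.χ c k)) • (star (v j) * a * w k) := by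
    intro c
    unfold X
    rw [star_smul, star_sum, smul_mul_assoc, smul_mul_assoc, mul_smul_comm, smul_smul,
      Finset.sum_mul, Finset.sum_mul, Finset.smul_sum]
    refine Finset.sum_congr rfl fun j _ => ?_
    rw [Finset.mul_sum, Finset.smul_sum]
    refine Finset.sum_congr rfl fun k _ => ?_
    rw [star_smul, smul_mul_assoc, smul_mul_assoc, mul_smul_comm, smul_smul, smul_smul]
    congr 1
    have h1 : (star (E.r : ℂ)) = (E.r : ℂ) := Complex.conj_ofReal _
    rw [h1, Complex.star_def]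
    ring
  rw [Finset.sum_congr rfl fun c _ => e c, Finset.sum_comm]
  refine Finset.sum_congr rfl fun j hj => ?_
  rw [Finset.sum_comm, Finset.sum_eq_single j]
  · rw [← Finset.sum_smul, ← Finset.mul_sum, E.orth' hj hj, if_pos rfl, one_smul]
  · intro k hk hkj
    rw [← Finset.sum_smul, ← Finset.mul_sum, E.orth' hj hk, if_neg (Ne.symm hkj), zero_smul]
  · intro h; exact absurd hj h

/-- Plancherel with an element in the middle, `∑ X a X*` -/
theorem sum_mul_mul_star (v w : Λ → A) (a : A) :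
    ∑ c, E.X v c * a * star (E.X w c) = ∑ j ∈ F, v j * a * star (w j) := by
  classical
  have e : ∀ c, E.X v c * a * star (E.X w c)
      = ∑ j ∈ F, ∑ k ∈ F, ((E.r : ℂ) ^ 2 * (conj (E.χ c k) * E.χ c j)) • (v j * a * star (w k)) := by
    intro c
    unfold X
    rw [star_smul, star_sum, smul_mul_assoc, smul_mul_assoc, mul_smul_comm, smul_smul,
      Finset.sum_mul, Finset.sum_mul, Finset.smul_sum]
    refine Finset.sum_congr rfl fun j _ => ?_
    rw [Finset.mul_sum, Finset.smul_sum]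
    refine Finset.sum_congr rfl fun k _ => ?_
    rw [star_smul, smul_mul_assoc, smul_mul_assoc, mul_smul_comm, smul_smul, smul_smul]
    congr 1
    have h1 : (star (E.r : ℂ)) = (E.r : ℂ) := Complex.conj_ofReal _
    rw [h1, Complex.star_def]
    ring
  rw [Finset.sum_congr rfl fun c _ => e c, Finset.sum_comm]
  refine Finset.sum_congr rfl fun j hj => ?_
  rw [Finset.sum_comm, Finset.sum_eq_single j]
  · rw [← Finset.sum_smul, ← Finset.mul_sum, E.orth' hj hj, if_pos rfl, one_smul]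
  · intro k hk hkj
    rw [← Finset.sum_smul, ← Finset.mul_sum, E.orth' hk hj, if_neg hkj, zero_smul]
  · intro h; exact absurd hj h

theorem sum_star_mul (v w : Λ → A) :
    ∑ c, star (E.X v c) * E.X w c = ∑ j ∈ F, star (v j) * w j := by
  have h := E.sum_star_mul_mul v w 1
  simpa only [mul_one] using h

theorem sum_mul_star (v w : Λ → A) :
    ∑ c, E.X v c * star (E.X w c) = ∑ j ∈ F, v j * star (w j) := by
  have h := E.sum_mul_mul_star v w 1
  simpa only [mul_one] using h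

variable {K : Type v} [NormedAddCommGroup K] [InnerProductSpace ℂ K] (T : TrAlg A K)

theorem sum_inner (v w : Λ → A) :
    ∑ c, inner ℂ (T.ι (E.X v c)) (T.ι (E.X w c)) = ∑ j ∈ F, inner ℂ (T.ι (v j)) (T.ι (w j)) := by
  have h : ∀ s : Finset E.C, ∑ c ∈ s, inner ℂ (T.ι (E.X v c)) (T.ι (E.X w c))
      = T.τ (∑ c ∈ s, star (E.X v c) * E.X w c) := by
    intro s
    unfold TrAlg.τ
    rw [map_sum, _root_.inner_sum]
    exact Finset.sum_congr rfl fun c _ => T.inner_eq_τ _ _
  rw [h, E.sum_star_mul]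
  unfold TrAlg.τ
  rw [map_sum, _root_.inner_sum]
  exact Finset.sum_congr rfl fun j _ => (T.inner_eq_τ _ _).symm

/-- Plancherel -/
theorem sum_norm_sq (v : Λ → A) :
    ∑ c, ‖T.ι (E.X v c)‖ ^ 2 = ∑ j ∈ F, ‖T.ι (v j)‖ ^ 2 := by
  have hn : ∀ x : K, inner ℂ x x = ((‖x‖ ^ 2 : ℝ) : ℂ) := fun x => by
    rw [inner_self_eq_norm_sq_to_K]; norm_cast
  have h := E.sum_inner T v v
  simp only [hn] at h
  rw [← Complex.ofReal_sum, ← Complex.ofReal_sum] at h
  exact Complex.ofReal_injective h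

theorem sum_norm_sq_mul (v : Λ → A) (z : A) :
    ∑ c, ‖T.ι (E.X v c * z)‖ ^ 2 = ∑ j ∈ F, ‖T.ι (v j * z)‖ ^ 2 := by
  simp only [E.X_mul]
  exact E.sum_norm_sq T _

theorem sum_norm_sq_mul' (v : Λ → A) (z : A) :
    ∑ c, ‖T.ι (z * E.X v c)‖ ^ 2 = ∑ j ∈ F, ‖T.ι (z * v j)‖ ^ 2 := by
  simp only [E.mul_X]
  exact E.sum_norm_sq T _

theorem sum_norm_sq_sub (v w : Λ → A) :
    ∑ c, ‖T.ι (E.X v c - E.X w c)‖ ^ 2 = ∑ j ∈ F, ‖T.ι (v j - w j)‖ ^ 2 := by
  have h := E.sum_norm_sq T (fun j => v j - w j)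
  simpa only [E.X_sub] using h

end

end Chs

section CS
variable {A : Type u} [CStarAlgebra A] {K : Type v} [NormedAddCommGroup K]
  [InnerProductSpace ℂ K] (T : TrAlg A K)

/-- `|τ (w x* y)| ≤ M |x|_2 |y|_2` for `‖w‖ ≤ M` -/
theorem TrAlg.norm_τ_mul_star_mul_le (w x y : A) {M : ℝ} (hw : ‖w‖ ≤ M) :
    ‖T.τ (w * (star x * y))‖ ≤ M * (‖T.ι x‖ * ‖T.ι y‖) := by
  have h1 : T.τ (w * (star x * y)) = inner ℂ (T.ι (x * star w)) (T.ι y) := by
    rw [T.inner_eq_τ, star_mul, star_star, mul_assoc]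
  rw [h1]
  refine (norm_inner_le_norm _ _).trans ?_
  have h2 : ‖T.ι (x * star w)‖ ≤ ‖T.ι x‖ * M := by
    refine (T.mul_le' _ _).trans (mul_le_mul_of_nonneg_left ?_ (norm_nonneg _))
    rw [_root_.norm_star]
    exact hw
  calc ‖T.ι (x * star w)‖ * ‖T.ι y‖ ≤ (‖T.ι x‖ * M) * ‖T.ι y‖ :=
        mul_le_mul_of_nonneg_right h2 (norm_nonneg _)
    _ = M * (‖T.ι x‖ * ‖T.ι y‖) := by ring

/-- the same for finite families -/
theorem TrAlg.norm_sum_τ_le {C : Type} [Fintype C] (w x y : C → A) {M : ℝ}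
    (hw : ∀ c, ‖w c‖ ≤ M) :
    ‖∑ c, T.τ (w c * (star (x c) * y c))‖
      ≤ M * (√(∑ c, ‖T.ι (x c)‖ ^ 2) * √(∑ c, ‖T.ι (y c)‖ ^ 2)) := by
  rcases isEmpty_or_nonempty C with hC | ⟨⟨c0⟩⟩
  · simp
  have hM : 0 ≤ M := (norm_nonneg _).trans (hw c0)
  refine (norm_sum_le _ _).trans ?_
  refine (Finset.sum_le_sum fun c _ => T.norm_τ_mul_star_mul_le (w c) (x c) (y c) (hw c)).trans ?_
  rw [← Finset.mul_sum]
  exact mul_le_mul_of_nonneg_left (Real.sum_mul_le_sqrt_mul_sqrt _ _ _) hM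

/-- `x* x - y* y` in the `1`-norm: `|x* x - y* y|_1 ≤ |x - y|_2 |x + y|_2`, duality form, for finite
families -/
theorem TrAlg.norm_sum_τ_sub_le {C : Type} [Fintype C] (w x y : C → A)
    (hw : ∀ c, ‖w c‖ ≤ 1) :
    ‖∑ c, T.τ (w c * (star (x c) * x c - star (y c) * y c))‖
      ≤ √(∑ c, ‖T.ι (x c - y c)‖ ^ 2) * √(∑ c, ‖T.ι (x c + y c)‖ ^ 2) := by
  have e : ∀ c, T.τ (w c * (star (x c) * x c - star (y c) * y c))
      = (1 / 2 : ℂ) * (T.τ (w c * (star (x c - y c) * (x c + y c)))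
        + T.τ (w c * (star (x c + y c) * (x c - y c)))) := by
    intro c
    rw [← T.τ_add, ← T.τ_smul]
    congr 1
    rw [← mul_add, ← mul_smul_comm]
    congr 1
    rw [star_sub, star_add]
    have h : (star (x c) - star (y c)) * (x c + y c) + (star (x c) + star (y c)) * (x c - y c)
        = (2 : ℂ) • (star (x c) * x c - star (y c) * y c) := by
      rw [two_smul]
      noncomm_ring
    rw [h, smul_smul]
    norm_num
  rw [Finset.sum_congr rfl fun c _ => e c, ← Finset.mul_sum, Finset.sum_add_distrib, norm_mul]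
  have h1 := T.norm_sum_τ_le w (fun c => x c - y c) (fun c => x c + y c) hw
  have h2 := T.norm_sum_τ_le w (fun c => x c + y c) (fun c => x c - y c) hw
  rw [one_mul] at h1 h2
  have h3 : ‖(1 / 2 : ℂ)‖ = 1 / 2 := by norm_num
  rw [h3]
  have h4 := norm_add_le (∑ c, T.τ (w c * (star (x c - y c) * (x c + y c))))
    (∑ c, T.τ (w c * (star (x c + y c) * (x c - y c))))
  rw [mul_comm (√(∑ c, ‖T.ι (x c + y c)‖ ^ 2))] at h2
  linarith

end CS

/-- (M2): the `1`-norm estimate for multiplets, in duality form -/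
theorem Chs.norm_sum_τ_le {Λ : Type} [AddCommGroup Λ] {F : Finset Λ} (E : Chs Λ F)
    {A : Type u} [CStarAlgebra A] {K : Type v} [NormedAddCommGroup K]
    [InnerProductSpace ℂ K] (T : TrAlg A K) (w : E.C → A) (v v' : Λ → A) {M : ℝ}
    (hw : ∀ c, ‖w c‖ ≤ M) :
    ‖∑ c, T.τ (w c * (star (E.X v c) * E.X v' c))‖
      ≤ M * (√(∑ j ∈ F, ‖T.ι (v j)‖ ^ 2) * √(∑ j ∈ F, ‖T.ι (v' j)‖ ^ 2)) := by
  rw [← E.sum_norm_sq T v, ← E.sum_norm_sq T v']
  exact T.norm_sum_τ_le w _ _ hw

/-! ### existence -/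

theorem chs_sum_aux {N : ℕ} [NeZero N] {n : ℕ} (b : Fin n → ZMod N) (hb : b ≠ 0) :
    ∑ c : Fin n → ZMod N, ∏ i, ZMod.stdAddChar (c i * b i) = 0 := by
  classical
  have h : ∑ c : Fin n → ZMod N, ∏ i, ZMod.stdAddChar (c i * b i)
      = ∏ i, ∑ x : ZMod N, ZMod.stdAddChar (x * b i) := by
    rw [Finset.prod_univ_sum, Fintype.piFinset_univ]
  rw [h]
  obtain ⟨i, hi⟩ := Function.ne_iff.1 hb
  refine Finset.prod_eq_zero (Finset.mem_univ i) ?_
  have hi' : b i ≠ 0 := hi
  rw [AddChar.sum_mulShift _ (ZMod.isPrimitive_stdAddChar N), if_neg hi']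
  simp

theorem exists_chs (n : ℕ) (F : Finset (Fin n → ℤ)) : Nonempty (Chs (Fin n → ℤ) F) := by
  classical
  -- a bound for the coordinates
  obtain ⟨m, hm⟩ : ∃ m : ℕ, ∀ j ∈ F, ∀ i, |j i| ≤ m := by
    refine ⟨∑ j ∈ F, ∑ i, (j i).natAbs, fun j hj i => ?_⟩
    rw [Int.abs_eq_natAbs]
    have h1 : (j i).natAbs ≤ ∑ i, (j i).natAbs :=
      Finset.single_le_sum (f := fun i => (j i).natAbs) (fun _ _ => Nat.zero_le _)
        (Finset.mem_univ i)
    have h2 : ∑ i, (j i).natAbs ≤ ∑ j ∈ F, ∑ i, (j i).natAbs :=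
      Finset.single_le_sum (f := fun j : Fin n → ℤ => ∑ i, (j i).natAbs)
        (fun _ _ => Nat.zero_le _) hj
    exact_mod_cast h1.trans h2
  set N : ℕ := 2 * m + 1 with hN
  have _ : NeZero N := ⟨by omega⟩
  have hu : ∀ x : ZMod N, ‖ZMod.stdAddChar x‖ = 1 := fun x => by
    exact AddChar.norm_apply _ _
  refine ⟨{ C := Fin n → ZMod N
            fin := inferInstance
            χ := fun c j => ∏ i, ZMod.stdAddChar (c i * (j i : ZMod N))
            unit := ?_
            add := ?_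
            r := (√(Fintype.card (Fin n → ZMod N) : ℝ))⁻¹
            r_pos := ?_
            r_sq := ?_
            orth := ?_ }⟩
  · intro c j
    rw [norm_prod]
    exact Finset.prod_eq_one fun i _ => hu _
  · intro c j k
    rw [← Finset.prod_mul_distrib]
    refine Finset.prod_congr rfl fun i _ => ?_
    rw [← AddChar.map_add_eq_mul, ← mul_add]
    congr 1
    push_cast [Pi.add_apply]
    rfl
  · have : (0 : ℝ) < (Fintype.card (Fin n → ZMod N) : ℝ) := Nat.cast_pos.2 Fintype.card_pos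
    positivity
  · have : (0 : ℝ) < (Fintype.card (Fin n → ZMod N) : ℝ) := Nat.cast_pos.2 Fintype.card_pos
    rw [inv_pow, Real.sq_sqrt this.le, inv_mul_cancel₀ this.ne']
  · intro j hj k hk hjk
    have e : ∀ c : Fin n → ZMod N, (starRingEnd ℂ) (∏ i, ZMod.stdAddChar (c i * (j i : ZMod N)))
        * ∏ i, ZMod.stdAddChar (c i * (k i : ZMod N))
        = ∏ i, ZMod.stdAddChar (c i * ((k i - j i : ℤ) : ZMod N)) := by
      intro c
      rw [map_prod, ← Finset.prod_mul_distrib]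
      refine Finset.prod_congr rfl fun i _ => ?_
      rw [← AddChar.map_neg_eq_conj, ← AddChar.map_add_eq_mul]
      congr 1
      push_cast
      ring
    rw [Finset.sum_congr rfl fun c _ => e c]
    refine chs_sum_aux (fun i => ((k i - j i : ℤ) : ZMod N)) fun h0 => hjk ?_
    funext i
    have h1 : ((k i - j i : ℤ) : ZMod N) = 0 := congrFun h0 i
    rw [ZMod.intCast_zmod_eq_zero_iff_dvd] at h1
    have h2 : |k i - j i| < N := by
      have h3 := hm j hj i
      have h4 := hm k hk i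
      have h5 : |k i - j i| ≤ |k i| + |j i| := abs_sub _ _
      have h6 : (N : ℤ) = 2 * (m : ℤ) + 1 := by rw [hN]; push_cast; ring
      omega
    have h7 := Int.eq_zero_of_abs_lt_dvd h1 h2
    omega

/-- characters on a subgroup -/
def Chs.comap {Λ Λ' : Type} [AddCommGroup Λ] [AddCommGroup Λ'] [DecidableEq Λ] (φ : Λ' →+ Λ)
    (hφ : Function.Injective φ) {F : Finset Λ'} (E : Chs Λ (F.image φ)) : Chs Λ' F where
  C := E.C
  fin := E.fin
  χ c j := E.χ c (φ j)
  unit c j := E.unit c _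
  add c j k := by rw [map_add, E.add]
  r := E.r
  r_pos := E.r_pos
  r_sq := E.r_sq
  orth j hj k hk hjk := E.orth _ (Finset.mem_image_of_mem _ hj) _ (Finset.mem_image_of_mem _ hk)
    (fun h => hjk (hφ h))

theorem exists_chs_int (F : Finset ℤ) : Nonempty (Chs ℤ F) := by
  classical
  obtain ⟨E⟩ := exists_chs 1 (F.image (fun j => fun _ : Fin 1 => j))
  let φ : ℤ →+ (Fin 1 → ℤ) :=
    { toFun := fun j _ => j, map_zero' := rfl, map_add' := fun _ _ => rfl }
  exact ⟨Chs.comap φ (fun a b h => congrFun h 0) E⟩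

end Pool.Agent.AbCoc
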