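import Pool.Agent.Lib_MP_418a80_t3.NG0

/-!
# MP_418a80_an, T3, group side: quotients by good subgroups, abelian quotients are `ℝ ^ m`
-/

set_option autoImplicit false

open Topology Filter

namespace Pool.Agent.AbCoc

universe u v w

variable {G : Type w} [Group G] [TopologicalSpace G]

/-- good normal subgroups: closed, and roots in the quotient are unique -/
structure RPow.RN (R : RPow G) (N : Subgroup G) : Prop where
  normal : N.Normal
  closed : IsClosed (N : Set G)
  root : ∀ n : ℕ, 0 < n → ∀ g h : G, (g ^ n)⁻¹ * h ^ n ∈ N → g⁻¹ * h ∈ N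

namespace RPow

variable {R : RPow G}

theorem RN.quot_root {N : Subgroup G} [N.Normal] (hN : R.RN N) (n : ℕ) (hn : 0 < n) (x y : G ⧸ N)
    (h : x ^ n = y ^ n) : x = y := by
  induction x using QuotientGroup.induction_on with
  | H a =>
    induction y using QuotientGroup.induction_on with
    | H b =>
      rw [← QuotientGroup.mk_pow, ← QuotientGroup.mk_pow, QuotientGroup.eq] at h
      exact QuotientGroup.eq.2 (hN.root n hn a b h)

variable [IsTopologicalGroup G]

theorem RN.pw_congr {N : Subgroup G} (hN : R.RN N) {g h : G} (hgh : g⁻¹ * h ∈ N) (t : ℝ) :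
    (R.pw t g)⁻¹ * R.pw t h ∈ N := by
  have := hN.normal
  have := hN.closed
  have h1 := oneParam_ext (fun n hn x y => hN.quot_root n hn x y)
    (fun t => (QuotientGroup.mk (R.pw t g) : G ⧸ N)) (fun t => (QuotientGroup.mk (R.pw t h) : G ⧸ N))
    (QuotientGroup.continuous_mk.comp (R.cont_left g))
    (QuotientGroup.continuous_mk.comp (R.cont_left h))
    (fun s t => by rw [R.add, QuotientGroup.mk_mul]) (fun s t => by rw [R.add, QuotientGroup.mk_mul])
    (by rw [R.one, R.one]; exact QuotientGroup.eq.2 hgh) t
  exact QuotientGroup.eq.1 h1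

theorem RN.st [T2Space G] {N : Subgroup G} (hN : R.RN N) : R.St N := fun t g hg => by
  have h := hN.pw_congr (g := 1) (h := g) (by simpa using hg) t
  rwa [R.pw_one, inv_one, one_mul] at h

/-- real powers on the quotient -/
noncomputable def quot {N : Subgroup G} [N.Normal] (hN : R.RN N) : RPow (G ⧸ N) where
  pw t := Quotient.map' (R.pw t) fun a b hab => by
    rw [QuotientGroup.leftRel_apply] at hab ⊢
    exact hN.pw_congr hab t
  cont := by
    rw [← (IsOpenQuotientMap.id.prodMap QuotientGroup.isOpenQuotientMap_mk).continuous_comp_iff]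
    exact QuotientGroup.continuous_mk.comp R.cont
  one x := by
    induction x using QuotientGroup.induction_on with
    | H a => exact congrArg _ (R.one a)
  add s t x := by
    induction x using QuotientGroup.induction_on with
    | H a => exact congrArg _ (R.add s t a)
  root n hn x y h := hN.quot_root n hn x y h

theorem quot_pw {N : Subgroup G} [N.Normal] (hN : R.RN N) (t : ℝ) (g : G) :
    (quot hN).pw t (QuotientGroup.mk g : G ⧸ N) = QuotientGroup.mk (R.pw t g) := rfl

/-- closed stable subgroups containing the commutators are good -/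
theorem rn_of_comm [T2Space G] {K : Subgroup G} (hc : IsClosed (K : Set G)) (hs : R.St K)
    (hcomm : ∀ g h : G, g * h * g⁻¹ * h⁻¹ ∈ K) : R.RN K := by
  have hn : K.Normal := ⟨fun k hk g => by
    have h := K.mul_mem (hcomm g k) hk
    rwa [inv_mul_cancel_right] at h⟩
  refine ⟨hn, hc, fun n hn g h hgh => ?_⟩
  refine hs.isolated hn ?_
  have hcq : ∀ a b : G ⧸ K, a * b = b * a := by
    intro a b
    induction a using QuotientGroup.induction_on with
    | H a =>
      induction b using QuotientGroup.induction_on with
      | H b =>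
        rw [← QuotientGroup.mk_mul, ← QuotientGroup.mk_mul, QuotientGroup.eq]
        have h := hcomm b⁻¹ a⁻¹
        rw [inv_inv, inv_inv] at h
        rwa [mul_inv_rev, mul_assoc, ← mul_assoc (a⁻¹), ← mul_assoc, ← mul_assoc]
  rw [← QuotientGroup.eq_one_iff, QuotientGroup.mk_pow, QuotientGroup.mk_mul,
    (show Commute ((g⁻¹ : G) : G ⧸ K) (h : G ⧸ K) from hcq _ _).mul_pow, ← QuotientGroup.mk_pow,
    ← QuotientGroup.mk_pow, ← QuotientGroup.mk_mul, QuotientGroup.eq_one_iff, _root_.inv_pow]
  exact hgh

/-- locally compact abelian groups with continuous real powers are vector groups -/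
theorem exists_euclid {Q : Type w} [Group Q] [TopologicalSpace Q] [IsTopologicalGroup Q]
    [T2Space Q] [LocallyCompactSpace Q] (R : RPow Q) (hc : ∀ a b : Q, a * b = b * a) :
    ∃ (m : ℕ) (q : Q → EuclideanSpace ℝ (Fin m)), Continuous q ∧ (∀ a b, q (a * b) = q a + q b) ∧
      Function.Bijective q := by
  let _ : AddCommGroup (Additive Q) :=
    { (inferInstance : AddGroup (Additive Q)) with
      add_comm := fun a b => hc a.toMul b.toMul }
  let _ : Module ℝ (Additive Q) :=
    { smul := fun t x => Additive.ofMul (R.pw t x.toMul)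
      one_smul := fun x => R.one x.toMul
      mul_smul := fun s t x => (R.pw_pw s t x.toMul).symm
      smul_zero := fun t => R.pw_one t
      smul_add := fun t x y => R.pw_mul (hc _ _) t
      add_smul := fun s t x => R.add s t x.toMul
      zero_smul := fun x => R.zero x.toMul }
  have : ContinuousSMul ℝ (Additive Q) := ⟨R.cont⟩
  have : T2Space (Additive Q) := inferInstanceAs (T2Space Q)
  have : LocallyCompactSpace (Additive Q) := inferInstanceAs (LocallyCompactSpace Q)
  have : FiniteDimensional ℝ (Additive Q) := FiniteDimensional.of_locallyCompactSpace ℝ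
  let e : Additive Q ≃L[ℝ] EuclideanSpace ℝ (Fin (Module.finrank ℝ (Additive Q))) := toEuclidean
  exact ⟨_, fun x => e (Additive.ofMul x), e.continuous, fun a b => e.map_add _ _, e.bijective⟩

/-- abelian quotients are vector groups -/
theorem exists_hom [T2Space G] [LocallyCompactSpace G] (R : RPow G) {K : Subgroup G}
    (hcl : IsClosed (K : Set G)) (hs : R.St K) (hcomm : ∀ g h : G, g * h * g⁻¹ * h⁻¹ ∈ K) :
    ∃ (m : ℕ) (q : G → EuclideanSpace ℝ (Fin m)), Continuous q ∧ (∀ a b, q (a * b) = q a + q b) ∧
      Function.Surjective q ∧ ∀ g, q g = 0 ↔ g ∈ K := by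
  have hK := rn_of_comm hcl hs hcomm
  have := hK.normal
  have := hK.closed
  obtain ⟨m, q, hq, hm, hb⟩ := exists_euclid (quot hK) (fun a b => by
    induction a using QuotientGroup.induction_on with
    | H a =>
      induction b using QuotientGroup.induction_on with
      | H b =>
        rw [← QuotientGroup.mk_mul, ← QuotientGroup.mk_mul, QuotientGroup.eq]
        have h := hcomm b⁻¹ a⁻¹
        rw [inv_inv, inv_inv] at h
        rwa [mul_inv_rev, mul_assoc, ← mul_assoc (a⁻¹), ← mul_assoc, ← mul_assoc])
  have hq1 : q 1 = 0 := by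
    have h := hm 1 1
    rw [mul_one] at h
    exact left_eq_add.1 h
  refine ⟨m, fun g => q (QuotientGroup.mk g), hq.comp QuotientGroup.continuous_mk,
    fun a b => hm (QuotientGroup.mk a) (QuotientGroup.mk b), hb.2.comp QuotientGroup.mk_surjective, fun g => ?_⟩
  rw [← QuotientGroup.eq_one_iff, ← hq1]
  exact hb.1.eq_iff

end RPow

end Pool.Agent.AbCoc
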