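import Pool.Agent.Lib_MP_418a80_t3.Fam
import Pool.Agent.Lib_MP_418a80_t3.Mult1

/-!
# MP_418a80_an, T3: a near-`ker p`-invariant family is cut into a labelled family (T3-CELLS)
-/

set_option autoImplicit false
set_option linter.unusedVariables false
set_option linter.unusedSectionVars false

open Topology Filter MeasureTheory
open scoped RealInnerProductSpace ComplexConjugate

namespace Pool.Agent.AbCoc

universe u v w z

namespace CellsV

/-! ### boxes -/

/-- the box `{0, .., L - 1}^d` -/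
noncomputable def box (d L : ℕ) : Finset (Fin d → ℤ) := Fintype.piFinset fun _ => Finset.Ico 0 (L : ℤ)

theorem mem_box {d L : ℕ} {k : Fin d → ℤ} : k ∈ box d L ↔ ∀ l, 0 ≤ k l ∧ k l < L := by
  simp [box, Fintype.mem_piFinset, Finset.mem_Ico]

theorem card_box (d L : ℕ) : (box d L).card = L ^ d := by
  unfold box
  rw [Fintype.card_piFinset]
  simp

theorem card_line (L : ℕ) (m : ℤ) :
    ((Finset.Ico 0 (L : ℤ)).filter (fun t => ¬ (0 ≤ t + m ∧ t + m < L))).card ≤ m.natAbs := by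
  rcases le_total 0 m with h | h
  · refine (Finset.card_le_card (t := Finset.Ico ((L : ℤ) - m) L) ?_).trans ?_
    · intro t ht
      rw [Finset.mem_filter, Finset.mem_Ico] at ht
      rw [Finset.mem_Ico]
      omega
    · rw [Int.card_Ico]
      omega
  · refine (Finset.card_le_card (t := Finset.Ico 0 (-m)) ?_).trans ?_
    · intro t ht
      rw [Finset.mem_filter, Finset.mem_Ico] at ht
      rw [Finset.mem_Ico]
      omega
    · rw [Int.card_Ico]
      omega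

/-- number of points of the box which leave it under the shift by `m` -/
theorem card_bad {d L : ℕ} (hL : 0 < L) (m : Fin d → ℤ) :
    ((L : ℝ)⁻¹) ^ d * (((box d L).filter (fun k => k + m ∉ box d L)).card : ℝ)
      ≤ (∑ l, |(m l : ℝ)|) / L := by
  classical
  have hL' : (0 : ℝ) < L := Nat.cast_pos.2 hL
  obtain ⟨Q, hQ⟩ : ∃ Q : Fin d → Fin d → Finset ℤ, Q = fun l i => if i = l then
      (Finset.Ico 0 (L : ℤ)).filter (fun t => ¬ (0 ≤ t + m l ∧ t + m l < L))
      else Finset.Ico 0 (L : ℤ) := ⟨_, rfl⟩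
  have h1 : (box d L).filter (fun k => k + m ∉ box d L) ⊆
      Finset.univ.biUnion (fun l : Fin d => Fintype.piFinset (Q l)) := by
    intro k hk
    rw [Finset.mem_filter] at hk
    obtain ⟨hk1, hk2⟩ := hk
    rw [mem_box] at hk1 hk2
    obtain ⟨l, hl⟩ := not_forall.1 hk2
    rw [Finset.mem_biUnion]
    refine ⟨l, Finset.mem_univ _, ?_⟩
    rw [Fintype.mem_piFinset]
    intro i
    rw [hQ]
    by_cases hi : i = l
    · subst hi
      simp only [if_true]
      rw [Finset.mem_filter, Finset.mem_Ico]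
      exact ⟨hk1 i, hl⟩
    · simp only [if_neg hi]
      rw [Finset.mem_Ico]
      exact hk1 i
  have h2 : ∀ l : Fin d, ((L : ℝ)⁻¹) ^ d * ((Fintype.piFinset (Q l)).card : ℝ)
      ≤ |(m l : ℝ)| / L := by
    intro l
    rw [Fintype.card_piFinset]
    push_cast
    have h3 : ((L : ℝ)⁻¹) ^ d = ∏ _i : Fin d, (L : ℝ)⁻¹ := by simp
    rw [h3, ← Finset.prod_mul_distrib]
    have h4 : ∀ i : Fin d, (L : ℝ)⁻¹ * ((Q l i).card : ℝ)
        = if i = l then (L : ℝ)⁻¹ * ((Q l l).card : ℝ) else 1 := by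
      intro i
      by_cases hi : i = l
      · rw [if_pos hi, hi]
      · rw [if_neg hi, hQ]
        simp only [if_neg hi]
        rw [Int.card_Ico]
        simp only [sub_zero, Int.toNat_natCast]
        exact inv_mul_cancel₀ hL'.ne'
    rw [Finset.prod_congr rfl (fun i _ => h4 i),
      Finset.prod_ite_eq' Finset.univ l (fun _ => (L : ℝ)⁻¹ * ((Q l l).card : ℝ)),
      if_pos (Finset.mem_univ _), div_eq_inv_mul]
    refine mul_le_mul_of_nonneg_left ?_ (by positivity)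
    have h5 := card_line L (m l)
    have h6 : Q l l = (Finset.Ico 0 (L : ℤ)).filter (fun t => ¬ (0 ≤ t + m l ∧ t + m l < L)) := by
      rw [hQ]
      simp only [if_true]
    rw [h6]
    have h7 : ((((Finset.Ico 0 (L : ℤ)).filter
        (fun t => ¬ (0 ≤ t + m l ∧ t + m l < L))).card : ℕ) : ℝ) ≤ ((m l).natAbs : ℝ) := by
      exact_mod_cast h5
    refine h7.trans (le_of_eq ?_)
    rw [Nat.cast_natAbs, Int.cast_abs]
  have h3 : (((box d L).filter (fun k => k + m ∉ box d L)).card : ℝ)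
      ≤ ∑ l, ((Fintype.piFinset (Q l)).card : ℝ) := by
    exact_mod_cast (Finset.card_le_card h1).trans Finset.card_biUnion_le
  calc ((L : ℝ)⁻¹) ^ d * (((box d L).filter (fun k => k + m ∉ box d L)).card : ℝ)
      ≤ ((L : ℝ)⁻¹) ^ d * ∑ l, ((Fintype.piFinset (Q l)).card : ℝ) :=
        mul_le_mul_of_nonneg_left h3 (by positivity)
    _ = ∑ l, ((L : ℝ)⁻¹) ^ d * ((Fintype.piFinset (Q l)).card : ℝ) := Finset.mul_sum _ _ _
    _ ≤ ∑ l, |(m l : ℝ)| / L := Finset.sum_le_sum fun l _ => h2 l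
    _ = (∑ l, |(m l : ℝ)|) / L := (Finset.sum_div _ _ _).symm

/-! ### the multiplet -/

/-- normalisation -/
noncomputable def sc (d L : ℕ) : ℝ := Real.sqrt (((L : ℝ)⁻¹) ^ d)

theorem sc_sq (d L : ℕ) : (sc d L) ^ 2 = ((L : ℝ)⁻¹) ^ d := Real.sq_sqrt (by positivity)

theorem sc_mul_card {d L : ℕ} (hL : 0 < L) : (sc d L) ^ 2 * ((box d L).card : ℝ) = 1 := by
  have hL' : (0 : ℝ) < L := Nat.cast_pos.2 hL
  rw [sc_sq, card_box]
  push_cast
  rw [← mul_pow, inv_mul_cancel₀ hL'.ne', one_pow]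

/-- averages over the box -/
theorem avg_le {d L : ℕ} (hL : 0 < L) {f : (Fin d → ℤ) → ℝ} {c : ℝ} (h : ∀ k ∈ box d L, f k ≤ c) :
    (sc d L) ^ 2 * ∑ k ∈ box d L, f k ≤ c := by
  have h1 : ∑ k ∈ box d L, f k ≤ ((box d L).card : ℝ) * c := by
    refine (Finset.sum_le_sum h).trans (le_of_eq ?_)
    rw [Finset.sum_const, nsmul_eq_mul]
  calc (sc d L) ^ 2 * ∑ k ∈ box d L, f k ≤ (sc d L) ^ 2 * (((box d L).card : ℝ) * c) :=
        mul_le_mul_of_nonneg_left h1 (sq_nonneg _)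
    _ = c := by rw [← mul_assoc, sc_mul_card hL, one_mul]

section
variable {A : Type u} [CStarAlgebra A] {K : Type v} [NormedAddCommGroup K]
  [InnerProductSpace ℂ K]

/-- cut to the box -/
noncomputable def cut (d L : ℕ) (h : (Fin d → ℤ) → A) (k : Fin d → ℤ) : A :=
  if k ∈ box d L then (sc d L : ℂ) • h k else 0

theorem norm_sc_sq (T : TrAlg A K) (d L : ℕ) (a : A) :
    ‖T.ι ((sc d L : ℂ) • a)‖ ^ 2 = (sc d L) ^ 2 * ‖T.ι a‖ ^ 2 := by
  rw [map_smul, norm_smul, mul_pow, Complex.norm_real, Real.norm_eq_abs, sq_abs]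

theorem sum_cut (T : TrAlg A K) {d L : ℕ} {F : Finset (Fin d → ℤ)} (hF : box d L ⊆ F)
    (h : (Fin d → ℤ) → A) :
    ∑ k ∈ F, ‖T.ι (cut d L h k)‖ ^ 2 = (sc d L) ^ 2 * ∑ k ∈ box d L, ‖T.ι (h k)‖ ^ 2 := by
  rw [Finset.mul_sum, ← Finset.sum_subset hF]
  · refine Finset.sum_congr rfl fun k hk => ?_
    rw [cut, if_pos hk, norm_sc_sq]
  · intro k _ hk
    rw [cut, if_neg hk, map_zero, norm_zero]
    norm_num

theorem cut_mul {d L : ℕ} (h : (Fin d → ℤ) → A) (z : A) (k : Fin d → ℤ) :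
    cut d L h k * z = cut d L (fun k => h k * z) k := by
  unfold cut
  split_ifs
  · rw [smul_mul_assoc]
  · rw [zero_mul]

theorem mul_cut {d L : ℕ} (h : (Fin d → ℤ) → A) (z : A) (k : Fin d → ℤ) :
    z * cut d L h k = cut d L (fun k => z * h k) k := by
  unfold cut
  split_ifs
  · rw [mul_smul_comm]
  · rw [mul_zero]

variable [CompleteSpace K] {G : Type w} [Group G] [TopologicalSpace G] {T : TrAlg A K}
  (S : TrAct G T)

theorem nsq_add (x y : A) : ‖T.ι (x + y)‖ ^ 2 ≤ 2 * ‖T.ι x‖ ^ 2 + 2 * ‖T.ι y‖ ^ 2 := by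
  rw [map_add]
  have h := norm_add_le (T.ι x) (T.ι y)
  have h0 := norm_nonneg (T.ι x + T.ι y)
  nlinarith [sq_nonneg (‖T.ι x‖ - ‖T.ι y‖)]

/-- the multiplet of `y` -/
noncomputable def XX {d : ℕ} (L : ℕ) {F : Finset (Fin d → ℤ)} (E : Chs (Fin d → ℤ) F)
    (q : (Fin d → ℤ) → G) (y : A) (c : E.C) : A :=
  E.X (cut d L (fun k => S.α (q k) y)) c

variable {d L : ℕ} {F : Finset (Fin d → ℤ)} (E : Chs (Fin d → ℤ) F) (q : (Fin d → ℤ) → G)

theorem XX_mass (hL : 0 < L) (hF : box d L ⊆ F) (y : A) :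
    ∑ c, ‖T.ι (XX S L E q y c)‖ ^ 2 = ‖T.ι y‖ ^ 2 := by
  unfold XX
  rw [E.sum_norm_sq T, sum_cut T hF]
  simp only [S.norm_map]
  rw [Finset.sum_const, nsmul_eq_mul, ← mul_assoc, sc_mul_card hL, one_mul]

theorem XX_mul (hF : box d L ⊆ F) (y z : A) :
    ∑ c, ‖T.ι (XX S L E q y c * z)‖ ^ 2
      = (sc d L) ^ 2 * ∑ k ∈ box d L, ‖T.ι (S.α (q k) y * z)‖ ^ 2 := by
  unfold XX
  rw [E.sum_norm_sq_mul T]
  simp only [cut_mul]
  exact sum_cut T hF _

theorem mul_XX (hF : box d L ⊆ F) (y z : A) :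
    ∑ c, ‖T.ι (z * XX S L E q y c)‖ ^ 2
      = (sc d L) ^ 2 * ∑ k ∈ box d L, ‖T.ι (z * S.α (q k) y)‖ ^ 2 := by
  unfold XX
  rw [E.sum_norm_sq_mul' T]
  simp only [mul_cut]
  exact sum_cut T hF _

theorem XX_zeta (hF : box d L ⊆ F) (y : A) (g : G) (ζ : ℂ) :
    ∑ c, ‖T.ι (S.α g (XX S L E q y c) - ζ • XX S L E q y c)‖ ^ 2
      = (sc d L) ^ 2 * ∑ k ∈ box d L, ‖T.ι (S.α g (S.α (q k) y) - ζ • S.α (q k) y)‖ ^ 2 := by
  unfold XX
  simp only [E.map_X (S.α g), ← E.X_smul]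
  rw [E.sum_norm_sq_sub T]
  have h : ∀ k, S.α g (cut d L (fun k => S.α (q k) y) k) - ζ • cut d L (fun k => S.α (q k) y) k
      = cut d L (fun k => S.α g (S.α (q k) y) - ζ • S.α (q k) y) k := by
    intro k
    unfold cut
    split_ifs
    · rw [map_smul, smul_sub, smul_comm ζ]
    · rw [map_zero, smul_zero, sub_zero]
  simp only [h]
  exact sum_cut T hF _

theorem XX_shift (hL : 0 < L) (hF : box d L ⊆ F) (y : A) (g : G) (m : Fin d → ℤ)
    (hm : ∀ k ∈ box d L, k - m ∈ F) :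
    ∑ c, ‖T.ι (S.α g (XX S L E q y c) - conj (E.χ c m) • XX S L E q y c)‖ ^ 2
      ≤ (sc d L) ^ 2 * ∑ k ∈ box d L, ‖T.ι (S.α g (S.α (q k) y) - S.α (q (k + m)) y)‖ ^ 2
        + 2 * ((∑ l, |(m l : ℝ)|) / L) * ‖T.ι y‖ ^ 2 := by
  classical
  obtain ⟨u, hu⟩ : ∃ u : (Fin d → ℤ) → A, u = cut d L (fun k => S.α (q k) y) := ⟨_, rfl⟩
  have hub : ∀ j, u j ≠ 0 → j ∈ box d L := by
    intro j hj
    by_contra h
    apply hj
    rw [hu, cut, if_neg h]
  have e1 : ∀ c, S.α g (XX S L E q y c) - conj (E.χ c m) • XX S L E q y c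
      = E.X (fun j => S.α g (u j)) c - E.X (fun j => u (j + m)) c := by
    intro c
    rw [E.X_shift u m (fun j hj => hF (hub j hj)) (fun j hj => hm j (hub j hj)), XX, ← hu,
      E.map_X (S.α g)]
  simp only [e1]
  rw [E.sum_norm_sq_sub T]
  obtain ⟨Y, hY⟩ : ∃ Y, Y = ‖T.ι y‖ ^ 2 := ⟨_, rfl⟩
  have hY0 : 0 ≤ Y := by rw [hY]; positivity
  obtain ⟨e, he⟩ : ∃ e : (Fin d → ℤ) → ℝ,
      e = fun k => ‖T.ι (S.α g (S.α (q k) y) - S.α (q (k + m)) y)‖ ^ 2 := ⟨_, rfl⟩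
  have he0 : ∀ k, 0 ≤ e k := fun k => by rw [he]; positivity
  have hs0 : 0 ≤ (sc d L) ^ 2 := sq_nonneg _
  have key : ∀ k ∈ F, ‖T.ι (S.α g (u k) - u (k + m))‖ ^ 2 ≤
      (if k ∈ box d L then (sc d L) ^ 2 * e k else 0) +
        ((if k ∈ box d L ∧ k + m ∉ box d L then (sc d L) ^ 2 * Y else 0) +
          (if k + m ∈ box d L ∧ k ∉ box d L then (sc d L) ^ 2 * Y else 0)) := by
    intro k _
    by_cases h1 : k ∈ box d L
    · by_cases h2 : k + m ∈ box d L
      · rw [if_pos h1, if_neg (fun h => h.2 h2), if_neg (fun h => h.2 h1), add_zero, add_zero]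
        have h3 : S.α g (u k) - u (k + m)
            = (sc d L : ℂ) • (S.α g (S.α (q k) y) - S.α (q (k + m)) y) := by
          rw [hu, cut, cut, if_pos h1, if_pos h2, map_smul, smul_sub]
        rw [h3, norm_sc_sq, he]
      · rw [if_pos h1, if_pos ⟨h1, h2⟩, if_neg (fun h => h2 h.1), add_zero]
        have h3 : S.α g (u k) - u (k + m) = (sc d L : ℂ) • S.α g (S.α (q k) y) := by
          rw [hu, cut, cut, if_pos h1, if_neg h2, map_smul, sub_zero]
        rw [h3, norm_sc_sq, S.norm_map, S.norm_map, ← hY]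
        have := mul_nonneg hs0 (he0 k)
        linarith
    · by_cases h2 : k + m ∈ box d L
      · rw [if_neg h1, if_neg (fun h => h1 h.1), if_pos ⟨h2, h1⟩, zero_add, zero_add]
        have h3 : S.α g (u k) - u (k + m) = -((sc d L : ℂ) • S.α (q (k + m)) y) := by
          rw [hu, cut, cut, if_neg h1, if_pos h2, map_zero, zero_sub]
        rw [h3, map_neg, norm_neg, norm_sc_sq, S.norm_map, ← hY]
      · rw [if_neg h1, if_neg (fun h => h1 h.1), if_neg (fun h => h2 h.1), add_zero, add_zero]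
        have h3 : S.α g (u k) - u (k + m) = 0 := by
          rw [hu, cut, cut, if_neg h1, if_neg h2, map_zero, zero_sub, neg_zero]
        rw [h3, map_zero, norm_zero]
        norm_num
  refine (Finset.sum_le_sum key).trans ?_
  rw [Finset.sum_add_distrib, Finset.sum_add_distrib]
  have t1 : ∑ k ∈ F, (if k ∈ box d L then (sc d L) ^ 2 * e k else 0)
      = (sc d L) ^ 2 * ∑ k ∈ box d L, e k := by
    rw [Finset.mul_sum, ← Finset.sum_subset hF]
    · exact Finset.sum_congr rfl fun k hk => by rw [if_pos hk]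
    · intro k _ hk
      rw [if_neg hk]
  have t2 : ∑ k ∈ F, (if k ∈ box d L ∧ k + m ∉ box d L then (sc d L) ^ 2 * Y else 0)
      ≤ (∑ l, |(m l : ℝ)|) / L * Y := by
    rw [← Finset.sum_filter, Finset.sum_const, nsmul_eq_mul]
    have h3 : ((F.filter (fun k => k ∈ box d L ∧ k + m ∉ box d L)).card : ℝ)
        ≤ (((box d L).filter (fun k => k + m ∉ box d L)).card : ℝ) := by
      have : F.filter (fun k => k ∈ box d L ∧ k + m ∉ box d L)
          ⊆ (box d L).filter (fun k => k + m ∉ box d L) := by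
        intro k hk
        rw [Finset.mem_filter] at hk ⊢
        exact hk.2
      exact_mod_cast Finset.card_le_card this
    have h4 := card_bad hL m
    rw [← sc_sq] at h4
    calc ((F.filter (fun k => k ∈ box d L ∧ k + m ∉ box d L)).card : ℝ) * ((sc d L) ^ 2 * Y)
        ≤ (((box d L).filter (fun k => k + m ∉ box d L)).card : ℝ) * ((sc d L) ^ 2 * Y) :=
          mul_le_mul_of_nonneg_right h3 (by positivity)
      _ = (sc d L) ^ 2 * (((box d L).filter (fun k => k + m ∉ box d L)).card : ℝ) * Y := by ring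
      _ ≤ (∑ l, |(m l : ℝ)|) / L * Y := mul_le_mul_of_nonneg_right h4 hY0
  have t3 : ∑ k ∈ F, (if k + m ∈ box d L ∧ k ∉ box d L then (sc d L) ^ 2 * Y else 0)
      ≤ (∑ l, |(m l : ℝ)|) / L * Y := by
    rw [← Finset.sum_filter, Finset.sum_const, nsmul_eq_mul]
    have h3 : ((F.filter (fun k => k + m ∈ box d L ∧ k ∉ box d L)).card : ℝ)
        ≤ (((box d L).filter (fun k => k + (-m) ∉ box d L)).card : ℝ) := by
      have : (F.filter (fun k => k + m ∈ box d L ∧ k ∉ box d L)).card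
          ≤ ((box d L).filter (fun k => k + (-m) ∉ box d L)).card := by
        refine Finset.card_le_card_of_injOn (fun k => k + m) ?_ ?_
        · intro k hk
          rw [Finset.mem_coe, Finset.mem_filter] at hk
          rw [Finset.mem_coe, Finset.mem_filter]
          refine ⟨hk.2.1, ?_⟩
          rw [add_neg_cancel_right]
          exact hk.2.2
        · intro k _ k' _ h
          exact add_right_cancel h
      exact_mod_cast this
    have h4 := card_bad hL (-m)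
    rw [← sc_sq] at h4
    have h5 : ∑ l, |(((-m) l : ℤ) : ℝ)| = ∑ l, |(m l : ℝ)| := by
      refine Finset.sum_congr rfl fun l _ => ?_
      rw [Pi.neg_apply, Int.cast_neg, abs_neg]
    rw [h5] at h4
    calc ((F.filter (fun k => k + m ∈ box d L ∧ k ∉ box d L)).card : ℝ) * ((sc d L) ^ 2 * Y)
        ≤ (((box d L).filter (fun k => k + (-m) ∉ box d L)).card : ℝ) * ((sc d L) ^ 2 * Y) :=
          mul_le_mul_of_nonneg_right h3 (by positivity)
      _ = (sc d L) ^ 2 * (((box d L).filter (fun k => k + (-m) ∉ box d L)).card : ℝ) * Y := by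
          ring
      _ ≤ (∑ l, |(m l : ℝ)|) / L * Y := mul_le_mul_of_nonneg_right h4 hY0
  rw [t1, ← hY, he]
  have h6 : 2 * ((∑ l, |(m l : ℝ)|) / L) * Y
      = (∑ l, |(m l : ℝ)|) / L * Y + (∑ l, |(m l : ℝ)|) / L * Y := by ring
  rw [h6]
  linarith

end

/-! ### characters -/

theorem norm_ch_sub_one_sq (s : ℝ) : ‖ch s - 1‖ ^ 2 = 2 - 2 * Real.cos s := by
  have h : ch s - 1 = ((Real.cos s - 1 : ℝ) : ℂ) + ((Real.sin s : ℝ) : ℂ) * Complex.I := by
    unfold ch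
    rw [Complex.exp_mul_I]
    push_cast
    ring
  rw [h, ← Complex.normSq_eq_norm_sq, Complex.normSq_add_mul_I]
  have := Real.sin_sq_add_cos_sq s
  nlinarith

/-- `|e^{iφt} - 1| ≤ |e^{iφ} - 1|` for `|φ| ≤ π`, `0 ≤ t ≤ 1` -/
theorem norm_ch_mul_sub_one_le {φ t : ℝ} (hφ : |φ| ≤ Real.pi) (h0 : 0 ≤ t) (h1 : t ≤ 1) :
    ‖ch (φ * t) - 1‖ ≤ ‖ch φ - 1‖ := by
  have h2 : ‖ch (φ * t) - 1‖ ^ 2 ≤ ‖ch φ - 1‖ ^ 2 := by
    rw [norm_ch_sub_one_sq, norm_ch_sub_one_sq]
    have h3 : Real.cos φ ≤ Real.cos (φ * t) := by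
      rw [← Real.cos_abs φ, ← Real.cos_abs (φ * t), abs_mul, abs_of_nonneg h0]
      refine Real.cos_le_cos_of_nonneg_of_le_pi (by positivity) hφ ?_
      exact mul_le_of_le_one_right (abs_nonneg _) h1
    linarith
  exact (pow_le_pow_iff_left₀ (norm_nonneg _) (norm_nonneg _) two_ne_zero).1 h2

theorem ch_sum {ι : Type*} (s : Finset ι) (f : ι → ℝ) : ch (∑ i ∈ s, f i) = ∏ i ∈ s, ch (f i) := by
  classical
  induction s using Finset.induction_on with
  | empty => simp [ch_zero]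
  | insert a s ha ih => rw [Finset.sum_insert ha, Finset.prod_insert ha, ch_add, ih]

theorem norm_ch_sum_sub_one_le {ι : Type*} (s : Finset ι) (f : ι → ℝ) :
    ‖ch (∑ i ∈ s, f i) - 1‖ ≤ ∑ i ∈ s, ‖ch (f i) - 1‖ := by
  classical
  induction s using Finset.induction_on with
  | empty => simp [ch_zero]
  | insert a s ha ih =>
    rw [Finset.sum_insert ha, Finset.sum_insert ha, ch_add]
    have h : ch (f a) * ch (∑ i ∈ s, f i) - 1
        = ch (f a) * (ch (∑ i ∈ s, f i) - 1) + (ch (f a) - 1) := by ring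
    rw [h]
    refine (norm_add_le _ _).trans ?_
    rw [norm_mul, norm_ch, one_mul]
    linarith

/-- the frequencies of a character -/
noncomputable def fr {d : ℕ} {F : Finset (Fin d → ℤ)} (E : Chs (Fin d → ℤ) F) (c : E.C)
    (l : Fin d) : ℝ := Complex.arg (conj (E.χ c (Pi.single l 1)))

theorem ch_fr {d : ℕ} {F : Finset (Fin d → ℤ)} (E : Chs (Fin d → ℤ) F) (c : E.C) (l : Fin d) :
    ch (fr E c l) = conj (E.χ c (Pi.single l 1)) := by
  have h := Complex.norm_mul_exp_arg_mul_I (conj (E.χ c (Pi.single l 1)))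
  rw [RCLike.norm_conj, E.unit, Complex.ofReal_one, one_mul] at h
  exact h

theorem fr_le {d : ℕ} {F : Finset (Fin d → ℤ)} (E : Chs (Fin d → ℤ) F) (c : E.C) (l : Fin d) :
    |fr E c l| ≤ Real.pi := Complex.abs_arg_le_pi _

theorem chi_eq {d : ℕ} {F : Finset (Fin d → ℤ)} (E : Chs (Fin d → ℤ) F) (c : E.C)
    (m : Fin d → ℤ) : conj (E.χ c m) = ch (∑ l, fr E c l * m l) := by
  classical
  have hadd : ∀ j k, conj (E.χ c (j + k)) = conj (E.χ c j) * conj (E.χ c k) := fun j k => by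
    rw [E.add, map_mul]
  have h1 : ∀ (l : Fin d) (n : ℤ), conj (E.χ c (Pi.single l n)) = ch (fr E c l * n) := by
    intro l n
    induction n using Int.induction_on with
    | zero => rw [Pi.single_zero, E.zero, map_one, Int.cast_zero, mul_zero, ch_zero]
    | succ n ih =>
      rw [Pi.single_add, hadd, ih, ← ch_fr, ← ch_add]
      congr 1
      push_cast
      ring
    | pred n ih =>
      have h2 : conj (E.χ c (Pi.single l (-(n : ℤ) - 1))) * ch (fr E c l)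
          = ch (fr E c l * ((-(n : ℤ) : ℤ) : ℝ)) := by
        rw [ch_fr, ← hadd, ← Pi.single_add, sub_add_cancel, ih]
      have h3 : ch (fr E c l * ((-(n : ℤ) - 1 : ℤ) : ℝ)) * ch (fr E c l)
          = ch (fr E c l * ((-(n : ℤ) : ℤ) : ℝ)) := by
        rw [← ch_add]
        congr 1
        push_cast
        ring
      exact mul_right_cancel₀ (ch_ne_zero _) (h2.trans h3.symm)
  have h2 : ∀ s : Finset (Fin d), conj (E.χ c (∑ l ∈ s, Pi.single l (m l)))
      = ch (∑ l ∈ s, fr E c l * m l) := by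
    intro s
    induction s using Finset.induction_on with
    | empty => simp [ch_zero, E.zero]
    | insert a s ha ih =>
      rw [Finset.sum_insert ha, Finset.sum_insert ha, hadd, ih, h1, ch_add]
  have h3 := h2 Finset.univ
  rw [Finset.univ_sum_single] at h3
  exact h3

/-! ### comparison -/

theorem avg_ge {d L : ℕ} (hL : 0 < L) {f : (Fin d → ℤ) → ℝ} {c : ℝ} (h : ∀ k ∈ box d L, c ≤ f k) :
    c ≤ (sc d L) ^ 2 * ∑ k ∈ box d L, f k := by
  have h1 : ((box d L).card : ℝ) * c ≤ ∑ k ∈ box d L, f k := by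
    refine le_trans (le_of_eq ?_) (Finset.sum_le_sum h)
    rw [Finset.sum_const, nsmul_eq_mul]
  calc c = (sc d L) ^ 2 * (((box d L).card : ℝ) * c) := by rw [← mul_assoc, sc_mul_card hL, one_mul]
    _ ≤ (sc d L) ^ 2 * ∑ k ∈ box d L, f k := mul_le_mul_of_nonneg_left h1 (sq_nonneg _)

section
variable {A : Type u} [CStarAlgebra A] {K : Type v} [NormedAddCommGroup K]
  [InnerProductSpace ℂ K] [CompleteSpace K] {G : Type w} [Group G] [TopologicalSpace G]
  {T : TrAlg A K} (S : TrAct G T)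

theorem comm_apply (g s : G) (y : A) :
    S.α g (S.α s y) = S.α s (S.α g (S.α ((s * g)⁻¹ * (g * s)) y)) := by
  have h : g * s = s * (g * ((s * g)⁻¹ * (g * s))) := by group
  calc S.α g (S.α s y) = S.α (g * s) y := (S.mul _ _ _).symm
    _ = S.α (s * (g * ((s * g)⁻¹ * (g * s)))) y := by rw [← h]
    _ = S.α s (S.α g (S.α ((s * g)⁻¹ * (g * s)) y)) := by rw [S.mul, S.mul]

theorem compare1 (g s : G) (y : A) (ζ : ℂ) :
    ‖T.ι (S.α g (S.α s y) - ζ • S.α s y)‖ ^ 2 ≤ 2 * ‖T.ι (S.α g y - ζ • y)‖ ^ 2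
      + 2 * ‖T.ι (S.α ((s * g)⁻¹ * (g * s)) y - y)‖ ^ 2 := by
  have h1 : S.α g (S.α s y) - ζ • S.α s y
      = S.α s ((S.α g y - ζ • y) + S.α g (S.α ((s * g)⁻¹ * (g * s)) y - y)) := by
    rw [comm_apply S g s y, map_add (S.α s), map_sub (S.α s), map_smul (S.α s), map_sub (S.α g),
      map_sub (S.α s)]
    abel
  rw [h1, S.norm_map]
  refine (nsq_add _ _).trans ?_
  rw [S.norm_map]

theorem compare2 (g s : G) (y : A) (ζ : ℂ) :
    ‖T.ι (S.α g y - ζ • y)‖ ^ 2 ≤ 2 * ‖T.ι (S.α g (S.α s y) - ζ • S.α s y)‖ ^ 2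
      + 2 * ‖T.ι (S.α ((s * g)⁻¹ * (g * s)) y - y)‖ ^ 2 := by
  have h1 : S.α g y - ζ • y = (S.α g (S.α ((s * g)⁻¹ * (g * s)) y) - ζ • y)
      + -(S.α g (S.α ((s * g)⁻¹ * (g * s)) y - y)) := by
    rw [map_sub (S.α g)]
    abel
  have h2 : ‖T.ι (S.α g (S.α s y) - ζ • S.α s y)‖
      = ‖T.ι (S.α g (S.α ((s * g)⁻¹ * (g * s)) y) - ζ • y)‖ := by
    rw [comm_apply S g s y, ← map_smul, ← map_sub, S.norm_map]
  rw [h2, h1]
  refine (nsq_add _ _).trans ?_
  rw [map_neg T.ι, norm_neg, S.norm_map]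

theorem compare3 (g s s' r : G) (y : A) :
    ‖T.ι (S.α g (S.α s y) - S.α s' y)‖ ^ 2
      ≤ 2 * ‖T.ι (S.α ((s' * r)⁻¹ * (g * s)) y - y)‖ ^ 2 + 2 * ‖T.ι (S.α r y - y)‖ ^ 2 := by
  have h : g * s = s' * (r * ((s' * r)⁻¹ * (g * s))) := by group
  have h1 : S.α g (S.α s y) = S.α s' (S.α r (S.α ((s' * r)⁻¹ * (g * s)) y)) := by
    calc S.α g (S.α s y) = S.α (g * s) y := (S.mul _ _ _).symm
      _ = S.α (s' * (r * ((s' * r)⁻¹ * (g * s)))) y := by rw [← h]
      _ = _ := by rw [S.mul, S.mul]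
  have h2 : S.α g (S.α s y) - S.α s' y
      = S.α s' (S.α r (S.α ((s' * r)⁻¹ * (g * s)) y - y) + (S.α r y - y)) := by
    rw [h1, ← map_sub (S.α s'), map_sub (S.α r)]
    congr 1
    abel
  rw [h2, S.norm_map]
  refine (nsq_add _ _).trans ?_
  rw [S.norm_map]

end

section
variable {V : Type z} [NormedAddCommGroup V] [InnerProductSpace ℝ V] {d : ℕ}

theorem norm_lin (bs : OrthonormalBasis (Fin d) ℝ V) (c : Fin d → ℝ) :
    ‖∑ l, c l • bs l‖ ≤ ∑ l, |c l| := by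
  refine (norm_sum_le _ _).trans (Finset.sum_le_sum fun l _ => ?_)
  rw [norm_smul, bs.orthonormal.1 l, mul_one, Real.norm_eq_abs]

/-- lattice points -/
noncomputable def vk (bs : OrthonormalBasis (Fin d) ℝ V) (a : ℝ) (k : Fin d → ℤ) : V :=
  ∑ l, (a * k l) • bs l

theorem vk_add (bs : OrthonormalBasis (Fin d) ℝ V) (a : ℝ) (k m : Fin d → ℤ) :
    vk bs a (k + m) = vk bs a k + vk bs a m := by
  unfold vk
  rw [← Finset.sum_add_distrib]
  refine Finset.sum_congr rfl fun l _ => ?_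
  rw [← add_smul, Pi.add_apply]
  congr 1
  push_cast
  ring

theorem vk_single (bs : OrthonormalBasis (Fin d) ℝ V) (a : ℝ) (l : Fin d) :
    vk bs a (Pi.single l 1) = a • bs l := by
  classical
  unfold vk
  rw [Finset.sum_eq_single l]
  · rw [Pi.single_eq_same, Int.cast_one, mul_one]
  · intro i _ hi
    rw [Pi.single_eq_of_ne hi, Int.cast_zero, mul_zero, zero_smul]
  · intro h
    exact absurd (Finset.mem_univ _) h

end

end CellsV

open CellsV in
/-- T3-CELLS: a near-`ker p`-invariant family is cut into a labelled family -/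
theorem TrAct.exists_cells {A : Type u} [CStarAlgebra A] {K : Type v} [NormedAddCommGroup K]
    [InnerProductSpace ℂ K] [CompleteSpace K] {G : Type w} [Group G] [TopologicalSpace G]
    [IsTopologicalGroup G] {T : TrAlg A K} (S : TrAct G T) {V : Type z} [NormedAddCommGroup V]
    [InnerProductSpace ℝ V] [FiniteDimensional ℝ V] (p : G → V) (hp : Continuous p)
    (hpm : ∀ g h, p (g * h) = p g + p h) (σ : V → G) (hσ : Continuous σ) (hpσ : ∀ v, p (σ v) = v)
    (D : Set G) (hD : IsCompact D) (κ C : ℝ) (hκ : 0 < κ) :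
    ∃ (D' : Set G) (κ' : ℝ), IsCompact D' ∧ 0 < κ' ∧
      ∀ (b : A) (J : Type) [Fintype J] (y : J → A), S.Fixed b → (∀ j, b * y j = y j) →
        (∀ j, y j * b = y j) → T.Dm C y →
        (∀ h ∈ D', p h = 0 → ∑ j, ‖T.ι (S.α h (y j) - y j)‖ ^ 2 ≤ κ') →
        ∃ (J' : Type) (_ : Fintype J') (x : J' → A) (θ : J' → V),
          S.IsLab (pch p) Set.univ b D κ C x θ ∧ T.ms x = T.ms y ∧
          ∀ g ∈ D, ∀ ζ : ℂ, ‖ζ‖ = 1 →
            ∑ i, ‖T.ι (S.α g (x i) - ζ • x i)‖ ^ 2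
              ≤ 2 * ∑ j, ‖T.ι (S.α g (y j) - ζ • y j)‖ ^ 2 + κ ∧
            ∑ j, ‖T.ι (S.α g (y j) - ζ • y j)‖ ^ 2
              ≤ 2 * ∑ i, ‖T.ι (S.α g (x i) - ζ • x i)‖ ^ 2 + κ := by
  classical
  have hproper : ProperSpace V := FiniteDimensional.proper ℝ V
  obtain ⟨d, hd⟩ : ∃ d, d = Module.finrank ℝ V := ⟨_, rfl⟩
  have bs : OrthonormalBasis (Fin d) ℝ V := by
    rw [hd]
    exact stdOrthonormalBasis ℝ V
  have hd0 : (0 : ℝ) ≤ d := Nat.cast_nonneg d
  -- the homomorphism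
  have p1 : p 1 = 0 := by
    have h := hpm 1 1
    rw [mul_one] at h
    exact left_eq_add.1 h
  have pinv : ∀ g, p g⁻¹ = -p g := fun g => by
    have h := hpm g⁻¹ g
    rw [inv_mul_cancel, p1] at h
    exact eq_neg_of_add_eq_zero_left h.symm
  obtain ⟨P, hP⟩ := hD.exists_bound_of_continuousOn hp.continuousOn
  obtain ⟨P0, hP0⟩ : ∃ P0, P0 = max P 0 := ⟨_, rfl⟩
  have hP00 : 0 ≤ P0 := by rw [hP0]; exact le_max_right _ _
  have hPD : ∀ g ∈ D, ‖p g‖ ≤ P0 := fun g hg => by rw [hP0]; exact (hP g hg).trans (le_max_left _ _)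
  -- the constants
  obtain ⟨W, hW⟩ : ∃ W, W = 1 + 16 * (d + 1) * (P0 + 1) * |C| / κ := ⟨_, rfl⟩
  have hW1 : 1 ≤ W := by
    rw [hW]
    have : 0 ≤ 16 * ((d : ℝ) + 1) * (P0 + 1) * |C| / κ := by positivity
    linarith
  have hW2 : 16 * (d + 1) * (P0 + 1) * |C| ≤ κ * W := by
    have h1 : κ * (16 * (d + 1) * (P0 + 1) * |C| / κ) = 16 * (d + 1) * (P0 + 1) * |C| := by
      field_simp
    rw [hW, mul_add κ 1, h1]
    linarith
  obtain ⟨ρ, hρ⟩ : ∃ ρ, ρ = (d + 1) * (W + P0 + 2) := ⟨_, rfl⟩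
  have hρd : d * (W + P0 + 1) ≤ ρ := by
    rw [hρ]
    exact mul_le_mul (by linarith) (by linarith) (by linarith) (by linarith)
  have hρ0 : 0 ≤ ρ := le_trans (by positivity) hρd
  have hρ1 : 1 ≤ ρ := by
    rw [hρ]
    have h1 : (1 : ℝ) * 1 ≤ (d + 1) * (W + P0 + 2) :=
      mul_le_mul (by linarith) (by linarith) zero_le_one (by linarith)
    linarith
  obtain ⟨B, hB⟩ : ∃ B, B = Metric.closedBall (0 : V) ρ := ⟨_, rfl⟩
  have hBc : IsCompact B := by rw [hB]; exact isCompact_closedBall _ _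
  have hBm : ∀ v : V, ‖v‖ ≤ ρ → v ∈ B := fun v hv => by
    rw [hB, mem_closedBall_zero_iff]
    exact hv
  have h0B : (0 : V) ∈ B := hBm 0 (by rw [norm_zero]; exact hρ0)
  obtain ⟨D0, hD0⟩ : ∃ D0, D0 = D ∪ σ '' B := ⟨_, rfl⟩
  have hD0c : IsCompact D0 := by rw [hD0]; exact hD.union (hBc.image hσ)
  obtain ⟨f1, hf1⟩ : ∃ f1 : G × (V × (V × V)) → G,
      f1 = fun x => (σ x.2.2.1 * σ x.2.2.2)⁻¹ * (x.1 * σ x.2.1) := ⟨_, rfl⟩
  obtain ⟨f2, hf2⟩ : ∃ f2 : G × V → G, f2 = fun x => (σ x.2 * x.1)⁻¹ * (x.1 * σ x.2) := ⟨_, rfl⟩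
  have hf1c : Continuous f1 := by
    rw [hf1]
    exact ((hσ.comp (continuous_fst.comp (continuous_snd.comp continuous_snd))).mul
      (hσ.comp (continuous_snd.comp (continuous_snd.comp continuous_snd)))).inv.mul
      (continuous_fst.mul (hσ.comp (continuous_fst.comp continuous_snd)))
  have hf2c : Continuous f2 := by
    rw [hf2]
    exact ((hσ.comp continuous_snd).mul continuous_fst).inv.mul
      (continuous_fst.mul (hσ.comp continuous_snd))
  obtain ⟨D', hD'⟩ : ∃ D', D' = f1 '' (D0 ×ˢ (B ×ˢ (B ×ˢ B))) ∪ f2 '' (D0 ×ˢ B) ∪ {σ 0} :=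
    ⟨_, rfl⟩
  obtain ⟨κ', hκ'⟩ : ∃ κ', κ' = κ / (200 * ((d : ℝ) + 1) ^ 2) := ⟨_, rfl⟩
  have hκ'0 : 0 < κ' := by rw [hκ']; positivity
  have hκκ : 200 * ((d : ℝ) + 1) ^ 2 * κ' = κ := by
    rw [hκ', mul_div_cancel₀ _ (by positivity)]
  have hκ'1 : 200 * κ' ≤ κ := by
    rw [← hκκ]
    have h1 : (1 : ℝ) ≤ ((d : ℝ) + 1) ^ 2 := by nlinarith
    nlinarith
  refine ⟨D', κ', ?_, hκ'0, ?_⟩
  · rw [hD']
    exact (((hD0c.prod (hBc.prod (hBc.prod hBc))).image hf1c).union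
      ((hD0c.prod hBc).image hf2c)).union isCompact_singleton
  intro b J _ y hb hby hyb hdm hinv
  have hms : T.ms y ≤ C := hdm.ms_le
  have hms0 : 0 ≤ T.ms y := T.ms_nonneg y
  have hC0 : 0 ≤ C := hdm.nonneg
  have hCa : |C| = C := abs_of_nonneg hC0
  rw [hCa] at hW2
  -- near invariance
  have hn1 : ∀ g ∈ D0, ∀ v ∈ B, ∀ v' ∈ B, ∀ r ∈ B, p g + v = v' + r →
      ∑ j, ‖T.ι (S.α ((σ v' * σ r)⁻¹ * (g * σ v)) (y j) - y j)‖ ^ 2 ≤ κ' := by
    intro g hg v hv v' hv' r hr h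
    refine hinv _ ?_ ?_
    · rw [hD', hf1]
      exact Or.inl (Or.inl ⟨(g, (v, (v', r))), ⟨hg, hv, hv', hr⟩, rfl⟩)
    · rw [hpm, pinv, hpm, hpm, hpσ, hpσ, hpσ, h, neg_add_cancel]
  have hn2 : ∀ g ∈ D0, ∀ v ∈ B,
      ∑ j, ‖T.ι (S.α ((σ v * g)⁻¹ * (g * σ v)) (y j) - y j)‖ ^ 2 ≤ κ' := by
    intro g hg v hv
    refine hinv _ ?_ ?_
    · rw [hD', hf2]
      exact Or.inl (Or.inr ⟨(g, v), ⟨hg, hv⟩, rfl⟩)
    · rw [hpm, pinv, hpm, hpm, hpσ, add_comm v, neg_add_cancel]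
  have hn0 : ∑ j, ‖T.ι (S.α (σ 0) (y j) - y j)‖ ^ 2 ≤ κ' := by
    refine hinv _ ?_ (hpσ 0)
    rw [hD']
    exact Or.inr rfl
  -- regularity
  obtain ⟨δ, hδ, hreg⟩ : ∃ δ : ℝ, 0 < δ ∧ ∀ v : V, ‖v‖ < δ →
      ∑ j, ‖T.ι (S.α (σ v) (y j) - y j)‖ ^ 2 ≤ 4 * κ' := by
    have hc : Continuous fun v : V => ∑ j, ‖T.ι (S.α (σ v) (y j)) - T.ι (S.α (σ 0) (y j))‖ ^ 2 := by
      refine continuous_finset_sum _ fun j _ => ?_
      exact ((((S.cont (y j)).comp hσ).sub continuous_const).norm).pow 2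
    have h1 : ∀ᶠ v in 𝓝 (0 : V),
        ∑ j, ‖T.ι (S.α (σ v) (y j)) - T.ι (S.α (σ 0) (y j))‖ ^ 2 < κ' := by
      refine hc.continuousAt.eventually (gt_mem_nhds ?_)
      simp only [sub_self, norm_zero]
      simpa using hκ'0
    rw [Metric.eventually_nhds_iff] at h1
    obtain ⟨δ, hδ, h2⟩ := h1
    refine ⟨δ, hδ, fun v hv => ?_⟩
    have h3 := h2 (y := v) (by rw [dist_zero_right]; exact hv)
    have h4 : ∀ j, ‖T.ι (S.α (σ v) (y j) - y j)‖ ^ 2
        ≤ 2 * ‖T.ι (S.α (σ v) (y j)) - T.ι (S.α (σ 0) (y j))‖ ^ 2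
          + 2 * ‖T.ι (S.α (σ 0) (y j) - y j)‖ ^ 2 := by
      intro j
      have h5 : S.α (σ v) (y j) - y j
          = (S.α (σ v) (y j) - S.α (σ 0) (y j)) + (S.α (σ 0) (y j) - y j) := by abel
      rw [h5, ← map_sub T.ι]
      exact nsq_add _ _
    refine (Finset.sum_le_sum fun j _ => h4 j).trans ?_
    rw [Finset.sum_add_distrib, ← Finset.mul_sum, ← Finset.mul_sum]
    linarith
  -- the lattice
  obtain ⟨L, hL⟩ := exists_nat_gt (1 + (d + 1) * W / δ + W + 32 * ((d : ℝ) + 1) ^ 2 * C / κ)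
  have hx1 : 0 ≤ (d + 1) * W / δ := by positivity
  have hx2 : 0 ≤ 32 * ((d : ℝ) + 1) ^ 2 * C / κ := by positivity
  have hLr : (0 : ℝ) < L := by linarith
  have hL0 : 0 < L := Nat.cast_pos.1 hLr
  obtain ⟨a, ha⟩ : ∃ a, a = W / L := ⟨_, rfl⟩
  have ha0 : 0 < a := by rw [ha]; positivity
  have haL : a * L = W := by rw [ha, div_mul_cancel₀ _ hLr.ne']
  have ha1 : a ≤ 1 := by rw [ha, div_le_one hLr]; linarith
  have haδ : (d + 1) * a < δ := by
    have h1 : (d + 1) * W / δ < L := by linarith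
    rw [div_lt_iff₀ hδ] at h1
    rw [ha, ← mul_div_assoc, div_lt_iff₀ hLr]
    linarith
  have hLC : 32 * ((d : ℝ) + 1) ^ 2 * C ≤ κ * L := by
    have h1 : 32 * ((d : ℝ) + 1) ^ 2 * C / κ < L := by linarith
    rw [div_lt_iff₀ hκ] at h1
    linarith
  obtain ⟨M, hM⟩ := exists_nat_gt ((P0 + 1) / a)
  obtain ⟨F, hF⟩ : ∃ F : Finset (Fin d → ℤ),
      F = Fintype.piFinset (fun _ => Finset.Icc (-((L : ℤ) + M)) ((L : ℤ) + M)) := ⟨_, rfl⟩
  have hmF : ∀ k : Fin d → ℤ, (∀ l, |k l| ≤ (L : ℤ) + M) → k ∈ F := by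
    intro k hk
    rw [hF, Fintype.mem_piFinset]
    intro l
    rw [Finset.mem_Icc]
    exact abs_le.1 (hk l)
  have hbF : box d L ⊆ F := by
    intro k hk
    rw [mem_box] at hk
    refine hmF k fun l => ?_
    have := hk l
    rw [abs_le]
    omega
  obtain ⟨E⟩ := exists_chs d F
  obtain ⟨q, hq⟩ : ∃ q : (Fin d → ℤ) → G, q = fun k => σ (vk bs a k) := ⟨_, rfl⟩
  -- norms of the lattice points
  have hvk : ∀ k ∈ box d L, ∀ m : Fin d → ℤ, (∀ l, a * |(m l : ℝ)| ≤ P0 + 1) →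
      vk bs a (k + m) ∈ B := by
    intro k hk m hm
    rw [mem_box] at hk
    refine hBm _ ?_
    refine (norm_lin bs _).trans ?_
    have h1 : ∀ l ∈ (Finset.univ : Finset (Fin d)), |a * (((k + m) l : ℤ) : ℝ)| ≤ W + P0 + 1 := by
      intro l _
      have h2 : (0 : ℝ) ≤ (k l : ℝ) := by exact_mod_cast (hk l).1
      have h3 : (k l : ℝ) ≤ (L : ℝ) := by exact_mod_cast (hk l).2.le
      have h4 : a * (k l : ℝ) ≤ W := by
        rw [← haL]
        exact mul_le_mul_of_nonneg_left h3 ha0.le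
      have h5 : |a * (((k + m) l : ℤ) : ℝ)| ≤ a * (k l : ℝ) + a * |(m l : ℝ)| := by
        rw [abs_mul, abs_of_pos ha0, Pi.add_apply, Int.cast_add, ← mul_add]
        refine mul_le_mul_of_nonneg_left ((abs_add_le _ _).trans ?_) ha0.le
        rw [abs_of_nonneg h2]
      have := hm l
      linarith
    refine (Finset.sum_le_sum h1).trans ?_
    rw [Finset.sum_const, Finset.card_univ, Fintype.card_fin, nsmul_eq_mul]
    exact hρd
  have hkm : ∀ k ∈ box d L, ∀ m : Fin d → ℤ, (∀ l, a * |(m l : ℝ)| ≤ P0 + 1) → k - m ∈ F := by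
    intro k hk m hm
    rw [mem_box] at hk
    refine hmF _ fun l => ?_
    have h1 : |(m l : ℝ)| < M := by
      refine lt_of_le_of_lt ?_ hM
      rw [le_div_iff₀ ha0, mul_comm]
      exact hm l
    have h2 : |m l| < (M : ℤ) := by
      rw [← Int.cast_abs] at h1
      exact_mod_cast h1
    have h3 := hk l
    rw [Pi.sub_apply]
    rw [abs_lt] at h2
    rw [abs_le]
    omega
  have hk0 : ∀ k ∈ box d L, vk bs a k ∈ B := by
    intro k hk
    have h1 := hvk k hk 0 (fun l => by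
      rw [Pi.zero_apply, Int.cast_zero, abs_zero, mul_zero]
      linarith)
    rwa [add_zero] at h1
  -- the family
  obtain ⟨X, hX⟩ : ∃ X : E.C → J → A, X = fun c j => XX S L E q (y j) c := ⟨_, rfl⟩
  have hXmass : ∑ j, ∑ c, ‖T.ι (X c j)‖ ^ 2 = T.ms y := by
    rw [hX]
    exact Finset.sum_congr rfl fun j _ => XX_mass S E q hL0 hbF (y j)
  -- errors with a fixed phase
  have hzeta : ∀ g ∈ D0, ∀ ζ : ℂ,
      ∑ j, ∑ c, ‖T.ι (S.α g (X c j) - ζ • X c j)‖ ^ 2
        ≤ 2 * ∑ j, ‖T.ι (S.α g (y j) - ζ • y j)‖ ^ 2 + 2 * κ' ∧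
      ∑ j, ‖T.ι (S.α g (y j) - ζ • y j)‖ ^ 2
        ≤ 2 * ∑ j, ∑ c, ‖T.ι (S.α g (X c j) - ζ • X c j)‖ ^ 2 + 2 * κ' := by
    intro g hg ζ
    have e1 : ∑ j, ∑ c, ‖T.ι (S.α g (X c j) - ζ • X c j)‖ ^ 2
        = (sc d L) ^ 2 * ∑ k ∈ box d L,
            ∑ j, ‖T.ι (S.α g (S.α (q k) (y j)) - ζ • S.α (q k) (y j))‖ ^ 2 := by
      have h1 : ∀ j, ∑ c, ‖T.ι (S.α g (X c j) - ζ • X c j)‖ ^ 2 = (sc d L) ^ 2 *
          ∑ k ∈ box d L, ‖T.ι (S.α g (S.α (q k) (y j)) - ζ • S.α (q k) (y j))‖ ^ 2 := by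
        intro j
        rw [hX]
        exact XX_zeta S E q hbF (y j) g ζ
      rw [Finset.sum_congr rfl (fun j _ => h1 j), ← Finset.mul_sum, Finset.sum_comm]
    rw [e1]
    constructor
    · refine avg_le hL0 fun k hk => ?_
      have h1 := hn2 g hg _ (hk0 k hk)
      rw [hq]
      refine (Finset.sum_le_sum fun j _ => compare1 S g (σ (vk bs a k)) (y j) ζ).trans ?_
      rw [Finset.sum_add_distrib, ← Finset.mul_sum, ← Finset.mul_sum]
      linarith
    · have h2 : ∑ j, ‖T.ι (S.α g (y j) - ζ • y j)‖ ^ 2 ≤ (sc d L) ^ 2 * ∑ k ∈ box d L,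
          (2 * ∑ j, ‖T.ι (S.α g (S.α (q k) (y j)) - ζ • S.α (q k) (y j))‖ ^ 2 + 2 * κ') := by
        refine avg_ge hL0 fun k hk => ?_
        have h1 := hn2 g hg _ (hk0 k hk)
        rw [hq]
        refine (Finset.sum_le_sum fun j _ => compare2 S g (σ (vk bs a k)) (y j) ζ).trans ?_
        rw [Finset.sum_add_distrib, ← Finset.mul_sum, ← Finset.mul_sum]
        linarith
      refine h2.trans (le_of_eq ?_)
      rw [Finset.sum_add_distrib, ← Finset.mul_sum, Finset.sum_const, nsmul_eq_mul, mul_add,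
        ← mul_assoc ((sc d L) ^ 2) ((box d L).card : ℝ), sc_mul_card hL0]
      ring
  -- errors of the shifts
  have hshift : ∀ g ∈ D0, ∀ (m : Fin d → ℤ) (r : V) (R : ℝ), (∀ l, a * |(m l : ℝ)| ≤ P0 + 1) →
      r ∈ B → p g = vk bs a m + r → ∑ j, ‖T.ι (S.α (σ r) (y j) - y j)‖ ^ 2 ≤ R →
      ∑ j, ∑ c, ‖T.ι (S.α g (X c j) - conj (E.χ c m) • X c j)‖ ^ 2
        ≤ (2 * κ' + 2 * R) + 2 * ((∑ l, |(m l : ℝ)|) / L) * C := by
    intro g hg m r R hm hr hpg hR
    have h1 : ∀ j, ∑ c, ‖T.ι (S.α g (X c j) - conj (E.χ c m) • X c j)‖ ^ 2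
        ≤ (sc d L) ^ 2 * ∑ k ∈ box d L,
            ‖T.ι (S.α g (S.α (q k) (y j)) - S.α (q (k + m)) (y j))‖ ^ 2
          + 2 * ((∑ l, |(m l : ℝ)|) / L) * ‖T.ι (y j)‖ ^ 2 := by
      intro j
      rw [hX]
      exact XX_shift S E q hL0 hbF (y j) g m (fun k hk => hkm k hk m hm)
    refine (Finset.sum_le_sum fun j _ => h1 j).trans ?_
    rw [Finset.sum_add_distrib, ← Finset.mul_sum, ← Finset.mul_sum, Finset.sum_comm]
    refine add_le_add ?_ ?_
    · refine avg_le hL0 fun k hk => ?_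
      have h2 := hn1 g hg _ (hk0 k hk) _ (hvk k hk m hm) r hr (by rw [hpg, vk_add]; abel)
      rw [hq]
      refine (Finset.sum_le_sum fun j _ =>
        compare3 S g (σ (vk bs a k)) (σ (vk bs a (k + m))) (σ r) (y j)).trans ?_
      rw [Finset.sum_add_distrib, ← Finset.mul_sum, ← Finset.mul_sum]
      linarith
    · refine mul_le_mul_of_nonneg_left hms ?_
      have : 0 ≤ ∑ l, |(m l : ℝ)| := Finset.sum_nonneg fun l _ => abs_nonneg _
      positivity
  -- high frequencies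
  have hfreq : ∀ l, ∑ j, ∑ c, ‖ch (fr E c l) - 1‖ ^ 2 * ‖T.ι (X c j)‖ ^ 2
      ≤ 28 * κ' + 4 * (C / L) := by
    intro l
    have hal : ‖a • bs l‖ = a := by
      rw [norm_smul, bs.orthonormal.1 l, mul_one, Real.norm_eq_abs, abs_of_pos ha0]
    have haB : a • bs l ∈ B := hBm _ (by rw [hal]; linarith)
    have hg : σ (a • bs l) ∈ D0 := by
      rw [hD0]
      exact Or.inr ⟨_, haB, rfl⟩
    have hm : ∀ i, a * |(((Pi.single l 1 : Fin d → ℤ) i : ℤ) : ℝ)| ≤ P0 + 1 := by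
      intro i
      by_cases hi : i = l
      · subst hi
        rw [Pi.single_eq_same, Int.cast_one, abs_one, mul_one]
        linarith
      · rw [Pi.single_eq_of_ne hi, Int.cast_zero, abs_zero, mul_zero]
        linarith
    have h1 := hshift _ hg (Pi.single l 1) 0 κ' hm h0B (by rw [hpσ, vk_single, add_zero]) hn0
    have h2 := (hzeta _ hg 1).1
    have h3 := hreg (a • bs l) (by rw [hal]; nlinarith)
    have h4 : ∑ i, |(((Pi.single l 1 : Fin d → ℤ) i : ℤ) : ℝ)| = 1 := by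
      rw [Finset.sum_eq_single l]
      · rw [Pi.single_eq_same, Int.cast_one, abs_one]
      · intro i _ hi
        rw [Pi.single_eq_of_ne hi, Int.cast_zero, abs_zero]
      · intro h
        exact absurd (Finset.mem_univ _) h
    rw [h4] at h1
    simp only [one_smul] at h2
    have h5 : ∀ c j, ‖ch (fr E c l) - 1‖ ^ 2 * ‖T.ι (X c j)‖ ^ 2
        ≤ 2 * ‖T.ι (S.α (σ (a • bs l)) (X c j) - X c j)‖ ^ 2
          + 2 * ‖T.ι (S.α (σ (a • bs l)) (X c j)
              - conj (E.χ c (Pi.single l 1)) • X c j)‖ ^ 2 := by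
      intro c j
      rw [← T.norm_smul_sq, ch_fr]
      have h6 : (conj (E.χ c (Pi.single l 1)) - 1) • X c j
          = (S.α (σ (a • bs l)) (X c j) - X c j)
            + -(S.α (σ (a • bs l)) (X c j) - conj (E.χ c (Pi.single l 1)) • X c j) := by
        rw [sub_smul, one_smul]
        abel
      rw [h6]
      refine (nsq_add _ _).trans ?_
      rw [map_neg T.ι, norm_neg]
    refine (Finset.sum_le_sum fun j _ => Finset.sum_le_sum fun c _ => h5 c j).trans ?_
    simp only [Finset.sum_add_distrib, ← Finset.mul_sum]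
    have h6 : 2 * (1 / (L : ℝ)) * C = 2 * (C / L) := by ring
    rw [h6] at h1
    linarith
  -- the labels
  obtain ⟨th, hth⟩ : ∃ th : E.C → V, th = fun c => ∑ l, (fr E c l / a) • bs l := ⟨_, rfl⟩
  have hne : ∀ g ∈ D, ∑ j, ∑ c, ‖T.ι (S.α g (X c j) - pch p (th c) g • X c j)‖ ^ 2 ≤ κ := by
    intro g hg
    have hgD : g ∈ D0 := by
      rw [hD0]
      exact Or.inl hg
    obtain ⟨m, hm⟩ : ∃ m : Fin d → ℤ, m = fun l => ⌊⟪bs l, p g⟫ / a⌋ := ⟨_, rfl⟩
    obtain ⟨t, ht⟩ : ∃ t : Fin d → ℝ, t = fun l => Int.fract (⟪bs l, p g⟫ / a) := ⟨_, rfl⟩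
    have ht0 : ∀ l, 0 ≤ t l := fun l => by
      rw [ht]
      exact Int.fract_nonneg _
    have ht1 : ∀ l, t l ≤ 1 := fun l => by
      rw [ht]
      exact (Int.fract_lt_one _).le
    have hmt : ∀ l, ⟪bs l, p g⟫ = a * (m l + t l) := by
      intro l
      rw [hm, ht]
      simp only
      rw [Int.floor_add_fract]
      field_simp
    have hin : ∀ l, |⟪bs l, p g⟫| ≤ P0 := fun l => by
      have h1 := abs_real_inner_le_norm (bs l) (p g)
      rw [bs.orthonormal.1 l, one_mul] at h1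
      exact h1.trans (hPD g hg)
    have hma : ∀ l, a * |(m l : ℝ)| ≤ P0 + 1 := by
      intro l
      have h1 : a * (m l : ℝ) = ⟪bs l, p g⟫ - a * t l := by
        rw [hmt]
        ring
      have h2 : a * |(m l : ℝ)| = |a * (m l : ℝ)| := by rw [abs_mul, abs_of_pos ha0]
      rw [h2, h1]
      have h3 := hin l
      have h4 : 0 ≤ a * t l := mul_nonneg ha0.le (ht0 l)
      have h5 : a * t l ≤ 1 := mul_le_one₀ ha1 (ht0 l) (ht1 l)
      rw [abs_le] at h3 ⊢
      constructor <;> linarith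
    obtain ⟨r, hr⟩ : ∃ r : V, r = ∑ l, (a * t l) • bs l := ⟨_, rfl⟩
    have hrn : ‖r‖ ≤ d * a := by
      rw [hr]
      refine (norm_lin bs _).trans ?_
      have h1 : ∀ l ∈ (Finset.univ : Finset (Fin d)), |a * t l| ≤ a := by
        intro l _
        rw [abs_of_nonneg (mul_nonneg ha0.le (ht0 l))]
        exact mul_le_of_le_one_right ha0.le (ht1 l)
      refine (Finset.sum_le_sum h1).trans ?_
      rw [Finset.sum_const, Finset.card_univ, Fintype.card_fin, nsmul_eq_mul]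
    have hrB : r ∈ B := by
      refine hBm _ (hrn.trans (le_trans ?_ hρd))
      exact mul_le_mul_of_nonneg_left (by linarith) hd0
    have hpg : p g = vk bs a m + r := by
      rw [hr]
      unfold vk
      rw [← Finset.sum_add_distrib]
      conv_lhs => rw [← bs.sum_repr' (p g)]
      refine Finset.sum_congr rfl fun l _ => ?_
      rw [← add_smul, hmt]
      congr 1
      ring
    have h1 := hshift g hgD m r (4 * κ') hma hrB hpg (hreg r (by linarith))
    have hpch : ∀ c, pch p (th c) g = conj (E.χ c m) * ch (∑ l, fr E c l * t l) := by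
      intro c
      rw [chi_eq, ← ch_add, ← Finset.sum_add_distrib, pch]
      congr 1
      rw [hth]
      simp only
      rw [sum_inner]
      refine Finset.sum_congr rfl fun l _ => ?_
      rw [real_inner_smul_left, hmt]
      field_simp
    have hdiff : ∀ c, ‖conj (E.χ c m) - pch p (th c) g‖ ^ 2
        ≤ d * ∑ l, ‖ch (fr E c l) - 1‖ ^ 2 := by
      intro c
      have h2 : ‖conj (E.χ c m) - pch p (th c) g‖ ≤ ∑ l, ‖ch (fr E c l) - 1‖ := by
        have h3 : conj (E.χ c m) - pch p (th c) g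
            = -(conj (E.χ c m) * (ch (∑ l, fr E c l * t l) - 1)) := by
          rw [hpch]
          ring
        rw [h3, norm_neg, norm_mul, RCLike.norm_conj, E.unit, one_mul]
        refine (norm_ch_sum_sub_one_le _ _).trans (Finset.sum_le_sum fun l _ => ?_)
        exact norm_ch_mul_sub_one_le (fr_le E c l) (ht0 l) (ht1 l)
      refine (pow_le_pow_left₀ (norm_nonneg _) h2 2).trans ?_
      have h3 := sq_sum_le_card_mul_sum_sq (s := (Finset.univ : Finset (Fin d)))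
        (f := fun l => ‖ch (fr E c l) - 1‖)
      rw [Finset.card_univ, Fintype.card_fin] at h3
      exact h3
    have h2 : ∀ c j, ‖T.ι (S.α g (X c j) - pch p (th c) g • X c j)‖ ^ 2
        ≤ 2 * ‖T.ι (S.α g (X c j) - conj (E.χ c m) • X c j)‖ ^ 2
          + 2 * d * ∑ l, ‖ch (fr E c l) - 1‖ ^ 2 * ‖T.ι (X c j)‖ ^ 2 := by
      intro c j
      have h3 : S.α g (X c j) - pch p (th c) g • X c j
          = (S.α g (X c j) - conj (E.χ c m) • X c j)
            + (conj (E.χ c m) - pch p (th c) g) • X c j := by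
        rw [sub_smul]
        abel
      rw [h3]
      refine (nsq_add _ _).trans ?_
      rw [T.norm_smul_sq]
      have h4 := mul_le_mul_of_nonneg_right (hdiff c) (sq_nonneg ‖T.ι (X c j)‖)
      have h5 : 2 * (d : ℝ) * ∑ l, ‖ch (fr E c l) - 1‖ ^ 2 * ‖T.ι (X c j)‖ ^ 2
          = 2 * (d * (∑ l, ‖ch (fr E c l) - 1‖ ^ 2) * ‖T.ι (X c j)‖ ^ 2) := by
        rw [← Finset.sum_mul]
        ring
      rw [h5]
      linarith
    refine (Finset.sum_le_sum fun j _ => Finset.sum_le_sum fun c _ => h2 c j).trans ?_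
    simp only [Finset.sum_add_distrib, ← Finset.mul_sum]
    have h3 : ∑ j, ∑ c, ∑ l, ‖ch (fr E c l) - 1‖ ^ 2 * ‖T.ι (X c j)‖ ^ 2
        = ∑ l, ∑ j, ∑ c, ‖ch (fr E c l) - 1‖ ^ 2 * ‖T.ι (X c j)‖ ^ 2 := by
      rw [Finset.sum_congr rfl (fun j _ => Finset.sum_comm), Finset.sum_comm]
    rw [h3]
    have h4 : ∑ l, ∑ j, ∑ c, ‖ch (fr E c l) - 1‖ ^ 2 * ‖T.ι (X c j)‖ ^ 2
        ≤ d * (28 * κ' + 4 * (C / L)) := by
      refine (Finset.sum_le_sum fun l _ => hfreq l).trans ?_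
      rw [Finset.sum_const, Finset.card_univ, Fintype.card_fin, nsmul_eq_mul]
    have h5 : (∑ l, |(m l : ℝ)|) / L * C ≤ κ / 16 := by
      have h6 : a * ∑ l, |(m l : ℝ)| ≤ d * (P0 + 1) := by
        rw [Finset.mul_sum]
        refine (Finset.sum_le_sum fun l _ => hma l).trans ?_
        rw [Finset.sum_const, Finset.card_univ, Fintype.card_fin, nsmul_eq_mul]
      have h7 : (∑ l, |(m l : ℝ)|) / L = (a * ∑ l, |(m l : ℝ)|) / W := by
        rw [← haL]
        field_simp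
      rw [h7, div_mul_eq_mul_div, div_le_iff₀ (by linarith)]
      have h8 : a * (∑ l, |(m l : ℝ)|) * C ≤ d * (P0 + 1) * C :=
        mul_le_mul_of_nonneg_right h6 hC0
      have h9 : 0 ≤ (P0 + 1) * C := mul_nonneg (by linarith) hC0
      nlinarith
    have h6 : ((d : ℝ) + 1) ^ 2 * (C / L) ≤ κ / 32 := by
      rw [← mul_div_assoc, div_le_iff₀ hLr]
      linarith
    have h7 : 0 ≤ C / L := by positivity
    have h8 : (d : ℝ) * (d * (28 * κ' + 4 * (C / L)))
        ≤ ((d : ℝ) + 1) ^ 2 * (28 * κ' + 4 * (C / L)) := by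
      have h9 : 0 ≤ 28 * κ' + 4 * (C / L) := by positivity
      have h10 : (d : ℝ) * d ≤ ((d : ℝ) + 1) ^ 2 := by nlinarith
      calc (d : ℝ) * (d * (28 * κ' + 4 * (C / L))) = (d : ℝ) * d * (28 * κ' + 4 * (C / L)) := by
            ring
        _ ≤ ((d : ℝ) + 1) ^ 2 * (28 * κ' + 4 * (C / L)) := mul_le_mul_of_nonneg_right h10 h9
    have h9 : 2 * (d : ℝ) * ∑ l, ∑ j, ∑ c, ‖ch (fr E c l) - 1‖ ^ 2 * ‖T.ι (X c j)‖ ^ 2
        ≤ 2 * (((d : ℝ) + 1) ^ 2 * (28 * κ' + 4 * (C / L))) := by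
      have h10 := mul_le_mul_of_nonneg_left h4 hd0
      linarith
    have h10 : 2 * ((∑ l, |(m l : ℝ)|) / L) * C = 2 * ((∑ l, |(m l : ℝ)|) / L * C) := by ring
    rw [h10] at h1
    have h11 : ((d : ℝ) + 1) ^ 2 * (28 * κ' + 4 * (C / L))
        = 28 * (((d : ℝ) + 1) ^ 2 * κ') + 4 * (((d : ℝ) + 1) ^ 2 * (C / L)) := by ring
    have h12 : 200 * (((d : ℝ) + 1) ^ 2 * κ') = κ := by rw [← hκκ]; ring
    rw [h11] at h9
    linarith
  -- the corner
  have hcorner : ∀ c j, b * X c j = X c j ∧ X c j * b = X c j := by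
    intro c j
    have e1 : ∀ g, b * S.α g (y j) = S.α g (y j) := fun g => by
      have h1 := congrArg (S.α g) (hby j)
      rwa [map_mul, hb g] at h1
    have e2 : ∀ g, S.α g (y j) * b = S.α g (y j) := fun g => by
      have h1 := congrArg (S.α g) (hyb j)
      rwa [map_mul, hb g] at h1
    rw [hX]
    constructor
    · show b * XX S L E q (y j) c = XX S L E q (y j) c
      unfold XX
      rw [E.mul_X]
      refine E.X_congr (fun k _ => ?_) c
      rw [mul_cut]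
      unfold cut
      split_ifs
      · show (sc d L : ℂ) • (b * S.α (q k) (y j)) = _
        rw [e1]
      · rfl
    · show XX S L E q (y j) c * b = XX S L E q (y j) c
      unfold XX
      rw [E.X_mul]
      refine E.X_congr (fun k _ => ?_) c
      rw [cut_mul]
      unfold cut
      split_ifs
      · show (sc d L : ℂ) • (S.α (q k) (y j) * b) = _
        rw [e2]
      · rfl
  refine ⟨E.C × J, inferInstance, fun x => X x.1 x.2, fun x => th x.1,
    ⟨fun x => (hcorner _ _).1, fun x => (hcorner _ _).2, fun _ => Set.mem_univ _, ⟨?_, ?_⟩, ?_⟩,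
    ?_, ?_⟩
  · intro z'
    rw [Fintype.sum_prod_type_right]
    have h1 : ∀ j, ∑ c, ‖T.ι (X c j * z')‖ ^ 2
        = (sc d L) ^ 2 * ∑ k ∈ box d L, ‖T.ι (S.α (q k) (y j) * z')‖ ^ 2 := by
      intro j
      rw [hX]
      exact XX_mul S E q hbF (y j) z'
    rw [Finset.sum_congr rfl (fun j _ => h1 j), ← Finset.mul_sum, Finset.sum_comm]
    exact avg_le hL0 fun k _ => (S.dm_act hdm (q k)).1 z'
  · intro z'
    rw [Fintype.sum_prod_type_right]
    have h1 : ∀ j, ∑ c, ‖T.ι (z' * X c j)‖ ^ 2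
        = (sc d L) ^ 2 * ∑ k ∈ box d L, ‖T.ι (z' * S.α (q k) (y j))‖ ^ 2 := by
      intro j
      rw [hX]
      exact mul_XX S E q hbF (y j) z'
    rw [Finset.sum_congr rfl (fun j _ => h1 j), ← Finset.mul_sum, Finset.sum_comm]
    exact avg_le hL0 fun k _ => (S.dm_act hdm (q k)).2 z'
  · intro g hg
    rw [Fintype.sum_prod_type_right]
    exact hne g hg
  · unfold TrAlg.ms at hXmass ⊢
    rw [Fintype.sum_prod_type_right]
    exact hXmass
  · intro g hg ζ hζ
    rw [Fintype.sum_prod_type_right]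
    have h1 := hzeta g (by rw [hD0]; exact Or.inl hg) ζ
    constructor
    · exact h1.1.trans (by linarith)
    · exact h1.2.trans (by linarith)

end Pool.Agent.AbCoc
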