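import Pool.Agent.Lib_MP_418a80_t3.Flat1

/-!
# One-sided flattening: the exhaustion
-/

set_option autoImplicit false
set_option linter.unusedVariables false
set_option linter.unusedSectionVars false

open Topology Filter MeasureTheory

namespace Pool.Agent.AbCoc

universe u v w z

attribute [local instance] CStarAlgebra.spectralOrder CStarAlgebra.spectralOrderedRing

section
variable {A : Type u} [CStarAlgebra A] {K : Type v} [NormedAddCommGroup K]
  [InnerProductSpace ℂ K] [CompleteSpace K]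
  {G : Type w} [Group G] [TopologicalSpace G] {T : TrAlg A K} {Q : Type z}
  {S : TrAct G T} {chi : Q → G → ℂ} {B : Set Q} {b : A}

theorem mul_eq_of_le_mul {b w R : A} {k : ℝ} (hb : star b = b) (h0 : 0 ≤ w)
    (h : w ≤ k • R) (hbR : b * R = R) : b * w = w ∧ w * b = w := by
  have hq : star (1 - b) = 1 - b := by rw [star_sub, star_one, hb]
  have h1 : (1 - b) * w * (1 - b) ≤ 0 := by
    have h2 := star_left_conjugate_le_conjugate h (1 - b)
    rw [hq] at h2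
    refine h2.trans (le_of_eq ?_)
    have : (1 - b) * (k • R) = 0 := by rw [mul_smul_comm, sub_mul, one_mul, hbR, sub_self, smul_zero]
    rw [this, zero_mul]
  obtain ⟨s, rfl⟩ := CStarAlgebra.nonneg_iff_eq_star_mul_self.1 h0
  have h2 : star (s * (1 - b)) * (s * (1 - b)) = 0 := by
    refine le_antisymm ?_ (star_mul_self_nonneg _)
    rw [star_mul, hq]
    refine le_trans (le_of_eq ?_) h1
    noncomm_ring
  have h3 : s * (1 - b) = 0 := CStarRing.star_mul_self_eq_zero_iff _ |>.1 h2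
  have h4 : s * b = s := by
    rw [mul_sub, mul_one, sub_eq_zero] at h3
    exact h3.symm
  have h5 : b * star s = star s := by
    have := congrArg star h4
    rwa [star_mul, hb] at this
  exact ⟨by rw [← mul_assoc, h5], by rw [mul_assoc, h4]⟩

theorem alg_smul_conj (g : A) (c : ℝ) : g * algebraMap ℝ A c * g = c • (g * g) := by
  rw [Algebra.algebraMap_eq_smul_one, mul_smul_comm, smul_mul_assoc, mul_one]

theorem sum_conj_le {J : Type} [Fintype J] (y : J → A) {R : A} {r : ℝ}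
    (hR : R ≤ algebraMap ℝ A r) : ∑ j, y j * R * star (y j) ≤ r • ll y := by
  unfold ll
  rw [Finset.smul_sum]
  refine Finset.sum_le_sum fun j _ => ?_
  have h1 := star_right_conjugate_le_conjugate hR (y j)
  refine h1.trans (le_of_eq ?_)
  rw [Algebra.algebraMap_eq_smul_one, mul_smul_comm, smul_mul_assoc, mul_one]

theorem sum_conj_le' {J : Type} [Fintype J] (y : J → A) {R : A} {r : ℝ}
    (hR : R ≤ algebraMap ℝ A r) : ∑ j, star (y j) * R * y j ≤ r • rr y := by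
  have h := sum_conj_le (fun j => star (y j)) hR
  rw [ll_star] at h
  simpa only [star_star] using h

/-- a nonzero attained pair below a given pair with nonzero product -/
theorem TrAct.exists_att_below (hχ : ∀ q g, ‖chi q g‖ = 1) (hb : S.IsPrj b)
    (h : S.HLabA chi B b) {u u' : A} (hu : 0 ≤ u) (hu' : 0 ≤ u') (hfu : S.Fixed u)
    (hfu' : S.Fixed u') (hbu : b * u = u) (hbu' : b * u' = u') (hR : 0 < (T.τ (u' * u)).re) :
    ∃ w v : A, S.Fixed w ∧ S.Fixed v ∧ 0 ≤ w ∧ 0 ≤ v ∧ w ≤ u ∧ v ≤ u' ∧ 0 < (T.τ w).re ∧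
      S.Att chi B b w v := by
  obtain ⟨g, hgf, hg0, hgs, hgg⟩ := S.exists_sqrt hu hfu
  obtain ⟨f, hff, hf0, hfs, hfff⟩ := S.exists_sqrt hu' hfu'
  obtain ⟨hbg, hgb⟩ := mul_eq_of_sq hb.star_eq hgs (by rw [hgg]; exact hbu)
  obtain ⟨hbf, hfb⟩ := mul_eq_of_sq hb.star_eq hfs (by rw [hfff]; exact hbu')
  obtain ⟨R, hRdef⟩ : ∃ R : A, R = g * u' * g := ⟨_, rfl⟩
  have hR0 : 0 ≤ R := by
    rw [hRdef]
    have := star_left_conjugate_nonneg hu' g
    rwa [hgs] at this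
  have hRτ : T.τ R = T.τ (u' * u) := by
    rw [hRdef, mul_assoc, T.τ_mul_comm, mul_assoc, hgg]
  have hRne : R ≠ 0 := by
    intro h0
    rw [← hRτ, h0] at hR
    unfold TrAlg.τ at hR
    rw [map_zero, inner_zero_right] at hR
    simp at hR
  have hRf : S.Fixed R := by
    rw [hRdef]
    exact TrAct.Fixed.mul S (TrAct.Fixed.mul S hgf hfu') hgf
  have hbR : b * R = R := by rw [hRdef, ← mul_assoc, ← mul_assoc, hbg]
  obtain ⟨p, k, hp, hp0, hk, hpR⟩ := S.exists_prj hR0 hRne hRf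
  have hp00 : 0 ≤ p := by
    have := star_mul_self_nonneg p
    rwa [hp.star_eq, hp.mul_self] at this
  obtain ⟨hbp, hpb⟩ := mul_eq_of_le_mul hb.star_eq hp00 hpR hbR
  obtain ⟨C, c, hc, hfam⟩ := h p hp hp0 hbp
  have hC : 0 ≤ C := by
    obtain ⟨J, hJ, y, r, hy, hm⟩ := hfam ∅ isCompact_empty 1 one_pos
    exact hy.dm.nonneg
  obtain ⟨M, hM⟩ : ∃ M : ℝ, M = ‖R‖ * C + ‖u‖ * C * ‖u‖ + 1 := ⟨_, rfl⟩
  have hM0 : 0 < M := by rw [hM]; positivity
  have hM1 : ‖R‖ * C ≤ M := by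
    have : 0 ≤ ‖u‖ * C * ‖u‖ := by positivity
    rw [hM]; linarith
  have hM2 : ‖u‖ * C * ‖u‖ ≤ M := by
    have : 0 ≤ ‖R‖ * C := by positivity
    rw [hM]; linarith
  obtain ⟨t, ht⟩ : ∃ t : ℝ, t = √(1 / M) := ⟨_, rfl⟩
  have ht2 : t ^ 2 = 1 / M := by rw [ht]; exact Real.sq_sqrt (by positivity)
  have hu'n : 0 < ‖u'‖ := by
    rw [norm_pos_iff]
    intro h0
    apply hRne
    rw [hRdef, h0, mul_zero, zero_mul]
  have hRu : R ≤ ‖u'‖ • u := by
    have h1 := star_left_conjugate_le_conjugate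
      (IsSelfAdjoint.of_nonneg hu').le_algebraMap_norm_self g
    rw [hgs, alg_smul_conj, hgg] at h1
    rwa [hRdef]
  obtain ⟨C1, hC1⟩ : ∃ C1 : ℝ, C1 = t ^ 2 * (‖g‖ ^ 2 * ‖g * f‖ ^ 2 * C) := ⟨_, rfl⟩
  obtain ⟨c1, hc1⟩ : ∃ c1 : ℝ, c1 = t ^ 2 * (c / (‖u'‖ * k ^ 2)) := ⟨_, rfl⟩
  have hc10 : 0 < c1 := by rw [hc1, ht2]; positivity
  have key : ∀ D : Set G, IsCompact D → ∀ κ : ℝ, 0 < κ →
      ∃ (J : Type) (_ : Fintype J) (y : J → A) (r : J → Q), S.IsLab chi B b D κ C1 y r ∧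
        ll y ≤ u ∧ rr y ≤ u' ∧ c1 ≤ T.ms y := by
    intro D hD κ hκ
    obtain ⟨N, hN⟩ : ∃ N : ℝ, N = t ^ 2 * (‖g‖ ^ 2 * ‖g * f‖ ^ 2) := ⟨_, rfl⟩
    have hN0 : 0 ≤ N := by rw [hN]; positivity
    obtain ⟨J, hJ, y, r, hy, hm⟩ := hfam D hD (κ / (N + 1)) (by positivity)
    have hy1 := ((hy.mono_corner hbp hpb).conj (p := g) (p' := g * f) hgf
      (TrAct.Fixed.mul S hgf hff) hbg (by rw [mul_assoc, hfb])).smulR t
    -- the left marginal
    have hll : ll (fun j => g * y j * (g * f)) = g * (∑ j, y j * R * star (y j)) * g := by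
      unfold ll
      rw [Finset.mul_sum, Finset.sum_mul]
      refine Finset.sum_congr rfl fun j _ => ?_
      rw [star_mul, star_mul, star_mul, hgs, hfs, hRdef, ← hfff]
      noncomm_ring
    have hrr : rr (fun j => g * y j * (g * f)) = f * (g * (∑ j, star (y j) * u * y j) * g) * f := by
      unfold rr
      rw [Finset.mul_sum, Finset.sum_mul, Finset.mul_sum, Finset.sum_mul]
      refine Finset.sum_congr rfl fun j _ => ?_
      rw [star_mul, star_mul, star_mul, hgs, hfs, ← hgg]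
      noncomm_ring
    have hY1 : ∑ j, y j * R * star (y j) ≤ algebraMap ℝ A (‖R‖ * C) := by
      refine (sum_conj_le y (IsSelfAdjoint.of_nonneg hR0).le_algebraMap_norm_self).trans ?_
      have h1 := smul_le_smul_of_nonneg_left (T.ll_le y C hy.dm.2) (norm_nonneg R)
      refine h1.trans (le_of_eq ?_)
      rw [Algebra.algebraMap_eq_smul_one, Algebra.algebraMap_eq_smul_one, smul_smul]
    have hY2 : ∑ j, star (y j) * u * y j ≤ algebraMap ℝ A (‖u‖ * C) := by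
      refine (sum_conj_le' y (IsSelfAdjoint.of_nonneg hu).le_algebraMap_norm_self).trans ?_
      have h1 := smul_le_smul_of_nonneg_left (T.rr_le y C hy.dm.1) (norm_nonneg u)
      refine h1.trans (le_of_eq ?_)
      rw [Algebra.algebraMap_eq_smul_one, Algebra.algebraMap_eq_smul_one, smul_smul]
    have hll2 : ll (fun j => g * y j * (g * f)) ≤ M • u := by
      rw [hll]
      have h1 := star_left_conjugate_le_conjugate hY1 g
      rw [hgs, alg_smul_conj, hgg] at h1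
      exact h1.trans (smul_le_smul_of_nonneg_right hM1 hu)
    have hrr2 : rr (fun j => g * y j * (g * f)) ≤ M • u' := by
      rw [hrr]
      have h1 := star_left_conjugate_le_conjugate hY2 g
      rw [hgs, alg_smul_conj, hgg] at h1
      have h2 : (‖u‖ * C) • u ≤ algebraMap ℝ A (‖u‖ * C * ‖u‖) := by
        have h3 := smul_le_smul_of_nonneg_left
          (IsSelfAdjoint.of_nonneg hu).le_algebraMap_norm_self (show 0 ≤ ‖u‖ * C by positivity)
        refine h3.trans (le_of_eq ?_)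
        rw [Algebra.algebraMap_eq_smul_one, Algebra.algebraMap_eq_smul_one, smul_smul]
      have h3 := star_left_conjugate_le_conjugate (h1.trans h2) f
      rw [hfs, alg_smul_conj, hfff] at h3
      exact h3.trans (smul_le_smul_of_nonneg_right hM2 hu')
    -- the mass
    have hmass : c / (‖u'‖ * k ^ 2) ≤ T.ms (fun j => g * y j * (g * f)) := by
      have e0 : T.ms (fun j => g * y j * (g * f))
          = (T.τ (u * ∑ j, y j * R * star (y j))).re := by
        have e1 := T.τ_ll (fun j => g * y j * (g * f))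
        unfold TrAlg.ms
        rw [← e1, hll, T.τ_mul_comm, ← mul_assoc, hgg]
      have hY0 : 0 ≤ ∑ j, y j * R * star (y j) :=
        Finset.sum_nonneg fun j _ => star_right_conjugate_nonneg hR0 _
      have h1 := T.re_τ_mul_mono hRu hY0
      have h2 := T.re_τ_mul_mono hpR hY0
      have h3 := T.re_τ_mul_mono hpR (rr_nonneg y)
      have hsm : ∀ (s : ℝ) (x x' : A), (T.τ ((s • x) * x')).re = s * (T.τ (x * x')).re := by
        intro s x x'
        rw [smul_mul_assoc, ← Complex.coe_smul, T.τ_smul, Complex.re_ofReal_mul]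
      rw [hsm] at h1 h2 h3
      have e2 : T.τ (p * ∑ j, y j * R * star (y j)) = T.τ (R * rr y) := by
        unfold rr
        rw [Finset.mul_sum, Finset.mul_sum, T.τ_sum_lab, T.τ_sum_lab]
        refine Finset.sum_congr rfl fun j _ => ?_
        rw [← mul_assoc, ← mul_assoc, hy.lft, mul_assoc (y j), T.τ_mul_comm, mul_assoc]
      have e3 : T.τ (p * rr y) = T.τ (rr y) := by
        congr 1
        unfold rr
        rw [Finset.mul_sum]
        refine Finset.sum_congr rfl fun j _ => ?_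
        have := congrArg star (hy.rgt j)
        rw [star_mul, hp.star_eq] at this
        rw [← mul_assoc, this]
      have e4 : (T.τ (rr y)).re = T.ms y := T.τ_rr y
      rw [e2] at h2
      rw [e3, e4] at h3
      rw [e0, div_le_iff₀ (by positivity)]
      have h4 : k * (T.τ (R * rr y)).re ≤ k * (k * (T.τ (R * ∑ j, y j * R * star (y j))).re) :=
        mul_le_mul_of_nonneg_left h2 hk.le
      have h5 : k * (k * (T.τ (R * ∑ j, y j * R * star (y j))).re)
          ≤ k * (k * (‖u'‖ * (T.τ (u * ∑ j, y j * R * star (y j))).re)) :=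
        mul_le_mul_of_nonneg_left (mul_le_mul_of_nonneg_left h1 hk.le) hk.le
      nlinarith
    have hNκ : t ^ 2 * (‖g‖ ^ 2 * ‖g * f‖ ^ 2 * (κ / (N + 1))) ≤ κ := by
      have e : t ^ 2 * (‖g‖ ^ 2 * ‖g * f‖ ^ 2 * (κ / (N + 1))) = N * (κ / (N + 1)) := by
        rw [hN]; ring
      rw [e, ← mul_div_assoc, div_le_iff₀ (by positivity)]
      nlinarith
    refine ⟨J, hJ, _, r, hy1.mono subset_rfl subset_rfl hNκ (by rw [hC1]), ?_, ?_, ?_⟩
    · rw [ll_smul, Complex.coe_smul]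
      refine (smul_le_smul_of_nonneg_left hll2 (sq_nonneg t)).trans (le_of_eq ?_)
      rw [smul_smul, ht2, one_div, inv_mul_cancel₀ hM0.ne', one_smul]
    · rw [rr_smul, Complex.coe_smul]
      refine (smul_le_smul_of_nonneg_left hrr2 (sq_nonneg t)).trans (le_of_eq ?_)
      rw [smul_smul, ht2, one_div, inv_mul_cancel₀ hM0.ne', one_smul]
    · rw [T.ms_smulR, hc1]
      exact mul_le_mul_of_nonneg_left hmass (sq_nonneg t)
  obtain ⟨w, v, hw, hv, hw0, hv0, hwu, hvu, hcw, hatt⟩ :=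
    S.exists_att chi hχ B b hb.star_eq C1 c1 u u' key
  exact ⟨w, v, hw, hv, hw0, hv0, hwu, hvu, hc10.trans_le hcw, hatt⟩

/-- the exhaustion -/
theorem TrAct.exists_att_flat (hχ : ∀ q g, ‖chi q g‖ = 1) (hb : S.IsPrj b)
    (h : S.HLabA chi B b) {η : ℝ} (hη : 0 < η) :
    ∃ w v : A, S.Fixed w ∧ S.Fixed v ∧ 0 ≤ w ∧ w ≤ b ∧ 0 ≤ v ∧ v ≤ (2 / η) • b ∧
      (T.τ b).re - (T.τ w).re ≤ η ∧ S.Att chi B b w v := by
  by_contra hno
  push Not at hno
  have hb00 : 0 ≤ b := by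
    have := star_mul_self_nonneg b
    rwa [hb.star_eq, hb.mul_self] at this
  have hCb : 0 ≤ (2 / η) • b := smul_nonneg (by positivity) hb00
  have hbτ : (T.τ b).re ≤ 1 := by
    have h1 : T.τ b = T.τ (star b * b) := by rw [hb.star_eq, hb.mul_self]
    rw [h1, ← T.norm_sq]
    have h2 : ‖b‖ ≤ 1 := by
      have h3 : ‖b‖ * ‖b‖ = ‖b‖ := by
        have := CStarRing.norm_star_mul_self (x := b)
        rw [hb.star_eq, hb.mul_self] at this
        exact this.symm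
      nlinarith [norm_nonneg b, sq_nonneg (‖b‖ - 1)]
    have h3 := (T.norm_le b).trans h2
    nlinarith [norm_nonneg (T.ι b)]
  obtain ⟨X, hX⟩ : ∃ X : Set (A × A), ∀ x, x ∈ X ↔ (S.Fixed x.1 ∧ S.Fixed x.2 ∧ 0 ≤ x.1 ∧ x.1 ≤ b ∧
    0 ≤ x.2 ∧ x.2 ≤ (2 / η) • b ∧ S.Att chi B b x.1 x.2) :=
    ⟨{x | S.Fixed x.1 ∧ S.Fixed x.2 ∧ 0 ≤ x.1 ∧ x.1 ≤ b ∧
      0 ≤ x.2 ∧ x.2 ≤ (2 / η) • b ∧ S.Att chi B b x.1 x.2}, fun _ => Iff.rfl⟩
  have h0X : ((0, 0) : A × A) ∈ X := by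
    rw [hX]
    exact ⟨TrAct.Fixed.zero S, TrAct.Fixed.zero S, le_rfl, hb00, le_rfl, hCb,
      TrAct.Att.zero S chi B b⟩
  obtain ⟨x, hxm, hxmax⟩ := exists_seq_almost_max (X := X)
    (fun x => (T.τ x.1.1).re) 1 (fun x => by
      have h1 := (hX x.1).1 x.2
      exact (T.re_τ_mono h1.2.2.2.1).trans hbτ) ⟨(0, 0), h0X⟩
  have hx : ∀ n, S.Fixed (x n).1.1 ∧ S.Fixed (x n).1.2 ∧ 0 ≤ (x n).1.1 ∧ (x n).1.1 ≤ b ∧
      0 ≤ (x n).1.2 ∧ (x n).1.2 ≤ (2 / η) • b ∧ S.Att chi B b (x n).1.1 (x n).1.2 := by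
    intro n
    exact (hX (x n).1).1 (x n).2
  have hm1 : Monotone fun n => (x n).1.1 := fun m n hmn => (hxm hmn).1
  have hm2 : Monotone fun n => (x n).1.2 := fun m n hmn => (hxm hmn).2
  obtain ⟨w, hwl, hwn, hwb⟩ := T.exists_mono_lim (fun n => (x n).1.1) hm1 (hx 0).2.2.1 b
    fun n => (hx n).2.2.2.1
  obtain ⟨v, hvl, hvn, hvb⟩ := T.exists_mono_lim (fun n => (x n).1.2) hm2 (hx 0).2.2.2.2.1
    ((2 / η) • b) fun n => (hx n).2.2.2.2.2.1
  have hwf : S.Fixed w := S.fixed_of_tendsto (fun n => (hx n).1) hwl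
  have hvf : S.Fixed v := S.fixed_of_tendsto (fun n => (hx n).2.1) hvl
  have hw0 : 0 ≤ w := (hx 0).2.2.1.trans (hwn 0)
  have hv0 : 0 ≤ v := (hx 0).2.2.2.2.1.trans (hvn 0)
  have hτlim : ∀ (f : ℕ → A) (a : A), Tendsto (fun n => T.ι (f n)) atTop (𝓝 (T.ι a)) →
      Tendsto (fun n => (T.τ (f n)).re) atTop (𝓝 (T.τ a).re) := by
    intro f a hf
    unfold TrAlg.τ
    exact (Complex.continuous_re.tendsto _).comp (tendsto_const_nhds.inner hf)
  have hτw : η ≤ (T.τ b).re - (T.τ w).re := by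
    have h1 := tendsto_const_nhds (x := (T.τ b).re) (f := (atTop : Filter ℕ))
    refine ge_of_tendsto' (h1.sub (hτlim _ _ hwl)) fun n => ?_
    obtain ⟨a1, a2, a3, a4, a5, a6, a7⟩ := hx n
    by_contra hc
    push Not at hc
    exact hno _ _ a1 a2 a3 a4 a5 a6 hc.le a7
  have hτv : (T.τ v).re ≤ 1 := by
    refine le_of_tendsto' (hτlim _ _ hvl) fun n => ?_
    obtain ⟨a1, a2, a3, a4, a5, a6, a7⟩ := hx n
    rw [← a7.τ_eq]
    exact (T.re_τ_mono a4).trans hbτ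
  -- the remainders
  have hwb' : w ≤ (1 : ℝ) • b := by rw [one_smul]; exact hwb
  obtain ⟨hbw, hwb2⟩ := mul_eq_of_le_prj hb.star_eq hb.mul_self hw0 hwb'
  obtain ⟨hbv, hvb2⟩ := mul_eq_of_le_prj hb.star_eq hb.mul_self hv0 hvb
  have hprod : 0 < (T.τ (((2 / η) • b - v) * (b - w))).re := by
    have e1 : ((2 / η) • b - v) * (b - w) = (2 / η) • (b - w) - v + v * w := by
      rw [sub_mul, smul_mul_assoc, mul_sub, mul_sub, hb.mul_self, hbw, hvb2]
      abel
    have h1 : 0 ≤ (T.τ (v * w)).re := by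
      have h2 := T.re_τ_mul_mono hv0 hw0
      rw [zero_mul] at h2
      unfold TrAlg.τ at h2
      rw [map_zero, inner_zero_right] at h2
      exact h2
    rw [e1, T.τ_add, T.τ_sub, Complex.add_re, Complex.sub_re, ← Complex.coe_smul, T.τ_smul,
      Complex.re_ofReal_mul, T.τ_sub, Complex.sub_re]
    have h2 : 2 ≤ 2 / η * ((T.τ b).re - (T.τ w).re) := by
      have h3 := mul_le_mul_of_nonneg_left hτw (show 0 ≤ 2 / η by positivity)
      rw [div_mul_cancel₀ _ hη.ne'] at h3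
      exact h3
    linarith
  obtain ⟨w', v', hw', hv', hw'0, hv'0, hw'u, hv'u, hτw', hatt'⟩ :=
    TrAct.exists_att_below (S := S) hχ hb h (u := b - w) (u' := (2 / η) • b - v)
      (sub_nonneg.2 hwb) (sub_nonneg.2 hvb) (TrAct.Fixed.sub S hb.fix hwf)
      (TrAct.Fixed.sub S (by
        intro g
        rw [← Complex.coe_smul, map_smul, hb.fix g]) hvf)
      (by rw [mul_sub, hb.mul_self, hbw])
      (by rw [mul_sub, mul_smul_comm, hb.mul_self, hbv]) hprod
  obtain ⟨n, hn⟩ := exists_nat_one_div_lt hτw'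
  obtain ⟨a1, a2, a3, a4, a5, a6, a7⟩ := hx (n + 1)
  have hyX : ((x (n + 1)).1.1 + w', (x (n + 1)).1.2 + v') ∈ X := by
    refine (hX _).2 ⟨TrAct.Fixed.add S a1 hw', TrAct.Fixed.add S a2 hv', add_nonneg a3 hw'0, ?_,
      add_nonneg a5 hv'0, ?_, a7.add hatt'⟩
    · have := add_le_add (hwn (n + 1)) hw'u
      rwa [add_sub_cancel] at this
    · have := add_le_add (hvn (n + 1)) hv'u
      rwa [add_sub_cancel] at this
  have h1 := hxmax n ⟨_, hyX⟩ ⟨by simpa using hw'0, by simpa using hv'0⟩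
  simp only at h1
  rw [T.τ_add, Complex.add_re] at h1
  linarith

/-- FLAT1: left version -/
theorem TrAct.flat_left (hχ : ∀ q g, ‖chi q g‖ = 1) (hb : S.IsPrj b)
    (h : S.HLabA chi B b) {η : ℝ} (hη : 0 < η) :
    ∃ w v : A, S.Fixed w ∧ S.Fixed v ∧ 0 ≤ w ∧ w ≤ b ∧ 0 ≤ v ∧ v ≤ (2 / η) • b ∧
      (T.τ b).re - (T.τ w).re ≤ η ∧
      ∃ C : ℝ, ∀ D : Set G, IsCompact D → ∀ κ : ℝ, 0 < κ →
        ∃ (J : Type) (_ : Fintype J) (y : J → A) (r : J → Q), S.IsLab chi B b D κ C y r ∧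
          ‖T.ι (ll y - w)‖ ≤ κ ∧ ‖T.ι (rr y - v)‖ ≤ κ := by
  obtain ⟨w, v, h1, h2, h3, h4, h5, h6, h7, h8⟩ := TrAct.exists_att_flat hχ hb h hη
  exact ⟨w, v, h1, h2, h3, h4, h5, h6, h7, h8.two_norm⟩

/-- FLAT1: right version -/
theorem TrAct.flat_right (hχ : ∀ q g, ‖chi q g‖ = 1) (hb : S.IsPrj b)
    (h : S.HLabA chi B b) {η : ℝ} (hη : 0 < η) :
    ∃ w v : A, S.Fixed w ∧ S.Fixed v ∧ 0 ≤ w ∧ w ≤ b ∧ 0 ≤ v ∧ v ≤ (2 / η) • b ∧
      (T.τ b).re - (T.τ w).re ≤ η ∧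
      ∃ C : ℝ, ∀ D : Set G, IsCompact D → ∀ κ : ℝ, 0 < κ →
        ∃ (J : Type) (_ : Fintype J) (y : J → A) (r : J → Q), S.IsLab chi B b D κ C y r ∧
          ‖T.ι (rr y - w)‖ ≤ κ ∧ ‖T.ι (ll y - v)‖ ≤ κ := by
  have hc1 : ∀ (q : Q) (g : G), ‖starRingEnd ℂ (chi q g)‖ = 1 := fun q g => by
    rw [RCLike.norm_conj, hχ]
  have hs : ∀ {chi' : Q → G → ℂ} {b' : A}, S.IsPrj b' → S.LabA chi' B b' →
      S.LabA (fun q g => starRingEnd ℂ (chi' q g)) B b' := by
    intro chi' b' hb' h'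
    obtain ⟨C, c, hc, hf⟩ := h'
    refine ⟨C, c, hc, fun D hD κ hκ => ?_⟩
    obtain ⟨J, hJ, y, r, hy, hm⟩ := hf D hD κ hκ
    exact ⟨J, hJ, _, r, hy.star hb'.star_eq, by rwa [TrAlg.ms_star]⟩
  obtain ⟨w, v, h1, h2, h3, h4, h5, h6, h7, C, h8⟩ :=
    TrAct.flat_left (S := S) (chi := fun q g => starRingEnd ℂ (chi q g)) (B := B) hc1 hb
      (fun b' hb' h0 hbb' => hs hb' (h b' hb' h0 hbb')) hη
  refine ⟨w, v, h1, h2, h3, h4, h5, h6, h7, C, fun D hD κ hκ => ?_⟩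
  obtain ⟨J, hJ, y, r, hy, a1, a2⟩ := h8 D hD κ hκ
  have hy' := hy.star hb.star_eq
  simp only [Complex.conj_conj] at hy'
  refine ⟨J, hJ, _, r, hy', ?_, ?_⟩
  · rw [rr_star]; exact a1
  · rw [ll_star]; exact a2

end

end Pool.Agent.AbCoc
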