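import Pool.Agent.Lib_MP_418a80_t3.CompDef
import Pool.Agent.Lib_MP_418a80_t3.Flat2

/-!
# MP_418a80_an, general `M`: the flattening in the form used in the composition
-/

set_option autoImplicit false
set_option linter.unusedVariables false
set_option linter.unusedSectionVars false

open MeasureTheory Topology Filter

namespace Pool.Agent.AbCoc

universe u v w z

attribute [local instance] CStarAlgebra.spectralOrder CStarAlgebra.spectralOrderedRing

variable {A : Type u} [CStarAlgebra A] {K : Type v} [NormedAddCommGroup K]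
  [InnerProductSpace ℂ K] [CompleteSpace K]
variable {G : Type w} [Group G] [TopologicalSpace G] {T : TrAlg A K} {Q : Type z}

theorem prj_le_one {b : A} (h1 : star b = b) (h2 : b * b = b) : b ≤ 1 := by
  rw [← sub_nonneg]
  have h3 : star (1 - b) * (1 - b) = 1 - b := by
    rw [star_sub, star_one, h1, mul_sub, mul_one, sub_mul, one_mul, h2, sub_self, sub_zero]
  rw [← h3]
  exact star_mul_self_nonneg _

theorem TrAlg.re_inner_le_of_le (T : TrAlg A K) {v : A} {c : ℝ} (h : v ≤ algebraMap ℝ A c)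
    (z : A) : (inner ℂ (T.ι z) (T.ι (v * z))).re ≤ c * ‖T.ι z‖ ^ 2 := by
  obtain ⟨s, hs⟩ := CStarAlgebra.nonneg_iff_eq_star_mul_self.1 (sub_nonneg.2 h)
  have h1 := TrAlg.norm_sq_mul (T := T) s z
  rw [← hs, sub_mul, map_sub, inner_sub_right, Complex.sub_re] at h1
  have h2 : (inner ℂ (T.ι z) (T.ι (algebraMap ℝ A c * z))).re = c * ‖T.ι z‖ ^ 2 := by
    have e : algebraMap ℝ A c * z = (c : ℂ) • z := by
      rw [← Algebra.smul_def]
      rfl
    rw [e, map_smul, inner_smul_right, Complex.re_ofReal_mul, inner_self_eq_norm_sq_to_K]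
    norm_cast
  rw [h2] at h1
  have h3 := sq_nonneg ‖T.ι (s * z)‖
  linarith

/-- the flattening as an input of the composition -/
theorem TrAct.flatIn_of_hlabA {S : TrAct G T} {chi : Q → G → ℂ} {L : Set Q} {b : A}
    (hχ : ∀ q g, ‖chi q g‖ = 1) (hb : S.IsPrj b) (h : S.HLabA chi L b) {η : ℝ} (hη : 0 < η) :
    S.FlatIn chi L b η (2 / η) := by
  obtain ⟨w, v, h1, h2, h3, h4, h5, h6, h7, C, h8⟩ := TrAct.flat_left hχ hb h hη
  have hb1 : b ≤ 1 := prj_le_one hb.star_eq hb.mul_self
  have hbw : 0 ≤ b - w := sub_nonneg.2 h4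
  have hP : PosE (b - w) := posE_iff_nonneg.2 hbw
  have hgg : star (csqrt (b - w)) * csqrt (b - w) = b - w := by
    rw [csqrt_star, csqrt_mul_self hP]
  refine ⟨max C 0, le_max_right _ _, fun D hD κ hκ => ?_⟩
  obtain ⟨J, hJ, y, r, hy, a1, a2⟩ := h8 D hD κ hκ
  refine ⟨J, hJ, y, r, hy.mono subset_rfl subset_rfl le_rfl (le_max_left _ _), ?_, ?_⟩
  · refine ⟨csqrt (b - w), ?_, ?_, ?_⟩
    · have g1 : ‖b - w‖ ≤ 1 := by
        refine norm_le_of_le_alg hbw ?_ zero_le_one
        rw [map_one]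
        exact (sub_le_self b h3).trans hb1
      have g2 : ‖csqrt (b - w)‖ * ‖csqrt (b - w)‖ ≤ 1 := by
        rw [← CStarRing.norm_star_mul_self, hgg]
        exact g1
      nlinarith [norm_nonneg (csqrt (b - w))]
    · rw [T.norm_sq, hgg]
      have : T.τ (b - w) = T.τ b - T.τ w := by
        unfold TrAlg.τ
        rw [map_sub, inner_sub_right]
      rw [this, Complex.sub_re]
      exact h7
    · rw [hgg, sub_sub_cancel]
      exact a1
  · refine ⟨v, fun z => ?_, a2⟩
    refine T.re_inner_le_of_le ?_ z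
    refine h6.trans ?_
    rw [Algebra.algebraMap_eq_smul_one]
    exact smul_le_smul_of_nonneg_left hb1 (by positivity)

/-- nonzero positive fixed elements have nonzero projection multiples -/
theorem TrAct.hasPrj (S : TrAct G T) : S.HasPrj := by
  intro t ht hp h0
  obtain ⟨p, c, k, h1, h2, h3, h4, h5, h6, h7, h8⟩ :=
    S.exists_prj_mul (posE_iff_nonneg.1 hp) h0 ht
  exact ⟨p, c, h1, h2, h5, h7, h8⟩

end Pool.Agent.AbCoc
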