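import Pool.Agent.Lib_MP_418a80_t3.Comp9
import Pool.Agent.Lib_MP_418a80_t3.FlatIn

/-!
# MP_418a80_an, general `M`: `StepATyp` from types in all corners and good elements `e`
-/

set_option autoImplicit false
set_option linter.unusedVariables false
set_option linter.unusedSectionVars false

open MeasureTheory Topology Filter
open scoped ENNReal NNReal ComplexConjugate RealInnerProductSpace

namespace Pool.Agent.AbCoc

universe u v w z

variable {A : Type u} [CStarAlgebra A] {K : Type v} [NormedAddCommGroup K]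
  [InnerProductSpace ℂ K] [CompleteSpace K]
variable {G : Type w} [Group G] [TopologicalSpace G] [IsTopologicalGroup G] [T2Space G]
  [SecondCountableTopology G] [LocallyCompactSpace G] {T : TrAlg A K} (S : TrAct G T)
variable {V : Type z} [NormedAddCommGroup V] [InnerProductSpace ℝ V]

private theorem c10_conj (p : G → V) (hpm : ∀ g h, p (g * h) = p g + p h) (j g : G) :
    p (j * g * j⁻¹) = p g := by
  have h1 := hpm 1 1
  rw [mul_one] at h1
  have h2 : p 1 = 0 := by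
    have := congrArg (fun x => x - p 1) h1
    simpa using this.symm
  have h3 := hpm j j⁻¹
  rw [mul_inv_cancel, h2] at h3
  rw [hpm, hpm, add_assoc, add_comm (p g), ← add_assoc, ← h3, zero_add]

/-- **Composition, first form.** `p : G → V` a continuous homomorphism, `s` a one-parameter group
with `⟪chi0, p (s t)⟫ = t`, and `⟪chi0, p g⟫ = 0` only for `p g = 0`. If all types `t • chi0` are
available in all corners, and there are good elements for `ker p`, then `StepATyp`. -/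
theorem TrAct.stepATyp_of_goodE (p : G → V) (hp : Continuous p)
    (hpm : ∀ g h, p (g * h) = p g + p h) (chi0 : V) (s : ℝ → G) (hs : Continuous s)
    (hsm : ∀ t u, s (t + u) = s t * s u) (hps : ∀ t, ⟪chi0, p (s t)⟫ = t)
    (hker : ∀ g, ⟪chi0, p g⟫ = 0 → p g = 0)
    (hlab : ∀ b : A, S.IsPrj b → b ≠ 0 → ∀ t ρ : ℝ, 0 < ρ →
      S.LabA (pch p) (Metric.ball (t • chi0) ρ) b)
    (hE : ∀ b1 b2 : A, S.IsPrj b1 → b1 ≠ 0 → S.IsPrj b2 → b2 ≠ 0 →
      S.GoodE (fun g => ⟪chi0, p g⟫) s b1 b2) : S.StepATyp := by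
  have hflat : ∀ b : A, S.IsPrj b → ∀ t ρ η : ℝ, 0 < ρ → 0 < η →
      S.FlatIn (pch p) (Metric.ball (t • chi0) ρ) b η (2 / η) := fun b hb t ρ η hρ hη =>
    TrAct.flatIn_of_hlabA (fun q g => norm_pch p q g) hb
      (fun b' hb' h0 _ => hlab b' hb' h0 t ρ hρ) hη
  exact S.stepATyp_of_precA p (c10_conj p hpm) S.hasPrj fun b1 b2 h1 h10 h2 h20 =>
    S.precA_of_goodE p hp hpm chi0 s hs hsm hps h1 h2 hker (hflat b1 h1) (hflat b2 h2)
      (hE b1 b2 h1 h10 h2 h20)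

/-- **Composition, first form, `V = ℝ`.** -/
theorem TrAct.stepATyp_of_rsec (R : RSec G)
    (hlab : ∀ b : A, S.IsPrj b → b ≠ 0 → ∀ t ρ : ℝ, 0 < ρ →
      S.LabA (pch R.p) (Metric.ball t ρ) b)
    (hE : ∀ b1 b2 : A, S.IsPrj b1 → b1 ≠ 0 → S.IsPrj b2 → b2 ≠ 0 → S.GoodE R.p R.s b1 b2) :
    S.StepATyp := by
  have h1 : ∀ x : ℝ, ⟪(1 : ℝ), x⟫ = x := fun x => by simp
  refine S.stepATyp_of_goodE R.p R.hp R.pmul (1 : ℝ) R.s R.hs R.smul
    (fun t => by rw [h1, R.ps]) (fun g hg => by rwa [h1] at hg)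
    (fun b hb h0 t ρ hρ => by
      have := hlab b hb h0 t ρ hρ
      rwa [smul_eq_mul, mul_one]) fun b1 b2 h1' h10 h2 h20 => ?_
  simp only [h1]
  exact hE b1 b2 h1' h10 h2 h20

/-- **Composition, second form.** `p : G → V` a continuous homomorphism onto the line of `r1 ⟂ chi0`,
`s` a one-parameter group with `⟪chi0, p (s t)⟫ = t`. If all types `t • chi0` are available in all
corners, and all types of `ker ⟪chi0, p ·⟫` given by `V` are available there for single elements, then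
`StepATyp`. -/
theorem TrAct.stepATyp_of_eigen (p : G → V) (hp : Continuous p)
    (hpm : ∀ g h, p (g * h) = p g + p h) (chi0 : V) (s : ℝ → G) (hs : Continuous s)
    (hsm : ∀ t u, s (t + u) = s t * s u) (hps : ∀ t, ⟪chi0, p (s t)⟫ = t)
    (r1 : V) (hr1 : ‖r1‖ = 1) (hr0 : ⟪chi0, r1⟫ = 0) (hsurj : ∀ t : ℝ, ∃ h : G, p h = t • r1)
    (hlab : ∀ b : A, S.IsPrj b → b ≠ 0 → ∀ t ρ : ℝ, 0 < ρ →
      S.LabA (pch p) (Metric.ball (t • chi0) ρ) b)
    (hE : ∀ b1 b2 : A, S.IsPrj b1 → b1 ≠ 0 → S.IsPrj b2 → b2 ≠ 0 →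
      ∃ c : ℝ, 0 < c ∧ ∀ (r0 : V) (D : Set G), IsCompact D → ∀ κ : ℝ, 0 < κ →
        ∃ e : A, b1 * e = e ∧ e * b2 = e ∧ ‖e‖ ≤ 1 ∧ c ≤ ‖T.ι e‖ ^ 2 ∧
          ∀ h ∈ D, ⟪chi0, p h⟫ = 0 → ‖T.ι (S.α h e - ch ⟪r0, p h⟫ • e)‖ ≤ κ) :
    S.StepATyp := by
  have hflat : ∀ b : A, S.IsPrj b → ∀ t ρ η : ℝ, 0 < ρ → 0 < η →
      S.FlatIn (pch p) (Metric.ball (t • chi0) ρ) b η (2 / η) := fun b hb t ρ η hρ hη =>
    TrAct.flatIn_of_hlabA (fun q g => norm_pch p q g) hb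
      (fun b' hb' h0 _ => hlab b' hb' h0 t ρ hρ) hη
  exact S.stepATyp_of_precA p (c10_conj p hpm) S.hasPrj fun b1 b2 h1 h10 h2 h20 =>
    S.precA_of_eigen p hp hpm chi0 s hs hsm hps h1 h2 r1 hr1 hr0 hsurj (hflat b1 h1) (hflat b2 h2)
      (hE b1 b2 h1 h10 h2 h20)

end Pool.Agent.AbCoc
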