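import Pool.Agent.Lib_MP_418a80_t3.Comp4

/-!
# MP_418a80_an, general `M`: the input of the composition
-/

set_option autoImplicit false
set_option linter.unusedVariables false
set_option linter.unusedSectionVars false

open MeasureTheory Topology Filter

namespace Pool.Agent.AbCoc

universe u v w z

variable {A : Type u} [CStarAlgebra A] {K : Type v} [NormedAddCommGroup K]
  [InnerProductSpace ℂ K] [CompleteSpace K]
variable {G : Type w} [Group G] [TopologicalSpace G] {T : TrAlg A K} (S : TrAct G T)

/-- flat families with labels in `L`: the left marginal is close to `b - g* g`, `|g|² ≤ η`, the right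
marginal is close to an element `≤ C'` -/
def TrAct.FlatIn {Q : Type z} (chi : Q → G → ℂ) (L : Set Q) (b : A) (η C' : ℝ) : Prop :=
  ∃ B' : ℝ, 0 ≤ B' ∧ ∀ D : Set G, IsCompact D → ∀ κ : ℝ, 0 < κ →
    ∃ (J : Type) (_ : Fintype J) (y : J → A) (r : J → Q),
      S.IsLab chi L b D κ B' y r ∧ T.LFl b η κ y ∧ T.RMar C' κ y

/-- every nonzero positive fixed element has a nonzero projection multiple -/
def TrAct.HasPrj : Prop :=
  ∀ t : A, S.Fixed t → PosE t → t ≠ 0 → ∃ q c : A, S.IsPrj q ∧ q ≠ 0 ∧ S.Fixed c ∧ q = t * c ∧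
    q = c * t

end Pool.Agent.AbCoc
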