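import Pool.Agent.Lib_MP_418a80_t3.Comp1
import Pool.Agent.Lib_MP_418a80_t3.Fam

/-!
# MP_418a80_an, general `M`: finite Fourier cells

`cell N M v i`, `i < N`, is the part of the finite sequence `v 0, .., v (N - 1)` of frequency
`(i - M) · 2π / N`; Plancherel.
-/

set_option autoImplicit false
set_option linter.unusedVariables false
set_option linter.unusedSectionVars false

open MeasureTheory Topology Filter
open scoped ENNReal NNReal ComplexConjugate

namespace Pool.Agent.AbCoc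

universe u v w z

/-! ### characters of `ℝ` -/

theorem ch_mul_neg (t : ℝ) : ch t * ch (-t) = 1 := by
  rw [← ch_add, add_neg_cancel, ch_zero]

theorem ch_neg_mul (t : ℝ) : ch (-t) * ch t = 1 := by
  rw [← ch_add, neg_add_cancel, ch_zero]

theorem ch_nat_mul (n : ℕ) (t : ℝ) : ch (n * t) = ch t ^ n := by
  unfold ch
  rw [← Complex.exp_nat_mul]
  congr 1
  push_cast
  ring

theorem ch_eq_one_iff (t : ℝ) : ch t = 1 ↔ ∃ n : ℤ, t = n * (2 * Real.pi) := by
  unfold ch
  rw [Complex.exp_eq_one_iff]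
  constructor
  · rintro ⟨n, hn⟩
    refine ⟨n, ?_⟩
    have h1 : (t : ℂ) * Complex.I = ((n * (2 * Real.pi) : ℝ) : ℂ) * Complex.I := by
      rw [hn]
      push_cast
      ring
    have h2 := mul_right_cancel₀ Complex.I_ne_zero h1
    exact_mod_cast h2
  · rintro ⟨n, rfl⟩
    refine ⟨n, ?_⟩
    push_cast
    ring

/-- `‖ch s - ch t‖ = 2 |sin ((s - t) / 2)|` -/
theorem norm_ch_sub (s t : ℝ) : ‖ch s - ch t‖ = 2 * |Real.sin ((s - t) / 2)| := by
  have e : ch s - ch t = ch ((s + t) / 2) * (ch ((s - t) / 2) - ch (-((s - t) / 2))) := by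
    rw [mul_sub, ← ch_add, ← ch_add]
    congr 2 <;> ring
  rw [e, norm_mul, norm_ch, one_mul]
  have e2 : ch ((s - t) / 2) - ch (-((s - t) / 2))
      = ((2 * Real.sin ((s - t) / 2) : ℝ) : ℂ) * Complex.I := by
    unfold ch
    rw [Complex.exp_mul_I, Complex.exp_mul_I]
    push_cast
    rw [Complex.cos_neg, Complex.sin_neg]
    ring
  rw [e2, norm_mul, Complex.norm_I, mul_one, Complex.norm_real, Real.norm_eq_abs, abs_mul,
    abs_of_nonneg (by norm_num : (0 : ℝ) ≤ 2)]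

theorem norm_ch_sub_le (s t : ℝ) : ‖ch s - ch t‖ ≤ |s - t| := by
  rw [norm_ch_sub]
  have h : |Real.sin ((s - t) / 2)| ≤ |(s - t) / 2| := Real.abs_sin_le_abs
  rw [abs_div, abs_of_pos (by norm_num : (0 : ℝ) < 2)] at h
  linarith

/-- for `|x| ≤ π` and `0 ≤ r ≤ 1`: `‖ch (r x) - 1‖ ≤ ‖ch x - 1‖` -/
theorem norm_ch_sub_one_mono {x r : ℝ} (hx : |x| ≤ Real.pi) (h0 : 0 ≤ r) (h1 : r ≤ 1) :
    ‖ch (r * x) - 1‖ ≤ ‖ch x - 1‖ := by
  rw [← ch_zero, norm_ch_sub, norm_ch_sub]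
  have key : ∀ y : ℝ, 0 ≤ y → y ≤ Real.pi → |Real.sin ((r * y - 0) / 2)| ≤ |Real.sin ((y - 0) / 2)| := by
    intro y hy hy2
    have a1 : 0 ≤ (r * y - 0) / 2 := by
      have := mul_nonneg h0 hy
      linarith
    have a2 : (r * y - 0) / 2 ≤ (y - 0) / 2 := by nlinarith
    have a3 : (y - 0) / 2 ≤ Real.pi / 2 := by linarith
    have s1 : 0 ≤ Real.sin ((r * y - 0) / 2) :=
      Real.sin_nonneg_of_nonneg_of_le_pi a1 (by linarith [Real.pi_pos])
    have s2 : 0 ≤ Real.sin ((y - 0) / 2) :=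
      Real.sin_nonneg_of_nonneg_of_le_pi (by linarith) (by linarith [Real.pi_pos])
    rw [abs_of_nonneg s1, abs_of_nonneg s2]
    exact Real.sin_le_sin_of_le_of_le_pi_div_two (by linarith [Real.pi_pos]) a3 a2
  rcases le_or_gt 0 x with h | h
  · rw [abs_of_nonneg h] at hx
    linarith [key x h hx]
  · rw [abs_of_neg h] at hx
    have := key (-x) (by linarith) hx
    have e1 : (r * -x - 0) / 2 = -((r * x - 0) / 2) := by ring
    have e2 : (-x - 0) / 2 = -((x - 0) / 2) := by ring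
    rw [e1, e2, Real.sin_neg, Real.sin_neg, abs_neg, abs_neg] at this
    linarith

/-! ### orthogonality -/

theorem cp_orth (N M : ℕ) (k k' : ℕ) (hk : k < N) (hk' : k' < N) :
    ∑ i ∈ Finset.range N, ch (2 * Real.pi / N * ((i : ℝ) - M) * ((k : ℝ) - k'))
      = if k = k' then (N : ℂ) else 0 := by
  have hN : 0 < N := by omega
  have hNr : (N : ℝ) ≠ 0 := by exact_mod_cast hN.ne'
  split_ifs with h
  · subst h
    simp [ch_zero]
  · set z : ℂ := ch (2 * Real.pi / N * ((k : ℝ) - k')) with hz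
    have e : ∀ i ∈ Finset.range N, ch (2 * Real.pi / N * ((i : ℝ) - M) * ((k : ℝ) - k'))
        = ch (-(2 * Real.pi / N * M * ((k : ℝ) - k'))) * z ^ i := by
      intro i _
      rw [hz, ← ch_nat_mul, ← ch_add]
      congr 1
      ring
    rw [Finset.sum_congr rfl e, ← Finset.mul_sum]
    have hzN : z ^ N = 1 := by
      rw [hz, ← ch_nat_mul, ch_eq_one_iff]
      refine ⟨(k : ℤ) - k', ?_⟩
      push_cast
      field_simp
    have hz1 : z ≠ 1 := by
      rw [hz, Ne, ch_eq_one_iff]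
      rintro ⟨n, hn⟩
      have h1 : ((k : ℝ) - k') = n * N := by
        have hpi := Real.pi_pos
        field_simp at hn
        nlinarith [hn]
      have h2 : (k : ℤ) - k' = n * N := by exact_mod_cast h1
      have h3 : n = 0 := by
        by_contra hn0
        have h4 : (N : ℤ) ≤ |n * N| := by
          rw [abs_mul, Nat.abs_cast]
          have : 1 ≤ |n| := Int.one_le_abs hn0
          nlinarith [this, (by exact_mod_cast hN : (0 : ℤ) < N)]
        rw [← h2] at h4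
        have h5 : |(k : ℤ) - k'| < N := by
          rw [abs_lt]
          omega
        omega
      rw [h3, zero_mul] at h2
      omega
    have h6 := mul_geom_sum z N
    rw [hzN, sub_self] at h6
    rcases mul_eq_zero.1 h6 with h7 | h7
    · exact absurd (sub_eq_zero.1 h7) hz1
    · rw [h7, mul_zero]

/-! ### cells -/

/-- the part of frequency `(i - M) · 2π / N` of the finite sequence `v 0, .., v (N - 1)` -/
noncomputable def cell {E : Type*} [AddCommGroup E] [Module ℂ E] (N M : ℕ) (v : ℕ → E) (i : ℕ) :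
    E :=
  (((Real.sqrt N)⁻¹ : ℝ) : ℂ) •
    ∑ k ∈ Finset.range N, ch (-(2 * Real.pi / N * ((i : ℝ) - M) * k)) • v k

theorem map_cell {E F : Type*} [AddCommGroup E] [Module ℂ E] [AddCommGroup F] [Module ℂ F]
    (N M : ℕ) (f : E →ₗ[ℂ] F) (v : ℕ → E) (i : ℕ) :
    f (cell N M v i) = cell N M (fun k => f (v k)) i := by
  unfold cell
  rw [map_smul, map_sum]
  simp only [map_smul]

theorem cell_sub {E : Type*} [AddCommGroup E] [Module ℂ E] (N M : ℕ) (v v' : ℕ → E) (i : ℕ) :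
    cell N M v i - cell N M v' i = cell N M (fun k => v k - v' k) i := by
  unfold cell
  rw [← smul_sub, ← Finset.sum_sub_distrib]
  simp only [smul_sub]

section hilb
variable {K : Type v} [NormedAddCommGroup K] [InnerProductSpace ℂ K]

/-- Plancherel -/
theorem cell_inner (N M : ℕ) (v v' : ℕ → K) :
    ∑ i ∈ Finset.range N, inner ℂ (cell N M v i) (cell N M v' i)
      = ∑ k ∈ Finset.range N, inner ℂ (v k) (v' k) := by
  rcases Nat.eq_zero_or_pos N with hN | hN
  · subst hN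
    simp
  have hNr : (0 : ℝ) < N := by exact_mod_cast hN
  have e : ∀ i, inner ℂ (cell N M v i) (cell N M v' i)
      = ((N : ℂ))⁻¹ * ∑ k ∈ Finset.range N, ∑ k' ∈ Finset.range N,
        ch (2 * Real.pi / N * ((i : ℝ) - M) * ((k : ℝ) - k')) * inner ℂ (v k) (v' k') := by
    intro i
    unfold cell
    rw [inner_smul_left, inner_smul_right, Complex.conj_ofReal, ← mul_assoc, sum_inner]
    congr 1
    · rw [← Complex.ofReal_mul, ← mul_inv, Real.mul_self_sqrt hNr.le]
      push_cast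
      rfl
    · refine Finset.sum_congr rfl fun k _ => ?_
      rw [inner_sum]
      refine Finset.sum_congr rfl fun k' _ => ?_
      rw [inner_smul_left, inner_smul_right, conj_ch, ← mul_assoc, ← ch_add]
      congr 2
      ring
  rw [Finset.sum_congr rfl fun i _ => e i, ← Finset.mul_sum, Finset.sum_comm]
  have e2 : ∀ k ∈ Finset.range N, ∑ i ∈ Finset.range N, ∑ k' ∈ Finset.range N,
      ch (2 * Real.pi / N * ((i : ℝ) - M) * ((k : ℝ) - k')) * inner ℂ (v k) (v' k')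
      = (N : ℂ) * inner ℂ (v k) (v' k) := by
    intro k hk
    rw [Finset.sum_comm]
    have e3 : ∀ k' ∈ Finset.range N, ∑ i ∈ Finset.range N,
        ch (2 * Real.pi / N * ((i : ℝ) - M) * ((k : ℝ) - k')) * inner ℂ (v k) (v' k')
        = if k = k' then (N : ℂ) * inner ℂ (v k) (v' k') else 0 := by
      intro k' hk'
      rw [← Finset.sum_mul, cp_orth N M k k' (Finset.mem_range.1 hk) (Finset.mem_range.1 hk')]
      split_ifs <;> simp
    rw [Finset.sum_congr rfl e3, Finset.sum_ite_eq, if_pos hk]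
  rw [Finset.sum_congr rfl e2, ← Finset.mul_sum, ← mul_assoc, inv_mul_cancel₀, one_mul]
  exact_mod_cast hN.ne'

theorem cell_norm_sq (N M : ℕ) (v : ℕ → K) :
    ∑ i ∈ Finset.range N, ‖cell N M v i‖ ^ 2 = ∑ k ∈ Finset.range N, ‖v k‖ ^ 2 := by
  have h := cell_inner N M v v
  simp only [inner_self_eq_norm_sq_to_K] at h
  exact_mod_cast h

end hilb

/-! ### the profile -/

theorem exists_profile (T0 m0 : ℕ) (hT : 1 ≤ T0) (hm : 1 ≤ m0) :
    ∃ f : ℤ → ℝ, (∀ k : ℤ, k ≤ m0 → f k = 0) ∧ (∀ k : ℤ, (m0 : ℤ) + 2 * (T0 * m0) ≤ k → f k = 0) ∧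
      ∑ k ∈ Finset.range (2 * (T0 * m0 + m0) + 1), f k ^ 2 = 1 ∧
      ∀ m : ℕ, m ≤ m0 →
        ∑ k ∈ Finset.range (2 * (T0 * m0 + m0) + 1), (f ((k : ℤ) - m) - f k) ^ 2
          ≤ 20 / (T0 : ℝ) ^ 2 := by
  obtain ⟨P, hP⟩ : ∃ P : ℕ, P = T0 * m0 := ⟨_, rfl⟩
  have hPm : m0 ≤ P := by
    rw [hP]
    exact Nat.le_mul_of_pos_left m0 (by omega)
  have hP1 : 1 ≤ P := hm.trans hPm
  have hPr : (1 : ℝ) ≤ P := by exact_mod_cast hP1
  have e0 : 2 * (T0 * m0 + m0) + 1 = 2 * (P + m0) + 1 := by rw [hP]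
  have e1 : (m0 : ℤ) + 2 * (T0 * m0) = m0 + 2 * P := by
    rw [hP]
    push_cast
    ring
  rw [e0, e1]
  obtain ⟨F, hF⟩ : ∃ F : ℤ → ℝ, ∀ k, F k = max 0 ((P : ℝ) - |(k : ℝ) - (m0 + P)|) :=
    ⟨_, fun _ => rfl⟩
  have hF0 : ∀ k, 0 ≤ F k := fun k => by rw [hF]; exact le_max_left _ _
  have hF1 : ∀ k : ℤ, k ≤ m0 → F k = 0 := by
    intro k hk
    rw [hF]
    refine max_eq_left ?_
    have h1 : (k : ℝ) ≤ m0 := by exact_mod_cast hk
    have h2 := neg_abs_le ((k : ℝ) - (m0 + P))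
    linarith
  have hF2 : ∀ k : ℤ, (m0 : ℤ) + 2 * P ≤ k → F k = 0 := by
    intro k hk
    rw [hF]
    refine max_eq_left ?_
    have h1 : (m0 : ℝ) + 2 * P ≤ k := by exact_mod_cast hk
    have h2 := le_abs_self ((k : ℝ) - (m0 + P))
    linarith
  have hFL : ∀ k k' : ℤ, |F k - F k'| ≤ |(k : ℝ) - k'| := by
    intro k k'
    rw [hF, hF]
    refine (abs_max_sub_max_le_max 0 _ 0 _).trans ?_
    rw [sub_zero, abs_zero]
    refine max_le (abs_nonneg _) ?_
    have e : (P : ℝ) - |(k : ℝ) - (m0 + P)| - (P - |(k' : ℝ) - (m0 + P)|)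
        = |(k' : ℝ) - (m0 + P)| - |(k : ℝ) - (m0 + P)| := by ring
    rw [e]
    refine (abs_abs_sub_abs_le _ _).trans (le_of_eq ?_)
    rw [abs_sub_comm]
    congr 1
    ring
  set N : ℕ := 2 * (P + m0) + 1 with hN
  set Z : ℝ := ∑ k ∈ Finset.range N, F k ^ 2 with hZ
  have hZl : (P : ℝ) ^ 3 / 4 ≤ Z := by
    set I : Finset ℕ := Finset.Icc (m0 + P - P / 2) (m0 + P + P / 2) with hI
    have hIc : P ≤ I.card := by
      rw [hI, Nat.card_Icc]
      omega
    have hIN : I ⊆ Finset.range N := by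
      intro k hk
      rw [hI, Finset.mem_Icc] at hk
      rw [Finset.mem_range]
      omega
    have hterm : ∀ k ∈ I, (P : ℝ) ^ 2 / 4 ≤ F k ^ 2 := by
      intro k hk
      rw [hI, Finset.mem_Icc] at hk
      have h1 : |(k : ℝ) - (m0 + P)| ≤ P / 2 := by
        have a1 : (k : ℤ) ≤ m0 + P + P / 2 := by omega
        have a2 : (m0 : ℤ) + P ≤ k + P / 2 := by omega
        have a3 : (((P / 2 : ℕ) : ℤ) : ℝ) ≤ P / 2 := by
          have := @Nat.cast_div_le ℝ _ _ _ P 2
          push_cast at this ⊢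
          exact this
        have a4 : (k : ℝ) ≤ m0 + P + (((P / 2 : ℕ) : ℤ) : ℝ) := by exact_mod_cast a1
        have a5 : (m0 : ℝ) + P ≤ k + (((P / 2 : ℕ) : ℤ) : ℝ) := by exact_mod_cast a2
        rw [abs_le]
        constructor <;> linarith
      have h2 : (P : ℝ) / 2 ≤ F k := by
        rw [hF]
        refine le_trans ?_ (le_max_right _ _)
        push_cast
        linarith
      nlinarith
    calc (P : ℝ) ^ 3 / 4 = P * ((P : ℝ) ^ 2 / 4) := by ring
      _ ≤ I.card * ((P : ℝ) ^ 2 / 4) :=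
          mul_le_mul_of_nonneg_right (by exact_mod_cast hIc) (by positivity)
      _ = ∑ k ∈ I, (P : ℝ) ^ 2 / 4 := by rw [Finset.sum_const, nsmul_eq_mul]
      _ ≤ ∑ k ∈ I, F k ^ 2 := Finset.sum_le_sum hterm
      _ ≤ Z := Finset.sum_le_sum_of_subset_of_nonneg hIN fun _ _ _ => by positivity
  have hZ0 : 0 < Z := lt_of_lt_of_le (by positivity) hZl
  have hs : Real.sqrt Z ^ 2 = Z := Real.sq_sqrt hZ0.le
  refine ⟨fun k => F k / Real.sqrt Z, fun k hk => ?_, fun k hk => ?_, ?_, fun m hmm => ?_⟩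
  · change F k / Real.sqrt Z = 0
    rw [hF1 k hk, zero_div]
  · change F k / Real.sqrt Z = 0
    rw [hF2 k hk, zero_div]
  · change ∑ k ∈ Finset.range N, (F k / Real.sqrt Z) ^ 2 = 1
    simp only [div_pow]
    rw [← Finset.sum_div, hs, ← hZ, div_self hZ0.ne']
  · change ∑ k ∈ Finset.range N, (F ((k : ℤ) - m) / Real.sqrt Z - F k / Real.sqrt Z) ^ 2
      ≤ 20 / (T0 : ℝ) ^ 2
    simp only [← sub_div, div_pow]
    rw [← Finset.sum_div, hs]
    have h1 : ∑ k ∈ Finset.range N, (F ((k : ℤ) - m) - F k) ^ 2 ≤ N * (m0 : ℝ) ^ 2 := by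
      calc ∑ k ∈ Finset.range N, (F ((k : ℤ) - m) - F k) ^ 2
          ≤ ∑ k ∈ Finset.range N, (m0 : ℝ) ^ 2 := by
            refine Finset.sum_le_sum fun k _ => ?_
            have h3 := hFL ((k : ℤ) - m) k
            have h4 : |(((k : ℤ) - m : ℤ) : ℝ) - ((k : ℤ) : ℝ)| = m := by
              push_cast
              rw [show (k : ℝ) - m - k = -(m : ℝ) by ring, abs_neg, Nat.abs_cast]
            rw [h4] at h3
            have h5 : (m : ℝ) ≤ m0 := by exact_mod_cast hmm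
            rw [← sq_abs]
            exact pow_le_pow_left₀ (abs_nonneg _) (h3.trans h5) 2
        _ = N * (m0 : ℝ) ^ 2 := by rw [Finset.sum_const, Finset.card_range, nsmul_eq_mul]
    have h2 : (N : ℝ) ≤ 5 * P := by
      have : N ≤ 5 * P := by omega
      exact_mod_cast this
    have hT0 : (0 : ℝ) < T0 := by exact_mod_cast (by omega : 0 < T0)
    have hm0 : (0 : ℝ) < m0 := by exact_mod_cast (by omega : 0 < m0)
    have hPe : (P : ℝ) = T0 * m0 := by rw [hP]; push_cast; ring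
    rw [div_le_div_iff₀ hZ0 (by positivity)]
    have h6 : (N : ℝ) * (m0 : ℝ) ^ 2 ≤ 5 * P * (m0 : ℝ) ^ 2 :=
      mul_le_mul_of_nonneg_right h2 (by positivity)
    have h7 : 5 * (P : ℝ) * (m0 : ℝ) ^ 2 * (T0 : ℝ) ^ 2 = 20 * ((P : ℝ) ^ 3 / 4) := by
      rw [hPe]
      ring
    calc (∑ k ∈ Finset.range N, (F ((k : ℤ) - m) - F k) ^ 2) * (T0 : ℝ) ^ 2
        ≤ (5 * P * (m0 : ℝ) ^ 2) * (T0 : ℝ) ^ 2 :=
          mul_le_mul_of_nonneg_right (h1.trans h6) (by positivity)
      _ = 20 * ((P : ℝ) ^ 3 / 4) := h7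
      _ ≤ 20 * Z := by linarith

theorem cell_shift {E : Type*} [AddCommGroup E] [Module ℂ E] (N M : ℕ) (f : ℤ → ℝ) (m : ℕ)
    (h0 : ∀ k : ℤ, k < 0 → f k = 0) (h1 : ∀ k : ℤ, (N : ℤ) ≤ k + m → f k = 0) (g : ℕ → E) (i : ℕ) :
    cell N M (fun k => ((f k : ℝ) : ℂ) • g (k + m)) i
      = ch (2 * Real.pi / N * ((i : ℝ) - M) * m) •
        cell N M (fun k => ((f ((k : ℤ) - m) : ℝ) : ℂ) • g k) i := by
  unfold cell
  rw [smul_comm (ch _)]
  congr 1
  rw [Finset.smul_sum]
  set H : ℕ → E := fun j => ch (2 * Real.pi / N * ((i : ℝ) - M) * m) •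
    ch (-(2 * Real.pi / N * ((i : ℝ) - M) * j)) • ((f ((j : ℤ) - m) : ℝ) : ℂ) • g j with hH
  have e1 : ∀ k ∈ Finset.range N, ch (-(2 * Real.pi / N * ((i : ℝ) - M) * k)) •
      ((f k : ℝ) : ℂ) • g (k + m) = H (k + m) := by
    intro k _
    rw [hH]
    simp only
    rw [← smul_assoc (ch _) (ch _), smul_eq_mul, ← ch_add]
    congr 2
    · push_cast
      ring
    · push_cast
      congr 2
      ring
  rw [Finset.sum_congr rfl e1]
  have e2 : ∑ k ∈ Finset.range N, H (k + m) = ∑ j ∈ Finset.Ico m (N + m), H j := by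
    rw [Finset.range_eq_Ico, Finset.sum_Ico_add']
    simp
  rw [e2]
  have hz1 : ∀ j : ℕ, j < m → H j = 0 := by
    intro j hj
    rw [hH]
    simp only
    rw [h0 _ (by omega)]
    simp
  have hz2 : ∀ j : ℕ, N ≤ j → H j = 0 := by
    intro j hj
    rw [hH]
    simp only
    rw [h1 _ (by omega)]
    simp
  have e3 : ∑ j ∈ Finset.Ico m (N + m), H j = ∑ j ∈ Finset.range (N + m), H j := by
    refine Finset.sum_subset (fun j hj => ?_) fun j hj hj' => hz1 j ?_
    · rw [Finset.mem_Ico] at hj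
      exact Finset.mem_range.2 hj.2
    · rw [Finset.mem_Ico, not_and] at hj'
      rw [Finset.mem_range] at hj
      by_contra hc
      exact hj' (by omega) hj
  have e4 : ∑ j ∈ Finset.range N, H j = ∑ j ∈ Finset.range (N + m), H j := by
    refine Finset.sum_subset (fun j hj => ?_) fun j hj hj' => hz2 j ?_
    · rw [Finset.mem_range] at hj ⊢
      omega
    · rw [Finset.mem_range] at hj'
      omega
  rw [e3, ← e4]

end Pool.Agent.AbCoc
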