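import Pool.Agent.Lib_MP_418a80_t3.Comp2

/-!
# MP_418a80_an, general `M`: the cells of one element under a one-parameter group
-/

set_option autoImplicit false
set_option linter.unusedVariables false
set_option linter.unusedSectionVars false

open MeasureTheory Topology Filter
open scoped ENNReal NNReal ComplexConjugate

namespace Pool.Agent.AbCoc

universe u v w z

variable {A : Type u} [CStarAlgebra A] {K : Type v} [NormedAddCommGroup K]
  [InnerProductSpace ℂ K]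
variable {G : Type w} [Group G] [TopologicalSpace G] {T : TrAlg A K} (S : TrAct G T)

private theorem c3_sq3 (a b c : ℝ) : (a + b + c) ^ 2 ≤ 3 * a ^ 2 + 3 * b ^ 2 + 3 * c ^ 2 := by
  nlinarith [sq_nonneg (a - b), sq_nonneg (b - c), sq_nonneg (a - c)]

private theorem c3_sq2 (a b : ℝ) : (a + b) ^ 2 ≤ 2 * a ^ 2 + 2 * b ^ 2 := by
  nlinarith [sq_nonneg (a - b)]

/-- the bound for one pair of times -/
private theorem c3_prec (s : ℝ → G) (hsm : ∀ t u, s (t + u) = s t * s u) (e : A) (he : ‖e‖ ≤ 1)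
    (T0 m0 : ℕ) (hT : 1 ≤ T0) (hm0 : 1 ≤ m0) (f : ℤ → ℝ) (hf0 : ∀ k : ℤ, k ≤ m0 → f k = 0)
    (hf1 : ∀ k : ℤ, (m0 : ℤ) + 2 * (T0 * m0) ≤ k → f k = 0)
    (hf2 : ∑ k ∈ Finset.range (2 * (T0 * m0 + m0) + 1), f k ^ 2 = 1)
    (hf3 : ∀ m : ℕ, m ≤ m0 → ∑ k ∈ Finset.range (2 * (T0 * m0 + m0) + 1),
      (f ((k : ℤ) - m) - f k) ^ 2 ≤ 20 / (T0 : ℝ) ^ 2) (η δ : ℝ) (hη : 0 < η)
    (hδ : ∀ r : ℝ, 0 ≤ r → r ≤ η → ‖T.ι (S.α (s r) e - e)‖ ^ 2 ≤ δ)
    (u : ℝ) (hu : 0 ≤ u) (hum : u ≤ m0 * η) :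
    ∑ i ∈ Finset.range (2 * (T0 * m0 + m0) + 1),
      ‖T.ι (S.α (s u) (cell (2 * (T0 * m0 + m0) + 1) (T0 * m0 + m0)
          (fun k : ℕ => ((f k : ℝ) : ℂ) • S.α (s (k * η)) e) i)
        - ch (2 * Real.pi / ((2 * (T0 * m0 + m0) + 1 : ℕ) * η) * ((i : ℝ) - (T0 * m0 + m0 : ℕ)) * u) •
        cell (2 * (T0 * m0 + m0) + 1) (T0 * m0 + m0)
          (fun k : ℕ => ((f k : ℝ) : ℂ) • S.α (s (k * η)) e) i)‖ ^ 2
      ≤ 9 * δ + 180 / (T0 : ℝ) ^ 2 := by
  set N : ℕ := 2 * (T0 * m0 + m0) + 1 with hN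
  set M : ℕ := T0 * m0 + m0 with hM
  set g : ℕ → A := fun k => S.α (s (k * η)) e with hg
  set E : ℕ → A := cell N M (fun k : ℕ => ((f k : ℝ) : ℂ) • g k) with hE
  set p : ℕ → ℝ := fun i => 2 * Real.pi / ((N : ℕ) * η) * ((i : ℝ) - (M : ℕ)) with hp
  have hNr : (0 : ℝ) < N := by
    have : 0 < N := by omega
    exact_mod_cast this
  have hgn : ∀ k, ‖T.ι (g k)‖ ≤ 1 := by
    intro k
    change ‖T.ι (S.α (s (k * η)) e)‖ ≤ 1
    rw [S.norm_map]
    exact (T.norm_le e).trans he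
  -- Plancherel for coefficients
  have hPl : ∀ c : ℕ → ℝ, ∑ i ∈ Finset.range N,
      ‖T.ι (cell N M (fun k : ℕ => ((c k : ℝ) : ℂ) • g k) i)‖ ^ 2
        ≤ ∑ k ∈ Finset.range N, c k ^ 2 := by
    intro c
    have e1 : ∀ i, T.ι (cell N M (fun k : ℕ => ((c k : ℝ) : ℂ) • g k) i)
        = cell N M (fun k : ℕ => T.ι (((c k : ℝ) : ℂ) • g k)) i := fun i =>
      map_cell N M T.ι.toLinearMap _ i
    simp only [e1]
    rw [cell_norm_sq]
    refine Finset.sum_le_sum fun k _ => ?_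
    rw [map_smul, norm_smul, Complex.norm_real, Real.norm_eq_abs, mul_pow, sq_abs]
    have h1 := pow_le_pow_left₀ (norm_nonneg _) (hgn k) 2
    rw [one_pow] at h1
    nlinarith [sq_nonneg (c k)]
  -- small times
  have hsmall : ∀ r : ℝ, 0 ≤ r → r ≤ η →
      ∑ i ∈ Finset.range N, ‖T.ι (S.α (s r) (E i) - E i)‖ ^ 2 ≤ δ := by
    intro r hr0 hr
    have e1 : ∀ i, T.ι (S.α (s r) (E i) - E i)
        = cell N M (fun k : ℕ => T.ι (S.α (s r) (((f k : ℝ) : ℂ) • g k)
          - ((f k : ℝ) : ℂ) • g k)) i := by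
      intro i
      exact map_cell N M (T.ι.toLinearMap ∘ₗ ((S.α (s r)).toAlgHom.toLinearMap
        - LinearMap.id)) (fun k : ℕ => ((f k : ℝ) : ℂ) • g k) i
    simp only [e1]
    rw [cell_norm_sq]
    calc ∑ k ∈ Finset.range N, ‖T.ι (S.α (s r) (((f k : ℝ) : ℂ) • g k)
          - ((f k : ℝ) : ℂ) • g k)‖ ^ 2
        ≤ ∑ k ∈ Finset.range N, f k ^ 2 * δ := by
          refine Finset.sum_le_sum fun k _ => ?_
          have e2 : S.α (s r) (((f k : ℝ) : ℂ) • g k) - ((f k : ℝ) : ℂ) • g k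
              = ((f k : ℝ) : ℂ) • S.α (s (k * η)) (S.α (s r) e - e) := by
            rw [map_smul, ← smul_sub, map_sub, ← S.mul, ← hsm, hg]
            simp only
            rw [← S.mul, ← hsm, add_comm]
          rw [e2, map_smul, norm_smul, Complex.norm_real, Real.norm_eq_abs, mul_pow, sq_abs,
            S.norm_map]
          exact mul_le_mul_of_nonneg_left (hδ r hr0 hr) (sq_nonneg _)
      _ = δ := by rw [← Finset.sum_mul, hf2, one_mul]
  -- multiples of the mesh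
  have hmult : ∀ m : ℕ, m ≤ m0 → ∑ i ∈ Finset.range N,
      ‖T.ι (S.α (s (m * η)) (E i) - ch (p i * (m * η)) • E i)‖ ^ 2 ≤ 20 / (T0 : ℝ) ^ 2 := by
    intro m hm
    have e1 : ∀ i, S.α (s (m * η)) (E i) - ch (p i * (m * η)) • E i
        = ch (p i * (m * η)) • cell N M (fun k : ℕ => ((f ((k : ℤ) - m) - f k : ℝ) : ℂ) • g k) i := by
      intro i
      have e2 : S.α (s (m * η)) (E i) = cell N M (fun k : ℕ => ((f k : ℝ) : ℂ) • g (k + m)) i := by
        have h1 := map_cell N M (S.α (s (m * η))).toAlgHom.toLinearMap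
          (fun k : ℕ => ((f k : ℝ) : ℂ) • g k) i
        have h2 : (fun k : ℕ => (S.α (s (m * η))).toAlgHom.toLinearMap (((f k : ℝ) : ℂ) • g k))
            = fun k : ℕ => ((f k : ℝ) : ℂ) • g (k + m) := by
          funext k
          change S.α (s (m * η)) (((f k : ℝ) : ℂ) • S.α (s (k * η)) e)
            = ((f k : ℝ) : ℂ) • S.α (s (((k + m : ℕ) : ℝ) * η)) e
          rw [map_smul, ← S.mul, ← hsm]
          congr 4
          push_cast
          ring
        rw [h2] at h1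
        exact h1
      have e3 := cell_shift N M f m (fun k hk => hf0 k (by omega)) (fun k hk => hf1 k (by
        have h5 : (N : ℤ) = 2 * (T0 * m0 + m0) + 1 := by rw [hN, hM]; push_cast; ring
        have h6 : (m : ℤ) ≤ m0 := by exact_mod_cast hm
        linarith)) g i
      have e4 : p i * (m * η) = 2 * Real.pi / N * ((i : ℝ) - M) * m := by
        rw [hp]
        simp only
        field_simp
      rw [e2, e3, e4]
      rw [hE, ← smul_sub, cell_sub]
      congr 2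
      funext k
      rw [← sub_smul]
      congr 1
      push_cast
      ring
    simp only [e1, map_smul, norm_smul, norm_ch, one_mul]
    exact (hPl _).trans (hf3 m hm)
  -- the phases
  have hphase : ∀ i ∈ Finset.range N, |p i * η| ≤ Real.pi := by
    intro i hi
    rw [Finset.mem_range] at hi
    have e1 : p i * η = 2 * Real.pi * ((i : ℝ) - M) / N := by
      rw [hp]
      simp only
      field_simp
    rw [e1, abs_div, Nat.abs_cast, div_le_iff₀ hNr, abs_mul, abs_of_pos (by positivity)]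
    have h1 : |(i : ℝ) - M| ≤ M := by
      have a1 : (i : ℝ) ≤ 2 * M := by
        have : i ≤ 2 * M := by omega
        exact_mod_cast this
      have a2 : (0 : ℝ) ≤ i := Nat.cast_nonneg _
      rw [abs_le]
      constructor <;> linarith
    have h2 : (2 : ℝ) * M ≤ N := by
      have : 2 * M ≤ N := by omega
      exact_mod_cast this
    have h3 : 2 * Real.pi * |(i : ℝ) - M| ≤ 2 * Real.pi * M :=
      mul_le_mul_of_nonneg_left h1 (by positivity)
    nlinarith [Real.pi_pos]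
  have hcs : ∑ i ∈ Finset.range N, ‖T.ι ((ch (p i * η) - 1) • E i)‖ ^ 2
      ≤ 40 / (T0 : ℝ) ^ 2 + 2 * δ := by
    have h1 := hmult 1 hm0
    have h2 := hsmall η hη.le le_rfl
    simp only [Nat.cast_one, one_mul] at h1
    have h3 : ∀ i, ‖T.ι ((ch (p i * η) - 1) • E i)‖ ^ 2
        ≤ 2 * ‖T.ι (S.α (s η) (E i) - ch (p i * η) • E i)‖ ^ 2
          + 2 * ‖T.ι (S.α (s η) (E i) - E i)‖ ^ 2 := by
      intro i
      have e1 : (ch (p i * η) - 1) • E i = -(S.α (s η) (E i) - ch (p i * η) • E i)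
          + (S.α (s η) (E i) - E i) := by
        rw [sub_smul, one_smul]
        abel
      have e2 : ‖T.ι ((ch (p i * η) - 1) • E i)‖
          ≤ ‖T.ι (S.α (s η) (E i) - ch (p i * η) • E i)‖ + ‖T.ι (S.α (s η) (E i) - E i)‖ := by
        conv_lhs => rw [e1, map_add, map_neg]
        refine (norm_add_le _ _).trans ?_
        rw [norm_neg]
      exact (pow_le_pow_left₀ (norm_nonneg _) e2 2).trans (c3_sq2 _ _)
    refine (Finset.sum_le_sum fun i _ => h3 i).trans ?_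
    rw [Finset.sum_add_distrib, ← Finset.mul_sum, ← Finset.mul_sum]
    have h4 : (40 : ℝ) / (T0 : ℝ) ^ 2 = 2 * (20 / (T0 : ℝ) ^ 2) := by ring
    rw [h4]
    linarith
  -- the decomposition
  set m : ℕ := ⌊u / η⌋₊ with hm
  have hmm : m ≤ m0 := by
    refine Nat.floor_le_of_le ?_
    rw [div_le_iff₀ hη]
    exact hum
  have hm1 : (m : ℝ) * η ≤ u := by
    have := Nat.floor_le (div_nonneg hu hη.le)
    rw [← hm] at this
    rwa [le_div_iff₀ hη] at this
  have hm2 : u < (m + 1) * η := by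
    have := Nat.lt_floor_add_one (u / η)
    rw [← hm] at this
    rwa [div_lt_iff₀ hη] at this
  obtain ⟨r, hr⟩ : ∃ r : ℝ, r = u - m * η := ⟨_, rfl⟩
  have hr0 : 0 ≤ r := by rw [hr]; linarith
  have hr1 : r ≤ η := by rw [hr]; linarith
  have hur : u = m * η + r := by rw [hr]; ring
  have ha := hsmall r hr0 hr1
  have hb := hmult m hmm
  have hc : ∑ i ∈ Finset.range N, ‖T.ι ((ch (p i * (m * η)) - ch (p i * u)) • E i)‖ ^ 2
      ≤ 40 / (T0 : ℝ) ^ 2 + 2 * δ := by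
    refine le_trans (Finset.sum_le_sum fun i hi => ?_) hcs
    rw [map_smul, map_smul, norm_smul, norm_smul]
    refine pow_le_pow_left₀ (by positivity) (mul_le_mul_of_nonneg_right ?_ (norm_nonneg _)) 2
    have e1 : ch (p i * (m * η)) - ch (p i * u) = -(ch (p i * (m * η)) * (ch (p i * r) - 1)) := by
      rw [hur, mul_add, ch_add]
      ring
    rw [e1, norm_neg, norm_mul, norm_ch, one_mul]
    have e2 : p i * r = (r / η) * (p i * η) := by field_simp
    rw [e2]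
    exact norm_ch_sub_one_mono (hphase i hi) (div_nonneg hr0 hη.le) ((div_le_one hη).2 hr1)
  have hterm : ∀ i, ‖T.ι (S.α (s u) (E i) - ch (p i * u) • E i)‖ ^ 2
      ≤ 3 * ‖T.ι (S.α (s r) (E i) - E i)‖ ^ 2
        + 3 * ‖T.ι (S.α (s (m * η)) (E i) - ch (p i * (m * η)) • E i)‖ ^ 2
        + 3 * ‖T.ι ((ch (p i * (m * η)) - ch (p i * u)) • E i)‖ ^ 2 := by
    intro i
    have e1 : S.α (s u) (E i) - ch (p i * u) • E i
        = S.α (s (m * η)) (S.α (s r) (E i) - E i)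
          + (S.α (s (m * η)) (E i) - ch (p i * (m * η)) • E i)
          + (ch (p i * (m * η)) - ch (p i * u)) • E i := by
      rw [map_sub, ← S.mul, ← hsm, ← hur, sub_smul]
      abel
    have e2 : ‖T.ι (S.α (s u) (E i) - ch (p i * u) • E i)‖
        ≤ ‖T.ι (S.α (s r) (E i) - E i)‖
          + ‖T.ι (S.α (s (m * η)) (E i) - ch (p i * (m * η)) • E i)‖
          + ‖T.ι ((ch (p i * (m * η)) - ch (p i * u)) • E i)‖ := by
      conv_lhs => rw [e1, map_add, map_add]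
      refine (norm_add₃_le).trans ?_
      rw [S.norm_map]
    exact (pow_le_pow_left₀ (norm_nonneg _) e2 2).trans (c3_sq3 _ _ _)
  refine (Finset.sum_le_sum fun i _ => hterm i).trans ?_
  rw [Finset.sum_add_distrib, Finset.sum_add_distrib, ← Finset.mul_sum, ← Finset.mul_sum,
    ← Finset.mul_sum]
  have h5 : (180 : ℝ) / (T0 : ℝ) ^ 2 = 3 * (20 / (T0 : ℝ) ^ 2) + 3 * (40 / (T0 : ℝ) ^ 2) := by ring
  rw [h5]
  linarith

/-- **Cells.** For a window `[-u0, u0]` and a precision `ε` there is a time `W` such that every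
contraction `e` has finitely many cells `E i`, `i < N`, of frequency `θ (i - M)` up to `ε`, with
Plancherel bounds over the times `0 ≤ t ≤ W`. -/
theorem TrAct.exists_cells_elt (s : ℝ → G) (hs : Continuous s) (hsm : ∀ t u, s (t + u) = s t * s u)
    (u0 ε : ℝ) (hε : 0 < ε) :
    ∃ W : ℝ, ∀ e : A, ‖e‖ ≤ 1 → ∃ (N M : ℕ) (θ : ℝ) (E : ℕ → A), 0 < N ∧
      (∀ Λ : A →ₗ[ℂ] A, ∀ κ : ℝ, (∀ t : ℝ, 0 ≤ t → t ≤ W → ‖T.ι (Λ (S.α (s t) e))‖ ^ 2 ≤ κ) →
        ∑ i ∈ Finset.range N, ‖T.ι (Λ (E i))‖ ^ 2 ≤ κ) ∧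
      ∑ i ∈ Finset.range N, ‖T.ι (E i)‖ ^ 2 = ‖T.ι e‖ ^ 2 ∧
      ∀ u : ℝ, |u| ≤ u0 → ∑ i ∈ Finset.range N,
        ‖T.ι (S.α (s u) (E i) - ch (θ * ((i : ℝ) - M) * u) • E i)‖ ^ 2 ≤ ε := by
  obtain ⟨T0, hT0⟩ := exists_nat_ge (max (360 / ε) 1)
  have hT1r : (1 : ℝ) ≤ T0 := (le_max_right _ _).trans hT0
  have hT1 : 1 ≤ T0 := by exact_mod_cast hT1r
  have hTε : 180 / (T0 : ℝ) ^ 2 ≤ ε / 2 := by
    have h1 : 360 / ε ≤ T0 := (le_max_left _ _).trans hT0
    rw [div_le_iff₀ hε] at h1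
    rw [div_le_iff₀ (by positivity)]
    nlinarith
  have hs0 : s 0 = 1 := by
    have := hsm 0 0
    rw [add_zero] at this
    exact (mul_eq_left.1 this.symm)
  refine ⟨2 * (T0 + 1) * (|u0| + 2), fun e he => ?_⟩
  -- the mesh
  obtain ⟨η, hη0, hη1, hη2⟩ : ∃ η : ℝ, 0 < η ∧ η ≤ 1 ∧
      ∀ r : ℝ, 0 ≤ r → r ≤ η → ‖T.ι (S.α (s r) e - e)‖ ^ 2 ≤ ε / 18 := by
    have hc : Continuous fun r : ℝ => ‖T.ι (S.α (s r) e - e)‖ ^ 2 := by
      simp only [map_sub]
      exact ((((S.cont e).comp hs).sub continuous_const).norm).pow 2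
    have h0 : ‖T.ι (S.α (s 0) e - e)‖ ^ 2 < ε / 18 := by
      rw [hs0, S.one, sub_self, map_zero, norm_zero]
      have : 0 < ε / 18 := by positivity
      simpa using this
    have h1 := (hc.tendsto 0).eventually (gt_mem_nhds h0)
    obtain ⟨δ, hδ, hδ2⟩ := Metric.eventually_nhds_iff.1 h1
    refine ⟨min (δ / 2) 1, by positivity, min_le_right _ _, fun r hr0 hr => ?_⟩
    refine (hδ2 ?_).le
    rw [Real.dist_eq, sub_zero, abs_of_nonneg hr0]
    have := hr.trans (min_le_left _ _)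
    linarith
  obtain ⟨m0, hm0⟩ : ∃ m0 : ℕ, m0 = ⌈|u0| / η⌉₊ + 1 := ⟨_, rfl⟩
  have hm1 : 1 ≤ m0 := by omega
  have hm2 : |u0| ≤ m0 * η := by
    have h1 := Nat.le_ceil (|u0| / η)
    rw [div_le_iff₀ hη0] at h1
    rw [hm0]
    push_cast
    nlinarith
  have hm3 : (m0 : ℝ) * η ≤ |u0| + 2 := by
    have h1 := Nat.ceil_lt_add_one (div_nonneg (abs_nonneg u0) hη0.le)
    have h2 : (m0 : ℝ) ≤ |u0| / η + 2 := by
      rw [hm0]
      push_cast
      linarith
    have h3 : (m0 : ℝ) * η ≤ (|u0| / η + 2) * η := mul_le_mul_of_nonneg_right h2 hη0.le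
    have h4 : (|u0| / η + 2) * η = |u0| + 2 * η := by field_simp
    linarith
  obtain ⟨f, hf0, hf1, hf2, hf3⟩ := exists_profile T0 m0 hT1 hm1
  set N : ℕ := 2 * (T0 * m0 + m0) + 1 with hN
  set M : ℕ := T0 * m0 + m0 with hM
  refine ⟨N, M, 2 * Real.pi / ((N : ℕ) * η), cell N M (fun k : ℕ => ((f k : ℝ) : ℂ) •
    S.α (s (k * η)) e), by omega, ?_, ?_, ?_⟩
  · intro Λ κ hκ
    have e1 : ∀ i, T.ι (Λ (cell N M (fun k : ℕ => ((f k : ℝ) : ℂ) • S.α (s (k * η)) e) i))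
        = cell N M (fun k : ℕ => T.ι (Λ (((f k : ℝ) : ℂ) • S.α (s (k * η)) e))) i := fun i =>
      map_cell N M (T.ι.toLinearMap ∘ₗ Λ) _ i
    simp only [e1]
    rw [cell_norm_sq]
    calc ∑ k ∈ Finset.range N, ‖T.ι (Λ (((f k : ℝ) : ℂ) • S.α (s (k * η)) e))‖ ^ 2
        ≤ ∑ k ∈ Finset.range N, f k ^ 2 * κ := by
          refine Finset.sum_le_sum fun k hk => ?_
          rw [map_smul, map_smul, norm_smul, Complex.norm_real, Real.norm_eq_abs, mul_pow, sq_abs]
          refine mul_le_mul_of_nonneg_left (hκ _ (by positivity) ?_) (sq_nonneg _)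
          have h1 : k ≤ 2 * (T0 * m0 + m0) := by
            have := Finset.mem_range.1 hk
            omega
          have h2 : (k : ℝ) ≤ 2 * (T0 * m0 + m0) := by exact_mod_cast h1
          calc (k : ℝ) * η ≤ 2 * (T0 * m0 + m0) * η := mul_le_mul_of_nonneg_right h2 hη0.le
            _ = 2 * (T0 + 1) * (m0 * η) := by ring
            _ ≤ 2 * (T0 + 1) * (|u0| + 2) := mul_le_mul_of_nonneg_left hm3 (by positivity)
      _ = κ := by rw [← Finset.sum_mul, hf2, one_mul]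
  · have e1 : ∀ i, T.ι (cell N M (fun k : ℕ => ((f k : ℝ) : ℂ) • S.α (s (k * η)) e) i)
        = cell N M (fun k : ℕ => T.ι (((f k : ℝ) : ℂ) • S.α (s (k * η)) e)) i := fun i =>
      map_cell N M T.ι.toLinearMap _ i
    simp only [e1]
    rw [cell_norm_sq]
    simp only [map_smul, norm_smul, Complex.norm_real, Real.norm_eq_abs, mul_pow, sq_abs,
      S.norm_map]
    rw [← Finset.sum_mul, hf2, one_mul]
  · intro u hu
    have hmain : ∀ v : ℝ, 0 ≤ v → v ≤ |u0| → _ := fun v hv0 hv =>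
      c3_prec S s hsm e he T0 m0 hT1 hm1 f hf0 hf1 hf2 hf3 η (ε / 18) hη0 hη2 v hv0 (hv.trans hm2)
    have hfin : 9 * (ε / 18) + 180 / (T0 : ℝ) ^ 2 ≤ ε := by linarith
    rcases le_total 0 u with h | h
    · rw [abs_of_nonneg h] at hu
      exact (hmain u h (hu.trans (le_abs_self _))).trans hfin
    · rw [abs_of_nonpos h] at hu
      refine le_trans (le_of_eq ?_) ((hmain (-u) (by linarith) (hu.trans (le_abs_self _))).trans hfin)
      refine Finset.sum_congr rfl fun i _ => ?_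
      congr 1
      set X : A := cell N M (fun k : ℕ => ((f k : ℝ) : ℂ) • S.α (s (k * η)) e) i with hX
      set c : ℝ := 2 * Real.pi / ((N : ℕ) * η) * ((i : ℝ) - (M : ℕ)) with hc
      change ‖T.ι (S.α (s u) X - ch (c * u) • X)‖ = ‖T.ι (S.α (s (-u)) X - ch (c * -u) • X)‖
      have e1 : S.α (s u) (S.α (s (-u)) X - ch (c * -u) • X)
          = -(ch (c * -u) • (S.α (s u) X - ch (c * u) • X)) := by
        rw [map_sub, ← S.mul, ← hsm, add_neg_cancel, hs0, S.one, map_smul, smul_sub, ← smul_assoc,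
          smul_eq_mul, ← ch_add]
        have : c * -u + c * u = 0 := by ring
        rw [this, ch_zero, one_smul]
        abel
      rw [← S.norm_map (s u) (S.α (s (-u)) X - ch (c * -u) • X), e1, map_neg, norm_neg, map_smul,
        norm_smul, norm_ch, one_mul]

end Pool.Agent.AbCoc
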