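import Pool.Agent.Lib_MP_418a80_t3.Comp3

/-!
# MP_418a80_an, general `M`: products `x'_{j'} X_i x_j` of families, sandwich inequalities

The right marginal of `x'` and the left marginal of `x` are, in the `2`-norm, close to elements
bounded by `1`; then the sums `∑ |x'_{j'} X_i x_j|²` behave as if these marginals were `1`.
-/

set_option autoImplicit false
set_option linter.unusedVariables false
set_option linter.unusedSectionVars false

open MeasureTheory Topology Filter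
open scoped ENNReal NNReal ComplexConjugate

namespace Pool.Agent.AbCoc

universe u v w z

section one
variable {A : Type u} [CStarAlgebra A] {K : Type v} [NormedAddCommGroup K]
  [InnerProductSpace ℂ K] (T : TrAlg A K)

/-- the right marginal `∑ y* y` is `κ`-close to an element `≤ C` -/
def TrAlg.RMar (C κ : ℝ) {J : Type} [Fintype J] (y : J → A) : Prop :=
  ∃ w : A, (∀ z : A, (inner ℂ (T.ι z) (T.ι (w * z))).re ≤ C * ‖T.ι z‖ ^ 2) ∧
    ‖T.ι (rr y - w)‖ ≤ κ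

/-- the left marginal `∑ y y*` is `κ`-close to an element `≤ C` -/
def TrAlg.LMar (C κ : ℝ) {J : Type} [Fintype J] (y : J → A) : Prop :=
  ∃ w : A, (∀ z : A, (inner ℂ (T.ι z) (T.ι (z * w))).re ≤ C * ‖T.ι z‖ ^ 2) ∧
    ‖T.ι (ll y - w)‖ ≤ κ

/-- the right marginal is `κ`-close to `b - g* g`, `|g|² ≤ η`, `‖g‖ ≤ 1` -/
def TrAlg.RFl (b : A) (η κ : ℝ) {J : Type} [Fintype J] (y : J → A) : Prop :=
  ∃ g : A, ‖g‖ ≤ 1 ∧ ‖T.ι g‖ ^ 2 ≤ η ∧ ‖T.ι (rr y - (b - star g * g))‖ ≤ κ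

/-- the left marginal is `κ`-close to `b - g* g`, `|g|² ≤ η`, `‖g‖ ≤ 1` -/
def TrAlg.LFl (b : A) (η κ : ℝ) {J : Type} [Fintype J] (y : J → A) : Prop :=
  ∃ g : A, ‖g‖ ≤ 1 ∧ ‖T.ι g‖ ^ 2 ≤ η ∧ ‖T.ι (ll y - (b - star g * g))‖ ≤ κ

variable {T}
variable {J : Type} [Fintype J] {J' : Type} [Fintype J']

theorem TrAlg.norm_sq_mul (a z : A) :
    ‖T.ι (a * z)‖ ^ 2 = (inner ℂ (T.ι z) (T.ι (star a * a * z))).re := by
  have h := T.left z (a * z) a
  rw [← mul_assoc] at h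
  rw [← h, inner_self_eq_norm_sq_to_K]
  norm_cast

theorem TrAlg.norm_sq_mul' (a z : A) :
    ‖T.ι (z * a)‖ ^ 2 = (inner ℂ (T.ι z) (T.ι (z * (a * star a)))).re := by
  have h := T.right z (z * a) a
  rw [mul_assoc] at h
  rw [← h, inner_self_eq_norm_sq_to_K]
  norm_cast

theorem TrAlg.sum_rr (y : J → A) (z : A) :
    ∑ i, ‖T.ι (y i * z)‖ ^ 2 = (inner ℂ (T.ι z) (T.ι (rr y * z))).re := by
  unfold rr
  rw [Finset.sum_mul, map_sum, inner_sum, Complex.re_sum]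
  exact Finset.sum_congr rfl fun i _ => T.norm_sq_mul _ _

theorem TrAlg.sum_ll (y : J → A) (z : A) :
    ∑ i, ‖T.ι (z * y i)‖ ^ 2 = (inner ℂ (T.ι z) (T.ι (z * ll y))).re := by
  unfold ll
  rw [Finset.mul_sum, map_sum, inner_sum, Complex.re_sum]
  exact Finset.sum_congr rfl fun i _ => T.norm_sq_mul' _ _

private theorem c4_cs (f g : J → ℝ) (B κ : ℝ) (hκ : 0 ≤ κ) (hf : ∑ j, f j ^ 2 ≤ B)
    (hg : ∑ j, g j ^ 2 ≤ B * κ ^ 2) : ∑ j, f j * g j ≤ κ * B := by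
  have hB : 0 ≤ B := le_trans (Finset.sum_nonneg fun j _ => sq_nonneg _) hf
  have h1 := Finset.sum_mul_sq_le_sq_mul_sq (Finset.univ : Finset J) f g
  have h2 : (∑ j, f j * g j) ^ 2 ≤ (κ * B) ^ 2 := by
    refine h1.trans ?_
    have h3 := mul_le_mul hf hg (Finset.sum_nonneg fun j _ => sq_nonneg _) hB
    nlinarith
  exact (abs_le_of_sq_le_sq' h2 (by positivity)).2

/-- perturbation on the left -/
theorem TrAlg.sum_pert (z : J → A) (d : A) (κ B : ℝ) (hd : ‖T.ι d‖ ≤ κ)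
    (hz : ∀ a : A, ∑ j, ‖T.ι (a * z j)‖ ^ 2 ≤ B * ‖T.ι a‖ ^ 2) :
    |∑ j, (inner ℂ (T.ι (z j)) (T.ι (d * z j))).re| ≤ κ * B := by
  have hκ : 0 ≤ κ := (norm_nonneg _).trans hd
  have h1 : ∑ j, ‖T.ι (z j)‖ ^ 2 ≤ B := by
    have := hz 1
    simp only [one_mul, T.norm_one, one_pow, mul_one] at this
    exact this
  have hB : 0 ≤ B := le_trans (Finset.sum_nonneg fun j _ => sq_nonneg _) h1
  have h2 : ∑ j, ‖T.ι (d * z j)‖ ^ 2 ≤ B * κ ^ 2 :=
    (hz d).trans (mul_le_mul_of_nonneg_left (pow_le_pow_left₀ (norm_nonneg _) hd 2) hB)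
  refine (Finset.abs_sum_le_sum_abs _ _).trans ?_
  refine le_trans (Finset.sum_le_sum fun j _ => ?_)
    (c4_cs (fun j => ‖T.ι (z j)‖) (fun j => ‖T.ι (d * z j)‖) B κ hκ h1 h2)
  exact (Complex.abs_re_le_norm _).trans (norm_inner_le_norm _ _)

/-- **(R)** -/
theorem TrAlg.RMar.sum_le {C κ : ℝ} {y : J' → A} (h : T.RMar C κ y) (z : J → A) (B : ℝ)
    (hz : ∀ a : A, ∑ j, ‖T.ι (a * z j)‖ ^ 2 ≤ B * ‖T.ι a‖ ^ 2) :
    ∑ i, ∑ j, ‖T.ι (y i * z j)‖ ^ 2 ≤ C * ∑ j, ‖T.ι (z j)‖ ^ 2 + κ * B := by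
  obtain ⟨w, hw, hκ⟩ := h
  rw [Finset.sum_comm]
  have e : ∀ j, ∑ i, ‖T.ι (y i * z j)‖ ^ 2 = (inner ℂ (T.ι (z j)) (T.ι (w * z j))).re
      + (inner ℂ (T.ι (z j)) (T.ι ((rr y - w) * z j))).re := by
    intro j
    rw [T.sum_rr, ← Complex.add_re, ← inner_add_right, ← map_add]
    congr 4
    rw [sub_mul]
    abel
  simp only [e]
  rw [Finset.sum_add_distrib, Finset.mul_sum]
  refine add_le_add (Finset.sum_le_sum fun j _ => hw _) ?_
  exact (le_abs_self _).trans (T.sum_pert z (rr y - w) κ B hκ hz)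

theorem TrAlg.LMar.star {C κ : ℝ} {y : J → A} (h : T.LMar C κ y) :
    T.RMar C κ (fun j => Star.star (y j)) := by
  obtain ⟨w, hw, hκ⟩ := h
  refine ⟨Star.star w, fun z => ?_, ?_⟩
  · have h1 := hw (Star.star z)
    rw [T.norm_star] at h1
    refine le_trans (le_of_eq ?_) h1
    have h2 := T.tr z (Star.star w * z)
    rw [star_mul, star_star] at h2
    rw [h2, ← inner_conj_symm, Complex.conj_re]
  · have e : rr (fun j => Star.star (y j)) - Star.star w = Star.star (ll y - w) := by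
      rw [star_sub]
      congr 1
      unfold rr ll
      rw [star_sum]
      refine Finset.sum_congr rfl fun j _ => ?_
      rw [star_star, star_mul, star_star]
    rw [e, T.norm_star]
    exact hκ

/-- **(L)** -/
theorem TrAlg.LMar.sum_le {C κ : ℝ} {y : J' → A} (h : T.LMar C κ y) (z : J → A) (B : ℝ)
    (hz : ∀ a : A, ∑ j, ‖T.ι (z j * a)‖ ^ 2 ≤ B * ‖T.ι a‖ ^ 2) :
    ∑ j, ∑ i, ‖T.ι (z j * y i)‖ ^ 2 ≤ C * ∑ j, ‖T.ι (z j)‖ ^ 2 + κ * B := by
  have h1 := h.star.sum_le (fun j => Star.star (z j)) B fun a => by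
    have h2 := hz (Star.star a)
    rw [T.norm_star] at h2
    refine le_trans (le_of_eq (Finset.sum_congr rfl fun j _ => ?_)) h2
    rw [← T.norm_star, star_mul, star_star]
  simp only [T.norm_star] at h1
  refine le_trans (le_of_eq ?_) h1
  rw [Finset.sum_comm]
  refine Finset.sum_congr rfl fun i _ => Finset.sum_congr rfl fun j _ => ?_
  rw [← T.norm_star, star_mul]

theorem TrAlg.RFl.mar {b : A} {η κ : ℝ} {y : J → A} (hb : Star.star b = b) (hbb : b * b = b)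
    (h : T.RFl b η κ y) : T.RMar 1 κ y := by
  obtain ⟨g, hg, hη, hκ⟩ := h
  refine ⟨_, fun z => ?_, hκ⟩
  have e1 := T.norm_sq_mul b z
  have e2 := T.norm_sq_mul g z
  rw [hb, hbb] at e1
  rw [sub_mul, map_sub, inner_sub_right, Complex.sub_re, ← e1, ← e2, one_mul]
  have hbn : ‖b‖ ≤ 1 := by
    have h1 : ‖b‖ * ‖b‖ = ‖b‖ := by
      rw [← CStarRing.norm_star_mul_self, hb, hbb]
    nlinarith [norm_nonneg b, sq_nonneg (‖b‖ - 1)]
  have h3 : ‖T.ι (b * z)‖ ≤ ‖T.ι z‖ := by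
    refine (T.mul_le b z).trans ?_
    nlinarith [norm_nonneg (T.ι z)]
  nlinarith [norm_nonneg (T.ι (b * z)), norm_nonneg (T.ι z), sq_nonneg ‖T.ι (g * z)‖]

theorem TrAlg.RFl.star {b : A} {η κ : ℝ} {y : J → A} (h : T.RFl b η κ y) :
    T.LFl b η κ (fun j => Star.star (y j)) := by
  obtain ⟨g, hg, hη, hκ⟩ := h
  refine ⟨g, hg, hη, ?_⟩
  have e : ll (fun j => Star.star (y j)) = rr y := by
    unfold ll rr
    simp only [star_star]
  rw [e]
  exact hκ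

theorem TrAlg.LFl.star {b : A} {η κ : ℝ} {y : J → A} (h : T.LFl b η κ y) :
    T.RFl b η κ (fun j => Star.star (y j)) := by
  obtain ⟨g, hg, hη, hκ⟩ := h
  refine ⟨g, hg, hη, ?_⟩
  have e : rr (fun j => Star.star (y j)) = ll y := by
    unfold ll rr
    simp only [star_star]
  rw [e]
  exact hκ

theorem TrAlg.LFl.mar {b : A} {η κ : ℝ} {y : J → A} (hb : Star.star b = b) (hbb : b * b = b)
    (h : T.LFl b η κ y) : T.LMar 1 κ y := by
  obtain ⟨g, hg, hη, hκ⟩ := h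
  refine ⟨_, fun z => ?_, hκ⟩
  have e1 := T.norm_sq_mul' b z
  have e2 := T.norm_sq_mul' (Star.star g) z
  rw [hb, hbb] at e1
  rw [star_star] at e2
  rw [mul_sub, map_sub, inner_sub_right, Complex.sub_re, ← e1, ← e2, one_mul]
  have hbn : ‖b‖ ≤ 1 := by
    have h1 : ‖b‖ * ‖b‖ = ‖b‖ := by
      rw [← CStarRing.norm_star_mul_self, hb, hbb]
    nlinarith [norm_nonneg b, sq_nonneg (‖b‖ - 1)]
  have h3 : ‖T.ι (z * b)‖ ≤ ‖T.ι z‖ := by
    refine (T.mul_le' z b).trans ?_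
    nlinarith [norm_nonneg (T.ι z)]
  nlinarith [norm_nonneg (T.ι (z * b)), norm_nonneg (T.ι z), sq_nonneg ‖T.ι (z * Star.star g)‖]

/-- the lower bound for one middle factor -/
theorem TrAlg.sandwich_lower' {b1 b2 : A} {η κ B : ℝ} {y : J' → A} {x : J → A} {g' g : A}
    (h1 : ‖g'‖ ≤ 1 ∧ ‖T.ι g'‖ ^ 2 ≤ η ∧ ‖T.ι (rr y - (b1 - Star.star g' * g'))‖ ≤ κ)
    (h2 : ‖g‖ ≤ 1 ∧ ‖T.ι g‖ ^ 2 ≤ η ∧ ‖T.ι (ll x - (b2 - Star.star g * g))‖ ≤ κ)
    (hb2 : Star.star b2 = b2) (hbb2 : b2 * b2 = b2)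
    (hx : ∀ a : A, ∑ j, ‖T.ι (a * x j)‖ ^ 2 ≤ B * ‖T.ι a‖ ^ 2) (X : A) (hX1 : b1 * X = X)
    (hX2 : X * b2 = X) :
    ‖T.ι X‖ ^ 2 - ‖T.ι (g' * X)‖ ^ 2 - ‖T.ι (X * Star.star g)‖ ^ 2 - κ * (‖X‖ ^ 2 * (B + 2))
        ≤ ∑ i, ∑ j, ‖T.ι (y i * (X * x j))‖ ^ 2 := by
  have hm : T.LMar 1 κ x := TrAlg.LFl.mar hb2 hbb2 ⟨g, h2⟩
  obtain ⟨hg', hη', hκ'⟩ := h1
  obtain ⟨hg, hη, hκ⟩ := h2
  rw [Finset.sum_comm]
  set w' : A := b1 - Star.star g' * g' with hw'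
  have e : ∀ j, ∑ i, ‖T.ι (y i * (X * x j))‖ ^ 2 = (‖T.ι (X * x j)‖ ^ 2
      - ‖T.ι (g' * (X * x j))‖ ^ 2)
      + (inner ℂ (T.ι (X * x j)) (T.ι ((rr y - w') * (X * x j)))).re := by
    intro j
    have e1 : rr y * (X * x j) = (X * x j - Star.star g' * g' * (X * x j))
        + (rr y - w') * (X * x j) := by
      rw [hw', sub_mul (rr y), sub_mul b1, ← mul_assoc b1, hX1]
      abel
    have e2 : (inner ℂ (T.ι (X * x j)) (T.ι (X * x j))).re = ‖T.ι (X * x j)‖ ^ 2 := by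
      rw [inner_self_eq_norm_sq_to_K]
      norm_cast
    rw [T.sum_rr, e1, map_add, inner_add_right, Complex.add_re, map_sub, inner_sub_right,
      Complex.sub_re, e2, ← T.norm_sq_mul]
  simp only [e]
  rw [Finset.sum_add_distrib, Finset.sum_sub_distrib]
  have hX : ∀ a : A, ‖T.ι (a * X)‖ ^ 2 ≤ ‖X‖ ^ 2 * ‖T.ι a‖ ^ 2 := by
    intro a
    have := pow_le_pow_left₀ (norm_nonneg _) (T.mul_le' a X) 2
    rw [mul_pow] at this
    linarith
  have p1 := T.sum_pert (fun j => X * x j) (rr y - w') κ (‖X‖ ^ 2 * B) hκ' (fun a => by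
    have h3 := hx (a * X)
    simp only [mul_assoc] at h3
    refine h3.trans ?_
    have hB : 0 ≤ B := by
      have h4 := hx 1
      simp only [T.norm_one, one_pow, mul_one] at h4
      exact le_trans (Finset.sum_nonneg fun j _ => sq_nonneg _) h4
    have := mul_le_mul_of_nonneg_left (hX a) hB
    linarith)
  have p2 : ∑ j, ‖T.ι (g' * (X * x j))‖ ^ 2 ≤ ‖T.ι (g' * X)‖ ^ 2 + κ * ‖X‖ ^ 2 := by
    have h3 := hm.sum_le (fun _ : Unit => g' * X) (‖X‖ ^ 2) (fun a => by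
      simp only [Finset.univ_unique, Finset.sum_const, Finset.card_singleton, one_smul]
      have h4 : ‖T.ι (g' * X * a)‖ ≤ ‖X‖ * ‖T.ι a‖ := by
        refine (T.mul_le _ _).trans (mul_le_mul_of_nonneg_right ?_ (norm_nonneg _))
        refine (norm_mul_le _ _).trans ?_
        nlinarith [norm_nonneg X]
      have := pow_le_pow_left₀ (norm_nonneg _) h4 2
      rwa [mul_pow] at this)
    simp only [Finset.univ_unique, Finset.sum_const, Finset.card_singleton, one_smul,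
      one_mul] at h3
    refine le_trans (le_of_eq (Finset.sum_congr rfl fun j _ => ?_)) h3
    rw [mul_assoc]
  have p3 : ‖T.ι X‖ ^ 2 - ‖T.ι (X * Star.star g)‖ ^ 2 - κ * ‖X‖ ^ 2 ≤ ∑ j, ‖T.ι (X * x j)‖ ^ 2 := by
    set w : A := b2 - Star.star g * g with hw
    rw [T.sum_ll]
    have e1 : X * ll x = (X - X * (Star.star g * g)) + X * (ll x - w) := by
      rw [hw, mul_sub X (ll x), mul_sub X b2, hX2]
      abel
    have e2 : (inner ℂ (T.ι X) (T.ι X)).re = ‖T.ι X‖ ^ 2 := by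
      rw [inner_self_eq_norm_sq_to_K]
      norm_cast
    have e3 := T.norm_sq_mul' (Star.star g) X
    rw [star_star] at e3
    rw [e1, map_add, inner_add_right, Complex.add_re, map_sub, inner_sub_right, Complex.sub_re,
      e2, ← e3]
    have h4 : |(inner ℂ (T.ι X) (T.ι (X * (ll x - w)))).re| ≤ κ * ‖X‖ ^ 2 := by
      refine (Complex.abs_re_le_norm _).trans ((norm_inner_le_norm _ _).trans ?_)
      have h5 := T.norm_le X
      have h6 := (T.mul_le X (ll x - w)).trans (mul_le_mul_of_nonneg_left hκ (norm_nonneg _))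
      calc ‖T.ι X‖ * ‖T.ι (X * (ll x - w))‖ ≤ ‖X‖ * (‖X‖ * κ) :=
            mul_le_mul h5 h6 (norm_nonneg _) (norm_nonneg _)
        _ = κ * ‖X‖ ^ 2 := by ring
    have := (abs_le.1 h4).1
    linarith
  have p1' := (abs_le.1 p1).1
  linarith

end one

end Pool.Agent.AbCoc
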