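import Pool.Agent.Lib_MP_418a80_t3.Comp4

/-!
# MP_418a80_an, general `M`: the composed families `x'_l E_i x_(i+l)`
-/

set_option autoImplicit false
set_option linter.unusedVariables false
set_option linter.unusedSectionVars false

open MeasureTheory Topology Filter
open scoped ENNReal NNReal ComplexConjugate

namespace Pool.Agent.AbCoc

universe u v w z

/-- the double sum over `l, i < N` with the shift `m = i + l` -/
theorem sum_shift_le (N : ℕ) (F : ℕ → ℕ → ℝ) (hF : ∀ i m, 0 ≤ F i m) :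
    ∑ l ∈ Finset.range N, ∑ i ∈ Finset.range N, F i (i + l)
      ≤ ∑ m ∈ Finset.range (2 * N), ∑ i ∈ Finset.range N, F i m := by
  rw [Finset.sum_comm, Finset.sum_comm (s := Finset.range (2 * N))]
  refine Finset.sum_le_sum fun i hi => ?_
  have hi' := Finset.mem_range.1 hi
  have e : ∑ l ∈ Finset.range N, F i (i + l)
      = ∑ m ∈ (Finset.range N).map (addLeftEmbedding i), F i m := by
    rw [Finset.sum_map]
    rfl
  rw [e]
  refine Finset.sum_le_sum_of_subset_of_nonneg ?_ fun m _ _ => hF i m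
  intro m hm
  rw [Finset.mem_map] at hm
  obtain ⟨l, hl, rfl⟩ := hm
  have hl' := Finset.mem_range.1 hl
  rw [Finset.mem_range]
  change i + l < 2 * N
  omega

section chain
variable {A : Type u} [CStarAlgebra A] {K : Type v} [NormedAddCommGroup K]
  [InnerProductSpace ℂ K] (T : TrAlg A K)

/-- the data of a composition -/
structure TrAlg.CompData (N : ℕ) (E : ℕ → A) (J' J : ℕ → Type) [∀ l, Fintype (J' l)]
    [∀ m, Fintype (J m)] (x' : ∀ l, J' l → A) (x : ∀ m, J m → A) (C κ B BE : ℝ) : Prop where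
  hκ : 0 ≤ κ
  hBE : 0 ≤ BE
  El : ∀ a : A, ∑ i ∈ Finset.range N, ‖T.ι (a * E i)‖ ^ 2 ≤ ‖T.ι a‖ ^ 2
  Er : ∀ a : A, ∑ i ∈ Finset.range N, ‖T.ι (E i * a)‖ ^ 2 ≤ ‖T.ι a‖ ^ 2
  En : ∀ i, i < N → ‖E i‖ ^ 2 ≤ BE
  r' : ∀ l, l < N → T.RMar 1 κ (x' l)
  l' : ∀ l, l < N → T.LMar C κ (x' l)
  d' : ∀ l, l < N → T.Dm B (x' l)
  lx : ∀ m, m < 2 * N → T.LMar 1 κ (x m)
  rx : ∀ m, m < 2 * N → T.RMar C κ (x m)
  dx : ∀ m, m < 2 * N → T.Dm B (x m)

variable {T}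
variable {N : ℕ} {E : ℕ → A} {J' J : ℕ → Type} [∀ l, Fintype (J' l)] [∀ m, Fintype (J m)]
  {x' : ∀ l, J' l → A} {x : ∀ m, J m → A} {C κ B BE : ℝ}

/-- chain to the right: `∑ |x'_l X_i z_(i+l)|² ≤ ∑ |z_m|²` up to an error -/
theorem TrAlg.CompData.chainR (h : T.CompData N E J' J x' x C κ B BE) {Jz : ℕ → Type}
    [∀ m, Fintype (Jz m)] (z : ∀ m, Jz m → A) (X : ℕ → A) (BX Bz : ℝ) (hBz : 0 ≤ Bz)
    (hXn : ∀ i, i < N → ‖X i‖ ^ 2 ≤ BX)
    (hX : ∀ a : A, ∑ i ∈ Finset.range N, ‖T.ι (X i * a)‖ ^ 2 ≤ ‖T.ι a‖ ^ 2)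
    (hz : ∀ m, m < 2 * N → ∀ a : A, ∑ j, ‖T.ι (a * z m j)‖ ^ 2 ≤ Bz * ‖T.ι a‖ ^ 2) :
    ∑ l ∈ Finset.range N, ∑ i ∈ Finset.range N, ∑ j', ∑ j, ‖T.ι (x' l j' * (X i * z (i + l) j))‖ ^ 2
      ≤ ∑ m ∈ Finset.range (2 * N), ∑ j, ‖T.ι (z m j)‖ ^ 2 + (N : ℝ) ^ 2 * (κ * (BX * Bz)) := by
  have h1 : ∀ l ∈ Finset.range N, ∀ i ∈ Finset.range N,
      ∑ j', ∑ j, ‖T.ι (x' l j' * (X i * z (i + l) j))‖ ^ 2
        ≤ ∑ j, ‖T.ι (X i * z (i + l) j)‖ ^ 2 + κ * (BX * Bz) := by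
    intro l hl i hi
    rw [Finset.mem_range] at hl hi
    have h2 := (h.r' l hl).sum_le (fun j => X i * z (i + l) j) (BX * Bz) (fun a => by
      have h3 := hz (i + l) (by omega) (a * X i)
      simp only [mul_assoc] at h3
      refine h3.trans ?_
      have h4 := pow_le_pow_left₀ (norm_nonneg _) (T.mul_le' a (X i)) 2
      rw [mul_pow] at h4
      have h5 : ‖T.ι a‖ ^ 2 * ‖X i‖ ^ 2 ≤ ‖T.ι a‖ ^ 2 * BX :=
        mul_le_mul_of_nonneg_left (hXn i hi) (sq_nonneg _)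
      calc Bz * ‖T.ι (a * X i)‖ ^ 2 ≤ Bz * (‖T.ι a‖ ^ 2 * BX) :=
            mul_le_mul_of_nonneg_left (h4.trans h5) hBz
        _ = BX * Bz * ‖T.ι a‖ ^ 2 := by ring)
    rw [one_mul] at h2
    exact h2
  refine (Finset.sum_le_sum fun l hl => Finset.sum_le_sum fun i hi => h1 l hl i hi).trans ?_
  simp only [Finset.sum_add_distrib, Finset.sum_const, Finset.card_range, nsmul_eq_mul]
  refine add_le_add ?_ (le_of_eq (by ring))
  refine (sum_shift_le N (fun i m => ∑ j, ‖T.ι (X i * z m j)‖ ^ 2)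
    fun i m => Finset.sum_nonneg fun j _ => sq_nonneg _).trans ?_
  refine Finset.sum_le_sum fun m _ => ?_
  rw [Finset.sum_comm]
  exact Finset.sum_le_sum fun j _ => hX _

/-- chain to the left -/
theorem TrAlg.CompData.chainL (h : T.CompData N E J' J x' x C κ B BE) {Jz : ℕ → Type}
    [∀ l, Fintype (Jz l)] (z : ∀ l, Jz l → A) (X : ℕ → A) (BX Bz : ℝ) (hBz : 0 ≤ Bz)
    (hXn : ∀ i, i < N → ‖X i‖ ^ 2 ≤ BX)
    (hX : ∀ a : A, ∑ i ∈ Finset.range N, ‖T.ι (a * X i)‖ ^ 2 ≤ ‖T.ι a‖ ^ 2)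
    (hz : ∀ l, l < N → ∀ a : A, ∑ j, ‖T.ι (z l j * a)‖ ^ 2 ≤ Bz * ‖T.ι a‖ ^ 2) :
    ∑ l ∈ Finset.range N, ∑ i ∈ Finset.range N, ∑ j', ∑ j, ‖T.ι (z l j' * (X i * x (i + l) j))‖ ^ 2
      ≤ ∑ l ∈ Finset.range N, ∑ j, ‖T.ι (z l j)‖ ^ 2 + (N : ℝ) ^ 2 * (κ * (BX * Bz)) := by
  have h1 : ∀ l ∈ Finset.range N, ∀ i ∈ Finset.range N,
      ∑ j', ∑ j, ‖T.ι (z l j' * (X i * x (i + l) j))‖ ^ 2
        ≤ ∑ j', ‖T.ι (z l j' * X i)‖ ^ 2 + κ * (BX * Bz) := by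
    intro l hl i hi
    rw [Finset.mem_range] at hl hi
    have h2 := (h.lx (i + l) (by omega)).sum_le (fun j' => z l j' * X i) (BX * Bz) (fun a => by
      have h3 := hz l hl (X i * a)
      simp only [← mul_assoc] at h3
      refine h3.trans ?_
      have h4 := pow_le_pow_left₀ (norm_nonneg _) (T.mul_le (X i) a) 2
      rw [mul_pow] at h4
      have h5 : ‖X i‖ ^ 2 * ‖T.ι a‖ ^ 2 ≤ BX * ‖T.ι a‖ ^ 2 :=
        mul_le_mul_of_nonneg_right (hXn i hi) (sq_nonneg _)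
      calc Bz * ‖T.ι (X i * a)‖ ^ 2 ≤ Bz * (BX * ‖T.ι a‖ ^ 2) :=
            mul_le_mul_of_nonneg_left (h4.trans h5) hBz
        _ = BX * Bz * ‖T.ι a‖ ^ 2 := by ring)
    rw [one_mul] at h2
    simp only [mul_assoc] at h2
    exact h2
  refine (Finset.sum_le_sum fun l hl => Finset.sum_le_sum fun i hi => h1 l hl i hi).trans ?_
  simp only [Finset.sum_add_distrib, Finset.sum_const, Finset.card_range, nsmul_eq_mul]
  refine add_le_add ?_ (le_of_eq (by ring))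
  refine Finset.sum_le_sum fun l _ => ?_
  rw [Finset.sum_comm]
  exact Finset.sum_le_sum fun j _ => hX _

/-- the middle factor, with a translate of `x` -/
theorem TrAlg.CompData.chainM {G : Type w} [Group G] [TopologicalSpace G] (S : TrAct G T)
    (h : T.CompData N E J' J x' x C κ B BE) (hB : 0 ≤ B) (g : G) (X : ℕ → A) (BX : ℝ)
    (hXn : ∀ i, i < N → ‖X i‖ ^ 2 ≤ BX) :
    ∑ l ∈ Finset.range N, ∑ i ∈ Finset.range N, ∑ j', ∑ j,
        ‖T.ι (x' l j' * (X i * S.α g (x (i + l) j)))‖ ^ 2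
      ≤ N * ∑ i ∈ Finset.range N, ‖T.ι (X i)‖ ^ 2 + (N : ℝ) ^ 2 * (κ * (BX * (B + 1))) := by
  have h1 : ∀ l ∈ Finset.range N, ∀ i ∈ Finset.range N,
      ∑ j', ∑ j, ‖T.ι (x' l j' * (X i * S.α g (x (i + l) j)))‖ ^ 2
        ≤ ‖T.ι (X i)‖ ^ 2 + κ * (BX * (B + 1)) := by
    intro l hl i hi
    rw [Finset.mem_range] at hl hi
    have hXa : ∀ a : A, ‖T.ι (a * X i)‖ ^ 2 ≤ BX * ‖T.ι a‖ ^ 2 := by
      intro a
      have h4 := pow_le_pow_left₀ (norm_nonneg _) (T.mul_le' a (X i)) 2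
      rw [mul_pow] at h4
      have h5 : ‖T.ι a‖ ^ 2 * ‖X i‖ ^ 2 ≤ ‖T.ι a‖ ^ 2 * BX :=
        mul_le_mul_of_nonneg_left (hXn i hi) (sq_nonneg _)
      linarith
    have hα : ∀ (a : A) (j : J (i + l)), ‖T.ι (a * S.α g (x (i + l) j))‖
        = ‖T.ι (S.α g⁻¹ a * x (i + l) j)‖ := by
      intro a j
      rw [← S.norm_map g⁻¹ (a * S.α g (x (i + l) j)), map_mul, S.inv_apply]
    have h2 := (h.r' l hl).sum_le (fun j => X i * S.α g (x (i + l) j)) (BX * B) (fun a => by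
      have h3 := (h.dx (i + l) (by omega)).2 (S.α g⁻¹ (a * X i))
      rw [S.norm_map] at h3
      refine le_trans (le_of_eq (Finset.sum_congr rfl fun j _ => ?_))
        (h3.trans ?_)
      · rw [← mul_assoc, hα]
      · calc B * ‖T.ι (a * X i)‖ ^ 2 ≤ B * (BX * ‖T.ι a‖ ^ 2) :=
              mul_le_mul_of_nonneg_left (hXa a) hB
          _ = BX * B * ‖T.ι a‖ ^ 2 := by ring)
    have h3 := (h.lx (i + l) (by omega)).sum_le (fun _ : Unit => S.α g⁻¹ (X i)) BX (fun a => by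
      simp only [Finset.univ_unique, Finset.sum_const, Finset.card_singleton, one_smul]
      have h5 : ‖T.ι (S.α g⁻¹ (X i) * a)‖ ≤ ‖X i‖ * ‖T.ι a‖ :=
        (T.mul_le _ _).trans (mul_le_mul_of_nonneg_right (S.norm_le _ _) (norm_nonneg _))
      have h6 := pow_le_pow_left₀ (norm_nonneg _) h5 2
      rw [mul_pow] at h6
      exact h6.trans (mul_le_mul_of_nonneg_right (hXn i hi) (sq_nonneg _)))
    simp only [Finset.univ_unique, Finset.sum_const, Finset.card_singleton, one_smul,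
      one_mul, S.norm_map] at h3
    rw [one_mul] at h2
    have h4 : ∑ j, ‖T.ι (X i * S.α g (x (i + l) j))‖ ^ 2
        = ∑ j, ‖T.ι (S.α g⁻¹ (X i) * x (i + l) j)‖ ^ 2 :=
      Finset.sum_congr rfl fun j _ => by rw [hα]
    rw [h4] at h2
    calc _ ≤ _ := h2
      _ ≤ (‖T.ι (X i)‖ ^ 2 + κ * BX) + κ * (BX * B) := by linarith
      _ = _ := by ring
  refine (Finset.sum_le_sum fun l hl => Finset.sum_le_sum fun i hi => h1 l hl i hi).trans ?_
  simp only [Finset.sum_add_distrib, Finset.sum_const, Finset.card_range, nsmul_eq_mul]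
  exact le_of_eq (by ring)

/-- **right test** -/
theorem TrAlg.CompData.testR (h : T.CompData N E J' J x' x C κ B BE) (hB : 0 ≤ B) (z : A) :
    ∑ l ∈ Finset.range N, ∑ i ∈ Finset.range N, ∑ j', ∑ j,
        ‖T.ι (x' l j' * (E i * x (i + l) j) * z)‖ ^ 2
      ≤ N * (2 * (C * ‖T.ι z‖ ^ 2 + κ * ‖z‖ ^ 2)) + (N : ℝ) ^ 2 * (κ * (BE * (B * ‖z‖ ^ 2))) := by
  have h0 := h.chainR (fun m j => x m j * z) E BE (B * ‖z‖ ^ 2) (by positivity) h.En h.Er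
    (fun m hm a => by
      have h1 := (h.dx m hm).2 a
      calc ∑ j, ‖T.ι (a * (x m j * z))‖ ^ 2 ≤ ∑ j, ‖T.ι (a * x m j)‖ ^ 2 * ‖z‖ ^ 2 := by
            refine Finset.sum_le_sum fun j _ => ?_
            rw [← mul_assoc, ← mul_pow]
            exact pow_le_pow_left₀ (norm_nonneg _) (T.mul_le' _ _) 2
        _ = (∑ j, ‖T.ι (a * x m j)‖ ^ 2) * ‖z‖ ^ 2 := by rw [Finset.sum_mul]
        _ ≤ B * ‖T.ι a‖ ^ 2 * ‖z‖ ^ 2 := mul_le_mul_of_nonneg_right h1 (sq_nonneg _)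
        _ = B * ‖z‖ ^ 2 * ‖T.ι a‖ ^ 2 := by ring)
  simp only [mul_assoc]
  refine h0.trans (add_le_add ?_ le_rfl)
  have h2 : ∀ m ∈ Finset.range (2 * N), ∑ j, ‖T.ι (x m j * z)‖ ^ 2
      ≤ C * ‖T.ι z‖ ^ 2 + κ * ‖z‖ ^ 2 := by
    intro m hm
    have h3 := (h.rx m (Finset.mem_range.1 hm)).sum_le (fun _ : Unit => z) (‖z‖ ^ 2) (fun a => by
      simp only [Finset.univ_unique, Finset.sum_const, Finset.card_singleton, one_smul]
      have h6 := pow_le_pow_left₀ (norm_nonneg _) (T.mul_le' a z) 2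
      rw [mul_pow] at h6
      linarith)
    simpa only [Finset.univ_unique, Finset.sum_const, Finset.card_singleton, one_smul] using h3
  refine (Finset.sum_le_sum h2).trans ?_
  rw [Finset.sum_const, Finset.card_range, nsmul_eq_mul]
  push_cast
  exact le_of_eq (by ring)

/-- **left test** -/
theorem TrAlg.CompData.testL (h : T.CompData N E J' J x' x C κ B BE) (hB : 0 ≤ B) (z : A) :
    ∑ l ∈ Finset.range N, ∑ i ∈ Finset.range N, ∑ j', ∑ j,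
        ‖T.ι (z * (x' l j' * (E i * x (i + l) j)))‖ ^ 2
      ≤ N * (C * ‖T.ι z‖ ^ 2 + κ * ‖z‖ ^ 2) + (N : ℝ) ^ 2 * (κ * (BE * (B * ‖z‖ ^ 2))) := by
  have h0 := h.chainL (fun l j => z * x' l j) E BE (B * ‖z‖ ^ 2) (by positivity) h.En h.El
    (fun m hm a => by
      have h1 := (h.d' m hm).1 a
      calc ∑ j, ‖T.ι (z * x' m j * a)‖ ^ 2 ≤ ∑ j, ‖z‖ ^ 2 * ‖T.ι (x' m j * a)‖ ^ 2 := by
            refine Finset.sum_le_sum fun j _ => ?_
            rw [mul_assoc, ← mul_pow]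
            exact pow_le_pow_left₀ (norm_nonneg _) (T.mul_le _ _) 2
        _ = ‖z‖ ^ 2 * ∑ j, ‖T.ι (x' m j * a)‖ ^ 2 := by rw [Finset.mul_sum]
        _ ≤ ‖z‖ ^ 2 * (B * ‖T.ι a‖ ^ 2) := mul_le_mul_of_nonneg_left h1 (sq_nonneg _)
        _ = B * ‖z‖ ^ 2 * ‖T.ι a‖ ^ 2 := by ring)
  simp only [mul_assoc] at h0 ⊢
  refine h0.trans (add_le_add ?_ le_rfl)
  have h2 : ∀ l ∈ Finset.range N, ∑ j, ‖T.ι (z * x' l j)‖ ^ 2
      ≤ C * ‖T.ι z‖ ^ 2 + κ * ‖z‖ ^ 2 := by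
    intro m hm
    have h3 := (h.l' m (Finset.mem_range.1 hm)).sum_le (fun _ : Unit => z) (‖z‖ ^ 2) (fun a => by
      simp only [Finset.univ_unique, Finset.sum_const, Finset.card_singleton, one_smul]
      have h6 := pow_le_pow_left₀ (norm_nonneg _) (T.mul_le z a) 2
      rw [mul_pow] at h6
      linarith)
    simpa only [Finset.univ_unique, Finset.sum_const, Finset.card_singleton, one_smul] using h3
  refine (Finset.sum_le_sum h2).trans ?_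
  rw [Finset.sum_const, Finset.card_range, nsmul_eq_mul]

/-- **mass** -/
theorem TrAlg.CompData.mass (h : T.CompData N E J' J x' x C κ B BE) (hB : 0 ≤ B) {b1 b2 : A}
    {η : ℝ} (hb2 : star b2 = b2) (hbb2 : b2 * b2 = b2)
    (h1 : ∀ l, l < N → T.RFl b1 η κ (x' l)) (h2 : ∀ m, m < 2 * N → T.LFl b2 η κ (x m))
    (hE1 : ∀ i, b1 * E i = E i) (hE2 : ∀ i, E i * b2 = E i) :
    N * ∑ i ∈ Finset.range N, ‖T.ι (E i)‖ ^ 2 - N * (3 * η) - (N : ℝ) ^ 2 * (κ * (BE * (B + 2)))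
      ≤ ∑ l ∈ Finset.range N, ∑ i ∈ Finset.range N, ∑ j', ∑ j,
        ‖T.ι (x' l j' * (E i * x (i + l) j))‖ ^ 2 := by
  -- the witnesses
  have hg' : ∀ l, ∃ g : A, l < N → ‖g‖ ≤ 1 ∧ ‖T.ι g‖ ^ 2 ≤ η ∧
      ‖T.ι (rr (x' l) - (b1 - star g * g))‖ ≤ κ := by
    intro l
    by_cases hl : l < N
    · obtain ⟨g, hg⟩ := h1 l hl
      exact ⟨g, fun _ => hg⟩
    · exact ⟨0, fun hc => absurd hc hl⟩
  choose g' hg' using hg'
  have hg : ∀ m, ∃ g : A, m < 2 * N → ‖g‖ ≤ 1 ∧ ‖T.ι g‖ ^ 2 ≤ η ∧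
      ‖T.ι (ll (x m) - (b2 - star g * g))‖ ≤ κ := by
    intro m
    by_cases hm : m < 2 * N
    · obtain ⟨g, hg⟩ := h2 m hm
      exact ⟨g, fun _ => hg⟩
    · exact ⟨0, fun hc => absurd hc hm⟩
  choose g hg using hg
  have key : ∀ l ∈ Finset.range N, ∀ i ∈ Finset.range N,
      ‖T.ι (E i)‖ ^ 2 - ‖T.ι (g' l * E i)‖ ^ 2 - ‖T.ι (E i * star (g (i + l)))‖ ^ 2
        - κ * (BE * (B + 2))
        ≤ ∑ j', ∑ j, ‖T.ι (x' l j' * (E i * x (i + l) j))‖ ^ 2 := by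
    intro l hl i hi
    rw [Finset.mem_range] at hl hi
    have k1 := T.sandwich_lower' (b1 := b1) (b2 := b2) (hg' l hl) (hg (i + l) (by omega)) hb2 hbb2
      (h.dx (i + l) (by omega)).2 (E i) (hE1 i) (hE2 i)
    refine le_trans ?_ k1
    have k2 : ‖E i‖ ^ 2 * (B + 2) ≤ BE * (B + 2) :=
      mul_le_mul_of_nonneg_right (h.En i hi) (by linarith)
    have k3 := mul_le_mul_of_nonneg_left k2 h.hκ
    linarith
  refine le_trans ?_ (Finset.sum_le_sum fun l hl => Finset.sum_le_sum fun i hi => key l hl i hi)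
  simp only [Finset.sum_sub_distrib, Finset.sum_const, Finset.card_range, nsmul_eq_mul]
  have t1 : ∑ l ∈ Finset.range N, ∑ i ∈ Finset.range N, ‖T.ι (g' l * E i)‖ ^ 2 ≤ N * η := by
    calc _ ≤ ∑ l ∈ Finset.range N, η := Finset.sum_le_sum fun l hl =>
          (h.El (g' l)).trans (hg' l (Finset.mem_range.1 hl)).2.1
      _ = N * η := by rw [Finset.sum_const, Finset.card_range, nsmul_eq_mul]
  have t2 : ∑ l ∈ Finset.range N, ∑ i ∈ Finset.range N, ‖T.ι (E i * star (g (i + l)))‖ ^ 2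
      ≤ 2 * N * η := by
    calc _ ≤ ∑ m ∈ Finset.range (2 * N), ∑ i ∈ Finset.range N, ‖T.ι (E i * star (g m))‖ ^ 2 :=
          sum_shift_le N (fun i m => ‖T.ι (E i * star (g m))‖ ^ 2) fun i m => sq_nonneg _
      _ ≤ ∑ m ∈ Finset.range (2 * N), η := Finset.sum_le_sum fun m hm => by
          refine (h.Er (star (g m))).trans ?_
          rw [T.norm_star]
          exact (hg m (Finset.mem_range.1 hm)).2.1
      _ = 2 * N * η := by
          rw [Finset.sum_const, Finset.card_range, nsmul_eq_mul]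
          push_cast
          ring
  nlinarith

end chain

end Pool.Agent.AbCoc
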