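import Pool.Agent.Lib_MP_418a80_t3.Comp5

/-!
# MP_418a80_an, general `M`: the composed families are near-eigen, and orthogonal to the fixed points
-/

set_option autoImplicit false
set_option linter.unusedVariables false
set_option linter.unusedSectionVars false

open MeasureTheory Topology Filter
open scoped ENNReal NNReal ComplexConjugate

namespace Pool.Agent.AbCoc

universe u v w z

private theorem c6_sq3 (a b c : ℝ) : (a + b + c) ^ 2 ≤ 3 * (a ^ 2 + b ^ 2 + c ^ 2) := by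
  nlinarith [sq_nonneg (a - b), sq_nonneg (b - c), sq_nonneg (a - c)]

private theorem c6_sq2 (a b : ℝ) : (a + b) ^ 2 ≤ 2 * (a ^ 2 + b ^ 2) := by
  nlinarith [sq_nonneg (a - b)]

section
variable {A : Type u} [CStarAlgebra A] {K : Type v} [NormedAddCommGroup K]
  [InnerProductSpace ℂ K] [CompleteSpace K] {T : TrAlg A K}
variable {G : Type w} [Group G] [TopologicalSpace G] (S : TrAct G T)

theorem TrAct.norm_act_mul (g : G) (a b : A) :
    ‖T.ι (S.α g a * b)‖ = ‖T.ι (a * S.α g⁻¹ b)‖ := by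
  have e : S.α g (a * S.α g⁻¹ b) = S.α g a * b := by rw [map_mul, S.apply_inv]
  rw [← e, S.norm_map]

theorem TrAct.norm_inv_mul (g : G) (a b : A) :
    ‖T.ι (S.α g⁻¹ a * b)‖ = ‖T.ι (a * S.α g b)‖ := by
  have e : S.α g (S.α g⁻¹ a * b) = a * S.α g b := by rw [map_mul, S.apply_inv]
  rw [← e, S.norm_map]

/-- the difference to a translate is dominated -/
theorem TrAct.dm_diff {J : Type} [Fintype J] {B : ℝ} {y : J → A} (h : T.Dm B y) (g : G)
    (φ : J → ℂ) (hφ : ∀ j, ‖φ j‖ ≤ 1) : T.Dm (4 * B) (fun j => S.α g (y j) - φ j • y j) := by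
  have hα := dm_act S h g
  refine ⟨fun z => ?_, fun z => ?_⟩
  · have e : ∀ j, ‖T.ι ((S.α g (y j) - φ j • y j) * z)‖ ^ 2
        ≤ 2 * (‖T.ι (S.α g (y j) * z)‖ ^ 2 + ‖T.ι (y j * z)‖ ^ 2) := by
      intro j
      have e1 : ‖T.ι ((S.α g (y j) - φ j • y j) * z)‖
          ≤ ‖T.ι (S.α g (y j) * z)‖ + ‖T.ι (y j * z)‖ := by
        rw [sub_mul, map_sub]
        refine (norm_sub_le _ _).trans (add_le_add le_rfl ?_)
        rw [smul_mul_assoc, map_smul, norm_smul]
        exact mul_le_of_le_one_left (norm_nonneg _) (hφ j)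
      exact (pow_le_pow_left₀ (norm_nonneg _) e1 2).trans (c6_sq2 _ _)
    refine (Finset.sum_le_sum fun j _ => e j).trans ?_
    rw [← Finset.mul_sum, Finset.sum_add_distrib]
    have h1 := hα.1 z
    have h2 := h.1 z
    linarith
  · have e : ∀ j, ‖T.ι (z * (S.α g (y j) - φ j • y j))‖ ^ 2
        ≤ 2 * (‖T.ι (z * S.α g (y j))‖ ^ 2 + ‖T.ι (z * y j)‖ ^ 2) := by
      intro j
      have e1 : ‖T.ι (z * (S.α g (y j) - φ j • y j))‖
          ≤ ‖T.ι (z * S.α g (y j))‖ + ‖T.ι (z * y j)‖ := by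
        rw [mul_sub, map_sub]
        refine (norm_sub_le _ _).trans (add_le_add le_rfl ?_)
        rw [mul_smul_comm, map_smul, norm_smul]
        exact mul_le_of_le_one_left (norm_nonneg _) (hφ j)
      exact (pow_le_pow_left₀ (norm_nonneg _) e1 2).trans (c6_sq2 _ _)
    refine (Finset.sum_le_sum fun j _ => e j).trans ?_
    rw [← Finset.mul_sum, Finset.sum_add_distrib]
    have h1 := hα.2 z
    have h2 := h.2 z
    linarith

variable {N : ℕ} {E : ℕ → A} {J' J : ℕ → Type} [∀ l, Fintype (J' l)] [∀ m, Fintype (J m)]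
  {x' : ∀ l, J' l → A} {x : ∀ m, J m → A} {C κ B BE : ℝ}

/-- the term with the displacement of `x'` -/
theorem TrAlg.CompData.termL (h : T.CompData N E J' J x' x C κ B BE) (hB : 0 ≤ B) (g : G)
    (φ' : ∀ l, J' l → ℂ) (hφ' : ∀ l j, ‖φ' l j‖ ≤ 1) :
    ∑ l ∈ Finset.range N, ∑ i ∈ Finset.range N, ∑ j', ∑ j,
        ‖T.ι ((S.α g (x' l j') - φ' l j' • x' l j') * S.α g (E i * x (i + l) j))‖ ^ 2
      ≤ ∑ l ∈ Finset.range N, ∑ j', ‖T.ι (S.α g (x' l j') - φ' l j' • x' l j')‖ ^ 2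
        + (N : ℝ) ^ 2 * (κ * (BE * (4 * B))) := by
  have h0 := h.chainL (fun l j' => S.α g⁻¹ (S.α g (x' l j') - φ' l j' • x' l j')) E BE (4 * B)
    (by positivity) h.En h.El (fun l hl a => by
      have h1 := (S.dm_diff (h.d' l hl) g (φ' l) (hφ' l)).1 (S.α g a)
      rw [S.norm_map] at h1
      refine le_trans (le_of_eq (Finset.sum_congr rfl fun j _ => ?_)) h1
      rw [S.norm_inv_mul])
  have e1 : ∀ l j', ‖T.ι (S.α g⁻¹ (S.α g (x' l j') - φ' l j' • x' l j'))‖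
      = ‖T.ι (S.α g (x' l j') - φ' l j' • x' l j')‖ := fun l j' => S.norm_map _ _
  simp only [e1] at h0
  refine le_trans (le_of_eq ?_) h0
  refine Finset.sum_congr rfl fun l _ => Finset.sum_congr rfl fun i _ =>
    Finset.sum_congr rfl fun j' _ => Finset.sum_congr rfl fun j _ => ?_
  rw [S.norm_inv_mul]

/-- the term with the displacement of `x` -/
theorem TrAlg.CompData.termR (h : T.CompData N E J' J x' x C κ B BE) (hB : 0 ≤ B) (g : G)
    (φ : ∀ m, J m → ℂ) (hφ : ∀ m j, ‖φ m j‖ ≤ 1) (X : ℕ → A) (hXn : ∀ i, i < N → ‖X i‖ ^ 2 ≤ BE)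
    (hX : ∀ a : A, ∑ i ∈ Finset.range N, ‖T.ι (X i * a)‖ ^ 2 ≤ ‖T.ι a‖ ^ 2) :
    ∑ l ∈ Finset.range N, ∑ i ∈ Finset.range N, ∑ j', ∑ j,
        ‖T.ι (x' l j' * (X i * (S.α g (x (i + l) j) - φ (i + l) j • x (i + l) j)))‖ ^ 2
      ≤ ∑ m ∈ Finset.range (2 * N), ∑ j, ‖T.ι (S.α g (x m j) - φ m j • x m j)‖ ^ 2
        + (N : ℝ) ^ 2 * (κ * (BE * (4 * B))) :=
  h.chainR (fun m j => S.α g (x m j) - φ m j • x m j) X BE (4 * B) (by positivity) hXn hX
    fun m hm a => (S.dm_diff (h.dx m hm) g (φ m) (hφ m)).2 a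

/-- **near-eigen** -/
theorem TrAlg.CompData.near (h : T.CompData N E J' J x' x C κ B BE) (hB : 0 ≤ B) (g : G)
    (φ' : ∀ l, J' l → ℂ) (hφ' : ∀ l j, ‖φ' l j‖ ≤ 1) (φ : ∀ m, J m → ℂ) (hφ : ∀ m j, ‖φ m j‖ ≤ 1)
    (ψ : ℕ → ℂ) (hψ : ∀ i, ‖ψ i‖ ≤ 1) :
    ∑ l ∈ Finset.range N, ∑ i ∈ Finset.range N, ∑ j', ∑ j,
        ‖T.ι (S.α g (x' l j' * (E i * x (i + l) j))
          - (φ' l j' * ψ i * φ (i + l) j) • (x' l j' * (E i * x (i + l) j)))‖ ^ 2
      ≤ 3 * (∑ l ∈ Finset.range N, ∑ j', ‖T.ι (S.α g (x' l j') - φ' l j' • x' l j')‖ ^ 2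
        + N * ∑ i ∈ Finset.range N, ‖T.ι (S.α g (E i) - ψ i • E i)‖ ^ 2
        + ∑ m ∈ Finset.range (2 * N), ∑ j, ‖T.ι (S.α g (x m j) - φ m j • x m j)‖ ^ 2
        + (N : ℝ) ^ 2 * (κ * (BE * (12 * B + 4)))) := by
  have h1 := h.termL S hB g φ' hφ'
  have h2 := h.chainM S hB g (fun i => S.α g (E i) - ψ i • E i) (4 * BE) (fun i hi => by
    have e1 : ‖S.α g (E i) - ψ i • E i‖ ≤ 2 * ‖E i‖ := by
      refine (norm_sub_le _ _).trans ?_
      rw [norm_smul]
      have a1 := S.norm_le g (E i)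
      have a2 := mul_le_of_le_one_left (norm_nonneg (E i)) (hψ i)
      linarith
    have e2 := pow_le_pow_left₀ (norm_nonneg _) e1 2
    have e3 := h.En i hi
    nlinarith)
  have h3 := h.termR S hB g φ hφ E h.En h.Er
  have key : ∀ l i j' j, ‖T.ι (S.α g (x' l j' * (E i * x (i + l) j))
          - (φ' l j' * ψ i * φ (i + l) j) • (x' l j' * (E i * x (i + l) j)))‖ ^ 2
      ≤ 3 * (‖T.ι ((S.α g (x' l j') - φ' l j' • x' l j') * S.α g (E i * x (i + l) j))‖ ^ 2
        + ‖T.ι (x' l j' * ((S.α g (E i) - ψ i • E i) * S.α g (x (i + l) j)))‖ ^ 2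
        + ‖T.ι (x' l j' * (E i * (S.α g (x (i + l) j) - φ (i + l) j • x (i + l) j)))‖ ^ 2) := by
    intro l i j' j
    have e1 : S.α g (x' l j' * (E i * x (i + l) j))
          - (φ' l j' * ψ i * φ (i + l) j) • (x' l j' * (E i * x (i + l) j))
        = (S.α g (x' l j') - φ' l j' • x' l j') * S.α g (E i * x (i + l) j)
          + φ' l j' • (x' l j' * ((S.α g (E i) - ψ i • E i) * S.α g (x (i + l) j)))
          + (φ' l j' * ψ i) • (x' l j' * (E i * (S.α g (x (i + l) j)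
            - φ (i + l) j • x (i + l) j))) := by
      rw [map_mul, map_mul]
      simp only [sub_mul, mul_sub, smul_sub, smul_mul_assoc, mul_smul_comm, smul_smul]
      have e2 : φ' l j' * ψ i * φ (i + l) j = φ (i + l) j * (φ' l j' * ψ i) := by ring
      abel_nf
    have e3 : ‖T.ι (S.α g (x' l j' * (E i * x (i + l) j))
          - (φ' l j' * ψ i * φ (i + l) j) • (x' l j' * (E i * x (i + l) j)))‖
        ≤ ‖T.ι ((S.α g (x' l j') - φ' l j' • x' l j') * S.α g (E i * x (i + l) j))‖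
        + ‖T.ι (x' l j' * ((S.α g (E i) - ψ i • E i) * S.α g (x (i + l) j)))‖
        + ‖T.ι (x' l j' * (E i * (S.α g (x (i + l) j) - φ (i + l) j • x (i + l) j)))‖ := by
      rw [e1, map_add, map_add, map_smul, map_smul]
      refine norm_add₃_le.trans (add_le_add (add_le_add le_rfl ?_) ?_)
      · rw [norm_smul]
        exact mul_le_of_le_one_left (norm_nonneg _) (hφ' l j')
      · rw [norm_smul, norm_mul]
        exact mul_le_of_le_one_left (norm_nonneg _)
          (mul_le_one₀ (hφ' l j') (norm_nonneg _) (hψ i))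
    exact (pow_le_pow_left₀ (norm_nonneg _) e3 2).trans (c6_sq3 _ _ _)
  refine (Finset.sum_le_sum fun l _ => Finset.sum_le_sum fun i _ => Finset.sum_le_sum fun j' _ =>
    Finset.sum_le_sum fun j _ => key l i j' j).trans ?_
  simp only [← Finset.mul_sum, Finset.sum_add_distrib]
  nlinarith [h1, h2, h3]

end

section
variable {A : Type u} [CStarAlgebra A] {K : Type v} [NormedAddCommGroup K]
  [InnerProductSpace ℂ K] [CompleteSpace K] {T : TrAlg A K}
variable {G : Type w} [Group G] [TopologicalSpace G] (S : TrAct G T)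
variable {N : ℕ} {E : ℕ → A} {J' J : ℕ → Type} [∀ l, Fintype (J' l)] [∀ m, Fintype (J m)]
  {x' : ∀ l, J' l → A} {x : ∀ m, J m → A} {C κ B BE : ℝ}

/-- **orthogonality to the fixed points**, from an average -/
theorem TrAlg.CompData.kill (h : T.CompData N E J' J x' x C κ B BE) (hB : 0 ≤ B) (n : ℕ)
    (hh : Fin n → G) (lam : Fin n → ℝ) (hlam : ∀ k, 0 ≤ lam k) (hsum : ∑ k, lam k = 1) (δ : ℝ)
    (hx' : ∀ k, ∑ l ∈ Finset.range N, ∑ j', ‖T.ι (S.α (hh k) (x' l j') - x' l j')‖ ^ 2 ≤ δ)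
    (hx : ∀ k, ∑ m ∈ Finset.range (2 * N), ∑ j, ‖T.ι (S.α (hh k) (x m j) - x m j)‖ ^ 2 ≤ δ) :
    ∑ l ∈ Finset.range N, ∑ i ∈ Finset.range N, ∑ j', ∑ j,
        ‖T.ι (S.E (x' l j' * (E i * x (i + l) j)))‖ ^ 2
      ≤ 2 * (N * ∑ i ∈ Finset.range N, ‖T.ι (∑ k, (lam k : ℂ) • S.α (hh k) (E i))‖ ^ 2)
        + 8 * δ + (N : ℝ) ^ 2 * (κ * (BE * (36 * B + 2))) := by
  set V : ℕ → A := fun i => ∑ k, (lam k : ℂ) • S.α (hh k) (E i) with hV
  have hVn : ∀ i, i < N → ‖V i‖ ^ 2 ≤ BE := by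
    intro i hi
    have e1 : ‖V i‖ ≤ ‖E i‖ := by
      calc ‖V i‖ ≤ ∑ k, ‖(lam k : ℂ) • S.α (hh k) (E i)‖ := norm_sum_le _ _
        _ ≤ ∑ k, lam k * ‖E i‖ := by
            refine Finset.sum_le_sum fun k _ => ?_
            rw [norm_smul, Complex.norm_real, Real.norm_eq_abs, abs_of_nonneg (hlam k)]
            exact mul_le_mul_of_nonneg_left (S.norm_le _ _) (hlam k)
        _ = ‖E i‖ := by rw [← Finset.sum_mul, hsum, one_mul]
    exact (pow_le_pow_left₀ (norm_nonneg _) e1 2).trans (h.En i hi)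
  have h1 := h.chainM S hB 1 V BE hVn
  simp only [S.one] at h1
  -- the remainders
  set R : Fin n → (l : ℕ) → (i : ℕ) → J' l → J (i + l) → A := fun k l i j' j =>
    (S.α (hh k) (x' l j') - x' l j') * S.α (hh k) (E i * x (i + l) j)
      + x' l j' * (S.α (hh k) (E i) * (S.α (hh k) (x (i + l) j) - x (i + l) j)) with hR
  have hRk : ∀ k, ∑ l ∈ Finset.range N, ∑ i ∈ Finset.range N, ∑ j', ∑ j,
      ‖T.ι (R k l i j' j)‖ ^ 2 ≤ 4 * δ + (N : ℝ) ^ 2 * (κ * (BE * (16 * B))) := by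
    intro k
    have a1 := h.termL S hB (hh k) (fun _ _ => 1) (fun _ _ => by simp)
    have a2 := h.termR S hB (hh k) (fun _ _ => 1) (fun _ _ => by simp) (fun i => S.α (hh k) (E i))
      (fun i hi => (pow_le_pow_left₀ (norm_nonneg _) (S.norm_le _ _) 2).trans (h.En i hi))
      (fun a => by
        have a3 := h.Er (S.α (hh k)⁻¹ a)
        rw [S.norm_map] at a3
        refine le_trans (le_of_eq (Finset.sum_congr rfl fun i _ => ?_)) a3
        rw [S.norm_act_mul])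
    simp only [one_smul] at a1 a2
    have e1 : ∀ l i j' j, ‖T.ι (R k l i j' j)‖ ^ 2
        ≤ 2 * (‖T.ι ((S.α (hh k) (x' l j') - x' l j') * S.α (hh k) (E i * x (i + l) j))‖ ^ 2
          + ‖T.ι (x' l j' * (S.α (hh k) (E i)
            * (S.α (hh k) (x (i + l) j) - x (i + l) j)))‖ ^ 2) := by
      intro l i j' j
      rw [hR]
      simp only [map_add]
      exact (pow_le_pow_left₀ (norm_nonneg _) (norm_add_le _ _) 2).trans (c6_sq2 _ _)
    refine (Finset.sum_le_sum fun l _ => Finset.sum_le_sum fun i _ => Finset.sum_le_sum fun j' _ =>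
      Finset.sum_le_sum fun j _ => e1 l i j' j).trans ?_
    simp only [← Finset.mul_sum, Finset.sum_add_distrib]
    have b1 := hx' k
    have b2 := hx k
    nlinarith [a1, a2]
  -- the identity
  have hid : ∀ l i j' j, S.E (x' l j' * (E i * x (i + l) j))
      = S.E (x' l j' * (V i * x (i + l) j) + ∑ k, (lam k : ℂ) • R k l i j' j) := by
    intro l i j' j
    have e1 : x' l j' * (V i * x (i + l) j) + ∑ k, (lam k : ℂ) • R k l i j' j
        = ∑ k, (lam k : ℂ) • S.α (hh k) (x' l j' * (E i * x (i + l) j)) := by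
      rw [hV]
      simp only
      rw [Finset.sum_mul, Finset.mul_sum, ← Finset.sum_add_distrib]
      refine Finset.sum_congr rfl fun k _ => ?_
      rw [smul_mul_assoc, mul_smul_comm, ← smul_add]
      congr 1
      rw [hR]
      simp only [map_mul]
      noncomm_ring
    rw [e1, S.E_sum]
    simp only [S.E_smul, S.E_α]
    rw [← Finset.sum_smul]
    have e2 : ∑ k, (lam k : ℂ) = 1 := by
      rw [← Complex.ofReal_sum, hsum, Complex.ofReal_one]
    rw [e2, one_smul]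
  have hterm : ∀ l i j' j, ‖T.ι (S.E (x' l j' * (E i * x (i + l) j)))‖ ^ 2
      ≤ 2 * (‖T.ι (x' l j' * (V i * x (i + l) j))‖ ^ 2
        + ∑ k, lam k * ‖T.ι (R k l i j' j)‖ ^ 2) := by
    intro l i j' j
    rw [hid]
    have e1 := (S.norm_E_le (x' l j' * (V i * x (i + l) j) + ∑ k, (lam k : ℂ) • R k l i j' j))
    rw [map_add] at e1
    have e2 := e1.trans (norm_add_le _ _)
    refine (pow_le_pow_left₀ (norm_nonneg _) e2 2).trans ((c6_sq2 _ _).trans ?_)
    refine mul_le_mul_of_nonneg_left (add_le_add le_rfl ?_) (by norm_num)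
    have e3 : ‖T.ι (∑ k, (lam k : ℂ) • R k l i j' j)‖ ≤ ∑ k, lam k * ‖T.ι (R k l i j' j)‖ := by
      rw [map_sum]
      refine (norm_sum_le _ _).trans (le_of_eq (Finset.sum_congr rfl fun k _ => ?_))
      rw [map_smul, norm_smul, Complex.norm_real, Real.norm_eq_abs, abs_of_nonneg (hlam k)]
    refine (pow_le_pow_left₀ (norm_nonneg _) e3 2).trans ?_
    -- Jensen
    have e4 := Finset.sum_mul_sq_le_sq_mul_sq (Finset.univ : Finset (Fin n))
      (fun k => Real.sqrt (lam k)) (fun k => Real.sqrt (lam k) * ‖T.ι (R k l i j' j)‖)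
    have e5 : ∀ k, Real.sqrt (lam k) * (Real.sqrt (lam k) * ‖T.ι (R k l i j' j)‖)
        = lam k * ‖T.ι (R k l i j' j)‖ := fun k => by
      rw [← mul_assoc, Real.mul_self_sqrt (hlam k)]
    simp only [e5, mul_pow, Real.sq_sqrt (hlam _), hsum, one_mul] at e4
    exact e4
  refine (Finset.sum_le_sum fun l _ => Finset.sum_le_sum fun i _ => Finset.sum_le_sum fun j' _ =>
    Finset.sum_le_sum fun j _ => hterm l i j' j).trans ?_
  simp only [← Finset.mul_sum, Finset.sum_add_distrib]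
  have hswap : ∑ l ∈ Finset.range N, ∑ i ∈ Finset.range N, ∑ j', ∑ j, ∑ k,
      lam k * ‖T.ι (R k l i j' j)‖ ^ 2
      ≤ 4 * δ + (N : ℝ) ^ 2 * (κ * (BE * (16 * B))) := by
    have e1 : ∑ l ∈ Finset.range N, ∑ i ∈ Finset.range N, ∑ j', ∑ j, ∑ k,
        lam k * ‖T.ι (R k l i j' j)‖ ^ 2
        = ∑ k, lam k * ∑ l ∈ Finset.range N, ∑ i ∈ Finset.range N, ∑ j', ∑ j,
          ‖T.ι (R k l i j' j)‖ ^ 2 := by
      simp only [Finset.mul_sum]
      symm
      rw [Finset.sum_comm]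
      refine Finset.sum_congr rfl fun l _ => ?_
      rw [Finset.sum_comm]
      refine Finset.sum_congr rfl fun i _ => ?_
      rw [Finset.sum_comm]
      refine Finset.sum_congr rfl fun j' _ => ?_
      rw [Finset.sum_comm]
    rw [e1]
    calc ∑ k, lam k * ∑ l ∈ Finset.range N, ∑ i ∈ Finset.range N, ∑ j', ∑ j,
          ‖T.ι (R k l i j' j)‖ ^ 2
        ≤ ∑ k, lam k * (4 * δ + (N : ℝ) ^ 2 * (κ * (BE * (16 * B)))) :=
          Finset.sum_le_sum fun k _ => mul_le_mul_of_nonneg_left (hRk k) (hlam k)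
      _ = _ := by rw [← Finset.sum_mul, hsum, one_mul]
  have hκB : 0 ≤ (N : ℝ) ^ 2 * (κ * (BE * B)) := by
    have := h.hκ
    have := h.hBE
    positivity
  nlinarith [h1, hswap]

end

end Pool.Agent.AbCoc
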