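import Pool.Agent.Lib_MP_418a80_t3.Comp7

/-!
# MP_418a80_an, general `M`: the composed family
-/

set_option autoImplicit false
set_option linter.unusedVariables false
set_option linter.unusedSectionVars false

open MeasureTheory Topology Filter
open scoped ENNReal NNReal ComplexConjugate RealInnerProductSpace

namespace Pool.Agent.AbCoc

universe u v w z

private theorem c8_sq2 (a b : ℝ) : (a + b) ^ 2 ≤ 2 * (a ^ 2 + b ^ 2) := by
  nlinarith [sq_nonneg (a - b)]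

/-- the scaled family of all products -/
theorem exists_family {A : Type u} [AddCommGroup A] [Module ℂ A] (N : ℕ) (hN : 0 < N)
    {J' J : ℕ → Type} [∀ l, Fintype (J' l)] [∀ m, Fintype (J m)]
    (y : ∀ l i : ℕ, J' l → J (i + l) → A) :
    ∃ (I : Type) (_ : Fintype I) (a : I → A),
      (∀ k, ∃ (c : ℂ) (l i : ℕ) (j' : J' l) (j : J (i + l)), a k = c • y l i j' j) ∧
      ∀ f : A → ℝ, (∀ (c : ℝ) (z : A), f ((c : ℂ) • z) = c ^ 2 * f z) →
        ∑ k, f (a k) = (N : ℝ)⁻¹ * ∑ l ∈ Finset.range N, ∑ i ∈ Finset.range N, ∑ j', ∑ j,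
          f (y l i j' j) := by
  refine ⟨(l : Fin N) × ((i : Fin N) × (J' l × J ((i : ℕ) + l))), inferInstance,
    fun k => ((Real.sqrt ((N : ℝ)⁻¹) : ℝ) : ℂ) • y k.1 k.2.1 k.2.2.1 k.2.2.2,
    fun k => ⟨_, _, _, _, _, rfl⟩, fun f hf => ?_⟩
  simp only [hf]
  rw [← Finset.mul_sum, Real.sq_sqrt (by positivity)]
  congr 1
  rw [Fintype.sum_sigma, Finset.sum_range]
  refine Finset.sum_congr rfl fun l _ => ?_
  rw [Fintype.sum_sigma, Finset.sum_range]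
  refine Finset.sum_congr rfl fun i _ => ?_
  rw [Fintype.sum_prod_type]

variable {A : Type u} [CStarAlgebra A] {K : Type v} [NormedAddCommGroup K]
  [InnerProductSpace ℂ K] [CompleteSpace K]
variable {G : Type w} [Group G] [TopologicalSpace G] {T : TrAlg A K} (S : TrAct G T)
variable {V : Type z} [NormedAddCommGroup V] [InnerProductSpace ℝ V]

section
variable {S}
variable {p : G → V} {chi0 : V} {s : ℝ → G} {b1 b2 : A} {η C' u0 ε ρ W : ℝ} {e : A}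
    {Dx : Set G} {κ K0 : ℝ} {N M : ℕ} {θ : ℝ} {E : ℕ → A} {J' J : ℕ → Type} [∀ l, Fintype (J' l)]
    [∀ m, Fintype (J m)] {x' : ∀ l, J' l → A} {x : ∀ m, J m → A} {q' : ∀ l, J' l → V}
    {q : ∀ m, J m → V} {B BE κx : ℝ}

theorem TrAct.Core.basic (h : S.Core p chi0 s b1 b2 η C' u0 ε ρ W e Dx κ K0 N M θ E J' J x' x q' q
    B BE κx) (hK0 : 0 ≤ K0) : (1 : ℝ) ≤ N ∧ 0 ≤ κx ∧ 0 ≤ BE ∧ 40 * κx ≤ κ ∧
      N * (κx * (BE * (36 * B + 40))) ≤ κ ∧ N * (κx * (BE * B * K0)) + 2 * κx * K0 ≤ κ := by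
  have hN : (1 : ℝ) ≤ N := by exact_mod_cast h.hN
  have hκ := h.data.hκ
  have hBE := h.data.hBE
  have hB := h.hB
  have hs := h.small
  have e0 : 0 ≤ κx * (BE * (36 * B + 40) * K0) := by positivity
  have e1 : 0 ≤ κx * ((36 * B + 40) * K0) := by positivity
  have e2 : 0 ≤ κx * (BE * (36 * B + 40)) := by positivity
  have e3 : 0 ≤ κx * (36 * B + 40) := by positivity
  have e4 : 0 ≤ κx * B := by positivity
  have e5 : 0 ≤ κx * (BE * B * K0) := by positivity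
  have e6 : 0 ≤ κx * K0 := by positivity
  have e7 : 0 ≤ κx * (B * K0) := by positivity
  have e8 : 0 ≤ κx * (BE * K0) := by positivity
  have hexp : κx * ((BE + 1) * (36 * B + 40) * (K0 + 1)) = κx * (BE * (36 * B + 40) * K0)
      + κx * ((36 * B + 40) * K0) + κx * (BE * (36 * B + 40)) + κx * (36 * B + 40) := by ring
  refine ⟨hN, hκ, hBE, ?_, ?_, ?_⟩
  · have t1 : κx * (36 * B + 40) ≤ κx * ((BE + 1) * (36 * B + 40) * (K0 + 1)) := by
      rw [hexp]; linarith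
    have t2 : κx * ((BE + 1) * (36 * B + 40) * (K0 + 1))
        ≤ N * (κx * ((BE + 1) * (36 * B + 40) * (K0 + 1))) :=
      le_mul_of_one_le_left (by rw [hexp]; linarith) hN
    nlinarith
  · have t1 : κx * (BE * (36 * B + 40)) ≤ κx * ((BE + 1) * (36 * B + 40) * (K0 + 1)) := by
      rw [hexp]; linarith
    exact (mul_le_mul_of_nonneg_left t1 (by linarith)).trans hs
  · have t1 : κx * (BE * B * K0) + 2 * κx * K0 ≤ κx * ((BE + 1) * (36 * B + 40) * (K0 + 1)) := by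
      have a1 : κx * (BE * (36 * B + 40) * K0) = 36 * (κx * (BE * B * K0)) + 40 * (κx * (BE * K0)) := by
        ring
      have a2 : κx * ((36 * B + 40) * K0) = 36 * (κx * (B * K0)) + 40 * (κx * K0) := by ring
      rw [hexp, a1, a2]
      linarith
    have t2 : N * (κx * (BE * B * K0)) + 2 * κx * K0 ≤ N * (κx * (BE * B * K0) + 2 * κx * K0) := by
      have : 2 * κx * K0 ≤ N * (2 * κx * K0) := le_mul_of_one_le_left (by linarith) hN
      linarith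
    exact t2.trans ((mul_le_mul_of_nonneg_left t1 (by linarith)).trans hs)

/-- the total mass is at most `1 + κ` -/
theorem TrAct.Core.total (h : S.Core p chi0 s b1 b2 η C' u0 ε ρ W e Dx κ K0 N M θ E J' J x' x q' q
    B BE κx) (hK0 : 0 ≤ K0) (he : ‖T.ι e‖ ≤ 1) :
    ∑ l ∈ Finset.range N, ∑ i ∈ Finset.range N, ∑ j', ∑ j,
      ‖T.ι (x' l j' * (E i * x (i + l) j))‖ ^ 2 ≤ N * (1 + κ) := by
  obtain ⟨hN, hκx, hBE, h40, hs1, hs2⟩ := h.basic hK0
  have h1 := h.data.chainM S h.hB 1 E BE h.data.En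
  simp only [S.one] at h1
  refine h1.trans ?_
  rw [h.mass]
  have h2 : ‖T.ι e‖ ^ 2 ≤ 1 := pow_le_one₀ (norm_nonneg _) he
  have h3 : (N : ℝ) * (κx * (BE * (B + 1))) ≤ κ := by
    refine le_trans (mul_le_mul_of_nonneg_left (mul_le_mul_of_nonneg_left
      (mul_le_mul_of_nonneg_left ?_ hBE) hκx) (by linarith)) hs1
    linarith [h.hB]
  have h4 : (N : ℝ) ^ 2 * (κx * (BE * (B + 1))) ≤ N * κ := by
    have := mul_le_mul_of_nonneg_left h3 (by linarith : (0 : ℝ) ≤ N)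
    linarith
  nlinarith

/-- the displacement of the composed family by `g` -/
theorem TrAct.Core.disp (h : S.Core p chi0 s b1 b2 η C' u0 ε ρ W e Dx κ K0 N M θ E J' J x' x q' q
    B BE κx) (hK0 : 0 ≤ K0) (g : G) (hg : g ∈ Dx) (ψ : ℕ → ℂ) (hψ : ∀ i, ‖ψ i‖ ≤ 1) (δ : ℝ)
    (hE : ∑ i ∈ Finset.range N, ‖T.ι (S.α g (E i) - ψ i • E i)‖ ^ 2 ≤ δ) :
    ∑ l ∈ Finset.range N, ∑ i ∈ Finset.range N, ∑ j', ∑ j,
      ‖T.ι (S.α g (x' l j' * (E i * x (i + l) j))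
        - (ch ⟪q' l j', p g⟫ * ψ i * ch ⟪q (i + l) j, p g⟫) • (x' l j' * (E i * x (i + l) j)))‖ ^ 2
      ≤ N * (3 * δ + 4 * κ) := by
  obtain ⟨hN, hκx, hBE, h40, hs1, hs2⟩ := h.basic hK0
  have h1 := h.data.near S h.hB g (fun l j' => ch ⟪q' l j', p g⟫) (fun l j => (norm_ch _).le)
    (fun m j => ch ⟪q m j, p g⟫) (fun m j => (norm_ch _).le) ψ hψ
  refine h1.trans ?_
  have a1 : ∑ l ∈ Finset.range N, ∑ j', ‖T.ι (S.α g (x' l j') - ch ⟪q' l j', p g⟫ • x' l j')‖ ^ 2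
      ≤ N * κx := by
    refine (Finset.sum_le_sum fun l _ => h.near' l g hg).trans ?_
    rw [Finset.sum_const, Finset.card_range, nsmul_eq_mul]
  have a2 : ∑ m ∈ Finset.range (2 * N), ∑ j, ‖T.ι (S.α g (x m j) - ch ⟪q m j, p g⟫ • x m j)‖ ^ 2
      ≤ 2 * N * κx := by
    refine (Finset.sum_le_sum fun m _ => h.near m g hg).trans ?_
    rw [Finset.sum_const, Finset.card_range, nsmul_eq_mul]
    push_cast
    exact le_of_eq rfl
  have a3 : (N : ℝ) * (κx * (BE * (12 * B + 4))) ≤ κ := by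
    refine le_trans (mul_le_mul_of_nonneg_left (mul_le_mul_of_nonneg_left
      (mul_le_mul_of_nonneg_left ?_ hBE) hκx) (by linarith)) hs1
    linarith [h.hB]
  have a4 : (N : ℝ) ^ 2 * (κx * (BE * (12 * B + 4))) ≤ N * κ := by
    have := mul_le_mul_of_nonneg_left a3 (by linarith : (0 : ℝ) ≤ N)
    linarith
  have a5 := mul_le_mul_of_nonneg_left hE (by linarith : (0 : ℝ) ≤ N)
  have a6 : (N : ℝ) * (40 * κx) ≤ N * κ := mul_le_mul_of_nonneg_left h40 (by linarith)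
  nlinarith

/-- **The composed family.** -/
theorem TrAct.Core.family (h : S.Core p chi0 s b1 b2 η C' u0 ε ρ W e Dx κ K0 N M θ E J' J x' x q' q
    B BE κx) (hK0 : 0 ≤ K0) (hb1 : S.IsPrj b1) (hb2 : S.IsPrj b2) (he : ‖T.ι e‖ ≤ 1) (hρ : 0 ≤ ρ)
    (D : Set G) (hD : D ⊆ Dx) (δ P : ℝ) (hP : ∀ g ∈ D, ‖p g‖ ≤ P)
    (hE : ∀ g ∈ D, ∑ i ∈ Finset.range N,
      ‖T.ι (S.α g (E i) - ch (θ * ((i : ℝ) - M) * ⟪chi0, p g⟫) • E i)‖ ^ 2 ≤ δ)
    (y : A) (hy : ‖y‖ ^ 2 ≤ K0) (κ' : ℝ)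
    (hkill : ∑ l ∈ Finset.range N, ∑ i ∈ Finset.range N, ∑ j', ∑ j,
      ‖T.ι (S.E (x' l j' * (E i * x (i + l) j)))‖ ^ 2 ≤ N * κ') :
    ∃ (I : Type) (_ : Fintype I) (a : I → A), (∀ k, b1 * a k = a k) ∧ (∀ k, a k * b2 = a k) ∧
      ‖T.ι e‖ ^ 2 - 3 * η - κ ≤ T.ms a ∧ ∑ k, ‖T.ι (S.E (a k))‖ ^ 2 ≤ κ' ∧
      (∀ g ∈ D, ∑ k, ‖T.ι (S.α g (a k) - a k)‖ ^ 2
        ≤ 2 * (3 * δ + 4 * κ) + 2 * ((2 * ρ * P) ^ 2 * (1 + κ))) ∧
      ∑ k, ‖T.ι (a k * y)‖ ^ 2 ≤ 2 * C' * ‖T.ι y‖ ^ 2 + κ ∧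
      ∑ k, ‖T.ι (y * a k)‖ ^ 2 ≤ C' * ‖T.ι y‖ ^ 2 + κ := by
  obtain ⟨hN, hκx, hBE, h40, hs1, hs2⟩ := h.basic hK0
  have hN0 : (0 : ℝ) < N := by linarith
  obtain ⟨I, hI, a, ha, hsum⟩ := exists_family N h.hN
    (fun (l i : ℕ) (j' : J' l) (j : J (i + l)) => x' l j' * (E i * x (i + l) j))
  have hscale : ∀ X : ℝ, (N : ℝ)⁻¹ * (N * X) = X := fun X => by
    rw [← mul_assoc, inv_mul_cancel₀ hN0.ne', one_mul]
  have hle : ∀ (S0 X : ℝ), S0 ≤ N * X → (N : ℝ)⁻¹ * S0 ≤ X := fun S0 X hX => by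
    have := mul_le_mul_of_nonneg_left hX (inv_nonneg.2 hN0.le)
    rwa [hscale] at this
  have hnorm : ∀ (c : ℝ) (z : A), ‖T.ι ((c : ℂ) • z)‖ ^ 2 = c ^ 2 * ‖T.ι z‖ ^ 2 := by
    intro c z
    rw [map_smul, norm_smul, Complex.norm_real, Real.norm_eq_abs, mul_pow, sq_abs]
  refine ⟨I, hI, a, fun k => ?_, fun k => ?_, ?_, ?_, ?_, ?_, ?_⟩
  · obtain ⟨c, l, i, j', j, hk⟩ := ha k
    rw [hk, mul_smul_comm, ← mul_assoc, h.x1]
  · obtain ⟨c, l, i, j', j, hk⟩ := ha k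
    rw [hk, smul_mul_assoc, mul_assoc, mul_assoc, h.x2]
  · -- mass
    unfold TrAlg.ms
    rw [hsum (fun z => ‖T.ι z‖ ^ 2) hnorm]
    have h1 := h.data.mass h.hB hb2.star_eq hb2.mul_self h.rf h.lf h.E1 h.E2
    rw [h.mass] at h1
    have h3 : (N : ℝ) * (κx * (BE * (B + 2))) ≤ κ := by
      refine le_trans (mul_le_mul_of_nonneg_left (mul_le_mul_of_nonneg_left
        (mul_le_mul_of_nonneg_left ?_ hBE) hκx) (by linarith)) hs1
      linarith [h.hB]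
    have h4 : (N : ℝ) ^ 2 * (κx * (BE * (B + 2))) ≤ N * κ := by
      have := mul_le_mul_of_nonneg_left h3 hN0.le
      linarith
    have h5 : N * (‖T.ι e‖ ^ 2 - 3 * η - κ) ≤ ∑ l ∈ Finset.range N, ∑ i ∈ Finset.range N,
        ∑ j', ∑ j, ‖T.ι (x' l j' * (E i * x (i + l) j))‖ ^ 2 := by
      refine le_trans ?_ h1
      linarith
    have h6 := mul_le_mul_of_nonneg_left h5 (inv_nonneg.2 hN0.le)
    rwa [hscale] at h6
  · rw [hsum (fun z => ‖T.ι (S.E z)‖ ^ 2) (fun c z => by rw [S.E_smul, hnorm])]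
    exact hle _ _ hkill
  · intro g hg
    rw [hsum (fun z => ‖T.ι (S.α g z - z)‖ ^ 2) (fun c z => by
      rw [map_smul (S.α g), ← smul_sub, hnorm])]
    refine hle _ _ ?_
    have h1 := h.disp hK0 g (hD hg) (fun i => ch (θ * ((i : ℝ) - M) * ⟪chi0, p g⟫))
      (fun i => (norm_ch _).le) δ (hE g hg)
    have h2 := h.total hK0 he
    have hphase : ∀ (l i : ℕ) (j' : J' l) (j : J (i + l)),
        ‖ch ⟪q' l j', p g⟫ * ch (θ * ((i : ℝ) - M) * ⟪chi0, p g⟫) * ch ⟪q (i + l) j, p g⟫ - 1‖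
          ≤ 2 * ρ * P := by
      intro l i j' j
      rw [← ch_add, ← ch_add, ← ch_zero]
      refine (norm_ch_sub_le _ _).trans ?_
      rw [sub_zero]
      have e1 : ⟪q' l j', p g⟫ + θ * ((i : ℝ) - M) * ⟪chi0, p g⟫ + ⟪q (i + l) j, p g⟫
          = ⟪q' l j' - (θ * l) • chi0, p g⟫
            + ⟪q (i + l) j - (θ * ((M : ℝ) - (i + l : ℕ))) • chi0, p g⟫ := by
        rw [inner_sub_left, inner_sub_left, real_inner_smul_left, real_inner_smul_left]
        push_cast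
        ring
      rw [e1]
      refine (abs_add_le _ _).trans ?_
      have b1' := (abs_real_inner_le_norm (q' l j' - (θ * l) • chi0) (p g)).trans
        (mul_le_mul (h.lab' l j') (hP g hg) (norm_nonneg _) hρ)
      have b2' := (abs_real_inner_le_norm (q (i + l) j - (θ * ((M : ℝ) - (i + l : ℕ))) • chi0)
        (p g)).trans (mul_le_mul (h.lab (i + l) j) (hP g hg) (norm_nonneg _) hρ)
      linarith
    have key : ∀ (l i : ℕ) (j' : J' l) (j : J (i + l)),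
        ‖T.ι (S.α g (x' l j' * (E i * x (i + l) j)) - x' l j' * (E i * x (i + l) j))‖ ^ 2
        ≤ 2 * (‖T.ι (S.α g (x' l j' * (E i * x (i + l) j))
          - (ch ⟪q' l j', p g⟫ * ch (θ * ((i : ℝ) - M) * ⟪chi0, p g⟫) * ch ⟪q (i + l) j, p g⟫)
            • (x' l j' * (E i * x (i + l) j)))‖ ^ 2
          + (2 * ρ * P) ^ 2 * ‖T.ι (x' l j' * (E i * x (i + l) j))‖ ^ 2) := by
      intro l i j' j
      set Y : A := x' l j' * (E i * x (i + l) j) with hY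
      set Φ : ℂ := ch ⟪q' l j', p g⟫ * ch (θ * ((i : ℝ) - M) * ⟪chi0, p g⟫)
        * ch ⟪q (i + l) j, p g⟫ with hΦ
      have e1 : S.α g Y - Y = (S.α g Y - Φ • Y) + (Φ - 1) • Y := by
        rw [sub_smul, one_smul]
        abel
      have e2 : ‖T.ι (S.α g Y - Y)‖ ≤ ‖T.ι (S.α g Y - Φ • Y)‖ + 2 * ρ * P * ‖T.ι Y‖ := by
        conv_lhs => rw [e1, map_add]
        refine (norm_add_le _ _).trans (add_le_add le_rfl ?_)
        rw [map_smul, norm_smul]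
        exact mul_le_mul_of_nonneg_right (hphase l i j' j) (norm_nonneg _)
      refine (pow_le_pow_left₀ (norm_nonneg _) e2 2).trans ((c8_sq2 _ _).trans (le_of_eq ?_))
      rw [mul_pow]
    refine (Finset.sum_le_sum fun l _ => Finset.sum_le_sum fun i _ => Finset.sum_le_sum fun j' _ =>
      Finset.sum_le_sum fun j _ => key l i j' j).trans ?_
    simp only [← Finset.mul_sum, Finset.sum_add_distrib]
    have h3 := mul_le_mul_of_nonneg_left h2 (sq_nonneg (2 * ρ * P))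
    nlinarith [h1, h3]
  · rw [hsum (fun z => ‖T.ι (z * y)‖ ^ 2) (fun c z => by rw [smul_mul_assoc, hnorm])]
    refine hle _ _ ?_
    have h1 := h.data.testR h.hB y
    refine h1.trans ?_
    have h2 : N * (κx * (BE * (B * ‖y‖ ^ 2))) + 2 * κx * ‖y‖ ^ 2 ≤ κ := by
      refine le_trans ?_ hs2
      have a1 : BE * (B * ‖y‖ ^ 2) ≤ BE * B * K0 := by
        rw [← mul_assoc]
        exact mul_le_mul_of_nonneg_left hy (mul_nonneg hBE h.hB)
      have a2 := mul_le_mul_of_nonneg_left (mul_le_mul_of_nonneg_left a1 hκx) hN0.le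
      have a3 := mul_le_mul_of_nonneg_left hy (by linarith : 0 ≤ 2 * κx)
      linarith
    have h3 := mul_le_mul_of_nonneg_left h2 hN0.le
    nlinarith [h3]
  · rw [hsum (fun z => ‖T.ι (y * z)‖ ^ 2) (fun c z => by rw [mul_smul_comm, hnorm])]
    refine hle _ _ ?_
    have h1 := h.data.testL h.hB y
    refine h1.trans ?_
    have h2 : N * (κx * (BE * (B * ‖y‖ ^ 2))) + κx * ‖y‖ ^ 2 ≤ κ := by
      refine le_trans ?_ hs2
      have a1 : BE * (B * ‖y‖ ^ 2) ≤ BE * B * K0 := by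
        rw [← mul_assoc]
        exact mul_le_mul_of_nonneg_left hy (mul_nonneg hBE h.hB)
      have a2 := mul_le_mul_of_nonneg_left (mul_le_mul_of_nonneg_left a1 hκx) hN0.le
      have a3 := mul_le_mul_of_nonneg_left hy hκx
      have a4 : 0 ≤ κx * K0 := by positivity
      linarith
    have h3 := mul_le_mul_of_nonneg_left h2 hN0.le
    nlinarith [h3]

end

end Pool.Agent.AbCoc
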