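import Pool.Agent.Lib_MP_418a80_t3.Comp8
import Pool.Agent.Lib_MP_418a80_t3.Comp1V

/-!
# MP_418a80_an, general `M`: the composition theorems

`p : G → V` is a continuous homomorphism, `s` a one-parameter group with `⟪chi0, p (s t)⟫ = t`. All
types `t • chi0` are available in all corners. Then `StepATyp` holds if there are good elements `e` for
the kernel of `⟪chi0, p ·⟫`.
-/

set_option autoImplicit false
set_option linter.unusedVariables false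
set_option linter.unusedSectionVars false

open MeasureTheory Topology Filter
open scoped ENNReal NNReal ComplexConjugate RealInnerProductSpace

namespace Pool.Agent.AbCoc

universe u v w z

private theorem c9_sq2 (a b : ℝ) : (a + b) ^ 2 ≤ 2 * (a ^ 2 + b ^ 2) := by
  nlinarith [sq_nonneg (a - b)]

private theorem c9_sq_le {x : ℝ} (h0 : 0 ≤ x) (h1 : x ≤ 1) : x ^ 2 ≤ x := by
  nlinarith

private theorem c9_rho {ε P m : ℝ} (hε : 0 < ε) (hm : m = min 1 (ε / (P ^ 2 + 1))) :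
    0 < m ∧ (2 * m * P) ^ 2 ≤ 5 * ε := by
  have a1 : m ≤ 1 := by rw [hm]; exact min_le_left _ _
  have a2 : m ≤ ε / (P ^ 2 + 1) := by rw [hm]; exact min_le_right _ _
  have a0 : 0 < m := by rw [hm]; positivity
  rw [le_div_iff₀ (by positivity)] at a2
  have a3 : m ^ 2 ≤ m := c9_sq_le a0.le a1
  have a4 : m ^ 2 * P ^ 2 ≤ m * P ^ 2 := mul_le_mul_of_nonneg_right a3 (sq_nonneg _)
  have e1 : (2 * m * P) ^ 2 = 4 * (m ^ 2 * P ^ 2) := by ring
  have e3 : m * (P ^ 2 + 1) = m * P ^ 2 + m := by ring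
  rw [e3] at a2
  refine ⟨a0, ?_⟩
  rw [e1]
  linarith

private theorem c9_rho2 {ε P m : ℝ} (hε : 0 < ε) (hm : m = min 1 (ε / (16 * (P ^ 2 + 1)))) :
    0 < m ∧ (4 * m * P) ^ 2 ≤ ε := by
  have a1 : m ≤ 1 := by rw [hm]; exact min_le_left _ _
  have a2 : m ≤ ε / (16 * (P ^ 2 + 1)) := by rw [hm]; exact min_le_right _ _
  have a0 : 0 < m := by rw [hm]; positivity
  rw [le_div_iff₀ (by positivity)] at a2
  have a3 : m ^ 2 ≤ m := c9_sq_le a0.le a1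
  have a4 : m ^ 2 * P ^ 2 ≤ m * P ^ 2 := mul_le_mul_of_nonneg_right a3 (sq_nonneg _)
  have e1 : (4 * m * P) ^ 2 = 16 * (m ^ 2 * P ^ 2) := by ring
  have e3 : m * (16 * (P ^ 2 + 1)) = 16 * (m * P ^ 2) + 16 * m := by ring
  rw [e3] at a2
  refine ⟨a0, ?_⟩
  rw [e1]
  linarith

private theorem c9_two {N κ : ℝ} (hN : 0 ≤ N) (hκ : 0 ≤ κ) : N * κ ≤ 2 * N * κ := by
  have := mul_nonneg hN hκ
  linarith

private theorem c9_end {ρ P κ1 ε : ℝ} (k1 : κ1 ≤ 1) (h : (2 * ρ * P) ^ 2 ≤ 5 * ε) :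
    (2 * ρ * P) ^ 2 * (1 + κ1) ≤ 10 * ε := by
  have h1 := mul_le_mul_of_nonneg_left k1 (sq_nonneg (2 * ρ * P))
  have e1 : (2 * ρ * P) ^ 2 * (1 + κ1) = (2 * ρ * P) ^ 2 + (2 * ρ * P) ^ 2 * κ1 := by ring
  rw [e1]
  linarith

private theorem c9_end2 {ρ P κ1 ε : ℝ} (k1 : κ1 ≤ 1) (h : (2 * ρ * P) ^ 2 ≤ ε) :
    (2 * ρ * P) ^ 2 * (1 + κ1) ≤ 2 * ε := by
  have h1 := mul_le_mul_of_nonneg_left k1 (sq_nonneg (2 * ρ * P))
  have e1 : (2 * ρ * P) ^ 2 * (1 + κ1) = (2 * ρ * P) ^ 2 + (2 * ρ * P) ^ 2 * κ1 := by ring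
  rw [e1]
  linarith

/-- `‖ch a - 1‖ ≥ 1 / 2` for `1 ≤ a ≤ 3` -/
theorem norm_ch_sub_one_ge {a : ℝ} (h1 : 1 ≤ a) (h3 : a ≤ 3) : 1 / 2 ≤ ‖ch a - 1‖ := by
  rw [← ch_zero, norm_ch_sub, sub_zero]
  have hpi := Real.pi_gt_three
  have hpi4 := Real.pi_le_four
  have h := Real.mul_le_sin (x := a / 2) (by linarith) (by linarith)
  have h4 : 1 / 4 ≤ 2 / Real.pi * (a / 2) := by
    have e : 2 / Real.pi * (a / 2) = a / Real.pi := by field_simp
    rw [e, le_div_iff₀ Real.pi_pos]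
    linarith
  have h5 : 1 / 4 ≤ Real.sin (a / 2) := h4.trans h
  rw [abs_of_nonneg (by linarith)]
  linarith

variable {A : Type u} [CStarAlgebra A] {K : Type v} [NormedAddCommGroup K]
  [InnerProductSpace ℂ K] [CompleteSpace K]
variable {G : Type w} [Group G] [TopologicalSpace G] [IsTopologicalGroup G]
  {T : TrAlg A K} (S : TrAct G T)
variable {V : Type z} [NormedAddCommGroup V] [InnerProductSpace ℝ V]

/-- an upper bound of a continuous function on a compact set -/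
private theorem c9_bound (f : G → ℝ) (hf : Continuous f) (D : Set G) (hD : IsCompact D) :
    ∃ P : ℝ, 0 ≤ P ∧ ∀ g ∈ D, |f g| ≤ P := by
  obtain ⟨P, hP⟩ := (hD.image (continuous_abs.comp hf)).isBounded.subset_closedBall 0
  refine ⟨max P 0, le_max_right _ _, fun g hg => ?_⟩
  have := hP ⟨g, hg, rfl⟩
  rw [mem_closedBall_zero_iff, Real.norm_eq_abs] at this
  exact ((le_abs_self _).trans this).trans (le_max_left _ _)

section
variable (p : G → V) (hp : Continuous p) (hpm : ∀ g h, p (g * h) = p g + p h) (chi0 : V)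
  (s : ℝ → G) (hs : Continuous s) (hsm : ∀ t u, s (t + u) = s t * s u)
  (hps : ∀ t, ⟪chi0, p (s t)⟫ = t)

include hpm in
private theorem c9_inv (g : G) : p g⁻¹ = -p g := by
  have h1 := hpm 1 1
  rw [mul_one] at h1
  have h2 : p 1 = 0 := by
    have := congrArg (fun x => x - p 1) h1
    simpa using this.symm
  have h3 := hpm g⁻¹ g
  rw [inv_mul_cancel, h2] at h3
  exact eq_neg_of_add_eq_zero_left h3.symm

include hpm hps in
/-- the part in the kernel -/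
private theorem c9_ker (g : G) : ⟪chi0, p ((s ⟪chi0, p g⟫)⁻¹ * g)⟫ = 0 := by
  rw [hpm, c9_inv p hpm, inner_add_right, inner_neg_right, hps]
  ring

include hp hs in
private theorem c9_cont : Continuous fun g : G => (s ⟪chi0, p g⟫)⁻¹ * g :=
  ((hs.comp (continuous_const.inner hp)).inv).mul continuous_id

include hsm in
/-- the displacement of the cells by `g`, from the displacement by the part in the kernel -/
private theorem c9_cells {N M : ℕ} {θ u0 ε : ℝ} {E : ℕ → A}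
    (hprec : ∀ u : ℝ, |u| ≤ u0 → ∑ i ∈ Finset.range N,
        ‖T.ι (S.α (s u) (E i) - ch (θ * ((i : ℝ) - M) * u) • E i)‖ ^ 2 ≤ ε)
    (g : G) (hu : |⟪chi0, p g⟫| ≤ u0) (δ : ℝ)
    (hδ : ∑ i ∈ Finset.range N,
      ‖T.ι (S.α ((s ⟪chi0, p g⟫)⁻¹ * g) (E i) - E i)‖ ^ 2 ≤ δ) :
    ∑ i ∈ Finset.range N,
      ‖T.ι (S.α g (E i) - ch (θ * ((i : ℝ) - M) * ⟪chi0, p g⟫) • E i)‖ ^ 2 ≤ 2 * (δ + ε) := by
  set u : ℝ := ⟪chi0, p g⟫ with hu'
  have e : ∀ i, ‖T.ι (S.α g (E i) - ch (θ * ((i : ℝ) - M) * u) • E i)‖ ^ 2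
      ≤ 2 * (‖T.ι (S.α ((s u)⁻¹ * g) (E i) - E i)‖ ^ 2
        + ‖T.ι (S.α (s u) (E i) - ch (θ * ((i : ℝ) - M) * u) • E i)‖ ^ 2) := by
    intro i
    have e1 : S.α g (E i) - ch (θ * ((i : ℝ) - M) * u) • E i
        = S.α (s u) (S.α ((s u)⁻¹ * g) (E i) - E i)
          + (S.α (s u) (E i) - ch (θ * ((i : ℝ) - M) * u) • E i) := by
      rw [map_sub, ← S.mul, mul_inv_cancel_left]
      abel
    have e2 : ‖T.ι (S.α g (E i) - ch (θ * ((i : ℝ) - M) * u) • E i)‖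
        ≤ ‖T.ι (S.α ((s u)⁻¹ * g) (E i) - E i)‖
          + ‖T.ι (S.α (s u) (E i) - ch (θ * ((i : ℝ) - M) * u) • E i)‖ := by
      conv_lhs => rw [e1, map_add]
      refine (norm_add_le _ _).trans ?_
      rw [S.norm_map]
    exact (pow_le_pow_left₀ (norm_nonneg _) e2 2).trans (c9_sq2 _ _)
  refine (Finset.sum_le_sum fun i _ => e i).trans ?_
  rw [← Finset.mul_sum, Finset.sum_add_distrib]
  have := hprec u hu
  linarith

include hp hpm hs hsm hps in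
/-- **Composition, first form**: `ker ⟪chi0, p ·⟫ = ker p`, good elements from `GoodE`. -/
theorem TrAct.precA_of_goodE {b1 b2 : A} (h1 : S.IsPrj b1) (h2 : S.IsPrj b2)
    (hker : ∀ g, ⟪chi0, p g⟫ = 0 → p g = 0)
    (hF1 : ∀ t ρ η : ℝ, 0 < ρ → 0 < η →
      S.FlatIn (pch p) (Metric.ball (t • chi0) ρ) b1 η (2 / η))
    (hF2 : ∀ t ρ η : ℝ, 0 < ρ → 0 < η →
      S.FlatIn (pch p) (Metric.ball (t • chi0) ρ) b2 η (2 / η))
    (hE : S.GoodE (fun g => ⟪chi0, p g⟫) s b1 b2) : S.PrecA p b1 b2 := by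
  classical
  intro D0 hD0 ε1 hε1
  obtain ⟨c, hc, hE⟩ := hE
  obtain ⟨P, hP0, hP⟩ := c9_bound (fun g => ‖p g‖) hp.norm D0 hD0
  obtain ⟨u0, hu00, hu0⟩ := c9_bound (fun g => ⟪chi0, p g⟫) (continuous_const.inner hp) D0 hD0
  obtain ⟨η, hη⟩ : ∃ η : ℝ, η = c / 12 := ⟨_, rfl⟩
  have hη0 : 0 < η := by rw [hη]; positivity
  obtain ⟨ε, hε⟩ : ∃ ε : ℝ, ε = ε1 * (c / 2) / 100 := ⟨_, rfl⟩
  have hε0 : 0 < ε := by rw [hε]; positivity
  obtain ⟨ρ, hρ0, hρ⟩ : ∃ ρ : ℝ, 0 < ρ ∧ (2 * ρ * P) ^ 2 ≤ 5 * ε := by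
    exact ⟨_, c9_rho hε0 rfl⟩
  obtain ⟨W, hW⟩ := S.exists_core h1 h2 p chi0 s hs hsm η (2 / η) ρ (fun t => hF1 t ρ η hρ0 hη0)
    (fun t => hF2 t ρ η hρ0 hη0) u0 ε hε0
  refine ⟨2 * (2 / η), c / 2, by positivity, fun D hD hDp κ hκ y => ?_⟩
  obtain ⟨κ1, hκ1⟩ : ∃ κ1 : ℝ, κ1 = min (min 1 (κ / 4)) (min ε (c / 4)) := ⟨_, rfl⟩
  have hκ10 : 0 < κ1 := by rw [hκ1]; positivity
  have k1 : κ1 ≤ 1 := by rw [hκ1]; exact (min_le_left _ _).trans (min_le_left _ _)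
  have k2 : κ1 ≤ κ / 4 := by rw [hκ1]; exact (min_le_left _ _).trans (min_le_right _ _)
  have k3 : κ1 ≤ ε := by rw [hκ1]; exact (min_le_right _ _).trans (min_le_left _ _)
  have k4 : κ1 ≤ c / 4 := by rw [hκ1]; exact (min_le_right _ _).trans (min_le_right _ _)
  -- the element `e`
  set D' : Set G := (fun g => (s ⟪chi0, p g⟫)⁻¹ * g) '' D with hD'
  have hD'c : IsCompact D' := hD.image (c9_cont p hp chi0 s hs)
  obtain ⟨e, he1, he2, he, hec, hnear, n, hh, lam, hh0, hlam, hsum, havg⟩ :=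
    hE D' hD'c W κ1 hκ10
  have heι : ‖T.ι e‖ ≤ 1 := (T.norm_le e).trans he
  obtain ⟨N, M, θ, E, J', J, iJ', iJ, x', x, q', q, B, BE, κx, hC⟩ :=
    hW e he1 he2 he (D ∪ Set.range hh) (hD.union (Set.finite_range hh).isCompact) κ1 (‖y‖ ^ 2)
      hκ10 (sq_nonneg _)
  obtain ⟨hN, hκx, hBE, h40, hs1, hs2⟩ := hC.basic (sq_nonneg _)
  have hN0 : (0 : ℝ) < N := by linarith
  have hκ1sq : κ1 ^ 2 ≤ κ1 := c9_sq_le hκ10.le k1
  -- the displacement of the cells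
  have hEd : ∀ g ∈ D, ∑ i ∈ Finset.range N,
      ‖T.ι (S.α g (E i) - ch (θ * ((i : ℝ) - M) * ⟪chi0, p g⟫) • E i)‖ ^ 2 ≤ 2 * (κ1 + ε) := by
    intro g hg
    refine c9_cells S p chi0 s hsm hC.prec g ?_ κ1 ?_
    · obtain ⟨g0, hg0, hgg⟩ := hDp g hg
      rw [hgg]
      exact hu0 g0 hg0
    · have q0 : ∀ t : ℝ, 0 ≤ t → t ≤ W →
          ‖T.ι (((S.α ((s ⟪chi0, p g⟫)⁻¹ * g)).toAlgHom.toLinearMap
            - LinearMap.id : A →ₗ[ℂ] A) (S.α (s t) e))‖ ^ 2 ≤ κ1 ^ 2 := by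
        intro t ht0 ht
        refine pow_le_pow_left₀ (norm_nonneg _) ?_ 2
        change ‖T.ι (S.α ((s ⟪chi0, p g⟫)⁻¹ * g) (S.α (s t) e) - S.α (s t) e)‖ ≤ κ1
        exact hnear _ ⟨g, hg, rfl⟩ (c9_ker p hpm chi0 s hps g) t (by rwa [abs_of_nonneg ht0])
      have q1 := hC.plan ((S.α ((s ⟪chi0, p g⟫)⁻¹ * g)).toAlgHom.toLinearMap - LinearMap.id)
        (κ1 ^ 2) q0
      refine le_trans (Finset.sum_le_sum fun i _ => ?_) (q1.trans hκ1sq)
      exact le_of_eq rfl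
  -- orthogonality to the fixed points
  have hkill : ∑ l ∈ Finset.range N, ∑ i ∈ Finset.range N, ∑ j', ∑ j,
      ‖T.ι (S.E (x' l j' * (E i * x (i + l) j)))‖ ^ 2 ≤ N * κ := by
    have hp0 : ∀ k, p (hh k) = 0 := fun k => hker _ (hh0 k)
    have a1 := hC.data.kill S hC.hB n hh lam hlam hsum (2 * N * κx) (fun k => by
      have b1' : ∀ l ∈ Finset.range N, ∑ j', ‖T.ι (S.α (hh k) (x' l j') - x' l j')‖ ^ 2 ≤ κx := by
        intro l _
        have := hC.near' l (hh k) (Or.inr ⟨k, rfl⟩)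
        simpa only [hp0 k, inner_zero_right, ch_zero, one_smul] using this
      refine (Finset.sum_le_sum b1').trans ?_
      rw [Finset.sum_const, Finset.card_range, nsmul_eq_mul]
      exact c9_two hN0.le hκx) (fun k => by
      have b1' : ∀ m ∈ Finset.range (2 * N), ∑ j, ‖T.ι (S.α (hh k) (x m j) - x m j)‖ ^ 2 ≤ κx := by
        intro m _
        have := hC.near m (hh k) (Or.inr ⟨k, rfl⟩)
        simpa only [hp0 k, inner_zero_right, ch_zero, one_smul] using this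
      refine (Finset.sum_le_sum b1').trans ?_
      rw [Finset.sum_const, Finset.card_range, nsmul_eq_mul]
      push_cast
      exact le_of_eq rfl)
    refine a1.trans ?_
    have a2 : ∑ i ∈ Finset.range N, ‖T.ι (∑ k, (lam k : ℂ) • S.α (hh k) (E i))‖ ^ 2 ≤ κ1 := by
      have b1' := hC.plan (∑ k, (lam k : ℂ) • (S.α (hh k)).toAlgHom.toLinearMap) (κ1 ^ 2)
        (fun t ht0 ht => by
          refine pow_le_pow_left₀ (norm_nonneg _) ?_ 2
          rw [LinearMap.sum_apply]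
          exact havg t (by rwa [abs_of_nonneg ht0]))
      simp only [LinearMap.sum_apply] at b1'
      exact b1'.trans hκ1sq
    have a3 : (N : ℝ) * (κx * (BE * (36 * B + 2))) ≤ κ1 := by
      refine le_trans (mul_le_mul_of_nonneg_left (mul_le_mul_of_nonneg_left
        (mul_le_mul_of_nonneg_left ?_ hBE) hκx) hN0.le) hs1
      linarith
    have a4 := mul_le_mul_of_nonneg_left a2 hN0.le
    have a5 := mul_le_mul_of_nonneg_left a3 hN0.le
    have a6 := mul_le_mul_of_nonneg_left h40 hN0.le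
    have a7 := mul_le_mul_of_nonneg_left k2 hN0.le
    have a8 := mul_nonneg hN0.le hκ10.le
    linarith
  obtain ⟨I, hI, a, ha1, ha2, hmass, hEa, hdisp, hr, hl⟩ := hC.family (sq_nonneg _) h1 h2 heι hρ0.le
    D (Set.subset_union_left) (2 * (κ1 + ε)) P (fun g hg => by
      obtain ⟨g0, hg0, hgg⟩ := hDp g hg
      have := hP g0 hg0
      rw [abs_of_nonneg (norm_nonneg _)] at this
      rwa [hgg]) hEd y le_rfl κ hkill
  refine ⟨I, hI, a, ha1, ha2, ?_, hEa, fun g hg => (hdisp g hg).trans ?_, ?_, ?_⟩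
  · refine le_trans ?_ hmass
    rw [hη]
    linarith
  · have hε100 : 100 * ε = ε1 * (c / 2) := by rw [hε]; ring
    rw [← hε100]
    have e9 := c9_end k1 hρ
    linarith
  · refine hr.trans ?_
    linarith
  · refine hl.trans ?_
    have : 0 ≤ (2 / η) * ‖T.ι y‖ ^ 2 := by positivity
    linarith

include hp hpm hs hsm hps in
/-- **Composition, second form**: a direction `r1` orthogonal to `chi0`, elements `e` of all types on
`ker ⟪chi0, p ·⟫`. -/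
theorem TrAct.precA_of_eigen {b1 b2 : A} (h1 : S.IsPrj b1) (h2 : S.IsPrj b2)
    (r1 : V) (hr1 : ‖r1‖ = 1) (hr0 : ⟪chi0, r1⟫ = 0) (hsurj : ∀ t : ℝ, ∃ h : G, p h = t • r1)
    (hF1 : ∀ t ρ η : ℝ, 0 < ρ → 0 < η →
      S.FlatIn (pch p) (Metric.ball (t • chi0) ρ) b1 η (2 / η))
    (hF2 : ∀ t ρ η : ℝ, 0 < ρ → 0 < η →
      S.FlatIn (pch p) (Metric.ball (t • chi0) ρ) b2 η (2 / η))
    (hE : ∃ c : ℝ, 0 < c ∧ ∀ (r0 : V) (D : Set G), IsCompact D → ∀ κ : ℝ, 0 < κ →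
      ∃ e : A, b1 * e = e ∧ e * b2 = e ∧ ‖e‖ ≤ 1 ∧ c ≤ ‖T.ι e‖ ^ 2 ∧
        ∀ h ∈ D, ⟪chi0, p h⟫ = 0 → ‖T.ι (S.α h e - ch ⟪r0, p h⟫ • e)‖ ≤ κ) :
    S.PrecA p b1 b2 := by
  classical
  intro D0 hD0 ε1 hε1
  obtain ⟨c, hc, hE⟩ := hE
  obtain ⟨P1, hP10, hP1⟩ := c9_bound (fun g => ‖p g‖) hp.norm D0 hD0
  set D0' : Set G := (fun g => (s ⟪chi0, p g⟫)⁻¹ * g) '' D0 with hD0'
  have hD0'c : IsCompact D0' := hD0.image (c9_cont p hp chi0 s hs)
  obtain ⟨P2, hP20, hP2⟩ := c9_bound (fun g => ‖p g‖) hp.norm D0' hD0'c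
  obtain ⟨P, hPdef⟩ : ∃ P : ℝ, P = max P1 P2 := ⟨_, rfl⟩
  have hPP1 : P1 ≤ P := by rw [hPdef]; exact le_max_left _ _
  have hPP2 : P2 ≤ P := by rw [hPdef]; exact le_max_right _ _
  have hP0 : 0 ≤ P := hP10.trans hPP1
  obtain ⟨u0, hu00, hu0⟩ := c9_bound (fun g => ⟪chi0, p g⟫) (continuous_const.inner hp) D0 hD0
  obtain ⟨η, hη⟩ : ∃ η : ℝ, η = c / 12 := ⟨_, rfl⟩
  have hη0 : 0 < η := by rw [hη]; positivity
  obtain ⟨ε, hε⟩ : ∃ ε : ℝ, ε = ε1 * (c / 2) / 100 := ⟨_, rfl⟩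
  have hε0 : 0 < ε := by rw [hε]; positivity
  obtain ⟨ρ, hρ0, hρ⟩ : ∃ ρ : ℝ, 0 < ρ ∧ (4 * ρ * P) ^ 2 ≤ ε := by
    exact ⟨_, c9_rho2 hε0 rfl⟩
  have hρ2 : (2 * ρ * P) ^ 2 ≤ ε := by
    refine le_trans (pow_le_pow_left₀ (by positivity) ?_ 2) hρ
    have : 0 ≤ ρ * P := by positivity
    linarith
  obtain ⟨W, hW⟩ := S.exists_core h1 h2 p chi0 s hs hsm η (2 / η) ρ (fun t => hF1 t ρ η hρ0 hη0)
    (fun t => hF2 t ρ η hρ0 hη0) u0 ε hε0
  obtain ⟨hst, hhst⟩ := hsurj (1 / (2 * ρ))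
  have hst0 : ⟪chi0, p hst⟫ = 0 := by rw [hhst, real_inner_smul_right, hr0, mul_zero]
  have hstn : ‖p hst‖ = 1 / (2 * ρ) := by
    rw [hhst, norm_smul, hr1, mul_one, Real.norm_eq_abs, abs_of_pos (by positivity)]
  obtain ⟨r0, hr0def⟩ : ∃ r0 : V, r0 = (4 * ρ) • r1 := ⟨_, rfl⟩
  have hr0n : ‖r0‖ = 4 * ρ := by
    rw [hr0def, norm_smul, hr1, mul_one, Real.norm_eq_abs, abs_of_pos (by positivity)]
  have hr0st : ⟪r0, p hst⟫ = 2 := by
    rw [hr0def, hhst, real_inner_smul_left, real_inner_smul_right, real_inner_self_eq_norm_sq, hr1]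
    field_simp
    norm_num
  refine ⟨2 * (2 / η), c / 2, by positivity, fun D hD hDp κ hκ y => ?_⟩
  obtain ⟨κ1, hκ1⟩ : ∃ κ1 : ℝ, κ1 = min (min 1 (κ / 28)) (min ε (c / 4)) := ⟨_, rfl⟩
  have hκ10 : 0 < κ1 := by rw [hκ1]; positivity
  have k1 : κ1 ≤ 1 := by rw [hκ1]; exact (min_le_left _ _).trans (min_le_left _ _)
  have k2 : κ1 ≤ κ / 28 := by rw [hκ1]; exact (min_le_left _ _).trans (min_le_right _ _)
  have k3 : κ1 ≤ ε := by rw [hκ1]; exact (min_le_right _ _).trans (min_le_left _ _)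
  have k4 : κ1 ≤ c / 4 := by rw [hκ1]; exact (min_le_right _ _).trans (min_le_right _ _)
  -- the element `e`, on the conjugates of the kernel parts
  set Z : G × ℝ → G := fun x => (s x.2)⁻¹ * x.1 * s x.2 with hZ
  have hZc : Continuous Z :=
    (((hs.comp continuous_snd).inv).mul continuous_fst).mul (hs.comp continuous_snd)
  set D' : Set G := ((fun g => (s ⟪chi0, p g⟫)⁻¹ * g) '' D) ∪ {hst} with hD'
  have hD'c : IsCompact D' := (hD.image (c9_cont p hp chi0 s hs)).union isCompact_singleton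
  set D'' : Set G := Z '' (D' ×ˢ Set.Icc 0 W) with hD''
  have hD''c : IsCompact D'' := (hD'c.prod isCompact_Icc).image hZc
  obtain ⟨e, he1, he2, he, hec, hnear0⟩ := hE r0 D'' hD''c κ1 hκ10
  have heι : ‖T.ι e‖ ≤ 1 := (T.norm_le e).trans he
  have hZp : ∀ h t, p ((s t)⁻¹ * h * s t) = p h := by
    intro h t
    rw [hpm, hpm, c9_inv p hpm]
    abel
  have hnear : ∀ h ∈ D', ⟪chi0, p h⟫ = 0 → ∀ t : ℝ, 0 ≤ t → t ≤ W →
      ‖T.ι (S.α h (S.α (s t) e) - ch ⟪r0, p h⟫ • S.α (s t) e)‖ ≤ κ1 := by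
    intro h hh hh0 t ht0 ht
    have a1 := hnear0 ((s t)⁻¹ * h * s t) ⟨(h, t), ⟨hh, ht0, ht⟩, rfl⟩ (by rw [hZp, hh0])
    rw [hZp] at a1
    have a2 : S.α h (S.α (s t) e) - ch ⟪r0, p h⟫ • S.α (s t) e
        = S.α (s t) (S.α ((s t)⁻¹ * h * s t) e - ch ⟪r0, p h⟫ • e) := by
      rw [map_sub, map_smul, ← S.mul, ← S.mul]
      congr 3
      group
    rw [a2, S.norm_map]
    exact a1
  obtain ⟨N, M, θ, E, J', J, iJ', iJ, x', x, q', q, B, BE, κx, hC⟩ :=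
    hW e he1 he2 he (D ∪ {hst}) (hD.union isCompact_singleton) κ1 (‖y‖ ^ 2) hκ10 (sq_nonneg _)
  obtain ⟨hN, hκx, hBE, h40, hs1, hs2⟩ := hC.basic (sq_nonneg _)
  have hN0 : (0 : ℝ) < N := by linarith
  have hκ1sq : κ1 ^ 2 ≤ κ1 := c9_sq_le hκ10.le k1
  have hphi : ∀ h ∈ D', ⟪chi0, p h⟫ = 0 → ∑ i ∈ Finset.range N,
      ‖T.ι (S.α h (E i) - ch ⟪r0, p h⟫ • E i)‖ ^ 2 ≤ κ1 := by
    intro h hh hh0
    have q0 : ∀ t : ℝ, 0 ≤ t → t ≤ W → ‖T.ι (((S.α h).toAlgHom.toLinearMap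
        - ch ⟪r0, p h⟫ • LinearMap.id : A →ₗ[ℂ] A) (S.α (s t) e))‖ ^ 2 ≤ κ1 ^ 2 := by
      intro t ht0 ht
      refine pow_le_pow_left₀ (norm_nonneg _) ?_ 2
      change ‖T.ι (S.α h (S.α (s t) e) - ch ⟪r0, p h⟫ • S.α (s t) e)‖ ≤ κ1
      exact hnear h hh hh0 t ht0 ht
    have q1 := hC.plan ((S.α h).toAlgHom.toLinearMap - ch ⟪r0, p h⟫ • LinearMap.id) (κ1 ^ 2) q0
    refine le_trans (Finset.sum_le_sum fun i _ => ?_) (q1.trans hκ1sq)
    exact le_of_eq rfl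
  -- the displacement of the cells
  have hEd : ∀ g ∈ D, ∑ i ∈ Finset.range N,
      ‖T.ι (S.α g (E i) - ch (θ * ((i : ℝ) - M) * ⟪chi0, p g⟫) • E i)‖ ^ 2
        ≤ 2 * (2 * (κ1 + ε) + ε) := by
    intro g hg
    obtain ⟨g0, hg0, hgg⟩ := hDp g hg
    refine c9_cells S p chi0 s hsm hC.prec g ?_ (2 * (κ1 + ε)) ?_
    · rw [hgg]
      exact hu0 g0 hg0
    · set h : G := (s ⟪chi0, p g⟫)⁻¹ * g with hh
      have hk := hphi h (Or.inl ⟨g, hg, rfl⟩) (c9_ker p hpm chi0 s hps g)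
      have hpn : ‖p h‖ ≤ P := by
        have a1 : p h = p ((s ⟪chi0, p g0⟫)⁻¹ * g0) := by
          rw [hh, hpm, hpm, hgg]
        rw [a1]
        have := hP2 _ ⟨g0, hg0, rfl⟩
        rw [abs_of_nonneg (norm_nonneg _)] at this
        exact this.trans hPP2
      have hph : ‖ch ⟪r0, p h⟫ - 1‖ ≤ 4 * ρ * P := by
        rw [← ch_zero]
        refine (norm_ch_sub_le _ _).trans ?_
        rw [sub_zero]
        refine (abs_real_inner_le_norm _ _).trans ?_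
        rw [hr0n]
        exact mul_le_mul_of_nonneg_left hpn (by positivity)
      have ee : ∀ i, ‖T.ι (S.α h (E i) - E i)‖ ^ 2
          ≤ 2 * (‖T.ι (S.α h (E i) - ch ⟪r0, p h⟫ • E i)‖ ^ 2
            + (4 * ρ * P) ^ 2 * ‖T.ι (E i)‖ ^ 2) := by
        intro i
        have e1 : S.α h (E i) - E i = (S.α h (E i) - ch ⟪r0, p h⟫ • E i)
            + (ch ⟪r0, p h⟫ - 1) • E i := by
          rw [sub_smul, one_smul]
          abel
        have e2 : ‖T.ι (S.α h (E i) - E i)‖ ≤ ‖T.ι (S.α h (E i) - ch ⟪r0, p h⟫ • E i)‖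
            + 4 * ρ * P * ‖T.ι (E i)‖ := by
          conv_lhs => rw [e1, map_add]
          refine (norm_add_le _ _).trans (add_le_add le_rfl ?_)
          rw [map_smul, norm_smul]
          exact mul_le_mul_of_nonneg_right hph (norm_nonneg _)
        refine (pow_le_pow_left₀ (norm_nonneg _) e2 2).trans ((c9_sq2 _ _).trans (le_of_eq ?_))
        rw [mul_pow _ ‖T.ι (E i)‖]
      refine (Finset.sum_le_sum fun i _ => ee i).trans ?_
      rw [← Finset.mul_sum, Finset.sum_add_distrib, ← Finset.mul_sum, hC.mass]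
      have m1 : ‖T.ι e‖ ^ 2 ≤ 1 := pow_le_one₀ (norm_nonneg _) heι
      have m2 : (4 * ρ * P) ^ 2 * ‖T.ι e‖ ^ 2 ≤ ε :=
        (mul_le_of_le_one_right (sq_nonneg _) m1).trans hρ
      linarith
  -- orthogonality to the fixed points
  have hkill : ∑ l ∈ Finset.range N, ∑ i ∈ Finset.range N, ∑ j', ∑ j,
      ‖T.ι (S.E (x' l j' * (E i * x (i + l) j)))‖ ^ 2 ≤ N * κ := by
    have a1 := hC.disp (sq_nonneg _) hst (Or.inr rfl) (fun _ => ch ⟪r0, p hst⟫)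
      (fun _ => (norm_ch _).le) κ1 (hphi hst (Or.inr rfl) hst0)
    have key : ∀ (l i : ℕ) (j' : J' l) (j : J (i + l)),
        ‖T.ι (S.E (x' l j' * (E i * x (i + l) j)))‖ ^ 2
        ≤ 4 * ‖T.ι (S.α hst (x' l j' * (E i * x (i + l) j))
          - (ch ⟪q' l j', p hst⟫ * ch ⟪r0, p hst⟫ * ch ⟪q (i + l) j, p hst⟫)
            • (x' l j' * (E i * x (i + l) j)))‖ ^ 2 := by
      intro l i j' j
      set Y : A := x' l j' * (E i * x (i + l) j) with hY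
      have e1 : ch ⟪q' l j', p hst⟫ * ch ⟪r0, p hst⟫ * ch ⟪q (i + l) j, p hst⟫
          = ch (⟪q' l j' - (θ * l) • chi0, p hst⟫ + 2
            + ⟪q (i + l) j - (θ * ((M : ℝ) - (i + l : ℕ))) • chi0, p hst⟫) := by
        rw [← ch_add, ← ch_add, hr0st, inner_sub_left, inner_sub_left, real_inner_smul_left,
          real_inner_smul_left, hst0]
        congr 1
        ring
      have b1' := (abs_real_inner_le_norm (q' l j' - (θ * l) • chi0) (p hst)).trans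
        (mul_le_mul (hC.lab' l j') (le_of_eq hstn) (norm_nonneg _) hρ0.le)
      have b2' := (abs_real_inner_le_norm (q (i + l) j - (θ * ((M : ℝ) - (i + l : ℕ))) • chi0)
        (p hst)).trans (mul_le_mul (hC.lab (i + l) j) (le_of_eq hstn) (norm_nonneg _) hρ0.le)
      have b3 : ρ * (1 / (2 * ρ)) = 1 / 2 := by field_simp
      rw [b3] at b1' b2'
      have b4 := abs_le.1 b1'
      have b5 := abs_le.1 b2'
      have hge : 1 / 2 ≤ ‖ch ⟪q' l j', p hst⟫ * ch ⟪r0, p hst⟫ * ch ⟪q (i + l) j, p hst⟫ - 1‖ := by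
        rw [e1]
        exact norm_ch_sub_one_ge (by linarith [b4.1, b5.1]) (by linarith [b4.2, b5.2])
      set Φ : ℂ := ch ⟪q' l j', p hst⟫ * ch ⟪r0, p hst⟫ * ch ⟪q (i + l) j, p hst⟫ with hΦ
      have e2 : (1 - Φ) • S.E Y = S.E (S.α hst Y - Φ • Y) := by
        rw [S.E_sub, S.E_α, S.E_smul, sub_smul, one_smul]
      have e3 : ‖T.ι (S.E Y)‖ ≤ 2 * ‖T.ι (S.α hst Y - Φ • Y)‖ := by
        have c1 := S.norm_E_le (S.α hst Y - Φ • Y)
        rw [← e2, map_smul, norm_smul, norm_sub_rev] at c1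
        have c2 := mul_le_mul_of_nonneg_right hge (norm_nonneg (T.ι (S.E Y)))
        linarith
      have e4 := pow_le_pow_left₀ (norm_nonneg _) e3 2
      rw [mul_pow] at e4
      linarith
    refine (Finset.sum_le_sum fun l _ => Finset.sum_le_sum fun i _ => Finset.sum_le_sum fun j' _ =>
      Finset.sum_le_sum fun j _ => key l i j' j).trans ?_
    simp only [← Finset.mul_sum]
    have a7 := mul_le_mul_of_nonneg_left k2 hN0.le
    have a8 := mul_nonneg hN0.le hκ10.le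
    linarith
  obtain ⟨I, hI, a, ha1, ha2, hmass, hEa, hdisp, hr, hl⟩ := hC.family (sq_nonneg _) h1 h2 heι hρ0.le
    D (Set.subset_union_left) (2 * (2 * (κ1 + ε) + ε)) P (fun g hg => by
      obtain ⟨g0, hg0, hgg⟩ := hDp g hg
      have := hP1 g0 hg0
      rw [abs_of_nonneg (norm_nonneg _)] at this
      rw [hgg]
      exact this.trans hPP1) hEd y le_rfl κ hkill
  refine ⟨I, hI, a, ha1, ha2, ?_, hEa, fun g hg => (hdisp g hg).trans ?_, ?_, ?_⟩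
  · refine le_trans ?_ hmass
    rw [hη]
    linarith
  · have hε100 : 100 * ε = ε1 * (c / 2) := by rw [hε]; ring
    rw [← hε100]
    have e9 := c9_end2 k1 hρ2
    linarith
  · refine hr.trans ?_
    linarith
  · refine hl.trans ?_
    have : 0 ≤ (2 / η) * ‖T.ι y‖ ^ 2 := by positivity
    linarith

end

end Pool.Agent.AbCoc
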