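import Pool.Agent.Lib_MP_418a80_nm.NSO3
import Pool.Agent.Lib_MP_418a80_nm.Comm

/-!
# The contraction step

`j : N → G` a continuous homomorphism such that every compact subset `D` of `G` can be conjugated by
elements `j z` arbitrarily close to a compact subset of `j N`.  Then the fixed point algebras of `N`
and of `G` agree, and `StepATyp` for `N` implies `StepATyp` for `G`.
-/

set_option autoImplicit false
set_option linter.unusedSectionVars false

open MeasureTheory Topology Filter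
open scoped ENNReal Pointwise

namespace Pool.Agent.AbCoc

universe u v w x z

/-- every compact set can be conjugated by `j z` arbitrarily close to a compact subset of `j N` -/
def Contracts {G : Type w} [Group G] [TopologicalSpace G] {N : Type z} [Group N]
    [TopologicalSpace N] (j : N →* G) : Prop :=
  ∀ D : Set G, IsCompact D → ∃ C : Set N, IsCompact C ∧ ∀ V ∈ 𝓝 (1 : G), ∃ z : N, ∀ s ∈ D,
    ∃ c ∈ C, ∃ v ∈ V, (j z)⁻¹ * s * j z = j c * v

section
variable {A : Type u} [CStarAlgebra A] {K : Type v} [NormedAddCommGroup K]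
  [InnerProductSpace ℂ K] [CompleteSpace K]
variable {G : Type w} [Group G] [TopologicalSpace G] {T : TrAlg A K} (S : TrAct G T)
variable {N : Type z} [Group N] [TopologicalSpace N] (j : N →* G) (hj : Continuous j)

/-- the conjugation formula -/
theorem TrAct.conj_norm (g z : G) (a : A) :
    ‖T.ι (S.α g (S.α z a) - S.α z a)‖ = ‖T.ι (S.α (z⁻¹ * g * z) a - a)‖ := by
  have e : S.α g (S.α z a) - S.α z a = S.α z (S.α (z⁻¹ * g * z) a - a) := by
    rw [map_sub (S.α z), ← S.mul, ← S.mul]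
    congr 3
    group
  rw [e, S.norm_map]

theorem TrAct.near_mul (c v : G) (a : A) :
    ‖T.ι (S.α (c * v) a - a)‖ ≤ ‖T.ι (S.α v a - a)‖ + ‖T.ι (S.α c a - a)‖ := by
  have e : T.ι (S.α (c * v) a - a) = T.ι (S.α c (S.α v a - a)) + T.ι (S.α c a - a) := by
    rw [← map_add, map_sub (S.α c), ← S.mul]
    congr 1
    abel
  rw [e]
  refine (norm_add_le _ _).trans ?_
  rw [S.norm_map]

theorem TrAct.nhds_near [IsTopologicalGroup G] (a : A) (ε : ℝ) (hε : 0 < ε) :
    {v : G | ‖T.ι (S.α v a - a)‖ < ε} ∈ 𝓝 (1 : G) := by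
  have h := (S.cont a).tendsto 1
  rw [S.one] at h
  have h2 := h (Metric.ball_mem_nhds (T.ι a) hε)
  refine Filter.mem_of_superset h2 ?_
  intro v hv
  change ‖T.ι (S.α v a - a)‖ < ε
  have hv' : dist (T.ι (S.α v a)) (T.ι a) < ε := hv
  rwa [dist_eq_norm, ← map_sub] at hv'

/-- the fixed point algebras agree -/
theorem TrAct.fixed_of_contracts [IsTopologicalGroup G] (hc : Contracts j) {a : A}
    (ha : (S.cm j hj).Fixed a) : S.Fixed a := by
  intro g
  obtain ⟨C, hC, h⟩ := hc {g} isCompact_singleton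
  have h1 : ∀ ε : ℝ, 0 < ε → ‖T.ι (S.α g a - a)‖ < ε := by
    intro ε hε
    obtain ⟨z, hz⟩ := h _ (S.nhds_near a ε hε)
    obtain ⟨c, -, v, hv, e⟩ := hz g rfl
    have e1 : S.α (j z) a = a := ha z
    have e2 : S.α (j c) a = a := ha c
    have h2 := S.conj_norm g (j z) a
    rw [e1, e] at h2
    rw [h2]
    refine (S.near_mul _ _ _).trans_lt ?_
    rw [e2, sub_self, map_zero, norm_zero, add_zero]
    exact hv
  have h2 : ‖T.ι (S.α g a - a)‖ = 0 := by
    by_contra hne
    have h3 := h1 _ (lt_of_le_of_ne (norm_nonneg _) (Ne.symm hne))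
    exact lt_irrefl _ h3
  have h3 : T.ι (S.α g a - a) = T.ι 0 := by rw [map_zero]; exact norm_eq_zero.1 h2
  exact sub_eq_zero.1 (T.inj h3)

theorem TrAct.E_cm_of_contracts [IsTopologicalGroup G] (hc : Contracts j) (a : A) :
    (S.cm j hj).E a = S.E a := by
  refine S.eq_E_of a _ (S.fixed_of_contracts j hj hc ((S.cm j hj).E_fixed a)) ?_
  intro p hp
  exact (S.cm j hj).inner_E a _ ((S.cm j hj).fixedVec_of_fixed (S.cm_fixed j hj hp))

theorem TrAct.inner_conj (z : G) (w x : A) :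
    inner ℂ (T.ι (S.α z w)) (T.ι x) = inner ℂ (T.ι w) (T.ι (S.α z⁻¹ x)) := by
  rw [← S.inner_map z w (S.α z⁻¹ x), S.apply_inv]

/-- the contraction step -/
theorem TrAct.stepATyp_of_contracts [IsTopologicalGroup G] [FirstCountableTopology G]
    (hc : Contracts j) (h : (S.cm j hj).StepATyp) : S.StepATyp := by
  intro b1 b2 hf1 hf2 hs1 hs2 hn1 hn2 D hD κ hκ Y _ y
  obtain ⟨C, hC, hcon⟩ := hc D hD
  obtain ⟨V, hV⟩ := (𝓝 (1 : G)).exists_antitone_basis
  choose z hz using fun n => hcon (V n) (hV.1.mem_of_mem trivial)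
  -- weak limits of the test elements
  choose y' hy' using fun k : Y => T.exists_weak (Filter.hyperfilter ℕ)
    (fun n => S.α (j (z n))⁻¹ (y k)) ‖y k‖ (fun n => S.norm_le _ _)
  have hle : ((Filter.hyperfilter ℕ : Ultrafilter ℕ) : Filter ℕ) ≤ atTop := by
    rw [← Nat.cofinite_eq_atTop]
    exact Filter.hyperfilter_le_cofinite
  have hE : ∀ k, S.E (y k) = S.E (y' k) := by
    intro k
    refine S.eq_E_of _ _ (S.E_fixed _) ?_
    intro p hp
    rw [S.inner_E _ _ (S.fixedVec_of_fixed hp)]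
    have h1 := hy' k (star p)
    rw [← T.inner_eq_τ] at h1
    have h2 : ∀ n, T.τ (star p * S.α (j (z n))⁻¹ (y k)) = inner ℂ (T.ι p) (T.ι (y k)) := by
      intro n
      rw [← T.inner_eq_τ, ← S.inner_conj, hp]
    simp only [h2] at h1
    exact tendsto_nhds_unique tendsto_const_nhds h1
  obtain ⟨J, hJ, a, x, hax, hm, hEa, hnear, htest⟩ := h b1 b2 (S.cm_fixed j hj hf1)
    (S.cm_fixed j hj hf2) hs1 hs2 hn1 hn2 C hC (κ / 4) (by positivity) Y y'
  set w : A := ∑ i, (star (a i) * a i + a i * star (a i)) with hw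
  -- smallness of the neighbourhood
  have hV1 : ∀ᶠ n in atTop, ∀ v ∈ V n, ∑ i, ‖T.ι (S.α v (a i) - a i)‖ ^ 2 < κ / 4 := by
    have hcont : Tendsto (fun v => ∑ i, ‖T.ι (S.α v (a i) - a i)‖ ^ 2) (𝓝 (1 : G)) (𝓝 0) := by
      have h1 : Continuous fun v => ∑ i, ‖T.ι (S.α v (a i) - a i)‖ ^ 2 := by
        refine continuous_finsetSum _ fun i _ => ?_
        simp only [map_sub]
        exact (((S.cont (a i)).sub continuous_const).norm).pow 2
      have h2 := h1.tendsto 1
      simpa [S.one] using h2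
    have h1 : {v : G | ∑ i, ‖T.ι (S.α v (a i) - a i)‖ ^ 2 < κ / 4} ∈ 𝓝 (1 : G) :=
      hcont (Iio_mem_nhds (by positivity))
    obtain ⟨n0, -, hn0⟩ := hV.1.mem_iff.1 h1
    filter_upwards [eventually_ge_atTop n0] with n hn v hv
    exact hn0 (hV.2 hn hv)
  have hT : ∀ᶠ n in (Filter.hyperfilter ℕ : Filter ℕ), ∀ k,
      ‖T.τ (star w * S.α (j (z n))⁻¹ (y k)) - T.τ (star w * y' k)‖ < κ / 4 := by
    rw [Filter.eventually_all]
    intro k
    have h1 := hy' k (star w)
    rw [Metric.tendsto_nhds] at h1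
    filter_upwards [h1 (κ / 4) (by positivity)] with n hn
    rwa [dist_eq_norm] at hn
  have hV2 : ∀ᶠ n in (Filter.hyperfilter ℕ : Filter ℕ), ∀ v ∈ V n,
      ∑ i, ‖T.ι (S.α v (a i) - a i)‖ ^ 2 < κ / 4 := hV1.filter_mono hle
  obtain ⟨n, hn1', hn2'⟩ := (hV2.and hT).exists
  refine ⟨J, hJ, fun i => S.α (j (z n)) (a i), fun i => S.α (j (z n)) (x i), ?_, ?_, ?_, ?_, ?_⟩
  · intro i
    change S.α (j (z n)) (a i) = b1 * S.α (j (z n)) (x i) * b2
    rw [hax i, map_mul, map_mul, hf1, hf2]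
  · simpa only [S.norm_map] using hm
  · have h1 : ∀ i, S.E (S.α (j (z n)) (a i)) = (S.cm j hj).E (a i) := fun i => by
      rw [S.E_α, S.E_cm_of_contracts j hj hc]
    simp only [h1]
    linarith
  · intro s hs
    obtain ⟨c, hcC, v, hv, e⟩ := hz n s hs
    have h1 := hnear c hcC
    have h2 := hn1' v hv
    have h3 : ∀ i, ‖T.ι (S.α s (S.α (j (z n)) (a i)) - S.α (j (z n)) (a i))‖ ^ 2
        ≤ 2 * ‖T.ι (S.α v (a i) - a i)‖ ^ 2 + 2 * ‖T.ι ((S.cm j hj).α c (a i) - a i)‖ ^ 2 := by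
      intro i
      rw [S.conj_norm, e]
      have h4 := S.near_mul (j c) v (a i)
      have h5 := norm_nonneg (T.ι (S.α (j c * v) (a i) - a i))
      have h6 : ‖T.ι (S.α (j c * v) (a i) - a i)‖ ^ 2
          ≤ (‖T.ι (S.α v (a i) - a i)‖ + ‖T.ι (S.α (j c) (a i) - a i)‖) ^ 2 :=
        pow_le_pow_left₀ h5 h4 2
      have h7 := sq_nonneg (‖T.ι (S.α v (a i) - a i)‖ - ‖T.ι (S.α (j c) (a i) - a i)‖)
      rw [S.cm_α]
      nlinarith
    have h4 := Finset.sum_le_sum fun i (_ : i ∈ Finset.univ) => h3 i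
    rw [Finset.sum_add_distrib, ← Finset.mul_sum, ← Finset.mul_sum] at h4
    linarith
  · intro k
    have h1 := htest k
    have h2 := hn2' k
    have e1 : ∀ u : A, ∑ i, inner ℂ (T.ι (star (a i) * a i + a i * star (a i))) (T.ι u)
        = T.τ (star w * u) := by
      intro u
      rw [← sum_inner, ← map_sum, ← hw, T.inner_eq_τ]
    have e2 : ∑ i, inner ℂ (T.ι (star (S.α (j (z n)) (a i)) * S.α (j (z n)) (a i)
        + S.α (j (z n)) (a i) * star (S.α (j (z n)) (a i)))) (T.ι (y k - S.E (y k)))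
        = T.τ (star w * S.α (j (z n))⁻¹ (y k)) - T.τ (star w * S.E (y k)) := by
      have h3 : ∀ i, inner ℂ (T.ι (star (S.α (j (z n)) (a i)) * S.α (j (z n)) (a i)
          + S.α (j (z n)) (a i) * star (S.α (j (z n)) (a i)))) (T.ι (y k - S.E (y k)))
          = inner ℂ (T.ι (star (a i) * a i + a i * star (a i)))
            (T.ι (S.α (j (z n))⁻¹ (y k) - S.E (y k))) := by
        intro i
        rw [← map_star, ← map_mul, ← map_mul, ← map_add, S.inner_conj, map_sub (S.α _),
          S.E_fixed (y k)]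
      simp only [h3]
      rw [e1, mul_sub, T.τ_sub]
    rw [e1, S.E_cm_of_contracts j hj hc, ← hE k, mul_sub, T.τ_sub] at h1
    rw [e2]
    have h3 : T.τ (star w * S.α (j (z n))⁻¹ (y k)) - T.τ (star w * S.E (y k))
        = (T.τ (star w * S.α (j (z n))⁻¹ (y k)) - T.τ (star w * y' k))
          + (T.τ (star w * y' k) - T.τ (star w * S.E (y k))) := by ring
    rw [h3]
    refine (norm_add_le _ _).trans ?_
    linarith

end

end Pool.Agent.AbCoc
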