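import Pool.Agent.Lib_MP_418a80_t3.KeyDom
import Pool.Agent.Lib_MP_418a80_t3.Contr
import Pool.Agent.Lib_MP_418a80_t3.T3Class

/-!
# The contraction step for `KeyAll`
-/

set_option autoImplicit false
set_option linter.unusedVariables false
set_option linter.unusedSectionVars false

open MeasureTheory Topology Filter TopologicalSpace
open scoped ENNReal

namespace Pool.Agent.AbCoc

universe u v w z

section
variable {A : Type u} [CStarAlgebra A] {K : Type v} [NormedAddCommGroup K]
  [InnerProductSpace ℂ K] [CompleteSpace K]
variable {G : Type w} [Group G] [TopologicalSpace G] [IsTopologicalGroup G] [T2Space G]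
  [SecondCountableTopology G] [LocallyCompactSpace G] [MeasurableSpace G] [BorelSpace G]
  (μ : Measure G) [μ.IsHaarMeasure] {T : TrAlg A K} (S : TrAct G T)
variable {H : Type z} [Group H] [TopologicalSpace H] [IsTopologicalGroup H] [T2Space H]
  [SecondCountableTopology H] [LocallyCompactSpace H]
  (j : H →* G) (hj : Continuous j)

include μ in
/-- `KeyAll H` gives `StepADom` for the strictly outer actions of `G` restricted to `H` -/
theorem KeyAll.stepADom_cm (hH : KeyAll.{u, v, z} H) (hj' : IsClosedEmbedding j) (hR : Reiter μ)
    (hSO : S.SO μ Set.univ) : (S.cm j hj).StepADom := by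
  let _ := CStarAlgebra.spectralOrder A
  have := CStarAlgebra.spectralOrderedRing A
  exact (S.cm j hj).stepADom_of_key_amp (hH.key_cm μ S j hj hj' hR hSO)
    (hH.key_amp μ S j hj hj' hR hSO 2)

end

section
variable {G : Type w} [Group G] [TopologicalSpace G] [IsTopologicalGroup G] [T2Space G]
  [SecondCountableTopology G] [LocallyCompactSpace G]
variable {H : Type z} [Group H] [TopologicalSpace H] [IsTopologicalGroup H] [T2Space H]
  [SecondCountableTopology H] [LocallyCompactSpace H]

/-- **the contraction step**: if `G` contracts to the closed subgroup `j H` and `KeyAll H` then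
`KeyAll G` -/
theorem keyAll_of_contracts (j : H →* G) (hj' : IsClosedEmbedding j) (hc : Contracts j)
    (hH : KeyAll.{u, v, z} H) : KeyAll.{u, v, w} G := by
  refine keyAll_of_stepATyp fun ν _ hR A _ K _ _ _ T S hSO => ?_
  exact S.stepATyp_of_contracts j hj'.continuous hc
    (TrAct.StepADom.typ _ (hH.stepADom_cm ν S j hj'.continuous hj' hR hSO))

end

end Pool.Agent.AbCoc
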