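import Pool.Agent.Lib_MP_418a80_un.UF5

/-!
# `StepATyp` for groups with a compact open subgroup

The case `V = 0` of `stepATyp_of_qmap`: the term `‖E a‖²` is absorbed by averaging over finitely many
cosets instead of using a character.
-/

set_option autoImplicit false
set_option linter.unusedVariables false
set_option linter.unusedSectionVars false

open MeasureTheory Topology Filter
open scoped ENNReal NNReal ComplexConjugate Pointwise

namespace Pool.Agent.AbCoc

universe u v w z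

section
variable {A : Type u} [CStarAlgebra A] {K : Type v} [NormedAddCommGroup K]
  [InnerProductSpace ℂ K] [CompleteSpace K]
variable {G : Type w} [Group G] [TopologicalSpace G] {T : TrAlg A K} (S : TrAct G T)
  {V : Type z} [NormedAddCommGroup V] [NormedSpace ℝ V] (Q : QMap G V)

/-- the square of the norm of a sum of translates -/
theorem TrAct.norm_sum_translates (N : ℕ) (h : Fin N → G) (a : A) :
    ‖T.ι (∑ k, S.α (h k) a)‖ ^ 2 = ∑ i, ∑ k, S.ql ((h i)⁻¹ * h k) 1 a := by
  have h1 : (‖T.ι (∑ k, S.α (h k) a)‖ ^ 2 : ℝ)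
      = (inner ℂ (T.ι (∑ k, S.α (h k) a)) (T.ι (∑ k, S.α (h k) a))).re := by
    rw [inner_self_eq_norm_sq_to_K]
    norm_cast
  rw [h1, map_sum, sum_inner, Complex.re_sum]
  refine Finset.sum_congr rfl fun i _ => ?_
  rw [inner_sum, Complex.re_sum]
  refine Finset.sum_congr rfl fun k _ => ?_
  unfold TrAct.ql
  rw [one_mul, S.mul, ← S.inner_map (h i) a (S.α (h i)⁻¹ (S.α (h k) a)), S.apply_inv]

/-- A4 for `V = 0` -/
theorem TrAct.ineqB_of_ineqA_zero [Subsingleton V]
    (hsep : ∀ N : ℕ, ∃ h : Fin N → G, ∀ i k, i ≠ k → (h i)⁻¹ * h k ∉ Q.U) (b1 b2 : A) (δ : ℝ)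
    (h : S.IneqA Q b1 b2 δ) : S.IneqB Q b1 b2 δ := by
  classical
  obtain ⟨C, R, n, g, m, m', d, hC, hgU, hd, hmain⟩ := h
  obtain ⟨N, hN⟩ := exists_nat_gt (8 * C)
  have hN0 : (0 : ℝ) < N := by linarith
  obtain ⟨hh, hhU⟩ := hsep N
  set P : Type := {p : Fin N × Fin N // p.1 ≠ p.2} with hP
  set e := Fintype.equivFin (Fin n ⊕ P) with he
  set c : ℝ := C / N ^ 2 with hc
  refine ⟨C, R, 0, Fintype.card (Fin n ⊕ P),
    fun j => Sum.elim g (fun p : P => (hh p.1.1)⁻¹ * hh p.1.2) (e.symm j),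
    fun j => Sum.elim m (fun _ : P => (c : ℂ) • (1 : A)) (e.symm j),
    fun j => Sum.elim m' (fun _ : P => (0 : A)) (e.symm j), d, d, hC, ?_, hd, hd, ?_⟩
  · intro j
    constructor
    · change Sum.elim g (fun p : P => (hh p.1.1)⁻¹ * hh p.1.2) (e.symm j) ∉ Q.U
      rcases e.symm j with i | p
      · exact hgU i
      · exact hhU _ _ p.2
    · intro u _ _
      exact Subsingleton.elim _ _
  · intro x a κ hax hκ hnear
    have h1 := hmain x a κ hax hκ (by
      intro l hl hlR
      have h2 := hnear l hl hlR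
      have h3 : chi (0 : V →L[ℝ] ℝ) (Q.q l) = 1 := by
        unfold chi
        simp
      rwa [h3, one_smul] at h2)
    -- the term `E a`
    have hEn : (N : ℝ) ^ 2 * ‖T.ι (S.E a)‖ ^ 2 ≤ N * ‖T.ι a‖ ^ 2
        + ∑ p : P, S.ql ((hh p.1.1)⁻¹ * hh p.1.2) 1 a := by
      have h2 : S.E (∑ k, S.α (hh k) a) = (N : ℂ) • S.E a := by
        rw [S.E_sum]
        simp only [S.E_α]
        rw [Finset.sum_const, Finset.card_univ, Fintype.card_fin, ← Nat.cast_smul_eq_nsmul ℂ]
      have h3 := S.norm_E_le (∑ k, S.α (hh k) a)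
      rw [h2, map_smul, norm_smul, Complex.norm_natCast] at h3
      have h4 : ((N : ℝ) * ‖T.ι (S.E a)‖) ^ 2 ≤ ‖T.ι (∑ k, S.α (hh k) a)‖ ^ 2 :=
        pow_le_pow_left₀ (by positivity) h3 2
      rw [mul_pow, S.norm_sum_translates] at h4
      refine h4.trans (le_of_eq ?_)
      rw [← Fintype.sum_prod_type' (f := fun i k => S.ql ((hh i)⁻¹ * hh k) 1 a),
        ← Finset.sum_filter_add_sum_filter_not Finset.univ (fun p : Fin N × Fin N => p.1 = p.2)]
      congr 1
      · have h5 : ∀ p ∈ Finset.univ.filter (fun p : Fin N × Fin N => p.1 = p.2),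
            S.ql ((hh p.1)⁻¹ * hh p.2) 1 a = ‖T.ι a‖ ^ 2 := by
          intro p hp
          rw [(Finset.mem_filter.1 hp).2, inv_mul_cancel]
          unfold TrAct.ql
          rw [one_mul, S.one, inner_self_eq_norm_sq_to_K]
          norm_cast
        rw [Finset.sum_congr rfl h5, Finset.sum_const, nsmul_eq_mul]
        congr 2
        have h6 : (Finset.univ.filter (fun p : Fin N × Fin N => p.1 = p.2))
            = Finset.univ.image (fun i : Fin N => (i, i)) := by
          ext ⟨i, k⟩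
          simp [eq_comm]
        rw [h6, Finset.card_image_of_injective _ (fun i k h => (Prod.ext_iff.1 h).1),
          Finset.card_univ, Fintype.card_fin]
      · rw [← Finset.sum_subtype_eq_sum_filter]
        simp only [Finset.subtype_univ]
        rfl
    have hsumP : ∑ p : P, (S.ql ((hh p.1.1)⁻¹ * hh p.1.2) ((c : ℂ) • (1 : A)) a
        + S.qr ((hh p.1.1)⁻¹ * hh p.1.2) 0 a)
        = c * ∑ p : P, S.ql ((hh p.1.1)⁻¹ * hh p.1.2) 1 a := by
      rw [Finset.mul_sum]
      refine Finset.sum_congr rfl fun p _ => ?_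
      unfold TrAct.ql TrAct.qr
      rw [mul_zero, map_zero, inner_zero_right, Complex.zero_re, add_zero, smul_mul_assoc,
        map_smul, inner_smul_right, Complex.re_ofReal_mul]
    have hsum : ∑ j, (S.ql (Sum.elim g (fun p : P => (hh p.1.1)⁻¹ * hh p.1.2) (e.symm j))
        (Sum.elim m (fun _ : P => (c : ℂ) • (1 : A)) (e.symm j)) a
        + S.qr (Sum.elim g (fun p : P => (hh p.1.1)⁻¹ * hh p.1.2) (e.symm j))
        (Sum.elim m' (fun _ : P => (0 : A)) (e.symm j)) a)
        = ∑ i, (S.ql (g i) (m i) a + S.qr (g i) (m' i) a)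
          + c * ∑ p : P, S.ql ((hh p.1.1)⁻¹ * hh p.1.2) 1 a := by
      rw [e.symm.sum_comp (fun y => S.ql (Sum.elim g (fun p : P => (hh p.1.1)⁻¹ * hh p.1.2) y)
        (Sum.elim m (fun _ : P => (c : ℂ) • (1 : A)) y) a
        + S.qr (Sum.elim g (fun p : P => (hh p.1.1)⁻¹ * hh p.1.2) y)
        (Sum.elim m' (fun _ : P => (0 : A)) y) a), Fintype.sum_sum_type, ← hsumP]
      rfl
    rw [hsum]
    -- absorb
    have hEc : C * ‖T.ι (S.E a)‖ ^ 2 ≤ ‖T.ι a‖ ^ 2 / 8
        + c * ∑ p : P, S.ql ((hh p.1.1)⁻¹ * hh p.1.2) 1 a := by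
      have hN2 : (0 : ℝ) < N ^ 2 := by positivity
      have h2 : C * ‖T.ι (S.E a)‖ ^ 2 = c * ((N : ℝ) ^ 2 * ‖T.ι (S.E a)‖ ^ 2) := by
        rw [hc]
        field_simp
      have hc0 : 0 ≤ c := by positivity
      have h3 := mul_le_mul_of_nonneg_left hEn hc0
      rw [← h2, mul_add] at h3
      have h4 : c * (N * ‖T.ι a‖ ^ 2) ≤ ‖T.ι a‖ ^ 2 / 8 := by
        have h5 : c * N ≤ 1 / 8 := by
          have h6 : c * N = C / N := by
            rw [hc]
            field_simp
          rw [h6, div_le_iff₀ hN0]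
          linarith
        have := sq_nonneg ‖T.ι a‖
        nlinarith
      linarith
    rw [mul_add] at h1
    linarith

end

section
variable {A : Type u} [CStarAlgebra A] {K : Type v} [NormedAddCommGroup K]
  [InnerProductSpace ℂ K] [CompleteSpace K]
variable {G : Type w} [Group G] [TopologicalSpace G] [IsTopologicalGroup G] [T2Space G]
  [SecondCountableTopology G] [LocallyCompactSpace G] [MeasurableSpace G] [BorelSpace G]
  (μ : Measure G) [μ.IsHaarMeasure] {T : TrAlg A K} (S : TrAct G T)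
  {V : Type z} [NormedAddCommGroup V] [NormedSpace ℝ V] [FiniteDimensional ℝ V]
  [MeasurableSpace V] [BorelSpace V]

/-- infinitely many cosets of a compact open subgroup -/
theorem QMap.exists_cosets [NoncompactSpace G] (Q : QMap G V) [Subsingleton V] (N : ℕ) :
    ∃ h : Fin N → G, ∀ i k, i ≠ k → (h i)⁻¹ * h k ∉ Q.U := by
  have hU : IsCompact (Q.U : Set G) := by
    have h1 := Q.proper Set.univ (Set.subsingleton_univ.finite.isCompact)
    refine h1.of_isClosed_subset (Q.U.isClosed_of_isOpen Q.isOpen) fun u hu => ⟨hu, trivial⟩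
  have hinf : Infinite (G ⧸ Q.U) := by
    by_contra hfin
    rw [not_infinite_iff_finite] at hfin
    have h2 : (Set.univ : Set G) = ⋃ c : G ⧸ Q.U, c.out • (Q.U : Set G) := by
      refine (Set.eq_univ_of_forall fun g => ?_).symm
      refine Set.mem_iUnion.2 ⟨(g : G ⧸ Q.U), ?_⟩
      rw [Set.mem_smul_set_iff_inv_smul_mem]
      change (g : G ⧸ Q.U).out⁻¹ * g ∈ Q.U
      rw [← QuotientGroup.eq, QuotientGroup.out_eq']
    have h3 : IsCompact (Set.univ : Set G) := by
      rw [h2]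
      exact isCompact_iUnion fun c => hU.smul c.out
    exact noncompact_univ G h3
  refine ⟨fun i => ((Infinite.natEmbedding (G ⧸ Q.U)) i).out, fun i k hik h => hik ?_⟩
  rw [← QuotientGroup.eq, QuotientGroup.out_eq', QuotientGroup.out_eq'] at h
  exact Fin.ext ((Infinite.natEmbedding (G ⧸ Q.U)).injective h)

/-- F5 for compact open subgroups -/
theorem TrAct.stepATyp_of_qmap_zero [NoncompactSpace G] (Q : QMap G V) [Subsingleton V]
    (hSO : S.SO μ Set.univ) (hR : Reiter μ) : S.StepATyp := by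
  by_contra hne
  obtain ⟨b1, b2, hf1, hf2, hs1, hs2, h1, h2, m0, C, y, hm0, hC0, hC, hy, hgap⟩ :=
    S.exists_gap hne
  refine S.false_of_ineqC μ Q hSO b1 b2 hf1 hf2 hs1 hs2 h1 h2 fun δ hδ => ?_
  obtain ⟨m1, C1, d, hm1, hC1c, hC1, hd, hg⟩ :=
    S.gap_avg b1 b2 y m0 hm0 hC0 C hC hy hgap (δ / 2) (by positivity)
  have hA := S.ineqA_of_gap Q μ hR b1 b2 hf1 hf2 (δ / 2) m1 hm1 hC1c C1 hC1 d hd hg
  have hB := S.ineqB_of_ineqA_zero Q (QMap.exists_cosets Q) b1 b2 (δ / 2) hA
  have hC := S.ineqC_of_ineqB Q b1 b2 hf1 hf2 (δ / 2) (by positivity) hB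
  have e2 : 2 * (δ / 2) = δ := by ring
  rwa [e2] at hC

/-- F5 for all `V` -/
theorem TrAct.stepATyp_of_qmap_all [NoncompactSpace G] (Q : QMap G V)
    (hSO : S.SO μ Set.univ) (hR : Reiter μ) : S.StepATyp := by
  rcases subsingleton_or_nontrivial V with hV | hV
  · exact S.stepATyp_of_qmap_zero μ Q hSO hR
  · exact S.stepATyp_of_qmap μ Q hSO hR

end

end Pool.Agent.AbCoc
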