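import Pool.Agent.Lib_MP_418a80_t3.Contr
import Pool.Agent.Lib_MP_418a80_t3.Zero
import Pool.Agent.Lib_MP_418a80_un.UF6

/-!
# The union theorem together with the contraction step
-/

set_option autoImplicit false
set_option linter.unusedSectionVars false

open MeasureTheory Topology Filter TopologicalSpace
open scoped ENNReal Pointwise

namespace Pool.Agent.AbCoc

universe u v w x z

/-- a closed subgroup to which a noncompact group contracts is noncompact -/
theorem Contracts.noncompactSpace {G : Type w} [Group G] [TopologicalSpace G]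
    [IsTopologicalGroup G] [NoncompactSpace G] (N : Subgroup G)
    (hN : IsClosed (N : Set G)) (hc : Contracts N.subtype) : NoncompactSpace ↥N := by
  by_contra hcomp0
  have hcomp : CompactSpace ↥N := by
    by_contra h
    exact hcomp0 (not_compactSpace_iff.1 h)
  have hNc : IsCompact (N : Set G) := isCompact_iff_compactSpace.2 hcomp
  have hall : ∀ g : G, g ∈ N := by
    intro g
    obtain ⟨C, hC, h⟩ := hc {g} isCompact_singleton
    have hcl : g ∈ closure (N : Set G) := by
      rw [mem_closure_iff_nhds]
      intro t ht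
      set O : Set (G × G) := {p | g * (p.1 * p.2 * p.1⁻¹)⁻¹ ∈ interior t} with hO
      have hOo : IsOpen O := by
        refine isOpen_interior.preimage ?_
        fun_prop
      have hsub : (N : Set G) ×ˢ ({1} : Set G) ⊆ O := by
        rintro ⟨a, b⟩ ⟨-, hb⟩
        have hb' : b = 1 := hb
        subst hb'
        change g * (a * 1 * a⁻¹)⁻¹ ∈ interior t
        have e : g * (a * 1 * a⁻¹)⁻¹ = g := by group
        rw [e]
        exact mem_interior_iff_mem_nhds.2 ht
      obtain ⟨u, V, -, hV, hu, h1V, huV⟩ := generalized_tube_lemma hNc isCompact_singleton hOo hsub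
      obtain ⟨z, hz⟩ := h V (hV.mem_nhds (h1V rfl))
      obtain ⟨c, -, v, hv, e⟩ := hz g rfl
      have h2' : ((z : G), v) ∈ O := huV ⟨hu z.2, hv⟩
      have h2 : g * ((z : G) * v * (z : G)⁻¹)⁻¹ ∈ interior t := h2'
      have e2 : (N.subtype z)⁻¹ * g * N.subtype z = N.subtype c * v := e
      have e3 : g = (z : G) * (c : G) * v * (z : G)⁻¹ := by
        have e4 : (z : G)⁻¹ * g * (z : G) = (c : G) * v := e2
        have e5 : g = (z : G) * ((z : G)⁻¹ * g * (z : G)) * (z : G)⁻¹ := by group
        rw [e4] at e5
        rw [e5]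
        group
      have e4 : g * ((z : G) * v * (z : G)⁻¹)⁻¹ = (z : G) * (c : G) * (z : G)⁻¹ := by
        conv_lhs => rw [e3]
        group
      refine ⟨(z : G) * (c : G) * (z : G)⁻¹, ?_, ?_⟩
      · rw [← e4]
        exact interior_subset h2
      · exact N.mul_mem (N.mul_mem z.2 c.2) (N.inv_mem z.2)
    rwa [hN.closure_eq] at hcl
  refine noncompact_univ G ?_
  have e : (N : Set G) = Set.univ := Set.eq_univ_of_forall hall
  rwa [e] at hNc

section
variable {G : Type w} [Group G] [TopologicalSpace G] [IsTopologicalGroup G] [T2Space G]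
  [SecondCountableTopology G] [LocallyCompactSpace G] [NoncompactSpace G] [MeasurableSpace G]
  [BorelSpace G] (μ : Measure G) [μ.IsHaarMeasure]
  {H : Type u} [NormedAddCommGroup H] [InnerProductSpace ℂ H] [CompleteSpace H]
  [SeparableSpace H]

/-- the union theorem for groups which contract to a closed subgroup -/
theorem contracted_theorem (N : Subgroup G) (hN : IsClosed (N : Set G)) (ν : Measure ↥N)
    [ν.IsHaarMeasure] (hν : ErgLC.FolnerCondition ν) (hc : Contracts N.subtype)
    (L : Subgroup ↥N) (hL : IsOpen (L : Set ↥N))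
    (n : ℕ) (q : ↥L →* Multiplicative (EuclideanSpace ℝ (Fin n))) (hq : Continuous q)
    (hs : Function.Surjective q) (hk : IsCompact (q.ker : Set ↥L))
    {M : VonNeumannAlgebra H} (hM : IsII1Factor M)
    {α : G → (H →L[ℂ] H) → (H →L[ℂ] H)} (hα : IsAction M α) (hout : IsStrictlyOuter μ M α) :
    ∃ v : G → (H →L[ℂ] H), IsCocycle M α v ∧ PerturbationIsErgodic M α v := by
  have hlc : LocallyCompactSpace ↥N := hN.isClosedEmbedding_subtypeVal.locallyCompactSpace
  have hsc : SecondCountableTopology ↥N :=
    TopologicalSpace.Subtype.secondCountableTopology (N : Set G)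
  have hnc : NoncompactSpace ↥N := hc.noncompactSpace N hN
  obtain ⟨Q⟩ := exists_qmap L hL q hq hs hk
  obtain ⟨ξ, h⟩ := hM.trace
  have hSO : (actOf ξ h hM.factor hα).SO μ Set.univ := by
    have h1 := so_of_strictlyOuterOn μ ξ h hM.factor hα (M : Set (H →L[ℂ] H)) subset_rfl
      ((isStrictlyOuterOn_iff μ M α).2 hout)
    have e : {x : Alg M | (x : H →L[ℂ] H) ∈ (M : Set (H →L[ℂ] H))} = Set.univ :=
      Set.eq_univ_of_forall fun x => x.2
    rwa [e] at h1
  have hj : Continuous N.subtype := continuous_subtype_val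
  have hSON : ((actOf ξ h hM.factor hα).cm N.subtype hj).SO ν Set.univ :=
    (actOf ξ h hM.factor hα).SO_cm' μ ν N.subtype hj hN.isClosedEmbedding_subtypeVal hSO
  exact exists_of_key ξ h hα (actOf ξ h hM.factor hα) (fun g x => rfl)
    (TrAct.key_of_stepATyp _ ((actOf ξ h hM.factor hα).stepATyp_of_contracts N.subtype hj hc
      (TrAct.stepATyp_of_qmap_all ν _ Q hSON (reiter_of_folner ν hν))))

end

end Pool.Agent.AbCoc
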