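import Pool.Agent.Lib_MP_418a80_t3.DecDef

/-!
# MP_418a80_an, T3: deciding sequences, proofs (T3-DEC)
-/

set_option autoImplicit false
set_option linter.unusedVariables false
set_option linter.unusedSectionVars false

open Topology Filter MeasureTheory
open scoped RealInnerProductSpace ComplexConjugate

namespace Pool.Agent.AbCoc

universe u v w z

section
variable {A : Type u} [CStarAlgebra A] {K : Type v} [NormedAddCommGroup K]
  [InnerProductSpace ℂ K] [CompleteSpace K]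
variable {G : Type w} [Group G] [TopologicalSpace G] {T : TrAlg A K} (S : TrAct G T)

theorem TrAct.exists_dec {Q : Type z} (chi : Q → G → ℂ) (Bk : ℕ → Set Q) (b0 : A)
    (hb : S.IsPrj b0) (h0 : b0 ≠ 0) : ∃ b : ℕ → A, S.Dec chi Bk b ∧ b 0 = b0 := by
  have step : ∀ (k : ℕ) (b : {b : A // S.IsPrj b ∧ b ≠ 0}), ∃ b' : {b : A // S.IsPrj b ∧ b ≠ 0},
      b.1 * b'.1 = b'.1 ∧ (S.HLabA chi (Bk k) b'.1 ∨ ¬ S.LabA chi (Bk k) b'.1) := by
    rintro k ⟨b, hb, h0⟩
    by_cases hH : S.HLabA chi (Bk k) b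
    · exact ⟨⟨b, hb, h0⟩, hb.mul_self, Or.inl hH⟩
    · have hH' : ∃ b' : A, S.IsPrj b' ∧ b' ≠ 0 ∧ b * b' = b' ∧ ¬ S.LabA chi (Bk k) b' := by
        by_contra hcon
        apply hH
        intro b' h1 h2 h3
        by_contra h4
        exact hcon ⟨b', h1, h2, h3, h4⟩
      obtain ⟨b', hb', h0', hle, hn⟩ := hH'
      exact ⟨⟨b', hb', h0'⟩, hle, Or.inr hn⟩
  choose f hf1 hf2 using step
  let s : ℕ → {b : A // S.IsPrj b ∧ b ≠ 0} :=
    fun n => Nat.rec ⟨b0, hb, h0⟩ (fun k b => f k b) n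
  exact ⟨fun n => (s n).1, ⟨fun n => (s n).2.1, fun n => (s n).2.2, fun n => hf1 n (s n),
    fun k => hf2 k (s k)⟩, rfl⟩

variable {S}

/-- the corners decrease -/
theorem TrAct.Dec.le_of_le {Q : Type z} {chi : Q → G → ℂ} {Bk : ℕ → Set Q} {b : ℕ → A}
    (h : S.Dec chi Bk b) {n m : ℕ} (hnm : n ≤ m) : b n * b m = b m := by
  induction m, hnm using Nat.le_induction with
  | base => exact (h.prj n).mul_self
  | succ m hm ih =>
    calc b n * b (m + 1) = b n * (b m * b (m + 1)) := by rw [h.le m]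
      _ = b m * b (m + 1) := by rw [← mul_assoc, ih]
      _ = b (m + 1) := h.le m

/-- if labels in `Bk k` are not available in `b (k + 1)` they are not available later -/
theorem TrAct.Dec.not_labA {Q : Type z} {chi : Q → G → ℂ} {Bk : ℕ → Set Q} {b : ℕ → A}
    (h : S.Dec chi Bk b) {k : ℕ} (hk : ¬ S.HLabA chi (Bk k) (b (k + 1))) {m : ℕ}
    (hm : k + 1 ≤ m) : ¬ S.LabA chi (Bk k) (b m) := by
  intro h1
  rcases h.dec k with h2 | h2
  · exact hk h2
  · exact h2 (h1.of_le (h.prj (k + 1)).star_eq (h.prj m).star_eq (h.le_of_le hm))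

variable (S)

section V
variable {V : Type z} [NormedAddCommGroup V] [InnerProductSpace ℝ V]

/-- T3-DEC -/
theorem TrAct.Dec.isClosed_SF {p : G → V} {Bk : ℕ → Set V} {b : ℕ → A} (h : S.Dec (pch p) Bk b)
    (hBk : ∀ k, IsOpen (Bk k)) : IsClosed (S.SF (pch p) Bk b) := by
  have h1 : S.SF (pch p) Bk b
      = ⋂ k, {q : V | q ∈ Bk k → S.HLabA (pch p) (Bk k) (b (k + 1))} := by
    ext q
    simp [TrAct.SF]
  rw [h1]
  refine isClosed_iInter fun k => ?_
  by_cases hk : S.HLabA (pch p) (Bk k) (b (k + 1))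
  · have h2 : {q : V | q ∈ Bk k → S.HLabA (pch p) (Bk k) (b (k + 1))} = Set.univ := by
      ext q
      simp [hk]
    rw [h2]
    exact isClosed_univ
  · have h2 : {q : V | q ∈ Bk k → S.HLabA (pch p) (Bk k) (b (k + 1))} = (Bk k)ᶜ := by
      ext q
      simp [hk]
    rw [h2]
    exact (hBk k).isClosed_compl

/-- the labels of `SF` are the labels which are available at all precisions -/
theorem TrAct.Dec.mem_SF_iff {p : G → V} {Bk : ℕ → Set V} {b : ℕ → A}
    (h : S.Dec (pch p) Bk b) (hBk : ∀ k, IsOpen (Bk k))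
    (hbase : ∀ (q : V) (ρ : ℝ), 0 < ρ → ∃ k, q ∈ Bk k ∧ Bk k ⊆ Metric.ball q ρ) (q : V) :
    q ∈ S.SF (pch p) Bk b ↔ ∀ ρ : ℝ, 0 < ρ → ∃ n, S.HLabA (pch p) (Metric.ball q ρ) (b n) := by
  constructor
  · intro hq ρ hρ
    obtain ⟨k, hk1, hk2⟩ := hbase q ρ hρ
    exact ⟨k + 1, (hq k hk1).mono hk2⟩
  · intro hq k hk
    by_contra hcon
    obtain ⟨ρ, hρ, hball⟩ := Metric.isOpen_iff.1 (hBk k) q hk
    obtain ⟨n, hn⟩ := hq ρ hρ
    have hm1 : n ≤ max n (k + 1) := le_max_left _ _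
    have hm2 : k + 1 ≤ max n (k + 1) := le_max_right _ _
    have h1 : S.HLabA (pch p) (Bk k) (b (max n (k + 1))) :=
      (hn.mono hball).of_le (h.le_of_le hm1)
    exact h.not_labA hcon hm2 (h1.labA (h.prj _) (h.ne _))

/-- T3-DEC (uses `hlabA_add`) -/
theorem TrAct.Dec.exists_subgroup {p : G → V} {Bk : ℕ → Set V} {b : ℕ → A}
    (h : S.Dec (pch p) Bk b) (hBk : ∀ k, IsOpen (Bk k))
    (hbase : ∀ (q : V) (ρ : ℝ), 0 < ρ → ∃ k, q ∈ Bk k ∧ Bk k ⊆ Metric.ball q ρ)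
    (hadd : ∀ (B1 B2 : Set V) (b : A), S.IsPrj b → S.HLabA (pch p) B1 b → S.HLabA (pch p) B2 b →
      S.HLabA (pch p) {q | ∃ q1 ∈ B1, ∃ q2 ∈ B2, q = q1 + q2} b) :
    ∃ H : AddSubgroup V, (H : Set V) = S.SF (pch p) Bk b := by
  have key := TrAct.Dec.mem_SF_iff S h hBk hbase
  refine ⟨{ carrier := S.SF (pch p) Bk b, add_mem' := ?_, zero_mem' := ?_, neg_mem' := ?_ }, rfl⟩
  · intro q1 q2 h1 h2
    rw [key] at h1 h2 ⊢
    intro ρ hρ
    obtain ⟨n1, hn1⟩ := h1 (ρ / 2) (by positivity)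
    obtain ⟨n2, hn2⟩ := h2 (ρ / 2) (by positivity)
    refine ⟨max n1 n2, ?_⟩
    have h3 := hn1.of_le (h.le_of_le (le_max_left n1 n2))
    have h4 := hn2.of_le (h.le_of_le (le_max_right n1 n2))
    refine (hadd _ _ _ (h.prj _) h3 h4).mono ?_
    rintro q ⟨x1, hx1, x2, hx2, rfl⟩
    rw [Metric.mem_ball, dist_eq_norm] at hx1 hx2 ⊢
    calc ‖x1 + x2 - (q1 + q2)‖ = ‖(x1 - q1) + (x2 - q2)‖ := by
          congr 1
          abel
      _ ≤ ‖x1 - q1‖ + ‖x2 - q2‖ := norm_add_le _ _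
      _ < ρ := by linarith
  · rw [key]
    intro ρ hρ
    exact ⟨0, hlabA_zero (Metric.mem_ball_self hρ)⟩
  · intro q hq
    rw [key] at hq ⊢
    intro ρ hρ
    obtain ⟨n, hn⟩ := hq ρ hρ
    refine ⟨n, hn.neg.mono ?_⟩
    intro x hx
    have hx' : -x ∈ Metric.ball q ρ := hx
    rw [Metric.mem_ball, dist_eq_norm] at hx' ⊢
    have h5 : x - -q = -(-x - q) := by abel
    rw [h5, norm_neg]
    exact hx'

/-- finitely many sets of labels which are not available in a corner: a common level -/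
theorem TrAct.exists_level_of_not_labA {Q : Type z} {chi : Q → G → ℂ} {b : A} {Bk : ℕ → Set Q}
    (t : Finset ℕ) (ht : ∀ k ∈ t, ¬ S.LabA chi (Bk k) b) (C c : ℝ) (hc : 0 < c) :
    ∃ (D : Set G) (κ : ℝ), IsCompact D ∧ 0 < κ ∧ ∀ k ∈ t, ∀ (J : Type) [Fintype J]
      (y : J → A) (r : J → Q), S.IsLab chi (Bk k) b D κ C y r → T.ms y < c := by
  classical
  induction t using Finset.induction_on with
  | empty => exact ⟨∅, 1, isCompact_empty, one_pos, fun k hk => absurd hk (by simp)⟩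
  | insert a t hat ih =>
    obtain ⟨D, κ, hD, hκ, h⟩ := ih fun k hk => ht k (Finset.mem_insert_of_mem hk)
    have ha := ht a (Finset.mem_insert_self a t)
    have ha' : ∃ (D' : Set G) (κ' : ℝ), IsCompact D' ∧ 0 < κ' ∧ ∀ (J : Type) [Fintype J]
        (y : J → A) (r : J → Q), S.IsLab chi (Bk a) b D' κ' C y r → T.ms y < c := by
      by_contra hcon
      apply ha
      refine ⟨C, c, hc, fun D' hD' κ' hκ' => ?_⟩
      by_contra hcon2
      apply hcon
      refine ⟨D', κ', hD', hκ', ?_⟩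
      intro J hJ y r hy
      by_contra hlt
      exact hcon2 ⟨J, hJ, y, r, hy, not_lt.1 hlt⟩
    obtain ⟨D', κ', hD', hκ', h'⟩ := ha'
    refine ⟨D ∪ D', min κ κ', hD.union hD', lt_min hκ hκ', ?_⟩
    intro k hk J hJ y r hy
    rcases Finset.mem_insert.1 hk with rfl | hk
    · exact h' J y r (hy.mono subset_rfl Set.subset_union_right (min_le_right _ _) le_rfl)
    · exact h k hk J y r (hy.mono subset_rfl Set.subset_union_left (min_le_left _ _) le_rfl)

/-- T3-DEC: covering lemma -/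
theorem TrAct.Dec.cover {p : G → V} {Bk : ℕ → Set V} {b : ℕ → A} (h : S.Dec (pch p) Bk b)
    (hBk : ∀ k, IsOpen (Bk k)) (E : Set V) (hE : IsCompact E)
    (hdisj : ∀ q ∈ E, q ∉ S.SF (pch p) Bk b) :
    ∃ n0 : ℕ, ∀ n, n0 ≤ n → ∀ C η : ℝ, 0 < η → ∃ (D : Set G) (κ : ℝ), IsCompact D ∧ 0 < κ ∧
      ∀ (J : Type) [Fintype J] (y : J → A) (r : J → V), S.IsLab (pch p) E (b n) D κ C y r →
        T.ms y ≤ η := by
  classical
  have hcov : E ⊆ ⋃ k ∈ {k | ¬ S.HLabA (pch p) (Bk k) (b (k + 1))}, Bk k := by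
    intro q hq
    have h1 : ∃ k, q ∈ Bk k ∧ ¬ S.HLabA (pch p) (Bk k) (b (k + 1)) := by
      by_contra hcon
      apply hdisj q hq
      intro k hk
      by_contra h2
      exact hcon ⟨k, hk, h2⟩
    obtain ⟨k, hk1, hk2⟩ := h1
    exact Set.mem_biUnion (show k ∈ {k | ¬ S.HLabA (pch p) (Bk k) (b (k + 1))} from hk2) hk1
  obtain ⟨t', ht', htf, htc⟩ := hE.elim_finite_subcover_image (fun k _ => hBk k) hcov
  obtain ⟨t, rfl⟩ := htf.exists_finset_coe
  refine ⟨t.sup fun k => k + 1, fun n hn C η hη => ?_⟩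
  have hc : 0 < η / ((t.card : ℝ) + 1) := by positivity
  obtain ⟨D, κ, hD, hκ, hlev⟩ := S.exists_level_of_not_labA (chi := pch p) (b := b n) (Bk := Bk) t
    (fun k hk => h.not_labA (ht' hk) ((Finset.le_sup (f := fun k => k + 1) hk).trans hn)) C _ hc
  refine ⟨D, κ, hD, hκ, ?_⟩
  intro J hJ y r hy
  have hcut : ∀ k ∈ t, T.ms (fun j => if r j ∈ Bk k then y j else 0)
      ≤ η / ((t.card : ℝ) + 1) := by
    intro k hk
    by_cases hne : (Bk k).Nonempty
    · obtain ⟨q0, hq0⟩ := hne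
      exact (hlev k hk J _ _ (hy.cut (Bk k) q0 hq0)).le
    · rw [Set.not_nonempty_iff_eq_empty] at hne
      have h1 : T.ms (fun j => if r j ∈ Bk k then y j else 0) = 0 := by
        unfold TrAlg.ms
        refine Finset.sum_eq_zero fun j _ => ?_
        rw [hne]
        simp
      rw [h1]
      exact hc.le
  have hpt : ∀ j, ‖T.ι (y j)‖ ^ 2
      ≤ ∑ k ∈ t, ‖T.ι (if r j ∈ Bk k then y j else 0)‖ ^ 2 := by
    intro j
    have h1 := htc (hy.lab j)
    simp only [Set.mem_iUnion, Finset.mem_coe] at h1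
    obtain ⟨k, hk, hjk⟩ := h1
    have h2 : ‖T.ι (y j)‖ ^ 2 = ‖T.ι (if r j ∈ Bk k then y j else 0)‖ ^ 2 := by
      rw [if_pos hjk]
    rw [h2]
    exact Finset.single_le_sum (f := fun k => ‖T.ι (if r j ∈ Bk k then y j else 0)‖ ^ 2)
      (fun i _ => sq_nonneg _) hk
  have hsum : T.ms y ≤ ∑ k ∈ t, T.ms (fun j => if r j ∈ Bk k then y j else 0) := by
    unfold TrAlg.ms
    rw [Finset.sum_comm]
    exact Finset.sum_le_sum fun j _ => hpt j
  calc T.ms y ≤ ∑ k ∈ t, T.ms (fun j => if r j ∈ Bk k then y j else 0) := hsum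
    _ ≤ ∑ k ∈ t, η / ((t.card : ℝ) + 1) := Finset.sum_le_sum hcut
    _ = (t.card : ℝ) * (η / ((t.card : ℝ) + 1)) := by rw [Finset.sum_const, nsmul_eq_mul]
    _ ≤ η := by
      rw [← mul_div_assoc, div_le_iff₀ (by positivity)]
      nlinarith

end V

end

end Pool.Agent.AbCoc
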