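import Pool.Agent.Lib_MP_418a80_t3.Fam

/-!
# MP_418a80_an, T3: deciding sequences
-/

set_option autoImplicit false
set_option linter.unusedVariables false
set_option linter.unusedSectionVars false

open Topology Filter MeasureTheory
open scoped RealInnerProductSpace ComplexConjugate

namespace Pool.Agent.AbCoc

universe u v w z

section
variable {A : Type u} [CStarAlgebra A] {K : Type v} [NormedAddCommGroup K]
  [InnerProductSpace ℂ K] [CompleteSpace K]
variable {G : Type w} [Group G] [TopologicalSpace G] {T : TrAlg A K} (S : TrAct G T)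

/-- deciding sequences for a countable family of sets of labels -/
structure TrAct.Dec {Q : Type z} (chi : Q → G → ℂ) (Bk : ℕ → Set Q) (b : ℕ → A) : Prop where
  prj : ∀ n, S.IsPrj (b n)
  ne : ∀ n, b n ≠ 0
  le : ∀ n, b n * b (n + 1) = b (n + 1)
  dec : ∀ k, S.HLabA chi (Bk k) (b (k + 1)) ∨ ¬ S.LabA chi (Bk k) (b (k + 1))

/-- the labels which are available in all corners along the deciding sequence -/
def TrAct.SF {Q : Type z} (chi : Q → G → ℂ) (Bk : ℕ → Set Q) (b : ℕ → A) : Set Q :=
  {q | ∀ k, q ∈ Bk k → S.HLabA chi (Bk k) (b (k + 1))}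

end

end Pool.Agent.AbCoc
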