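import Pool.Agent.Lib_MP_418a80_hyp.HC0
import Pool.Agent.Lib_MP_418a80_ab.FamDefs

/-!
# MP_418a80_an, T3 (plans: board notes 2278, 2291): definitions

Labels are elements of a type `Q` with characters `chi q : G → ℂ`; the main case is `Q = V`, a real
inner product space, `p : G → V` a continuous homomorphism and `chi q g = exp (i ⟪q, p g⟫)`
(`pch p`). Families are finite families `y : J → A`; they are dominated (`∑ |y z|², ∑ |z y|² ≤ C |z|²`
for all `z`). A level is a compact set `D ⊆ G` and `κ > 0`; constants never depend on the level.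
Corners are projections of the fixed point algebra (`S.IsPrj b`).
-/

set_option autoImplicit false
set_option linter.unusedVariables false
set_option linter.unusedSectionVars false

open Topology Filter MeasureTheory
open scoped RealInnerProductSpace

namespace Pool.Agent.AbCoc

universe u v w z

/-- `ch t = e^{it}` -/
noncomputable def ch (t : ℝ) : ℂ := Complex.exp ((t : ℂ) * Complex.I)

/-- the characters of `G` with labels in `V` -/
noncomputable def pch {G : Type w} {V : Type z} [NormedAddCommGroup V] [InnerProductSpace ℝ V]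
    (p : G → V) (q : V) (g : G) : ℂ := ch ⟪q, p g⟫

section
variable {A : Type u} [CStarAlgebra A] {K : Type v} [NormedAddCommGroup K]
  [InnerProductSpace ℂ K] [CompleteSpace K]

/-- left marginal `∑ y y*` -/
def ll {J : Type} [Fintype J] (y : J → A) : A := ∑ j, y j * star (y j)

/-- right marginal `∑ y* y` -/
def rr {J : Type} [Fintype J] (y : J → A) : A := ∑ j, star (y j) * y j

/-- mass of a family -/
noncomputable def TrAlg.ms (T : TrAlg A K) {J : Type} [Fintype J] (y : J → A) : ℝ :=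
  ∑ j, ‖T.ι (y j)‖ ^ 2

/-- `C`-dominated families -/
def TrAlg.Dm (T : TrAlg A K) (C : ℝ) {J : Type} [Fintype J] (y : J → A) : Prop :=
  (∀ z : A, ∑ j, ‖T.ι (y j * z)‖ ^ 2 ≤ C * ‖T.ι z‖ ^ 2) ∧
    ∀ z : A, ∑ j, ‖T.ι (z * y j)‖ ^ 2 ≤ C * ‖T.ι z‖ ^ 2

/-- the functional `z ↦ τ (x z)` -/
noncomputable def TrAlg.fn (T : TrAlg A K) (x : A) : A →L[ℂ] ℂ :=
  LinearMap.mkContinuous
    { toFun := fun z => T.τ (x * z)
      map_add' := fun a b => by rw [mul_add, T.τ_add]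
      map_smul' := fun c a => by rw [mul_smul_comm, T.τ_smul]; rfl }
    ‖x‖ fun z => by
      have h : T.τ (x * z) = inner ℂ (T.ι (star x)) (T.ι z) := by rw [T.inner_eq_τ, star_star]
      change ‖T.τ (x * z)‖ ≤ ‖x‖ * ‖z‖
      rw [h]
      refine (norm_inner_le_norm _ _).trans (mul_le_mul ?_ (T.norm_le z) (norm_nonneg _)
        (norm_nonneg _))
      rw [T.norm_star]
      exact T.norm_le x

theorem TrAlg.fn_apply (T : TrAlg A K) (x z : A) : T.fn x z = T.τ (x * z) := rfl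

/-- the `1`-norm (as the norm of the functional `z ↦ τ (x z)`) -/
noncomputable def TrAlg.n1 (T : TrAlg A K) (x : A) : ℝ := ‖T.fn x‖

variable {G : Type w} [Group G] [TopologicalSpace G] {T : TrAlg A K} (S : TrAct G T)

/-- projections of the fixed point algebra -/
structure TrAct.IsPrj (b : A) : Prop where
  fix : S.Fixed b
  star_eq : star b = b
  mul_self : b * b = b

/-- labelled families in the corner `b A b`, labels in `B`, near-eigen (with error `κ` on `D`) and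
`C`-dominated -/
structure TrAct.IsLab {Q : Type z} (chi : Q → G → ℂ) (B : Set Q) (b : A) (D : Set G) (κ C : ℝ)
    {J : Type} [Fintype J] (y : J → A) (r : J → Q) : Prop where
  lft : ∀ j, b * y j = y j
  rgt : ∀ j, y j * b = y j
  lab : ∀ j, r j ∈ B
  dm : T.Dm C y
  ne : ∀ g ∈ D, ∑ j, ‖T.ι (S.α g (y j) - chi (r j) g • y j)‖ ^ 2 ≤ κ

/-- labels in `B` are available in the corner `b A b`: families of mass `≥ c` at all levels, `C` and
`c` do not depend on the level -/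
def TrAct.LabA {Q : Type z} (chi : Q → G → ℂ) (B : Set Q) (b : A) : Prop :=
  ∃ C c : ℝ, 0 < c ∧ ∀ D : Set G, IsCompact D → ∀ κ : ℝ, 0 < κ →
    ∃ (J : Type) (_ : Fintype J) (y : J → A) (r : J → Q), S.IsLab chi B b D κ C y r ∧ c ≤ T.ms y

/-- hereditarily available: available in every corner `b' A b'`, `0 ≠ b' ≤ b` -/
def TrAct.HLabA {Q : Type z} (chi : Q → G → ℂ) (B : Set Q) (b : A) : Prop :=
  ∀ b' : A, S.IsPrj b' → b' ≠ 0 → b * b' = b' → S.LabA chi B b'

/-- families for `StepATyp` at a fixed precision modulo `ker p` (2281 (A)) -/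
def TrAct.PrecA {V : Type z} (p : G → V) (b1 b2 : A) : Prop :=
  ∀ D0 : Set G, IsCompact D0 → ∀ ε1 : ℝ, 0 < ε1 → ∃ C c0 : ℝ, 0 < c0 ∧
    ∀ D : Set G, IsCompact D → (∀ g ∈ D, ∃ g0 ∈ D0, p g = p g0) →
    ∀ κ : ℝ, 0 < κ → ∀ y : A, ∃ (J : Type) (_ : Fintype J) (a : J → A),
        (∀ j, b1 * a j = a j) ∧ (∀ j, a j * b2 = a j) ∧ c0 ≤ T.ms a ∧
        ∑ j, ‖T.ι (S.E (a j))‖ ^ 2 ≤ κ ∧
        (∀ g ∈ D, ∑ j, ‖T.ι (S.α g (a j) - a j)‖ ^ 2 ≤ ε1 * c0) ∧
        ∑ j, ‖T.ι (a j * y)‖ ^ 2 ≤ C * ‖T.ι y‖ ^ 2 + κ ∧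
        ∑ j, ‖T.ι (y * a j)‖ ^ 2 ≤ C * ‖T.ι y‖ ^ 2 + κ

/-- single elements of `b1 A b2` which are near-`H`-invariant, `H = {h | p0 h = 0}`, and averaged to
`0` by `H`, both uniformly after the translations `s t`, `|t| ≤ W` (`H` is normal, `s` a
one-parameter group); `c0` does not depend on the level -/
def TrAct.GoodE (p0 : G → ℝ) (s : ℝ → G) (b1 b2 : A) : Prop :=
  ∃ c0 : ℝ, 0 < c0 ∧ ∀ D : Set G, IsCompact D → ∀ W κ : ℝ, 0 < κ →
    ∃ e : A, b1 * e = e ∧ e * b2 = e ∧ ‖e‖ ≤ 1 ∧ c0 ≤ ‖T.ι e‖ ^ 2 ∧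
      (∀ h ∈ D, p0 h = 0 → ∀ t : ℝ, |t| ≤ W →
        ‖T.ι (S.α h (S.α (s t) e) - S.α (s t) e)‖ ≤ κ) ∧
      ∃ (n : ℕ) (h : Fin n → G) (lam : Fin n → ℝ), (∀ i, p0 (h i) = 0) ∧ (∀ i, 0 ≤ lam i) ∧
        ∑ i, lam i = 1 ∧ ∀ t : ℝ, |t| ≤ W →
          ‖T.ι (∑ i, (lam i : ℂ) • S.α (h i) (S.α (s t) e))‖ ≤ κ

end

end Pool.Agent.AbCoc
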