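import Pool.Agent.Lib_MP_418a80_t3.EChar

/-!
# The input (e) of the composition: near-invariant elements of a normal subgroup which are averaged
to zero, uniformly over a compact set of translates
-/

set_option autoImplicit false
set_option linter.unusedVariables false
set_option linter.unusedSectionVars false

open Topology Filter MeasureTheory
open scoped ENNReal

namespace Pool.Agent.AbCoc

universe u v w

section char
variable {H : Type w} [Group H] [TopologicalSpace H]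

/-- the characters `exp (i r φ)` -/
noncomputable def expChar (φ : H →* Multiplicative ℝ) (r : ℝ) : H →* Circle where
  toFun h := Circle.exp (r * (φ h).toAdd)
  map_one' := by simp
  map_mul' a b := by
    change Circle.exp (r * (φ (a * b)).toAdd) = _
    rw [map_mul φ, toAdd_mul, mul_add, Circle.exp_add]

theorem expChar_apply (φ : H →* Multiplicative ℝ) (r : ℝ) (h : H) :
    expChar φ r h = Circle.exp (r * (φ h).toAdd) := rfl

theorem expChar_cont {φ : H →* Multiplicative ℝ} (hφ : Continuous fun h => (φ h).toAdd) (r : ℝ) :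
    Continuous (expChar φ r) :=
  Circle.exp.continuous.comp (continuous_const.mul hφ)

/-- nontrivial characters which are uniformly close to `1` on compact sets -/
def HasSmallChar (H : Type w) [Group H] [TopologicalSpace H] : Prop :=
  ∀ D : Set H, IsCompact D → ∀ δ : ℝ, 0 < δ →
    ∃ χ : H →* Circle, Continuous χ ∧ (∃ h, χ h ≠ 1) ∧ ∀ h ∈ D, ‖(χ h : ℂ) - 1‖ ≤ δ

theorem norm_exp_sub_one_le (t : ℝ) : ‖(Circle.exp t : ℂ) - 1‖ ≤ |t| := by
  rw [Circle.coe_exp]
  have h := Real.norm_exp_I_mul_ofReal_sub_one_le (x := t)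
  rwa [mul_comm, Real.norm_eq_abs] at h

theorem hasSmallChar_of_hom (φ : H →* Multiplicative ℝ) (hφ : Continuous fun h => (φ h).toAdd)
    (h0 : H) (hne : (φ h0).toAdd ≠ 0) : HasSmallChar H := by
  intro D hD δ hδ
  obtain ⟨B, hB⟩ : ∃ B : ℝ, ∀ h ∈ D, |(φ h).toAdd| ≤ B := by
    obtain ⟨B, hB⟩ := hD.exists_bound_of_continuousOn (f := fun h => (φ h).toAdd) hφ.continuousOn
    exact ⟨B, fun h hh => hB h hh⟩
  obtain ⟨t, ht⟩ : ∃ t : ℝ, t = |(φ h0).toAdd| := ⟨_, rfl⟩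
  have htp : 0 < t := by rw [ht]; exact abs_pos.2 hne
  obtain ⟨r, hr⟩ : ∃ r : ℝ, r = min (δ / (|B| + 1)) (1 / t) := ⟨_, rfl⟩
  have hr0 : 0 < r := by
    rw [hr]
    exact lt_min (by positivity) (by positivity)
  have hr1 : r * (|B| + 1) ≤ δ := by
    have h1 : r ≤ δ / (|B| + 1) := by rw [hr]; exact min_le_left _ _
    rwa [le_div_iff₀ (by positivity)] at h1
  have hr2 : r * t ≤ 1 := by
    have h1 : r ≤ 1 / t := by rw [hr]; exact min_le_right _ _
    rwa [le_div_iff₀ htp] at h1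
  refine ⟨expChar φ r, expChar_cont hφ r, ⟨h0, ?_⟩, ?_⟩
  · intro h1
    rw [expChar_apply] at h1
    have h2 : |r * (φ h0).toAdd| ≤ 1 := by
      rw [abs_mul, abs_of_pos hr0, ← ht]; exact hr2
    have h3 : r * (φ h0).toAdd ≠ 0 := mul_ne_zero hr0.ne' hne
    have hpi := Real.pi_gt_three
    have h5 := Circle.arg_exp (x := r * (φ h0).toAdd) (by linarith [(abs_le.1 h2).1])
      (by linarith [(abs_le.1 h2).2])
    rw [h1, Circle.coe_one, Complex.arg_one] at h5
    exact h3 h5.symm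
  · intro h hh
    rw [expChar_apply]
    refine (norm_exp_sub_one_le _).trans ?_
    rw [abs_mul, abs_of_pos hr0]
    refine le_trans ?_ hr1
    refine mul_le_mul_of_nonneg_left ?_ hr0.le
    have := hB h hh
    linarith [le_abs_self B]

/-- the product of powers -/
def wordPow {m : ℕ} (h : Fin m → H) {L : ℕ} (f : Fin m → Fin L) : H :=
  (List.ofFn fun i => h i ^ (f i : ℕ)).prod

theorem sum_wordPow (χ : H →* Circle) {m : ℕ} (h : Fin m → H) (L : ℕ) :
    ∑ f : Fin m → Fin L, (χ (wordPow h f) : ℂ) = ∏ i, ∑ n : Fin L, (χ (h i) : ℂ) ^ (n : ℕ) := by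
  rw [Finset.prod_univ_sum, Fintype.piFinset_univ]
  refine Finset.sum_congr rfl fun f _ => ?_
  rw [wordPow, map_list_prod, List.map_ofFn, List.prod_ofFn]
  have h1 : ((∏ i, (χ ∘ fun i => h i ^ (f i : ℕ)) i : Circle) : ℂ)
      = ∏ i, (((χ ∘ fun i => h i ^ (f i : ℕ)) i : Circle) : ℂ) := map_prod Circle.coeHom _ _
  rw [h1]
  refine Finset.prod_congr rfl fun i _ => ?_
  simp

theorem norm_sum_pow_le_card (z : Circle) (L : ℕ) : ‖∑ n : Fin L, (z : ℂ) ^ (n : ℕ)‖ ≤ L := by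
  refine (norm_sum_le _ _).trans ?_
  rw [Finset.sum_congr rfl fun n _ => by rw [norm_pow, Circle.norm_coe, one_pow]]
  simp

theorem norm_sum_pow_le (z : Circle) (L : ℕ) {a : ℝ} (ha : 0 < a) (hz : a ≤ ‖(z : ℂ) - 1‖) :
    ‖∑ n : Fin L, (z : ℂ) ^ (n : ℕ)‖ ≤ 2 / a := by
  rw [Fin.sum_univ_eq_sum_range fun n => (z : ℂ) ^ n]
  have h0 : (z : ℂ) ≠ 1 := by
    intro h
    rw [h, sub_self, norm_zero] at hz
    linarith
  rw [geom_sum_eq h0, norm_div]
  have h1 : ‖(z : ℂ) ^ L - 1‖ ≤ 2 := by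
    refine (norm_sub_le _ _).trans ?_
    rw [norm_pow, Circle.norm_coe, one_pow, norm_one]
    norm_num
  exact div_le_div₀ (by norm_num) h1 ha hz

/-- the averages over the words are small if one letter is moved -/
theorem norm_sum_wordPow_le (χ : H →* Circle) {m : ℕ} (h : Fin m → H) {L : ℕ} (hL : 0 < L) {a : ℝ}
    (ha : 0 < a) (i0 : Fin m) (hi0 : a ≤ ‖(χ (h i0) : ℂ) - 1‖) :
    ‖∑ f : Fin m → Fin L, (χ (wordPow h f) : ℂ)‖ ≤ (Fintype.card (Fin m → Fin L)) * (2 / (a * L)) := by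
  classical
  rw [sum_wordPow, norm_prod, ← Finset.mul_prod_erase Finset.univ _ (Finset.mem_univ i0)]
  have h1 : ∏ i ∈ Finset.univ.erase i0, ‖∑ n : Fin L, (χ (h i) : ℂ) ^ (n : ℕ)‖ ≤ (L : ℝ) ^ (m - 1) := by
    refine (Finset.prod_le_prod (fun i _ => norm_nonneg _)
      (fun i _ => norm_sum_pow_le_card (χ (h i)) L)).trans ?_
    rw [Finset.prod_const, Finset.card_erase_of_mem (Finset.mem_univ i0), Finset.card_univ,
      Fintype.card_fin]
  have hL' : (0 : ℝ) < L := Nat.cast_pos.2 hL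
  have hm : 0 < m := lt_of_le_of_lt (Nat.zero_le _) i0.2
  have h2 : (Fintype.card (Fin m → Fin L) : ℝ) = (L : ℝ) ^ (m - 1) * L := by
    rw [Fintype.card_fun, Fintype.card_fin, Fintype.card_fin, ← pow_succ, Nat.sub_add_cancel hm]
    push_cast
    rfl
  calc ‖∑ n : Fin L, (χ (h i0) : ℂ) ^ (n : ℕ)‖ *
        ∏ i ∈ Finset.univ.erase i0, ‖∑ n : Fin L, (χ (h i) : ℂ) ^ (n : ℕ)‖
      ≤ (2 / a) * (L : ℝ) ^ (m - 1) :=
        mul_le_mul (norm_sum_pow_le _ L ha hi0) h1 (Finset.prod_nonneg fun i _ => norm_nonneg _)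
          (by positivity)
    _ = (Fintype.card (Fin m → Fin L)) * (2 / (a * L)) := by
        rw [h2]
        field_simp

end char

section conj
variable {G : Type w} [Group G] [TopologicalSpace G] [IsTopologicalGroup G]

/-- conjugation of the normal subgroup -/
def cjN (N : Subgroup G) [hN : N.Normal] (g : G) (h : N) : N :=
  ⟨g⁻¹ * h * g, by
    have := hN.conj_mem h h.2 g⁻¹
    rwa [inv_inv] at this⟩

theorem cjN_coe (N : Subgroup G) [N.Normal] (g : G) (h : N) : (cjN N g h : G) = g⁻¹ * h * g := rfl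

theorem cjN_mul (N : Subgroup G) [N.Normal] (g : G) (h k : N) :
    cjN N g (h * k) = cjN N g h * cjN N g k := by
  apply Subtype.ext
  rw [Subgroup.coe_mul, cjN_coe, cjN_coe, cjN_coe, Subgroup.coe_mul]
  group

theorem cjN_one (N : Subgroup G) [N.Normal] (g : G) : cjN N g 1 = 1 := by
  apply Subtype.ext
  rw [cjN_coe, Subgroup.coe_one]
  group

theorem cjN_cont (N : Subgroup G) [N.Normal] : Continuous fun p : G × N => cjN N p.1 p.2 := by
  refine Continuous.subtype_mk ?_ _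
  exact ((continuous_fst.inv).mul (continuous_subtype_val.comp continuous_snd)).mul continuous_fst

theorem cjN_surj (N : Subgroup G) [hN : N.Normal] (g : G) (h : N) : ∃ k, cjN N g k = h := by
  refine ⟨⟨g * h * g⁻¹, hN.conj_mem h h.2 g⟩, ?_⟩
  apply Subtype.ext
  rw [cjN_coe]
  group

/-- the conjugated character -/
noncomputable def cjChar (N : Subgroup G) [N.Normal] (χ : N →* Circle) (g : G) : N →* Circle where
  toFun h := χ (cjN N g h)
  map_one' := by rw [cjN_one, map_one]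
  map_mul' a b := by rw [cjN_mul, map_mul]

theorem cjChar_apply (N : Subgroup G) [N.Normal] (χ : N →* Circle) (g : G) (h : N) :
    cjChar N χ g h = χ (cjN N g h) := rfl

/-- finitely many elements of the normal subgroup move the character over a compact set -/
theorem exists_letters (N : Subgroup G) [N.Normal] (χ : N →* Circle) (hχ : Continuous χ)
    (hne : ∃ h, χ h ≠ 1) (Θ : Set G) (hΘ : IsCompact Θ) :
    ∃ (m : ℕ) (h : Fin m → N) (a : ℝ), 0 < a ∧ ∀ g ∈ Θ, ∃ i, a ≤ ‖(cjChar N χ g (h i) : ℂ) - 1‖ := by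
  classical
  obtain ⟨h1, hh1⟩ := hne
  have hex : ∀ g : G, ∃ h : N, cjChar N χ g h ≠ 1 := by
    intro g
    obtain ⟨k, hk⟩ := cjN_surj N g h1
    exact ⟨k, by rw [cjChar_apply, hk]; exact hh1⟩
  choose k hk using hex
  have hd : ∀ g : G, 0 < ‖(cjChar N χ g (k g) : ℂ) - 1‖ := by
    intro g
    rw [norm_pos_iff, sub_ne_zero]
    intro h
    exact hk g (Circle.ext h)
  have hcont : ∀ h : N, Continuous fun g : G => ‖(cjChar N χ g h : ℂ) - 1‖ := by
    intro h
    have h2 : Continuous fun g : G => cjN N g h :=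
      (cjN_cont N).comp (continuous_id.prodMk continuous_const)
    exact ((continuous_subtype_val.comp (hχ.comp h2)).sub continuous_const).norm
  have hnh : ∀ g : G, {g' : G | ‖(cjChar N χ g (k g) : ℂ) - 1‖ / 2
      < ‖(cjChar N χ g' (k g) : ℂ) - 1‖} ∈ 𝓝 g := by
    intro g
    refine (hcont (k g)).continuousAt.eventually (lt_mem_nhds ?_)
    linarith [hd g]
  obtain ⟨t, ht, hcov⟩ := hΘ.elim_nhds_subcover _ fun g _ => hnh g
  rcases t.eq_empty_or_nonempty with h0 | h0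
  · refine ⟨0, Fin.elim0, 1, one_pos, fun g hg => ?_⟩
    have := hcov hg
    rw [h0] at this
    simp at this
  obtain ⟨g0, hg0, hmin⟩ := t.exists_min_image (fun g => ‖(cjChar N χ g (k g) : ℂ) - 1‖ / 2) h0
  refine ⟨t.card, fun i => k (t.equivFin.symm i), ‖(cjChar N χ g0 (k g0) : ℂ) - 1‖ / 2,
    by linarith [hd g0], fun g hg => ?_⟩
  obtain ⟨g1, hg1, hg2⟩ := Set.mem_iUnion₂.1 (hcov hg)
  refine ⟨t.equivFin ⟨g1, hg1⟩, ?_⟩
  have h3 : (t.equivFin.symm (t.equivFin ⟨g1, hg1⟩) : G) = g1 := by rw [Equiv.symm_apply_apply]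
  change _ ≤ ‖(cjChar N χ g (k (t.equivFin.symm (t.equivFin ⟨g1, hg1⟩) : G)) : ℂ) - 1‖
  rw [h3]
  exact (hmin g1 hg1).trans (le_of_lt hg2)

end conj

section rough
variable {A : Type u} [CStarAlgebra A] [PartialOrder A] [StarOrderedRing A]
  {K : Type v} [NormedAddCommGroup K] [InnerProductSpace ℂ K] [CompleteSpace K]
variable {G : Type w} [Group G] [TopologicalSpace G] [IsTopologicalGroup G] {T : TrAlg A K}

/-- **input (e) of the composition** -/
theorem TrAct.exists_rough (S : TrAct G T) (N : Subgroup G) [N.Normal]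
    (hkey : ∀ (χ : N →* Circle) (hχ : Continuous χ),
      ((S.cm N.subtype continuous_subtype_val).twist 2 (tw2 χ) (tw2_cont hχ)).Key)
    (hchar : HasSmallChar N) {b1 b2 : A} (hb1 : ∀ h : N, S.α h b1 = b1)
    (hb2 : ∀ h : N, S.α h b2 = b2) (hs1 : star b1 = b1) (hs2 : star b2 = b2)
    (hn1 : b1 ≠ 0) (hn2 : b2 ≠ 0) (Θ : Set G) (hΘ : IsCompact Θ) (K0 : Set N) (hK0 : IsCompact K0)
    (κ : ℝ) (hκ : 0 < κ) :
    ∃ u : A, ‖u‖ ≤ 1 ∧ ‖T.ι b1‖ ^ 2 * ‖T.ι b2‖ ^ 2 / 4 ≤ ‖T.ι (b1 * u * b2)‖ ^ 2 ∧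
      (∀ g ∈ Θ, ∀ h ∈ K0, ‖T.ι (S.α h (S.α g (b1 * u * b2)) - S.α g (b1 * u * b2))‖ ≤ κ) ∧
      ∃ (J : Type) (_ : Fintype J) (_ : Nonempty J) (h : J → N), ∀ g ∈ Θ,
        ‖T.ι (∑ j, S.α (h j) (S.α g (b1 * u * b2)))‖ ≤ κ * Fintype.card J := by
  classical
  obtain ⟨β, hβ⟩ : ∃ β : ℝ, β = ‖b1‖ * ‖b2‖ := ⟨_, rfl⟩
  have hβ0 : 0 ≤ β := by rw [hβ]; positivity
  obtain ⟨mm, hmm⟩ : ∃ mm : ℝ, mm = ‖T.ι b1‖ ^ 2 * ‖T.ι b2‖ ^ 2 := ⟨_, rfl⟩
  have hmm0 : 0 < mm := by
    have := T.norm_ι_pos hn1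
    have := T.norm_ι_pos hn2
    rw [hmm]; positivity
  -- the small character
  obtain ⟨D0, hD0⟩ : ∃ D0 : Set N, D0 = (fun p : G × N => cjN N p.1 p.2) '' (Θ ×ˢ K0) := ⟨_, rfl⟩
  have hD0c : IsCompact D0 := by rw [hD0]; exact (hΘ.prod hK0).image (cjN_cont N)
  obtain ⟨χ, hχ, hχne, hχD⟩ := hchar D0 hD0c (κ / (2 * (β + 1))) (by positivity)
  obtain ⟨m, l, a, ha, hl⟩ := exists_letters N χ hχ hχne Θ hΘ
  obtain ⟨L, hL⟩ := exists_nat_gt (4 * (β + 1) / (a * κ))
  have hL0 : 0 < L := by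
    rcases Nat.eq_zero_or_pos L with h | h
    · rw [h] at hL
      have : 0 < 4 * (β + 1) / (a * κ) := by positivity
      push_cast at hL
      linarith
    · exact h
  have hLr : (0 : ℝ) < L := Nat.cast_pos.2 hL0
  obtain ⟨D1, hD1⟩ : ∃ D1 : Set N, D1 = ⋃ f : Fin m → Fin L,
      (fun g : G => cjN N g (wordPow l f)) '' Θ := ⟨_, rfl⟩
  have hD1c : IsCompact D1 := by
    rw [hD1]
    refine isCompact_iUnion fun f => hΘ.image ?_
    exact (cjN_cont N).comp (continuous_id.prodMk continuous_const)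
  obtain ⟨ε, hε⟩ : ∃ ε : ℝ, ε = min (mm / 4) (κ / (2 * (β + 1))) := ⟨_, rfl⟩
  have hε0 : 0 < ε := by rw [hε]; exact lt_min (by positivity) (by positivity)
  have hε1 : ε ≤ mm / 4 := by rw [hε]; exact min_le_left _ _
  have hε2 : ε ≤ κ / (2 * (β + 1)) := by rw [hε]; exact min_le_right _ _
  obtain ⟨u, hu, huC, hum⟩ := (S.cm N.subtype continuous_subtype_val).exists_eigen χ hχ
    (hkey χ hχ) hb1 hb2 hs1 hs2 (D0 ∪ D1) (hD0c.union hD1c) ε hε0
  obtain ⟨e, he⟩ : ∃ e : A, e = b1 * u * b2 := ⟨_, rfl⟩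
  have hen : ‖T.ι e‖ ≤ β := by
    refine (T.norm_le e).trans ?_
    rw [he, hβ]
    calc ‖b1 * u * b2‖ ≤ ‖b1‖ * ‖u‖ * ‖b2‖ :=
          (norm_mul_le _ _).trans (by gcongr; exact norm_mul_le _ _)
      _ ≤ ‖b1‖ * 1 * ‖b2‖ := by gcongr
      _ = _ := by rw [mul_one]
  have heig : ∀ h : N, h ∈ D0 ∪ D1 → ‖T.ι (S.α h e - (χ h : ℂ) • e)‖ ≤ β * ε := by
    intro h hh
    have h1 : S.α h e - (χ h : ℂ) • e = b1 * (S.α h u - (χ h : ℂ) • u) * b2 := by
      rw [he, map_mul, map_mul, hb1, hb2, mul_sub, sub_mul, mul_smul_comm, smul_mul_assoc]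
    rw [h1]
    have h2 : ‖T.ι (S.α h u - (χ h : ℂ) • u)‖ ≤ ε := huC h hh
    calc ‖T.ι (b1 * (S.α h u - (χ h : ℂ) • u) * b2)‖
        ≤ ‖T.ι (b1 * (S.α h u - (χ h : ℂ) • u))‖ * ‖b2‖ := T.mul_le' _ _
      _ ≤ (‖b1‖ * ‖T.ι (S.α h u - (χ h : ℂ) • u)‖) * ‖b2‖ := by
          gcongr; exact T.mul_le _ _
      _ ≤ (‖b1‖ * ε) * ‖b2‖ := by gcongr
      _ = β * ε := by rw [hβ]; ring
  have hβκ : β * (κ / (2 * (β + 1))) ≤ κ / 2 := by
    rw [← mul_div_assoc, div_le_div_iff₀ (by positivity) (by norm_num)]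
    nlinarith
  have hβε : β * ε ≤ κ / 2 := (mul_le_mul_of_nonneg_left hε2 hβ0).trans hβκ
  have hconj : ∀ (g : G) (h : N) (x : A), S.α h (S.α g x) = S.α g (S.α (cjN N g h) x) := by
    intro g h x
    rw [← S.mul, ← S.mul, cjN_coe]
    congr 2
    group
  refine ⟨u, hu, ?_, ?_, ?_⟩
  · rw [← hmm]
    rw [← hmm] at hum
    linarith
  · intro g hg h hh
    rw [← he, hconj, ← map_sub, S.norm_map]
    have hm : cjN N g h ∈ D0 := by
      rw [hD0]
      exact ⟨(g, h), ⟨hg, hh⟩, rfl⟩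
    have h1 : S.α (cjN N g h) e - e = (S.α (cjN N g h) e - (χ (cjN N g h) : ℂ) • e)
        + ((χ (cjN N g h) : ℂ) - 1) • e := by
      rw [sub_smul, one_smul]
      abel
    rw [h1, map_add]
    refine (norm_add_le _ _).trans ?_
    have h2 := heig _ (Or.inl hm)
    have h3 : ‖T.ι (((χ (cjN N g h) : ℂ) - 1) • e)‖ ≤ (κ / (2 * (β + 1))) * β := by
      rw [map_smul, norm_smul]
      exact mul_le_mul (hχD _ hm) hen (norm_nonneg _) (by positivity)
    rw [mul_comm] at h3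
    linarith
  · refine ⟨Fin m → Fin L, inferInstance, ⟨fun _ => ⟨0, hL0⟩⟩, fun f => wordPow l f, ?_⟩
    intro g hg
    rw [← he]
    have h1 : ∑ f : Fin m → Fin L, S.α ((wordPow l f : N) : G) (S.α g e)
        = S.α g (∑ f : Fin m → Fin L, S.α (cjN N g (wordPow l f)) e) := by
      rw [map_sum]
      exact Finset.sum_congr rfl fun f _ => hconj _ _ _
    rw [h1, S.norm_map]
    have h2 : ∑ f : Fin m → Fin L, S.α (cjN N g (wordPow l f)) e
        = ∑ f : Fin m → Fin L, (S.α (cjN N g (wordPow l f)) e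
            - (χ (cjN N g (wordPow l f)) : ℂ) • e)
          + (∑ f : Fin m → Fin L, (cjChar N χ g (wordPow l f) : ℂ)) • e := by
      rw [Finset.sum_smul, ← Finset.sum_add_distrib]
      refine Finset.sum_congr rfl fun f _ => ?_
      rw [cjChar_apply, sub_add_cancel]
    rw [h2, map_add]
    refine (norm_add_le _ _).trans ?_
    obtain ⟨i0, hi0⟩ := hl g hg
    have h3 : ‖T.ι (∑ f : Fin m → Fin L, (S.α (cjN N g (wordPow l f)) e
        - (χ (cjN N g (wordPow l f)) : ℂ) • e))‖ ≤ Fintype.card (Fin m → Fin L) * (κ / 2) := by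
      rw [map_sum]
      refine (norm_sum_le _ _).trans ?_
      refine (Finset.sum_le_card_nsmul _ _ (κ / 2) fun f _ => ?_).trans ?_
      · refine (heig _ (Or.inr ?_)).trans hβε
        rw [hD1]
        exact Set.mem_iUnion.2 ⟨f, ⟨g, hg, rfl⟩⟩
      · rw [Finset.card_univ, nsmul_eq_mul]
    have h4 : ‖T.ι ((∑ f : Fin m → Fin L, (cjChar N χ g (wordPow l f) : ℂ)) • e)‖
        ≤ Fintype.card (Fin m → Fin L) * (κ / 2) := by
      rw [map_smul, norm_smul]
      have h5 := norm_sum_wordPow_le (cjChar N χ g) l hL0 ha i0 hi0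
      have h6 : 2 / (a * L) * β ≤ κ / 2 := by
        rw [div_lt_iff₀ (by positivity)] at hL
        rw [div_mul_eq_mul_div, div_le_div_iff₀ (by positivity) (by norm_num)]
        nlinarith
      calc ‖∑ f : Fin m → Fin L, (cjChar N χ g (wordPow l f) : ℂ)‖ * ‖T.ι e‖
          ≤ ((Fintype.card (Fin m → Fin L)) * (2 / (a * L))) * β :=
            mul_le_mul h5 hen (norm_nonneg _) (by positivity)
        _ = (Fintype.card (Fin m → Fin L)) * (2 / (a * L) * β) := by ring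
        _ ≤ _ := by gcongr
    linarith

end rough

end Pool.Agent.AbCoc
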