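import Pool.Agent.Lib_MP_418a80_t3.Fam
import Pool.Agent.Lib_MP_418a80_t3.Comp1

/-!
# MP_418a80_an, T3-EIG: families of a fixed precision give availability in a ball
-/

set_option autoImplicit false
set_option linter.unusedVariables false
set_option linter.unusedSectionVars false

open Topology Filter MeasureTheory
open scoped RealInnerProductSpace ComplexConjugate

namespace Pool.Agent.AbCoc

universe u v w z

/-- `|e^{is} - 1|² = 2 - 2 cos s` -/
theorem norm_ch_sub_one_sq (s : ℝ) : ‖ch s - 1‖ ^ 2 = 2 - 2 * Real.cos s := by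
  have h1 : ch s = (Real.cos s : ℂ) + (Real.sin s : ℂ) * Complex.I := by
    rw [ch, Complex.exp_mul_I, Complex.ofReal_cos, Complex.ofReal_sin]
  have h2 : ch s - 1 = ((Real.cos s - 1 : ℝ) : ℂ) + ((Real.sin s : ℝ) : ℂ) * Complex.I := by
    rw [h1]
    push_cast
    ring
  rw [h2, ← Complex.normSq_eq_norm_sq, Complex.normSq_add_mul_I]
  have := Real.sin_sq_add_cos_sq s
  nlinarith

theorem norm_ch_sub_ch_sq (s t : ℝ) : ‖ch s - ch t‖ ^ 2 = 2 - 2 * Real.cos (s - t) := by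
  have h : ch s - ch t = (ch (s - t) - 1) * ch t := by
    rw [sub_mul, one_mul, ← ch_add, sub_add_cancel]
  rw [h, norm_mul, norm_ch, mul_one, norm_ch_sub_one_sq]

/-- the mean square of `e^{iat} - 1` over a long interval -/
theorem integral_ch_ge (a L ρ : ℝ) (hρ : 0 < ρ) (ha : ρ ≤ |a|) (hL : L = 2 / ρ) :
    L ≤ ∫ t in (0 : ℝ)..L, (2 - 2 * Real.cos (a * t)) := by
  have ha0 : a ≠ 0 := by
    intro h
    rw [h, abs_zero] at ha
    linarith
  have hi1 : IntervalIntegrable (fun _ : ℝ => (2 : ℝ)) volume 0 L := intervalIntegrable_const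
  have hi2 : IntervalIntegrable (fun t : ℝ => 2 * Real.cos (a * t)) volume 0 L := by
    apply Continuous.intervalIntegrable
    fun_prop
  rw [intervalIntegral.integral_sub hi1 hi2, intervalIntegral.integral_const,
    intervalIntegral.integral_const_mul]
  have h3 : ∫ t in (0 : ℝ)..L, Real.cos (a * t) = a⁻¹ * Real.sin (a * L) := by
    rw [intervalIntegral.integral_comp_mul_left (fun x => Real.cos x) ha0, integral_cos]
    simp
  rw [h3]
  have h4 : a⁻¹ * Real.sin (a * L) ≤ 1 / ρ := by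
    calc a⁻¹ * Real.sin (a * L) ≤ |a⁻¹ * Real.sin (a * L)| := le_abs_self _
      _ = |a|⁻¹ * |Real.sin (a * L)| := by rw [abs_mul, abs_inv]
      _ ≤ ρ⁻¹ * 1 := by
          refine mul_le_mul ?_ (Real.abs_sin_le_one _) (abs_nonneg _) (by positivity)
          exact inv_anti₀ hρ ha
      _ = 1 / ρ := by ring
  have h5 : L = 2 * (1 / ρ) := by rw [hL]; ring
  simp only [sub_zero, smul_eq_mul]
  linarith

section
variable {A : Type u} [CStarAlgebra A] {K : Type v} [NormedAddCommGroup K]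
  [InnerProductSpace ℂ K] [CompleteSpace K]
variable {G : Type w} [Group G] [TopologicalSpace G] [IsTopologicalGroup G] {T : TrAlg A K}
  (S : TrAct G T)

/-- the mass of the labels far from `q` -/
theorem TrAct.mass_far (R : RSec G) {J : Type} [Fintype J] (x : J → A) (θ : J → ℝ) (q ρ m : ℝ)
    (hρ : 0 < ρ)
    (h : ∀ t : ℝ, |t| ≤ 2 / ρ → ∑ i, ‖ch (θ i * t) - ch (q * t)‖ ^ 2 * ‖T.ι (x i)‖ ^ 2 ≤ m)
    [DecidablePred fun i => θ i ∈ Metric.ball q ρ] :
    ∑ i, (if θ i ∈ Metric.ball q ρ then 0 else ‖T.ι (x i)‖ ^ 2) ≤ m := by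
  set L : ℝ := 2 / ρ with hL
  have hL0 : 0 < L := by positivity
  have hint : ∫ t in (0 : ℝ)..L, ∑ i, (2 - 2 * Real.cos ((θ i - q) * t)) * ‖T.ι (x i)‖ ^ 2
      ≤ ∫ t in (0 : ℝ)..L, m := by
    refine intervalIntegral.integral_mono_on hL0.le ?_ intervalIntegrable_const ?_
    · apply Continuous.intervalIntegrable
      fun_prop
    · intro t ht
      have ht' : |t| ≤ 2 / ρ := by
        rw [abs_of_nonneg ht.1]
        exact ht.2
      refine le_trans (le_of_eq (Finset.sum_congr rfl fun i _ => ?_)) (h t ht')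
      rw [norm_ch_sub_ch_sq, ← sub_mul]
  rw [intervalIntegral.integral_const, intervalIntegral.integral_finsetSum
    (fun i _ => by apply Continuous.intervalIntegrable; fun_prop)] at hint
  simp only [sub_zero, smul_eq_mul] at hint
  have hlow : ∀ i, L * (if θ i ∈ Metric.ball q ρ then 0 else ‖T.ι (x i)‖ ^ 2)
      ≤ ∫ t in (0 : ℝ)..L, (2 - 2 * Real.cos ((θ i - q) * t)) * ‖T.ι (x i)‖ ^ 2 := by
    intro i
    rw [intervalIntegral.integral_mul_const]
    split_ifs with hi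
    · rw [mul_zero]
      refine mul_nonneg ?_ (sq_nonneg _)
      refine intervalIntegral.integral_nonneg hL0.le fun t _ => ?_
      have := Real.cos_le_one ((θ i - q) * t)
      linarith
    · refine mul_le_mul_of_nonneg_right ?_ (sq_nonneg _)
      refine integral_ch_ge _ L ρ hρ ?_ hL
      rw [Metric.mem_ball, not_lt, Real.dist_eq] at hi
      exact hi
  have h6 : L * ∑ i, (if θ i ∈ Metric.ball q ρ then 0 else ‖T.ι (x i)‖ ^ 2) ≤ L * m := by
    rw [Finset.mul_sum]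
    exact (Finset.sum_le_sum fun i _ => hlow i).trans hint
  exact le_of_mul_le_mul_left h6 hL0

/-- T3-EIG with the cells lemma as hypothesis -/
theorem TrAct.labA_of_prec_cells (R : RSec G)
    (hcells : ∀ (D : Set G) (hD : IsCompact D) (κ C : ℝ) (hκ : 0 < κ),
      ∃ (D' : Set G) (κ' : ℝ), IsCompact D' ∧ 0 < κ' ∧
      ∀ (b : A) (J : Type) [Fintype J] (y : J → A), S.Fixed b → (∀ j, b * y j = y j) →
        (∀ j, y j * b = y j) → T.Dm C y →
        (∀ h ∈ D', R.p h = 0 → ∑ j, ‖T.ι (S.α h (y j) - y j)‖ ^ 2 ≤ κ') →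
        ∃ (J' : Type) (_ : Fintype J') (x : J' → A) (θ : J' → ℝ),
          S.IsLab (pch R.p) Set.univ b D κ C x θ ∧ T.ms x = T.ms y ∧
          ∀ g ∈ D, ∀ ζ : ℂ, ‖ζ‖ = 1 →
            ∑ i, ‖T.ι (S.α g (x i) - ζ • x i)‖ ^ 2
              ≤ 2 * ∑ j, ‖T.ι (S.α g (y j) - ζ • y j)‖ ^ 2 + κ ∧
            ∑ j, ‖T.ι (S.α g (y j) - ζ • y j)‖ ^ 2
              ≤ 2 * ∑ i, ‖T.ι (S.α g (x i) - ζ • x i)‖ ^ 2 + κ)
    (b : A) (hb : S.Fixed b) (q ρ : ℝ) (hρ : 0 < ρ)
    (h : ∃ C c : ℝ, 0 < c ∧ ∀ D : Set G, IsCompact D → ∀ κ : ℝ, 0 < κ →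
      ∃ (J : Type) (_ : Fintype J) (y : J → A), (∀ j, b * y j = y j) ∧ (∀ j, y j * b = y j) ∧
        T.Dm C y ∧ c ≤ T.ms y ∧
        (∀ h ∈ D, R.p h = 0 → ∑ j, ‖T.ι (S.α h (y j) - y j)‖ ^ 2 ≤ κ) ∧
        (∀ t, |t| ≤ 2 / ρ →
          ∑ j, ‖T.ι (S.α (R.s t) (y j) - ch (q * t) • y j)‖ ^ 2 ≤ T.ms y / 16)) :
    S.LabA (pch R.p) (Metric.ball q ρ) b := by
  classical
  obtain ⟨C, c, hc, h⟩ := h
  refine ⟨C, c / 2, by positivity, fun D hD κ hκ => ?_⟩
  have hD1 : IsCompact (D ∪ R.s '' Set.Icc (-(2 / ρ)) (2 / ρ)) :=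
    hD.union (isCompact_Icc.image R.hs)
  have hκc : 0 < min κ (c / 64) := lt_min hκ (by positivity)
  obtain ⟨D', κ', hD', hκ', hc2⟩ := hcells _ hD1 (min κ (c / 64)) C hκc
  obtain ⟨J, hJ, y, hby, hyb, hDm, hms, hker, hprec⟩ := h D' hD' κ' hκ'
  obtain ⟨J', hJ', x, θ, hlab, hmsx, hcmp⟩ := hc2 b J y hb hby hyb hDm hker
  have hkey : ∀ t : ℝ, |t| ≤ 2 / ρ →
      ∑ i, ‖ch (θ i * t) - ch (q * t)‖ ^ 2 * ‖T.ι (x i)‖ ^ 2 ≤ T.ms y / 4 + c / 16 := by
    intro t ht
    have htD : R.s t ∈ D ∪ R.s '' Set.Icc (-(2 / ρ)) (2 / ρ) :=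
      Or.inr ⟨t, abs_le.mp ht, rfl⟩
    have h1 := hlab.ne _ htD
    have h2 := (hcmp _ htD (ch (q * t)) (norm_ch _)).1
    have h3 := hprec t ht
    have h4 : ∀ i, ‖ch (θ i * t) - ch (q * t)‖ ^ 2 * ‖T.ι (x i)‖ ^ 2
        ≤ 2 * ‖T.ι (S.α (R.s t) (x i) - pch R.p (θ i) (R.s t) • x i)‖ ^ 2
          + 2 * ‖T.ι (S.α (R.s t) (x i) - ch (q * t) • x i)‖ ^ 2 := by
      intro i
      have e1 : pch R.p (θ i) (R.s t) = ch (θ i * t) := by
        rw [pch, R.ps]
        congr 1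
        simp [mul_comm]
      rw [e1, ← T.norm_smul_sq]
      have e2 : (ch (θ i * t) - ch (q * t)) • x i
          = (S.α (R.s t) (x i) - ch (q * t) • x i) - (S.α (R.s t) (x i) - ch (θ i * t) • x i) := by
        rw [sub_smul]
        abel
      rw [e2, map_sub T.ι (S.α (R.s t) (x i) - ch (q * t) • x i)]
      have e3 := norm_sub_le (T.ι (S.α (R.s t) (x i) - ch (q * t) • x i))
        (T.ι (S.α (R.s t) (x i) - ch (θ i * t) • x i))
      have e4 := pow_le_pow_left₀ (norm_nonneg _) e3 2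
      nlinarith [sq_nonneg (‖T.ι (S.α (R.s t) (x i) - ch (q * t) • x i)‖
        - ‖T.ι (S.α (R.s t) (x i) - ch (θ i * t) • x i)‖)]
    have h5 := Finset.sum_le_sum fun i (_ : i ∈ Finset.univ) => h4 i
    rw [Finset.sum_add_distrib, ← Finset.mul_sum, ← Finset.mul_sum] at h5
    have h6 : min κ (c / 64) ≤ c / 64 := min_le_right _ _
    linarith
  have hfar := TrAct.mass_far (T := T) R x θ q ρ _ hρ hkey
  have hcut := hlab.cut (Metric.ball q ρ) q (Metric.mem_ball_self hρ)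
  refine ⟨J', hJ', _, _, hcut.mono subset_rfl Set.subset_union_left (min_le_left _ _) le_rfl, ?_⟩
  have hsum : T.ms (fun j => if θ j ∈ Metric.ball q ρ then x j else 0)
      + ∑ i, (if θ i ∈ Metric.ball q ρ then 0 else ‖T.ι (x i)‖ ^ 2) = T.ms x := by
    unfold TrAlg.ms
    rw [← Finset.sum_add_distrib]
    refine Finset.sum_congr rfl fun i _ => ?_
    beta_reduce
    by_cases hi : θ i ∈ Metric.ball q ρ
    · rw [if_pos hi, if_pos hi, add_zero]
    · rw [if_neg hi, if_neg hi, map_zero, norm_zero, zero_pow two_ne_zero, zero_add]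
  linarith

end

end Pool.Agent.AbCoc
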