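import Pool.Agent.Lib_MP_418a80_t3.Lab0
import Pool.Agent.Lib_MP_418a80_nm.Comm
import Pool.Agent.Lib_MP_418a80_ab.FamDom

/-!
# Weak limits of the marginals of labelled families

`S.Att chi B b w v`: `(w, v)` is a pair of weak limits of the marginals `ll y`, `rr y` of uniformly
dominated labelled families in the corner `b`.
-/

set_option autoImplicit false
set_option linter.unusedVariables false
set_option linter.unusedSectionVars false

open Topology Filter MeasureTheory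

namespace Pool.Agent.AbCoc

universe u v w z

attribute [local instance] CStarAlgebra.spectralOrder CStarAlgebra.spectralOrderedRing

section
variable {A : Type u} [CStarAlgebra A] {K : Type v} [NormedAddCommGroup K]
  [InnerProductSpace ℂ K] [CompleteSpace K] {T : TrAlg A K} {L : Type*} {U : Ultrafilter L}

theorem TrAlg.weak_star {x : L → A} {w : A}
    (h : ∀ p : A, Tendsto (fun n => T.τ (p * x n)) U (𝓝 (T.τ (p * w)))) (p : A) :
    Tendsto (fun n => T.τ (p * star (x n))) U (𝓝 (T.τ (p * star w))) := by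
  have e : ∀ y : A, T.τ (p * star y) = (starRingEnd ℂ) (T.τ (star p * y)) := by
    intro y
    rw [← T.τ_star, star_mul, star_star, T.τ_mul_comm]
  simp only [e]
  exact (Complex.continuous_conj.tendsto _).comp (h (star p))

/-- weak limits of positive elements are positive -/
theorem TrAlg.weak_nonneg {x : L → A} {w : A}
    (h : ∀ p : A, Tendsto (fun n => T.τ (p * x n)) U (𝓝 (T.τ (p * w)))) (h0 : ∀ n, 0 ≤ x n) :
    0 ≤ w := by
  have hsa : IsSelfAdjoint w := by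
    rw [isSelfAdjoint_iff, ← sub_eq_zero]
    refine T.eq_zero_of_τ _ fun p => ?_
    have h1 := TrAlg.weak_star h p
    have h2 : (fun n => T.τ (p * star (x n))) = fun n => T.τ (p * x n) := by
      funext n
      rw [(IsSelfAdjoint.of_nonneg (h0 n)).star_eq]
    rw [h2] at h1
    rw [mul_sub, T.τ_sub, tendsto_nhds_unique h1 (h p), sub_self]
  refine T.nonneg_of_τ hsa fun a => ?_
  have e : ∀ y : A, T.τ (star a * y * a) = T.τ ((a * star a) * y) := by
    intro y
    rw [T.τ_mul_comm, mul_assoc]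
  rw [e]
  have h1 := (Complex.continuous_re.tendsto _).comp (h (a * star a))
  refine ge_of_tendsto' h1 fun n => ?_
  change 0 ≤ (T.τ ((a * star a) * x n)).re
  rw [← e]
  exact T.re_τ_conj_nonneg a (x n) (h0 n)

theorem TrAlg.weak_le {x : L → A} {w X : A}
    (h : ∀ p : A, Tendsto (fun n => T.τ (p * x n)) U (𝓝 (T.τ (p * w)))) (h0 : ∀ n, x n ≤ X) :
    w ≤ X := by
  rw [← sub_nonneg]
  refine TrAlg.weak_nonneg (T := T) (U := U) (x := fun n => X - x n) (fun p => ?_)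
    fun n => sub_nonneg.2 (h0 n)
  simp only [mul_sub, T.τ_sub]
  exact tendsto_const_nhds.sub (h p)

end

section
variable {A : Type u} [CStarAlgebra A] {K : Type v} [NormedAddCommGroup K]
  [InnerProductSpace ℂ K] [CompleteSpace K]
  {G : Type w} [Group G] [TopologicalSpace G] {T : TrAlg A K} {Q : Type z}

/-- attained pairs of marginals -/
def TrAct.Att (S : TrAct G T) (chi : Q → G → ℂ) (B : Set Q) (b w v : A) : Prop :=
  ∃ C : ℝ, ∀ D : Set G, IsCompact D → ∀ κ : ℝ, 0 < κ → ∀ Z : Finset A,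
    ∃ (J : Type) (_ : Fintype J) (y : J → A) (r : J → Q), S.IsLab chi B b D κ C y r ∧
      ∀ z ∈ Z, ‖T.τ (z * ll y) - T.τ (z * w)‖ ≤ κ ∧ ‖T.τ (z * rr y) - T.τ (z * v)‖ ≤ κ

variable {S : TrAct G T} {chi : Q → G → ℂ} {B : Set Q} {b : A} {C κ : ℝ} {D : Set G}
  {J : Type} [Fintype J] {y : J → A} {r : J → Q}

/-- the left marginal of a labelled family is almost invariant -/
theorem TrAct.lab_near_ll (h : S.IsLab chi B b D κ C y r) (hχ : ∀ q g, ‖chi q g‖ = 1) {g : G}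
    (hg : g ∈ D) (p : A) :
    ‖T.τ (p * (S.α g (ll y) - ll y))‖ ≤ 2 * (‖p‖ * (√C * √κ)) := by
  have hC := h.dm.nonneg
  obtain ⟨d, hd⟩ : ∃ d : J → A, ∀ j, d j = S.α g (y j) - chi (r j) g • y j := ⟨_, fun _ => rfl⟩
  have hd2 : ∑ j, ‖T.ι (d j)‖ ^ 2 ≤ √κ ^ 2 := by
    have h1 : 0 ≤ κ := le_trans (Finset.sum_nonneg fun j _ => by positivity) (h.ne g hg)
    rw [Real.sq_sqrt h1]
    simp only [hd]
    exact h.ne g hg
  have hy2 : ∑ j, ‖T.ι (y j)‖ ^ 2 ≤ √C ^ 2 := by
    rw [Real.sq_sqrt hC]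
    exact h.dm.ms_le
  have hchi : ∀ j, chi (r j) g * starRingEnd ℂ (chi (r j) g) = 1 := by
    intro j
    rw [Complex.mul_conj, Complex.normSq_eq_norm_sq, hχ]
    norm_num
  have e1 : S.α g (ll y) - ll y = ∑ j, (d j * star (S.α g (y j))
      + (chi (r j) g • y j) * star (d j)) := by
    unfold ll
    rw [map_sum, ← Finset.sum_sub_distrib]
    refine Finset.sum_congr rfl fun j _ => ?_
    have e2 : (chi (r j) g • y j) * star (chi (r j) g • y j) = y j * star (y j) := by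
      rw [star_smul, smul_mul_smul_comm, RCLike.star_def, hchi, one_smul]
    rw [map_mul, map_star, ← e2, hd]
    rw [star_sub]
    noncomm_ring
  have e3 : ∀ j, ‖T.τ (p * (d j * star (S.α g (y j)) + (chi (r j) g • y j) * star (d j)))‖
      ≤ 2 * (‖p‖ * (‖T.ι (y j)‖ * ‖T.ι (d j)‖)) := by
    intro j
    rw [mul_add, T.τ_add]
    have a1 : ‖T.τ (p * (d j * star (S.α g (y j))))‖ ≤ ‖p‖ * (‖T.ι (y j)‖ * ‖T.ι (d j)‖) := by
      have e4 : T.τ (p * (d j * star (S.α g (y j))))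
          = inner ℂ (T.ι (S.α g (y j))) (T.ι (p * d j)) := by
        rw [T.inner_eq_τ, ← mul_assoc, T.τ_mul_comm]
      rw [e4]
      refine (norm_inner_le_norm _ _).trans ?_
      rw [S.norm_map]
      have := mul_le_mul_of_nonneg_left (T.mul_le p (d j)) (norm_nonneg (T.ι (y j)))
      refine this.trans (le_of_eq (by ring))
    have a2 : ‖T.τ (p * ((chi (r j) g • y j) * star (d j)))‖
        ≤ ‖p‖ * (‖T.ι (y j)‖ * ‖T.ι (d j)‖) := by
      have e4 : T.τ (p * ((chi (r j) g • y j) * star (d j)))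
          = inner ℂ (T.ι (d j)) (T.ι (p * (chi (r j) g • y j))) := by
        rw [T.inner_eq_τ, ← mul_assoc, T.τ_mul_comm]
      rw [e4]
      refine (norm_inner_le_norm _ _).trans ?_
      have h5 : ‖T.ι (chi (r j) g • y j)‖ = ‖T.ι (y j)‖ := by
        rw [map_smul, norm_smul, hχ, one_mul]
      have := mul_le_mul_of_nonneg_left (T.mul_le p (chi (r j) g • y j)) (norm_nonneg (T.ι (d j)))
      rw [h5] at this
      refine this.trans (le_of_eq (by ring))
    refine (norm_add_le _ _).trans ?_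
    linarith
  rw [e1, Finset.mul_sum, T.τ_sum_lab]
  refine (norm_sum_le _ _).trans ((Finset.sum_le_sum fun j _ => e3 j).trans ?_)
  rw [← Finset.mul_sum, ← Finset.mul_sum]
  have h6 := sum_mul_le_of_sq_sq (fun j => ‖T.ι (y j)‖) (fun j => ‖T.ι (d j)‖) √C √κ
    (Real.sqrt_nonneg _) (Real.sqrt_nonneg _) hy2 hd2
  have h7 := mul_le_mul_of_nonneg_left h6 (norm_nonneg p)
  linarith

theorem TrAct.lab_near_rr (h : S.IsLab chi B b D κ C y r) (hb : star b = b)
    (hχ : ∀ q g, ‖chi q g‖ = 1) {g : G} (hg : g ∈ D) (p : A) :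
    ‖T.τ (p * (S.α g (rr y) - rr y))‖ ≤ 2 * (‖p‖ * (√C * √κ)) := by
  have h1 := TrAct.lab_near_ll (h.star hb) (fun q g => by
    change ‖starRingEnd ℂ (chi q g)‖ = 1
    rw [RCLike.norm_conj, hχ]) hg p
  rwa [ll_star] at h1

theorem TrAct.τ_mul_α (S : TrAct G T) (g : G) (p x : A) :
    T.τ (p * S.α g x) = T.τ (S.α g⁻¹ p * x) := by
  have h1 : T.τ (S.α g⁻¹ (p * S.α g x)) = T.τ (p * S.α g x) := S.hyp_τ_α g⁻¹ _
  rw [← h1, map_mul, S.inv_apply]

/-- weak limits of marginals are fixed -/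
theorem TrAct.fixed_of_weak {L : Type*} {U : Ultrafilter L} {x : L → A} {w : A}
    (h : ∀ p : A, Tendsto (fun n => T.τ (p * x n)) U (𝓝 (T.τ (p * w))))
    (h2 : ∀ (g : G) (p : A), Tendsto (fun n => T.τ (p * (S.α g (x n) - x n))) U (𝓝 0)) :
    S.Fixed w := by
  intro g
  rw [← sub_eq_zero]
  refine T.eq_zero_of_τ _ fun p => ?_
  have h3 : Tendsto (fun n => T.τ (p * S.α g (x n))) U (𝓝 (T.τ (p * S.α g w))) := by
    have h4 := h (S.α g⁻¹ p)
    rw [S.τ_mul_α]
    refine h4.congr fun n => ?_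
    rw [S.τ_mul_α]
  have h5 : Tendsto (fun n => T.τ (p * S.α g (x n))) U (𝓝 (0 + T.τ (p * w))) := by
    refine ((h2 g p).add (h p)).congr fun n => ?_
    rw [mul_sub, T.τ_sub, sub_add_cancel]
  rw [mul_sub, T.τ_sub, tendsto_nhds_unique h3 h5, zero_add, sub_self]

theorem TrAct.exists_att (S : TrAct G T) (chi : Q → G → ℂ) (hχ : ∀ q g, ‖chi q g‖ = 1)
    (B : Set Q) (b : A) (hb : star b = b) (C c : ℝ) (X X' : A)
    (h : ∀ D : Set G, IsCompact D → ∀ κ : ℝ, 0 < κ →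
      ∃ (J : Type) (_ : Fintype J) (y : J → A) (r : J → Q), S.IsLab chi B b D κ C y r ∧
        ll y ≤ X ∧ rr y ≤ X' ∧ c ≤ T.ms y) :
    ∃ w v : A, S.Fixed w ∧ S.Fixed v ∧ 0 ≤ w ∧ 0 ≤ v ∧ w ≤ X ∧ v ≤ X' ∧ c ≤ (T.τ w).re ∧
      S.Att chi B b w v := by
  classical
  have hh := fun l : TopologicalSpace.Compacts G × ℕ =>
    h l.1 l.1.isCompact (1 / ((l.2 : ℝ) + 1)) (by positivity)
  choose J hJ y r hlab hX hX' hc using hh
  obtain ⟨U, hU⟩ : ∃ U : Ultrafilter (TopologicalSpace.Compacts G × ℕ), (U : Filter (TopologicalSpace.Compacts G × ℕ)) ≤ atTop :=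
    ⟨Ultrafilter.of atTop, Ultrafilter.of_le atTop⟩
  have hC : 0 ≤ C := (hlab (⊥, 0)).dm.nonneg
  have hev : ∀ (D : Set G), IsCompact D → ∀ κ : ℝ, 0 < κ →
      ∀ᶠ l in (U : Filter (TopologicalSpace.Compacts G × ℕ)),
        D ⊆ (l.1 : Set G) ∧ 1 / ((l.2 : ℝ) + 1) ≤ κ := by
    intro D hD κ hκ
    obtain ⟨N, hN⟩ := exists_nat_one_div_lt hκ
    refine hU ?_
    refine (eventually_ge_atTop ((⟨D, hD⟩ : TopologicalSpace.Compacts G), N)).mono fun l hl => ?_
    refine ⟨hl.1, ?_⟩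
    have h1 : (N : ℝ) ≤ (l.2 : ℝ) := by exact_mod_cast hl.2
    have h2 : 1 / ((l.2 : ℝ) + 1) ≤ 1 / ((N : ℝ) + 1) :=
      one_div_le_one_div_of_le (by positivity) (by linarith)
    linarith
  obtain ⟨w, hw⟩ := T.exists_weak U (fun l => ll (y l)) C fun l => (hlab l).dm.norm_ll
  obtain ⟨v, hv⟩ := T.exists_weak U (fun l => rr (y l)) C fun l => (hlab l).dm.norm_rr
  -- almost invariance
  have hlim0 : ∀ (g : G) (p : A) (f : TopologicalSpace.Compacts G × ℕ → ℂ),
      (∀ l : TopologicalSpace.Compacts G × ℕ, g ∈ (l.1 : Set G) →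
        ‖f l‖ ≤ 2 * (‖p‖ * (√C * √(1 / ((l.2 : ℝ) + 1))))) →
      Tendsto f U (𝓝 0) := by
    intro g p f hf
    rw [Metric.tendsto_nhds]
    intro ε hε
    obtain ⟨η, hη⟩ : ∃ η : ℝ, η = ε / (4 * (‖p‖ + 1) * (√C + 1)) := ⟨_, rfl⟩
    have hη0 : 0 < η := by rw [hη]; positivity
    filter_upwards [hev {g} isCompact_singleton (η ^ 2) (by positivity)] with l hl
    rw [dist_zero_right]
    have h1 := hf l (hl.1 rfl)
    have h2 : √(1 / ((l.2 : ℝ) + 1)) ≤ η := by
      rw [← Real.sqrt_sq hη0.le]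
      exact Real.sqrt_le_sqrt hl.2
    have h3 : ‖p‖ * (√C * √(1 / ((l.2 : ℝ) + 1))) ≤ (‖p‖ + 1) * ((√C + 1) * η) := by
      refine mul_le_mul (by linarith) (mul_le_mul (by linarith [Real.sqrt_nonneg C]) h2
        (Real.sqrt_nonneg _) (by positivity)) (by positivity) (by positivity)
    have h4 : (‖p‖ + 1) * ((√C + 1) * η) = ε / 4 := by
      rw [hη]
      have : √C + 1 ≠ 0 := by positivity
      field_simp
    linarith
  have hwf : S.Fixed w := S.fixed_of_weak hw fun g p => by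
    refine hlim0 g p _ fun l hl => ?_
    exact TrAct.lab_near_ll (hlab l) hχ hl p
  have hvf : S.Fixed v := S.fixed_of_weak hv fun g p => by
    refine hlim0 g p _ fun l hl => ?_
    exact TrAct.lab_near_rr (hlab l) hb hχ hl p
  refine ⟨w, v, hwf, hvf, TrAlg.weak_nonneg hw fun l => ll_nonneg _,
    TrAlg.weak_nonneg hv fun l => rr_nonneg _, TrAlg.weak_le hw hX, TrAlg.weak_le hv hX', ?_,
    C, ?_⟩
  · have h1 := (Complex.continuous_re.tendsto _).comp (hw 1)
    simp only [one_mul] at h1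
    refine ge_of_tendsto' h1 fun l => ?_
    change c ≤ (T.τ (ll (y l))).re
    rw [T.τ_ll]
    exact hc l
  · intro D hD κ hκ Z
    have h1 : ∀ᶠ l in (U : Filter (TopologicalSpace.Compacts G × ℕ)), ∀ z ∈ Z,
        ‖T.τ (z * ll (y l)) - T.τ (z * w)‖ ≤ κ ∧ ‖T.τ (z * rr (y l)) - T.τ (z * v)‖ ≤ κ := by
      rw [Filter.eventually_all_finset]
      intro z _
      have a1 := (tendsto_iff_norm_sub_tendsto_zero.1 (hw z)).eventually (ge_mem_nhds hκ)
      have a2 := (tendsto_iff_norm_sub_tendsto_zero.1 (hv z)).eventually (ge_mem_nhds hκ)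
      filter_upwards [a1, a2] with l h1 h2
      exact ⟨h1, h2⟩
    obtain ⟨l, hl1, hl2⟩ := (h1.and (hev D hD κ hκ)).exists
    exact ⟨J l, hJ l, y l, r l, (hlab l).mono subset_rfl hl2.1 hl2.2 le_rfl, hl1⟩

end

end Pool.Agent.AbCoc
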