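import Pool.Agent.Lib_MP_418a80_t3.Proj
import Pool.Agent.Lib_MP_418a80_t3.WkLim

/-!
# One-sided flattening (note 2291 (2))

If labels in `B` are available in every corner below the projection `b`, then there are labelled
families in `b A b` whose left marginal is `2`-norm close to a fixed `w ≤ b` with `τ (b - w) ≤ η`
and whose right marginal is `2`-norm close to a fixed `v ≤ (2 / η) b`.
-/

set_option autoImplicit false
set_option linter.unusedVariables false
set_option linter.unusedSectionVars false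

open Topology Filter MeasureTheory

namespace Pool.Agent.AbCoc

universe u v w z

attribute [local instance] CStarAlgebra.spectralOrder CStarAlgebra.spectralOrderedRing

/-- an increasing sequence which is almost maximal for a bounded function -/
theorem exists_seq_almost_max {X : Type*} [Preorder X] (φ : X → ℝ) (M : ℝ) (hM : ∀ x, φ x ≤ M)
    (x0 : X) :
    ∃ x : ℕ → X, Monotone x ∧ ∀ (n : ℕ) (y : X), x (n + 1) ≤ y →
      φ y ≤ φ (x (n + 1)) + 1 / ((n : ℝ) + 1) := by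
  have step : ∀ (x : X) (n : ℕ), ∃ y, x ≤ y ∧ ∀ z, y ≤ z → φ z ≤ φ y + 1 / ((n : ℝ) + 1) := by
    intro x n
    have hne : (φ '' {y | x ≤ y}).Nonempty := ⟨φ x, x, le_refl x, rfl⟩
    have hbd : BddAbove (φ '' {y | x ≤ y}) := by
      refine ⟨M, ?_⟩
      rintro _ ⟨y, _, rfl⟩
      exact hM y
    obtain ⟨_, ⟨y, hy, rfl⟩, hlt⟩ := exists_lt_of_lt_csSup hne
      (show sSup (φ '' {y | x ≤ y}) - 1 / ((n : ℝ) + 1) < sSup (φ '' {y | x ≤ y}) by
        have : 0 < 1 / ((n : ℝ) + 1) := by positivity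
        linarith)
    refine ⟨y, hy, fun z hz => ?_⟩
    have h1 : φ z ≤ sSup (φ '' {y | x ≤ y}) := le_csSup hbd ⟨z, le_trans hy hz, rfl⟩
    linarith
  choose f hf1 hf2 using step
  refine ⟨fun n => Nat.rec x0 (fun k x => f x k) n, ?_, ?_⟩
  · exact monotone_nat_of_le_succ fun n => hf1 _ n
  · intro n y hy
    exact hf2 _ n y hy

section
variable {A : Type u} [CStarAlgebra A] {K : Type v} [NormedAddCommGroup K]
  [InnerProductSpace ℂ K] [CompleteSpace K]
  {G : Type w} [Group G] [TopologicalSpace G] {T : TrAlg A K} {Q : Type z}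
  {S : TrAct G T} {chi : Q → G → ℂ} {B : Set Q} {b : A}

/-- monotonicity of `X ↦ τ (X Z)` for `Z ≥ 0` -/
theorem TrAlg.re_τ_mul_mono (T : TrAlg A K) {X Y Z : A} (h : X ≤ Y) (hZ : 0 ≤ Z) :
    (T.τ (X * Z)).re ≤ (T.τ (Y * Z)).re := by
  obtain ⟨s, rfl⟩ := CStarAlgebra.nonneg_iff_eq_star_mul_self.1 hZ
  have e : ∀ W : A, T.τ (W * (star s * s)) = T.τ (star (star s) * W * star s) := by
    intro W
    rw [star_star, ← mul_assoc, T.τ_mul_comm, ← mul_assoc]
  have h1 := T.re_τ_conj_nonneg (star s) (Y - X) (sub_nonneg.2 h)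
  rw [mul_sub, sub_mul, T.τ_sub, Complex.sub_re] at h1
  rw [e, e]
  linarith

/-- elements below a multiple of a projection -/
theorem mul_eq_of_le_prj {b w : A} {k : ℝ} (hb : star b = b) (hbb : b * b = b) (h0 : 0 ≤ w)
    (h : w ≤ k • b) : b * w = w ∧ w * b = w := by
  have hq : star (1 - b) = 1 - b := by rw [star_sub, star_one, hb]
  have h1 : (1 - b) * w * (1 - b) ≤ 0 := by
    have h2 := star_left_conjugate_le_conjugate h (1 - b)
    rw [hq] at h2
    refine h2.trans (le_of_eq ?_)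
    have : (1 - b) * (k • b) = 0 := by rw [mul_smul_comm, sub_mul, one_mul, hbb, sub_self, smul_zero]
    rw [this, zero_mul]
  obtain ⟨s, rfl⟩ := CStarAlgebra.nonneg_iff_eq_star_mul_self.1 h0
  have h2 : star (s * (1 - b)) * (s * (1 - b)) = 0 := by
    refine le_antisymm ?_ (star_mul_self_nonneg _)
    rw [star_mul, hq]
    refine le_trans (le_of_eq ?_) h1
    noncomm_ring
  have h3 : s * (1 - b) = 0 := CStarRing.star_mul_self_eq_zero_iff _ |>.1 h2
  have h4 : s * b = s := by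
    rw [mul_sub, mul_one, sub_eq_zero] at h3
    exact h3.symm
  have h5 : b * star s = star s := by
    have := congrArg star h4
    rwa [star_mul, hb] at this
  exact ⟨by rw [← mul_assoc, h5], by rw [mul_assoc, h4]⟩

/-- square roots of fixed elements -/
theorem TrAct.exists_sqrt (S : TrAct G T) {u : A} (hu : 0 ≤ u) (hf : S.Fixed u) :
    ∃ g : A, S.Fixed g ∧ 0 ≤ g ∧ star g = g ∧ g * g = u := by
  have hsa : IsSelfAdjoint u := IsSelfAdjoint.of_nonneg hu
  have hg0 : 0 ≤ cfc Real.sqrt u := cfc_nonneg fun t _ => Real.sqrt_nonneg t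
  refine ⟨cfc Real.sqrt u, S.fixed_cfc hsa hf Real.continuous_sqrt, hg0,
    (IsSelfAdjoint.of_nonneg hg0).star_eq, ?_⟩
  rw [← cfc_mul Real.sqrt Real.sqrt u Real.continuous_sqrt.continuousOn
    Real.continuous_sqrt.continuousOn]
  have h1 : cfc (fun t : ℝ => Real.sqrt t * Real.sqrt t) u = cfc (fun t : ℝ => t) u :=
    cfc_congr fun t ht => Real.mul_self_sqrt (spectrum_nonneg_of_nonneg hu ht)
  rw [h1, cfc_id' ℝ u]

theorem mul_eq_of_sq {b g : A} (hb : star b = b) (hg : star g = g) (h : b * (g * g) = g * g) :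
    b * g = g ∧ g * b = g := by
  have hq : star (1 - b) = 1 - b := by rw [star_sub, star_one, hb]
  have h1 : ((1 - b) * g) * star ((1 - b) * g) = 0 := by
    rw [star_mul, hg, hq]
    calc (1 - b) * g * (g * (1 - b)) = ((g * g) - b * (g * g)) * (1 - b) := by noncomm_ring
      _ = 0 := by rw [h, sub_self, zero_mul]
  have h2 : (1 - b) * g = 0 := CStarRing.mul_star_self_eq_zero_iff _ |>.1 h1
  have h3 : b * g = g := by
    rw [sub_mul, one_mul, sub_eq_zero] at h2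
    exact h2.symm
  have h4 := congrArg star h3
  rw [star_mul, hb, hg] at h4
  exact ⟨h3, h4⟩

/-! ### calculus of attained pairs -/

theorem TrAct.Att.zero (S : TrAct G T) (chi : Q → G → ℂ) (B : Set Q) (b : A) :
    S.Att chi B b 0 0 := by
  refine ⟨0, fun D hD κ hκ Z => ⟨Empty, inferInstance, _, _,
    TrAct.IsLab.empty S chi B b D hκ.le le_rfl, fun z hz => ?_⟩⟩
  have h1 : ll (fun j : Empty => (j.elim : A)) = 0 := by unfold ll; simp
  have h2 : rr (fun j : Empty => (j.elim : A)) = 0 := by unfold rr; simp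
  rw [h1, h2]
  simpa using hκ.le

theorem TrAct.Att.add {w v w' v' : A} (h : S.Att chi B b w v) (h' : S.Att chi B b w' v') :
    S.Att chi B b (w + w') (v + v') := by
  obtain ⟨C, hC⟩ := h
  obtain ⟨C', hC'⟩ := h'
  refine ⟨C + C', fun D hD κ hκ Z => ?_⟩
  obtain ⟨J, hJ, y, r, hy, hz⟩ := hC D hD (κ / 2) (by linarith) Z
  obtain ⟨J', hJ', y', r', hy', hz'⟩ := hC' D hD (κ / 2) (by linarith) Z
  refine ⟨J ⊕ J', inferInstance, Sum.elim y y', Sum.elim r r',
    (hy.union hy').mono subset_rfl subset_rfl (by linarith) le_rfl, fun z hzZ => ?_⟩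
  obtain ⟨a1, a2⟩ := hz z hzZ
  obtain ⟨a1', a2'⟩ := hz' z hzZ
  rw [ll_elim, rr_elim, mul_add, mul_add, mul_add, mul_add, T.τ_add, T.τ_add, T.τ_add, T.τ_add]
  constructor
  · refine le_trans (le_of_eq ?_) ((norm_add_le (T.τ (z * ll y) - T.τ (z * w))
      (T.τ (z * ll y') - T.τ (z * w'))).trans (by linarith))
    congr 1
    ring
  · refine le_trans (le_of_eq ?_) ((norm_add_le (T.τ (z * rr y) - T.τ (z * v))
      (T.τ (z * rr y') - T.τ (z * v'))).trans (by linarith))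
    congr 1
    ring

theorem TrAct.Att.τ_eq {w v : A} (h : S.Att chi B b w v) : T.τ w = T.τ v := by
  obtain ⟨C, hC⟩ := h
  rw [← sub_eq_zero, ← norm_eq_zero]
  refine le_antisymm (le_of_forall_pos_le_add fun ε hε => ?_) (norm_nonneg _)
  obtain ⟨J, hJ, y, r, hy, hz⟩ := hC ∅ isCompact_empty (ε / 2) (by linarith) {1}
  obtain ⟨a1, a2⟩ := hz 1 (Finset.mem_singleton_self 1)
  rw [one_mul, one_mul] at a1 a2
  have e : T.τ w - T.τ v = (T.τ (rr y) - T.τ v) - (T.τ (ll y) - T.τ w) := by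
    rw [T.τ_ll_eq_rr]
    ring
  rw [e]
  refine (norm_sub_le _ _).trans ?_
  linarith

/-- averaging: weak approximation can be replaced by approximation in `2`-norm -/
theorem TrAct.Att.two_norm {w v : A} (h : S.Att chi B b w v) :
    ∃ C : ℝ, ∀ D : Set G, IsCompact D → ∀ κ : ℝ, 0 < κ →
      ∃ (J : Type) (_ : Fintype J) (y : J → A) (r : J → Q), S.IsLab chi B b D κ C y r ∧
        ‖T.ι (ll y - w)‖ ≤ κ ∧ ‖T.ι (rr y - v)‖ ≤ κ := by
  classical
  obtain ⟨C, hC⟩ := h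
  refine ⟨C, fun D hD => ?_⟩
  have hC0 : 0 ≤ C := by
    obtain ⟨J, hJ, y, r, hy, hz⟩ := hC ∅ isCompact_empty 1 one_pos ∅
    exact hy.dm.nonneg
  obtain ⟨M, hM⟩ : ∃ M : ℝ, M = C + ‖w‖ + ‖v‖ := ⟨_, rfl⟩
  have hM0 : 0 ≤ M := by rw [hM]; positivity
  have hbd : ∀ {J : Type} [Fintype J] {y : J → A}, T.Dm C y →
      ‖T.ι (ll y - w)‖ ^ 2 ≤ M ^ 2 ∧ ‖T.ι (rr y - v)‖ ^ 2 ≤ M ^ 2 := by
    intro J _ y hy
    constructor
    · refine pow_le_pow_left₀ (norm_nonneg _) ((T.norm_le _).trans ((norm_sub_le _ _).trans ?_)) 2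
      have := hy.norm_ll
      have := norm_nonneg v
      rw [hM]
      linarith
    · refine pow_le_pow_left₀ (norm_nonneg _) ((T.norm_le _).trans ((norm_sub_le _ _).trans ?_)) 2
      have := hy.norm_rr
      have := norm_nonneg w
      rw [hM]
      linarith
  -- convex combinations
  have hcomb : ∀ (s κ2 : ℝ), 0 ≤ s → s ≤ 1 → ∀ a a' : A, ‖T.τ (star a * a')‖ ≤ κ2 →
      ‖T.ι ((s : ℂ) • a + ((1 - s : ℝ) : ℂ) • a')‖ ^ 2
        ≤ s ^ 2 * ‖T.ι a‖ ^ 2 + (1 - s) ^ 2 * ‖T.ι a'‖ ^ 2 + 2 * (s * (1 - s)) * κ2 := by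
    intro s κ2 hs0 hs1 a a' haa
    have h1 := @norm_add_sq ℂ K _ _ _ ((s : ℂ) • T.ι a) (((1 - s : ℝ) : ℂ) • T.ι a')
    rw [map_add, map_smul, map_smul, h1, norm_smul, norm_smul, Complex.norm_real,
      Complex.norm_real, Real.norm_eq_abs, Real.norm_eq_abs, mul_pow, mul_pow, sq_abs, sq_abs,
      inner_smul_left, inner_smul_right, Complex.conj_ofReal]
    have h2 : RCLike.re ((s : ℂ) * (((1 - s : ℝ) : ℂ) * inner ℂ (T.ι a) (T.ι a')))
        = (s * (1 - s)) * (inner ℂ (T.ι a) (T.ι a')).re := by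
      rw [← mul_assoc, ← Complex.ofReal_mul]
      exact Complex.re_ofReal_mul _ _
    rw [h2]
    have h3 : (inner ℂ (T.ι a) (T.ι a')).re ≤ κ2 := by
      rw [T.inner_eq_τ]
      exact (Complex.re_le_norm _).trans haa
    have h4 : 0 ≤ s * (1 - s) := mul_nonneg hs0 (by linarith)
    nlinarith [mul_le_mul_of_nonneg_left h3 h4]
  have main : ∀ n : ℕ, ∀ κ : ℝ, 0 < κ →
      ∃ (J : Type) (_ : Fintype J) (y : J → A) (r : J → Q), S.IsLab chi B b D κ C y r ∧
        ‖T.ι (ll y - w)‖ ^ 2 + ‖T.ι (rr y - v)‖ ^ 2 ≤ 2 * M ^ 2 / ((n : ℝ) + 1) + κ := by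
    intro n
    induction n with
    | zero =>
      intro κ hκ
      obtain ⟨J, hJ, y, r, hy, _⟩ := hC D hD κ hκ ∅
      refine ⟨J, hJ, y, r, hy, ?_⟩
      obtain ⟨h1, h2⟩ := hbd hy.dm
      have e : 2 * M ^ 2 / (((0 : ℕ) : ℝ) + 1) = 2 * M ^ 2 := by simp
      rw [e]
      linarith
    | succ n ih =>
      intro κ hκ
      obtain ⟨J, hJ, y, r, hy, hyn⟩ := ih (κ / 2) (by linarith)
      obtain ⟨J', hJ', y', r', hy', hz⟩ := hC D hD (κ / 2) (by linarith)
        {star (ll y - w), star (rr y - v)}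
      obtain ⟨s, hs⟩ : ∃ s : ℝ, s = ((n : ℝ) + 1) / ((n : ℝ) + 2) := ⟨_, rfl⟩
      have hn2 : (0 : ℝ) < (n : ℝ) + 2 := by positivity
      have hs0 : 0 ≤ s := by rw [hs]; positivity
      have hs1 : s ≤ 1 := by rw [hs, div_le_one hn2]; linarith
      have hs2 : 1 - s = 1 / ((n : ℝ) + 2) := by rw [hs]; field_simp; ring
      have ha := (hy.smulR √s).union (hy'.smulR √(1 - s))
      rw [Real.sq_sqrt hs0, Real.sq_sqrt (by linarith)] at ha
      refine ⟨J ⊕ J', inferInstance, _, _, ha.mono subset_rfl subset_rfl (by nlinarith)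
        (by nlinarith), ?_⟩
      rw [ll_elim, rr_elim, ll_smul, ll_smul, rr_smul, rr_smul, Real.sq_sqrt hs0,
        Real.sq_sqrt (by linarith)]
      have e1 : (s : ℂ) • ll y + ((1 - s : ℝ) : ℂ) • ll y' - w
          = (s : ℂ) • (ll y - w) + ((1 - s : ℝ) : ℂ) • (ll y' - w) := by
        rw [smul_sub, smul_sub]
        have : w = (s : ℂ) • w + ((1 - s : ℝ) : ℂ) • w := by
          rw [← add_smul, ← Complex.ofReal_add]
          simp
        nth_rewrite 1 [this]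
        abel
      have e2 : (s : ℂ) • rr y + ((1 - s : ℝ) : ℂ) • rr y' - v
          = (s : ℂ) • (rr y - v) + ((1 - s : ℝ) : ℂ) • (rr y' - v) := by
        rw [smul_sub, smul_sub]
        have : v = (s : ℂ) • v + ((1 - s : ℝ) : ℂ) • v := by
          rw [← add_smul, ← Complex.ofReal_add]
          simp
        nth_rewrite 1 [this]
        abel
      rw [e1, e2]
      obtain ⟨t1, _⟩ := hz (star (ll y - w)) (by simp)
      obtain ⟨_, t2⟩ := hz (star (rr y - v)) (by simp)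
      rw [← T.τ_sub, ← mul_sub] at t1 t2
      have c1 := hcomb s (κ / 2) hs0 hs1 _ _ t1
      have c2 := hcomb s (κ / 2) hs0 hs1 _ _ t2
      obtain ⟨b1, b2⟩ := hbd hy'.dm
      have hss : 0 ≤ s * (1 - s) := mul_nonneg hs0 (by linarith)
      have hss4 : s * (1 - s) * 4 ≤ 1 := by nlinarith [sq_nonneg (2 * s - 1)]
      have hs22 : s ^ 2 ≤ 1 := by nlinarith
      have k1 : s ^ 2 * (‖T.ι (ll y - w)‖ ^ 2 + ‖T.ι (rr y - v)‖ ^ 2)
          ≤ s ^ 2 * (2 * M ^ 2 / ((n : ℝ) + 1)) + κ / 2 := by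
        have := mul_le_mul_of_nonneg_left hyn (sq_nonneg s)
        nlinarith
      have k2 : s ^ 2 * (2 * M ^ 2 / ((n : ℝ) + 1)) + (1 - s) ^ 2 * (2 * M ^ 2)
          = 2 * M ^ 2 / (((n + 1 : ℕ) : ℝ) + 1) := by
        rw [hs2, hs]
        push_cast
        have : (n : ℝ) + 1 ≠ 0 := by positivity
        have : (n : ℝ) + 2 ≠ 0 := by positivity
        have e3 : (n : ℝ) + 1 + 1 = (n : ℝ) + 2 := by ring
        rw [e3]
        field_simp
        ring
      have k3 : (1 - s) ^ 2 * ‖T.ι (ll y' - w)‖ ^ 2 + (1 - s) ^ 2 * ‖T.ι (rr y' - v)‖ ^ 2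
          ≤ (1 - s) ^ 2 * (2 * M ^ 2) := by
        have := mul_le_mul_of_nonneg_left b1 (sq_nonneg (1 - s))
        have := mul_le_mul_of_nonneg_left b2 (sq_nonneg (1 - s))
        linarith
      have k4 : 2 * (s * (1 - s)) * (κ / 2) + 2 * (s * (1 - s)) * (κ / 2) ≤ κ / 2 := by
        nlinarith
      linarith
  intro κ hκ
  obtain ⟨n, hn⟩ := exists_nat_gt (2 * M ^ 2 / (κ ^ 2 / 2))
  obtain ⟨J, hJ, y, r, hy, hyn⟩ := main n (min κ (κ ^ 2 / 2)) (by positivity)
  refine ⟨J, hJ, y, r, hy.mono subset_rfl subset_rfl (min_le_left _ _) le_rfl, ?_⟩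
  have h1 : 2 * M ^ 2 / ((n : ℝ) + 1) ≤ κ ^ 2 / 2 := by
    rw [div_lt_iff₀ (by positivity)] at hn
    rw [div_le_iff₀ (by positivity)]
    nlinarith [sq_nonneg κ]
  have h2 : ‖T.ι (ll y - w)‖ ^ 2 + ‖T.ι (rr y - v)‖ ^ 2 ≤ κ ^ 2 := by
    have := min_le_right κ (κ ^ 2 / 2)
    linarith
  have h3 := sq_nonneg ‖T.ι (ll y - w)‖
  have h4 := sq_nonneg ‖T.ι (rr y - v)‖
  exact ⟨(pow_le_pow_iff_left₀ (norm_nonneg _) hκ.le two_ne_zero).1 (by linarith),
    (pow_le_pow_iff_left₀ (norm_nonneg _) hκ.le two_ne_zero).1 (by linarith)⟩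

end

end Pool.Agent.AbCoc
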