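import Pool.Agent.Lib_MP_418a80_t3.Defs
import Pool.Agent.Lib_MP_418a80_t3.ERough

/-!
# `GoodE` and near-eigenoperators for characters from the KEY property of the twisted matrices
-/

set_option autoImplicit false
set_option linter.unusedVariables false
set_option linter.unusedSectionVars false

open Topology Filter MeasureTheory
open scoped ENNReal

namespace Pool.Agent.AbCoc

universe u v w z

section
variable {A : Type u} [CStarAlgebra A] [PartialOrder A] [StarOrderedRing A]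
  {K : Type v} [NormedAddCommGroup K] [InnerProductSpace ℂ K] [CompleteSpace K]
variable {G : Type w} [Group G] [TopologicalSpace G] {T : TrAlg A K}

theorem TrAct.IsPrj.norm_le_one {S : TrAct G T} {b : A} (h : S.IsPrj b) : ‖b‖ ≤ 1 := by
  have h1 := CStarRing.norm_star_mul_self (x := b)
  rw [h.star_eq, h.mul_self] at h1
  by_contra h2
  push Not at h2
  nlinarith

/-- **near-eigenoperators for a character** in the corner of two projections, bounded below by a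
constant which depends on the corner only -/
theorem TrAct.exists_eigen_prj {H : Type z} [Group H] [TopologicalSpace H] (S : TrAct G T)
    (j : H →* G) (hj : Continuous j) (χ : H →* Circle) (hχ : Continuous χ)
    (hkey : ((S.cm j hj).twist 2 (tw2 χ) (tw2_cont hχ)).Key) {b1 b2 : A}
    (h1 : S.IsPrj b1) (h2 : S.IsPrj b2) (hn1 : b1 ≠ 0) (hn2 : b2 ≠ 0)
    (D : Set H) (hD : IsCompact D) (κ : ℝ) (hκ : 0 < κ) :
    ∃ e : A, b1 * e = e ∧ e * b2 = e ∧ ‖e‖ ≤ 1 ∧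
      ‖T.ι b1‖ ^ 2 * ‖T.ι b2‖ ^ 2 / 4 ≤ ‖T.ι e‖ ^ 2 ∧
      ∀ h ∈ D, ‖T.ι (S.α (j h) e - (χ h : ℂ) • e)‖ ≤ κ := by
  obtain ⟨m, hm⟩ : ∃ m : ℝ, m = ‖T.ι b1‖ ^ 2 * ‖T.ι b2‖ ^ 2 := ⟨_, rfl⟩
  have hm0 : 0 < m := by
    have := T.norm_ι_pos hn1
    have := T.norm_ι_pos hn2
    rw [hm]; positivity
  obtain ⟨u, hu, huC, hum⟩ := (S.cm j hj).exists_eigen χ hχ hkey (S.cm_fixed j hj h1.fix)
    (S.cm_fixed j hj h2.fix) h1.star_eq h2.star_eq D hD (min κ (m / 4))
    (lt_min hκ (by positivity))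
  have hb1 := h1.norm_le_one
  have hb2 := h2.norm_le_one
  refine ⟨b1 * u * b2, by rw [← mul_assoc, ← mul_assoc, h1.mul_self],
    by rw [mul_assoc, h2.mul_self], ?_, ?_, ?_⟩
  · calc ‖b1 * u * b2‖ ≤ ‖b1‖ * ‖u‖ * ‖b2‖ :=
          (norm_mul_le _ _).trans (by gcongr; exact norm_mul_le _ _)
      _ ≤ 1 * 1 * 1 := by gcongr
      _ = 1 := by norm_num
  · rw [← hm] at hum ⊢
    have := min_le_right κ (m / 4)
    linarith
  · intro h hh
    have e1 : S.α (j h) (b1 * u * b2) - (χ h : ℂ) • (b1 * u * b2)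
        = b1 * (S.α (j h) u - (χ h : ℂ) • u) * b2 := by
      rw [map_mul, map_mul, h1.fix, h2.fix, mul_sub, sub_mul, mul_smul_comm, smul_mul_assoc]
    rw [e1]
    have h3 : ‖T.ι (S.α (j h) u - (χ h : ℂ) • u)‖ ≤ κ := (huC h hh).trans (min_le_left _ _)
    calc ‖T.ι (b1 * (S.α (j h) u - (χ h : ℂ) • u) * b2)‖
        ≤ ‖T.ι (b1 * (S.α (j h) u - (χ h : ℂ) • u))‖ * ‖b2‖ := T.mul_le' _ _
      _ ≤ (‖b1‖ * ‖T.ι (S.α (j h) u - (χ h : ℂ) • u)‖) * ‖b2‖ := by
          gcongr; exact T.mul_le _ _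
      _ ≤ (1 * κ) * 1 := by gcongr
      _ = κ := by ring

end

section
variable {A : Type u} [CStarAlgebra A] [PartialOrder A] [StarOrderedRing A]
  {K : Type v} [NormedAddCommGroup K] [InnerProductSpace ℂ K] [CompleteSpace K]
variable {G : Type w} [Group G] [TopologicalSpace G] [IsTopologicalGroup G] {T : TrAlg A K}

/-- **`GoodE`** from the KEY property of the twisted `2 × 2` matrices of the closed normal subgroup
`N = {h | p0 h = 0}` -/
theorem TrAct.goodE (S : TrAct G T) (N : Subgroup G) [N.Normal] (hNc : IsClosed (N : Set G))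
    (p0 : G → ℝ) (hN : ∀ g, g ∈ N ↔ p0 g = 0) (s : ℝ → G) (hs : Continuous s)
    (hkey : ∀ (χ : N →* Circle) (hχ : Continuous χ),
      ((S.cm N.subtype continuous_subtype_val).twist 2 (tw2 χ) (tw2_cont hχ)).Key)
    (hchar : HasSmallChar N) {b1 b2 : A} (h1 : S.IsPrj b1) (h2 : S.IsPrj b2)
    (hn1 : b1 ≠ 0) (hn2 : b2 ≠ 0) : S.GoodE p0 s b1 b2 := by
  obtain ⟨m, hm⟩ : ∃ m : ℝ, m = ‖T.ι b1‖ ^ 2 * ‖T.ι b2‖ ^ 2 := ⟨_, rfl⟩
  have hm0 : 0 < m := by
    have := T.norm_ι_pos hn1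
    have := T.norm_ι_pos hn2
    rw [hm]; positivity
  refine ⟨m / 4, by positivity, fun D hD W κ hκ => ?_⟩
  have hemb : IsClosedEmbedding (Subtype.val : N → G) := hNc.isClosedEmbedding_subtypeVal
  obtain ⟨K0, hK0⟩ : ∃ K0 : Set N, K0 = Subtype.val ⁻¹' D := ⟨_, rfl⟩
  have hK0c : IsCompact K0 := by rw [hK0]; exact hemb.isCompact_preimage hD
  obtain ⟨u, hu, hum, huC, J, hJ, hJn, h, hh⟩ := S.exists_rough N hkey hchar
    (fun h => h1.fix h) (fun h => h2.fix h) h1.star_eq h2.star_eq hn1 hn2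
    (s '' Set.Icc (-W) W) (isCompact_Icc.image hs) K0 hK0c κ hκ
  have hb1 := h1.norm_le_one
  have hb2 := h2.norm_le_one
  have hcard : (0 : ℝ) < Fintype.card J := Nat.cast_pos.2 Fintype.card_pos
  refine ⟨b1 * u * b2, by rw [← mul_assoc, ← mul_assoc, h1.mul_self],
    by rw [mul_assoc, h2.mul_self], ?_, ?_, ?_, Fintype.card J,
    fun i => (h ((Fintype.equivFin J).symm i) : G), fun _ => (Fintype.card J : ℝ)⁻¹,
    fun i => (hN _).1 (h _).2, fun _ => (inv_pos.2 hcard).le, ?_, ?_⟩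
  · calc ‖b1 * u * b2‖ ≤ ‖b1‖ * ‖u‖ * ‖b2‖ :=
          (norm_mul_le _ _).trans (by gcongr; exact norm_mul_le _ _)
      _ ≤ 1 * 1 * 1 := by gcongr
      _ = 1 := by norm_num
  · rw [hm]
    exact hum
  · intro g hg hg0 t ht
    have hgN : g ∈ N := (hN g).2 hg0
    exact huC (s t) ⟨t, abs_le.1 ht, rfl⟩ ⟨g, hgN⟩ (by rw [hK0]; exact hg)
  · rw [Finset.sum_const, Finset.card_univ, Fintype.card_fin, nsmul_eq_mul,
      mul_inv_cancel₀ hcard.ne']
  · intro t ht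
    have h3 := hh (s t) ⟨t, abs_le.1 ht, rfl⟩
    have h4 : ∑ i : Fin (Fintype.card J), (((Fintype.card J : ℝ)⁻¹ : ℝ) : ℂ) •
        S.α (h ((Fintype.equivFin J).symm i) : G) (S.α (s t) (b1 * u * b2))
        = (((Fintype.card J : ℝ)⁻¹ : ℝ) : ℂ) • ∑ j, S.α (h j) (S.α (s t) (b1 * u * b2)) := by
      rw [Finset.smul_sum]
      exact (Fintype.equivFin J).symm.sum_comp fun j => (((Fintype.card J : ℝ)⁻¹ : ℝ) : ℂ) •
        S.α (h j : G) (S.α (s t) (b1 * u * b2))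
    rw [h4, map_smul, norm_smul, Complex.norm_real, Real.norm_eq_abs,
      abs_of_pos (inv_pos.2 hcard)]
    calc (Fintype.card J : ℝ)⁻¹ * ‖T.ι (∑ j, S.α (h j) (S.α (s t) (b1 * u * b2)))‖
        ≤ (Fintype.card J : ℝ)⁻¹ * (κ * Fintype.card J) := by gcongr
      _ = κ := by field_simp

end

end Pool.Agent.AbCoc
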