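import Pool.Agent.Lib_MP_418a80_t3.Mult3
import Pool.Agent.Lib_MP_418a80_t3.Fam
import Pool.Agent.Lib_MP_418a80_t3.Comp1

/-!
# MP_418a80_an, T3: packets of one element along a one-parameter group (2241 (3))
-/

set_option autoImplicit false
set_option linter.unusedVariables false
set_option linter.unusedSectionVars false

open Topology Filter MeasureTheory
open scoped RealInnerProductSpace ComplexConjugate

namespace Pool.Agent.AbCoc

universe u v w z

section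
variable {A : Type u} [CStarAlgebra A] {K : Type v} [NormedAddCommGroup K]
  [InnerProductSpace ℂ K] [CompleteSpace K]
variable {G : Type w} [Group G] [TopologicalSpace G] {T : TrAlg A K} (S : TrAct G T)
  (R : RSec G) {F : Finset ℤ} (E : Chs ℤ F)

/-- the packet of `e` with amplitude `f` on the grid `a ℤ` -/
noncomputable def TrAct.pk (a : ℝ) (e : A) (f : ℤ → ℂ) (c : E.C) : A :=
  E.X (fun j => f j • S.α (R.s (a * j)) e) c

/-- its Gram element -/
noncomputable def TrAct.gr (a : ℝ) (e : A) (f : ℤ → ℂ) (c : E.C) : A :=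
  star (S.pk R E a e f c) * S.pk R E a e f c

variable {a : ℝ} {e : A}

theorem TrAct.pk_norm (f : ℤ → ℂ) :
    ∑ c, ‖T.ι (S.pk R E a e f c)‖ ^ 2 = (∑ j ∈ F, ‖f j‖ ^ 2) * ‖T.ι e‖ ^ 2 := by
  unfold TrAct.pk
  rw [E.sum_norm_sq T, Finset.sum_mul]
  refine Finset.sum_congr rfl fun j _ => ?_
  rw [T.norm_smul_sq, S.norm_map]

theorem TrAct.pk_sub (f f' : ℤ → ℂ) (c : E.C) :
    S.pk R E a e f c - S.pk R E a e f' c = S.pk R E a e (fun j => f j - f' j) c := by
  unfold TrAct.pk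
  rw [← E.X_sub]
  simp only [sub_smul]

theorem TrAct.pk_add (f f' : ℤ → ℂ) (c : E.C) :
    S.pk R E a e f c + S.pk R E a e f' c = S.pk R E a e (fun j => f j + f' j) c := by
  unfold TrAct.pk
  rw [← E.X_add]
  simp only [add_smul]

theorem TrAct.pk_smul (x : ℂ) (f : ℤ → ℂ) (c : E.C) :
    S.pk R E a e (fun j => x * f j) c = x • S.pk R E a e f c := by
  unfold TrAct.pk
  rw [← E.X_smul]
  simp only [mul_smul]

theorem TrAct.pk_congr {f f' : ℤ → ℂ} (h : ∀ j ∈ F, f j = f' j) (c : E.C) :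
    S.pk R E a e f c = S.pk R E a e f' c := by
  unfold TrAct.pk
  exact E.X_congr (fun j hj => by rw [h j hj]) c

theorem TrAct.pk_dm (f : ℤ → ℂ) : T.Dm ((∑ j ∈ F, ‖f j‖ ^ 2) * ‖e‖ ^ 2) (S.pk R E a e f) := by
  have hn : ∀ j : ℤ, ‖S.α (R.s (a * j)) e‖ ≤ ‖e‖ := fun j => S.norm_le _ _
  constructor
  · intro z
    unfold TrAct.pk
    rw [E.sum_norm_sq_mul T, Finset.sum_mul, Finset.sum_mul]
    refine Finset.sum_le_sum fun j _ => ?_
    rw [smul_mul_assoc, T.norm_smul_sq, mul_assoc]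
    refine mul_le_mul_of_nonneg_left ?_ (sq_nonneg _)
    rw [← mul_pow]
    refine pow_le_pow_left₀ (norm_nonneg _) ?_ 2
    exact (T.mul_le _ _).trans (mul_le_mul_of_nonneg_right (hn j) (norm_nonneg _))
  · intro z
    unfold TrAct.pk
    rw [E.sum_norm_sq_mul' T, Finset.sum_mul, Finset.sum_mul]
    refine Finset.sum_le_sum fun j _ => ?_
    rw [mul_smul_comm, T.norm_smul_sq, mul_assoc]
    refine mul_le_mul_of_nonneg_left ?_ (sq_nonneg _)
    rw [← mul_pow]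
    refine pow_le_pow_left₀ (norm_nonneg _) ?_ 2
    refine (T.mul_le' _ _).trans ?_
    rw [mul_comm]
    exact mul_le_mul_of_nonneg_right (hn j) (norm_nonneg _)

theorem TrAct.mul_pk {b : A} (hb : S.Fixed b) (hbe : b * e = e) (f : ℤ → ℂ) (c : E.C) :
    b * S.pk R E a e f c = S.pk R E a e f c := by
  unfold TrAct.pk
  rw [E.mul_X]
  refine E.X_congr (fun j hj => ?_) c
  have h : b * S.α (R.s (a * j)) e = S.α (R.s (a * j)) (b * e) := by rw [map_mul, hb]
  rw [mul_smul_comm, h, hbe]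

theorem TrAct.pk_mul {b : A} (hb : S.Fixed b) (heb : e * b = e) (f : ℤ → ℂ) (c : E.C) :
    S.pk R E a e f c * b = S.pk R E a e f c := by
  unfold TrAct.pk
  rw [E.X_mul]
  refine E.X_congr (fun j hj => ?_) c
  have h : S.α (R.s (a * j)) e * b = S.α (R.s (a * j)) (e * b) := by rw [map_mul, hb]
  rw [smul_mul_assoc, h, heb]

/-- an automorphism which multiplies the translates of `e` by the phases `ψ` -/
theorem TrAct.act_pk (h : G) (f ψ : ℤ → ℂ) {κ : ℝ}
    (H : ∀ j ∈ F, f j ≠ 0 →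
      ‖T.ι (S.α h (S.α (R.s (a * j)) e) - ψ j • S.α (R.s (a * j)) e)‖ ≤ κ) :
    ∑ c, ‖T.ι (S.α h (S.pk R E a e f c) - S.pk R E a e (fun j => ψ j * f j) c)‖ ^ 2
      ≤ κ ^ 2 * ∑ j ∈ F, ‖f j‖ ^ 2 := by
  unfold TrAct.pk
  simp only [E.map_X]
  rw [E.sum_norm_sq_sub T, Finset.mul_sum]
  refine Finset.sum_le_sum fun j hj => ?_
  have h1 : S.α h (f j • S.α (R.s (a * j)) e) - (ψ j * f j) • S.α (R.s (a * j)) e
      = f j • (S.α h (S.α (R.s (a * j)) e) - ψ j • S.α (R.s (a * j)) e) := by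
    rw [map_smul, smul_sub, smul_smul, mul_comm (ψ j)]
  rw [h1, T.norm_smul_sq]
  rcases eq_or_ne (f j) 0 with h0 | h0
  · rw [h0, norm_zero]
    nlinarith [sq_nonneg κ]
  · have h2 := pow_le_pow_left₀ (norm_nonneg _) (H j hj h0) 2
    nlinarith [sq_nonneg ‖f j‖]

/-- translation by lattice points -/
theorem TrAct.shift_pk (m : ℤ) (f : ℤ → ℂ) (h1 : ∀ j, f j ≠ 0 → j ∈ F ∧ j + m ∈ F) (c : E.C) :
    S.α (R.s (a * m)) (S.pk R E a e f c)
      = conj (E.χ c m) • S.pk R E a e (fun j => f (j - m)) c := by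
  unfold TrAct.pk
  rw [← E.X_shift (fun j => f (j - m) • S.α (R.s (a * j)) e) m, E.map_X]
  · refine E.X_congr (fun j hj => ?_) c
    rw [map_smul, ← S.mul, ← R.smul]
    congr 3
    · rw [add_sub_cancel_right]
    · push_cast
      rw [mul_add, add_comm]
  · intro j hj
    have h2 : f (j - m) ≠ 0 := fun h0 => hj (by rw [h0, zero_smul])
    have := (h1 _ h2).2
    rwa [sub_add_cancel] at this
  · intro j hj
    have h2 : f (j - m) ≠ 0 := fun h0 => hj (by rw [h0, zero_smul])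
    exact (h1 _ h2).1

theorem TrAct.sum_n1_gr_sub (f f' : ℤ → ℂ) :
    ∑ c, T.n1 (S.gr R E a e f c - S.gr R E a e f' c)
      ≤ √(∑ j ∈ F, ‖f j - f' j‖ ^ 2) * √(∑ j ∈ F, ‖f j + f' j‖ ^ 2) * ‖T.ι e‖ ^ 2 := by
  refine (T.sum_n1_sq_sub_le _ _).trans (le_of_eq ?_)
  simp only [S.pk_sub, S.pk_add, S.pk_norm]
  rw [Real.sqrt_mul (Finset.sum_nonneg fun _ _ => sq_nonneg _),
    Real.sqrt_mul (Finset.sum_nonneg fun _ _ => sq_nonneg _), Real.sqrt_sq (norm_nonneg _)]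
  ring

/-- the sesquilinear bound -/
theorem TrAct.sum_n1_pk (f f' : ℤ → ℂ) :
    ∑ c, T.n1 (star (S.pk R E a e f c) * S.pk R E a e f' c)
      ≤ ‖T.ι e‖ ^ 2 * (√(∑ j ∈ F, ‖f j‖ ^ 2) * √(∑ j ∈ F, ‖f' j‖ ^ 2)) := by
  refine (T.sum_n1_star_mul_le _ _).trans (le_of_eq ?_)
  simp only [S.pk_norm]
  rw [Real.sqrt_mul (Finset.sum_nonneg fun _ _ => sq_nonneg _),
    Real.sqrt_mul (Finset.sum_nonneg fun _ _ => sq_nonneg _), Real.sqrt_sq (norm_nonneg _)]
  ring

end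

/-! ### windows -/

/-- the normalised indicator function of `[-L, L]` -/
noncomputable def win (L : ℕ) (j : ℤ) : ℂ := if |j| ≤ (L : ℤ) then ((√(2 * (L : ℝ) + 1))⁻¹ : ℝ) else 0

theorem win_norm_sq (L : ℕ) (j : ℤ) :
    ‖win L j‖ ^ 2 = if |j| ≤ (L : ℤ) then (2 * (L : ℝ) + 1)⁻¹ else 0 := by
  unfold win
  split_ifs
  · rw [Complex.norm_real, Real.norm_eq_abs, sq_abs, inv_pow, Real.sq_sqrt (by positivity)]
  · rw [norm_zero]; norm_num

theorem win_ne {L : ℕ} {j : ℤ} (h : win L j ≠ 0) : |j| ≤ (L : ℤ) := by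
  by_contra h1
  exact h (if_neg h1)

theorem win_sum_le (L : ℕ) (F : Finset ℤ) : ∑ j ∈ F, ‖win L j‖ ^ 2 ≤ 1 := by
  simp only [win_norm_sq]
  rw [← Finset.sum_filter, Finset.sum_const, nsmul_eq_mul]
  have h1 : (F.filter fun j => |j| ≤ (L : ℤ)) ⊆ Finset.Icc (-(L : ℤ)) L := by
    intro j hj
    rw [Finset.mem_filter] at hj
    rw [Finset.mem_Icc]
    exact abs_le.1 hj.2
  have h2 := Finset.card_le_card h1
  rw [Int.card_Icc] at h2
  have h3 : ((F.filter fun j => |j| ≤ (L : ℤ)).card : ℝ) ≤ 2 * (L : ℝ) + 1 := by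
    have : ((L : ℤ) + 1 - -(L : ℤ)).toNat = 2 * L + 1 := by omega
    rw [this] at h2
    exact_mod_cast h2
  rw [← div_eq_mul_inv, div_le_one (by positivity)]
  exact h3

theorem win_sum_eq (L : ℕ) (F : Finset ℤ) (hF : Finset.Icc (-(L : ℤ)) L ⊆ F) :
    ∑ j ∈ F, ‖win L j‖ ^ 2 = 1 := by
  simp only [win_norm_sq]
  rw [← Finset.sum_filter, Finset.sum_const, nsmul_eq_mul]
  have h1 : (F.filter fun j => |j| ≤ (L : ℤ)) = Finset.Icc (-(L : ℤ)) L := by
    ext j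
    rw [Finset.mem_filter, Finset.mem_Icc, abs_le]
    exact ⟨fun h => h.2, fun h => ⟨hF (Finset.mem_Icc.2 h), h⟩⟩
  rw [h1, Int.card_Icc]
  have : ((L : ℤ) + 1 - -(L : ℤ)).toNat = 2 * L + 1 := by omega
  rw [this]
  push_cast
  exact mul_inv_cancel₀ (by positivity)

/-- shifted windows -/
theorem win_shift (L : ℕ) (m : ℤ) (F : Finset ℤ) :
    ∑ j ∈ F, ‖win L (j - m) - win L j‖ ^ 2 ≤ 2 * |(m : ℝ)| / (2 * (L : ℝ) + 1) := by
  have e : ∀ j : ℤ, ‖win L (j - m) - win L j‖ ^ 2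
      = if (|j - m| ≤ (L : ℤ) ∧ ¬ |j| ≤ (L : ℤ)) ∨ (¬ |j - m| ≤ (L : ℤ) ∧ |j| ≤ (L : ℤ)) then
        (2 * (L : ℝ) + 1)⁻¹ else 0 := by
    intro j
    by_cases h1 : |j - m| ≤ (L : ℤ) <;> by_cases h2 : |j| ≤ (L : ℤ)
    · have e1 : win L (j - m) = win L j := by unfold win; rw [if_pos h1, if_pos h2]
      rw [e1, sub_self, norm_zero, if_neg (by tauto)]
      norm_num
    · have e1 : win L j = 0 := if_neg h2
      rw [e1, sub_zero, win_norm_sq, if_pos h1, if_pos (by tauto)]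
    · have e1 : win L (j - m) = 0 := if_neg h1
      rw [e1, zero_sub, norm_neg, win_norm_sq, if_pos h2, if_pos (by tauto)]
    · have e1 : win L (j - m) = 0 := if_neg h1
      have e2 : win L j = 0 := if_neg h2
      rw [e1, e2, sub_self, norm_zero, if_neg (by tauto)]
      norm_num
  simp only [e]
  rw [← Finset.sum_filter, Finset.sum_const, nsmul_eq_mul, ← div_eq_mul_inv]
  refine div_le_div_of_nonneg_right ?_ (by positivity)
  have h1 : (F.filter fun j => (|j - m| ≤ (L : ℤ) ∧ ¬ |j| ≤ (L : ℤ))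
      ∨ (¬ |j - m| ≤ (L : ℤ) ∧ |j| ≤ (L : ℤ)))
      ⊆ (Finset.Icc (-(L : ℤ)) (-(L : ℤ) + |m| - 1) ∪ Finset.Icc ((L : ℤ) + 1) ((L : ℤ) + |m|))
        ∪ (Finset.Icc ((L : ℤ) - |m| + 1) (L : ℤ) ∪ Finset.Icc (-(L : ℤ) - |m|) (-(L : ℤ) - 1)) := by
    intro j hj
    rw [Finset.mem_filter] at hj
    simp only [Finset.mem_union, Finset.mem_Icc]
    have h3 := hj.2
    simp only [abs_le, not_and_or, not_le] at h3
    rcases le_total 0 m with hm | hm
    · rw [abs_of_nonneg hm]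
      omega
    · rw [abs_of_nonpos hm]
      omega
  rcases le_total 0 m with hm | hm
  · -- for `m ≥ 0` only two of the four intervals are hit
    have h4 : (F.filter fun j => (|j - m| ≤ (L : ℤ) ∧ ¬ |j| ≤ (L : ℤ))
        ∨ (¬ |j - m| ≤ (L : ℤ) ∧ |j| ≤ (L : ℤ)))
        ⊆ Finset.Icc (-(L : ℤ)) (-(L : ℤ) + m - 1) ∪ Finset.Icc ((L : ℤ) + 1) ((L : ℤ) + m) := by
      intro j hj
      rw [Finset.mem_filter] at hj
      simp only [Finset.mem_union, Finset.mem_Icc]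
      have h3 := hj.2
      simp only [abs_le, not_and_or, not_le] at h3
      omega
    have h5 := (Finset.card_le_card h4).trans (Finset.card_union_le _ _)
    rw [Int.card_Icc, Int.card_Icc] at h5
    have h6 : (-(L : ℤ) + m - 1 + 1 - -(L : ℤ)).toNat + ((L : ℤ) + m + 1 - ((L : ℤ) + 1)).toNat
        = 2 * m.toNat := by omega
    rw [h6] at h5
    have h7 : ((m.toNat : ℕ) : ℝ) = |(m : ℝ)| := by
      rw [abs_of_nonneg (by exact_mod_cast hm)]
      have : ((m.toNat : ℕ) : ℤ) = m := Int.toNat_of_nonneg hm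
      exact_mod_cast this
    rw [← h7]
    exact_mod_cast h5
  · have h4 : (F.filter fun j => (|j - m| ≤ (L : ℤ) ∧ ¬ |j| ≤ (L : ℤ))
        ∨ (¬ |j - m| ≤ (L : ℤ) ∧ |j| ≤ (L : ℤ)))
        ⊆ Finset.Icc ((L : ℤ) + m + 1) (L : ℤ) ∪ Finset.Icc (-(L : ℤ) + m) (-(L : ℤ) - 1) := by
      intro j hj
      rw [Finset.mem_filter] at hj
      simp only [Finset.mem_union, Finset.mem_Icc]
      have h3 := hj.2
      simp only [abs_le, not_and_or, not_le] at h3
      omega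
    have h5 := (Finset.card_le_card h4).trans (Finset.card_union_le _ _)
    rw [Int.card_Icc, Int.card_Icc] at h5
    have h6 : ((L : ℤ) + 1 - ((L : ℤ) + m + 1)).toNat + (-(L : ℤ) - 1 + 1 - (-(L : ℤ) + m)).toNat
        = 2 * (-m).toNat := by omega
    rw [h6] at h5
    have h7 : (((-m).toNat : ℕ) : ℝ) = |(m : ℝ)| := by
      rw [abs_of_nonpos (by exact_mod_cast hm)]
      have : (((-m).toNat : ℕ) : ℤ) = -m := Int.toNat_of_nonneg (by omega)
      exact_mod_cast this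
    rw [← h7]
    exact_mod_cast h5

end Pool.Agent.AbCoc
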