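import Pool.Agent.Lib_MP_418a80_t3.Gram0

/-!
# MP_418a80_an, T3: the square roots of the Gram elements of packets; displacements
-/

set_option autoImplicit false
set_option linter.unusedVariables false
set_option linter.unusedSectionVars false

open Topology Filter MeasureTheory
open scoped RealInnerProductSpace ComplexConjugate

namespace Pool.Agent.AbCoc

universe u v w z

section
variable {A : Type u} [CStarAlgebra A] {K : Type v} [NormedAddCommGroup K]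
  [InnerProductSpace ℂ K] [CompleteSpace K]
variable {G : Type w} [Group G] [TopologicalSpace G] {T : TrAlg A K} (S : TrAct G T)
  (R : RSec G) {F : Finset ℤ} (E : Chs ℤ F) {a : ℝ} {e : A}

theorem RSec.s_comm (t u : ℝ) : R.s t * R.s u = R.s u * R.s t := by
  rw [← R.smul, ← R.smul, add_comm]

theorem TrAct.act_s_pk (t : ℝ) (f : ℤ → ℂ) (c : E.C) :
    S.α (R.s t) (S.pk R E a e f c) = S.pk R E a (S.α (R.s t) e) f c := by
  unfold TrAct.pk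
  rw [E.map_X]
  refine E.X_congr (fun j hj => ?_) c
  rw [map_smul, ← S.mul, ← S.mul, R.s_comm]

theorem TrAct.pk_sub_e (e' : A) (f : ℤ → ℂ) (c : E.C) :
    S.pk R E a e' f c - S.pk R E a e f c = S.pk R E a (e' - e) f c := by
  unfold TrAct.pk
  rw [← E.X_sub]
  refine E.X_congr (fun j hj => ?_) c
  rw [map_sub, smul_sub]

theorem TrAct.act_gr (h : G) (f : ℤ → ℂ) (c : E.C) :
    S.α h (S.gr R E a e f c) = star (S.α h (S.pk R E a e f c)) * S.α h (S.pk R E a e f c) := by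
  unfold TrAct.gr
  rw [map_mul, map_star]

theorem TrAct.sqrt_pk_le (he : ‖T.ι e‖ ≤ 1) {f : ℤ → ℂ} (hf : ∑ j ∈ F, ‖f j‖ ^ 2 ≤ 1) :
    √(∑ c, ‖T.ι (S.pk R E a e f c)‖ ^ 2) ≤ 1 := by
  rw [Real.sqrt_le_one]
  rw [S.pk_norm]
  have h1 : ‖T.ι e‖ ^ 2 ≤ 1 := pow_le_one₀ (norm_nonneg _) he
  have h0 : 0 ≤ ∑ j ∈ F, ‖f j‖ ^ 2 := Finset.sum_nonneg fun _ _ => sq_nonneg _
  nlinarith [sq_nonneg ‖T.ι e‖]

/-- comparison of the Gram elements through phases -/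
theorem TrAct.sum_n1_act_gr (he : ‖T.ι e‖ ≤ 1) (h : G) {f f' : ℤ → ℂ}
    (hf : ∑ j ∈ F, ‖f j‖ ^ 2 ≤ 1) (hf' : ∑ j ∈ F, ‖f' j‖ ^ 2 ≤ 1) (η : E.C → ℂ)
    (hη : ∀ c, ‖η c‖ = 1) {δ : ℝ} (hδ : 0 ≤ δ)
    (h1 : ∑ c, ‖T.ι (S.α h (S.pk R E a e f c) - η c • S.pk R E a e f' c)‖ ^ 2 ≤ δ ^ 2) :
    ∑ c, T.n1 (S.α h (S.gr R E a e f c) - S.gr R E a e f' c) ≤ 2 * δ := by
  have e1 : ∀ c, S.α h (S.gr R E a e f c) - S.gr R E a e f' c
      = star (S.α h (S.pk R E a e f c)) * S.α h (S.pk R E a e f c)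
        - star (η c • S.pk R E a e f' c) * (η c • S.pk R E a e f' c) := by
    intro c
    rw [S.act_gr, star_mul_self_phase (hη c)]
    rfl
  simp only [e1]
  refine (T.sum_n1_sq_sub_le _ _).trans ?_
  have h2 : √(∑ c, ‖T.ι (S.α h (S.pk R E a e f c) - η c • S.pk R E a e f' c)‖ ^ 2) ≤ δ := by
    rw [← Real.sqrt_sq hδ]
    exact Real.sqrt_le_sqrt h1
  have h3 : √(∑ c, ‖T.ι (S.α h (S.pk R E a e f c) + η c • S.pk R E a e f' c)‖ ^ 2) ≤ 2 := by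
    refine (T.sqrt_sum_add_le _ _).trans ?_
    have h4 : √(∑ c, ‖T.ι (S.α h (S.pk R E a e f c))‖ ^ 2) ≤ 1 := by
      simp only [S.norm_map]
      exact S.sqrt_pk_le R E he hf
    have h5 : √(∑ c, ‖T.ι (η c • S.pk R E a e f' c)‖ ^ 2) ≤ 1 := by
      simp only [T.norm_smul_sq, hη, one_pow, one_mul]
      exact S.sqrt_pk_le R E he hf'
    linarith
  rw [mul_comm 2 δ]
  exact mul_le_mul h2 h3 (Real.sqrt_nonneg _) hδ

/-- the family of square roots of the Gram elements -/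
noncomputable def TrAct.sq (a : ℝ) (e : A) (f : ℤ → ℂ) (c : E.C) : A :=
  csqrt (S.gr R E a e f c)

theorem TrAct.posE_gr (f : ℤ → ℂ) (c : E.C) : PosE (S.gr R E a e f c) := ⟨_, rfl⟩

theorem TrAct.sq_mul_self (f : ℤ → ℂ) (c : E.C) :
    star (S.sq R E a e f c) * S.sq R E a e f c = S.gr R E a e f c := by
  unfold TrAct.sq
  rw [csqrt_star, csqrt_mul_self (S.posE_gr R E f c)]

theorem TrAct.sq_corner {b : A} (hb : S.IsPrj b) (heb : e * b = e) (f : ℤ → ℂ) (c : E.C) :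
    b * S.sq R E a e f c = S.sq R E a e f c ∧ S.sq R E a e f c * b = S.sq R E a e f c := by
  refine csqrt_corner hb.star_eq (S.posE_gr R E f c) ?_
  unfold TrAct.gr
  have h := S.pk_mul R E (a := a) hb.fix heb f c
  have h2 : b * star (S.pk R E a e f c) = star (S.pk R E a e f c) := by
    rw [← hb.star_eq, ← star_mul, h]
  rw [← mul_assoc, h2]

theorem TrAct.sq_dm {f : ℤ → ℂ} (hf : ∑ j ∈ F, ‖f j‖ ^ 2 ≤ 1) :
    T.Dm (‖e‖ ^ 2) (S.sq R E a e f) := by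
  have h1 : T.Dm (‖e‖ ^ 2) (S.pk R E a e f) := by
    refine (S.pk_dm R E f).mono ?_
    nlinarith [sq_nonneg ‖e‖]
  constructor
  · intro z
    refine le_trans (le_of_eq (Finset.sum_congr rfl fun c _ => ?_)) (h1.1 z)
    unfold TrAct.sq TrAct.gr
    rw [T.norm_csqrt_mul]
  · intro z
    have h2 := h1.1 (star z)
    rw [T.norm_star] at h2
    refine le_trans (le_of_eq (Finset.sum_congr rfl fun c _ => ?_)) h2
    unfold TrAct.sq TrAct.gr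
    rw [T.norm_mul_csqrt]

theorem TrAct.sq_ms (he : ‖T.ι e‖ ≤ 1) {f : ℤ → ℂ} (hf : ∑ j ∈ F, ‖f j‖ ^ 2 ≤ 1) :
    T.ms (S.sq R E a e f) ≤ 1 := by
  have h1 : T.ms (S.sq R E a e f) = ∑ c, ‖T.ι (S.pk R E a e f c)‖ ^ 2 := by
    unfold TrAlg.ms TrAct.sq TrAct.gr
    exact Finset.sum_congr rfl fun c _ => T.norm_csqrt_star_mul_self_sq _
  rw [h1, S.pk_norm]
  have h2 : ‖T.ι e‖ ^ 2 ≤ 1 := pow_le_one₀ (norm_nonneg _) he
  have h0 : 0 ≤ ∑ j ∈ F, ‖f j‖ ^ 2 := Finset.sum_nonneg fun _ _ => sq_nonneg _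
  nlinarith [sq_nonneg ‖T.ι e‖]

/-- Powers-Stoermer for the square roots -/
theorem TrAct.sum_sq_sub (h : G) (f f' : ℤ → ℂ) :
    ∑ c, ‖T.ι (S.α h (S.sq R E a e f c) - S.sq R E a e f' c)‖ ^ 2
      ≤ ∑ c, T.n1 (S.α h (S.gr R E a e f c) - S.gr R E a e f' c) := by
  refine Finset.sum_le_sum fun c _ => ?_
  unfold TrAct.sq
  rw [map_csqrt (S.α h) (S.posE_gr R E f c)]
  exact T.norm_csqrt_sub_sq_le ((S.posE_gr R E f c).map (S.α h)) (S.posE_gr R E f' c)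

/-- from the square roots back to the Gram elements -/
theorem TrAct.sum_n1_gr_of_sq (he : ‖T.ι e‖ ≤ 1) (h : G) {f f' : ℤ → ℂ}
    (hf : ∑ j ∈ F, ‖f j‖ ^ 2 ≤ 1) (hf' : ∑ j ∈ F, ‖f' j‖ ^ 2 ≤ 1) {δ : ℝ} (hδ : 0 ≤ δ)
    (h1 : ∑ c, ‖T.ι (S.α h (S.sq R E a e f c) - S.sq R E a e f' c)‖ ^ 2 ≤ δ ^ 2) :
    ∑ c, T.n1 (S.α h (S.gr R E a e f c) - S.gr R E a e f' c) ≤ 2 * δ := by
  have e1 : ∀ c, S.α h (S.gr R E a e f c) - S.gr R E a e f' c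
      = star (S.α h (S.sq R E a e f c)) * S.α h (S.sq R E a e f c)
        - star (S.sq R E a e f' c) * S.sq R E a e f' c := by
    intro c
    rw [S.sq_mul_self, ← map_star, ← map_mul, S.sq_mul_self]
  simp only [e1]
  refine (T.sum_n1_sq_sub_le _ _).trans ?_
  have h2 : √(∑ c, ‖T.ι (S.α h (S.sq R E a e f c) - S.sq R E a e f' c)‖ ^ 2) ≤ δ := by
    rw [← Real.sqrt_sq hδ]
    exact Real.sqrt_le_sqrt h1
  have hm : ∀ {f : ℤ → ℂ}, ∑ j ∈ F, ‖f j‖ ^ 2 ≤ 1 →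
      √(∑ c, ‖T.ι (S.sq R E a e f c)‖ ^ 2) ≤ 1 := by
    intro f hf
    rw [Real.sqrt_le_one]
    exact S.sq_ms R E he hf
  have h3 : √(∑ c, ‖T.ι (S.α h (S.sq R E a e f c) + S.sq R E a e f' c)‖ ^ 2) ≤ 2 := by
    refine (T.sqrt_sum_add_le _ _).trans ?_
    have h4 : √(∑ c, ‖T.ι (S.α h (S.sq R E a e f c))‖ ^ 2) ≤ 1 := by
      simp only [S.norm_map]
      exact hm hf
    have h5 := hm hf'
    linarith
  rw [mul_comm 2 δ]
  exact mul_le_mul h2 h3 (Real.sqrt_nonneg _) hδ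

/-- translations of packets -/
theorem TrAct.sum_act_s_pk (he : ‖T.ι e‖ ≤ 1) (m : ℤ) (r : ℝ) (f : ℤ → ℂ)
    (hf : ∑ j ∈ F, ‖f j‖ ^ 2 ≤ 1) (h1 : ∀ j, f j ≠ 0 → j ∈ F ∧ j + m ∈ F) :
    ∑ c, ‖T.ι (S.α (R.s (a * m + r)) (S.pk R E a e f c)
      - conj (E.χ c m) • S.pk R E a e f c)‖ ^ 2
      ≤ 2 * ‖T.ι (S.α (R.s r) e - e)‖ ^ 2 + 2 * ∑ j ∈ F, ‖f (j - m) - f j‖ ^ 2 := by
  have e1 : ∀ c, S.α (R.s (a * m + r)) (S.pk R E a e f c) - conj (E.χ c m) • S.pk R E a e f c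
      = S.α (R.s (a * m)) (S.pk R E a (S.α (R.s r) e - e) f c)
        + conj (E.χ c m) • S.pk R E a e (fun j => f (j - m) - f j) c := by
    intro c
    have hs := S.shift_pk R E (a := a) (e := e) m f h1 c
    have h2 := S.pk_sub R E (a := a) (e := e) (fun j => f (j - m)) f c
    have h3 := S.pk_sub_e R E (a := a) (e := e) (S.α (R.s r) e) f c
    rw [R.smul, S.mul, S.act_s_pk R E r, ← h3, map_sub, hs, ← h2, smul_sub]
    abel
  have e2 : ∀ c, ‖T.ι (S.α (R.s (a * m + r)) (S.pk R E a e f c)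
      - conj (E.χ c m) • S.pk R E a e f c)‖ ^ 2
      ≤ 2 * ‖T.ι (S.pk R E a (S.α (R.s r) e - e) f c)‖ ^ 2
        + 2 * ‖T.ι (S.pk R E a e (fun j => f (j - m) - f j) c)‖ ^ 2 := by
    intro c
    rw [e1, map_add]
    have h3 : ‖T.ι (conj (E.χ c m) • S.pk R E a e (fun j => f (j - m) - f j) c)‖
        = ‖T.ι (S.pk R E a e (fun j => f (j - m) - f j) c)‖ := by
      rw [map_smul, norm_smul, RCLike.norm_conj, E.unit, one_mul]
    have h4 := pow_le_pow_left₀ (norm_nonneg _) (norm_add_le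
      (T.ι (S.α (R.s (a * m)) (S.pk R E a (S.α (R.s r) e - e) f c)))
      (T.ι (conj (E.χ c m) • S.pk R E a e (fun j => f (j - m) - f j) c))) 2
    rw [h3, S.norm_map] at h4
    refine h4.trans ?_
    nlinarith [sq_nonneg (‖T.ι (S.pk R E a (S.α (R.s r) e - e) f c)‖
      - ‖T.ι (S.pk R E a e (fun j => f (j - m) - f j) c)‖)]
  refine (Finset.sum_le_sum fun c _ => e2 c).trans ?_
  rw [Finset.sum_add_distrib, ← Finset.mul_sum, ← Finset.mul_sum, S.pk_norm, S.pk_norm]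
  have h5 : ‖T.ι e‖ ^ 2 ≤ 1 := pow_le_one₀ (norm_nonneg _) he
  have h6 : 0 ≤ ∑ j ∈ F, ‖f (j - m) - f j‖ ^ 2 := Finset.sum_nonneg fun _ _ => sq_nonneg _
  have h7 := sq_nonneg ‖T.ι (S.α (R.s r) e - e)‖
  nlinarith

end

/-- displacement of an amplitude `φ · win` -/
theorem amp_shift (φ : ℝ → ℂ) (hφ : ∀ t, ‖φ t‖ = 1) (a : ℝ) (L : ℕ) (m : ℤ) (F : Finset ℤ) (ω : ℝ)
    (hω : ∀ j : ℤ, |j| ≤ (L : ℤ) → ‖φ (a * (j - m : ℤ)) - φ (a * j)‖ ≤ ω) :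
    ∑ j ∈ F, ‖φ (a * (j - m : ℤ)) * win L (j - m) - φ (a * j) * win L j‖ ^ 2
      ≤ 4 * |(m : ℝ)| / (2 * (L : ℝ) + 1) + 2 * ω ^ 2 := by
  have e1 : ∀ j : ℤ, ‖φ (a * (j - m : ℤ)) * win L (j - m) - φ (a * j) * win L j‖ ^ 2
      ≤ 2 * ‖win L (j - m) - win L j‖ ^ 2 + 2 * ω ^ 2 * ‖win L j‖ ^ 2 := by
    intro j
    have e2 : φ (a * (j - m : ℤ)) * win L (j - m) - φ (a * j) * win L j
        = φ (a * (j - m : ℤ)) * (win L (j - m) - win L j)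
          + (φ (a * (j - m : ℤ)) - φ (a * j)) * win L j := by ring
    rw [e2]
    have h1 := pow_le_pow_left₀ (norm_nonneg _) (norm_add_le
      (φ (a * (j - m : ℤ)) * (win L (j - m) - win L j))
      ((φ (a * (j - m : ℤ)) - φ (a * j)) * win L j)) 2
    rw [norm_mul, norm_mul, hφ, one_mul] at h1
    have h2 : ‖φ (a * (j - m : ℤ)) - φ (a * j)‖ * ‖win L j‖ ≤ ω * ‖win L j‖ := by
      rcases eq_or_ne (win L j) 0 with h0 | h0
      · rw [h0, norm_zero, mul_zero, mul_zero]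
      · exact mul_le_mul_of_nonneg_right (hω j (win_ne h0)) (norm_nonneg _)
    have h3 : 0 ≤ ‖φ (a * (j - m : ℤ)) - φ (a * j)‖ * ‖win L j‖ := by positivity
    have h4 : (‖φ (a * (j - m : ℤ)) - φ (a * j)‖ * ‖win L j‖) ^ 2 ≤ (ω * ‖win L j‖) ^ 2 :=
      pow_le_pow_left₀ h3 h2 2
    have h5 := sq_nonneg (‖win L (j - m) - win L j‖
      - ‖φ (a * (j - m : ℤ)) - φ (a * j)‖ * ‖win L j‖)
    nlinarith
  refine (Finset.sum_le_sum fun j _ => e1 j).trans ?_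
  rw [Finset.sum_add_distrib, ← Finset.mul_sum, ← Finset.mul_sum]
  have h1 := win_shift L m F
  have h2 := win_sum_le L F
  have h3 : 4 * |(m : ℝ)| / (2 * (L : ℝ) + 1) = 2 * (2 * |(m : ℝ)| / (2 * (L : ℝ) + 1)) := by ring
  rw [h3]
  nlinarith [sq_nonneg ω]

theorem amp_sum_le (φ : ℝ → ℂ) (hφ : ∀ t, ‖φ t‖ = 1) (a : ℝ) (L : ℕ) (m : ℤ) (F : Finset ℤ) :
    ∑ j ∈ F, ‖φ (a * (j - m : ℤ)) * win L (j - m)‖ ^ 2 ≤ 1 := by
  have h1 : ∑ j ∈ F, ‖φ (a * (j - m : ℤ)) * win L (j - m)‖ ^ 2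
      = ∑ j ∈ F.image (fun j => j - m), ‖win L j‖ ^ 2 := by
    rw [Finset.sum_image (fun x _ y _ h => by simpa using h)]
    refine Finset.sum_congr rfl fun j _ => ?_
    rw [norm_mul, hφ, one_mul]
  rw [h1]
  exact win_sum_le L _

end Pool.Agent.AbCoc
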