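import Mathlib

set_option autoImplicit false

open scoped ComplexConjugate

namespace Pool.Agent.AbCoc

/-- telescoping in one coordinate -/
theorem hs_tele {U W : Type*} [AddCommGroup U] [SeminormedAddCommGroup W] {n : ℕ} (R : ℕ)
    (i : Fin n) (Φ : U → W) (k : Fin n → U) (K : ℝ) (hΦ : ∀ v, ‖Φ v‖ ≤ K) :
    (R : ℝ) * ‖∑ m : Fin n → Fin R, (Φ (∑ j, (m j : ℕ) • k j) - Φ (∑ j, (m j : ℕ) • k j - k i))‖
      ≤ (R : ℝ) ^ n * (2 * K) := by
  classical
  have hsum : ∀ m : Fin n → Fin R, ∑ j, (m j : ℕ) • k j =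
      (m i : ℕ) • k i + ∑ j : {j // j ≠ i}, (m j : ℕ) • k j := by
    intro m
    rw [← Finset.add_sum_erase Finset.univ _ (Finset.mem_univ i)]
    congr 1
    refine Finset.sum_subtype (Finset.univ.erase i) (fun j => ?_) _
    simp
  have h1 : ∑ m : Fin n → Fin R,
      (Φ (∑ j, (m j : ℕ) • k j) - Φ (∑ j, (m j : ℕ) • k j - k i)) =
      ∑ r : {j // j ≠ i} → Fin R, ∑ a : Fin R,
        (Φ ((a : ℕ) • k i + ∑ j, (r j : ℕ) • k j) -
          Φ ((a : ℕ) • k i + ∑ j, (r j : ℕ) • k j - k i)) := by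
    rw [← Fintype.sum_prod_type_right' (f := fun (a : Fin R) (r : {j // j ≠ i} → Fin R) =>
      (Φ ((a : ℕ) • k i + ∑ j, (r j : ℕ) • k j) -
          Φ ((a : ℕ) • k i + ∑ j, (r j : ℕ) • k j - k i)))]
    refine Fintype.sum_equiv (Equiv.funSplitAt i (Fin R)) _ _ fun m => ?_
    rw [hsum]
    rfl
  have h2 : ∀ r : {j // j ≠ i} → Fin R, ‖∑ a : Fin R,
        (Φ ((a : ℕ) • k i + ∑ j, (r j : ℕ) • k j) -
          Φ ((a : ℕ) • k i + ∑ j, (r j : ℕ) • k j - k i))‖ ≤ 2 * K := by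
    intro r
    set w := ∑ j, (r j : ℕ) • k j with hw
    have h3 : ∑ a : Fin R, (Φ ((a : ℕ) • k i + w) - Φ ((a : ℕ) • k i + w - k i)) =
        Φ (R • k i + w - k i) - Φ (0 • k i + w - k i) := by
      rw [Fin.sum_univ_eq_sum_range (fun a => Φ (a • k i + w) - Φ (a • k i + w - k i)) R,
        ← Finset.sum_range_sub (fun a => Φ (a • k i + w - k i)) R]
      refine Finset.sum_congr rfl fun a _ => ?_
      congr 2
      rw [succ_nsmul]
      abel
    rw [h3]
    calc _ ≤ ‖Φ (R • k i + w - k i)‖ + ‖Φ (0 • k i + w - k i)‖ := norm_sub_le _ _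
      _ ≤ K + K := add_le_add (hΦ _) (hΦ _)
      _ = 2 * K := by ring
  have h4 : ‖∑ m : Fin n → Fin R,
      (Φ (∑ j, (m j : ℕ) • k j) - Φ (∑ j, (m j : ℕ) • k j - k i))‖ ≤
      (Fintype.card ({j // j ≠ i} → Fin R) : ℝ) * (2 * K) := by
    rw [h1]
    refine (norm_sum_le _ _).trans ?_
    refine (Finset.sum_le_sum fun r _ => h2 r).trans (le_of_eq ?_)
    rw [Finset.sum_const, nsmul_eq_mul, Finset.card_univ]
  have h5 : (R : ℝ) * (Fintype.card ({j // j ≠ i} → Fin R) : ℝ) = (R : ℝ) ^ n := by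
    have h6 := Fintype.card_congr (Equiv.funSplitAt i (Fin R))
    rw [Fintype.card_prod, Fintype.card_fin, Fintype.card_fun, Fintype.card_fin,
      Fintype.card_fin] at h6
    rw [← Nat.cast_mul, ← h6]
    push_cast
    rfl
  calc _ ≤ (R : ℝ) * ((Fintype.card ({j // j ≠ i} → Fin R) : ℝ) * (2 * K)) :=
        mul_le_mul_of_nonneg_left h4 (Nat.cast_nonneg _)
    _ = _ := by rw [← mul_assoc, h5]

/-- T3-HS: abstract form of 2241 (3) -/
theorem hs_trig {ι : Type} [Fintype ι] {U : Type*} [AddCommGroup U] {W : Type*}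
    [SeminormedAddCommGroup W] [NormedSpace ℂ W] (B : (ι → ℂ) → (ι → ℂ) → W) (M : ℝ) (hM : 0 ≤ M)
    (hB1 : ∀ F F' F'', B (F + F') F'' = B F F'' + B F' F'')
    (hB2 : ∀ F F' F'', B F (F' + F'') = B F F' + B F F'')
    (hB3 : ∀ (c : ℂ) F F', B (c • F) F' = conj c • B F F')
    (hB4 : ∀ (c : ℂ) F F', B F (c • F') = c • B F F')
    (hB : ∀ F F', ‖B F F'‖ ≤ M * (Real.sqrt (∑ t, ‖F t‖ ^ 2) * Real.sqrt (∑ t, ‖F' t‖ ^ 2)))
    (g : U → ι → ℂ) (hg : ∀ l m t, g (l + m) t = g l t * g m t) (hg1 : ∀ l t, ‖g l t‖ = 1)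
    (F u : ι → ℂ) (hF : ∑ t, ‖F t‖ ^ 2 ≤ 1) (hu : ∀ t, ‖u t‖ = 1) (n : ℕ) (k : Fin n → U)
    (h : Fin n → ℂ) (ε2 : ℝ) (hε2 : 0 ≤ ε2)
    (huh : ∀ t, F t ≠ 0 → ‖u t - ∑ i, h i * g (k i) t‖ ≤ ε2)
    (R : ℕ) (hR : 0 < R) (ε : ℝ)
    (hinv : ∀ m : Fin n → ℕ, (∀ i, m i < R) →
      ‖B (fun t => g (∑ i, m i • k i) t * F t) (fun t => g (∑ i, m i • k i) t * F t)
        - B F F‖ ≤ ε ∧
      ‖B (fun t => g (∑ i, m i • k i) t * (u t * F t)) (fun t => g (∑ i, m i • k i) t * (u t * F t))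
        - B (fun t => u t * F t) (fun t => u t * F t)‖ ≤ ε) :
    ‖B (fun t => u t * F t) (fun t => u t * F t) - B F F‖
      ≤ 2 * ε + 2 * ε2 * M + 2 * M * (∑ i, ‖h i‖) / R := by
  classical
  -- the norm
  set N : (ι → ℂ) → ℝ := fun F => Real.sqrt (∑ t, ‖F t‖ ^ 2) with hN
  have hN0 : ∀ F, 0 ≤ N F := fun F => Real.sqrt_nonneg _
  have hNle : ∀ (F F' : ι → ℂ) (c : ℝ), 0 ≤ c → (∀ t, ‖F t‖ ≤ c * ‖F' t‖) → N F ≤ c * N F' := by
    intro F F' c hc hFF
    show Real.sqrt (∑ t, ‖F t‖ ^ 2) ≤ c * Real.sqrt (∑ t, ‖F' t‖ ^ 2)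
    rw [← Real.sqrt_sq hc, ← Real.sqrt_mul (sq_nonneg c), Finset.mul_sum]
    refine Real.sqrt_le_sqrt (Finset.sum_le_sum fun t _ => ?_)
    rw [← mul_pow]
    exact pow_le_pow_left₀ (norm_nonneg _) (hFF t) 2
  have hNg : ∀ v (F : ι → ℂ), N (fun t => g v t * F t) = N F := by
    intro v F
    show Real.sqrt _ = Real.sqrt _
    congr 1
    refine Finset.sum_congr rfl fun t _ => ?_
    rw [norm_mul, hg1, one_mul]
  have hB' : ∀ F F', ‖B F F'‖ ≤ M * (N F * N F') := hB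
  have hg0 : ∀ t, g 0 t = 1 := by
    intro t
    have h1 := hg 0 0 t
    rw [add_zero] at h1
    have h2 : g 0 t ≠ 0 := by
      intro h3
      have := hg1 0 t
      rw [h3, norm_zero] at this
      exact zero_ne_one this
    exact (mul_right_cancel₀ h2 (by rw [one_mul]; exact h1)).symm
  have hgneg : ∀ v t, g (-v) t = conj (g v t) := by
    intro v t
    have h1 := hg (-v) v t
    rw [neg_add_cancel, hg0] at h1
    rw [← Complex.inv_eq_conj (hg1 v t)]
    exact eq_inv_of_mul_eq_one_left h1.symm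
  -- linearity in finite sums
  have hB10 : ∀ F', B 0 F' = 0 := by
    intro F'
    have := hB3 0 0 F'
    simpa using this
  have hB20 : ∀ F, B F 0 = 0 := by
    intro F
    have := hB4 0 F 0
    simpa using this
  have hBs1 : ∀ (c : Fin n → ℂ) (f : Fin n → ι → ℂ) (F' : ι → ℂ) (s : Finset (Fin n)),
      B (∑ i ∈ s, c i • f i) F' = ∑ i ∈ s, conj (c i) • B (f i) F' := by
    intro c f F' s
    induction s using Finset.induction_on with
    | empty => simp [hB10]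
    | insert a s ha ih => rw [Finset.sum_insert ha, Finset.sum_insert ha, hB1, hB3, ih]
  have hBs2 : ∀ (c : Fin n → ℂ) (f : Fin n → ι → ℂ) (F' : ι → ℂ) (s : Finset (Fin n)),
      B F' (∑ i ∈ s, c i • f i) = ∑ i ∈ s, c i • B F' (f i) := by
    intro c f F' s
    induction s using Finset.induction_on with
    | empty => simp [hB20]
    | insert a s ha ih => rw [Finset.sum_insert ha, Finset.sum_insert ha, hB2, hB4, ih]
  -- the averaged form
  set v : (Fin n → Fin R) → U := fun m => ∑ j, (m j : ℕ) • k j with hv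
  set G : U → (ι → ℂ) → (ι → ℂ) := fun w F t => g w t * F t with hG
  set S : (ι → ℂ) → (ι → ℂ) → W := fun F1 F2 => ∑ m : Fin n → Fin R, B (G (v m) F1) (G (v m) F2)
    with hS
  have hGadd : ∀ w F1 F2, G w (F1 + F2) = G w F1 + G w F2 := by
    intro w F1 F2
    funext t
    show g w t * (F1 t + F2 t) = g w t * F1 t + g w t * F2 t
    ring
  have hGsum : ∀ w (c : Fin n → ℂ) (f : Fin n → ι → ℂ), G w (∑ i, c i • f i) = ∑ i, c i • G w (f i) := by
    intro w c f
    funext t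
    show g w t * ((∑ i, c i • f i) t) = (∑ i, c i • G w (f i)) t
    rw [Finset.sum_apply, Finset.sum_apply, Finset.mul_sum]
    refine Finset.sum_congr rfl fun i _ => ?_
    show g w t * (c i * f i t) = c i * (g w t * f i t)
    ring
  have hS1 : ∀ F1 F1' F2, S (F1 + F1') F2 = S F1 F2 + S F1' F2 := by
    intro F1 F1' F2
    show ∑ m, _ = ∑ m, _ + ∑ m, _
    rw [← Finset.sum_add_distrib]
    exact Finset.sum_congr rfl fun m _ => by rw [hGadd, hB1]
  have hS2 : ∀ F1 F2 F2', S F1 (F2 + F2') = S F1 F2 + S F1 F2' := by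
    intro F1 F2 F2'
    show ∑ m, _ = ∑ m, _ + ∑ m, _
    rw [← Finset.sum_add_distrib]
    exact Finset.sum_congr rfl fun m _ => by rw [hGadd, hB2]
  have hSs1 : ∀ (c : Fin n → ℂ) (f : Fin n → ι → ℂ) (F' : ι → ℂ),
      S (∑ i, c i • f i) F' = ∑ i, conj (c i) • S (f i) F' := by
    intro c f F'
    show ∑ m, _ = ∑ i, conj (c i) • ∑ m, _
    simp_rw [Finset.smul_sum]
    rw [Finset.sum_comm]
    exact Finset.sum_congr rfl fun m _ => by rw [hGsum, hBs1]
  have hSs2 : ∀ (c : Fin n → ℂ) (f : Fin n → ι → ℂ) (F' : ι → ℂ),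
      S F' (∑ i, c i • f i) = ∑ i, c i • S F' (f i) := by
    intro c f F'
    show ∑ m, _ = ∑ i, c i • ∑ m, _
    simp_rw [Finset.smul_sum]
    rw [Finset.sum_comm]
    exact Finset.sum_congr rfl fun m _ => by rw [hGsum, hBs2]
  have hcard : (Fintype.card (Fin n → Fin R) : ℝ) = (R : ℝ) ^ n := by
    rw [Fintype.card_fun, Fintype.card_fin, Fintype.card_fin]
    push_cast
    rfl
  have hSn : ∀ F1 F2, ‖S F1 F2‖ ≤ (R : ℝ) ^ n * (M * (N F1 * N F2)) := by
    intro F1 F2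
    refine (norm_sum_le _ _).trans ?_
    refine (Finset.sum_le_sum (g := fun _ => M * (N F1 * N F2)) fun m _ => ?_).trans (le_of_eq ?_)
    · refine (hB' _ _).trans (le_of_eq ?_)
      rw [hNg, hNg]
    · rw [Finset.sum_const, nsmul_eq_mul, Finset.card_univ, hcard]
  have hRpos : (0 : ℝ) < R := by exact_mod_cast hR
  have hshift : ∀ (i : Fin n) (F1 F2 : ι → ℂ),
      ‖S (G (k i) F1) F2 - S F1 (G (-k i) F2)‖ ≤ (R : ℝ) ^ n * (2 * (M * (N F1 * N F2)) / R) := by
    intro i F1 F2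
    have h1 := hs_tele R i (fun w => B (G (w + k i) F1) (G w F2)) k (M * (N F1 * N F2)) (fun w => by
      refine (hB' _ _).trans (le_of_eq ?_)
      rw [hNg, hNg])
    have h2 : S (G (k i) F1) F2 - S F1 (G (-k i) F2) = ∑ m : Fin n → Fin R,
        ((fun w => B (G (w + k i) F1) (G w F2)) (∑ j, (m j : ℕ) • k j) -
          (fun w => B (G (w + k i) F1) (G w F2)) (∑ j, (m j : ℕ) • k j - k i)) := by
      show ∑ m, _ - ∑ m, _ = _
      rw [← Finset.sum_sub_distrib]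
      refine Finset.sum_congr rfl fun m _ => ?_
      show B (G (v m) (G (k i) F1)) (G (v m) F2) - B (G (v m) F1) (G (v m) (G (-k i) F2)) =
        B (G (v m + k i) F1) (G (v m) F2) - B (G (v m - k i + k i) F1) (G (v m - k i) F2)
      have e1 : G (v m) (G (k i) F1) = G (v m + k i) F1 := by
        funext t
        show g (v m) t * (g (k i) t * F1 t) = g (v m + k i) t * F1 t
        rw [hg]; ring
      have e2 : G (v m) (G (-k i) F2) = G (v m - k i) F2 := by
        funext t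
        show g (v m) t * (g (-k i) t * F2 t) = g (v m - k i) t * F2 t
        rw [sub_eq_add_neg, hg]; ring
      rw [e1, e2, sub_add_cancel]
    rw [h2]
    have h3 : ∀ x : ℝ, (R : ℝ) * x ≤ (R : ℝ) ^ n * (2 * (M * (N F1 * N F2))) →
        x ≤ (R : ℝ) ^ n * (2 * (M * (N F1 * N F2)) / R) := by
      intro x hx
      rw [← mul_div_assoc, le_div_iff₀ hRpos]
      linarith
    exact h3 _ h1
  -- the functions
  set uF : ι → ℂ := fun t => u t * F t with huF
  set P : ι → ℂ := ∑ i, h i • G (k i) F with hP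
  set Q : ι → ℂ := ∑ i, conj (h i) • G (-k i) uF with hQ
  have hNF : N F ≤ 1 := by
    show Real.sqrt _ ≤ 1
    rw [Real.sqrt_le_one]
    exact hF
  have hNuF : N uF ≤ 1 := by
    refine (hNle uF F 1 zero_le_one fun t => ?_).trans (by rw [one_mul]; exact hNF)
    show ‖u t * F t‖ ≤ 1 * ‖F t‖
    rw [norm_mul, hu]
  have hPt : ∀ t, P t = (∑ i, h i * g (k i) t) * F t := by
    intro t
    rw [hP, Finset.sum_apply, Finset.sum_mul]
    refine Finset.sum_congr rfl fun i _ => ?_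
    show h i * (g (k i) t * F t) = _
    ring
  have hQt : ∀ t, Q t = conj (∑ i, h i * g (k i) t) * (u t * F t) := by
    intro t
    rw [hQ, Finset.sum_apply, map_sum, Finset.sum_mul]
    refine Finset.sum_congr rfl fun i _ => ?_
    show conj (h i) * (g (-k i) t * (u t * F t)) = _
    rw [hgneg, map_mul]
    ring
  have hdF : N (uF - P) ≤ ε2 := by
    refine (hNle (uF - P) F ε2 hε2 fun t => ?_).trans ((mul_le_mul_of_nonneg_left hNF hε2).trans
      (by rw [mul_one]))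
    rw [Pi.sub_apply, hPt]
    show ‖u t * F t - (∑ i, h i * g (k i) t) * F t‖ ≤ _
    rw [← sub_mul, norm_mul]
    by_cases h0 : F t = 0
    · rw [h0, norm_zero, mul_zero, mul_zero]
    · exact mul_le_mul_of_nonneg_right (huh t h0) (norm_nonneg _)
  have hdQ : N (F - Q) ≤ ε2 := by
    refine (hNle (F - Q) F ε2 hε2 fun t => ?_).trans ((mul_le_mul_of_nonneg_left hNF hε2).trans
      (by rw [mul_one]))
    rw [Pi.sub_apply, hQt]
    have huu : conj (u t) * u t = 1 := by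
      rw [← Complex.normSq_eq_conj_mul_self, Complex.normSq_eq_norm_sq, hu]
      norm_num
    have e : F t - conj (∑ i, h i * g (k i) t) * (u t * F t) =
        conj (u t - ∑ i, h i * g (k i) t) * u t * F t := by
      rw [map_sub, sub_mul, sub_mul, huu]
      ring
    rw [e, norm_mul, norm_mul, hu, mul_one, RCLike.norm_conj]
    by_cases h0 : F t = 0
    · rw [h0, norm_zero, mul_zero, mul_zero]
    · exact mul_le_mul_of_nonneg_right (huh t h0) (norm_nonneg _)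
  have hRn : (0 : ℝ) < (R : ℝ) ^ n := pow_pos hRpos n
  -- step 1
  have s1 : ‖S uF uF - S P uF‖ ≤ (R : ℝ) ^ n * (M * ε2) := by
    have e : S uF uF = S P uF + S (uF - P) uF := by
      rw [← hS1]
      congr 1
      abel
    rw [e, add_sub_cancel_left]
    refine (hSn _ _).trans (mul_le_mul_of_nonneg_left (mul_le_mul_of_nonneg_left ?_ hM) hRn.le)
    calc N (uF - P) * N uF ≤ ε2 * 1 := mul_le_mul hdF hNuF (hN0 _) hε2
      _ = ε2 := mul_one _
  have s2 : ‖S P uF - S F Q‖ ≤ (R : ℝ) ^ n * (2 * M * (∑ i, ‖h i‖) / R) := by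
    have e : S P uF - S F Q = ∑ i, conj (h i) • (S (G (k i) F) uF - S F (G (-k i) uF)) := by
      rw [hP, hQ, hSs1, hSs2, ← Finset.sum_sub_distrib]
      exact Finset.sum_congr rfl fun i _ => by rw [smul_sub]
    rw [e]
    refine (norm_sum_le _ _).trans ?_
    have h5 : ∀ i, ‖conj (h i) • (S (G (k i) F) uF - S F (G (-k i) uF))‖ ≤
        ‖h i‖ * ((R : ℝ) ^ n * (2 * M / R)) := by
      intro i
      rw [norm_smul, RCLike.norm_conj]
      refine mul_le_mul_of_nonneg_left ((hshift i F uF).trans ?_) (norm_nonneg _)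
      refine mul_le_mul_of_nonneg_left (div_le_div_of_nonneg_right ?_ hRpos.le) hRn.le
      refine mul_le_mul_of_nonneg_left ?_ zero_le_two
      calc M * (N F * N uF) ≤ M * (1 * 1) :=
            mul_le_mul_of_nonneg_left (mul_le_mul hNF hNuF (hN0 _) zero_le_one) hM
        _ = M := by ring
    refine (Finset.sum_le_sum fun i _ => h5 i).trans (le_of_eq ?_)
    rw [← Finset.sum_mul]
    ring
  have s3 : ‖S F Q - S F F‖ ≤ (R : ℝ) ^ n * (M * ε2) := by
    have e : S F F = S F Q + S F (F - Q) := by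
      rw [← hS2]
      congr 1
      abel
    rw [e, sub_add_cancel_left, norm_neg]
    refine (hSn _ _).trans (mul_le_mul_of_nonneg_left (mul_le_mul_of_nonneg_left ?_ hM) hRn.le)
    calc N F * N (F - Q) ≤ 1 * ε2 := mul_le_mul hNF hdQ (hN0 _) zero_le_one
      _ = ε2 := one_mul _
  have hav : ∀ F0 : ι → ℂ, (∀ m : Fin n → Fin R, ‖B (G (v m) F0) (G (v m) F0) - B F0 F0‖ ≤ ε) →
      ‖S F0 F0 - ((R : ℝ) ^ n : ℝ) • B F0 F0‖ ≤ (R : ℝ) ^ n * ε := by
    intro F0 hF0
    have e : S F0 F0 - ((R : ℝ) ^ n : ℝ) • B F0 F0 =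
        ∑ m : Fin n → Fin R, (B (G (v m) F0) (G (v m) F0) - B F0 F0) := by
      rw [Finset.sum_sub_distrib, Finset.sum_const, Finset.card_univ, ← hcard, Nat.cast_smul_eq_nsmul]
    rw [e]
    refine (norm_sum_le _ _).trans ?_
    refine (Finset.sum_le_sum fun m _ => hF0 m).trans (le_of_eq ?_)
    rw [Finset.sum_const, nsmul_eq_mul, Finset.card_univ, hcard]
  have s4 := hav F (fun m => (hinv (fun i => (m i : ℕ)) (fun i => (m i).2)).1)
  have s5 := hav uF (fun m => (hinv (fun i => (m i : ℕ)) (fun i => (m i).2)).2)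
  have key : (R : ℝ) ^ n * ‖B uF uF - B F F‖ ≤
      (R : ℝ) ^ n * (2 * ε + 2 * ε2 * M + 2 * M * (∑ i, ‖h i‖) / R) := by
    have e : (R : ℝ) ^ n * ‖B uF uF - B F F‖ = ‖((R : ℝ) ^ n : ℝ) • (B uF uF - B F F)‖ := by
      rw [norm_smul, Real.norm_of_nonneg hRn.le]
    rw [e, smul_sub]
    have e2 : ((R : ℝ) ^ n : ℝ) • B uF uF - ((R : ℝ) ^ n : ℝ) • B F F =
        -(S uF uF - ((R : ℝ) ^ n : ℝ) • B uF uF) + (S uF uF - S P uF) + (S P uF - S F Q) +
        (S F Q - S F F) + (S F F - ((R : ℝ) ^ n : ℝ) • B F F) := by abel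
    rw [e2]
    have t1 := norm_add_le (-(S uF uF - ((R : ℝ) ^ n : ℝ) • B uF uF) + (S uF uF - S P uF) +
      (S P uF - S F Q) + (S F Q - S F F)) (S F F - ((R : ℝ) ^ n : ℝ) • B F F)
    have t2 := norm_add_le (-(S uF uF - ((R : ℝ) ^ n : ℝ) • B uF uF) + (S uF uF - S P uF) +
      (S P uF - S F Q)) (S F Q - S F F)
    have t3 := norm_add_le (-(S uF uF - ((R : ℝ) ^ n : ℝ) • B uF uF) + (S uF uF - S P uF))
      (S P uF - S F Q)
    have t4 := norm_add_le (-(S uF uF - ((R : ℝ) ^ n : ℝ) • B uF uF)) (S uF uF - S P uF)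
    rw [norm_neg] at t4
    have e3 : (R : ℝ) ^ n * (2 * ε + 2 * ε2 * M + 2 * M * (∑ i, ‖h i‖) / R) =
        (R : ℝ) ^ n * ε + (R : ℝ) ^ n * (M * ε2) + (R : ℝ) ^ n * (2 * M * (∑ i, ‖h i‖) / R) +
        (R : ℝ) ^ n * (M * ε2) + (R : ℝ) ^ n * ε := by ring
    rw [e3]
    linarith
  exact le_of_mul_le_mul_left key hRn

end Pool.Agent.AbCoc
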