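import Pool.Agent.Lib_MP_418a80_t3.Gram0
import Pool.Agent.Lib_MP_418a80_t3.HS

/-!
# MP_418a80_an, T3: 2241 (3) for the Gram elements of packets
-/

set_option autoImplicit false
set_option linter.unusedVariables false
set_option linter.unusedSectionVars false

open scoped ComplexConjugate

namespace Pool.Agent.AbCoc

universe u v w

section
variable {A : Type u} [CStarAlgebra A] {K : Type v} [NormedAddCommGroup K]
  [InnerProductSpace ℂ K] [CompleteSpace K]
variable {G : Type w} [Group G] [TopologicalSpace G] {T : TrAlg A K} (S : TrAct G T)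

/-- extension by zero -/
noncomputable def zext {F : Finset ℤ} (f : F → ℂ) (j : ℤ) : ℂ := if h : j ∈ F then f ⟨j, h⟩ else 0

theorem zext_mem {F : Finset ℤ} (f : F → ℂ) (j : F) : zext f j = f j := by
  unfold zext
  rw [dif_pos j.2]

theorem zext_sum {F : Finset ℤ} (f : F → ℂ) : ∑ j ∈ F, ‖zext f j‖ ^ 2 = ∑ j : F, ‖f j‖ ^ 2 := by
  rw [← Finset.sum_coe_sort F]
  exact Finset.sum_congr rfl fun j _ => by rw [zext_mem]

variable (R : RSec G) {F : Finset ℤ} (E : Chs ℤ F) (a : ℝ) (e : A)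

/-- packets with amplitudes on `F` -/
noncomputable def TrAct.pz (f : F → ℂ) (c : E.C) : A := S.pk R E a e (zext f) c

theorem TrAct.pz_eq (f : ℤ → ℂ) (c : E.C) : S.pz R E a e (fun j : F => f j) c = S.pk R E a e f c :=
  S.pk_congr R E (fun j hj => zext_mem (fun j : F => f j) ⟨j, hj⟩) c

theorem TrAct.pz_add (f f' : F → ℂ) (c : E.C) :
    S.pz R E a e (f + f') c = S.pz R E a e f c + S.pz R E a e f' c := by
  unfold TrAct.pz
  rw [S.pk_add]
  refine S.pk_congr R E (fun j hj => ?_) c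
  have h1 := zext_mem (f + f') ⟨j, hj⟩
  have h2 := zext_mem f ⟨j, hj⟩
  have h3 := zext_mem f' ⟨j, hj⟩
  rw [h1, h2, h3]
  rfl

theorem TrAct.pz_smul (x : ℂ) (f : F → ℂ) (c : E.C) :
    S.pz R E a e (x • f) c = x • S.pz R E a e f c := by
  unfold TrAct.pz
  rw [← S.pk_smul]
  refine S.pk_congr R E (fun j hj => ?_) c
  have h1 := zext_mem (x • f) ⟨j, hj⟩
  have h2 := zext_mem f ⟨j, hj⟩
  rw [h1, h2]
  rfl

/-- the sesquilinear Gram map -/
noncomputable def TrAct.gramB (f f' : F → ℂ) : PiLp 1 (fun _ : E.C => A →L[ℂ] ℂ) :=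
  WithLp.toLp 1 fun c => T.fn (star (S.pz R E a e f c) * S.pz R E a e f' c)

theorem TrAct.norm_gramB_sub (f f' g g' : F → ℂ) :
    ‖S.gramB R E a e f f' - S.gramB R E a e g g'‖
      = ∑ c, T.n1 (star (S.pz R E a e f c) * S.pz R E a e f' c
        - star (S.pz R E a e g c) * S.pz R E a e g' c) := by
  rw [PiLp.norm_eq_of_L1]
  refine Finset.sum_congr rfl fun c _ => ?_
  unfold TrAlg.n1
  rw [T.fn_sub]
  rfl

theorem TrAct.norm_gramB (f f' : F → ℂ) :
    ‖S.gramB R E a e f f'‖ = ∑ c, T.n1 (star (S.pz R E a e f c) * S.pz R E a e f' c) := by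
  rw [PiLp.norm_eq_of_L1]
  rfl

theorem TrAct.hs_gram {U : Type*} [AddCommGroup U] (g : U → ℤ → ℂ)
    (hg : ∀ l m j, g (l + m) j = g l j * g m j) (hg1 : ∀ l j, ‖g l j‖ = 1) (f u : ℤ → ℂ)
    (hf : ∑ j ∈ F, ‖f j‖ ^ 2 ≤ 1) (hu : ∀ j, ‖u j‖ = 1) (n : ℕ) (k : Fin n → U) (h : Fin n → ℂ)
    (ε2 : ℝ) (hε2 : 0 ≤ ε2) (huh : ∀ j ∈ F, f j ≠ 0 → ‖u j - ∑ i, h i * g (k i) j‖ ≤ ε2)
    (N : ℕ) (hN : 0 < N) (ε : ℝ)
    (hinv : ∀ m : Fin n → ℕ, (∀ i, m i < N) →
      ∑ c, T.n1 (S.gr R E a e (fun j => g (∑ i, m i • k i) j * f j) c - S.gr R E a e f c) ≤ ε ∧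
      ∑ c, T.n1 (S.gr R E a e (fun j => g (∑ i, m i • k i) j * (u j * f j)) c
        - S.gr R E a e (fun j => u j * f j) c) ≤ ε) :
    ∑ c, T.n1 (S.gr R E a e (fun j => u j * f j) c - S.gr R E a e f c)
      ≤ 2 * ε + 2 * ε2 * ‖T.ι e‖ ^ 2 + 2 * ‖T.ι e‖ ^ 2 * (∑ i, ‖h i‖) / N := by
  have key := hs_trig (S.gramB R E a e) (‖T.ι e‖ ^ 2) (sq_nonneg _) ?_ ?_ ?_ ?_ ?_
    (fun l (j : F) => g l j) (fun l m j => hg l m j) (fun l j => hg1 l j) (fun j : F => f j)
    (fun j : F => u j) ?_ (fun j => hu j) n k h ε2 hε2 (fun j hj => huh j j.2 hj) N hN ε ?_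
  · rw [S.norm_gramB_sub] at key
    refine le_trans (le_of_eq ?_) key
    refine Finset.sum_congr rfl fun c _ => ?_
    rw [S.pz_eq R E a e f c, S.pz_eq R E a e (fun j => u j * f j) c]
    rfl
  · intro F1 F2 F3
    unfold TrAct.gramB
    rw [← WithLp.toLp_add]
    congr 1
    funext c
    rw [Pi.add_apply, ← T.fn_add, S.pz_add, star_add, add_mul]
  · intro F1 F2 F3
    unfold TrAct.gramB
    rw [← WithLp.toLp_add]
    congr 1
    funext c
    rw [Pi.add_apply, ← T.fn_add, S.pz_add, mul_add]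
  · intro x F1 F2
    unfold TrAct.gramB
    rw [← WithLp.toLp_smul]
    congr 1
    funext c
    rw [Pi.smul_apply, ← T.fn_smul, S.pz_smul, star_smul, smul_mul_assoc]
    rfl
  · intro x F1 F2
    unfold TrAct.gramB
    rw [← WithLp.toLp_smul]
    congr 1
    funext c
    rw [Pi.smul_apply, ← T.fn_smul, S.pz_smul, mul_smul_comm]
  · intro F1 F2
    rw [S.norm_gramB, ← zext_sum, ← zext_sum]
    exact S.sum_n1_pk R E _ _
  · rw [Finset.sum_coe_sort F fun j => ‖f j‖ ^ 2]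
    exact hf
  · intro m hm
    have h1 := hinv m hm
    constructor
    · rw [S.norm_gramB_sub]
      refine le_trans (le_of_eq ?_) h1.1
      refine Finset.sum_congr rfl fun c _ => ?_
      rw [S.pz_eq R E a e f c, S.pz_eq R E a e (fun j => g (∑ i, m i • k i) j * f j) c]
      rfl
    · rw [S.norm_gramB_sub]
      refine le_trans (le_of_eq ?_) h1.2
      refine Finset.sum_congr rfl fun c _ => ?_
      rw [S.pz_eq R E a e (fun j => u j * f j) c,
        S.pz_eq R E a e (fun j => g (∑ i, m i • k i) j * (u j * f j)) c]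
      rfl

end

end Pool.Agent.AbCoc
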