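import Pool.Agent.Lib_MP_418a80_t3.Mult3
import Pool.Agent.Lib_MP_418a80_t3.Fam

/-!
# The Heisenberg step, part 1: group data, the grid function
-/

set_option autoImplicit false
set_option linter.unusedVariables false
set_option linter.unusedSectionVars false

open Topology Filter
open scoped RealInnerProductSpace ComplexConjugate

namespace Pool.Agent.AbCoc

universe u v w

/-- The data of a homomorphism (up to a central direction) to a Heisenberg group -/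
structure HData (G : Type w) [Group G] [TopologicalSpace G] (n : ℕ) where
  a : G → EuclideanSpace ℝ (Fin n)
  b : G → EuclideanSpace ℝ (Fin n)
  ξ : G → ℝ
  ha : Continuous a
  hb : Continuous b
  hξ : Continuous ξ
  amul : ∀ g h, a (g * h) = a g + a h
  bmul : ∀ g h, b (g * h) = b g + b h
  ξmul : ∀ g h, ξ (g * h) = ξ g + ξ h + ⟪a g, b h⟫
  s : EuclideanSpace ℝ (Fin n) → G
  r : EuclideanSpace ℝ (Fin n) → G
  hs : Continuous s
  hr : Continuous r
  s0 : s 0 = 1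
  as : ∀ t, a (s t) = t
  bs : ∀ t, b (s t) = 0
  ξs : ∀ t, ξ (s t) = 0
  ar : ∀ t, a (r t) = 0
  br : ∀ t, b (r t) = t

namespace HData
variable {G : Type w} [Group G] [TopologicalSpace G] {n : ℕ} (H : HData G n)

theorem a_one : H.a 1 = 0 := by
  have h := H.amul 1 1
  rw [mul_one] at h
  exact left_eq_add.1 h

theorem b_one : H.b 1 = 0 := by
  have h := H.bmul 1 1
  rw [mul_one] at h
  exact left_eq_add.1 h

theorem a_inv (g : G) : H.a g⁻¹ = -H.a g := by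
  have h := H.amul g g⁻¹
  rw [mul_inv_cancel, H.a_one] at h
  exact (neg_eq_of_add_eq_zero_right h.symm).symm

theorem b_inv (g : G) : H.b g⁻¹ = -H.b g := by
  have h := H.bmul g g⁻¹
  rw [mul_inv_cancel, H.b_one] at h
  exact (neg_eq_of_add_eq_zero_right h.symm).symm

theorem ξ_one : H.ξ 1 = 0 := by
  have h := H.ξmul 1 1
  rw [mul_one, H.a_one, inner_zero_left] at h
  linarith

theorem ξ_inv (g : G) : H.ξ g⁻¹ = -H.ξ g + ⟪H.a g, H.b g⟫ := by
  have h := H.ξmul g g⁻¹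
  rw [mul_inv_cancel, H.ξ_one, H.b_inv, inner_neg_right] at h
  linarith

/-- the kernel part of `h * s t` -/
def kp (h : G) (t t' : EuclideanSpace ℝ (Fin n)) : G :=
  (H.s t')⁻¹ * h * H.s t * (H.s (t + H.a h - t'))⁻¹

theorem kp_eq (h : G) (t t' : EuclideanSpace ℝ (Fin n)) :
    h * H.s t = H.s t' * H.kp h t t' * H.s (t + H.a h - t') := by
  unfold kp
  group

theorem a_kp (h : G) (t t' : EuclideanSpace ℝ (Fin n)) : H.a (H.kp h t t') = 0 := by
  unfold kp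
  rw [H.amul, H.amul, H.amul, H.a_inv, H.a_inv, H.as, H.as, H.as]
  abel

theorem b_kp (h : G) (t t' : EuclideanSpace ℝ (Fin n)) : H.b (H.kp h t t') = H.b h := by
  unfold kp
  rw [H.bmul, H.bmul, H.bmul, H.b_inv, H.b_inv, H.bs, H.bs, H.bs]
  abel

theorem ξ_kp (h : G) (t t' : EuclideanSpace ℝ (Fin n)) :
    H.ξ (H.kp h t t') = H.ξ h - ⟪t', H.b h⟫ := by
  unfold kp
  rw [H.ξmul, H.ξmul, H.ξmul, H.ξ_inv, H.ξ_inv, H.b_inv, H.a_inv]
  simp only [H.ξs, H.bs, H.as, inner_zero_right, neg_zero, inner_neg_left]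
  ring

/-- conjugation changes `ξ` by the symplectic form -/
theorem ξ_conj (h g : G) :
    H.ξ (g⁻¹ * h * g) = H.ξ h + (⟪H.a h, H.b g⟫ - ⟪H.a g, H.b h⟫) := by
  rw [H.ξmul, H.ξmul, H.ξ_inv, H.amul, H.a_inv, inner_add_left, inner_neg_left, inner_neg_left]
  ring

theorem a_conj (h g : G) : H.a (g⁻¹ * h * g) = H.a h := by
  rw [H.amul, H.amul, H.a_inv]
  abel

theorem b_conj (h g : G) : H.b (g⁻¹ * h * g) = H.b h := by
  rw [H.bmul, H.bmul, H.b_inv]
  abel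

end HData

/-! ### the grid -/

section grid
variable {n : ℕ}

/-- grid vectors -/
def gv (j : Fin n → ℤ) : EuclideanSpace ℝ (Fin n) := WithLp.toLp 2 (fun i => (j i : ℝ))

theorem gv_add (j k : Fin n → ℤ) : gv (j + k) = gv j + gv k := by
  ext i
  simp [gv]

theorem gv_zero : gv (0 : Fin n → ℤ) = 0 := by
  ext i
  simp [gv]

theorem norm_gv_le (j : Fin n → ℤ) : ‖gv j‖ ≤ √n * ‖j‖ := by
  rw [EuclideanSpace.norm_eq]
  have h1 : ∑ i, ‖(gv j) i‖ ^ 2 ≤ ∑ _i : Fin n, ‖j‖ ^ 2 := by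
    refine Finset.sum_le_sum fun i _ => pow_le_pow_left₀ (norm_nonneg _) ?_ 2
    have h2 : ‖(gv j) i‖ = ‖j i‖ := by
      change ‖(j i : ℝ)‖ = ‖j i‖
      rw [Int.norm_eq_abs, Real.norm_eq_abs]
    rw [h2]
    exact norm_le_pi_norm j i
  rw [Finset.sum_const, Finset.card_univ, Fintype.card_fin, nsmul_eq_mul] at h1
  calc √(∑ i, ‖(gv j) i‖ ^ 2) ≤ √((n : ℝ) * ‖j‖ ^ 2) := Real.sqrt_le_sqrt h1
    _ = √n * ‖j‖ := by rw [Real.sqrt_mul (Nat.cast_nonneg n), Real.sqrt_sq (norm_nonneg _)]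

/-- the tent function on the grid -/
noncomputable def hatf (τ : ℝ) (j : Fin n → ℤ) : ℝ := max 0 (1 - τ * ‖j‖)

theorem hatf_nonneg (τ : ℝ) (j : Fin n → ℤ) : 0 ≤ hatf τ j := le_max_left _ _

theorem hatf_le_one {τ : ℝ} (hτ : 0 ≤ τ) (j : Fin n → ℤ) : hatf τ j ≤ 1 := by
  unfold hatf
  refine max_le zero_le_one ?_
  have : 0 ≤ τ * ‖j‖ := by positivity
  linarith

theorem hatf_supp {τ : ℝ} {j : Fin n → ℤ} (h : hatf τ j ≠ 0) : τ * ‖j‖ < 1 := by
  by_contra h1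
  push Not at h1
  apply h
  unfold hatf
  exact max_eq_left (by linarith)

theorem hatf_sub_le {τ : ℝ} (hτ : 0 ≤ τ) (i j : Fin n → ℤ) :
    |hatf τ i - hatf τ j| ≤ τ * ‖i - j‖ := by
  unfold hatf
  rw [max_comm 0, max_comm 0]
  refine (abs_max_sub_max_le_abs _ _ _).trans ?_
  have h1 : 1 - τ * ‖i‖ - (1 - τ * ‖j‖) = -(τ * (‖i‖ - ‖j‖)) := by ring
  rw [h1, abs_neg, abs_mul, abs_of_nonneg hτ]
  exact mul_le_mul_of_nonneg_left (abs_norm_sub_norm_le i j) hτ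

/-- the box -/
noncomputable def gbox (n M : ℕ) : Finset (Fin n → ℤ) := Fintype.piFinset fun _ => Finset.Icc (-(M : ℤ)) M

theorem mem_gbox {M : ℕ} {j : Fin n → ℤ} : j ∈ gbox n M ↔ ‖j‖ ≤ M := by
  unfold gbox
  rw [Fintype.mem_piFinset, pi_norm_le_iff_of_nonneg (Nat.cast_nonneg M)]
  refine forall_congr' fun i => ?_
  rw [Finset.mem_Icc, ← abs_le, Int.norm_eq_abs]
  constructor
  · intro h; exact_mod_cast h
  · intro h; exact_mod_cast h

theorem card_gbox (M : ℕ) : (gbox n M).card = (2 * M + 1) ^ n := by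
  unfold gbox
  rw [Fintype.card_piFinset]
  simp only [Int.card_Icc, Finset.prod_const, Finset.card_univ, Fintype.card_fin]
  congr 1
  omega

/-- the number of grid points on which we work -/
noncomputable def gN (τ : ℝ) : ℕ := ⌊3 / τ⌋₊

theorem mem_gbox_gN {τ : ℝ} (hτ : 0 < τ) {j : Fin n → ℤ} : j ∈ gbox n (gN τ) → τ * ‖j‖ ≤ 3 := by
  intro h
  rw [mem_gbox] at h
  have h1 : ((gN τ : ℕ) : ℝ) ≤ 3 / τ := Nat.floor_le (by positivity)
  have h2 := h.trans h1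
  rw [le_div_iff₀ hτ] at h2
  linarith

theorem mem_gbox_gN' {τ : ℝ} (hτ : 0 < τ) {j : Fin n → ℤ} (h : τ * ‖j‖ ≤ 3) :
    j ∈ gbox n (gN τ) := by
  rw [mem_gbox, pi_norm_le_iff_of_nonneg (Nat.cast_nonneg _)]
  intro i
  have h1 : τ * ‖j i‖ ≤ 3 := (mul_le_mul_of_nonneg_left (norm_le_pi_norm j i) hτ.le).trans h
  have h2 : ‖j i‖ = ((j i).natAbs : ℝ) := by
    rw [Int.norm_eq_abs, ← Int.cast_abs, Nat.cast_natAbs]
  rw [h2] at h1 ⊢
  rw [Nat.cast_le]
  apply Nat.le_floor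
  rw [le_div_iff₀ hτ]
  linarith

/-- the square sum of the tent function -/
noncomputable def hN (n : ℕ) (τ : ℝ) : ℝ := ∑ j ∈ gbox n (gN τ), hatf τ j ^ 2

theorem card_le_hN {τ : ℝ} (hτ : 0 < τ) (hτ1 : τ ≤ 1) :
    ((gbox n (gN τ)).card : ℝ) ≤ 4 * 13 ^ n * hN n τ := by
  set M1 : ℕ := ⌊1 / (2 * τ)⌋₊ with hM1
  have h1 : ((gbox n M1).card : ℝ) / 4 ≤ hN n τ := by
    unfold hN
    have hsub : gbox n M1 ⊆ gbox n (gN τ) := by
      intro j hj
      rw [mem_gbox] at hj ⊢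
      refine hj.trans ?_
      rw [Nat.cast_le]
      apply Nat.floor_le_floor
      rw [div_le_div_iff₀ (by positivity) hτ]
      nlinarith
    refine le_trans ?_ (Finset.sum_le_sum_of_subset_of_nonneg hsub fun _ _ _ => sq_nonneg _)
    have h2 : ∑ _j ∈ gbox n M1, (1 / 4 : ℝ) ≤ ∑ j ∈ gbox n M1, hatf τ j ^ 2 := by
      refine Finset.sum_le_sum fun j hj => ?_
      rw [mem_gbox] at hj
      have h3 : ((M1 : ℕ) : ℝ) ≤ 1 / (2 * τ) := Nat.floor_le (by positivity)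
      have h4 := hj.trans h3
      rw [le_div_iff₀ (by positivity)] at h4
      have h5 : (1 / 2 : ℝ) ≤ hatf τ j := by
        unfold hatf
        refine le_max_of_le_right ?_
        linarith
      calc (1 / 4 : ℝ) = (1 / 2) ^ 2 := by norm_num
        _ ≤ hatf τ j ^ 2 := pow_le_pow_left₀ (by norm_num) h5 2
    rw [Finset.sum_const, nsmul_eq_mul] at h2
    linarith
  rw [card_gbox] at h1 ⊢
  push_cast at h1 ⊢
  have h6 : (2 * (gN τ : ℝ) + 1) ≤ 13 * (2 * (M1 : ℝ) + 1) := by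
    have h7 : ((gN τ : ℕ) : ℝ) ≤ 3 / τ := Nat.floor_le (by positivity)
    have h8 : 1 / (2 * τ) < (M1 : ℝ) + 1 := Nat.lt_floor_add_one _
    have h9 : 3 / τ = 6 * (1 / (2 * τ)) := by field_simp; norm_num
    rw [h9] at h7
    have h10 : (0 : ℝ) ≤ (M1 : ℝ) := Nat.cast_nonneg _
    linarith
  have h11 : (2 * (gN τ : ℝ) + 1) ^ n ≤ (13 * (2 * (M1 : ℝ) + 1)) ^ n :=
    pow_le_pow_left₀ (by positivity) h6 n
  rw [mul_pow] at h11
  have h12 : (0 : ℝ) < 13 ^ n := by positivity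
  calc (2 * (gN τ : ℝ) + 1) ^ n ≤ 13 ^ n * (2 * (M1 : ℝ) + 1) ^ n := h11
    _ ≤ 13 ^ n * (4 * hN n τ) := mul_le_mul_of_nonneg_left (by linarith) h12.le
    _ = _ := by ring

theorem hN_pos {τ : ℝ} (hτ : 0 < τ) (hτ1 : τ ≤ 1) : 0 < hN n τ := by
  have h := card_le_hN (n := n) hτ hτ1
  have h1 : (0 : ℝ) < ((gbox n (gN τ)).card : ℝ) := by
    rw [card_gbox]
    positivity
  have h2 : (0 : ℝ) < 4 * 13 ^ n := by positivity
  exact pos_of_mul_pos_right (h1.trans_le h) h2.le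

/-- the normalised tent function -/
noncomputable def hf (τ : ℝ) (j : Fin n → ℤ) : ℝ := hatf τ j / √(hN n τ)

theorem hf_nonneg (τ : ℝ) (j : Fin n → ℤ) : 0 ≤ hf τ j :=
  div_nonneg (hatf_nonneg _ _) (Real.sqrt_nonneg _)

theorem hf_supp {τ : ℝ} {j : Fin n → ℤ} (h : hf τ j ≠ 0) : τ * ‖j‖ < 1 := by
  refine hatf_supp fun h0 => h ?_
  unfold hf
  rw [h0, zero_div]

theorem sum_hf_sq {τ : ℝ} (hτ : 0 < τ) (hτ1 : τ ≤ 1) :
    ∑ j ∈ gbox n (gN τ), hf τ j ^ 2 = 1 := by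
  have h := hN_pos (n := n) hτ hτ1
  unfold hf
  simp only [div_pow, Real.sq_sqrt h.le]
  rw [← Finset.sum_div]
  exact div_self h.ne'

/-- regularity of the tent function with phases -/
theorem sum_hf_sub_sq {τ : ℝ} (hτ : 0 < τ) (hτ1 : τ ≤ 1) (k : Fin n → ℤ)
    (φ : (Fin n → ℤ) → ℝ) (δ : ℝ) (hφ : ∀ j ∈ gbox n (gN τ), |φ j| + τ * ‖k‖ ≤ δ) :
    ∑ j ∈ gbox n (gN τ), ‖(hf τ (j - k) : ℂ) * ch (φ j) - (hf τ j : ℂ)‖ ^ 2
      ≤ 4 * 13 ^ n * δ ^ 2 := by
  have hNp := hN_pos (n := n) hτ hτ1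
  have h1 : ∀ j ∈ gbox n (gN τ), ‖(hf τ (j - k) : ℂ) * ch (φ j) - (hf τ j : ℂ)‖ ^ 2
      ≤ δ ^ 2 / hN n τ := by
    intro j hj
    have h2 : (hf τ (j - k) : ℂ) * ch (φ j) - (hf τ j : ℂ)
        = (hf τ (j - k) : ℂ) * (ch (φ j) - 1) + ((hf τ (j - k) - hf τ j : ℝ) : ℂ) := by
      push_cast
      ring
    have h3 : ‖(hf τ (j - k) : ℂ) * ch (φ j) - (hf τ j : ℂ)‖ ≤ δ / √(hN n τ) := by
      rw [h2]
      refine (norm_add_le _ _).trans ?_
      rw [norm_mul, Complex.norm_real, Complex.norm_real, Real.norm_eq_abs, Real.norm_eq_abs,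
        abs_of_nonneg (hf_nonneg _ _)]
      have h4 : hf τ (j - k) * ‖ch (φ j) - 1‖ ≤ |φ j| / √(hN n τ) := by
        unfold hf
        rw [div_mul_eq_mul_div]
        refine div_le_div_of_nonneg_right ?_ (Real.sqrt_nonneg _)
        calc hatf τ (j - k) * ‖ch (φ j) - 1‖ ≤ 1 * |φ j| :=
              mul_le_mul (hatf_le_one hτ.le _) (norm_ch_sub_one_le _) (norm_nonneg _) zero_le_one
          _ = _ := one_mul _
      have h5 : |hf τ (j - k) - hf τ j| ≤ τ * ‖k‖ / √(hN n τ) := by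
        unfold hf
        rw [← sub_div, abs_div, abs_of_nonneg (Real.sqrt_nonneg _)]
        refine div_le_div_of_nonneg_right ?_ (Real.sqrt_nonneg _)
        refine (hatf_sub_le hτ.le _ _).trans (le_of_eq ?_)
        rw [sub_sub_cancel_left, norm_neg]
      refine (add_le_add h4 h5).trans ?_
      rw [← add_div]
      exact div_le_div_of_nonneg_right (hφ j hj) (Real.sqrt_nonneg _)
    calc ‖(hf τ (j - k) : ℂ) * ch (φ j) - (hf τ j : ℂ)‖ ^ 2 ≤ (δ / √(hN n τ)) ^ 2 :=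
          pow_le_pow_left₀ (norm_nonneg _) h3 2
      _ = δ ^ 2 / hN n τ := by rw [div_pow, Real.sq_sqrt hNp.le]
  refine (Finset.sum_le_sum h1).trans ?_
  rw [Finset.sum_const, nsmul_eq_mul]
  have h2 := card_le_hN (n := n) hτ hτ1
  calc ((gbox n (gN τ)).card : ℝ) * (δ ^ 2 / hN n τ)
      ≤ (4 * 13 ^ n * hN n τ) * (δ ^ 2 / hN n τ) := mul_le_mul_of_nonneg_right h2 (by positivity)
    _ = 4 * 13 ^ n * δ ^ 2 := by field_simp

/-- rounding -/
theorem exists_round (t0 : ℝ) (ht0 : 0 < t0) (α : EuclideanSpace ℝ (Fin n)) :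
    ∃ k : Fin n → ℤ, ‖α - t0 • gv k‖ ≤ √n * t0 ∧ t0 * ‖k‖ ≤ ‖α‖ + t0 := by
  refine ⟨fun i => round (α i / t0), ?_, ?_⟩
  · rw [EuclideanSpace.norm_eq]
    have h1 : ∑ i, ‖(α - t0 • gv (fun i => round (α i / t0))) i‖ ^ 2 ≤ ∑ _i : Fin n, t0 ^ 2 := by
      refine Finset.sum_le_sum fun i _ => pow_le_pow_left₀ (norm_nonneg _) ?_ 2
      have h2 : (α - t0 • gv (fun i => round (α i / t0))) i
          = t0 * (α i / t0 - round (α i / t0)) := by
        simp only [gv, PiLp.sub_apply, PiLp.smul_apply, smul_eq_mul]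
        field_simp
      rw [h2, norm_mul, Real.norm_eq_abs, Real.norm_eq_abs, abs_of_pos ht0]
      have h3 := abs_sub_round (α i / t0)
      nlinarith
    rw [Finset.sum_const, Finset.card_univ, Fintype.card_fin, nsmul_eq_mul] at h1
    calc √(∑ i, ‖(α - t0 • gv (fun i => round (α i / t0))) i‖ ^ 2) ≤ √((n : ℝ) * t0 ^ 2) :=
          Real.sqrt_le_sqrt h1
      _ = √n * t0 := by rw [Real.sqrt_mul (Nat.cast_nonneg n), Real.sqrt_sq ht0.le]
  · have h1 : ‖(fun i => round (α i / t0) : Fin n → ℤ)‖ ≤ (‖α‖ + t0) / t0 := by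
      rw [pi_norm_le_iff_of_nonneg (by positivity)]
      intro i
      rw [Int.norm_eq_abs, le_div_iff₀ ht0]
      have h3 := abs_sub_round (α i / t0)
      have h4 : |(round (α i / t0) : ℝ)| ≤ |α i / t0| + 1 / 2 := by
        have h5 : (round (α i / t0) : ℝ) = α i / t0 - (α i / t0 - round (α i / t0)) := by ring
        rw [h5]
        exact (abs_sub _ _).trans (add_le_add le_rfl h3)
      have h6 : |α i| ≤ ‖α‖ := by
        rw [← Real.norm_eq_abs]
        exact PiLp.norm_apply_le α i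
      rw [abs_div, abs_of_pos ht0] at h4
      calc |(round (α i / t0) : ℝ)| * t0 ≤ (|α i| / t0 + 1 / 2) * t0 :=
            mul_le_mul_of_nonneg_right h4 ht0.le
        _ = |α i| + t0 / 2 := by field_simp
        _ ≤ ‖α‖ + t0 := by linarith
    rw [le_div_iff₀ ht0] at h1
    linarith

end grid

end Pool.Agent.AbCoc
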