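import Pool.Agent.Lib_MP_418a80_t3.Heis1

/-!
# The Heisenberg step, part 2: the multiplet of a near-eigen element
-/

set_option autoImplicit false
set_option linter.unusedVariables false
set_option linter.unusedSectionVars false

open Topology Filter
open scoped RealInnerProductSpace ComplexConjugate

namespace Pool.Agent.AbCoc

universe u v w

section
variable {A : Type u} [CStarAlgebra A] {K : Type v} [NormedAddCommGroup K]
  [InnerProductSpace ℂ K] [CompleteSpace K]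
variable {G : Type w} [Group G] [TopologicalSpace G] {T : TrAlg A K} (S : TrAct G T) {n : ℕ}

/-- the multiplet of `e` (a near-eigen element of `ker a` of type `ρ ^ 2 ξ`) -/
structure TrAct.Mlt (H : HData G n) (Λ ρ κ1 : ℝ) (D : Set G) (e : A) {C : Type} [Fintype C]
    (X : C → A) (lam : EuclideanSpace ℝ (Fin n) → C → ℂ) : Prop where
  lam1 : ∀ α c, ‖lam α c‖ = 1
  ms : ∑ c, ‖T.ι (X c)‖ ^ 2 = ‖T.ι e‖ ^ 2
  dm1 : ∀ z, ∑ c, ‖T.ι (X c * z)‖ ^ 2 ≤ ‖T.ι z‖ ^ 2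
  dm2 : ∀ z, ∑ c, ‖T.ι (z * X c)‖ ^ 2 ≤ ‖T.ι z‖ ^ 2
  lft : ∀ b, S.Fixed b → b * e = e → ∀ c, b * X c = X c
  rgt : ∀ b, S.Fixed b → e * b = e → ∀ c, X c * b = X c
  cov : ∀ h ∈ D, ρ * (‖H.a h‖ + ‖H.b h‖) ≤ 1 →
    ∑ c, ‖T.ι (S.α h (X c) - (lam (H.a h) c * ch (ρ ^ 2 * H.ξ h)) • X c)‖ ^ 2
      ≤ Λ * ρ ^ 2 * (‖H.a h‖ + ‖H.b h‖) ^ 2 * ‖T.ι e‖ ^ 2 + κ1

variable [IsTopologicalGroup G]

theorem TrAct.exists_mlt (H : HData G n) : ∃ Λ : ℝ, 0 < Λ ∧ ∀ ρ : ℝ, 0 < ρ →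
    ∀ D : Set G, IsCompact D → ∀ κ1 : ℝ, 0 < κ1 → ∃ (De : Set G) (κe : ℝ), IsCompact De ∧ 0 < κe ∧
      ∀ e : A, ‖e‖ ≤ 1 →
        (∀ h ∈ De, H.a h = 0 → ‖T.ι (S.α h e - ch (ρ ^ 2 * H.ξ h) • e)‖ ≤ κe) →
        ∃ (C : Type) (_ : Fintype C) (X : C → A) (lam : EuclideanSpace ℝ (Fin n) → C → ℂ),
          S.Mlt H Λ ρ κ1 D e X lam := by
  classical
  refine ⟨16 * 13 ^ n * (3 * √n + 1) ^ 2, by positivity, ?_⟩
  intro ρ hρ D hD κ1 hκ1
  -- the compact set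
  obtain ⟨R0, hR0⟩ : ∃ R0 : ℝ, R0 = √n * (2 / ρ + 1) := ⟨_, rfl⟩
  obtain ⟨De, hDe⟩ : ∃ De : Set G, De = (fun q : G × EuclideanSpace ℝ (Fin n) ×
      EuclideanSpace ℝ (Fin n) => H.kp q.1 q.2.1 q.2.2) ''
        (D ×ˢ (Metric.closedBall 0 R0 ×ˢ Metric.closedBall 0 R0)) := ⟨_, rfl⟩
  have hDec : IsCompact De := by
    rw [hDe]
    refine (hD.prod ((isCompact_closedBall _ _).prod (isCompact_closedBall _ _))).image ?_
    unfold HData.kp
    have h1 : Continuous fun q : G × EuclideanSpace ℝ (Fin n) × EuclideanSpace ℝ (Fin n) =>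
        H.s q.2.2 := H.hs.comp (continuous_snd.comp continuous_snd)
    have h2 : Continuous fun q : G × EuclideanSpace ℝ (Fin n) × EuclideanSpace ℝ (Fin n) =>
        H.s q.2.1 := H.hs.comp (continuous_fst.comp continuous_snd)
    have h3 : Continuous fun q : G × EuclideanSpace ℝ (Fin n) × EuclideanSpace ℝ (Fin n) =>
        H.s (q.2.1 + H.a q.1 - q.2.2) := H.hs.comp
          (((continuous_fst.comp continuous_snd).add (H.ha.comp continuous_fst)).sub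
            (continuous_snd.comp continuous_snd))
    exact ((h1.inv.mul continuous_fst).mul h2).mul h3.inv
  refine ⟨De, √κ1 / 4, hDec, by positivity, ?_⟩
  intro e he1 heig
  obtain ⟨κe, hκe⟩ : ∃ κe : ℝ, κe = √κ1 / 4 := ⟨_, rfl⟩
  rw [← hκe] at heig
  have hκe0 : 0 < κe := by rw [hκe]; positivity
  have hκe2 : κe ^ 2 = κ1 / 16 := by
    rw [hκe, div_pow, Real.sq_sqrt hκ1.le]
    norm_num
  -- the mesh
  obtain ⟨δ1, hδ1, hδ1e⟩ : ∃ δ1 : ℝ, 0 < δ1 ∧ ∀ u : EuclideanSpace ℝ (Fin n), ‖u‖ ≤ δ1 →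
      ‖T.ι (S.α (H.s u) e - e)‖ ≤ κe := by
    have hc : Continuous fun u : EuclideanSpace ℝ (Fin n) => T.ι (S.α (H.s u) e) :=
      (S.cont e).comp H.hs
    have h1 := Metric.continuous_iff.1 hc 0 κe hκe0
    obtain ⟨δ, hδ, h2⟩ := h1
    refine ⟨δ / 2, by positivity, fun u hu => ?_⟩
    have h3 := h2 u (by
      rw [dist_zero_right]
      linarith)
    rw [dist_eq_norm, H.s0, S.one, ← map_sub] at h3
    exact h3.le
  obtain ⟨t0, ht0, ht01, ht0ρ, ht0δ, ht0κ⟩ : ∃ t0 : ℝ, 0 < t0 ∧ t0 ≤ 1 ∧ ρ * t0 ≤ 1 ∧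
      √n * t0 ≤ δ1 ∧ 16 * 13 ^ n * (ρ * t0) ^ 2 ≤ κ1 / 2 := by
    have hc : Tendsto (fun t : ℝ => 16 * 13 ^ n * (ρ * t) ^ 2) (𝓝[>] 0) (𝓝 0) := by
      have h1 : Continuous fun t : ℝ => (16 * 13 ^ n : ℝ) * (ρ * t) ^ 2 := by fun_prop
      have h2 := (h1.tendsto 0).mono_left (nhdsWithin_le_nhds (s := Set.Ioi (0 : ℝ)))
      simpa using h2
    have hc2 : Tendsto (fun t : ℝ => √n * t) (𝓝[>] 0) (𝓝 0) := by
      have h1 : Continuous fun t : ℝ => √n * t := by fun_prop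
      have h2 := (h1.tendsto 0).mono_left (nhdsWithin_le_nhds (s := Set.Ioi (0 : ℝ)))
      simpa using h2
    have hc3 : Tendsto (fun t : ℝ => ρ * t) (𝓝[>] 0) (𝓝 0) := by
      have h1 : Continuous fun t : ℝ => ρ * t := by fun_prop
      have h2 := (h1.tendsto 0).mono_left (nhdsWithin_le_nhds (s := Set.Ioi (0 : ℝ)))
      simpa using h2
    have e1 := hc.eventually (Iic_mem_nhds (show (0 : ℝ) < κ1 / 2 by positivity))
    have e2 := hc2.eventually (Iic_mem_nhds hδ1)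
    have e3 := hc3.eventually (Iic_mem_nhds (zero_lt_one (α := ℝ)))
    have e4 : ∀ᶠ t : ℝ in 𝓝[>] 0, 0 < t := eventually_mem_nhdsWithin
    have e5 : ∀ᶠ t : ℝ in 𝓝[>] 0, t ≤ 1 :=
      nhdsWithin_le_nhds (Iic_mem_nhds (zero_lt_one (α := ℝ)))
    obtain ⟨t, h⟩ := (e1.and (e2.and (e3.and (e4.and e5)))).exists
    exact ⟨t, h.2.2.2.1, h.2.2.2.2, h.2.2.1, h.2.1, h.1⟩
  obtain ⟨τ, hτ⟩ : ∃ τ : ℝ, τ = ρ * t0 := ⟨_, rfl⟩
  have hτ0 : 0 < τ := by rw [hτ]; positivity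
  have hτ1 : τ ≤ 1 := by rw [hτ]; exact ht0ρ
  obtain ⟨E⟩ := exists_chs n (gbox n (gN τ))
  obtain ⟨v, hv⟩ : ∃ v : (Fin n → ℤ) → A, v = fun j => (hf τ j : ℂ) • S.α (H.s (t0 • gv j)) e :=
    ⟨_, rfl⟩
  have hround := fun α : EuclideanSpace ℝ (Fin n) => exists_round (n := n) t0 ht0 α
  choose kr hkr1 hkr2 using hround
  refine ⟨E.C, E.fin, E.X v, fun α c => conj (E.χ c (kr α)), ?_, ?_, ?_, ?_, ?_, ?_, ?_⟩
  · intro α c
    rw [RCLike.norm_conj, E.unit]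
  · rw [E.sum_norm_sq T]
    have h1 : ∀ j, ‖T.ι (v j)‖ ^ 2 = hf τ j ^ 2 * ‖T.ι e‖ ^ 2 := by
      intro j
      rw [hv]
      dsimp only
      rw [map_smul, norm_smul, S.norm_map, mul_pow, Complex.norm_real, Real.norm_eq_abs, sq_abs]
    simp only [h1]
    rw [← Finset.sum_mul, sum_hf_sq hτ0 hτ1, one_mul]
  · intro z
    rw [E.sum_norm_sq_mul T]
    have h1 : ∀ j, ‖T.ι (v j * z)‖ ^ 2 ≤ hf τ j ^ 2 * ‖T.ι z‖ ^ 2 := by
      intro j
      rw [hv]
      dsimp only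
      rw [smul_mul_assoc, map_smul, norm_smul, mul_pow, Complex.norm_real, Real.norm_eq_abs, sq_abs]
      refine mul_le_mul_of_nonneg_left ?_ (sq_nonneg _)
      refine pow_le_pow_left₀ (norm_nonneg _) ?_ 2
      refine (T.mul_le _ _).trans ?_
      calc ‖S.α (H.s (t0 • gv j)) e‖ * ‖T.ι z‖ ≤ 1 * ‖T.ι z‖ :=
            mul_le_mul_of_nonneg_right ((S.norm_le _ _).trans he1) (norm_nonneg _)
        _ = _ := one_mul _
    refine (Finset.sum_le_sum fun j _ => h1 j).trans ?_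
    rw [← Finset.sum_mul, sum_hf_sq hτ0 hτ1, one_mul]
  · intro z
    rw [E.sum_norm_sq_mul' T]
    have h1 : ∀ j, ‖T.ι (z * v j)‖ ^ 2 ≤ hf τ j ^ 2 * ‖T.ι z‖ ^ 2 := by
      intro j
      rw [hv]
      dsimp only
      rw [mul_smul_comm, map_smul, norm_smul, mul_pow, Complex.norm_real, Real.norm_eq_abs, sq_abs]
      refine mul_le_mul_of_nonneg_left ?_ (sq_nonneg _)
      refine pow_le_pow_left₀ (norm_nonneg _) ?_ 2
      refine (T.mul_le' _ _).trans ?_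
      calc ‖T.ι z‖ * ‖S.α (H.s (t0 • gv j)) e‖ ≤ ‖T.ι z‖ * 1 :=
            mul_le_mul_of_nonneg_left ((S.norm_le _ _).trans he1) (norm_nonneg _)
        _ = _ := mul_one _
    refine (Finset.sum_le_sum fun j _ => h1 j).trans ?_
    rw [← Finset.sum_mul, sum_hf_sq hτ0 hτ1, one_mul]
  · intro b hb hbe c
    rw [E.mul_X]
    refine E.X_congr (fun j _ => ?_) c
    rw [hv]
    dsimp only
    rw [mul_smul_comm]
    congr 1
    have h1 : b * S.α (H.s (t0 • gv j)) e = S.α (H.s (t0 • gv j)) (b * e) := by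
      rw [map_mul, hb]
    rw [h1, hbe]
  · intro b hb hbe c
    rw [E.X_mul]
    refine E.X_congr (fun j _ => ?_) c
    rw [hv]
    dsimp only
    rw [smul_mul_assoc]
    congr 1
    have h1 : S.α (H.s (t0 • gv j)) e * b = S.α (H.s (t0 • gv j)) (e * b) := by
      rw [map_mul, hb]
    rw [h1, hbe]
  · -- covariance
    intro h hh hρh
    have hna := norm_nonneg (H.a h)
    have hnb := norm_nonneg (H.b h)
    have hρa : ρ * ‖H.a h‖ ≤ 1 := by nlinarith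
    obtain ⟨k, hk⟩ : ∃ k : Fin n → ℤ, k = kr (H.a h) := ⟨_, rfl⟩
    have hk1 : ‖H.a h - t0 • gv k‖ ≤ √n * t0 := by rw [hk]; exact hkr1 _
    have hk2 : t0 * ‖k‖ ≤ ‖H.a h‖ + t0 := by rw [hk]; exact hkr2 _
    have hτk : τ * ‖k‖ ≤ ρ * ‖H.a h‖ + ρ * t0 := by
      rw [hτ]
      calc ρ * t0 * ‖k‖ = ρ * (t0 * ‖k‖) := by ring
        _ ≤ ρ * (‖H.a h‖ + t0) := mul_le_mul_of_nonneg_left hk2 hρ.le
        _ = _ := by ring
    obtain ⟨w, hw⟩ : ∃ w : (Fin n → ℤ) → A, w = fun i => ((hf τ (i - k) : ℂ)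
        * ch (ρ ^ 2 * (H.ξ h - ⟪t0 • gv i, H.b h⟫))) • S.α (H.s (t0 • gv i)) e := ⟨_, rfl⟩
    have hws : ∀ i, w i ≠ 0 → τ * ‖i - k‖ < 1 := by
      intro i hi
      refine hf_supp fun h0 => hi ?_
      rw [hw]
      dsimp only
      rw [h0, Complex.ofReal_zero, zero_mul, zero_smul]
    -- the shift
    have hshift : ∀ c, E.X (fun j => w (j + k)) c = conj (E.χ c k) • E.X w c := by
      intro c
      refine E.X_shift w k (fun i hi => ?_) (fun i hi => ?_) c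
      · refine mem_gbox_gN' hτ0 ?_
        have h1 := hws i hi
        have h2 : ‖i‖ ≤ ‖i - k‖ + ‖k‖ := by
          have := norm_add_le (i - k) k
          rwa [sub_add_cancel] at this
        have h3 : τ * ‖i‖ ≤ τ * (‖i - k‖ + ‖k‖) := mul_le_mul_of_nonneg_left h2 hτ0.le
        rw [mul_add] at h3
        linarith
      · refine mem_gbox_gN' hτ0 ?_
        have h1 := hws i hi
        linarith
    -- first error
    have herr1 : ∀ j, ‖T.ι (S.α h (v j) - w (j + k))‖ ^ 2 ≤ hf τ j ^ 2 * (2 * κe) ^ 2 := by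
      intro j
      rcases eq_or_ne (hf τ j) 0 with h0 | h0
      · have h1 : v j = 0 := by
          rw [hv]
          dsimp only
          rw [h0, Complex.ofReal_zero, zero_smul]
        have h2 : w (j + k) = 0 := by
          rw [hw]
          dsimp only
          rw [add_sub_cancel_right, h0, Complex.ofReal_zero, zero_mul, zero_smul]
        rw [h1, h2, map_zero, sub_zero, map_zero, norm_zero, zero_pow two_ne_zero]
        positivity
      have hjs := hf_supp h0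
      obtain ⟨t, ht⟩ : ∃ t : EuclideanSpace ℝ (Fin n), t = t0 • gv j := ⟨_, rfl⟩
      obtain ⟨t', ht'⟩ : ∃ t' : EuclideanSpace ℝ (Fin n), t' = t0 • gv (j + k) := ⟨_, rfl⟩
      have hu : t + H.a h - t' = H.a h - t0 • gv k := by
        rw [ht, ht', gv_add, smul_add]
        abel
      have hnj : t0 * ‖j‖ ≤ 1 / ρ := by
        rw [le_div_iff₀ hρ]
        have : τ * ‖j‖ = t0 * ‖j‖ * ρ := by rw [hτ]; ring
        linarith
      have hnt : ‖t‖ ≤ R0 := by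
        rw [ht, norm_smul, Real.norm_eq_abs, abs_of_pos ht0, hR0]
        have h1 : t0 * ‖gv j‖ ≤ t0 * (√n * ‖j‖) := mul_le_mul_of_nonneg_left (norm_gv_le j) ht0.le
        have h2 : t0 * (√n * ‖j‖) = √n * (t0 * ‖j‖) := by ring
        rw [h2] at h1
        refine h1.trans (mul_le_mul_of_nonneg_left ?_ (Real.sqrt_nonneg _))
        have h3 : 1 / ρ ≤ 2 / ρ := div_le_div_of_nonneg_right (by norm_num) hρ.le
        linarith
      have hnt' : ‖t'‖ ≤ R0 := by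
        rw [ht', norm_smul, Real.norm_eq_abs, abs_of_pos ht0, hR0]
        have h1 : t0 * ‖gv (j + k)‖ ≤ t0 * (√n * ‖j + k‖) :=
          mul_le_mul_of_nonneg_left (norm_gv_le _) ht0.le
        have h2 : t0 * (√n * ‖j + k‖) = √n * (t0 * ‖j + k‖) := by ring
        rw [h2] at h1
        refine h1.trans (mul_le_mul_of_nonneg_left ?_ (Real.sqrt_nonneg _))
        have h3 : t0 * ‖j + k‖ ≤ t0 * ‖j‖ + t0 * ‖k‖ := by
          rw [← mul_add]
          exact mul_le_mul_of_nonneg_left (norm_add_le _ _) ht0.le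
        have h4 : ‖H.a h‖ ≤ 1 / ρ := by
          rw [le_div_iff₀ hρ]
          linarith
        have h5 : 2 / ρ = 1 / ρ + 1 / ρ := by ring
        linarith
      have hkmem : H.kp h t t' ∈ De := by
        rw [hDe]
        refine ⟨(h, t, t'), ⟨hh, ?_, ?_⟩, rfl⟩
        · rw [mem_closedBall_zero_iff]; exact hnt
        · rw [mem_closedBall_zero_iff]; exact hnt'
      have h1 := heig _ hkmem (H.a_kp h t t')
      rw [H.ξ_kp] at h1
      have h2 := hδ1e (t + H.a h - t') (by rw [hu]; exact hk1.trans ht0δ)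
      have e1 : S.α h (v j) - w (j + k) = (hf τ j : ℂ) • S.α (H.s t')
          (S.α (H.kp h t t') (S.α (H.s (t + H.a h - t')) e)
            - ch (ρ ^ 2 * (H.ξ h - ⟪t', H.b h⟫)) • e) := by
        rw [hv, hw]
        dsimp only
        rw [add_sub_cancel_right, ← ht, ← ht', map_smul, map_sub, map_smul, ← S.mul, ← S.mul,
          ← S.mul, ← H.kp_eq, smul_sub, smul_smul]
      have h3 : ‖T.ι (S.α (H.kp h t t') (S.α (H.s (t + H.a h - t')) e)
            - ch (ρ ^ 2 * (H.ξ h - ⟪t', H.b h⟫)) • e)‖ ≤ 2 * κe := by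
        have e2 : S.α (H.kp h t t') (S.α (H.s (t + H.a h - t')) e)
            - ch (ρ ^ 2 * (H.ξ h - ⟪t', H.b h⟫)) • e
            = S.α (H.kp h t t') (S.α (H.s (t + H.a h - t')) e - e)
              + (S.α (H.kp h t t') e - ch (ρ ^ 2 * (H.ξ h - ⟪t', H.b h⟫)) • e) := by
          rw [map_sub]
          abel
        rw [e2, map_add]
        refine (norm_add_le _ _).trans ?_
        rw [S.norm_map]
        linarith
      rw [e1, map_smul, norm_smul, S.norm_map, mul_pow, Complex.norm_real, Real.norm_eq_abs, sq_abs]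
      exact mul_le_mul_of_nonneg_left (pow_le_pow_left₀ (norm_nonneg _) h3 2) (sq_nonneg _)
    have hs1 : ∑ c, ‖T.ι (E.X (fun j => S.α h (v j)) c - E.X (fun j => w (j + k)) c)‖ ^ 2
        ≤ κ1 / 4 := by
      rw [E.sum_norm_sq_sub T]
      refine (Finset.sum_le_sum fun j _ => herr1 j).trans ?_
      rw [← Finset.sum_mul, sum_hf_sq hτ0 hτ1, one_mul, mul_pow, hκe2]
      linarith
    -- second error
    obtain ⟨δ, hδ⟩ : ∃ δ : ℝ, δ = ρ * ((3 * √n + 1) * (‖H.a h‖ + ‖H.b h‖)) + ρ * t0 := ⟨_, rfl⟩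
    have hsn := Real.sqrt_nonneg (n : ℝ)
    have hs2 : ∑ c, ‖T.ι (E.X w c - E.X (fun j => ch (ρ ^ 2 * H.ξ h) • v j) c)‖ ^ 2
        ≤ 4 * 13 ^ n * δ ^ 2 * ‖T.ι e‖ ^ 2 := by
      rw [E.sum_norm_sq_sub T]
      have h1 : ∀ j, ‖T.ι (w j - ch (ρ ^ 2 * H.ξ h) • v j)‖ ^ 2
          = ‖(hf τ (j - k) : ℂ) * ch (-(ρ ^ 2 * ⟪t0 • gv j, H.b h⟫)) - (hf τ j : ℂ)‖ ^ 2
            * ‖T.ι e‖ ^ 2 := by
        intro j
        have e1 : w j - ch (ρ ^ 2 * H.ξ h) • v j = (ch (ρ ^ 2 * H.ξ h)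
            * ((hf τ (j - k) : ℂ) * ch (-(ρ ^ 2 * ⟪t0 • gv j, H.b h⟫)) - (hf τ j : ℂ)))
              • S.α (H.s (t0 • gv j)) e := by
          rw [hv, hw]
          dsimp only
          rw [smul_smul, ← sub_smul]
          congr 1
          have e2 : ρ ^ 2 * (H.ξ h - ⟪t0 • gv j, H.b h⟫)
              = ρ ^ 2 * H.ξ h + -(ρ ^ 2 * ⟪t0 • gv j, H.b h⟫) := by ring
          rw [e2, ch_add]
          ring
        rw [e1, map_smul, norm_smul, S.norm_map, norm_mul, norm_ch, one_mul, mul_pow]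
      simp only [h1]
      rw [← Finset.sum_mul]
      refine mul_le_mul_of_nonneg_right ?_ (sq_nonneg _)
      refine sum_hf_sub_sq hτ0 hτ1 k (fun j => -(ρ ^ 2 * ⟪t0 • gv j, H.b h⟫)) δ fun j hj => ?_
      have h2 := mem_gbox_gN hτ0 hj
      have h3 : |-(ρ ^ 2 * ⟪t0 • gv j, H.b h⟫)| ≤ ρ * (3 * √n * ‖H.b h‖) := by
        rw [abs_neg, abs_mul, abs_of_nonneg (sq_nonneg ρ)]
        have h4 : |⟪t0 • gv j, H.b h⟫| ≤ t0 * (√n * ‖j‖) * ‖H.b h‖ := by
          refine (abs_real_inner_le_norm _ _).trans ?_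
          refine mul_le_mul_of_nonneg_right ?_ hnb
          rw [norm_smul, Real.norm_eq_abs, abs_of_pos ht0]
          exact mul_le_mul_of_nonneg_left (norm_gv_le j) ht0.le
        calc ρ ^ 2 * |⟪t0 • gv j, H.b h⟫| ≤ ρ ^ 2 * (t0 * (√n * ‖j‖) * ‖H.b h‖) :=
              mul_le_mul_of_nonneg_left h4 (sq_nonneg _)
          _ = ρ * √n * ‖H.b h‖ * (τ * ‖j‖) := by rw [hτ]; ring
          _ ≤ ρ * √n * ‖H.b h‖ * 3 := mul_le_mul_of_nonneg_left h2 (by positivity)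
          _ = _ := by ring
      rw [hδ]
      have h5 : ρ * (3 * √n * ‖H.b h‖) + ρ * ‖H.a h‖
          ≤ ρ * ((3 * √n + 1) * (‖H.a h‖ + ‖H.b h‖)) := by
        rw [← mul_add]
        refine mul_le_mul_of_nonneg_left ?_ hρ.le
        nlinarith [mul_nonneg hsn hna, mul_nonneg hsn hnb]
      linarith
    -- conclusion
    have hfin : ∀ c, ‖T.ι (S.α h (E.X v c) - (conj (E.χ c (kr (H.a h))) * ch (ρ ^ 2 * H.ξ h))
        • E.X v c)‖ ^ 2
        ≤ 2 * ‖T.ι (E.X (fun j => S.α h (v j)) c - E.X (fun j => w (j + k)) c)‖ ^ 2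
          + 2 * ‖T.ι (E.X w c - E.X (fun j => ch (ρ ^ 2 * H.ξ h) • v j) c)‖ ^ 2 := by
      intro c
      have e1 : S.α h (E.X v c) - (conj (E.χ c (kr (H.a h))) * ch (ρ ^ 2 * H.ξ h)) • E.X v c
          = (E.X (fun j => S.α h (v j)) c - E.X (fun j => w (j + k)) c)
            + conj (E.χ c k) • (E.X w c - E.X (fun j => ch (ρ ^ 2 * H.ξ h) • v j) c) := by
        rw [E.map_X, hshift, E.X_smul, smul_sub, smul_smul, ← hk]
        abel
      rw [e1, map_add, map_smul]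
      have h1 := norm_add_le (T.ι (E.X (fun j => S.α h (v j)) c - E.X (fun j => w (j + k)) c))
        (conj (E.χ c k) • T.ι (E.X w c - E.X (fun j => ch (ρ ^ 2 * H.ξ h) • v j) c))
      rw [norm_smul, RCLike.norm_conj, E.unit, one_mul] at h1
      have h2 := pow_le_pow_left₀ (norm_nonneg _) h1 2
      refine h2.trans ?_
      nlinarith [sq_nonneg (‖T.ι (E.X (fun j => S.α h (v j)) c - E.X (fun j => w (j + k)) c)‖
        - ‖T.ι (E.X w c - E.X (fun j => ch (ρ ^ 2 * H.ξ h) • v j) c)‖)]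
    refine (Finset.sum_le_sum fun c _ => hfin c).trans ?_
    rw [Finset.sum_add_distrib, ← Finset.mul_sum, ← Finset.mul_sum]
    have he2 : ‖T.ι e‖ ^ 2 ≤ 1 := by
      have h1 := (T.norm_le e).trans he1
      have h2 := pow_le_pow_left₀ (norm_nonneg _) h1 2
      rwa [one_pow] at h2
    have h13 : (0 : ℝ) < 13 ^ n := by positivity
    have hδ2 : δ ^ 2 ≤ 2 * (ρ * ((3 * √n + 1) * (‖H.a h‖ + ‖H.b h‖))) ^ 2
        + 2 * (ρ * t0) ^ 2 := by
      rw [hδ]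
      nlinarith [sq_nonneg (ρ * ((3 * √n + 1) * (‖H.a h‖ + ‖H.b h‖)) - ρ * t0)]
    have h5 : 2 * (4 * 13 ^ n * δ ^ 2 * ‖T.ι e‖ ^ 2)
        ≤ 16 * 13 ^ n * (3 * √n + 1) ^ 2 * ρ ^ 2 * (‖H.a h‖ + ‖H.b h‖) ^ 2 * ‖T.ι e‖ ^ 2
          + κ1 / 2 := by
      have h6 : 2 * (4 * 13 ^ n * δ ^ 2 * ‖T.ι e‖ ^ 2)
          ≤ 2 * (4 * 13 ^ n * (2 * (ρ * ((3 * √n + 1) * (‖H.a h‖ + ‖H.b h‖))) ^ 2
            + 2 * (ρ * t0) ^ 2) * ‖T.ι e‖ ^ 2) := by
        refine mul_le_mul_of_nonneg_left ?_ (by norm_num)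
        refine mul_le_mul_of_nonneg_right ?_ (sq_nonneg _)
        exact mul_le_mul_of_nonneg_left hδ2 (by positivity)
      have h7 : 16 * 13 ^ n * (ρ * t0) ^ 2 * ‖T.ι e‖ ^ 2 ≤ κ1 / 2 := by
        calc 16 * 13 ^ n * (ρ * t0) ^ 2 * ‖T.ι e‖ ^ 2 ≤ 16 * 13 ^ n * (ρ * t0) ^ 2 * 1 :=
              mul_le_mul_of_nonneg_left he2 (by positivity)
          _ ≤ κ1 / 2 := by rw [mul_one]; exact ht0κ
      refine h6.trans (le_of_eq_of_le ?_ (add_le_add le_rfl h7))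
      ring
    linarith

end

end Pool.Agent.AbCoc
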