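import Pool.Agent.Lib_MP_418a80_t3.Heis2

/-!
# The Heisenberg step, part 3: the right family `|X|` and the left family `py X (α_g X)`
-/

set_option autoImplicit false
set_option linter.unusedVariables false
set_option linter.unusedSectionVars false

open Topology Filter
open scoped RealInnerProductSpace ComplexConjugate

namespace Pool.Agent.AbCoc

universe u v w

theorem sqrt_add_le_sqrt_add {x y : ℝ} (hx : 0 ≤ x) (hy : 0 ≤ y) : √(x + y) ≤ √x + √y := by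
  rw [Real.sqrt_le_left (by positivity)]
  have h1 := Real.sq_sqrt hx
  have h2 := Real.sq_sqrt hy
  nlinarith [mul_nonneg (Real.sqrt_nonneg x) (Real.sqrt_nonneg y)]

section
variable {A : Type u} [CStarAlgebra A] {K : Type v} [NormedAddCommGroup K]
  [InnerProductSpace ℂ K] [CompleteSpace K]
variable {G : Type w} [Group G] [TopologicalSpace G] {T : TrAlg A K} (S : TrAct G T) {n : ℕ}

/-- the right family -/
noncomputable def ry {C : Type} (X : C → A) (c : C) : A := csqrt (star (X c) * X c)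

/-- the left family -/
noncomputable def TrAct.ly {C : Type} (g' : G) (X : C → A) (c : C) : A := py (X c) (S.α g' (X c))

variable {S}
variable {H : HData G n} {Λ ρ κ1 : ℝ} {D : Set G} {e : A} {C : Type} [Fintype C] {X : C → A}
  {lam : EuclideanSpace ℝ (Fin n) → C → ℂ}

namespace TrAct.Mlt

theorem sum_sub_le (hX : S.Mlt H Λ ρ κ1 D e X lam) (he : ‖e‖ ≤ 1) (hΛ : 0 < Λ) (hρ : 0 < ρ)
    (hκ1 : 0 ≤ κ1) {h : G} (hh : h ∈ D) (hq : ρ * (‖H.a h‖ + ‖H.b h‖) ≤ 1) :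
    √(∑ c, ‖T.ι (S.α h (X c) - (lam (H.a h) c * ch (ρ ^ 2 * H.ξ h)) • X c)‖ ^ 2) * ‖T.ι e‖
      ≤ √Λ * ρ * (‖H.a h‖ + ‖H.b h‖) * ‖T.ι e‖ ^ 2 + √κ1 := by
  have h1 := Real.sqrt_le_sqrt (hX.cov h hh hq)
  have h2 : √(Λ * ρ ^ 2 * (‖H.a h‖ + ‖H.b h‖) ^ 2 * ‖T.ι e‖ ^ 2 + κ1)
      ≤ √Λ * ρ * (‖H.a h‖ + ‖H.b h‖) * ‖T.ι e‖ + √κ1 := by
    refine (sqrt_add_le_sqrt_add (by positivity) hκ1).trans (le_of_eq ?_)
    congr 1
    have e1 : Λ * ρ ^ 2 * (‖H.a h‖ + ‖H.b h‖) ^ 2 * ‖T.ι e‖ ^ 2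
        = Λ * (ρ * (‖H.a h‖ + ‖H.b h‖) * ‖T.ι e‖) ^ 2 := by ring
    rw [e1, Real.sqrt_mul hΛ.le, Real.sqrt_sq (by positivity)]
    ring
  have h3 : ‖T.ι e‖ ≤ 1 := (T.norm_le e).trans he
  calc √(∑ c, ‖T.ι (S.α h (X c) - (lam (H.a h) c * ch (ρ ^ 2 * H.ξ h)) • X c)‖ ^ 2) * ‖T.ι e‖
      ≤ (√Λ * ρ * (‖H.a h‖ + ‖H.b h‖) * ‖T.ι e‖ + √κ1) * ‖T.ι e‖ :=
        mul_le_mul_of_nonneg_right (h1.trans h2) (norm_nonneg _)
    _ = √Λ * ρ * (‖H.a h‖ + ‖H.b h‖) * ‖T.ι e‖ ^ 2 + √κ1 * ‖T.ι e‖ := by ring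
    _ ≤ _ := by
      have h4 : √κ1 * ‖T.ι e‖ ≤ √κ1 * 1 := mul_le_mul_of_nonneg_left h3 (Real.sqrt_nonneg _)
      rw [mul_one] at h4
      linarith

theorem ry_dm (hX : S.Mlt H Λ ρ κ1 D e X lam) : T.Dm 1 (ry X) := by
  constructor
  · intro z
    rw [one_mul]
    refine le_trans (le_of_eq (Finset.sum_congr rfl fun c _ => ?_)) (hX.dm1 z)
    unfold ry
    rw [T.norm_csqrt_mul]
  · intro z
    rw [one_mul]
    have h := hX.dm1 (star z)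
    rw [T.norm_star] at h
    refine le_trans (le_of_eq (Finset.sum_congr rfl fun c _ => ?_)) h
    unfold ry
    rw [T.norm_mul_csqrt]

theorem ry_ms (hX : S.Mlt H Λ ρ κ1 D e X lam) : T.ms (ry X) = ‖T.ι e‖ ^ 2 := by
  rw [← hX.ms]
  refine Finset.sum_congr rfl fun c _ => ?_
  unfold ry
  rw [T.norm_csqrt_star_mul_self_sq]

theorem ry_corner (hX : S.Mlt H Λ ρ κ1 D e X lam) {b : A} (hb : S.Fixed b) (hbs : star b = b)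
    (hbe : e * b = e) (c : C) : b * ry X c = ry X c ∧ ry X c * b = ry X c := by
  have h1 := hX.rgt b hb hbe c
  refine csqrt_corner hbs (posE_star_mul_self _) ?_
  have h2 := congrArg star h1
  rw [star_mul, hbs] at h2
  rw [← mul_assoc, h2]

theorem ry_cov (hX : S.Mlt H Λ ρ κ1 D e X lam) (he : ‖e‖ ≤ 1) (hΛ : 0 < Λ) (hρ : 0 < ρ)
    (hκ1 : 0 ≤ κ1) {h : G} (hh : h ∈ D) (hq : ρ * (‖H.a h‖ + ‖H.b h‖) ≤ 1) :
    ∑ c, ‖T.ι (S.α h (ry X c) - ry X c)‖ ^ 2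
      ≤ 2 * √Λ * ρ * (‖H.a h‖ + ‖H.b h‖) * ‖T.ι e‖ ^ 2 + 2 * √κ1 := by
  obtain ⟨μ, hμ⟩ : ∃ μ : C → ℂ, μ = fun c => lam (H.a h) c * ch (ρ ^ 2 * H.ξ h) := ⟨_, rfl⟩
  have hμ1 : ∀ c, ‖μ c‖ = 1 := by
    intro c
    rw [hμ]
    dsimp only
    rw [norm_mul, hX.lam1, norm_ch, one_mul]
  have h1 : ∀ c, ‖T.ι (S.α h (ry X c) - ry X c)‖ ^ 2
      ≤ ‖T.ι (S.α h (X c) - μ c • X c)‖ * ‖T.ι (S.α h (X c) + μ c • X c)‖ := by
    intro c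
    have e1 : S.α h (ry X c) = csqrt (star (S.α h (X c)) * S.α h (X c)) := by
      unfold ry
      rw [S.act_csqrt h _ (posE_star_mul_self _), map_mul, map_star]
    have e2 : ry X c = csqrt (star (μ c • X c) * (μ c • X c)) := by
      unfold ry
      rw [star_mul_self_phase (hμ1 c)]
    rw [e1, e2]
    exact T.norm_csqrt_star_mul_self_sub_sq_le _ _
  have h2 := hX.sum_sub_le he hΛ hρ hκ1 hh hq
  have h3 : √(∑ c, ‖T.ι (S.α h (X c) + μ c • X c)‖ ^ 2) ≤ 2 * ‖T.ι e‖ := by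
    refine (T.sqrt_sum_add_le (fun c => S.α h (X c)) (fun c => μ c • X c)).trans ?_
    have e1 : ∑ c, ‖T.ι (S.α h (X c))‖ ^ 2 = ‖T.ι e‖ ^ 2 := by
      rw [← hX.ms]
      exact Finset.sum_congr rfl fun c _ => by rw [S.norm_map]
    have e2 : ∑ c, ‖T.ι (μ c • X c)‖ ^ 2 = ‖T.ι e‖ ^ 2 := by
      rw [← hX.ms]
      exact Finset.sum_congr rfl fun c _ => by rw [map_smul, norm_smul, hμ1, one_mul]
    rw [e1, e2, Real.sqrt_sq (norm_nonneg _)]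
    linarith
  calc ∑ c, ‖T.ι (S.α h (ry X c) - ry X c)‖ ^ 2
      ≤ ∑ c, ‖T.ι (S.α h (X c) - μ c • X c)‖ * ‖T.ι (S.α h (X c) + μ c • X c)‖ :=
        Finset.sum_le_sum fun c _ => h1 c
    _ ≤ √(∑ c, ‖T.ι (S.α h (X c) - μ c • X c)‖ ^ 2)
        * √(∑ c, ‖T.ι (S.α h (X c) + μ c • X c)‖ ^ 2) := Real.sum_mul_le_sqrt_mul_sqrt _ _ _
    _ ≤ √(∑ c, ‖T.ι (S.α h (X c) - μ c • X c)‖ ^ 2) * (2 * ‖T.ι e‖) :=
        mul_le_mul_of_nonneg_left h3 (Real.sqrt_nonneg _)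
    _ = 2 * (√(∑ c, ‖T.ι (S.α h (X c) - μ c • X c)‖ ^ 2) * ‖T.ι e‖) := by ring
    _ ≤ 2 * (√Λ * ρ * (‖H.a h‖ + ‖H.b h‖) * ‖T.ι e‖ ^ 2 + √κ1) := by
        refine mul_le_mul_of_nonneg_left ?_ (by norm_num)
        rw [hμ]
        exact h2
    _ = _ := by ring

theorem ly_dm (hX : S.Mlt H Λ ρ κ1 D e X lam) (g' : G) : T.Dm 1 (S.ly g' X) := by
  constructor
  · intro z
    rw [one_mul]
    have h := hX.dm2 (S.α g'⁻¹ (star z))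
    rw [S.norm_map, T.norm_star] at h
    refine le_trans (Finset.sum_le_sum fun c _ => ?_) h
    refine (T.norm_py_mul_le (X c) (S.α g' (X c)) z).trans (le_of_eq ?_)
    rw [← T.norm_star, star_mul, star_star, ← S.norm_map g' (S.α g'⁻¹ (star z) * X c),
      map_mul (S.α g'), S.apply_inv]
  · intro z
    rw [one_mul]
    exact le_trans (Finset.sum_le_sum fun c _ => T.norm_mul_py_le (X c) (S.α g' (X c)) z)
      (hX.dm2 z)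

theorem ly_corner (hX : S.Mlt H Λ ρ κ1 D e X lam) (g' : G) {b : A} (hb : S.Fixed b)
    (hbs : star b = b) (hbe : b * e = e) (c : C) :
    b * S.ly g' X c = S.ly g' X c ∧ S.ly g' X c * b = S.ly g' X c := by
  have h1 := hX.lft b hb hbe c
  refine py_corner hbs h1 ?_
  have h2 := congrArg (S.α g') h1
  rwa [map_mul, hb] at h2

theorem ly_cov (hX : S.Mlt H Λ ρ κ1 D e X lam) (he : ‖e‖ ≤ 1) (hΛ : 0 < Λ) (hρ : 0 < ρ)
    (hκ1 : 0 ≤ κ1) (g' : G) {h : G} (hh : h ∈ D) (hh' : g'⁻¹ * h * g' ∈ D)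
    (hq : ρ * (‖H.a h‖ + ‖H.b h‖) ≤ 1) :
    ∑ c, ‖T.ι (S.α h (S.ly g' X c)
        - ch (-(ρ ^ 2 * (⟪H.a h, H.b g'⟫ - ⟪H.a g', H.b h⟫))) • S.ly g' X c)‖ ^ 2
      ≤ 4 * √Λ * ρ * (‖H.a h‖ + ‖H.b h‖) * ‖T.ι e‖ ^ 2 + 4 * √κ1 := by
  have hah := H.a_conj h g'
  have hbh := H.b_conj h g'
  have hq' : ρ * (‖H.a (g'⁻¹ * h * g')‖ + ‖H.b (g'⁻¹ * h * g')‖) ≤ 1 := by rw [hah, hbh]; exact hq
  obtain ⟨μ, hμ⟩ : ∃ μ : C → ℂ, μ = fun c => lam (H.a h) c * ch (ρ ^ 2 * H.ξ h) := ⟨_, rfl⟩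
  obtain ⟨μ', hμ'⟩ : ∃ μ' : C → ℂ, μ' = fun c => lam (H.a h) c
    * ch (ρ ^ 2 * H.ξ (g'⁻¹ * h * g')) := ⟨_, rfl⟩
  have hμ1 : ∀ c, ‖μ c‖ = 1 := by
    intro c
    rw [hμ]
    dsimp only
    rw [norm_mul, hX.lam1, norm_ch, one_mul]
  have hμ1' : ∀ c, ‖μ' c‖ = 1 := by
    intro c
    rw [hμ']
    dsimp only
    rw [norm_mul, hX.lam1, norm_ch, one_mul]
  have hμμ : ∀ c, μ c * conj (μ' c)
      = ch (-(ρ ^ 2 * (⟪H.a h, H.b g'⟫ - ⟪H.a g', H.b h⟫))) := by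
    intro c
    have e1 : lam (H.a h) c * conj (lam (H.a h) c) = 1 := by
      rw [Complex.mul_conj, Complex.normSq_eq_norm_sq, hX.lam1]
      norm_num
    have e2 : -(ρ ^ 2 * (⟪H.a h, H.b g'⟫ - ⟪H.a g', H.b h⟫))
        = ρ ^ 2 * H.ξ h - ρ ^ 2 * H.ξ (g'⁻¹ * h * g') := by
      rw [H.ξ_conj]
      ring
    rw [e2, ch_sub, hμ, hμ']
    dsimp only
    rw [map_mul]
    linear_combination (ch (ρ ^ 2 * H.ξ h) * conj (ch (ρ ^ 2 * H.ξ (g'⁻¹ * h * g')))) * e1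
  -- the two sums
  obtain ⟨s, hs⟩ : ∃ s : ℝ, s = √Λ * ρ * (‖H.a h‖ + ‖H.b h‖) * ‖T.ι e‖ ^ 2 + √κ1 := ⟨_, rfl⟩
  have h2 := hX.sum_sub_le he hΛ hρ hκ1 hh hq
  have h2' := hX.sum_sub_le he hΛ hρ hκ1 hh' hq'
  rw [hah, hbh] at h2'
  rw [← hs] at h2 h2'
  have hs' : ∑ c, ‖T.ι (S.α h (S.α g' (X c)) - μ' c • S.α g' (X c))‖ ^ 2
      = ∑ c, ‖T.ι (S.α (g'⁻¹ * h * g') (X c)
        - (lam (H.a h) c * ch (ρ ^ 2 * H.ξ (g'⁻¹ * h * g'))) • X c)‖ ^ 2 := by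
    refine Finset.sum_congr rfl fun c _ => ?_
    rw [← S.norm_map g' (S.α (g'⁻¹ * h * g') (X c)
      - (lam (H.a h) c * ch (ρ ^ 2 * H.ξ (g'⁻¹ * h * g'))) • X c), map_sub (S.α g'),
      map_smul (S.α g'), ← S.mul, ← S.mul, hμ']
    have e3 : g' * (g'⁻¹ * h * g') = h * g' := by group
    rw [e3]
  rw [← hs'] at h2'
  have hμ0 : ∑ c, ‖T.ι (S.α h (X c) - (lam (H.a h) c * ch (ρ ^ 2 * H.ξ h)) • X c)‖ ^ 2
      = ∑ c, ‖T.ι (S.α h (X c) - μ c • X c)‖ ^ 2 := by rw [hμ]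
  rw [hμ0] at h2
  -- pointwise
  have h1 : ∀ c, ‖T.ι (S.α h (S.ly g' X c)
      - ch (-(ρ ^ 2 * (⟪H.a h, H.b g'⟫ - ⟪H.a g', H.b h⟫))) • S.ly g' X c)‖ ^ 2
      = ‖T.ι (py (S.α h (X c)) (S.α h (S.α g' (X c)))
        - py (μ c • X c) (μ' c • S.α g' (X c)))‖ ^ 2 := by
    intro c
    rw [py_phase (hμ1 c) (hμ1' c), hμμ]
    unfold TrAct.ly
    rw [map_py]
  rw [Finset.sum_congr rfl fun c _ => h1 c]
  refine (T.sum_norm_py_sub_sq_le _ _ _ _).trans ?_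
  rw [Finset.sum_add_distrib, Finset.sum_add_distrib]
  -- the sums of the sums
  have hpl : ∀ (Y : C → A) (ν : C → ℂ), (∀ c, ‖ν c‖ = 1) → ∑ c, ‖T.ι (Y c)‖ ^ 2 = ‖T.ι e‖ ^ 2 →
      ∑ c, ‖T.ι (S.α h (Y c) + ν c • Y c)‖ ^ 2 ≤ 4 * ‖T.ι e‖ ^ 2 := by
    intro Y ν hν hY
    have e1 : √(∑ c, ‖T.ι (S.α h (Y c) + ν c • Y c)‖ ^ 2) ≤ 2 * ‖T.ι e‖ := by
      refine (T.sqrt_sum_add_le (fun c => S.α h (Y c)) (fun c => ν c • Y c)).trans ?_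
      have e2 : ∑ c, ‖T.ι (S.α h (Y c))‖ ^ 2 = ‖T.ι e‖ ^ 2 := by
        rw [← hY]
        exact Finset.sum_congr rfl fun c _ => by rw [S.norm_map]
      have e3 : ∑ c, ‖T.ι (ν c • Y c)‖ ^ 2 = ‖T.ι e‖ ^ 2 := by
        rw [← hY]
        exact Finset.sum_congr rfl fun c _ => by rw [map_smul, norm_smul, hν, one_mul]
      rw [e2, e3, Real.sqrt_sq (norm_nonneg _)]
      linarith
    have e4 := (Real.sqrt_le_left (by positivity)).1 e1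
    linarith [e4, (by ring : (2 * ‖T.ι e‖) ^ 2 = 4 * ‖T.ι e‖ ^ 2)]
  have h4 := hpl X μ hμ1 hX.ms
  have h5 := hpl (fun c => S.α g' (X c)) μ' hμ1' (by
    rw [← hX.ms]
    exact Finset.sum_congr rfl fun c _ => by rw [S.norm_map])
  have h6 : √(∑ c, ‖T.ι (S.α h (X c) + μ c • X c)‖ ^ 2
      + ∑ c, ‖T.ι (S.α h (S.α g' (X c)) + μ' c • S.α g' (X c))‖ ^ 2)
      ≤ 2 * √2 * ‖T.ι e‖ := by
    rw [Real.sqrt_le_left (by positivity)]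
    have e5 : (2 * √2 * ‖T.ι e‖) ^ 2 = 8 * ‖T.ι e‖ ^ 2 := by
      rw [mul_pow, mul_pow, Real.sq_sqrt (by norm_num)]
      ring
    rw [e5]
    linarith
  obtain ⟨p1, hp1⟩ : ∃ p1 : ℝ, p1 = ∑ c, ‖T.ι (S.α h (X c) - μ c • X c)‖ ^ 2 := ⟨_, rfl⟩
  obtain ⟨p2, hp2⟩ : ∃ p2 : ℝ,
    p2 = ∑ c, ‖T.ι (S.α h (S.α g' (X c)) - μ' c • S.α g' (X c))‖ ^ 2 := ⟨_, rfl⟩
  rw [← hp1] at h2
  rw [← hp2] at h2'
  have hp10 : 0 ≤ p1 := by rw [hp1]; exact Finset.sum_nonneg fun _ _ => sq_nonneg _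
  have hp20 : 0 ≤ p2 := by rw [hp2]; exact Finset.sum_nonneg fun _ _ => sq_nonneg _
  rw [← hp1, ← hp2]
  have hs0 : 0 ≤ s := by
    refine le_trans ?_ h2
    positivity
  have h7 : √(p1 + p2) * ‖T.ι e‖ ≤ √2 * s := by
    have e6 : √(p1 + p2) * ‖T.ι e‖ = √((p1 + p2) * ‖T.ι e‖ ^ 2) := by
      rw [Real.sqrt_mul (by positivity), Real.sqrt_sq (norm_nonneg _)]
    rw [e6, Real.sqrt_le_left (by positivity), mul_pow, Real.sq_sqrt (by norm_num)]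
    have e7 : (√p1 * ‖T.ι e‖) ^ 2 ≤ s ^ 2 := pow_le_pow_left₀ (by positivity) h2 2
    have e8 : (√p2 * ‖T.ι e‖) ^ 2 ≤ s ^ 2 := pow_le_pow_left₀ (by positivity) h2' 2
    rw [mul_pow, Real.sq_sqrt hp10] at e7
    rw [mul_pow, Real.sq_sqrt hp20] at e8
    linarith
  calc √(p1 + p2) * √(∑ c, ‖T.ι (S.α h (X c) + μ c • X c)‖ ^ 2
      + ∑ c, ‖T.ι (S.α h (S.α g' (X c)) + μ' c • S.α g' (X c))‖ ^ 2)
      ≤ √(p1 + p2) * (2 * √2 * ‖T.ι e‖) := mul_le_mul_of_nonneg_left h6 (Real.sqrt_nonneg _)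
    _ = 2 * √2 * (√(p1 + p2) * ‖T.ι e‖) := by ring
    _ ≤ 2 * √2 * (√2 * s) := mul_le_mul_of_nonneg_left h7 (by positivity)
    _ = 2 * (√2 * √2) * s := by ring
    _ = 4 * s := by rw [Real.mul_self_sqrt (by norm_num)]; ring
    _ = _ := by rw [hs]; ring

/-- the overlap inequality -/
theorem overlap (hX : S.Mlt H Λ ρ κ1 D e X lam) (g' : G) :
    2 * ‖T.ι e‖ ^ 2 - 4 * ‖T.ι e‖ * √(T.ms (S.ly g' X))
      ≤ ∑ c, ‖T.ι (S.α g' (ry X c) - ry X c)‖ ^ 2 := by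
  have h1 : ∀ c, ‖T.ι (S.α g' (ry X c) - ry X c)‖ ^ 2
      = 2 * ‖T.ι (X c)‖ ^ 2
        - 2 * (T.τ (csqrt (star (X c) * X c)
          * csqrt (star (S.α g' (X c)) * S.α g' (X c)))).re := by
    intro c
    have e1 : S.α g' (ry X c) = csqrt (star (S.α g' (X c)) * S.α g' (X c)) := by
      unfold ry
      rw [S.act_csqrt g' _ (posE_star_mul_self _), map_mul, map_star]
    rw [e1]
    unfold ry
    rw [← norm_neg, ← map_neg, neg_sub, map_sub, @norm_sub_sq ℂ, T.norm_csqrt_star_mul_self_sq,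
      T.norm_csqrt_star_mul_self_sq, S.norm_map, T.inner_eq_τ, csqrt_star]
    simp only [RCLike.re_to_complex]
    ring
  rw [Finset.sum_congr rfl fun c _ => h1 c, Finset.sum_sub_distrib, ← Finset.mul_sum,
    ← Finset.mul_sum, hX.ms]
  have h2 := T.sum_τ_csqrt_le X (fun c => S.α g' (X c))
  have h3 : ∑ c, (T.τ (csqrt (star (X c) * X c)
          * csqrt (star (S.α g' (X c)) * S.α g' (X c)))).re
      ≤ ∑ c, ‖T.τ (csqrt (star (X c) * X c)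
          * csqrt (star (S.α g' (X c)) * S.α g' (X c)))‖ :=
    Finset.sum_le_sum fun c _ => Complex.re_le_norm _
  have h4 : ∑ c, ‖T.ι (S.α g' (X c))‖ ^ 2 = ‖T.ι e‖ ^ 2 := by
    rw [← hX.ms]
    exact Finset.sum_congr rfl fun c _ => by rw [S.norm_map]
  rw [hX.ms, h4] at h2
  have h5 : √2 * √(‖T.ι e‖ ^ 2 + ‖T.ι e‖ ^ 2) = 2 * ‖T.ι e‖ := by
    have e1 : ‖T.ι e‖ ^ 2 + ‖T.ι e‖ ^ 2 = 2 * ‖T.ι e‖ ^ 2 := by ring
    rw [e1, Real.sqrt_mul (by norm_num), Real.sqrt_sq (norm_nonneg _), ← mul_assoc,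
      Real.mul_self_sqrt (by norm_num)]
  rw [h5] at h2
  have h6 : T.ms (S.ly g' X) = ∑ c, ‖T.ι (py (X c) (S.α g' (X c)))‖ ^ 2 := rfl
  rw [← h6] at h2
  linarith

end TrAct.Mlt

end

end Pool.Agent.AbCoc
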