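import Pool.Agent.Lib_MP_418a80_t3.Heis3
import Pool.Agent.Lib_MP_418a80_t3.Eig
import Pool.Agent.Lib_MP_418a80_t3.Dec
import Pool.Agent.Lib_MP_418a80_t3.CellsV

/-!
# The Heisenberg step, part 4: tails, tangent cones, masses of labels
-/

set_option autoImplicit false
set_option linter.unusedVariables false
set_option linter.unusedSectionVars false

open Topology Filter MeasureTheory
open scoped RealInnerProductSpace ComplexConjugate

namespace Pool.Agent.AbCoc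

universe u v w z

/-- tail estimate -/
theorem mass_tail {J : Type} [Fintype J] (m : J → ℝ) (hm : ∀ j, 0 ≤ m j) (a : J → ℝ) (Z M : ℝ)
    (hZ : 0 < Z) (h : ∀ t : ℝ, 0 ≤ t → t ≤ 2 / Z → ∑ j, ‖ch (a j * t) - 1‖ ^ 2 * m j ≤ M)
    [DecidablePred fun j => Z ≤ |a j|] :
    ∑ j, (if Z ≤ |a j| then m j else 0) ≤ M := by
  obtain ⟨L, hL⟩ : ∃ L : ℝ, L = 2 / Z := ⟨_, rfl⟩
  have hL0 : 0 < L := by rw [hL]; positivity
  have hint : ∫ t in (0 : ℝ)..L, ∑ j, (2 - 2 * Real.cos (a j * t)) * m j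
      ≤ ∫ _t in (0 : ℝ)..L, M := by
    refine intervalIntegral.integral_mono_on hL0.le ?_ intervalIntegrable_const ?_
    · apply Continuous.intervalIntegrable
      fun_prop
    · intro t ht
      refine le_trans (le_of_eq (Finset.sum_congr rfl fun i _ => ?_)) (h t ht.1 (by
        rw [← hL]; exact ht.2))
      rw [norm_ch_sub_one_sq]
  rw [intervalIntegral.integral_const, intervalIntegral.integral_finsetSum
    (fun i _ => by apply Continuous.intervalIntegrable; fun_prop)] at hint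
  simp only [sub_zero, smul_eq_mul] at hint
  have hlow : ∀ j, L * (if Z ≤ |a j| then m j else 0)
      ≤ ∫ t in (0 : ℝ)..L, (2 - 2 * Real.cos (a j * t)) * m j := by
    intro j
    rw [intervalIntegral.integral_mul_const]
    split_ifs with hi
    · refine mul_le_mul_of_nonneg_right ?_ (hm j)
      exact integral_ch_ge _ L Z hZ hi hL
    · rw [mul_zero]
      refine mul_nonneg ?_ (hm j)
      refine intervalIntegral.integral_nonneg hL0.le fun t _ => ?_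
      have := Real.cos_le_one (a j * t)
      linarith
  have h6 : L * ∑ j, (if Z ≤ |a j| then m j else 0) ≤ L * M := by
    rw [Finset.mul_sum]
    exact (Finset.sum_le_sum fun i _ => hlow i).trans hint
  exact le_of_mul_le_mul_left h6 hL0

section cone
variable {V : Type z} [NormedAddCommGroup V] [InnerProductSpace ℝ V] [FiniteDimensional ℝ V]

/-- near `0`, a closed subgroup is close to the largest subspace it contains -/
theorem tangent_cone (H : AddSubgroup V) (hH : IsClosed (H : Set V)) (W : Submodule ℝ V)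
    (hW : ∀ q, q ∈ W ↔ ∀ c : ℝ, c • q ∈ H) (ε : ℝ) (hε : 0 < ε) :
    ∃ r0 : ℝ, 0 < r0 ∧ ∀ q ∈ H, ‖q‖ ≤ r0 → Metric.infDist q (W : Set V) ≤ ε * ‖q‖ := by
  by_contra hno
  push Not at hno
  -- a sequence
  have hseq : ∀ k : ℕ, ∃ q ∈ H, ‖q‖ ≤ 1 / ((k : ℝ) + 1) ∧
      ε * ‖q‖ < Metric.infDist q (W : Set V) := fun k => hno (1 / ((k : ℝ) + 1)) (by positivity)
  choose q hqH hqn hqd using hseq
  have hne : ((W : Set V)).Nonempty := ⟨0, W.zero_mem⟩
  have hq0 : ∀ k, 0 < ‖q k‖ := by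
    intro k
    rw [norm_pos_iff]
    intro h0
    have h1 := hqd k
    rw [h0, norm_zero, mul_zero, Metric.infDist_zero_of_mem (SetLike.mem_coe.2 W.zero_mem)] at h1
    exact lt_irrefl _ h1
  -- directions
  have hdir : ∀ k, (‖q k‖)⁻¹ • q k ∈ Metric.sphere (0 : V) 1 := by
    intro k
    rw [mem_sphere_zero_iff_norm, norm_smul, norm_inv, norm_norm, inv_mul_cancel₀ (hq0 k).ne']
  obtain ⟨u, hu, φ, hφ, hlim⟩ := (isCompact_sphere (0 : V) 1).tendsto_subseq hdir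
  have hqlim : Tendsto (fun k => ‖q (φ k)‖) atTop (𝓝 0) := by
    refine squeeze_zero (fun k => norm_nonneg _) (fun k => hqn (φ k)) ?_
    exact tendsto_one_div_add_atTop_nhds_zero_nat.comp hφ.tendsto_atTop
  -- `R u ⊆ H`
  have huW : u ∈ W := by
    rw [hW]
    intro c
    have hmem : ∀ k, (⌊c / ‖q (φ k)‖⌋ : ℤ) • q (φ k) ∈ H := fun k => H.zsmul_mem (hqH (φ k)) _
    have hl : Tendsto (fun k => (⌊c / ‖q (φ k)‖⌋ : ℤ) • q (φ k)) atTop (𝓝 (c • u)) := by
      have h1 : ∀ k, (⌊c / ‖q (φ k)‖⌋ : ℤ) • q (φ k)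
          = ((⌊c / ‖q (φ k)‖⌋ : ℝ) * ‖q (φ k)‖) • ((‖q (φ k)‖)⁻¹ • q (φ k)) := by
        intro k
        rw [smul_smul, mul_assoc, mul_inv_cancel₀ (hq0 (φ k)).ne', mul_one, Int.cast_smul_eq_zsmul]
      simp only [h1]
      refine Tendsto.smul ?_ hlim
      rw [tendsto_iff_norm_sub_tendsto_zero]
      refine squeeze_zero (fun k => norm_nonneg _) (fun k => ?_) hqlim
      rw [Real.norm_eq_abs]
      have h2 : (⌊c / ‖q (φ k)‖⌋ : ℝ) * ‖q (φ k)‖ - c
          = -((c / ‖q (φ k)‖ - (⌊c / ‖q (φ k)‖⌋ : ℝ)) * ‖q (φ k)‖) := by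
        rw [sub_mul, div_mul_cancel₀ _ (hq0 (φ k)).ne']
        ring
      rw [h2, abs_neg, abs_mul, abs_norm]
      have h3 : |c / ‖q (φ k)‖ - (⌊c / ‖q (φ k)‖⌋ : ℝ)| ≤ 1 := by
        rw [abs_of_nonneg (sub_nonneg.2 (Int.floor_le _))]
        linarith [Int.lt_floor_add_one (c / ‖q (φ k)‖)]
      calc |c / ‖q (φ k)‖ - (⌊c / ‖q (φ k)‖⌋ : ℝ)| * ‖q (φ k)‖ ≤ 1 * ‖q (φ k)‖ :=
            mul_le_mul_of_nonneg_right h3 (norm_nonneg _)
        _ = _ := one_mul _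
    exact hH.mem_of_tendsto hl (Eventually.of_forall hmem)
  -- contradiction
  have hd : Tendsto (fun k => Metric.infDist ((‖q (φ k)‖)⁻¹ • q (φ k)) (W : Set V)) atTop
      (𝓝 (Metric.infDist u (W : Set V))) :=
    ((Metric.continuous_infDist_pt (W : Set V)).tendsto u).comp hlim
  rw [Metric.infDist_zero_of_mem (SetLike.mem_coe.2 huW)] at hd
  have hge : ∀ k, ε ≤ Metric.infDist ((‖q (φ k)‖)⁻¹ • q (φ k)) (W : Set V) := by
    intro k
    refine (Metric.le_infDist hne).2 fun w hw => ?_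
    have h1 : Metric.infDist (q (φ k)) (W : Set V) ≤ dist (q (φ k)) (‖q (φ k)‖ • w) :=
      Metric.infDist_le_dist_of_mem (SetLike.mem_coe.2 (W.smul_mem _ (SetLike.mem_coe.1 hw)))
    have h2 : dist (q (φ k)) (‖q (φ k)‖ • w) = ‖q (φ k)‖ * dist ((‖q (φ k)‖)⁻¹ • q (φ k)) w := by
      have h3 : q (φ k) - ‖q (φ k)‖ • w = ‖q (φ k)‖ • ((‖q (φ k)‖)⁻¹ • q (φ k) - w) := by
        rw [smul_sub, smul_smul, mul_inv_cancel₀ (hq0 (φ k)).ne', one_smul]
      rw [dist_eq_norm, dist_eq_norm, h3, norm_smul, norm_norm]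
    have h4 := (hqd (φ k)).trans_le h1
    rw [h2, mul_comm ε] at h4
    exact (lt_of_mul_lt_mul_left h4 (norm_nonneg _)).le
  have := ge_of_tendsto hd (Eventually.of_forall hge)
  linarith

end cone

section
variable {A : Type u} [CStarAlgebra A] {K : Type v} [NormedAddCommGroup K]
  [InnerProductSpace ℂ K] [CompleteSpace K]
variable {G : Type w} [Group G] [TopologicalSpace G] {T : TrAlg A K} {S : TrAct G T}
  {Q : Type z} {chi : Q → G → ℂ}

/-- the mass of the labels in a forbidden set -/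
theorem TrAct.IsLab.mass_le {b : A} {D : Set G} {κ C η : ℝ} {E : Set Q} (hη : 0 ≤ η)
    (hcov : ∀ (J : Type) [Fintype J] (y : J → A) (r : J → Q), S.IsLab chi E b D κ C y r →
      T.ms y ≤ η) {J : Type} [Fintype J] {x : J → A} {θ : J → Q}
    (hx : S.IsLab chi Set.univ b D κ C x θ) [DecidablePred (· ∈ E)] :
    ∑ i, (if θ i ∈ E then ‖T.ι (x i)‖ ^ 2 else 0) ≤ η := by
  rcases E.eq_empty_or_nonempty with hE | ⟨q0, hq0⟩
  · refine le_trans (le_of_eq (Finset.sum_eq_zero fun i _ => ?_)) hη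
    rw [if_neg]
    rw [hE]
    exact Set.notMem_empty _
  · have h := hcov J _ _ (hx.cut E q0 hq0)
    refine le_trans (le_of_eq (Finset.sum_congr rfl fun i _ => ?_)) h
    by_cases hi : θ i ∈ E
    · rw [if_pos hi]
      change _ = ‖T.ι (if θ i ∈ E then x i else 0)‖ ^ 2
      rw [if_pos hi]
    · rw [if_neg hi]
      change _ = ‖T.ι (if θ i ∈ E then x i else 0)‖ ^ 2
      rw [if_neg hi, map_zero, norm_zero, zero_pow two_ne_zero]

/-- near-eigen: from the displacement to the labels -/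
theorem TrAct.IsLab.sum_ch_le {V : Type z} [NormedAddCommGroup V] [InnerProductSpace ℝ V]
    {p : G → V} {b : A} {D : Set G} {κ C : ℝ} {J : Type} [Fintype J] {x : J → A} {θ : J → V}
    (hx : S.IsLab (pch p) Set.univ b D κ C x θ) {g : G} (hg : g ∈ D) (ζ : ℂ) :
    ∑ i, ‖pch p (θ i) g - ζ‖ ^ 2 * ‖T.ι (x i)‖ ^ 2
      ≤ 2 * κ + 2 * ∑ i, ‖T.ι (S.α g (x i) - ζ • x i)‖ ^ 2 := by
  have h1 := hx.ne g hg
  have h2 : ∀ i, ‖pch p (θ i) g - ζ‖ ^ 2 * ‖T.ι (x i)‖ ^ 2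
      ≤ 2 * ‖T.ι (S.α g (x i) - pch p (θ i) g • x i)‖ ^ 2
        + 2 * ‖T.ι (S.α g (x i) - ζ • x i)‖ ^ 2 := by
    intro i
    have e1 : (pch p (θ i) g - ζ) • x i
        = (S.α g (x i) - ζ • x i) - (S.α g (x i) - pch p (θ i) g • x i) := by
      rw [sub_smul]
      abel
    have e2 : ‖pch p (θ i) g - ζ‖ * ‖T.ι (x i)‖
        ≤ ‖T.ι (S.α g (x i) - ζ • x i)‖ + ‖T.ι (S.α g (x i) - pch p (θ i) g • x i)‖ := by
      rw [← norm_smul, ← map_smul, e1, map_sub]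
      exact norm_sub_le _ _
    rw [← mul_pow]
    refine (pow_le_pow_left₀ (by positivity) e2 2).trans ?_
    nlinarith [sq_nonneg (‖T.ι (S.α g (x i) - ζ • x i)‖
      - ‖T.ι (S.α g (x i) - pch p (θ i) g • x i)‖)]
  refine (Finset.sum_le_sum fun i _ => h2 i).trans ?_
  rw [Finset.sum_add_distrib, ← Finset.mul_sum, ← Finset.mul_sum]
  linarith

/-- tails of the labels of the cells of a family `y` which is close to an eigenfamily of label `q0` -/
theorem TrAct.IsLab.tail {V : Type z} [NormedAddCommGroup V] [InnerProductSpace ℝ V] {d : ℕ}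
    (bs : OrthonormalBasis (Fin d) ℝ V) {p : G → V} (σ : V → G) (hpσ : ∀ v, p (σ v) = v)
    {b : A} {D : Set G} {κ C : ℝ} {J J' : Type} [Fintype J] [Fintype J'] {x : J' → A} {θ : J' → V}
    {y : J → A} (hx : S.IsLab (pch p) Set.univ b D κ C x θ)
    (hxy : ∀ g ∈ D, ∀ ζ : ℂ, ‖ζ‖ = 1 → ∑ i, ‖T.ι (S.α g (x i) - ζ • x i)‖ ^ 2
      ≤ 2 * ∑ j, ‖T.ι (S.α g (y j) - ζ • y j)‖ ^ 2 + κ)
    (q0 : V) (Z M : ℝ) (hZ : 0 < Z)
    (hD : ∀ (l : Fin d) (t : ℝ), 0 ≤ t → t ≤ 2 / Z → σ (t • bs l) ∈ D)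
    (hy : ∀ (l : Fin d) (t : ℝ), 0 ≤ t → t ≤ 2 / Z →
      ∑ j, ‖T.ι (S.α (σ (t • bs l)) (y j) - ch ⟪q0, t • bs l⟫ • y j)‖ ^ 2 ≤ M)
    [DecidablePred fun i => √d * Z < ‖θ i - q0‖] :
    ∑ i, (if √d * Z < ‖θ i - q0‖ then ‖T.ι (x i)‖ ^ 2 else 0) ≤ d * (4 * κ + 4 * M) := by
  classical
  have h1 : ∀ l : Fin d, ∑ i, (if Z ≤ |⟪θ i - q0, bs l⟫| then ‖T.ι (x i)‖ ^ 2 else 0)
      ≤ 4 * κ + 4 * M := by
    intro l
    refine mass_tail (fun i => ‖T.ι (x i)‖ ^ 2) (fun i => sq_nonneg _)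
      (fun i => ⟪θ i - q0, bs l⟫) Z _ hZ fun t ht1 ht2 => ?_
    have h2 := hx.sum_ch_le (hD l t ht1 ht2) (ch ⟪q0, t • bs l⟫)
    have h3 := hxy _ (hD l t ht1 ht2) (ch ⟪q0, t • bs l⟫) (norm_ch _)
    have h4 := hy l t ht1 ht2
    have h5 : ∀ i, ‖ch (⟪θ i - q0, bs l⟫ * t) - 1‖
        = ‖pch p (θ i) (σ (t • bs l)) - ch ⟪q0, t • bs l⟫‖ := by
      intro i
      have e1 : ⟪θ i - q0, bs l⟫ * t = ⟪θ i, t • bs l⟫ - ⟪q0, t • bs l⟫ := by
        rw [inner_smul_right, inner_smul_right, inner_sub_left]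
        ring
      have e2 : pch p (θ i) (σ (t • bs l)) - ch ⟪q0, t • bs l⟫
          = (ch (⟪θ i - q0, bs l⟫ * t) - 1) * ch ⟪q0, t • bs l⟫ := by
        rw [sub_mul, one_mul, ← ch_add, e1, sub_add_cancel, pch, hpσ]
      rw [e2, norm_mul, norm_ch, mul_one]
    simp only [h5]
    linarith
  have h2 : ∀ i, (if √d * Z < ‖θ i - q0‖ then ‖T.ι (x i)‖ ^ 2 else 0)
      ≤ ∑ l : Fin d, (if Z ≤ |⟪θ i - q0, bs l⟫| then ‖T.ι (x i)‖ ^ 2 else 0) := by
    intro i
    split_ifs with hi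
    · obtain ⟨l, hl⟩ : ∃ l, Z ≤ |⟪θ i - q0, bs l⟫| := by
        by_contra hno
        push Not at hno
        have h3 : ‖θ i - q0‖ ^ 2 ≤ (√d * Z) ^ 2 := by
          rw [← bs.sum_sq_norm_inner_left (θ i - q0), mul_pow, Real.sq_sqrt (Nat.cast_nonneg d)]
          calc ∑ l, ‖⟪θ i - q0, bs l⟫‖ ^ 2 ≤ ∑ _l : Fin d, Z ^ 2 :=
                Finset.sum_le_sum fun l _ => pow_le_pow_left₀ (norm_nonneg _)
                  (by rw [Real.norm_eq_abs]; exact (hno l).le) 2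
            _ = (d : ℝ) * Z ^ 2 := by
                rw [Finset.sum_const, Finset.card_univ, Fintype.card_fin, nsmul_eq_mul]
        have h4 := (pow_le_pow_iff_left₀ (norm_nonneg _) (by positivity) two_ne_zero).1 h3
        exact absurd hi (not_lt.2 h4)
      refine le_trans ?_ (Finset.single_le_sum (f := fun l : Fin d =>
        (if Z ≤ |⟪θ i - q0, bs l⟫| then ‖T.ι (x i)‖ ^ 2 else 0)) (fun l _ => ?_)
        (Finset.mem_univ l))
      · rw [if_pos hl]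
      · split_ifs
        · exact sq_nonneg _
        · exact le_rfl
    · refine Finset.sum_nonneg fun l _ => ?_
      split_ifs
      · exact sq_nonneg _
      · exact le_rfl
  refine (Finset.sum_le_sum fun i _ => h2 i).trans ?_
  rw [Finset.sum_comm]
  refine (Finset.sum_le_sum fun l _ => h1 l).trans (le_of_eq ?_)
  rw [Finset.sum_const, Finset.card_univ, Fintype.card_fin, nsmul_eq_mul]

end

end Pool.Agent.AbCoc
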