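import Pool.Agent.Lib_MP_418a80_t3.Heis4

/-!
# The Heisenberg step, part 5: masses of the left and right families
-/

set_option autoImplicit false
set_option linter.unusedVariables false
set_option linter.unusedSectionVars false

open Topology Filter MeasureTheory
open scoped RealInnerProductSpace ComplexConjugate

namespace Pool.Agent.AbCoc

universe u v w z

/-- label space of the Heisenberg step -/
abbrev LV (n : ℕ) : Type := WithLp 2 (EuclideanSpace ℝ (Fin n) × EuclideanSpace ℝ (Fin n))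

/-- the symplectic map -/
noncomputable def Jm {n : ℕ} (v : LV n) : LV n := WithLp.toLp 2 (v.snd, -v.fst)

theorem Jm_fst {n : ℕ} (v : LV n) : (Jm v).fst = v.snd := rfl

theorem Jm_snd {n : ℕ} (v : LV n) : (Jm v).snd = -v.fst := rfl

theorem LV_ext {n : ℕ} {v w : LV n} (h1 : v.fst = w.fst) (h2 : v.snd = w.snd) : v = w := by
  cases v with
  | toLp v => cases w with
    | toLp w => exact congrArg _ (Prod.ext h1 h2)

theorem Jm_smul {n : ℕ} (c : ℝ) (v : LV n) : Jm (c • v) = c • Jm v :=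
  LV_ext rfl (by
    change -(c • v.fst) = c • (-v.fst)
    rw [smul_neg])

theorem Jm_zero {n : ℕ} : Jm (0 : LV n) = 0 := by
  have h := Jm_smul 0 (0 : LV n)
  rwa [zero_smul, zero_smul] at h

theorem norm_Jm {n : ℕ} (v : LV n) : ‖Jm v‖ = ‖v‖ := by
  have h : ‖Jm v‖ ^ 2 = ‖v‖ ^ 2 := by
    rw [WithLp.prod_norm_sq_eq_of_L2, WithLp.prod_norm_sq_eq_of_L2, Jm_fst, Jm_snd, norm_neg,
      add_comm]
  exact (pow_left_inj₀ (norm_nonneg _) (norm_nonneg _) two_ne_zero).1 h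

namespace HData
variable {G : Type w} [Group G] [TopologicalSpace G] {n : ℕ} (H : HData G n)

/-- the homomorphism to the label space -/
noncomputable def p (g : G) : LV n := WithLp.toLp 2 (H.a g, H.b g)

/-- the section -/
noncomputable def σ (v : LV n) : G := H.s v.fst * H.r v.snd

theorem p_fst (g : G) : (H.p g).fst = H.a g := rfl

theorem p_snd (g : G) : (H.p g).snd = H.b g := rfl

theorem p_mul (g h : G) : H.p (g * h) = H.p g + H.p h := LV_ext (H.amul g h) (H.bmul g h)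

theorem continuous_p : Continuous H.p :=
  (WithLp.prod_continuous_toLp 2 _ _).comp (H.ha.prodMk H.hb)

theorem p_σ (v : LV n) : H.p (H.σ v) = v := by
  refine LV_ext ?_ ?_
  · change H.a (H.s v.fst * H.r v.snd) = v.fst
    rw [H.amul, H.as, H.ar, add_zero]
  · change H.b (H.s v.fst * H.r v.snd) = v.snd
    rw [H.bmul, H.bs, H.br, zero_add]

theorem continuous_σ [IsTopologicalGroup G] : Continuous H.σ := by
  have h := WithLp.prod_continuous_ofLp 2 (EuclideanSpace ℝ (Fin n)) (EuclideanSpace ℝ (Fin n))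
  exact (H.hs.comp (continuous_fst.comp h)).mul (H.hr.comp (continuous_snd.comp h))

theorem norm_a_le (g : G) : ‖H.a g‖ ≤ ‖H.p g‖ := WithLp.norm_fst_le _ (H.p g)

theorem norm_b_le (g : G) : ‖H.b g‖ ≤ ‖H.p g‖ := WithLp.norm_snd_le _ (H.p g)

theorem ab_of_p {g : G} (h : H.p g = 0) : H.a g = 0 ∧ H.b g = 0 := by
  have h1 := H.norm_a_le g
  have h2 := H.norm_b_le g
  rw [h, norm_zero] at h1 h2
  exact ⟨norm_le_zero_iff.1 h1, norm_le_zero_iff.1 h2⟩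

theorem omega_eq (h g : G) : ⟪H.a h, H.b g⟫ - ⟪H.a g, H.b h⟫ = ⟪Jm (H.p g), H.p h⟫ := by
  rw [WithLp.prod_inner_apply]
  change _ = ⟪H.b g, H.a h⟫ + ⟪-H.a g, H.b h⟫
  rw [inner_neg_left, real_inner_comm (H.b g) (H.a h)]
  ring

end HData

section
variable {A : Type u} [CStarAlgebra A] {K : Type v} [NormedAddCommGroup K]
  [InnerProductSpace ℂ K] [CompleteSpace K]
variable {G : Type w} [Group G] [TopologicalSpace G] {T : TrAlg A K} (S : TrAct G T)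

/-- the conclusion of `exists_cells` at one level (constant `1`) -/
def TrAct.CellsAt {V : Type z} [NormedAddCommGroup V] [InnerProductSpace ℝ V] (p : G → V)
    (Dl : Set G) (κ : ℝ) (Dc : Set G) (κc : ℝ) : Prop :=
  ∀ (b : A) (J : Type) [Fintype J] (y : J → A), S.Fixed b → (∀ j, b * y j = y j) →
    (∀ j, y j * b = y j) → T.Dm 1 y →
    (∀ h ∈ Dc, p h = 0 → ∑ j, ‖T.ι (S.α h (y j) - y j)‖ ^ 2 ≤ κc) →
    ∃ (J' : Type) (_ : Fintype J') (x : J' → A) (θ : J' → V),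
      S.IsLab (pch p) Set.univ b Dl κ 1 x θ ∧ T.ms x = T.ms y ∧
      ∀ g ∈ Dl, ∀ ζ : ℂ, ‖ζ‖ = 1 →
        ∑ i, ‖T.ι (S.α g (x i) - ζ • x i)‖ ^ 2
          ≤ 2 * ∑ j, ‖T.ι (S.α g (y j) - ζ • y j)‖ ^ 2 + κ ∧
        ∑ j, ‖T.ι (S.α g (y j) - ζ • y j)‖ ^ 2
          ≤ 2 * ∑ i, ‖T.ι (S.α g (x i) - ζ • x i)‖ ^ 2 + κ

/-- the conclusion of the covering lemma at one level (constant `1`) -/
def TrAct.CovAt {V : Type z} [NormedAddCommGroup V] [InnerProductSpace ℝ V] (p : G → V)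
    (E : Set V) (b : A) (Dl : Set G) (κ η : ℝ) : Prop :=
  ∀ (J : Type) [Fintype J] (y : J → A) (r : J → V), S.IsLab (pch p) E b Dl κ 1 y r → T.ms y ≤ η

variable {S} {n : ℕ} {H : HData G n} {Λ ρ κ1 : ℝ} {D : Set G} {e : A} {C : Type} [Fintype C]
  {X : C → A} {lam : EuclideanSpace ℝ (Fin n) → C → ℂ} {d : ℕ}

theorem HData.pos_of_seg (bs : OrthonormalBasis (Fin d) ℝ (LV n)) {ρ Z : ℝ} (hρ : 0 < ρ)
    (hZ : 4 ≤ Z) (l : Fin d) (t : ℝ) (ht0 : 0 ≤ t) (ht : t ≤ 2 / (ρ * Z)) :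
    ‖H.a (H.σ (t • bs l))‖ + ‖H.b (H.σ (t • bs l))‖ ≤ 2 * t ∧
    ρ * (‖H.a (H.σ (t • bs l))‖ + ‖H.b (H.σ (t • bs l))‖) ≤ 1 ∧
    ρ * (‖H.a (H.σ (t • bs l))‖ + ‖H.b (H.σ (t • bs l))‖) ≤ 4 / Z := by
  have h0 : ‖t • bs l‖ = t := by
    rw [norm_smul, bs.norm_eq_one, mul_one, Real.norm_eq_abs, abs_of_nonneg ht0]
  have h1 := H.norm_a_le (H.σ (t • bs l))
  have h2 := H.norm_b_le (H.σ (t • bs l))
  rw [H.p_σ, h0] at h1 h2
  have hZ0 : 0 < Z := by linarith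
  have h3 : ρ * (2 * t) ≤ 4 / Z := by
    rw [le_div_iff₀ (mul_pos hρ hZ0)] at ht
    rw [le_div_iff₀ hZ0]
    nlinarith
  have h4 : 4 / Z ≤ 1 := by
    rw [div_le_one hZ0]
    exact hZ
  have h5 : ρ * (‖H.a (H.σ (t • bs l))‖ + ‖H.b (H.σ (t • bs l))‖) ≤ ρ * (2 * t) :=
    mul_le_mul_of_nonneg_left (by linarith) hρ.le
  exact ⟨by linarith, by linarith, by linarith⟩

namespace TrAct.Mlt

/-- the left family has small mass -/
theorem left_mass (hX : S.Mlt H Λ ρ κ1 D e X lam) (he : ‖e‖ ≤ 1) (hΛ : 0 < Λ) (hρ : 0 < ρ)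
    (hκ1 : 0 ≤ κ1) (g' : G) {c1 : A} (hc1 : S.IsPrj c1) (hc1e : c1 * e = e)
    (bs : OrthonormalBasis (Fin d) ℝ (LV n)) {Z : ℝ} (hZ : 4 ≤ Z) {Dl Dc : Set G} {κ κc η : ℝ}
    (hη : 0 ≤ η)
    (hcells : S.CellsAt H.p Dl κ Dc κc)
    (hcov : S.CovAt H.p (Metric.closedBall (-(ρ ^ 2) • Jm (H.p g')) (√d * (ρ * Z))) c1 Dl κ η)
    (hseg : ∀ (l : Fin d) (t : ℝ), 0 ≤ t → t ≤ 2 / (ρ * Z) → H.σ (t • bs l) ∈ Dl)
    (hD1 : ∀ h ∈ Dc, h ∈ D ∧ g'⁻¹ * h * g' ∈ D)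
    (hD2 : ∀ (l : Fin d) (t : ℝ), 0 ≤ t → t ≤ 2 / (ρ * Z) →
      H.σ (t • bs l) ∈ D ∧ g'⁻¹ * H.σ (t • bs l) * g' ∈ D)
    (hκc : 4 * √κ1 ≤ κc) :
    T.ms (S.ly g' X) ≤ d * (4 * κ + 4 * (16 * √Λ / Z * ‖T.ι e‖ ^ 2 + 4 * √κ1)) + η := by
  classical
  obtain ⟨q0, hq0⟩ : ∃ q0 : LV n, q0 = -(ρ ^ 2) • Jm (H.p g') := ⟨_, rfl⟩
  rw [← hq0] at hcov
  have hq0p : ∀ h, -(ρ ^ 2 * (⟪H.a h, H.b g'⟫ - ⟪H.a g', H.b h⟫)) = ⟪q0, H.p h⟫ := by
    intro h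
    rw [H.omega_eq, hq0, inner_smul_left]
    simp
  -- cells
  obtain ⟨J', _, x, θ, hx, hms, hxy⟩ := hcells c1 C (S.ly g' X) hc1.fix
    (fun c => (hX.ly_corner g' hc1.fix hc1.star_eq hc1e c).1)
    (fun c => (hX.ly_corner g' hc1.fix hc1.star_eq hc1e c).2) (hX.ly_dm g') (by
      intro h hh hp
      obtain ⟨ha0, hb0⟩ := H.ab_of_p hp
      obtain ⟨h1, h2⟩ := hD1 h hh
      have h3 := hX.ly_cov he hΛ hρ hκ1 g' h1 h2 (by rw [ha0, hb0]; simp)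
      rw [ha0, hb0] at h3
      simp only [inner_zero_left, inner_zero_right, sub_zero, mul_zero, neg_zero, ch_zero, one_smul,
        norm_zero, add_zero, zero_mul, zero_add] at h3
      exact h3.trans hκc)
  rw [← hms]
  have hZ0 : 0 < Z := by linarith
  -- tails
  have htail := hx.tail bs H.σ H.p_σ (fun g hg ζ hζ => (hxy g hg ζ hζ).1) q0 (ρ * Z)
    (16 * √Λ / Z * ‖T.ι e‖ ^ 2 + 4 * √κ1) (mul_pos hρ hZ0) hseg (by
      intro l t ht0 ht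
      obtain ⟨h1, h2⟩ := hD2 l t ht0 ht
      obtain ⟨h3, h4, h5⟩ := HData.pos_of_seg (H := H) bs hρ hZ l t ht0 ht
      have h6 := hX.ly_cov he hΛ hρ hκ1 g' h1 h2 h4
      rw [hq0p, H.p_σ] at h6
      refine h6.trans ?_
      have h7 : 4 * √Λ * ρ * (‖H.a (H.σ (t • bs l))‖ + ‖H.b (H.σ (t • bs l))‖) * ‖T.ι e‖ ^ 2
          = (4 * √Λ * ‖T.ι e‖ ^ 2)
            * (ρ * (‖H.a (H.σ (t • bs l))‖ + ‖H.b (H.σ (t • bs l))‖)) := by ring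
      have h8 : (4 * √Λ * ‖T.ι e‖ ^ 2)
            * (ρ * (‖H.a (H.σ (t • bs l))‖ + ‖H.b (H.σ (t • bs l))‖))
          ≤ (4 * √Λ * ‖T.ι e‖ ^ 2) * (4 / Z) := mul_le_mul_of_nonneg_left h5 (by positivity)
      have h9 : (4 * √Λ * ‖T.ι e‖ ^ 2) * (4 / Z) = 16 * √Λ / Z * ‖T.ι e‖ ^ 2 := by ring
      rw [h7]
      linarith)
  have hball := hx.mass_le hη hcov
  -- sum
  have hsum : ∀ i, ‖T.ι (x i)‖ ^ 2 ≤ (if √d * (ρ * Z) < ‖θ i - q0‖ then ‖T.ι (x i)‖ ^ 2 else 0)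
      + (if θ i ∈ Metric.closedBall q0 (√d * (ρ * Z)) then ‖T.ι (x i)‖ ^ 2 else 0) := by
    intro i
    by_cases h : √d * (ρ * Z) < ‖θ i - q0‖
    · rw [if_pos h]
      have h1 : 0 ≤ (if θ i ∈ Metric.closedBall q0 (√d * (ρ * Z)) then ‖T.ι (x i)‖ ^ 2
          else 0) := by
        split_ifs
        · exact sq_nonneg _
        · exact le_rfl
      linarith
    · have h1 : θ i ∈ Metric.closedBall q0 (√d * (ρ * Z)) := by
        rw [mem_closedBall_iff_norm]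
        exact not_lt.1 h
      rw [if_neg h, if_pos h1, zero_add]
  have h1 := Finset.sum_le_sum fun i (_ : i ∈ Finset.univ) => hsum i
  rw [Finset.sum_add_distrib] at h1
  have h2 : T.ms x = ∑ i, ‖T.ι (x i)‖ ^ 2 := rfl
  rw [h2]
  linarith

/-- the right family is nearly invariant under `g'` -/
theorem right_inv (hX : S.Mlt H Λ ρ κ1 D e X lam) (he : ‖e‖ ≤ 1) (hΛ : 0 < Λ) (hρ : 0 < ρ)
    (hκ1 : 0 ≤ κ1) (g' : G) {c2 : A} (hc2 : S.IsPrj c2) (hc2e : e * c2 = e)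
    (bs : OrthonormalBasis (Fin d) ℝ (LV n)) {Z : ℝ} (hZ : 4 ≤ Z) {Dl Dc : Set G} {κ κc η δ2 : ℝ}
    (hη : 0 ≤ η) (hδ2 : 0 ≤ δ2)
    (hcells : S.CellsAt H.p Dl κ Dc κc)
    (hcov : S.CovAt H.p {q : LV n | ‖q‖ ≤ √d * (ρ * Z) ∧ δ2 ≤ |⟪q, H.p g'⟫|} c2 Dl κ η)
    (hseg : ∀ (l : Fin d) (t : ℝ), 0 ≤ t → t ≤ 2 / (ρ * Z) → H.σ (t • bs l) ∈ Dl)
    (hg' : g' ∈ Dl)
    (hD1 : ∀ h ∈ Dc, h ∈ D)
    (hD2 : ∀ (l : Fin d) (t : ℝ), 0 ≤ t → t ≤ 2 / (ρ * Z) → H.σ (t • bs l) ∈ D)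
    (hκc : 2 * √κ1 ≤ κc) :
    ∑ c, ‖T.ι (S.α g' (ry X c) - ry X c)‖ ^ 2
      ≤ 5 * κ + 4 * (4 * (d * (4 * κ + 4 * (8 * √Λ / Z * ‖T.ι e‖ ^ 2 + 2 * √κ1))) + 4 * η
        + δ2 ^ 2 * ‖T.ι e‖ ^ 2) := by
  classical
  obtain ⟨J', _, x, θ, hx, hms, hxy⟩ := hcells c2 C (ry X) hc2.fix
    (fun c => (hX.ry_corner hc2.fix hc2.star_eq hc2e c).1)
    (fun c => (hX.ry_corner hc2.fix hc2.star_eq hc2e c).2) hX.ry_dm (by
      intro h hh hp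
      obtain ⟨ha0, hb0⟩ := H.ab_of_p hp
      have h3 := hX.ry_cov he hΛ hρ hκ1 (hD1 h hh) (by rw [ha0, hb0]; simp)
      rw [ha0, hb0] at h3
      simp only [norm_zero, add_zero, mul_zero, zero_mul, zero_add] at h3
      exact h3.trans hκc)
  have hZ0 : 0 < Z := by linarith
  have htail := hx.tail bs H.σ H.p_σ (fun g hg ζ hζ => (hxy g hg ζ hζ).1) 0 (ρ * Z)
    (8 * √Λ / Z * ‖T.ι e‖ ^ 2 + 2 * √κ1) (mul_pos hρ hZ0) hseg (by
      intro l t ht0 ht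
      obtain ⟨h3, h4, h5⟩ := HData.pos_of_seg (H := H) bs hρ hZ l t ht0 ht
      have h6 := hX.ry_cov he hΛ hρ hκ1 (hD2 l t ht0 ht) h4
      simp only [inner_zero_left, ch_zero, one_smul]
      refine h6.trans ?_
      have h7 : 2 * √Λ * ρ * (‖H.a (H.σ (t • bs l))‖ + ‖H.b (H.σ (t • bs l))‖) * ‖T.ι e‖ ^ 2
          = (2 * √Λ * ‖T.ι e‖ ^ 2)
            * (ρ * (‖H.a (H.σ (t • bs l))‖ + ‖H.b (H.σ (t • bs l))‖)) := by ring
      have h8 : (2 * √Λ * ‖T.ι e‖ ^ 2)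
            * (ρ * (‖H.a (H.σ (t • bs l))‖ + ‖H.b (H.σ (t • bs l))‖))
          ≤ (2 * √Λ * ‖T.ι e‖ ^ 2) * (4 / Z) := mul_le_mul_of_nonneg_left h5 (by positivity)
      have h9 : (2 * √Λ * ‖T.ι e‖ ^ 2) * (4 / Z) = 8 * √Λ / Z * ‖T.ι e‖ ^ 2 := by ring
      rw [h7]
      linarith)
  have hball := hx.mass_le hη hcov
  have hmsx : ∑ i, ‖T.ι (x i)‖ ^ 2 = ‖T.ι e‖ ^ 2 := by
    have h2 : T.ms x = ∑ i, ‖T.ι (x i)‖ ^ 2 := rfl
    rw [← h2, hms, hX.ry_ms]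
  -- from `y` to `x`
  have h1 := (hxy g' hg' 1 norm_one).2
  simp only [one_smul] at h1
  -- from `x` to the labels
  have h2 : ∑ i, ‖T.ι (S.α g' (x i) - x i)‖ ^ 2
      ≤ 2 * κ + 2 * ∑ i, ‖pch H.p (θ i) g' - 1‖ ^ 2 * ‖T.ι (x i)‖ ^ 2 := by
    have h3 := hx.ne g' hg'
    have h4 : ∀ i, ‖T.ι (S.α g' (x i) - x i)‖ ^ 2
        ≤ 2 * ‖T.ι (S.α g' (x i) - pch H.p (θ i) g' • x i)‖ ^ 2
          + 2 * (‖pch H.p (θ i) g' - 1‖ ^ 2 * ‖T.ι (x i)‖ ^ 2) := by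
      intro i
      have e1 : S.α g' (x i) - x i = (S.α g' (x i) - pch H.p (θ i) g' • x i)
          + (pch H.p (θ i) g' - 1) • x i := by
        rw [sub_smul, one_smul]
        abel
      have e2 : ‖T.ι (S.α g' (x i) - x i)‖ ≤ ‖T.ι (S.α g' (x i) - pch H.p (θ i) g' • x i)‖
          + ‖pch H.p (θ i) g' - 1‖ * ‖T.ι (x i)‖ := by
        rw [← norm_smul, ← map_smul]
        conv_lhs => rw [e1, map_add]
        exact norm_add_le _ _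
      rw [← mul_pow]
      refine (pow_le_pow_left₀ (norm_nonneg _) e2 2).trans ?_
      nlinarith [sq_nonneg (‖T.ι (S.α g' (x i) - pch H.p (θ i) g' • x i)‖
        - ‖pch H.p (θ i) g' - 1‖ * ‖T.ι (x i)‖)]
    refine (Finset.sum_le_sum fun i _ => h4 i).trans ?_
    rw [Finset.sum_add_distrib, ← Finset.mul_sum, ← Finset.mul_sum]
    linarith
  -- the labels
  have h5 : ∀ i, ‖pch H.p (θ i) g' - 1‖ ^ 2 * ‖T.ι (x i)‖ ^ 2
      ≤ 4 * (if √d * (ρ * Z) < ‖θ i - 0‖ then ‖T.ι (x i)‖ ^ 2 else 0)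
        + 4 * (if θ i ∈ {q : LV n | ‖q‖ ≤ √d * (ρ * Z) ∧ δ2 ≤ |⟪q, H.p g'⟫|} then ‖T.ι (x i)‖ ^ 2
          else 0)
        + δ2 ^ 2 * ‖T.ι (x i)‖ ^ 2 := by
    intro i
    have hx0 := sq_nonneg ‖T.ι (x i)‖
    have hle4 : ‖pch H.p (θ i) g' - 1‖ ^ 2 ≤ 4 := by
      have h6 : ‖pch H.p (θ i) g' - 1‖ ≤ 2 := by
        refine (norm_sub_le _ _).trans ?_
        rw [norm_pch, norm_one]
        norm_num
      nlinarith [norm_nonneg (pch H.p (θ i) g' - 1)]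
    have hle4' := mul_le_mul_of_nonneg_right hle4 hx0
    have hδ' : 0 ≤ δ2 ^ 2 * ‖T.ι (x i)‖ ^ 2 := by positivity
    have hif : 0 ≤ (if θ i ∈ {q : LV n | ‖q‖ ≤ √d * (ρ * Z) ∧ δ2 ≤ |⟪q, H.p g'⟫|}
        then ‖T.ι (x i)‖ ^ 2 else 0) := by
      split_ifs
      · exact hx0
      · exact le_rfl
    by_cases h : √d * (ρ * Z) < ‖θ i - 0‖
    · rw [if_pos h]
      linarith
    · rw [if_neg h]
      rw [sub_zero] at h
      by_cases h' : δ2 ≤ |⟪θ i, H.p g'⟫|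
      · have hm : θ i ∈ {q : LV n | ‖q‖ ≤ √d * (ρ * Z) ∧ δ2 ≤ |⟪q, H.p g'⟫|} := ⟨not_lt.1 h, h'⟩
        rw [if_pos hm]
        linarith
      · have h6 : ‖pch H.p (θ i) g' - 1‖ ^ 2 ≤ δ2 ^ 2 := by
          refine pow_le_pow_left₀ (norm_nonneg _) ?_ 2
          exact (norm_ch_sub_one_le _).trans (not_le.1 h').le
        have h7 := mul_le_mul_of_nonneg_right h6 hx0
        linarith
  have h6 := Finset.sum_le_sum fun i (_ : i ∈ Finset.univ) => h5 i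
  rw [Finset.sum_add_distrib, Finset.sum_add_distrib, ← Finset.mul_sum, ← Finset.mul_sum,
    ← Finset.mul_sum, hmsx] at h6
  linarith

end TrAct.Mlt

end

end Pool.Agent.AbCoc
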