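import Pool.Agent.Lib_MP_418a80_t3.Heis5

/-!
# The Heisenberg step, part 6: the main theorem

`TrAct.heis_main`: for two deciding sequences with closed groups of available labels `S1`, `S2`
and the largest subspaces `W1`, `W2` in them, `g ∈ W2ᗮ` implies `J g ∈ W1`.
-/

set_option autoImplicit false
set_option linter.unusedVariables false
set_option linter.unusedSectionVars false

open Topology Filter MeasureTheory
open scoped RealInnerProductSpace ComplexConjugate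

namespace Pool.Agent.AbCoc

universe u v w z

section
variable {V : Type z} [NormedAddCommGroup V] [InnerProductSpace ℝ V]

theorem inner_le_infDist (W : Submodule ℝ V) {g : V} (hg : g ∈ Wᗮ) (hg1 : ‖g‖ = 1) (q : V) :
    |⟪q, g⟫| ≤ Metric.infDist q (W : Set V) := by
  refine (Metric.le_infDist ⟨0, W.zero_mem⟩).2 fun w hw => ?_
  have h1 : ⟪w, g⟫ = 0 := (Submodule.mem_orthogonal W g).1 hg w hw
  have h2 : ⟪q, g⟫ = ⟪q - w, g⟫ := by rw [inner_sub_left, h1, sub_zero]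
  rw [h2, dist_eq_norm]
  refine (abs_real_inner_le_norm _ _).trans ?_
  rw [hg1, mul_one]

private theorem heis6_mul {d x b : ℝ} (hx : 0 ≤ x) (h : (d + 1) * x ≤ b) : d * x ≤ b := by
  have e : (d + 1) * x = d * x + x := by ring
  rw [e] at h
  linarith

private theorem heis6_one {d x b : ℝ} (hd : 0 ≤ d) (hx : 0 ≤ x) (h : (d + 1) * x ≤ b) : x ≤ b := by
  have e : (d + 1) * x = d * x + x := by ring
  have h1 := mul_nonneg hd hx
  rw [e] at h
  linarith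

private theorem heis6_pos {E : Type*} [NormedAddCommGroup E] [InnerProductSpace ℝ E]
    [FiniteDimensional ℝ E] (W : Submodule ℝ E) {v : E} (h : v ∉ W) :
    0 < Metric.infDist v (W : Set E) :=
  (W.closed_of_finiteDimensional.notMem_iff_infDist_pos ⟨0, W.zero_mem⟩).1 h

private theorem heis6_cont {E : Type*} [NormedAddCommGroup E] [NormedSpace ℝ E] (v : E) :
    Continuous fun t : ℝ => t • v := continuous_id.smul continuous_const

theorem infDist_smul_ge (W : Submodule ℝ V) (v : V) (c : ℝ) (hc : c ≠ 0) :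
    |c| * Metric.infDist v (W : Set V) ≤ Metric.infDist (c • v) (W : Set V) := by
  refine (Metric.le_infDist ⟨0, W.zero_mem⟩).2 fun w hw => ?_
  have h1 : Metric.infDist v (W : Set V) ≤ dist v (c⁻¹ • w) :=
    Metric.infDist_le_dist_of_mem (W.smul_mem _ hw)
  have h2 : dist (c • v) w = |c| * dist v (c⁻¹ • w) := by
    have h3 : c • v - w = c • (v - c⁻¹ • w) := by
      rw [smul_sub, smul_smul, mul_inv_cancel₀ hc, one_smul]
    rw [dist_eq_norm, dist_eq_norm, h3, norm_smul, Real.norm_eq_abs]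
  rw [h2]
  exact mul_le_mul_of_nonneg_left h1 (abs_nonneg c)

end

section
variable {A : Type u} [CStarAlgebra A] {K : Type v} [NormedAddCommGroup K]
  [InnerProductSpace ℂ K] [CompleteSpace K]
variable {G : Type w} [Group G] [TopologicalSpace G] [IsTopologicalGroup G] {T : TrAlg A K}
  (S : TrAct G T) {n : ℕ}

/-- near-eigen elements of `ker a` of all types `ρ ^ 2 ξ` between two corners, mass bounded below
independently of the type and of the level -/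
def TrAct.EigIn (H : HData G n) : Prop :=
  ∀ c1 c2 : A, S.IsPrj c1 → S.IsPrj c2 → c1 ≠ 0 → c2 ≠ 0 → ∃ m0 : ℝ, 0 < m0 ∧
    ∀ (ρ : ℝ) (D : Set G), IsCompact D → ∀ κ : ℝ, 0 < κ →
      ∃ e : A, c1 * e = e ∧ e * c2 = e ∧ ‖e‖ ≤ 1 ∧ m0 ≤ ‖T.ι e‖ ^ 2 ∧
        ∀ h ∈ D, H.a h = 0 → ‖T.ι (S.α h e - ch (ρ ^ 2 * H.ξ h) • e)‖ ≤ κ

variable {S}

theorem TrAct.heis_unit (H : HData G n) {Bk : ℕ → Set (LV n)} {b1 b2 : ℕ → A}
    (h1 : S.Dec (pch H.p) Bk b1) (h2 : S.Dec (pch H.p) Bk b2) (hBk : ∀ k, IsOpen (Bk k))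
    (S1 S2 : AddSubgroup (LV n)) (hS1 : (S1 : Set (LV n)) = S.SF (pch H.p) Bk b1)
    (hS2 : (S2 : Set (LV n)) = S.SF (pch H.p) Bk b2) (W1 W2 : Submodule ℝ (LV n))
    (hW1 : ∀ q, q ∈ W1 ↔ ∀ c : ℝ, c • q ∈ S1) (hW2 : ∀ q, q ∈ W2 ↔ ∀ c : ℝ, c • q ∈ S2)
    (hE : S.EigIn H) {g : LV n} (hg : g ∈ W2ᗮ) (hg1 : ‖g‖ = 1) : Jm g ∈ W1 := by
  classical
  by_contra hJ
  have hS1c : IsClosed (S1 : Set (LV n)) := by rw [hS1]; exact TrAct.Dec.isClosed_SF S h1 hBk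
  have hS2c : IsClosed (S2 : Set (LV n)) := by rw [hS2]; exact TrAct.Dec.isClosed_SF S h2 hBk
  obtain ⟨Λ, hΛ, hmlt⟩ := S.exists_mlt H
  obtain ⟨d, hd⟩ : ∃ d : ℕ, d = Module.finrank ℝ (LV n) := ⟨_, rfl⟩
  obtain ⟨bs⟩ : Nonempty (OrthonormalBasis (Fin d) ℝ (LV n)) := by
    rw [hd]
    exact ⟨stdOrthonormalBasis ℝ (LV n)⟩
  -- constants
  obtain ⟨Z, hZ⟩ : ∃ Z : ℝ, Z = 4 + 16384 * (d * √Λ) := ⟨_, rfl⟩
  have hdΛ : 0 ≤ d * √Λ := by positivity
  have hZ4 : 4 ≤ Z := by rw [hZ]; linarith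
  have hZ0 : 0 < Z := by linarith
  have hZΛ : d * √Λ / Z ≤ 1 / 16384 := by
    rw [div_le_div_iff₀ hZ0 (by norm_num)]
    linarith
  obtain ⟨z', hz'⟩ : ∃ z' : ℝ, z' = √d * Z := ⟨_, rfl⟩
  have hz'0 : 0 ≤ z' := by rw [hz']; positivity
  obtain ⟨d0, hd0⟩ : ∃ d0 : ℝ, d0 = Metric.infDist (Jm g) (W1 : Set (LV n)) := ⟨_, rfl⟩
  have hd0pos : 0 < d0 := by
    rw [hd0]
    exact heis6_pos W1 hJ
  obtain ⟨Kc, hK⟩ : ∃ Kc : ℝ, Kc = (z' + 1) / d0 := ⟨_, rfl⟩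
  have hK0 : 0 < Kc := by rw [hK]; positivity
  have hKd : Kc * d0 = z' + 1 := by rw [hK, div_mul_cancel₀ _ hd0pos.ne']
  obtain ⟨r1, hr1, hcone1⟩ := tangent_cone S1 hS1c W1 hW1 (1 / (2 * (Kc + z'))) (by positivity)
  obtain ⟨r2, hr2, hcone2⟩ := tangent_cone S2 hS2c W2 hW2 (1 / (16 * (Kc * z' + 1)))
    (by positivity)
  obtain ⟨ρ, hρ⟩ : ∃ ρ : ℝ, ρ = min r1 r2 / (Kc + z' + 1) := ⟨_, rfl⟩
  have hρ0 : 0 < ρ := by
    rw [hρ]
    exact div_pos (lt_min hr1 hr2) (by positivity)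
  have hρr : ρ * (Kc + z' + 1) = min r1 r2 := by
    rw [hρ, div_mul_cancel₀ _ (by positivity)]
  have hρ1 : ρ * (Kc + z') ≤ r1 := by
    have : ρ * (Kc + z') ≤ ρ * (Kc + z' + 1) := mul_le_mul_of_nonneg_left (by linarith) hρ0.le
    exact this.trans (hρr.le.trans (min_le_left _ _))
  have hρ2 : ρ * z' ≤ r2 := by
    have : ρ * z' ≤ ρ * (Kc + z' + 1) := mul_le_mul_of_nonneg_left (by linarith) hρ0.le
    exact this.trans (hρr.le.trans (min_le_right _ _))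
  have hrad : √d * (ρ * Z) = ρ * z' := by rw [hz']; ring
  -- the group element
  obtain ⟨g', hg'⟩ : ∃ g' : G, g' = H.σ ((Kc / ρ) • g) := ⟨_, rfl⟩
  have hpg' : H.p g' = (Kc / ρ) • g := by rw [hg', H.p_σ]
  have hq0 : -(ρ ^ 2) • Jm (H.p g') = -(ρ * Kc) • Jm g := by
    rw [hpg', Jm_smul, smul_smul]
    congr 1
    field_simp
  have hJg1 : ‖Jm g‖ = 1 := by rw [norm_Jm, hg1]
  have hρK : 0 < ρ * Kc := mul_pos hρ0 hK0
  -- first forbidden set
  have hdis1 : ∀ q ∈ Metric.closedBall (-(ρ ^ 2) • Jm (H.p g')) (√d * (ρ * Z)),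
      q ∉ S.SF (pch H.p) Bk b1 := by
    intro q hq hqS
    rw [← hS1] at hqS
    rw [hrad, hq0, mem_closedBall_iff_norm] at hq
    have hn0 : ‖-(ρ * Kc) • Jm g‖ = ρ * Kc := by
      rw [norm_smul, hJg1, mul_one, Real.norm_eq_abs, abs_neg, abs_of_pos hρK]
    have hqn : ‖q‖ ≤ ρ * (Kc + z') := by
      have h3 := norm_add_le (q - -(ρ * Kc) • Jm g) (-(ρ * Kc) • Jm g)
      rw [sub_add_cancel, hn0] at h3
      linarith
    have h4 := hcone1 q hqS (hqn.trans hρ1)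
    have h5 : 1 / (2 * (Kc + z')) * ‖q‖ ≤ ρ / 2 := by
      rw [div_mul_eq_mul_div, one_mul, div_le_iff₀ (by positivity)]
      linarith
    have h6 : Metric.infDist (-(ρ * Kc) • Jm g) (W1 : Set (LV n))
        ≤ Metric.infDist q (W1 : Set (LV n)) + dist (-(ρ * Kc) • Jm g) q :=
      Metric.infDist_le_infDist_add_dist
    have h7 := infDist_smul_ge W1 (Jm g) (-(ρ * Kc)) (neg_ne_zero.2 hρK.ne')
    rw [← hd0, abs_neg, abs_of_pos hρK] at h7
    have h8 : ρ * Kc * d0 = ρ * (z' + 1) := by rw [mul_assoc, hKd]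
    rw [dist_comm, dist_eq_norm] at h6
    have h9 : ρ * (z' + 1) = ρ * z' + ρ := by ring
    linarith
  -- second forbidden set
  have hdis2 : ∀ q ∈ {q : LV n | ‖q‖ ≤ √d * (ρ * Z) ∧ 1 / 8 ≤ |⟪q, H.p g'⟫|},
      q ∉ S.SF (pch H.p) Bk b2 := by
    rintro q ⟨hqn, hqi⟩ hqS
    rw [← hS2] at hqS
    rw [hrad] at hqn
    have h4 := hcone2 q hqS (hqn.trans hρ2)
    have h5 := inner_le_infDist W2 hg hg1 q
    rw [hpg', inner_smul_right, abs_mul, abs_of_pos (div_pos hK0 hρ0)] at hqi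
    have h6 : |⟪q, g⟫| ≤ 1 / (16 * (Kc * z' + 1)) * (ρ * z') :=
      h5.trans (h4.trans (mul_le_mul_of_nonneg_left hqn (by positivity)))
    have h7 : Kc / ρ * |⟪q, g⟫| ≤ Kc / ρ * (1 / (16 * (Kc * z' + 1)) * (ρ * z')) :=
      mul_le_mul_of_nonneg_left h6 (by positivity)
    have h8 : Kc / ρ * (1 / (16 * (Kc * z' + 1)) * (ρ * z')) = Kc * z' / (16 * (Kc * z' + 1)) := by
      field_simp
    have h9 : Kc * z' / (16 * (Kc * z' + 1)) ≤ 1 / 16 := by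
      rw [div_le_div_iff₀ (by positivity) (by norm_num)]
      linarith
    linarith
  have hE2c : IsCompact {q : LV n | ‖q‖ ≤ √d * (ρ * Z) ∧ 1 / 8 ≤ |⟪q, H.p g'⟫|} := by
    refine (isCompact_closedBall (0 : LV n) (√d * (ρ * Z))).of_isClosed_subset ?_ ?_
    · have hc : Continuous fun q : LV n => |⟪q, H.p g'⟫| :=
        (Continuous.inner (𝕜 := ℝ) continuous_id continuous_const).abs
      exact (isClosed_le continuous_norm continuous_const).inter (isClosed_le continuous_const hc)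
    · rintro q ⟨hq, _⟩
      rw [mem_closedBall_zero_iff]
      exact hq
  obtain ⟨n1, hn1⟩ := TrAct.Dec.cover S h1 hBk _ (isCompact_closedBall _ _) hdis1
  obtain ⟨n2, hn2⟩ := TrAct.Dec.cover S h2 hBk _ hE2c hdis2
  obtain ⟨m0, hm0, heig⟩ := hE (b1 n1) (b2 n2) (h1.prj n1) (h2.prj n2) (h1.ne n1) (h2.ne n2)
  obtain ⟨D1, κ1', hD1c, hκ1', hcov1⟩ := hn1 n1 le_rfl 1 (m0 / 256) (by positivity)
  obtain ⟨D2, κ2', hD2c, hκ2', hcov2⟩ := hn2 n2 le_rfl 1 (m0 / 256) (by positivity)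
  obtain ⟨κ, hκ⟩ : ∃ κ : ℝ, κ = min (min κ1' κ2') (m0 / (8192 * (d + 1))) := ⟨_, rfl⟩
  have hκ0 : 0 < κ := by
    rw [hκ]
    exact lt_min (lt_min hκ1' hκ2') (by positivity)
  have hκle1 : κ ≤ κ1' := by rw [hκ]; exact (min_le_left _ _).trans (min_le_left _ _)
  have hκle2 : κ ≤ κ2' := by rw [hκ]; exact (min_le_left _ _).trans (min_le_right _ _)
  have hκle3 : (d + 1) * κ ≤ m0 / 8192 := by
    have h3 : κ ≤ m0 / (8192 * (d + 1)) := by rw [hκ]; exact min_le_right _ _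
    rw [le_div_iff₀ (by positivity)] at h3
    rw [le_div_iff₀ (by norm_num)]
    linarith
  -- segments
  obtain ⟨Seg, hSeg⟩ : ∃ Seg : Set G, Seg = ⋃ l : Fin d, (fun t : ℝ => H.σ (t • bs l)) ''
    Set.Icc 0 (2 / (ρ * Z)) := ⟨_, rfl⟩
  have hSegc : IsCompact Seg := by
    rw [hSeg]
    refine isCompact_iUnion fun l => isCompact_Icc.image ?_
    exact H.continuous_σ.comp (heis6_cont (bs l))
  have hSegm : ∀ (l : Fin d) (t : ℝ), 0 ≤ t → t ≤ 2 / (ρ * Z) → H.σ (t • bs l) ∈ Seg := by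
    intro l t ht0 ht
    rw [hSeg]
    exact Set.mem_iUnion.2 ⟨l, ⟨t, ⟨ht0, ht⟩, rfl⟩⟩
  obtain ⟨Dc1, κc1, hDc1, hκc1, hcells1⟩ := S.exists_cells H.p H.continuous_p H.p_mul H.σ
    H.continuous_σ H.p_σ (D1 ∪ Seg) (hD1c.union hSegc) κ 1 hκ0
  obtain ⟨Dc2, κc2, hDc2, hκc2, hcells2⟩ := S.exists_cells H.p H.continuous_p H.p_mul H.σ
    H.continuous_σ H.p_σ ((D2 ∪ Seg) ∪ {g'}) ((hD2c.union hSegc).union isCompact_singleton) κ 1 hκ0
  -- the level of the multiplet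
  obtain ⟨DM, hDM⟩ : ∃ DM : Set G, DM = ((Dc1 ∪ Seg) ∪ (fun h => g'⁻¹ * h * g') '' (Dc1 ∪ Seg))
    ∪ Dc2 := ⟨_, rfl⟩
  have hDMc : IsCompact DM := by
    rw [hDM]
    refine (((hDc1.union hSegc).union ((hDc1.union hSegc).image ?_))).union hDc2
    exact (continuous_const.mul continuous_id).mul continuous_const
  obtain ⟨s, hs⟩ : ∃ s : ℝ, s = min (min (κc1 / 4) (κc2 / 2)) (m0 / (8192 * (d + 1))) :=
    ⟨_, rfl⟩
  have hs0 : 0 < s := by
    rw [hs]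
    exact lt_min (lt_min (by positivity) (by positivity)) (by positivity)
  have hs1 : 4 * s ≤ κc1 := by
    have : s ≤ κc1 / 4 := by rw [hs]; exact (min_le_left _ _).trans (min_le_left _ _)
    linarith
  have hs2 : 2 * s ≤ κc2 := by
    have : s ≤ κc2 / 2 := by rw [hs]; exact (min_le_left _ _).trans (min_le_right _ _)
    linarith
  have hs3 : (d + 1) * s ≤ m0 / 8192 := by
    have h3 : s ≤ m0 / (8192 * (d + 1)) := by rw [hs]; exact min_le_right _ _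
    rw [le_div_iff₀ (by positivity)] at h3
    rw [le_div_iff₀ (by norm_num)]
    linarith
  have hsq : √(s ^ 2) = s := Real.sqrt_sq hs0.le
  obtain ⟨De, κe, hDec, hκe, hX⟩ := hmlt ρ hρ0 DM hDMc (s ^ 2) (by positivity)
  obtain ⟨e, hb1e, heb2, he1, hem, heeig⟩ := heig ρ De hDec κe hκe
  obtain ⟨C, _, X, lam, hX⟩ := hX e he1 heeig
  -- left
  have hleft := hX.left_mass he1 hΛ hρ0 (by positivity) g' (h1.prj n1) hb1e bs hZ4
    (η := m0 / 256) (by positivity) hcells1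
    (fun J _ y r hy => hcov1 J y r (hy.mono subset_rfl Set.subset_union_left hκle1 le_rfl))
    (fun l t ht0 ht => Or.inr (hSegm l t ht0 ht))
    (fun h hh => by
      rw [hDM]
      exact ⟨Or.inl (Or.inl (Or.inl hh)), Or.inl (Or.inr ⟨h, Or.inl hh, rfl⟩)⟩)
    (fun l t ht0 ht => by
      rw [hDM]
      exact ⟨Or.inl (Or.inl (Or.inr (hSegm l t ht0 ht))),
        Or.inl (Or.inr ⟨_, Or.inr (hSegm l t ht0 ht), rfl⟩)⟩)
    (by rw [hsq]; exact hs1)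
  -- right
  have hright := hX.right_inv he1 hΛ hρ0 (by positivity) g' (h2.prj n2) heb2 bs hZ4
    (η := m0 / 256) (δ2 := 1 / 8) (by positivity) (by norm_num) hcells2
    (fun J _ y r hy => hcov2 J y r (hy.mono subset_rfl
      (Set.subset_union_left.trans Set.subset_union_left) hκle2 le_rfl))
    (fun l t ht0 ht => Or.inl (Or.inr (hSegm l t ht0 ht)))
    (Or.inr rfl)
    (fun h hh => by
      rw [hDM]
      exact Or.inr hh)
    (fun l t ht0 ht => by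
      rw [hDM]
      exact Or.inl (Or.inl (Or.inr (hSegm l t ht0 ht))))
    (by rw [hsq]; exact hs2)
  rw [hsq] at hleft hright
  have hover := hX.overlap g'
  obtain ⟨m, hm⟩ : ∃ m : ℝ, m = ‖T.ι e‖ ^ 2 := ⟨_, rfl⟩
  rw [← hm] at hleft hright hover hem
  have hm0' : 0 < m := hm0.trans_le hem
  have hd0' : (0 : ℝ) ≤ d := Nat.cast_nonneg d
  have hdκ : d * κ ≤ m0 / 8192 := heis6_mul hκ0.le hκle3
  have hds : d * s ≤ m0 / 8192 := heis6_mul hs0.le hs3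
  have hκs : κ ≤ m0 / 8192 := heis6_one hd0' hκ0.le hκle3
  have hΛm : d * √Λ / Z * m ≤ 1 / 16384 * m := mul_le_mul_of_nonneg_right hZΛ hm0'.le
  have hleft2 : T.ms (S.ly g' X) ≤ m / 64 := by
    refine hleft.trans ?_
    have e1 : (d : ℝ) * (4 * κ + 4 * (16 * √Λ / Z * m + 4 * s))
        = 4 * (d * κ) + 64 * (d * √Λ / Z * m) + 16 * (d * s) := by ring
    rw [e1]
    linarith
  have hright2 : ∑ c, ‖T.ι (S.α g' (ry X c) - ry X c)‖ ^ 2 ≤ m / 2 := by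
    refine hright.trans ?_
    have e1 : 5 * κ + 4 * (4 * ((d : ℝ) * (4 * κ + 4 * (8 * √Λ / Z * m + 2 * s)))
        + 4 * (m0 / 256) + (1 / 8) ^ 2 * m)
        = 5 * κ + 64 * (d * κ) + 512 * (d * √Λ / Z * m) + 128 * (d * s) + m0 / 16 + m / 16 := by
      ring
    rw [e1]
    linarith
  have hsm : √(T.ms (S.ly g' X)) ≤ ‖T.ι e‖ / 8 := by
    rw [Real.sqrt_le_left (by positivity)]
    refine hleft2.trans (le_of_eq ?_)
    rw [hm, div_pow]
    norm_num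
  have hfin : 4 * ‖T.ι e‖ * √(T.ms (S.ly g' X)) ≤ m / 2 := by
    calc 4 * ‖T.ι e‖ * √(T.ms (S.ly g' X)) ≤ 4 * ‖T.ι e‖ * (‖T.ι e‖ / 8) :=
          mul_le_mul_of_nonneg_left hsm (by positivity)
      _ = m / 2 := by rw [hm]; ring
  linarith

/-- THE HEISENBERG STEP -/
theorem TrAct.heis_main (H : HData G n) {Bk : ℕ → Set (LV n)} {b1 b2 : ℕ → A}
    (h1 : S.Dec (pch H.p) Bk b1) (h2 : S.Dec (pch H.p) Bk b2) (hBk : ∀ k, IsOpen (Bk k))
    (S1 S2 : AddSubgroup (LV n)) (hS1 : (S1 : Set (LV n)) = S.SF (pch H.p) Bk b1)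
    (hS2 : (S2 : Set (LV n)) = S.SF (pch H.p) Bk b2) (W1 W2 : Submodule ℝ (LV n))
    (hW1 : ∀ q, q ∈ W1 ↔ ∀ c : ℝ, c • q ∈ S1) (hW2 : ∀ q, q ∈ W2 ↔ ∀ c : ℝ, c • q ∈ S2)
    (hE : S.EigIn H) {g : LV n} (hg : g ∈ W2ᗮ) : Jm g ∈ W1 := by
  rcases eq_or_ne g 0 with rfl | hg0
  · rw [Jm_zero]
    exact W1.zero_mem
  have hn : 0 < ‖g‖ := norm_pos_iff.2 hg0
  have h3 := TrAct.heis_unit H h1 h2 hBk S1 S2 hS1 hS2 W1 W2 hW1 hW2 hE
    (g := (‖g‖)⁻¹ • g) (W2ᗮ.smul_mem _ hg)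
    (by rw [norm_smul, norm_inv, norm_norm, inv_mul_cancel₀ hn.ne'])
  have h4 := W1.smul_mem ‖g‖ h3
  rwa [Jm_smul, smul_smul, mul_inv_cancel₀ hn.ne', one_smul] at h4

end

end Pool.Agent.AbCoc
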