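import Pool.Agent.Lib_MP_418a80_t3.Lab0
import Pool.Agent.Lib_MP_418a80_hyp.Supp

/-!
# Monotone limits and spectral projections
-/

set_option autoImplicit false
set_option linter.unusedVariables false
set_option linter.unusedSectionVars false

open Topology Filter MeasureTheory

namespace Pool.Agent.AbCoc

universe u v w z

attribute [local instance] CStarAlgebra.spectralOrder CStarAlgebra.spectralOrderedRing

section
variable {A : Type u} [CStarAlgebra A] {K : Type v} [NormedAddCommGroup K]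
  [InnerProductSpace ℂ K] (T : TrAlg A K)

theorem TrAlg.re_τ_mono {a b : A} (h : a ≤ b) : (T.τ a).re ≤ (T.τ b).re := by
  have h1 := T.re_τ_nonneg (b - a) (sub_nonneg.2 h)
  rw [T.τ_sub, Complex.sub_re] at h1
  linarith

/-- bounded increasing sequences converge in `2`-norm -/
theorem TrAlg.exists_mono_lim (w : ℕ → A) (hm : Monotone w) (h0 : 0 ≤ w 0) (c : A)
    (hc : ∀ n, w n ≤ c) :
    ∃ w' : A, Tendsto (fun n => T.ι (w n)) atTop (𝓝 (T.ι w')) ∧ (∀ n, w n ≤ w') ∧ w' ≤ c := by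
  have hn0 : ∀ n, 0 ≤ w n := fun n => h0.trans (hm (Nat.zero_le n))
  have hwn : ∀ n, ‖w n‖ ≤ ‖c‖ := fun n =>
    CStarAlgebra.norm_le_norm_of_nonneg_of_le (hn0 n) (hc n)
  obtain ⟨t, ht⟩ : ∃ t : ℕ → ℝ, ∀ n, t n = (T.τ (w n)).re := ⟨_, fun _ => rfl⟩
  have htm : Monotone t := by
    intro m n hmn
    rw [ht, ht]
    exact T.re_τ_mono (hm hmn)
  have htb : BddAbove (Set.range t) := by
    refine ⟨(T.τ c).re, ?_⟩
    rintro _ ⟨n, rfl⟩
    rw [ht]
    exact T.re_τ_mono (hc n)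
  have htc : CauchySeq t := (tendsto_atTop_ciSup htm htb).cauchySeq
  have key1 : ∀ m n, n ≤ m → ‖T.ι (w m) - T.ι (w n)‖ ^ 2 ≤ ‖c‖ * |t m - t n| := by
    intro m n hnm
    have hd : 0 ≤ w m - w n := sub_nonneg.2 (hm hnm)
    have hdc : w m - w n ≤ c := by
      have : w m - w n ≤ w m := sub_le_self _ (hn0 n)
      exact this.trans (hc m)
    have hdn : ‖w m - w n‖ ≤ ‖c‖ := CStarAlgebra.norm_le_norm_of_nonneg_of_le hd hdc
    have hsa : star (w m - w n) = w m - w n := (IsSelfAdjoint.of_nonneg hd).star_eq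
    rw [← map_sub, T.norm_sq, hsa]
    refine (Complex.re_le_norm _).trans ((T.norm_τ_mul_le (w m - w n) hd).trans ?_)
    have h3 : (T.τ (w m - w n)).re = t m - t n := by rw [T.τ_sub, Complex.sub_re, ht, ht]
    have h4 : 0 ≤ t m - t n := sub_nonneg.2 (htm hnm)
    rw [h3, abs_of_nonneg h4]
    exact mul_le_mul_of_nonneg_right hdn h4
  have key : ∀ m n, ‖T.ι (w m) - T.ι (w n)‖ ^ 2 ≤ ‖c‖ * |t m - t n| := by
    intro m n
    rcases le_total n m with h | h
    · exact key1 m n h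
    · rw [norm_sub_rev, abs_sub_comm]
      exact key1 n m h
  have hcau : CauchySeq fun n => T.ι (w n) := by
    rw [Metric.cauchySeq_iff']
    intro ε hε
    obtain ⟨N, hN⟩ := Metric.cauchySeq_iff'.1 htc (ε ^ 2 / (‖c‖ + 1)) (by positivity)
    refine ⟨N, fun n hn => ?_⟩
    rw [dist_eq_norm]
    have h1 := hN n hn
    rw [Real.dist_eq] at h1
    have h2 := key n N
    have h3 : ‖c‖ * |t n - t N| < ε ^ 2 := by
      have h4 : ‖c‖ * |t n - t N| ≤ (‖c‖ + 1) * |t n - t N| :=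
        mul_le_mul_of_nonneg_right (by linarith) (abs_nonneg _)
      have h5 : (‖c‖ + 1) * |t n - t N| < (‖c‖ + 1) * (ε ^ 2 / (‖c‖ + 1)) :=
        mul_lt_mul_of_pos_left h1 (by positivity)
      have h6 : (‖c‖ + 1) * (ε ^ 2 / (‖c‖ + 1)) = ε ^ 2 := by field_simp
      linarith
    exact lt_of_pow_lt_pow_left₀ 2 hε.le (h2.trans_lt h3)
  obtain ⟨y, hy⟩ := T.complete ‖c‖ w hwn hcau
  refine ⟨y, hy, fun n => ?_, ?_⟩
  · rw [← sub_nonneg]
    refine T.nonneg_of_tendsto (x := fun m => w (m + n) - w n)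
      (fun m => sub_nonneg.2 (hm (Nat.le_add_left n m))) ?_
    simp only [map_sub]
    exact ((tendsto_add_atTop_iff_nat n).2 hy).sub_const _
  · rw [← sub_nonneg]
    refine T.nonneg_of_tendsto (x := fun m => c - w m) (fun m => sub_nonneg.2 (hc m)) ?_
    simp only [map_sub]
    exact tendsto_const_nhds.sub hy

end

section
variable {A : Type u} [CStarAlgebra A] {K : Type v} [NormedAddCommGroup K]
  [InnerProductSpace ℂ K] [CompleteSpace K]
  {G : Type w} [Group G] [TopologicalSpace G] {T : TrAlg A K} (S : TrAct G T)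

/-- `2`-norm limits of fixed elements are fixed -/
theorem TrAct.fixed_of_tendsto {x : ℕ → A} {y : A} (hx : ∀ n, S.Fixed (x n))
    (h : Tendsto (fun n => T.ι (x n)) atTop (𝓝 (T.ι y))) : S.Fixed y := by
  intro g
  have h1 : Tendsto (fun n => T.ι (x n)) atTop (𝓝 (T.ι (S.α g y))) := by
    rw [tendsto_iff_norm_sub_tendsto_zero] at h ⊢
    refine h.congr fun n => ?_
    rw [← map_sub, ← map_sub, ← S.norm_map g (x n - y), map_sub, hx n g]
  exact T.tendsto_unique h1 h

/-- a nonzero spectral projection of a nonzero positive fixed element `R`; it is a multiple of `R`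
in the fixed point algebra -/
theorem TrAct.exists_prj_mul {R : A} (hR : 0 ≤ R) (h0 : R ≠ 0) (hf : S.Fixed R) :
    ∃ (p c : A) (k : ℝ), S.IsPrj p ∧ p ≠ 0 ∧ 0 < k ∧ p ≤ k • R ∧ S.Fixed c ∧ 0 ≤ c ∧
      p = R * c ∧ p = c * R := by
  have hsa : IsSelfAdjoint R := IsSelfAdjoint.of_nonneg hR
  have hnR : 0 < ‖R‖ := norm_pos_iff.2 h0
  obtain ⟨θ, hθ⟩ : ∃ θ : ℝ, θ = ‖R‖ / 2 := ⟨_, rfl⟩
  have hθ0 : 0 < θ := by rw [hθ]; positivity
  have hspec : ∀ t ∈ spectrum ℝ R, 0 ≤ t := fun t ht => spectrum_nonneg_of_nonneg hR ht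
  obtain ⟨φ, hφ⟩ : ∃ φ : ℕ → ℝ → ℝ, ∀ n t, φ n t = min (max ((t - θ) * 2 ^ (n + 1) - 1) 0) 1 :=
    ⟨_, fun _ _ => rfl⟩
  have hφc : ∀ n, Continuous (φ n) := by
    intro n
    rw [funext (hφ n)]
    fun_prop
  have hφ0 : ∀ n t, 0 ≤ φ n t := fun n t => by
    rw [hφ]; exact le_min (le_max_right _ _) zero_le_one
  have hφ1 : ∀ n t, φ n t ≤ 1 := fun n t => by rw [hφ]; exact min_le_right _ _
  have hφθ : ∀ n t, t ≤ θ → φ n t = 0 := by
    intro n t ht
    rw [hφ, max_eq_right, min_eq_left zero_le_one]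
    have : (t - θ) * 2 ^ (n + 1) ≤ 0 :=
      mul_nonpos_of_nonpos_of_nonneg (by linarith) (by positivity)
    linarith
  have hφm : ∀ n t, φ n t ≤ φ (n + 1) t := by
    intro n t
    rcases le_total t θ with h | h
    · rw [hφθ n t h]; exact hφ0 _ _
    · rw [hφ, hφ]
      refine min_le_min (max_le_max ?_ le_rfl) le_rfl
      have h1 : (2 : ℝ) ^ (n + 1) ≤ 2 ^ (n + 1 + 1) :=
        pow_le_pow_right₀ (by norm_num) (Nat.le_succ _)
      have h2 := mul_le_mul_of_nonneg_left h1 (sub_nonneg.2 h)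
      linarith
  have hφφ : ∀ n t, φ n t * φ (n + 1) t = φ n t := by
    intro n t
    rcases eq_or_ne (φ n t) 0 with h | h
    · rw [h, zero_mul]
    · have h1 : 1 < (t - θ) * 2 ^ (n + 1) := by
        by_contra hc
        push Not at hc
        apply h
        rw [hφ, max_eq_right (by linarith), min_eq_left zero_le_one]
      have h2 : φ (n + 1) t = 1 := by
        have h3 : (t - θ) * 2 ^ (n + 1 + 1) = 2 * ((t - θ) * 2 ^ (n + 1)) := by ring
        rw [hφ, h3, max_eq_left (by linarith), min_eq_right (by linarith)]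
      rw [h2, mul_one]
  have hφt : ∀ n, ∀ t ∈ spectrum ℝ R, φ n t ≤ θ⁻¹ * t := by
    intro n t ht
    have h0 := hspec t ht
    rcases le_total t θ with h | h
    · rw [hφθ n t h]; positivity
    · refine (hφ1 n t).trans ?_
      rw [← div_eq_inv_mul, le_div_iff₀ hθ0, one_mul]
      exact h
  have hid : cfc (fun t : ℝ => t) R = R := cfc_id' ℝ R
  obtain ⟨p, hp⟩ : ∃ p : ℕ → A, ∀ n, p n = cfc (φ n) R := ⟨_, fun _ => rfl⟩
  have hp0 : ∀ n, 0 ≤ p n := fun n => by
    rw [hp]; exact cfc_nonneg fun t _ => hφ0 n t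
  have hpm : Monotone p := by
    refine monotone_nat_of_le_succ fun n => ?_
    rw [hp, hp]
    exact cfc_mono (fun t _ => hφm n t) (hφc n).continuousOn (hφc (n + 1)).continuousOn
  have hpR : ∀ n, p n ≤ θ⁻¹ • R := by
    intro n
    have h1 : θ⁻¹ • R = cfc (fun t : ℝ => θ⁻¹ * t) R := by
      have h2 := cfc_const_mul (θ⁻¹ : ℝ) (fun t : ℝ => t) R continuous_id.continuousOn
      rw [h2, hid]
    rw [h1, hp]
    exact cfc_mono (hφt n) (hφc n).continuousOn (by fun_prop)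
  have hpp : ∀ n, p n * p (n + 1) = p n := by
    intro n
    rw [hp, hp, ← cfc_mul (φ n) (φ (n + 1)) R (hφc n).continuousOn (hφc (n + 1)).continuousOn]
    exact cfc_congr fun t _ => hφφ n t
  have hpf : ∀ n, S.Fixed (p n) := fun n => by
    rw [hp]; exact S.fixed_cfc hsa hf (hφc n)
  obtain ⟨q, hq, hqn, hqR⟩ := T.exists_mono_lim p hpm (hp0 0) (θ⁻¹ • R) hpR
  have hq0 : 0 ≤ q := (hp0 0).trans (hqn 0)
  -- the inverse of the cut element
  obtain ⟨ψ, hψ⟩ : ∃ ψ : ℕ → ℝ → ℝ, ∀ n t, ψ n t = φ n t / max t θ := ⟨_, fun _ _ => rfl⟩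
  have hmax : ∀ t : ℝ, 0 < max t θ := fun t => lt_of_lt_of_le hθ0 (le_max_right _ _)
  have hψc : ∀ n, Continuous (ψ n) := by
    intro n
    rw [funext (hψ n)]
    exact (hφc n).div (continuous_id.max continuous_const) fun t => (hmax t).ne'
  have hψ0 : ∀ n t, 0 ≤ ψ n t := fun n t => by
    rw [hψ]; exact div_nonneg (hφ0 n t) (hmax t).le
  have htψ : ∀ n t, t * ψ n t = φ n t := by
    intro n t
    rcases le_total t θ with h | h
    · rw [hψ, hφθ n t h, zero_div, mul_zero]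
    · rw [hψ, max_eq_left h]
      have : t ≠ 0 := (lt_of_lt_of_le hθ0 h).ne'
      field_simp
  obtain ⟨c, hc⟩ : ∃ c : ℕ → A, ∀ n, c n = cfc (ψ n) R := ⟨_, fun _ => rfl⟩
  have hc0 : ∀ n, 0 ≤ c n := fun n => by
    rw [hc]; exact cfc_nonneg fun t _ => hψ0 n t
  have hcm : Monotone c := by
    refine monotone_nat_of_le_succ fun n => ?_
    rw [hc, hc]
    refine cfc_mono (fun t _ => ?_) (hψc n).continuousOn (hψc (n + 1)).continuousOn
    rw [hψ, hψ]
    exact div_le_div_of_nonneg_right (hφm n t) (hmax t).le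
  have hc1 : ∀ n, c n ≤ algebraMap ℝ A θ⁻¹ := by
    intro n
    rw [hc]
    refine cfc_le_algebraMap _ _ _ (fun t _ => ?_) (hψc n).continuousOn
    rw [hψ]
    refine (div_le_div_of_nonneg_right (hφ1 n t) (hmax t).le).trans ?_
    rw [one_div]
    exact inv_anti₀ hθ0 (le_max_right _ _)
  have hcf : ∀ n, S.Fixed (c n) := fun n => by
    rw [hc]; exact S.fixed_cfc hsa hf (hψc n)
  have hRc : ∀ n, R * c n = p n := by
    intro n
    have h1 := cfc_mul (fun t : ℝ => t) (ψ n) R continuous_id.continuousOn (hψc n).continuousOn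
    rw [hid] at h1
    rw [hc, hp, ← h1]
    exact cfc_congr fun t _ => htψ n t
  have hcR : ∀ n, c n * R = p n := by
    intro n
    have h1 := cfc_mul (ψ n) (fun t : ℝ => t) R (hψc n).continuousOn continuous_id.continuousOn
    rw [hid] at h1
    rw [hc, hp, ← h1]
    refine cfc_congr fun t _ => ?_
    rw [mul_comm]
    exact htψ n t
  obtain ⟨c', hc', hcn', hcR'⟩ := T.exists_mono_lim c hcm (hc0 0) _ hc1
  have hRc' : q = R * c' := by
    have h1 := T.tendsto_mul (x := fun _ => R) ‖R‖ (fun _ => le_rfl) tendsto_const_nhds hc'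
    simp only [hRc] at h1
    exact T.tendsto_unique hq h1
  have hcR'' : q = c' * R := by
    have h2 : ∀ n, ‖c n‖ ≤ ‖algebraMap ℝ A θ⁻¹‖ := fun n =>
      CStarAlgebra.norm_le_norm_of_nonneg_of_le (hc0 n) (hc1 n)
    have h1 := T.tendsto_mul (y := fun _ => R) _ h2 hc' tendsto_const_nhds
    simp only [hcR] at h1
    exact T.tendsto_unique hq h1
  refine ⟨q, c', θ⁻¹, ⟨S.fixed_of_tendsto hpf hq, (IsSelfAdjoint.of_nonneg hq0).star_eq, ?_⟩, ?_,
    by positivity, hqR, S.fixed_of_tendsto hcf hc', (hc0 0).trans (hcn' 0), hRc', hcR''⟩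
  · have hb : ∀ n, ‖p n‖ ≤ ‖θ⁻¹ • R‖ := fun n =>
      CStarAlgebra.norm_le_norm_of_nonneg_of_le (hp0 n) (hpR n)
    have h1 := T.tendsto_mul ‖θ⁻¹ • R‖ hb hq ((tendsto_add_atTop_iff_nat 1).2 hq)
    simp only [hpp] at h1
    exact T.tendsto_unique h1 hq
  · intro hq00
    have h1 : ∀ n, p n = 0 := fun n => le_antisymm (by rw [← hq00]; exact hqn n) (hp0 n)
    obtain ⟨n, hn⟩ : ∃ n : ℕ, (1 / 2 : ℝ) ^ n < ‖R‖ / 4 :=
      exists_pow_lt_of_lt_one (by positivity) (by norm_num)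
    have h2 : R - R * p n = cfc (fun t : ℝ => t - t * φ n t) R := by
      rw [cfc_sub (fun t : ℝ => t) (fun t : ℝ => t * φ n t) R continuous_id.continuousOn
        (continuous_id.mul (hφc n)).continuousOn, hid,
        cfc_mul (fun t : ℝ => t) (φ n) R continuous_id.continuousOn (hφc n).continuousOn, hid, hp]
    have h3 : ‖R - R * p n‖ ≤ θ + (1 / 2 : ℝ) ^ n := by
      rw [h2]
      refine norm_cfc_le (by positivity) fun t ht => ?_
      have ht0 := hspec t ht
      have ha := hφ0 n t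
      have hb := hφ1 n t
      have h4 : 0 ≤ t - t * φ n t := by nlinarith
      rw [Real.norm_eq_abs, abs_of_nonneg h4]
      rcases le_total t (θ + (1 / 2 : ℝ) ^ n) with h | h
      · nlinarith
      · have h5 : φ n t = 1 := by
          have h6 : 1 ≤ (t - θ) * 2 ^ n := by
            have h7 : (1 / 2 : ℝ) ^ n ≤ t - θ := by linarith
            have h8 := mul_le_mul_of_nonneg_right h7 (show (0 : ℝ) ≤ 2 ^ n by positivity)
            rw [← mul_pow] at h8
            norm_num at h8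
            linarith
          rw [hφ, pow_succ, max_eq_left (by nlinarith), min_eq_right (by nlinarith)]
        rw [h5, mul_one, sub_self]
        positivity
    rw [h1 n, mul_zero, sub_zero, hθ] at h3
    linarith

/-- below a multiple of a nonzero positive fixed element there is a nonzero projection -/
theorem TrAct.exists_prj {R : A} (hR : 0 ≤ R) (h0 : R ≠ 0) (hf : S.Fixed R) :
    ∃ (p : A) (k : ℝ), S.IsPrj p ∧ p ≠ 0 ∧ 0 < k ∧ p ≤ k • R := by
  obtain ⟨p, c, k, h1, h2, h3, h4, _⟩ := S.exists_prj_mul hR h0 hf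
  exact ⟨p, k, h1, h2, h3, h4⟩

/-- the same for `b * b`, `b` self-adjoint: `p = b c₁ = c₂ b` -/
theorem TrAct.exists_prj_sa {b : A} (hb : IsSelfAdjoint b) (h0 : b ≠ 0) (hf : S.Fixed b) :
    ∃ p c1 c2 : A, S.IsPrj p ∧ p ≠ 0 ∧ S.Fixed c1 ∧ S.Fixed c2 ∧ p = b * c1 ∧ p = c2 * b := by
  have hR : 0 ≤ b * b := by
    have := star_mul_self_nonneg b
    rwa [hb.star_eq] at this
  have hR0 : b * b ≠ 0 := by
    intro h
    apply h0
    have h1 : star b * b = 0 := by rw [hb.star_eq, h]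
    exact CStarRing.star_mul_self_eq_zero_iff _ |>.1 h1
  obtain ⟨p, c, k, h1, h2, h3, h4, h5, h6, h7, h8⟩ :=
    S.exists_prj_mul hR hR0 (TrAct.Fixed.mul S hf hf)
  exact ⟨p, b * c, c * b, h1, h2, TrAct.Fixed.mul S hf h5, TrAct.Fixed.mul S h5 hf,
    by rw [← mul_assoc]; exact h7, by rw [mul_assoc]; exact h8⟩

end

end Pool.Agent.AbCoc
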