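import Pool.Agent.Lib_MP_418a80_t3.WkLim
import Pool.Agent.Lib_MP_418a80_t3.Proj

/-!
# MP_418a80_an, T3: products of labelled families (2291 (1))
-/

set_option autoImplicit false
set_option linter.unusedVariables false
set_option linter.unusedSectionVars false

open Topology Filter MeasureTheory
open scoped RealInnerProductSpace ComplexConjugate

namespace Pool.Agent.AbCoc

universe u v w z

attribute [local instance] CStarAlgebra.spectralOrder CStarAlgebra.spectralOrderedRing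

section
variable {A : Type u} [CStarAlgebra A] {K : Type v} [NormedAddCommGroup K]
  [InnerProductSpace ℂ K] [CompleteSpace K]
  {G : Type w} [Group G] [TopologicalSpace G] {T : TrAlg A K} (S : TrAct G T)

/-- the mass of a product -/
theorem TrAlg.ms_mul {J J' : Type} [Fintype J] [Fintype J'] (y : J → A) (y' : J' → A) :
    T.ms (fun jk : J × J' => y jk.1 * y' jk.2) = (T.τ (rr y * ll y')).re := by
  unfold TrAlg.ms rr ll
  rw [Fintype.sum_prod_type, Finset.sum_mul_sum, T.τ_sum_lab, Complex.re_sum]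
  refine Finset.sum_congr rfl fun j _ => ?_
  rw [T.τ_sum_lab, Complex.re_sum]
  refine Finset.sum_congr rfl fun k _ => ?_
  rw [T.norm_sq, star_mul]
  congr 1
  rw [show star (y' k) * star (y j) * (y j * y' k) = star (y' k) * (star (y j) * y j * y' k) by
    noncomm_ring, T.τ_mul_comm]
  congr 1
  noncomm_ring

/-- the fixed limit marginal lies in the corner -/
theorem TrAct.Att.left_corner {Q : Type z} {chi : Q → G → ℂ} {B : Set Q} {b w v : A}
    (h : S.Att chi B b w v) : b * w = w := by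
  obtain ⟨C, h⟩ := h
  rw [← sub_eq_zero]
  refine T.eq_zero_of_τ _ fun p => ?_
  have key : ∀ κ : ℝ, 0 < κ → ‖T.τ (p * (b * w - w))‖ ≤ 2 * κ := by
    intro κ hκ
    classical
    obtain ⟨J, hJ, y, r, hy, ht⟩ := h ∅ isCompact_empty κ hκ {p * b, p}
    have h1 := (ht (p * b) (by simp)).1
    have h2 := (ht p (by simp)).1
    have h3 : b * ll y = ll y := by
      unfold ll
      rw [Finset.mul_sum]
      refine Finset.sum_congr rfl fun j _ => ?_
      rw [← mul_assoc, hy.lft]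
    have e : T.τ (p * (b * w - w)) = (T.τ (p * ll y) - T.τ (p * w))
        - (T.τ (p * b * ll y) - T.τ (p * b * w)) := by
      rw [mul_sub, T.τ_sub, mul_assoc p b (ll y), h3, mul_assoc p b w]
      ring
    rw [e]
    refine (norm_sub_le _ _).trans ?_
    linarith
  have h0 : ‖T.τ (p * (b * w - w))‖ ≤ 0 := by
    refine le_of_forall_pos_le_add fun ε hε => ?_
    have := key (ε / 2) (by positivity)
    linarith
  exact norm_le_zero_iff.1 h0

section V
variable {V : Type z} [NormedAddCommGroup V] [InnerProductSpace ℝ V] {p : G → V}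

/-- products of labelled families are labelled families -/
theorem TrAct.IsLab.mul {S : TrAct G T} {B1 B2 : Set V} {b b' : A} {D : Set G} {κ1 κ2 C1 C2 : ℝ}
    {J J' : Type} [Fintype J] [Fintype J'] {y : J → A} {r : J → V} {y' : J' → A} {r' : J' → V}
    (h : S.IsLab (pch p) B1 b' D κ1 C1 y r) (h' : S.IsLab (pch p) B2 b D κ2 C2 y' r')
    (hbb' : b * b' = b') :
    S.IsLab (pch p) {q | ∃ q1 ∈ B1, ∃ q2 ∈ B2, q = q1 + q2} b D (2 * (C2 * κ1) + 2 * (C1 * κ2))
      (C1 * C2) (fun jk : J × J' => y jk.1 * y' jk.2) (fun jk => r jk.1 + r' jk.2) where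
  lft := fun jk => by
    rw [← mul_assoc, ← h.lft jk.1, ← mul_assoc b, hbb']
  rgt := fun jk => by rw [mul_assoc, h'.rgt]
  lab := fun jk => ⟨_, h.lab _, _, h'.lab _, rfl⟩
  dm := h.dm.mul h'.dm
  ne := fun g hg => by
    obtain ⟨d, hd⟩ : ∃ d : J → A, ∀ j, d j = S.α g (y j) - pch p (r j) g • y j :=
      ⟨_, fun _ => rfl⟩
    obtain ⟨d', hd'⟩ : ∃ d' : J' → A, ∀ j, d' j = S.α g (y' j) - pch p (r' j) g • y' j :=
      ⟨_, fun _ => rfl⟩
    have hC1 := h.dm.nonneg
    have hC2 := h'.dm.nonneg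
    have h1 : ∑ j, ‖T.ι (d j)‖ ^ 2 ≤ κ1 := by simp only [hd]; exact h.ne g hg
    have h2 : ∑ j, ‖T.ι (d' j)‖ ^ 2 ≤ κ2 := by simp only [hd']; exact h'.ne g hg
    have e : ∀ j k, S.α g (y j * y' k) - pch p (r j + r' k) g • (y j * y' k)
        = d j * S.α g (y' k) + pch p (r j) g • (y j * d' k) := by
      intro j k
      rw [hd, hd', map_mul, pch_add, mul_sub, sub_mul, smul_sub, mul_smul_comm, smul_mul_assoc,
        smul_smul, mul_comm (pch p (r j) g) (pch p (r' k) g)]
      abel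
    have e2 : ∀ j k, ‖T.ι (S.α g (y j * y' k) - pch p (r j + r' k) g • (y j * y' k))‖ ^ 2
        ≤ 2 * ‖T.ι (d j * S.α g (y' k))‖ ^ 2 + 2 * ‖T.ι (y j * d' k)‖ ^ 2 := by
      intro j k
      rw [e, map_add]
      have h3 : ‖T.ι (pch p (r j) g • (y j * d' k))‖ = ‖T.ι (y j * d' k)‖ := by
        rw [map_smul, norm_smul, norm_pch, one_mul]
      have h4 := pow_le_pow_left₀ (norm_nonneg _)
        (norm_add_le (T.ι (d j * S.α g (y' k))) (T.ι (pch p (r j) g • (y j * d' k)))) 2
      rw [h3] at h4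
      refine h4.trans ?_
      nlinarith [sq_nonneg (‖T.ι (d j * S.α g (y' k))‖ - ‖T.ι (y j * d' k)‖)]
    rw [Fintype.sum_prod_type]
    calc ∑ j, ∑ k, ‖T.ι (S.α g (y j * y' k) - pch p (r j + r' k) g • (y j * y' k))‖ ^ 2
        ≤ ∑ j, ∑ k, (2 * ‖T.ι (d j * S.α g (y' k))‖ ^ 2 + 2 * ‖T.ι (y j * d' k)‖ ^ 2) :=
          Finset.sum_le_sum fun j _ => Finset.sum_le_sum fun k _ => e2 j k
      _ = 2 * ∑ j, ∑ k, ‖T.ι (d j * S.α g (y' k))‖ ^ 2
          + 2 * ∑ k, ∑ j, ‖T.ι (y j * d' k)‖ ^ 2 := by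
          simp only [Finset.sum_add_distrib, ← Finset.mul_sum]
          congr 2
          exact Finset.sum_comm
      _ ≤ 2 * ∑ j, C2 * ‖T.ι (d j)‖ ^ 2 + 2 * ∑ k, C1 * ‖T.ι (d' k)‖ ^ 2 := by
          refine add_le_add (mul_le_mul_of_nonneg_left (Finset.sum_le_sum fun j _ => ?_) (by norm_num))
            (mul_le_mul_of_nonneg_left (Finset.sum_le_sum fun k _ => ?_) (by norm_num))
          · exact (S.dm_act h'.dm g).2 (d j)
          · exact h.dm.1 (d' k)
      _ ≤ 2 * (C2 * κ1) + 2 * (C1 * κ2) := by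
          rw [← Finset.mul_sum, ← Finset.mul_sum]
          exact add_le_add (mul_le_mul_of_nonneg_left (mul_le_mul_of_nonneg_left h1 hC2)
            (by norm_num)) (mul_le_mul_of_nonneg_left (mul_le_mul_of_nonneg_left h2 hC1)
            (by norm_num))

/-- hereditarily available labels can be added -/
theorem TrAct.hlabA_add (B1 B2 : Set V) (b : A) (hb : S.IsPrj b) (h1 : S.HLabA (pch p) B1 b)
    (h2 : S.HLabA (pch p) B2 b) :
    S.HLabA (pch p) {q | ∃ q1 ∈ B1, ∃ q2 ∈ B2, q = q1 + q2} b := by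
  intro b1 hb1 hb10 hbb1
  obtain ⟨C2, c2, hc2, hfam⟩ := h2 b1 hb1 hb10 hbb1
  have hC20 : 0 ≤ C2 := by
    obtain ⟨J, hJ, y, r, hy, hm⟩ := hfam ∅ isCompact_empty 1 one_pos
    exact hy.dm.nonneg
  obtain ⟨w, v, hw, hv, hw0, hv0, hwX, hvX, hcw, hatt⟩ := S.exists_att (pch p) (norm_pch p) B2 b1
    hb1.star_eq C2 c2 (algebraMap ℝ A C2) (algebraMap ℝ A C2) (fun D hD κ hκ => by
      obtain ⟨J, hJ, y, r, hy, hm⟩ := hfam D hD κ hκ
      exact ⟨J, hJ, y, r, hy, T.ll_le y C2 hy.dm.2, T.rr_le y C2 hy.dm.1, hm⟩)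
  have hwne : w ≠ 0 := by
    rintro rfl
    have : T.τ (0 : A) = 0 := by simp [TrAlg.τ]
    rw [this, Complex.zero_re] at hcw
    linarith
  obtain ⟨q, k, hq, hq0, hk, hqw⟩ := S.exists_prj hw0 hwne hw
  have hb1w := hatt.left_corner
  -- the projection lies in the corner
  have hwb1 : w * b1 = w := by
    have := congrArg star hb1w
    rwa [star_mul, hb1.star_eq, (IsSelfAdjoint.of_nonneg hw0).star_eq] at this
  have hb1q : b1 * q = q := by
    obtain ⟨c, hc⟩ : ∃ c : A, c = 1 - b1 := ⟨_, rfl⟩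
    have hcs : star c = c := by rw [hc, star_sub, star_one, hb1.star_eq]
    have hcw0 : c * w = 0 := by rw [hc, sub_mul, one_mul, hb1w, sub_self]
    have e1 : star c * q * c ≤ star c * (k • w) * c := star_left_conjugate_le_conjugate hqw c
    have e2 : star c * (k • w) * c = 0 := by
      rw [hcs, mul_smul_comm, hcw0, smul_zero, zero_mul]
    have e3 : 0 ≤ star c * q * c := by
      have : q = star q * q := by rw [hq.star_eq, hq.mul_self]
      rw [this, ← mul_assoc, ← star_mul, mul_assoc]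
      exact star_mul_self_nonneg _
    have e4 : star c * q * c = 0 := le_antisymm (e1.trans e2.le) e3
    have e5 : q * c = 0 := by
      have : star (q * c) * (q * c) = 0 := by
        rw [star_mul, hq.star_eq]
        calc star c * q * (q * c) = star c * (q * q) * c := by noncomm_ring
          _ = 0 := by rw [hq.mul_self, e4]
      exact CStarRing.star_mul_self_eq_zero_iff _ |>.1 this
    have e6 : c * q = 0 := by
      have := congrArg star e5
      rwa [star_mul, hcs, hq.star_eq, star_zero] at this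
    rw [hc, sub_mul, one_mul, sub_eq_zero] at e6
    exact e6.symm
  have hbq : b * q = q := by rw [← hb1q, ← mul_assoc, hbb1]
  obtain ⟨C1, c1, hc1, hfam1⟩ := h1 q hq hq0 hbq
  obtain ⟨C2', hatt'⟩ := hatt
  have hC10 : 0 ≤ C1 := by
    obtain ⟨J, hJ, y, r, hy, hm⟩ := hfam1 ∅ isCompact_empty 1 one_pos
    exact hy.dm.nonneg
  have hC20' : 0 ≤ C2' := by
    obtain ⟨J, hJ, y, r, hy, hm⟩ := hatt' ∅ isCompact_empty 1 one_pos ∅
    exact hy.dm.nonneg
  refine ⟨C1 * C2', c1 / (2 * k), by positivity, fun D hD κ hκ => ?_⟩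
  obtain ⟨κ1, hκ1⟩ : ∃ κ1 : ℝ, κ1 = κ / (4 * (C2' + 1)) := ⟨_, rfl⟩
  obtain ⟨κ2, hκ2⟩ : ∃ κ2 : ℝ, κ2 = min (κ / (4 * (C1 + 1))) (c1 / (2 * k)) := ⟨_, rfl⟩
  have hκ10 : 0 < κ1 := by rw [hκ1]; positivity
  have hκ20 : 0 < κ2 := by rw [hκ2]; exact lt_min (by positivity) (by positivity)
  obtain ⟨J, hJ, y, r, hy, hm⟩ := hfam1 D hD κ1 hκ10
  obtain ⟨J', hJ', y', r', hy', ht⟩ := hatt' D hD κ2 hκ20 {rr y}
  refine ⟨J × J', inferInstance, fun jk => y jk.1 * y' jk.2, fun jk => r jk.1 + r' jk.2, ?_, ?_⟩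
  · refine (hy.mul hy' hb1q).mono subset_rfl subset_rfl ?_ le_rfl
    have a1 : C2' * κ1 ≤ κ / 4 := by
      rw [hκ1]
      have : C2' * (κ / (4 * (C2' + 1))) = κ / 4 * (C2' / (C2' + 1)) := by field_simp
      rw [this]
      have h3 : C2' / (C2' + 1) ≤ 1 := by rw [div_le_one (by positivity)]; linarith
      nlinarith
    have a2 : C1 * κ2 ≤ κ / 4 := by
      have a3 : C1 * κ2 ≤ C1 * (κ / (4 * (C1 + 1))) :=
        mul_le_mul_of_nonneg_left (by rw [hκ2]; exact min_le_left _ _) hC10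
      have : C1 * (κ / (4 * (C1 + 1))) = κ / 4 * (C1 / (C1 + 1)) := by field_simp
      rw [this] at a3
      have h3 : C1 / (C1 + 1) ≤ 1 := by rw [div_le_one (by positivity)]; linarith
      nlinarith
    linarith
  · rw [TrAlg.ms_mul]
    have h3 := (ht (rr y) (by simp)).1
    have h4 : (T.τ (rr y * w)).re - κ2 ≤ (T.τ (rr y * ll y')).re := by
      have h5 : |(T.τ (rr y * ll y') - T.τ (rr y * w)).re| ≤ κ2 := (Complex.abs_re_le_norm _).trans h3
      rw [Complex.sub_re] at h5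
      have := (abs_le.1 h5).1
      linarith
    have h5 : (T.τ (rr y * q)).re ≤ k * (T.τ (rr y * w)).re := by
      have h6 := TrAlg.re_τ_mul_nonneg T _ _ (rr_nonneg y) (sub_nonneg.2 hqw)
      rw [mul_sub, T.τ_sub, Complex.sub_re] at h6
      have h7 : T.τ (rr y * k • w) = (k : ℂ) * T.τ (rr y * w) := by
        have : k • w = (k : ℂ) • w := rfl
        rw [this, mul_smul_comm, T.τ_smul]
      rw [h7, Complex.re_ofReal_mul] at h6
      linarith
    have h6 : rr y * q = rr y := by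
      unfold rr
      rw [Finset.sum_mul]
      refine Finset.sum_congr rfl fun j _ => ?_
      rw [mul_assoc, hy.rgt]
    have h7 : c1 ≤ (T.τ (rr y * q)).re := by
      rw [h6, T.τ_rr]
      exact hm
    have h8 : κ2 ≤ c1 / (2 * k) := by rw [hκ2]; exact min_le_right _ _
    have h9 : c1 / k ≤ (T.τ (rr y * w)).re := by
      rw [div_le_iff₀ hk, mul_comm]
      linarith
    have h10 : c1 / k = 2 * (c1 / (2 * k)) := by field_simp
    linarith

end V

end

end Pool.Agent.AbCoc
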