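import Pool.Agent.Lib_MP_418a80_t3.Heis6
import Pool.Agent.Lib_MP_418a80_t3.Comp10
import Pool.Agent.Lib_MP_418a80_t3.GoodE
import Pool.Agent.Lib_MP_418a80_t3.Prod

/-!
# The Heisenberg step, part 7: choice of the direction, `StepATyp`

`HeisData G n`: homomorphisms `a, b : G → ℝⁿ`, a function `ξ` with
`ξ (g h) = ξ g + ξ h + ⟪a g, b h⟫`, one-parameter subgroups over the coordinate directions.
`TrAct.stepATyp_of_heis`: KEY for the twisted matrices over `ker a` and over the kernels of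
`⟪χ0, (a, b)⟫` gives `StepATyp`.
-/

set_option autoImplicit false
set_option linter.unusedVariables false
set_option linter.unusedSectionVars false

open Topology Filter MeasureTheory
open scoped RealInnerProductSpace ComplexConjugate

namespace Pool.Agent.AbCoc

universe u v w z

/-- the Heisenberg data of a group -/
structure HeisData (G : Type w) [Group G] [TopologicalSpace G] (n : ℕ) where
  a : G → EuclideanSpace ℝ (Fin n)
  b : G → EuclideanSpace ℝ (Fin n)
  ξ : G → ℝ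
  ha : Continuous a
  hb : Continuous b
  hξ : Continuous ξ
  amul : ∀ g h, a (g * h) = a g + a h
  bmul : ∀ g h, b (g * h) = b g + b h
  ξmul : ∀ g h, ξ (g * h) = ξ g + ξ h + ⟪a g, b h⟫
  x : Fin n → ℝ → G
  y : Fin n → ℝ → G
  hx : ∀ i, Continuous (x i)
  hy : ∀ i, Continuous (y i)
  xadd : ∀ i s t, x i (s + t) = x i s * x i t
  yadd : ∀ i s t, y i (s + t) = y i s * y i t
  ax : ∀ i t, a (x i t) = EuclideanSpace.single i t
  bx : ∀ i t, b (x i t) = 0
  ξx : ∀ i t, ξ (x i t) = 0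
  ay : ∀ i t, a (y i t) = 0
  by' : ∀ i t, b (y i t) = EuclideanSpace.single i t

namespace HeisData
variable {G : Type w} [Group G] [TopologicalSpace G] {n : ℕ} (H : HeisData G n)

theorem a_one : H.a 1 = 0 := by
  have h := H.amul 1 1
  rw [mul_one] at h
  exact left_eq_add.1 h

theorem b_one : H.b 1 = 0 := by
  have h := H.bmul 1 1
  rw [mul_one] at h
  exact left_eq_add.1 h

theorem ξ_one : H.ξ 1 = 0 := by
  have h := H.ξmul 1 1
  rw [mul_one, H.a_one, inner_zero_left] at h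
  linarith

theorem x_zero (i : Fin n) : H.x i 0 = 1 := by
  have h := H.xadd i 0 0
  rw [add_zero] at h
  exact left_eq_mul.1 h

theorem y_zero (i : Fin n) : H.y i 0 = 1 := by
  have h := H.yadd i 0 0
  rw [add_zero] at h
  exact left_eq_mul.1 h

theorem a_prod {m : ℕ} (f : Fin m → G) : H.a (List.ofFn f).prod = ∑ i, H.a (f i) := by
  induction m with
  | zero => simp [H.a_one]
  | succ m ih =>
    rw [List.ofFn_succ, List.prod_cons, H.amul, ih, Fin.sum_univ_succ]

theorem b_prod {m : ℕ} (f : Fin m → G) : H.b (List.ofFn f).prod = ∑ i, H.b (f i) := by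
  induction m with
  | zero => simp [H.b_one]
  | succ m ih =>
    rw [List.ofFn_succ, List.prod_cons, H.bmul, ih, Fin.sum_univ_succ]

theorem ξ_prod {m : ℕ} (f : Fin m → G) (hf : ∀ i, H.b (f i) = 0) (hf' : ∀ i, H.ξ (f i) = 0) :
    H.ξ (List.ofFn f).prod = 0 := by
  induction m with
  | zero => simp [H.ξ_one]
  | succ m ih =>
    rw [List.ofFn_succ, List.prod_cons, H.ξmul, ih _ (fun i => hf _) (fun i => hf' _), hf' 0,
      H.b_prod, Finset.sum_eq_zero fun i _ => hf _, inner_zero_right]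
    norm_num

theorem sum_single (t : EuclideanSpace ℝ (Fin n)) :
    ∑ i, EuclideanSpace.single i (t i) = t := by
  ext j
  rw [WithLp.ofLp_sum, Finset.sum_apply, Finset.sum_eq_single j]
  · simp
  · intro i _ hij
    simp [EuclideanSpace.single, hij.symm]
  · intro h; exact absurd (Finset.mem_univ j) h

theorem continuous_prod_ofFn {X : Type*} [TopologicalSpace X] [IsTopologicalGroup G] {m : ℕ}
    (f : Fin m → X → G) (hf : ∀ i, Continuous (f i)) :
    Continuous fun x => (List.ofFn fun i => f i x).prod := by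
  induction m with
  | zero => simpa using continuous_const
  | succ m ih =>
    simp only [List.ofFn_succ, List.prod_cons]
    exact (hf 0).mul (ih (fun i => f i.succ) fun i => hf _)

/-- the sections -/
noncomputable def toHData [IsTopologicalGroup G] : HData G n where
  a := H.a
  b := H.b
  ξ := H.ξ
  ha := H.ha
  hb := H.hb
  hξ := H.hξ
  amul := H.amul
  bmul := H.bmul
  ξmul := H.ξmul
  s t := (List.ofFn fun i => H.x i (t i)).prod
  r t := (List.ofFn fun i => H.y i (t i)).prod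
  hs := continuous_prod_ofFn (fun i (t : EuclideanSpace ℝ (Fin n)) => H.x i (t i))
    fun i => (H.hx i).comp (by fun_prop)
  hr := continuous_prod_ofFn (fun i (t : EuclideanSpace ℝ (Fin n)) => H.y i (t i))
    fun i => (H.hy i).comp (by fun_prop)
  s0 := by
    have h : (fun i : Fin n => H.x i ((0 : EuclideanSpace ℝ (Fin n)) i)) = fun _ => 1 := by
      funext i
      exact H.x_zero i
    rw [h]
    simp
  as t := by
    rw [H.a_prod]
    simp only [H.ax]
    exact sum_single t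
  bs t := by
    rw [H.b_prod]
    exact Finset.sum_eq_zero fun i _ => H.bx i _
  ξs t := H.ξ_prod _ (fun i => H.bx i _) (fun i => H.ξx i _)
  ar t := by
    rw [H.a_prod]
    exact Finset.sum_eq_zero fun i _ => H.ay i _
  br t := by
    rw [H.b_prod]
    simp only [H.by']
    exact sum_single t

end HeisData

section base
variable {V : Type z} [NormedAddCommGroup V] [InnerProductSpace ℝ V] [FiniteDimensional ℝ V]

theorem exists_base_fd : ∃ Bk : ℕ → Set V, (∀ k, IsOpen (Bk k)) ∧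
    ∀ (q : V) (ρ : ℝ), 0 < ρ → ∃ k, q ∈ Bk k ∧ Bk k ⊆ Metric.ball q ρ := by
  have : ProperSpace V := FiniteDimensional.proper ℝ V
  have hb := TopologicalSpace.isBasis_countableBasis V
  have hc := TopologicalSpace.countable_countableBasis V
  obtain ⟨s, hs, _⟩ := hb.exists_subset_of_mem_open (Set.mem_univ (0 : V)) isOpen_univ
  obtain ⟨f, hf⟩ := hc.exists_eq_range ⟨s, hs⟩
  refine ⟨f, fun k => hb.isOpen (by rw [hf]; exact ⟨k, rfl⟩), fun q ρ hρ => ?_⟩
  obtain ⟨t, ht, hqt, hts⟩ := hb.exists_subset_of_mem_open (Metric.mem_ball_self hρ (x := q))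
    Metric.isOpen_ball
  rw [hf] at ht
  obtain ⟨k, rfl⟩ := ht
  exact ⟨k, hqt, hts⟩

/-- the largest subspace in a subgroup -/
def linPart (H : AddSubgroup V) : Submodule ℝ V where
  carrier := {q | ∀ c : ℝ, c • q ∈ H}
  add_mem' := by
    intro x y hx hy c
    rw [smul_add]
    exact H.add_mem (hx c) (hy c)
  zero_mem' := by
    intro c
    rw [smul_zero]
    exact H.zero_mem
  smul_mem' := by
    intro r q hq c
    rw [smul_smul]
    exact hq _

theorem mem_linPart (H : AddSubgroup V) (q : V) : q ∈ linPart H ↔ ∀ c : ℝ, c • q ∈ H := Iff.rfl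

end base

section
variable {A : Type u} [CStarAlgebra A] {K : Type v} [NormedAddCommGroup K]
  [InnerProductSpace ℂ K] [CompleteSpace K]
variable {G : Type w} [Group G] [TopologicalSpace G] [IsTopologicalGroup G] {T : TrAlg A K}
  (S : TrAct G T) {n : ℕ}

/-- there is a direction whose multiples are available in all corners -/
theorem TrAct.exists_direction (H : HData G n) (hn : 0 < n) (hE : S.EigIn H) :
    ∃ χ0 : LV n, χ0 ≠ 0 ∧ ∀ b : A, S.IsPrj b → b ≠ 0 → ∀ t ρ : ℝ, 0 < ρ →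
      S.LabA (pch H.p) (Metric.ball (t • χ0) ρ) b := by
  obtain ⟨Bk, hBk, hbase⟩ := exists_base_fd (V := LV n)
  -- the subgroups
  have hsub : ∀ b : ℕ → A, S.Dec (pch H.p) Bk b →
      ∃ Sg : AddSubgroup (LV n), (Sg : Set (LV n)) = S.SF (pch H.p) Bk b := fun b hb =>
    TrAct.Dec.exists_subgroup S hb hBk hbase
      (fun B1 B2 b hb h1 h2 => TrAct.hlabA_add S B1 B2 b hb h1 h2)
  have key : ∃ χ0 : LV n, χ0 ≠ 0 ∧ ∀ b : ℕ → A, S.Dec (pch H.p) Bk b → ∀ c : ℝ,
      c • χ0 ∈ S.SF (pch H.p) Bk b := by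
    by_cases hall : ∀ b : ℕ → A, S.Dec (pch H.p) Bk b → ∀ q, q ∈ S.SF (pch H.p) Bk b
    · refine ⟨WithLp.toLp 2 (EuclideanSpace.single ⟨0, hn⟩ 1, 0), ?_, fun b hb c => hall b hb _⟩
      intro h
      have h1 : (EuclideanSpace.single (⟨0, hn⟩ : Fin n) (1 : ℝ)) = 0 :=
        congrArg WithLp.fst h
      have h2 : ‖(EuclideanSpace.single (⟨0, hn⟩ : Fin n) (1 : ℝ))‖ = 0 := by rw [h1, norm_zero]
      rw [show ‖(EuclideanSpace.single (⟨0, hn⟩ : Fin n) (1 : ℝ))‖ = ‖(1 : ℝ)‖ from PiLp.norm_single 2 _ _ _, norm_one] at h2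
      exact one_ne_zero h2
    · push Not at hall
      obtain ⟨b2, hb2, q, hq⟩ := hall
      obtain ⟨S2, hS2⟩ := hsub b2 hb2
      have hW2 : linPart S2 ≠ ⊤ := by
        intro h
        have h1 : q ∈ linPart S2 := by rw [h]; trivial
        have h2 := h1 1
        rw [one_smul] at h2
        exact hq (by rw [← hS2]; exact h2)
      have hW2' : (linPart S2)ᗮ ≠ ⊥ := fun h => hW2 (Submodule.orthogonal_eq_bot_iff.1 h)
      obtain ⟨g, hg, hg0⟩ := Submodule.exists_mem_ne_zero_of_ne_bot hW2'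
      refine ⟨Jm g, ?_, fun b1 hb1 c => ?_⟩
      · rw [← norm_ne_zero_iff, norm_Jm]
        exact norm_ne_zero_iff.2 hg0
      · obtain ⟨S1, hS1⟩ := hsub b1 hb1
        have h1 := TrAct.heis_main H hb1 hb2 hBk S1 S2 hS1 hS2 (linPart S1) (linPart S2)
          (mem_linPart S1) (mem_linPart S2) hE hg
        rw [← hS1]
        exact h1 c
  obtain ⟨χ0, hχ0, hk⟩ := key
  refine ⟨χ0, hχ0, fun b hb hb0 t ρ hρ => ?_⟩
  obtain ⟨bn, hbn, hbn0⟩ := S.exists_dec (pch H.p) Bk b hb hb0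
  have h1 := hk bn hbn t
  rw [TrAct.Dec.mem_SF_iff S hbn hBk hbase] at h1
  obtain ⟨m, hm⟩ := h1 ρ hρ
  have h2 := hm.labA (hbn.prj m) (hbn.ne m)
  have h3 : b * bn m = bn m := by
    have := hbn.le_of_le (Nat.zero_le m)
    rwa [hbn0] at this
  exact TrAct.LabA.of_le hb.star_eq (hbn.prj m).star_eq h3 h2

/-- `ker a` -/
def HData.kerA (H : HData G n) : Subgroup G where
  carrier := {g | H.a g = 0}
  one_mem' := H.a_one
  mul_mem' := by
    intro g h hg hh
    change H.a (g * h) = 0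
    rw [H.amul, show H.a g = 0 from hg, show H.a h = 0 from hh, add_zero]
  inv_mem' := by
    intro g hg
    change H.a g⁻¹ = 0
    rw [H.a_inv, show H.a g = 0 from hg, neg_zero]

theorem HData.mem_kerA (H : HData G n) (g : G) : g ∈ H.kerA ↔ H.a g = 0 := Iff.rfl

theorem HData.isClosed_kerA (H : HData G n) : IsClosed (H.kerA : Set G) :=
  isClosed_singleton.preimage H.ha

theorem HData.p_one (H : HData G n) : H.p 1 = 0 := LV_ext H.a_one H.b_one

theorem HData.p_inv (H : HData G n) (g : G) : H.p g⁻¹ = -H.p g := LV_ext (H.a_inv g) (H.b_inv g)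

/-- the kernel of `⟪χ0, p⟫` -/
def HData.kerX (H : HData G n) (χ0 : LV n) : Subgroup G where
  carrier := {g | ⟪χ0, H.p g⟫ = 0}
  one_mem' := by
    change ⟪χ0, H.p 1⟫ = 0
    rw [H.p_one, inner_zero_right]
  mul_mem' := by
    intro g h hg hh
    change ⟪χ0, H.p (g * h)⟫ = 0
    rw [H.p_mul, inner_add_right, show ⟪χ0, H.p g⟫ = 0 from hg, show ⟪χ0, H.p h⟫ = 0 from hh,
      add_zero]
  inv_mem' := by
    intro g hg
    change ⟪χ0, H.p g⁻¹⟫ = 0
    rw [H.p_inv, inner_neg_right, show ⟪χ0, H.p g⟫ = 0 from hg, neg_zero]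

theorem HData.mem_kerX (H : HData G n) (χ0 : LV n) (g : G) :
    g ∈ H.kerX χ0 ↔ ⟪χ0, H.p g⟫ = 0 := Iff.rfl

theorem HData.isClosed_kerX (H : HData G n) (χ0 : LV n) : IsClosed (H.kerX χ0 : Set G) :=
  isClosed_singleton.preimage (Continuous.inner (𝕜 := ℝ) continuous_const H.continuous_p)

/-- the characters of `ker a` -/
noncomputable def HData.chA (H : HData G n) (ρ : ℝ) : H.kerA →* Circle where
  toFun h := Circle.exp (ρ ^ 2 * H.ξ h)
  map_one' := by rw [Subgroup.coe_one, H.ξ_one, mul_zero, Circle.exp_zero]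
  map_mul' g h := by
    rw [Subgroup.coe_mul, H.ξmul, (H.mem_kerA _).1 g.2, inner_zero_left, add_zero, mul_add,
      Circle.exp_add]

theorem HData.continuous_chA (H : HData G n) (ρ : ℝ) : Continuous (H.chA ρ) := by
  change Continuous fun h : H.kerA => Circle.exp (ρ ^ 2 * H.ξ h)
  exact Circle.exp.continuous.comp (continuous_const.mul (H.hξ.comp continuous_subtype_val))

/-- the characters of `ker ⟪χ0, p⟫` -/
noncomputable def HData.chX (H : HData G n) (χ0 r0 : LV n) : H.kerX χ0 →* Circle where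
  toFun h := Circle.exp ⟪r0, H.p h⟫
  map_one' := by rw [Subgroup.coe_one, H.p_one, inner_zero_right, Circle.exp_zero]
  map_mul' g h := by
    rw [Subgroup.coe_mul, H.p_mul, inner_add_right, Circle.exp_add]

theorem HData.continuous_chX (H : HData G n) (χ0 r0 : LV n) : Continuous (H.chX χ0 r0) := by
  change Continuous fun h : H.kerX χ0 => Circle.exp ⟪r0, H.p h⟫
  exact Circle.exp.continuous.comp (Continuous.inner (𝕜 := ℝ) continuous_const
    (H.continuous_p.comp continuous_subtype_val))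

end

section
variable {A : Type u} [CStarAlgebra A] [PartialOrder A] [StarOrderedRing A]
  {K : Type v} [NormedAddCommGroup K] [InnerProductSpace ℂ K] [CompleteSpace K]
variable {G : Type w} [Group G] [TopologicalSpace G] [IsTopologicalGroup G] {T : TrAlg A K}
  (S : TrAct G T) {n : ℕ}

/-- `EigIn` from KEY -/
theorem TrAct.eigIn_of_key (H : HData G n)
    (hkey : ∀ (χ : H.kerA →* Circle) (hχ : Continuous χ),
      ((S.cm H.kerA.subtype continuous_subtype_val).twist 2 (tw2 χ) (tw2_cont hχ)).Key) :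
    S.EigIn H := by
  intro b1 b2 h1 h2 hn1 hn2
  refine ⟨‖T.ι b1‖ ^ 2 * ‖T.ι b2‖ ^ 2 / 4, ?_, fun ρ D hD κ hκ => ?_⟩
  · have := T.norm_ι_pos hn1
    have := T.norm_ι_pos hn2
    positivity
  have hD' : IsCompact ((Subtype.val : H.kerA → G) ⁻¹' D) :=
    H.isClosed_kerA.isClosedEmbedding_subtypeVal.isCompact_preimage hD
  obtain ⟨e, he1, he2, he3, he4, he5⟩ := S.exists_eigen_prj H.kerA.subtype continuous_subtype_val
    (H.chA ρ) (H.continuous_chA ρ) (hkey _ (H.continuous_chA ρ)) h1 h2 hn1 hn2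
    ((Subtype.val : H.kerA → G) ⁻¹' D) hD' κ hκ
  refine ⟨e, he1, he2, he3, he4, fun h hh hp => ?_⟩
  exact he5 ⟨h, hp⟩ hh

/-- eigen elements of `ker ⟪χ0, p⟫` from KEY -/
theorem TrAct.eigX_of_key (H : HData G n) (χ0 : LV n)
    (hkey : ∀ (χ : H.kerX χ0 →* Circle) (hχ : Continuous χ),
      ((S.cm (H.kerX χ0).subtype continuous_subtype_val).twist 2 (tw2 χ) (tw2_cont hχ)).Key)
    {b1 b2 : A} (h1 : S.IsPrj b1) (hn1 : b1 ≠ 0) (h2 : S.IsPrj b2) (hn2 : b2 ≠ 0) :
    ∃ c : ℝ, 0 < c ∧ ∀ (r0 : LV n) (D : Set G), IsCompact D → ∀ κ : ℝ, 0 < κ →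
      ∃ e : A, b1 * e = e ∧ e * b2 = e ∧ ‖e‖ ≤ 1 ∧ c ≤ ‖T.ι e‖ ^ 2 ∧
        ∀ h ∈ D, ⟪χ0, H.p h⟫ = 0 → ‖T.ι (S.α h e - ch ⟪r0, H.p h⟫ • e)‖ ≤ κ := by
  refine ⟨‖T.ι b1‖ ^ 2 * ‖T.ι b2‖ ^ 2 / 4, ?_, fun r0 D hD κ hκ => ?_⟩
  · have := T.norm_ι_pos hn1
    have := T.norm_ι_pos hn2
    positivity
  have hD' : IsCompact ((Subtype.val : H.kerX χ0 → G) ⁻¹' D) :=
    (H.isClosed_kerX χ0).isClosedEmbedding_subtypeVal.isCompact_preimage hD
  obtain ⟨e, he1, he2, he3, he4, he5⟩ := S.exists_eigen_prj (H.kerX χ0).subtype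
    continuous_subtype_val (H.chX χ0 r0) (H.continuous_chX χ0 r0)
    (hkey _ (H.continuous_chX χ0 r0)) h1 h2 hn1 hn2
    ((Subtype.val : H.kerX χ0 → G) ⁻¹' D) hD' κ hκ
  refine ⟨e, he1, he2, he3, he4, fun h hh hp => ?_⟩
  exact he5 ⟨h, hp⟩ hh

variable [T2Space G] [SecondCountableTopology G] [LocallyCompactSpace G]

/-- THE HEISENBERG STEP: KEY for `ker a` and for the kernels of `⟪χ0, (a, b)⟫`, `χ0 ≠ 0` (twisted
matrices) gives `StepATyp` -/
theorem TrAct.stepATyp_of_heis (H : HeisData G n) (hn : 0 < n)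
    (hkeyA : ∀ (χ : H.toHData.kerA →* Circle) (hχ : Continuous χ),
      ((S.cm H.toHData.kerA.subtype continuous_subtype_val).twist 2 (tw2 χ) (tw2_cont hχ)).Key)
    (hkeyX : ∀ χ0 : LV n, χ0 ≠ 0 → ∀ (χ : H.toHData.kerX χ0 →* Circle) (hχ : Continuous χ),
      ((S.cm (H.toHData.kerX χ0).subtype continuous_subtype_val).twist 2 (tw2 χ)
        (tw2_cont hχ)).Key) : S.StepATyp := by
  obtain ⟨χ0, hχ0, hlab⟩ := S.exists_direction H.toHData hn (S.eigIn_of_key H.toHData hkeyA)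
  -- the one-parameter group
  obtain ⟨s, hs, hsm, hps⟩ : ∃ s : ℝ → G, Continuous s ∧ (∀ t u, s (t + u) = s t * s u) ∧
      ∀ t, ⟪χ0, H.toHData.p (s t)⟫ = t := by
    have hcase : (∃ i, χ0.fst i ≠ 0) ∨ ∃ i, χ0.snd i ≠ 0 := by
      by_contra hno
      push Not at hno
      apply hχ0
      refine LV_ext ?_ ?_
      · ext i; exact hno.1 i
      · ext i; exact hno.2 i
    rcases hcase with ⟨i, hi⟩ | ⟨i, hi⟩
    · refine ⟨fun t => H.x i (t / χ0.fst i), (H.hx i).comp (by fun_prop), fun t u => ?_,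
        fun t => ?_⟩
      · change H.x i ((t + u) / χ0.fst i) = H.x i (t / χ0.fst i) * H.x i (u / χ0.fst i)
        rw [add_div, H.xadd]
      · rw [WithLp.prod_inner_apply]
        change ⟪χ0.fst, H.a (H.x i (t / χ0.fst i))⟫ + ⟪χ0.snd, H.b (H.x i (t / χ0.fst i))⟫ = t
        rw [H.bx, inner_zero_right, add_zero, H.ax, EuclideanSpace.inner_single_right]
        simp only [conj_trivial]
        exact div_mul_cancel₀ t hi
    · refine ⟨fun t => H.y i (t / χ0.snd i), (H.hy i).comp (by fun_prop), fun t u => ?_,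
        fun t => ?_⟩
      · change H.y i ((t + u) / χ0.snd i) = H.y i (t / χ0.snd i) * H.y i (u / χ0.snd i)
        rw [add_div, H.yadd]
      · rw [WithLp.prod_inner_apply]
        change ⟪χ0.fst, H.a (H.y i (t / χ0.snd i))⟫ + ⟪χ0.snd, H.b (H.y i (t / χ0.snd i))⟫ = t
        rw [H.ay, inner_zero_right, zero_add, H.by', EuclideanSpace.inner_single_right]
        simp only [conj_trivial]
        exact div_mul_cancel₀ t hi
  -- a unit vector orthogonal to `χ0`
  obtain ⟨r1, hr1, hr0⟩ : ∃ r1 : LV n, ‖r1‖ = 1 ∧ ⟪χ0, r1⟫ = 0 := by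
    have h1 : ‖Jm χ0‖ ≠ 0 := by rw [norm_Jm]; exact norm_ne_zero_iff.2 hχ0
    refine ⟨(‖Jm χ0‖)⁻¹ • Jm χ0, ?_, ?_⟩
    · rw [norm_smul, norm_inv, norm_norm, inv_mul_cancel₀ h1]
    · rw [inner_smul_right]
      have h2 : ⟪χ0, Jm χ0⟫ = 0 := by
        rw [WithLp.prod_inner_apply]
        change ⟪χ0.fst, χ0.snd⟫ + ⟪χ0.snd, -χ0.fst⟫ = 0
        rw [inner_neg_right, real_inner_comm]
        ring
      rw [h2, mul_zero]
  exact S.stepATyp_of_eigen H.toHData.p H.toHData.continuous_p H.toHData.p_mul χ0 s hs hsm hps r1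
    hr1 hr0 (fun t => ⟨H.toHData.σ (t • r1), H.toHData.p_σ _⟩) hlab
    (fun b1 b2 h1 hn1 h2 hn2 => S.eigX_of_key H.toHData χ0 (hkeyX χ0 hχ0) h1 hn1 h2 hn2)

end

end Pool.Agent.AbCoc
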