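import Pool.Agent.Lib_MP_418a80_t3.Gram1

/-!
# MP_418a80_an, T3: the Gram elements of packets are almost periodic (from the periodic lemma)
-/

set_option autoImplicit false
set_option linter.unusedVariables false
set_option linter.unusedSectionVars false

open Topology Filter MeasureTheory
open scoped RealInnerProductSpace ComplexConjugate

namespace Pool.Agent.AbCoc

universe u v w z

section
variable {A : Type u} [CStarAlgebra A] {K : Type v} [NormedAddCommGroup K]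
  [InnerProductSpace ℂ K] [CompleteSpace K]
variable {G : Type w} [Group G] [TopologicalSpace G] {T : TrAlg A K} (S : TrAct G T)

/-- the conclusion of the periodic lemma in one corner, for families of mass `≤ 1` -/
def TrAct.PerAt (R : RSec G) (b : A) (s0 ε δ : ℝ) : Prop :=
  ∀ C : ℝ, ∃ (D : Set G) (κ : ℝ), IsCompact D ∧ 0 < κ ∧
    ∀ (J : Type) [Fintype J] (y : J → A), (∀ j, b * y j = y j) → (∀ j, y j * b = y j) →
      T.Dm C y → T.ms y ≤ 1 → (∀ h ∈ D, R.p h = 0 → ∑ j, ‖T.ι (S.α h (y j) - y j)‖ ^ 2 ≤ κ) →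
      (∀ t, |t| ≤ δ → ∑ j, ‖T.ι (S.α (R.s t) (y j) - y j)‖ ^ 2 ≤ ε) →
      ∑ j, ‖T.ι (S.α (R.s s0) (y j) - y j)‖ ^ 2 ≤ 100 * ε

variable {S}

theorem TrAct.PerAt.mono {R : RSec G} {b : A} {s0 ε δ : ℝ} (h : S.PerAt R b s0 ε δ) {δ' : ℝ}
    (hδ : δ ≤ δ') : S.PerAt R b s0 ε δ' := by
  intro C
  obtain ⟨D, κ, hD, hκ, h⟩ := h C
  exact ⟨D, κ, hD, hκ, fun J _ y h1 h2 h3 h4 h5 h6 => h J y h1 h2 h3 h4 h5
    fun t ht => h6 t (ht.trans hδ)⟩

variable (S)

theorem amp_sum_le0 (φ : ℝ → ℂ) (hφ : ∀ t, ‖φ t‖ = 1) (a : ℝ) (L : ℕ) (F : Finset ℤ) :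
    ∑ j ∈ F, ‖φ (a * j) * win L j‖ ^ 2 ≤ 1 := by
  refine le_trans (le_of_eq (Finset.sum_congr rfl fun j _ => ?_)) (win_sum_le L F)
  rw [norm_mul, hφ, one_mul]

/-- translation of the Gram elements by lattice points -/
theorem TrAct.act_s_gr (R : RSec G) {F : Finset ℤ} (E : Chs ℤ F) {a : ℝ} {e : A} (m : ℤ)
    (f : ℤ → ℂ) (h1 : ∀ j, f j ≠ 0 → j ∈ F ∧ j + m ∈ F) (c : E.C) :
    S.α (R.s (a * m)) (S.gr R E a e f c) = S.gr R E a e (fun j => f (j - m)) c := by
  rw [S.act_gr, S.shift_pk R E m f h1, star_mul_self_phase]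
  · rfl
  · rw [RCLike.norm_conj, E.unit]

theorem TrAct.gram_periodic (R : RSec G) (s0 T0 ε : ℝ) (hs0 : 0 < s0) (hT0 : 0 < T0) (hε : 0 < ε)
    (φ : ℝ → ℂ) (hφc : Continuous φ) (hφ : ∀ t, ‖φ t‖ = 1) :
    ∃ δ : ℝ, 0 < δ ∧ ∀ b : A, S.IsPrj b → S.PerAt R b s0 ((ε / 20) ^ 2) δ →
      ∀ C : ℝ, ∃ (D : Set G) (κ : ℝ), IsCompact D ∧ 0 < κ ∧
        ∀ e : A, b * e = e → e * b = e → ‖T.ι e‖ ≤ 1 → ‖e‖ ^ 2 ≤ C →
          (∀ h ∈ D, R.p h = 0 → ∀ t : ℝ, |t| ≤ T0 →
            ‖T.ι (S.α h (S.α (R.s t) e) - S.α (R.s t) e)‖ ≤ κ) →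
          ∃ a0 : ℝ, 0 < a0 ∧ ∀ m L M : ℕ, 0 < m → s0 / m ≤ a0 → s0 / m * L ≤ T0 →
            T0 < s0 / m * (L + 1) → L + m + 1 ≤ M → ∀ E : Chs ℤ (Finset.Icc (-(M : ℤ)) M),
            ∑ c, T.n1 (S.gr R E (s0 / m) e
                (fun j => φ (s0 / m * (j - (m : ℤ) : ℤ)) * win L (j - (m : ℤ))) c
              - S.gr R E (s0 / m) e (fun j => φ (s0 / m * j) * win L j) c) ≤ ε := by
  obtain ⟨εp, hεp⟩ : ∃ εp : ℝ, εp = (ε / 20) ^ 2 := ⟨_, rfl⟩
  have hεp0 : 0 < εp := by rw [hεp]; positivity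
  obtain ⟨θ, hθ⟩ : ∃ θ : ℝ, θ = (εp / 2) ^ 2 / 3 := ⟨_, rfl⟩
  have hθ0 : 0 < θ := by rw [hθ]; positivity
  -- the modulus of continuity of `φ`
  obtain ⟨δ1, hδ1, hmod⟩ : ∃ δ1 : ℝ, 0 < δ1 ∧ ∀ t t' : ℝ, |t| ≤ T0 + 2 → |t'| ≤ T0 + 2 →
      |t - t'| ≤ 2 * δ1 → ‖φ t - φ t'‖ ≤ √θ / 2 := by
    have hc : UniformContinuousOn φ (Set.Icc (-(T0 + 2)) (T0 + 2)) :=
      isCompact_Icc.uniformContinuousOn_of_continuous hφc.continuousOn
    rw [Metric.uniformContinuousOn_iff_le] at hc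
    obtain ⟨δ', hδ', h⟩ := hc (√θ / 2) (by positivity)
    refine ⟨δ' / 2, by positivity, fun t t' ht ht' htt => ?_⟩
    have h1 := h t (abs_le.1 ht) t' (abs_le.1 ht') (by
      rw [Real.dist_eq]
      linarith)
    rwa [dist_eq_norm] at h1
  obtain ⟨δ, hδ⟩ : ∃ δ : ℝ, δ = min (min 1 s0) (min δ1 (θ * T0 / 16)) := ⟨_, rfl⟩
  have hδ0 : 0 < δ := by
    rw [hδ]
    exact lt_min (lt_min one_pos hs0) (lt_min hδ1 (by positivity))
  have hδa : δ ≤ 1 := by rw [hδ]; exact (min_le_left _ _).trans (min_le_left _ _)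
  have hδb : δ ≤ s0 := by rw [hδ]; exact (min_le_left _ _).trans (min_le_right _ _)
  have hδc : δ ≤ δ1 := by rw [hδ]; exact (min_le_right _ _).trans (min_le_left _ _)
  have hδd : δ ≤ θ * T0 / 16 := by rw [hδ]; exact (min_le_right _ _).trans (min_le_right _ _)
  refine ⟨δ, hδ0, fun b hb hper C => ?_⟩
  rw [← hεp] at hper
  obtain ⟨D, κ, hD, hκ, hper⟩ := hper C
  refine ⟨D, κ / 2, hD, by positivity, fun e hbe heb hιe heC hnear => ?_⟩
  -- regularity of `e`
  obtain ⟨a1, ha1, hreg⟩ : ∃ a1 : ℝ, 0 < a1 ∧ ∀ r : ℝ, |r| ≤ a1 →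
      ‖T.ι (S.α (R.s r) e - e)‖ ^ 2 ≤ θ / 2 := by
    have hc : Continuous fun r : ℝ => ‖T.ι (S.α (R.s r) e) - T.ι e‖ ^ 2 :=
      (((S.cont e).comp R.hs).sub continuous_const).norm.pow 2
    have h0 : ‖T.ι (S.α (R.s 0) e) - T.ι e‖ ^ 2 = 0 := by
      have hs00 : R.s 0 = 1 := by
        have := R.smul 0 0
        rw [add_zero] at this
        exact (mul_eq_left.1 this.symm)
      rw [hs00, S.one, sub_self, norm_zero]
      norm_num
    have h1 := hc.tendsto 0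
    rw [h0] at h1
    have h2 := (Metric.tendsto_nhds_nhds.1 h1) (θ / 2) (by positivity)
    obtain ⟨d, hd, h3⟩ := h2
    refine ⟨d / 2, by positivity, fun r hr => ?_⟩
    have h4 := h3 (x := r) (by rw [Real.dist_eq, sub_zero]; linarith)
    rw [Real.dist_eq, sub_zero, abs_of_nonneg (sq_nonneg _)] at h4
    rw [map_sub]
    exact h4.le
  refine ⟨min a1 δ, lt_min ha1 hδ0, fun m L M hm ha haL haL' hM E => ?_⟩
  obtain ⟨a, haeq⟩ : ∃ a : ℝ, a = s0 / m := ⟨_, rfl⟩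
  rw [← haeq] at ha haL haL' ⊢
  have hm0 : (0 : ℝ) < m := by exact_mod_cast hm
  have ha0 : 0 < a := by rw [haeq]; positivity
  have ham : a * m = s0 := by rw [haeq]; field_simp
  have habs : ∀ x : ℝ, a * |x| = |a * x| := fun x => by rw [abs_mul, abs_of_pos ha0]
  obtain ⟨f, hf⟩ : ∃ f : ℤ → ℂ, ∀ j, f j = φ (a * j) * win L j := ⟨_, fun _ => rfl⟩
  have hfe : (fun j : ℤ => φ (a * j) * win L j) = f := funext fun j => (hf j).symm
  have hfe2 : (fun j : ℤ => φ (a * (j - (m : ℤ) : ℤ)) * win L (j - (m : ℤ)))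
      = fun j => f (j - (m : ℤ)) := funext fun j => (hf _).symm
  rw [hfe, hfe2]
  have hf1 : ∑ j ∈ Finset.Icc (-(M : ℤ)) M, ‖f j‖ ^ 2 ≤ 1 := by
    rw [← hfe]
    exact amp_sum_le0 φ hφ a L _
  have hfne : ∀ j, f j ≠ 0 → |j| ≤ (L : ℤ) := by
    intro j hj
    rw [hf] at hj
    exact win_ne (right_ne_zero_of_mul hj)
  have hsupp : ∀ m' : ℤ, |m'| ≤ (m : ℤ) + 1 → ∀ j, f j ≠ 0 →
      j ∈ Finset.Icc (-(M : ℤ)) M ∧ j + m' ∈ Finset.Icc (-(M : ℤ)) M := by
    intro m' hm' j hj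
    have h1 := abs_le.1 (hfne j hj)
    have h2 := abs_le.1 hm'
    have h3 : (L : ℤ) + m + 1 ≤ M := by exact_mod_cast hM
    rw [Finset.mem_Icc, Finset.mem_Icc]
    omega
  -- the family of square roots
  have hsq := hper E.C (S.sq R E a e f) (fun c => (S.sq_corner R E hb heb f c).1)
    (fun c => (S.sq_corner R E hb heb f c).2) ((S.sq_dm R E hf1).mono heC)
    (S.sq_ms R E hιe hf1)
    (fun h hh hp => by
      refine (S.sum_sq_sub R E h f f).trans ?_
      have h1 := S.act_pk R E (a := a) (e := e) h f (fun _ => 1) (κ := κ / 2) (fun j hj hj0 => by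
        rw [one_smul]
        refine hnear h hh hp _ ?_
        rw [abs_mul, abs_of_pos ha0]
        have h2 : |(j : ℝ)| ≤ L := by
          have := hfne j hj0
          exact_mod_cast this
        exact (mul_le_mul_of_nonneg_left h2 ha0.le).trans haL)
      simp only [one_mul] at h1
      have h3 : ∑ c, ‖T.ι (S.α h (S.pk R E a e f c) - (1 : ℂ) • S.pk R E a e f c)‖ ^ 2
          ≤ (κ / 2) ^ 2 := by
        simp only [one_smul]
        refine h1.trans ?_
        nlinarith [sq_nonneg (κ / 2)]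
      have h4 := S.sum_n1_act_gr R E hιe h hf1 hf1 (fun _ => (1 : ℂ)) (fun _ => norm_one)
        (by positivity) h3
      linarith)
    (fun t ht => by
      refine (S.sum_sq_sub R E _ f f).trans ?_
      obtain ⟨m', hm'⟩ : ∃ m' : ℤ, m' = ⌊t / a⌋ := ⟨_, rfl⟩
      obtain ⟨r, hr⟩ : ∃ r : ℝ, r = t - a * m' := ⟨_, rfl⟩
      have h1 : (m' : ℝ) ≤ t / a := by rw [hm']; exact Int.floor_le _
      have h2 : t / a < m' + 1 := by rw [hm']; exact Int.lt_floor_add_one _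
      have h3 : a * m' ≤ t := by
        rw [le_div_iff₀ ha0] at h1
        linarith
      have h4 : t < a * m' + a := by
        rw [div_lt_iff₀ ha0] at h2
        linarith
      have hr0 : 0 ≤ r := by rw [hr]; linarith
      have hra : r ≤ a := by rw [hr]; linarith
      have haδ : a ≤ δ := ha.trans (min_le_right _ _)
      have ht' := abs_le.1 ht
      have hm'abs : a * |(m' : ℝ)| ≤ 2 * δ := by
        rw [habs, abs_le]
        constructor <;> linarith
      have hm'm : |m'| ≤ (m : ℤ) + 1 := by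
        have h5 : a * |(m' : ℝ)| < a * (m + 2) := by
          have h6 : a * |(m' : ℝ)| < δ + 2 * a := by
            rw [habs, abs_lt]
            constructor <;> linarith
          calc a * |(m' : ℝ)| < δ + 2 * a := h6
            _ ≤ s0 + 2 * a := by linarith
            _ = a * (m + 2) := by rw [← ham]; ring
        have h7 := lt_of_mul_lt_mul_left h5 ha0.le
        have h8 : |m'| < (m : ℤ) + 2 := by exact_mod_cast h7
        omega
      have htr : t = a * m' + r := by rw [hr]; ring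
      have h5 := S.sum_act_s_pk R E (a := a) hιe m' r f hf1 (hsupp m' hm'm)
      rw [← htr] at h5
      have h6 : ∑ j ∈ Finset.Icc (-(M : ℤ)) M, ‖f (j - m') - f j‖ ^ 2
          ≤ 4 * |(m' : ℝ)| / (2 * (L : ℝ) + 1) + 2 * (√θ / 2) ^ 2 := by
        simp only [hf]
        refine amp_shift φ hφ a L m' _ (√θ / 2) fun j hj => ?_
        have hjL : |(j : ℝ)| ≤ L := by exact_mod_cast hj
        have h7 : |a * (j : ℝ)| ≤ T0 := by
          rw [abs_mul, abs_of_pos ha0]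
          exact (mul_le_mul_of_nonneg_left hjL ha0.le).trans haL
        have h8 : a * ((j - m' : ℤ) : ℝ) = a * j - a * m' := by push_cast; ring
        have h9 : |a * (m' : ℝ)| ≤ 2 * δ := by rw [abs_mul, abs_of_pos ha0]; exact hm'abs
        refine hmod _ _ ?_ (by linarith) ?_
        · rw [h8]
          refine (abs_sub _ _).trans ?_
          linarith
        · rw [h8, show a * (j : ℝ) - a * m' - a * j = -(a * m') by ring, abs_neg]
          linarith
      have h7 : 8 * |(m' : ℝ)| / (2 * (L : ℝ) + 1) ≤ θ := by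
        rw [div_le_iff₀ (by positivity)]
        have h8 : T0 ≤ a * (2 * (L : ℝ) + 1) := by
          have : a * ((L : ℝ) + 1) ≤ a * (2 * (L : ℝ) + 1) :=
            mul_le_mul_of_nonneg_left (by linarith [Nat.cast_nonneg (α := ℝ) L]) ha0.le
          linarith
        have h9 : a * (8 * |(m' : ℝ)|) ≤ a * (θ * (2 * (L : ℝ) + 1)) := by
          calc a * (8 * |(m' : ℝ)|) = 8 * (a * |(m' : ℝ)|) := by ring
            _ ≤ 16 * δ := by linarith
            _ ≤ θ * T0 := by linarith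
            _ ≤ θ * (a * (2 * (L : ℝ) + 1)) := mul_le_mul_of_nonneg_left h8 hθ0.le
            _ = a * (θ * (2 * (L : ℝ) + 1)) := by ring
        exact le_of_mul_le_mul_left h9 ha0
      have h8 : ‖T.ι (S.α (R.s r) e - e)‖ ^ 2 ≤ θ / 2 :=
        hreg r (by rw [abs_of_nonneg hr0]; exact hra.trans (ha.trans (min_le_left _ _)))
      have h9 : (√θ / 2) ^ 2 = θ / 4 := by rw [div_pow, Real.sq_sqrt hθ0.le]; norm_num
      have h10 : ∑ c, ‖T.ι (S.α (R.s t) (S.pk R E a e f c)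
          - conj (E.χ c m') • S.pk R E a e f c)‖ ^ 2 ≤ (εp / 2) ^ 2 := by
        refine h5.trans ?_
        have h11 : (εp / 2) ^ 2 = 3 * θ := by rw [hθ]; ring
        have h12 : 4 * |(m' : ℝ)| / (2 * (L : ℝ) + 1)
            = 8 * |(m' : ℝ)| / (2 * (L : ℝ) + 1) / 2 := by ring
        rw [h11]
        rw [h9, h12] at h6
        linarith
      have h11 := S.sum_n1_act_gr R E hιe (R.s t) hf1 hf1 (fun c => conj (E.χ c m'))
        (fun c => by rw [RCLike.norm_conj, E.unit]) (by positivity) h10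
      linarith)
  have h1 : (100 : ℝ) * εp = (ε / 2) ^ 2 := by rw [hεp]; ring
  rw [h1] at hsq
  have h2 := S.sum_n1_gr_of_sq R E hιe (R.s s0) hf1 hf1 (by positivity) hsq
  have h3 : ∀ c, S.α (R.s s0) (S.gr R E a e f c) = S.gr R E a e (fun j => f (j - (m : ℤ))) c := by
    intro c
    have h4 := S.act_s_gr R E (a := a) (e := e) (m : ℤ) f (hsupp (m : ℤ) (by
      rw [abs_of_nonneg (Int.natCast_nonneg m)]; omega)) c
    rw [← h4]
    congr 3
    rw [← ham]
    push_cast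
    ring
  simp only [h3] at h2
  linarith

end

end Pool.Agent.AbCoc
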