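import Pool.Agent.Lib_MP_418a80_t3.Fam
import Pool.Agent.Lib_MP_418a80_t3.Comp1

/-!
# MP_418a80_an, T3: data of the weight step, elements with phases

`G = H s(ℝ)`, `H = ker p` closed normal, `ξ : H → U` a continuous homomorphism onto a finite
dimensional space with a continuous section `ω`, `ξ (s(t) h s(t)⁻¹) = ρ(t) (ξ h)`, and `ρ(t) - 1` is
injective for `t ≠ 0` (all weights with nonzero real part, real or complex, and many unipotent
situations are of this kind).
-/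

set_option autoImplicit false
set_option linter.unusedVariables false
set_option linter.unusedSectionVars false

open Topology Filter MeasureTheory
open scoped RealInnerProductSpace ComplexConjugate

namespace Pool.Agent.AbCoc

universe u v w z

/-- data of the weight step -/
structure WtData (G : Type w) [Group G] [TopologicalSpace G] (U : Type z) [NormedAddCommGroup U]
    [NormedSpace ℝ U] where
  R : RSec G
  /-- only the values on `ker p` matter -/
  ξ : G → U
  hξ : Continuous ξ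
  ξ_mul : ∀ g h, R.p g = 0 → R.p h = 0 → ξ (g * h) = ξ g + ξ h
  ω : U → G
  hω : Continuous ω
  pω : ∀ l, R.p (ω l) = 0
  ξω : ∀ l, ξ (ω l) = l
  ρ : ℝ → U →L[ℝ] U
  hρ : Continuous ρ
  ρ_add : ∀ s t, ρ (s + t) = (ρ s).comp (ρ t)
  ρ_zero : ρ 0 = ContinuousLinearMap.id ℝ U
  ξ_conj : ∀ t h, R.p h = 0 → ξ (R.s t * h * (R.s t)⁻¹) = ρ t (ξ h)
  ρ_fix : ∀ t, t ≠ 0 → ∀ l, ρ t l = l → l = 0

section
variable {A : Type u} [CStarAlgebra A] {K : Type v} [NormedAddCommGroup K]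
  [InnerProductSpace ℂ K] [CompleteSpace K]
variable {G : Type w} [Group G] [TopologicalSpace G] {T : TrAlg A K} (S : TrAct G T)
  {U : Type z} [NormedAddCommGroup U] [NormedSpace ℝ U]

/-- the phases `g_l(t)` -/
noncomputable def WtData.ph (W : WtData G U) (χ : U →L[ℝ] ℝ) (l : U) (t : ℝ) : ℂ :=
  ch (χ (W.ρ (-t) l))

/-- contractions of the corner `b A b`, near-invariant under `ker p` (error `κ` on `D`), whose
translates are multiplied by the phases `g l t` under the elements `β l` of `ker p`, for `l ∈ Λ` -/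
structure TrAct.PElt (R : RSec G) (g : U → ℝ → ℂ) (b : A) (T0 : ℝ) (D : Set G) (κ : ℝ) (Λ : Set U)
    (e : A) (β : U → G) : Prop where
  lft : b * e = e
  rgt : e * b = e
  nrm : ‖e‖ ≤ 1
  nearH : ∀ h ∈ D, R.p h = 0 → ∀ t : ℝ, |t| ≤ T0 →
    ‖T.ι (S.α h (S.α (R.s t) e) - S.α (R.s t) e)‖ ≤ κ
  pβ : ∀ l, R.p (β l) = 0
  phase : ∀ l ∈ Λ, ∀ t : ℝ, |t| ≤ T0 →
    ‖T.ι (S.α (β l) (S.α (R.s t) e) - g l t • S.α (R.s t) e)‖ ≤ κ

variable {S}

theorem TrAct.PElt.mono {R : RSec G} {g : U → ℝ → ℂ} {b : A} {T0 : ℝ} {D : Set G} {κ : ℝ}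
    {Λ : Set U} {e : A} {β : U → G} (h : S.PElt R g b T0 D κ Λ e β) {T0' κ' : ℝ} {D' : Set G}
    {Λ' : Set U} (hT : T0' ≤ T0) (hD : D' ⊆ D) (hκ : κ ≤ κ') (hΛ : Λ' ⊆ Λ) :
    S.PElt R g b T0' D' κ' Λ' e β where
  lft := h.lft
  rgt := h.rgt
  nrm := h.nrm
  nearH := fun x hx hp t ht => (h.nearH x (hD hx) hp t (ht.trans hT)).trans hκ
  pβ := h.pβ
  phase := fun l hl t ht => (h.phase l (hΛ hl) t (ht.trans hT)).trans hκ

end

end Pool.Agent.AbCoc
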