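import Pool.Agent.Lib_MP_418a80_t3.Inv1
import Pool.Agent.Lib_MP_418a80_t3.WtDefs

/-!
# MP_418a80_an, T3: the Gram elements of packets are invariant under the phases
-/

set_option autoImplicit false
set_option linter.unusedVariables false
set_option linter.unusedSectionVars false

open Topology Filter MeasureTheory
open scoped RealInnerProductSpace ComplexConjugate

namespace Pool.Agent.AbCoc

universe u v w z

section
variable {G : Type w} [Group G] [TopologicalSpace G] {U : Type z} [NormedAddCommGroup U]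
  [NormedSpace ℝ U] (W : WtData G U) (χ : U →L[ℝ] ℝ)

theorem WtData.norm_ph (l : U) (t : ℝ) : ‖W.ph χ l t‖ = 1 := norm_ch _

theorem WtData.ph_add (l l' : U) (t : ℝ) : W.ph χ (l + l') t = W.ph χ l t * W.ph χ l' t := by
  unfold WtData.ph
  rw [map_add, map_add, ch_add]

theorem WtData.continuous_ph (l : U) : Continuous (W.ph χ l) := by
  have h1 : Continuous fun t : ℝ => W.ρ (-t) l :=
    (W.hρ.comp continuous_neg).clm_apply continuous_const
  exact continuous_ch.comp (χ.continuous.comp h1)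

theorem WtData.conj_ph (l : U) (t : ℝ) : conj (W.ph χ l t) = W.ph χ (-l) t := by
  unfold WtData.ph
  rw [conj_ch, map_neg, map_neg]

theorem WtData.ph_mul_conj (l : U) (t : ℝ) : W.ph χ l t * conj (W.ph χ l t) = 1 := ch_mul_conj _

/-- `g_l(t + s0) g_l(t)⁻¹ = g_{ρ(-s0) l - l}(t)` -/
theorem WtData.ph_shift (l : U) (s0 t : ℝ) :
    W.ph χ l (t + s0) * conj (W.ph χ l t) = W.ph χ (W.ρ (-s0) l - l) t := by
  unfold WtData.ph
  rw [← ch_sub, ← map_sub]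
  congr 2
  rw [map_sub, neg_add, W.ρ_add]
  rfl

theorem WtData.exists_pre [FiniteDimensional ℝ U] (s0 : ℝ) (hs0 : s0 ≠ 0) (l' : U) :
    ∃ l : U, W.ρ (-s0) l - l = l' := by
  obtain ⟨B, hB⟩ : ∃ B : U →ₗ[ℝ] U, ∀ l, B l = W.ρ (-s0) l - l :=
    ⟨(W.ρ (-s0)).toLinearMap - LinearMap.id, fun _ => rfl⟩
  have hinj : Function.Injective B := by
    rw [injective_iff_map_eq_zero]
    intro l hl
    rw [hB, sub_eq_zero] at hl
    exact W.ρ_fix (-s0) (neg_ne_zero.2 hs0) l hl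
  obtain ⟨l, hl⟩ := (LinearMap.injective_iff_surjective.1 hinj) l'
  exact ⟨l, by rw [← hB, hl]⟩

end

section
variable {A : Type u} [CStarAlgebra A] {K : Type v} [NormedAddCommGroup K]
  [InnerProductSpace ℂ K] [CompleteSpace K]
variable {G : Type w} [Group G] [TopologicalSpace G] {T : TrAlg A K} (S : TrAct G T)
  {U : Type z} [NormedAddCommGroup U] [NormedSpace ℝ U] [FiniteDimensional ℝ U]

/-- normalised elements with phases: `‖e‖₂ = 1`, `‖e‖² ≤ C` -/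
structure TrAct.NElt (R : RSec G) (g : U → ℝ → ℂ) (b : A) (T0 : ℝ) (D : Set G) (κ : ℝ) (Λ : Set U)
    (C : ℝ) (e : A) (β : U → G) : Prop where
  lft : b * e = e
  rgt : e * b = e
  nrm : ‖T.ι e‖ = 1
  op : ‖e‖ ^ 2 ≤ C
  nearH : ∀ h ∈ D, R.p h = 0 → ∀ t : ℝ, |t| ≤ T0 →
    ‖T.ι (S.α h (S.α (R.s t) e) - S.α (R.s t) e)‖ ≤ κ
  pβ : ∀ l, R.p (β l) = 0
  phase : ∀ l ∈ Λ, ∀ t : ℝ, |t| ≤ T0 →
    ‖T.ι (S.α (β l) (S.α (R.s t) e) - g l t • S.α (R.s t) e)‖ ≤ κ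

variable {S} in
theorem TrAct.NElt.mono {R : RSec G} {g : U → ℝ → ℂ} {b : A} {T0 : ℝ} {D : Set G} {κ : ℝ}
    {Λ : Set U} {C : ℝ} {e : A} {β : U → G} (h : S.NElt R g b T0 D κ Λ C e β) {T0' κ' : ℝ}
    {D' : Set G} {Λ' : Set U} (hT : T0' ≤ T0) (hD : D' ⊆ D) (hκ : κ ≤ κ') (hΛ : Λ' ⊆ Λ) :
    S.NElt R g b T0' D' κ' Λ' C e β where
  lft := h.lft
  rgt := h.rgt
  nrm := h.nrm
  op := h.op
  nearH := fun x hx hp t ht => (h.nearH x (hD hx) hp t (ht.trans hT)).trans hκ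
  pβ := h.pβ
  phase := fun l hl t ht => (h.phase l (hΛ hl) t (ht.trans hT)).trans hκ

variable {S} in
/-- normalisation of an element with phases -/
theorem TrAct.PElt.normalise {R : RSec G} {g : U → ℝ → ℂ} {b : A} {T0 : ℝ} {D : Set G} {κ : ℝ}
    {Λ : Set U} {e : A} {β : U → G} (h : S.PElt R g b T0 D κ Λ e β) {c : ℝ} (hc : 0 < c)
    (hce : c ≤ ‖T.ι e‖ ^ 2) :
    S.NElt R g b T0 D (κ / √c) Λ (1 / c) (((‖T.ι e‖⁻¹ : ℝ) : ℂ) • e) β := by
  have hsc : 0 < √c := Real.sqrt_pos.2 hc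
  have hne : √c ≤ ‖T.ι e‖ := by
    rw [← Real.sqrt_sq (norm_nonneg (T.ι e))]
    exact Real.sqrt_le_sqrt hce
  have hn0 : 0 < ‖T.ι e‖ := hsc.trans_le hne
  have hsm : ∀ x y : A, ‖T.ι x‖ ≤ κ → x = y →
      ‖T.ι (((‖T.ι e‖⁻¹ : ℝ) : ℂ) • y)‖ ≤ κ / √c := by
    rintro x _ hx rfl
    rw [map_smul, norm_smul, Complex.norm_real, norm_inv, norm_norm, div_eq_mul_inv, mul_comm]
    exact mul_le_mul hx (inv_anti₀ hsc hne) (inv_nonneg.2 hn0.le) ((norm_nonneg _).trans hx)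
  refine ⟨?_, ?_, ?_, ?_, ?_, h.pβ, ?_⟩
  · rw [mul_smul_comm, h.lft]
  · rw [smul_mul_assoc, h.rgt]
  · rw [map_smul, norm_smul, Complex.norm_real, norm_inv, norm_norm, inv_mul_cancel₀ hn0.ne']
  · rw [norm_smul, Complex.norm_real, norm_inv, norm_norm, mul_pow]
    have h1 : ‖e‖ ^ 2 ≤ 1 := pow_le_one₀ (norm_nonneg _) h.nrm
    have h2 : (‖T.ι e‖⁻¹) ^ 2 ≤ 1 / c := by
      rw [inv_pow, one_div]
      exact inv_anti₀ hc hce
    calc (‖T.ι e‖⁻¹) ^ 2 * ‖e‖ ^ 2 ≤ 1 / c * 1 :=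
          mul_le_mul h2 h1 (sq_nonneg _) (by positivity)
      _ = 1 / c := mul_one _
  · intro x hx hp t ht
    have h1 := hsm _ _ (h.nearH x hx hp t ht) rfl
    rw [smul_sub] at h1
    rw [map_smul, map_smul]
    exact h1
  · intro l hl t ht
    have h1 := hsm _ _ (h.phase l hl t ht) rfl
    rw [smul_sub, smul_comm] at h1
    rw [map_smul, map_smul]
    exact h1

theorem TrAct.gram_inv (W : WtData G U) (χ : U →L[ℝ] ℝ) (s0 T0 ε : ℝ) (hs0 : 0 < s0) (hT0 : 0 < T0)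
    (hε : 0 < ε) (φ : ℝ → ℂ) (hφc : Continuous φ) (hφ : ∀ t, ‖φ t‖ = 1) (l' : U) :
    ∃ δ : ℝ, 0 < δ ∧ ∀ b : A, S.IsPrj b → S.PerAt W.R b s0 ((ε / 80) ^ 2) δ →
      ∀ C : ℝ, ∃ (D : Set G) (κ : ℝ) (l : U), IsCompact D ∧ 0 < κ ∧
        ∀ (e : A) (β : U → G), S.NElt W.R (W.ph χ) b (T0 + s0) D κ {l} C e β →
          ∃ a0 : ℝ, 0 < a0 ∧ ∀ m L M : ℕ, 0 < m → s0 / m ≤ a0 → s0 / m * L ≤ T0 →
            T0 < s0 / m * (L + 1) → L + m + 1 ≤ M → ∀ E : Chs ℤ (Finset.Icc (-(M : ℤ)) M),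
            ∑ c, T.n1 (S.gr W.R E (s0 / m) e
                (fun j => W.ph χ l' (s0 / m * j) * (φ (s0 / m * j) * win L j)) c
              - S.gr W.R E (s0 / m) e (fun j => φ (s0 / m * j) * win L j) c) ≤ ε := by
  obtain ⟨l, hl⟩ := W.exists_pre s0 hs0.ne' l'
  obtain ⟨φ2, hφ2⟩ : ∃ φ2 : ℝ → ℂ, ∀ t, φ2 t = φ t * conj (W.ph χ l t) := ⟨_, fun _ => rfl⟩
  have hφ2c : Continuous φ2 := by
    rw [funext hφ2]
    exact hφc.mul (Complex.continuous_conj.comp (W.continuous_ph χ l))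
  have hφ2n : ∀ t, ‖φ2 t‖ = 1 := by
    intro t
    rw [hφ2, norm_mul, hφ, RCLike.norm_conj, W.norm_ph, one_mul]
  obtain ⟨δ1, hδ1, hP1⟩ := S.gram_periodic W.R s0 T0 (ε / 4) hs0 hT0 (by positivity) φ hφc hφ
  obtain ⟨δ2, hδ2, hP2⟩ := S.gram_periodic W.R s0 T0 (ε / 4) hs0 hT0 (by positivity) φ2 hφ2c hφ2n
  refine ⟨min δ1 δ2, lt_min hδ1 hδ2, fun b hb hper C => ?_⟩
  have e80 : (ε / 80) ^ 2 = (ε / 4 / 20) ^ 2 := by ring
  rw [e80] at hper
  obtain ⟨D1, κ1, hD1, hκ1, hP1⟩ := hP1 b hb (hper.mono (min_le_left _ _)) C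
  obtain ⟨D2, κ2, hD2, hκ2, hP2⟩ := hP2 b hb (hper.mono (min_le_right _ _)) C
  refine ⟨D1 ∪ D2, min (min κ1 κ2) (ε / 8), l, hD1.union hD2,
    lt_min (lt_min hκ1 hκ2) (by positivity), fun e β he => ?_⟩
  have hT0s : T0 ≤ T0 + s0 := by linarith
  obtain ⟨a1, ha1, hP1⟩ := hP1 e he.lft he.rgt he.nrm.le he.op fun h hh hp t ht =>
    (he.nearH h (Or.inl hh) hp t (ht.trans hT0s)).trans
      ((min_le_left _ _).trans (min_le_left _ _))
  obtain ⟨a2, ha2, hP2⟩ := hP2 e he.lft he.rgt he.nrm.le he.op fun h hh hp t ht =>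
    (he.nearH h (Or.inr hh) hp t (ht.trans hT0s)).trans
      ((min_le_left _ _).trans (min_le_right _ _))
  refine ⟨min a1 a2, lt_min ha1 ha2, fun m L M hm ha haL haL' hM E => ?_⟩
  have h1 := hP1 m L M hm (ha.trans (min_le_left _ _)) haL haL' hM E
  have h2 := hP2 m L M hm (ha.trans (min_le_right _ _)) haL haL' hM E
  obtain ⟨a, haeq⟩ : ∃ a : ℝ, a = s0 / m := ⟨_, rfl⟩
  rw [← haeq] at haL haL' h1 h2 ⊢
  have hm0 : (0 : ℝ) < m := by exact_mod_cast hm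
  have ha0 : 0 < a := by rw [haeq]; positivity
  have ham : a * m = s0 := by rw [haeq]; field_simp
  have hιe : ‖T.ι e‖ ≤ 1 := he.nrm.le
  obtain ⟨f, hf⟩ : ∃ f : ℤ → ℂ, ∀ j, f j = φ (a * j) * win L j := ⟨_, fun _ => rfl⟩
  obtain ⟨f2, hf2⟩ : ∃ f2 : ℤ → ℂ, ∀ j, f2 j = φ2 (a * j) * win L j := ⟨_, fun _ => rfl⟩
  have hfe : (fun j : ℤ => φ (a * j) * win L j) = f := funext fun j => (hf j).symm
  have hfe2 : (fun j : ℤ => φ2 (a * j) * win L j) = f2 := funext fun j => (hf2 j).symm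
  have hfs : (fun j : ℤ => φ (a * (j - (m : ℤ) : ℤ)) * win L (j - (m : ℤ)))
      = fun j => f (j - (m : ℤ)) := funext fun j => (hf _).symm
  have hfs2 : (fun j : ℤ => φ2 (a * (j - (m : ℤ) : ℤ)) * win L (j - (m : ℤ)))
      = fun j => f2 (j - (m : ℤ)) := funext fun j => (hf2 _).symm
  have hfl : (fun j : ℤ => W.ph χ l' (a * j) * (φ (a * j) * win L j))
      = fun j : ℤ => W.ph χ l' (a * j) * f j := funext fun j => by rw [hf]
  rw [hfe, hfs] at h1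
  rw [hfe2, hfs2] at h2
  rw [hfe, hfl]
  -- supports
  have hfne : ∀ j, f j ≠ 0 → |j| ≤ (L : ℤ) := by
    intro j hj
    rw [hf] at hj
    exact win_ne (right_ne_zero_of_mul hj)
  have hf2ne : ∀ j, f2 j ≠ 0 → |j| ≤ (L : ℤ) := by
    intro j hj
    rw [hf2] at hj
    exact win_ne (right_ne_zero_of_mul hj)
  have hgrid : ∀ j : ℤ, |j| ≤ (L : ℤ) → |a * (j : ℝ)| ≤ T0 := by
    intro j hj
    have h3 : |(j : ℝ)| ≤ L := by exact_mod_cast hj
    rw [abs_mul, abs_of_pos ha0]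
    exact (mul_le_mul_of_nonneg_left h3 ha0.le).trans haL
  have hsupp : ∀ j : ℤ, |j| ≤ (L : ℤ) →
      j ∈ Finset.Icc (-(M : ℤ)) M ∧ j + (m : ℤ) ∈ Finset.Icc (-(M : ℤ)) M := by
    intro j hj
    have h3 := abs_le.1 hj
    have h4 : (L : ℤ) + m + 1 ≤ M := by exact_mod_cast hM
    rw [Finset.mem_Icc, Finset.mem_Icc]
    omega
  -- norms
  have n1 : ∑ j ∈ Finset.Icc (-(M : ℤ)) M, ‖f2 j‖ ^ 2 ≤ 1 := by
    rw [← hfe2]; exact amp_sum_le0 φ2 hφ2n a L _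
  have n2 : ∑ j ∈ Finset.Icc (-(M : ℤ)) M, ‖f2 (j - (m : ℤ))‖ ^ 2 ≤ 1 := by
    have := amp_sum_le φ2 hφ2n a L (m : ℤ) (Finset.Icc (-(M : ℤ)) M)
    refine le_trans (le_of_eq (Finset.sum_congr rfl fun j _ => ?_)) this
    rw [hf2]
  have n3 : ∑ j ∈ Finset.Icc (-(M : ℤ)) M, ‖f j‖ ^ 2 ≤ 1 := by
    rw [← hfe]; exact amp_sum_le0 φ hφ a L _
  have n4 : ∑ j ∈ Finset.Icc (-(M : ℤ)) M, ‖W.ph χ l (a * j) * f2 (j - (m : ℤ))‖ ^ 2 ≤ 1 := by
    refine le_trans (le_of_eq (Finset.sum_congr rfl fun j _ => ?_)) n2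
    rw [norm_mul, W.norm_ph, one_mul]
  have hκ8 : min (min κ1 κ2) (ε / 8) ≤ ε / 8 := min_le_right _ _
  have hfg : (fun j : ℤ => W.ph χ l (a * j) * f2 j) = f := by
    funext j
    rw [hf2, hφ2, hf]
    have := W.ph_mul_conj χ l (a * j)
    linear_combination (φ (a * j) * win L j) * this
  -- (2) the action of `β l` on `gr f2`
  have h3 : ∑ c, T.n1 (S.α (β l) (S.gr W.R E a e f2 c) - S.gr W.R E a e f c) ≤ ε / 4 := by
    have h4 := S.act_pk W.R E (a := a) (e := e) (β l) f2 (fun j => W.ph χ l (a * j))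
      (κ := ε / 8) (fun j hj hj0 => (he.phase l rfl _
        ((hgrid j (hf2ne j hj0)).trans hT0s)).trans hκ8)
    rw [hfg] at h4
    have h5 := S.sum_n1_act_gr W.R E hιe (β l) n1 n3 (fun _ => (1 : ℂ)) (fun _ => norm_one)
      (δ := ε / 8) (by positivity) (by
        simp only [one_smul]
        refine h4.trans ?_
        nlinarith [sq_nonneg (ε / 8)])
    linarith
  -- and on the shifted one
  have h4 : ∑ c, T.n1 (S.α (β l) (S.gr W.R E a e (fun j => f2 (j - (m : ℤ))) c)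
      - S.gr W.R E a e (fun j => W.ph χ l (a * j) * f2 (j - (m : ℤ))) c) ≤ ε / 4 := by
    have h5 := S.act_pk W.R E (a := a) (e := e) (β l) (fun j => f2 (j - (m : ℤ)))
      (fun j => W.ph χ l (a * j)) (κ := ε / 8) (fun j hj hj0 => (he.phase l rfl _ (by
        have h6 := hgrid _ (hf2ne _ hj0)
        have h7 : a * (j : ℝ) = a * ((j - (m : ℤ) : ℤ) : ℝ) + s0 := by
          rw [← ham]; push_cast; ring
        rw [h7]
        refine (abs_add_le _ _).trans ?_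
        rw [abs_of_pos hs0]
        linarith)).trans hκ8)
    have h6 := S.sum_n1_act_gr W.R E hιe (β l) n2 n4 (fun _ => (1 : ℂ)) (fun _ => norm_one)
      (δ := ε / 8) (by positivity) (by
        simp only [one_smul]
        refine h5.trans ?_
        nlinarith [sq_nonneg (ε / 8)])
    linarith
  -- (4) translation by `s0`
  have h5 : ∀ c, S.α (W.R.s s0) (S.gr W.R E a e (fun j => W.ph χ l' (a * j) * f j) c)
      = S.gr W.R E a e (fun j => W.ph χ l (a * j) * f2 (j - (m : ℤ))) c := by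
    intro c
    have h6 := S.act_s_gr W.R E (a := a) (e := e) (m : ℤ) (fun j => W.ph χ l' (a * j) * f j)
      (fun j hj => hsupp j (hfne j (right_ne_zero_of_mul hj))) c
    have h7 : a * ((m : ℤ) : ℝ) = s0 := by rw [← ham]; push_cast; ring
    rw [h7] at h6
    rw [h6]
    congr 1
    funext j
    have h8 : a * (j : ℝ) = a * ((j - (m : ℤ) : ℤ) : ℝ) + s0 := by rw [← ham]; push_cast; ring
    rw [← hl, ← W.ph_shift, hf2, hφ2, hf, ← h8]
    ring
  have h6 : ∀ c, S.α (W.R.s s0) (S.gr W.R E a e f c)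
      = S.gr W.R E a e (fun j => f (j - (m : ℤ))) c := by
    intro c
    have h7 := S.act_s_gr W.R E (a := a) (e := e) (m : ℤ) f (fun j hj => hsupp j (hfne j hj)) c
    have h8 : a * ((m : ℤ) : ℝ) = s0 := by rw [← ham]; push_cast; ring
    rwa [h8] at h7
  -- the chain
  have key : ∀ c, T.n1 (S.gr W.R E a e (fun j => W.ph χ l' (a * j) * f j) c
      - S.gr W.R E a e f c)
      ≤ T.n1 (S.α (β l) (S.gr W.R E a e (fun j => f2 (j - (m : ℤ))) c)
          - S.gr W.R E a e (fun j => W.ph χ l (a * j) * f2 (j - (m : ℤ))) c)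
        + T.n1 (S.gr W.R E a e (fun j => f2 (j - (m : ℤ))) c - S.gr W.R E a e f2 c)
        + T.n1 (S.α (β l) (S.gr W.R E a e f2 c) - S.gr W.R E a e f c)
        + T.n1 (S.gr W.R E a e (fun j => f (j - (m : ℤ))) c - S.gr W.R E a e f c) := by
    intro c
    rw [← S.n1_act (W.R.s s0), map_sub, h5, h6]
    rw [← S.n1_act (β l) (S.gr W.R E a e (fun j => f2 (j - (m : ℤ))) c - S.gr W.R E a e f2 c),
      map_sub]
    have t1 := T.n1_sub_le_add
      (S.gr W.R E a e (fun j => W.ph χ l (a * j) * f2 (j - (m : ℤ))) c)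
      (S.α (β l) (S.gr W.R E a e (fun j => f2 (j - (m : ℤ))) c))
      (S.gr W.R E a e (fun j => f (j - (m : ℤ))) c)
    have t2 := T.n1_sub_le_add
      (S.α (β l) (S.gr W.R E a e (fun j => f2 (j - (m : ℤ))) c))
      (S.α (β l) (S.gr W.R E a e f2 c))
      (S.gr W.R E a e (fun j => f (j - (m : ℤ))) c)
    have t3 := T.n1_sub_le_add (S.α (β l) (S.gr W.R E a e f2 c)) (S.gr W.R E a e f c)
      (S.gr W.R E a e (fun j => f (j - (m : ℤ))) c)
    rw [T.n1_sub_comm (S.gr W.R E a e (fun j => W.ph χ l (a * j) * f2 (j - (m : ℤ))) c)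
      (S.α (β l) (S.gr W.R E a e (fun j => f2 (j - (m : ℤ))) c))] at t1
    rw [T.n1_sub_comm (S.gr W.R E a e f c)] at t3
    linarith
  refine (Finset.sum_le_sum fun c _ => key c).trans ?_
  rw [Finset.sum_add_distrib, Finset.sum_add_distrib, Finset.sum_add_distrib]
  linarith

end

end Pool.Agent.AbCoc
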