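import Pool.Agent.Lib_MP_418a80_nm.NKey
import Pool.Agent.Lib_MP_418a80_hyp.OrbInt
import Pool.Agent.Lib_MP_418a80_ab.FamDom

/-!
# `StepADom` from KEY for the action and for its amplification by `2 × 2` matrices
-/

set_option autoImplicit false
set_option linter.unusedVariables false
set_option linter.unusedSectionVars false

open MeasureTheory Topology Filter

namespace Pool.Agent.AbCoc

universe u v w z

section
variable {A : Type u} [CStarAlgebra A] [PartialOrder A] [StarOrderedRing A]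
  {K : Type v} [NormedAddCommGroup K] [InnerProductSpace ℂ K] [CompleteSpace K]
variable {G : Type w} [Group G] [TopologicalSpace G] {T : TrAlg A K} (S : TrAct G T)

/-- the column estimate: if `E (u_i u_j*)` is almost `δ_ij / 2` then the mass of `(E u_i)` is almost
at most `1/2` -/
theorem TrAct.column_estimate (u : Fin 2 → A) (hu : ∀ i, ‖u i‖ ≤ 1) (δ : ℝ) (hδ : 0 ≤ δ)
    (h : ∀ i j, ‖T.ι (S.E (u i * star (u j)) - (if i = j then (1 / 2 : ℂ) else 0) • (1 : A))‖ ≤ δ) :
    (∑ i, ‖T.ι (S.E (u i))‖ ^ 2) ^ 2 ≤ (∑ i, ‖T.ι (S.E (u i))‖ ^ 2) / 2 + 4 * δ := by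
  obtain ⟨z, hz⟩ : ∃ z : Fin 2 → A, z = fun i => S.E (u i) := ⟨_, rfl⟩
  have hzi : ∀ i, S.E (u i) = z i := fun i => by rw [hz]
  have hzf : ∀ i, S.Fixed (z i) := fun i => by rw [← hzi]; exact S.E_fixed _
  have hzn : ∀ i, ‖z i‖ ≤ 1 := fun i => by rw [← hzi]; exact (S.E_norm_le _).trans (hu i)
  simp only [hzi]
  obtain ⟨t, ht⟩ : ∃ t : ℝ, t = ∑ i, ‖T.ι (z i)‖ ^ 2 := ⟨_, rfl⟩
  rw [← ht]
  obtain ⟨s, hs⟩ : ∃ s : A, s = ∑ i, star (z i) * u i := ⟨_, rfl⟩
  obtain ⟨x, hx⟩ : ∃ x : A, x = ∑ i, star (z i) * z i := ⟨_, rfl⟩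
  have hsx : S.E s = x := by
    rw [hs, hx, S.E_sum]
    refine Finset.sum_congr rfl fun i _ => ?_
    rw [S.E_mul_left (TrAct.Fixed.star S (hzf i)), hzi]
  -- `t ≤ ‖x‖₂`
  have hxt : t ≤ ‖T.ι x‖ := by
    have h1 : T.τ x = (t : ℂ) := by
      rw [hx, ht]
      unfold TrAlg.τ
      rw [map_sum, inner_sum]
      push_cast
      refine Finset.sum_congr rfl fun i _ => ?_
      have h2 := T.inner_eq_τ (z i) (z i)
      rw [inner_self_eq_norm_sq_to_K] at h2
      exact h2.symm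
    have h2 : ‖T.τ x‖ ≤ ‖T.ι 1‖ * ‖T.ι x‖ := norm_inner_le_norm _ _
    rw [h1, T.norm_one, one_mul, Complex.norm_real] at h2
    exact (le_abs_self t).trans h2
  have ht0 : 0 ≤ t := by rw [ht]; positivity
  have hxs : ‖T.ι x‖ ≤ ‖T.ι s‖ := by
    rw [← hsx]
    exact S.norm_E_le s
  -- `‖s‖₂²`
  have hs2 : ‖T.ι s‖ ^ 2 ≤ t / 2 + 4 * δ := by
    have h1 : (‖T.ι s‖ ^ 2 : ℝ) = (T.τ (s * star s)).re := by
      rw [T.norm_sq, T.τ_mul_comm]
    have h2 : s * star s = ∑ i, ∑ j, star (z i) * (u i * star (u j)) * z j := by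
      rw [hs, star_sum, Finset.sum_mul]
      refine Finset.sum_congr rfl fun i _ => ?_
      rw [Finset.mul_sum]
      refine Finset.sum_congr rfl fun j _ => ?_
      rw [star_mul, star_star]
      noncomm_ring
    obtain ⟨c, hc⟩ : ∃ c : Fin 2 → Fin 2 → ℂ, c = fun i j => if i = j then (1 / 2 : ℂ) else 0 :=
      ⟨_, rfl⟩
    obtain ⟨r, hr⟩ : ∃ r : Fin 2 → Fin 2 → A,
      r = fun i j => S.E (u i * star (u j)) - c i j • (1 : A) := ⟨_, rfl⟩
    have hrn : ∀ i j, ‖T.ι (r i j)‖ ≤ δ := by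
      intro i j
      rw [hr, hc]
      exact h i j
    have h3 : T.τ (s * star s) = ∑ i, ∑ j, T.τ (star (z i) * r i j * z j)
        + ((t / 2 : ℝ) : ℂ) := by
      have e1 : T.τ (s * star s) = ∑ i, ∑ j, T.τ (star (z i) * S.E (u i * star (u j)) * z j) := by
        rw [h2]
        unfold TrAlg.τ
        rw [map_sum, inner_sum]
        refine Finset.sum_congr rfl fun i _ => ?_
        rw [map_sum, inner_sum]
        refine Finset.sum_congr rfl fun j _ => ?_
        have e2 := S.τ_E (star (z i) * (u i * star (u j)) * z j)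
        rw [S.E_mul_right (hzf j), S.E_mul_left (TrAct.Fixed.star S (hzf i))] at e2
        exact e2.symm
      have e2 : ∀ i j, T.τ (star (z i) * S.E (u i * star (u j)) * z j)
          = T.τ (star (z i) * r i j * z j) + c i j * T.τ (star (z i) * z j) := by
        intro i j
        have e3 : star (z i) * S.E (u i * star (u j)) * z j
            = star (z i) * r i j * z j + c i j • (star (z i) * z j) := by
          have e4 : S.E (u i * star (u j)) = r i j + c i j • (1 : A) := by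
            rw [hr]
            exact (sub_add_cancel _ _).symm
          rw [e4, mul_add, add_mul, mul_smul_comm, mul_one, smul_mul_assoc]
        rw [e3, T.τ_add, T.τ_smul]
      have e3 : ∑ i, ∑ j, c i j * T.τ (star (z i) * z j) = ((t / 2 : ℝ) : ℂ) := by
        have e4 : ∀ i, T.τ (star (z i) * z i) = ((‖T.ι (z i)‖ ^ 2 : ℝ) : ℂ) := by
          intro i
          have e5 := T.inner_eq_τ (z i) (z i)
          rw [inner_self_eq_norm_sq_to_K] at e5
          rw [← e5]
          norm_cast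
        rw [Fin.sum_univ_two, Fin.sum_univ_two, Fin.sum_univ_two, ht, Fin.sum_univ_two]
        have c00 : c 0 0 = 1 / 2 := by rw [hc]; simp
        have c11 : c 1 1 = 1 / 2 := by rw [hc]; simp
        have c01 : c 0 1 = 0 := by rw [hc]; simp
        have c10 : c 1 0 = 0 := by rw [hc]; simp
        rw [c00, c11, c01, c10, e4, e4]
        push_cast
        ring
      rw [e1]
      simp only [e2, Finset.sum_add_distrib]
      rw [e3]
    have h5 : ∀ i j, ‖T.τ (star (z i) * r i j * z j)‖ ≤ δ := by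
      intro i j
      have e1 : T.τ (star (z i) * r i j * z j) = inner ℂ (T.ι (z i * star (z j))) (T.ι (r i j)) := by
        rw [T.inner_eq_τ, star_mul, star_star, T.τ_mul_comm, mul_assoc, ← mul_assoc]
      rw [e1]
      refine (norm_inner_le_norm _ _).trans ?_
      have e2 : ‖T.ι (z i * star (z j))‖ ≤ 1 := by
        refine (T.norm_le _).trans ((norm_mul_le _ _).trans ?_)
        rw [norm_star]
        calc ‖z i‖ * ‖z j‖ ≤ 1 * 1 := mul_le_mul (hzn i) (hzn j) (norm_nonneg _) zero_le_one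
          _ = 1 := one_mul 1
      calc ‖T.ι (z i * star (z j))‖ * ‖T.ι (r i j)‖ ≤ 1 * δ :=
            mul_le_mul e2 (hrn i j) (norm_nonneg _) zero_le_one
        _ = δ := one_mul δ
    rw [h1, h3, Complex.add_re, Complex.ofReal_re]
    have h6 : (∑ i, ∑ j, T.τ (star (z i) * r i j * z j)).re ≤ 4 * δ := by
      refine (Complex.re_le_norm _).trans ?_
      refine (norm_sum_le _ _).trans ?_
      calc ∑ i, ‖∑ j, T.τ (star (z i) * r i j * z j)‖ ≤ ∑ i : Fin 2, ∑ j : Fin 2, δ :=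
            Finset.sum_le_sum fun i _ => (norm_sum_le _ _).trans
              (Finset.sum_le_sum fun j _ => h5 i j)
        _ = 4 * δ := by simp; ring
    linarith
  have h4 := pow_le_pow_left₀ ht0 (hxt.trans hxs) 2
  linarith

end

section
variable {A : Type u} [CStarAlgebra A] [PartialOrder A] [StarOrderedRing A]
  {K : Type v} [NormedAddCommGroup K] [InnerProductSpace ℂ K] [CompleteSpace K]
variable {G : Type w} [Group G] [TopologicalSpace G] {T : TrAlg A K} (S : TrAct G T)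

/-- near-invariant contractions of conditional expectation `0`, bounded below -/
theorem TrAct.exists_mean_zero (hk : (S.amp 2).Key) (C : Set G) (hC : IsCompact C) (ε : ℝ)
    (hε : 0 < ε) :
    ∃ e : A, ‖e‖ ≤ 1 ∧ S.E e = 0 ∧ 3 / 64 ≤ ‖T.ι e‖ ^ 2 ∧ ∀ s ∈ C, ‖T.ι (S.α s e - e)‖ ≤ ε := by
  obtain ⟨δ, hδ⟩ : ∃ δ : ℝ, δ = min (ε / 2) (1 / 128) := ⟨_, rfl⟩
  have hδ0 : 0 < δ := by rw [hδ]; exact lt_min (by positivity) (by norm_num)
  have hδε : δ ≤ ε / 2 := by rw [hδ]; exact min_le_left _ _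
  have hδ1 : δ ≤ 1 / 128 := by rw [hδ]; exact min_le_right _ _
  obtain ⟨X, hX⟩ : ∃ X : Mat 2 A, X = ent 2 0 0 1 - ent 2 1 1 1 := ⟨_, rfl⟩
  have hXs : IsSelfAdjoint X := by
    rw [isSelfAdjoint_iff, hX, star_sub, ent_star, ent_star, star_one]
  have hX0 : (T.amp 2).τ X = 0 := by
    rw [T.amp_τ, Fin.sum_univ_two, hX]
    have e0 : (ent 2 0 0 (1 : A) - ent 2 1 1 1 : Mat 2 A) 0 0 = 1 := by
      change ent 2 0 0 (1 : A) 0 0 - ent 2 1 1 (1 : A) 0 0 = 1
      simp [ent_apply]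
    have e1 : (ent 2 0 0 (1 : A) - ent 2 1 1 1 : Mat 2 A) 1 1 = -1 := by
      change ent 2 0 0 (1 : A) 1 1 - ent 2 1 1 (1 : A) 1 1 = -1
      simp [ent_apply]
    rw [e0, e1, T.τ_neg, add_neg_cancel, mul_zero]
  obtain ⟨U, hU1, hU2, hUC, hUE⟩ := hk Unit (fun _ => X) (fun _ => hXs) (fun _ => hX0) C hC δ hδ0
  have hUE := hUE ()
  have hUn : ‖U‖ ≤ 1 := TrAct.norm_unit_le (T.amp 2) U hU1
  obtain ⟨u, hu⟩ : ∃ u : Fin 2 → A, u = fun i => U i 0 := ⟨_, rfl⟩
  have hui : ∀ i, u i = U i 0 := fun i => by rw [hu]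
  have hun : ∀ i, ‖u i‖ ≤ 1 := fun i => by
    rw [hui]
    exact (CStarMatrix.norm_entry_le_norm (M := U) (i := i) (j := 0)).trans hUn
  -- the entries of `U X U*`
  have hent : ∀ i j, u i * star (u j) = (1 / 2 : ℂ) • ((U * X * star U) i j)
      + (if i = j then (1 / 2 : ℂ) else 0) • (1 : A) := by
    intro i j
    have e1 : (U * X * star U) i j = U i 0 * star (U j 0) - U i 1 * star (U j 1) := by
      rw [hX, mul_sub, sub_mul]
      change (U * ent 2 0 0 (1 : A) * star U : Mat 2 A) i j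
        - (U * ent 2 1 1 (1 : A) * star U : Mat 2 A) i j = _
      rw [mul_ent_mul, mul_ent_mul, mul_one, mul_one, CStarMatrix.star_apply,
        CStarMatrix.star_apply]
    have e2 : U i 0 * star (U j 0) + U i 1 * star (U j 1)
        = (if i = j then (1 : ℂ) else 0) • (1 : A) := by
      have e3 := congrFun (congrFun hU2 i) j
      rw [CStarMatrix.mul_apply, Fin.sum_univ_two, CStarMatrix.star_apply,
        CStarMatrix.star_apply] at e3
      rw [e3]
      by_cases hij : i = j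
      · rw [if_pos hij, one_smul, hij, CStarMatrix.one_apply_eq]
      · rw [if_neg hij, zero_smul, CStarMatrix.one_apply_ne hij]
    have e4 : (if i = j then (1 / 2 : ℂ) else 0) • (1 : A)
        = (1 / 2 : ℂ) • ((if i = j then (1 : ℂ) else 0) • (1 : A)) := by
      by_cases hij : i = j
      · rw [if_pos hij, if_pos hij, one_smul]
      · rw [if_neg hij, if_neg hij, zero_smul, smul_zero]
    rw [e4, e1, ← e2, ← smul_add, hui, hui]
    have e5 : U i 0 * star (U j 0) - U i 1 * star (U j 1)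
        + (U i 0 * star (U j 0) + U i 1 * star (U j 1)) = (2 : ℂ) • (U i 0 * star (U j 0)) := by
      rw [two_smul]
      abel
    rw [e5, smul_smul]
    norm_num
  have herr : ∀ i j, ‖T.ι (S.E (u i * star (u j)) - (if i = j then (1 / 2 : ℂ) else 0) • (1 : A))‖
      ≤ δ := by
    intro i j
    rw [hent i j, S.E_add, S.E_smul, S.E_smul, S.E_of_fixed (TrAct.Fixed.one S), add_sub_cancel_right,
      map_smul, norm_smul, ← S.amp_E_apply 2]
    have e1 := T.norm_apply_le_amp 2 ((S.amp 2).E (U * X * star U)) i j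
    have e2 : ‖T.ampL 2 ((S.amp 2).E (U * X * star U))‖ ≤ δ := hUE
    have e3 : ‖(1 / 2 : ℂ)‖ = 1 / 2 := by norm_num
    rw [e3]
    push_cast at e1
    linarith
  have hcol := S.column_estimate u hun δ hδ0.le herr
  obtain ⟨t, ht⟩ : ∃ t : ℝ, t = ∑ i, ‖T.ι (S.E (u i))‖ ^ 2 := ⟨_, rfl⟩
  rw [← ht] at hcol
  have ht58 : t ≤ 5 / 8 := by nlinarith
  have hmass : ∑ i, ‖T.ι (u i)‖ ^ 2 = 1 := by
    have e3 := congrFun (congrFun hU1 0) 0
    rw [CStarMatrix.mul_apply, Fin.sum_univ_two, CStarMatrix.star_apply,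
      CStarMatrix.star_apply, CStarMatrix.one_apply_eq] at e3
    have e4 : T.τ (star (u 0) * u 0 + star (u 1) * u 1) = 1 := by
      rw [hui, hui, e3, T.τ_one]
    rw [T.τ_add] at e4
    have e5 : ∀ i, T.τ (star (u i) * u i) = ((‖T.ι (u i)‖ ^ 2 : ℝ) : ℂ) := by
      intro i
      have e5 := T.inner_eq_τ (u i) (u i)
      rw [inner_self_eq_norm_sq_to_K] at e5
      rw [← e5]
      norm_cast
    rw [e5, e5] at e4
    rw [Fin.sum_univ_two]
    exact_mod_cast e4
  -- the difference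
  have hdiff : ∀ i, ‖T.ι (u i - S.E (u i))‖ ^ 2 = ‖T.ι (u i)‖ ^ 2 - ‖T.ι (S.E (u i))‖ ^ 2 := by
    intro i
    have e1 : inner ℂ (T.ι (S.E (u i))) (T.ι (u i)) = inner ℂ (T.ι (S.E (u i))) (T.ι (S.E (u i))) :=
      (S.inner_E (u i) _ (S.fixedVec_of_fixed (S.E_fixed (u i)))).symm
    have e2 := @norm_sub_sq ℂ K _ _ _ (T.ι (u i)) (T.ι (S.E (u i)))
    have e3 : RCLike.re (inner ℂ (T.ι (u i)) (T.ι (S.E (u i)))) = ‖T.ι (S.E (u i))‖ ^ 2 := by
      rw [← inner_conj_symm, e1, inner_self_eq_norm_sq_to_K]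
      simp only [RCLike.re_to_complex, Complex.conj_re]
      norm_cast
    rw [map_sub, e2, e3]
    ring
  obtain ⟨i, hi⟩ : ∃ i, 3 / 16 ≤ ‖T.ι (u i - S.E (u i))‖ ^ 2 := by
    by_contra hno
    push Not at hno
    have e1 : ∑ i, ‖T.ι (u i - S.E (u i))‖ ^ 2 < 3 / 8 := by
      rw [Fin.sum_univ_two]
      have := hno 0
      have := hno 1
      linarith
    simp only [hdiff, Finset.sum_sub_distrib] at e1
    rw [hmass, ← ht] at e1
    linarith
  refine ⟨(1 / 2 : ℂ) • (u i - S.E (u i)), ?_, ?_, ?_, ?_⟩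
  · rw [norm_smul]
    have e1 : ‖(1 / 2 : ℂ)‖ = 1 / 2 := by norm_num
    rw [e1]
    have e2 := norm_sub_le (u i) (S.E (u i))
    have e3 := S.E_norm_le (u i)
    have e4 := hun i
    linarith
  · rw [S.E_smul, S.E_sub, S.E_of_fixed (S.E_fixed _), sub_self, smul_zero]
  · rw [map_smul, norm_smul, mul_pow]
    have e1 : ‖(1 / 2 : ℂ)‖ = 1 / 2 := by norm_num
    rw [e1]
    linarith
  · intro s hs
    have e1 : S.α s ((1 / 2 : ℂ) • (u i - S.E (u i))) - (1 / 2 : ℂ) • (u i - S.E (u i))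
        = (1 / 2 : ℂ) • (S.α s (u i) - u i) := by
      rw [map_smul, map_sub, S.E_fixed, ← smul_sub]
      congr 1
      abel
    rw [e1, map_smul, norm_smul]
    have e2 : ‖(1 / 2 : ℂ)‖ = 1 / 2 := by norm_num
    rw [e2]
    have e3 := T.norm_apply_le_amp 2 ((S.amp 2).α s U - U) i 0
    have e4 : ‖T.ampL 2 ((S.amp 2).α s U - U)‖ ≤ δ := hUC s hs
    have e5 : ((S.amp 2).α s U - U) i 0 = S.α s (u i) - u i := by
      rw [hui]
      rfl
    rw [e5] at e3
    push_cast at e3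
    linarith

/-- KEY for the test element `x - τ(x)` -/
theorem TrAct.key_one (hk : S.Key) (x : A) (hx : IsSelfAdjoint x) (C : Set G) (hC : IsCompact C)
    (ε : ℝ) (hε : 0 < ε) :
    ∃ u : A, star u * u = 1 ∧ u * star u = 1 ∧ (∀ s ∈ C, ‖T.ι (S.α s u - u)‖ ≤ ε) ∧
      ∀ p : A, S.Fixed p →
        |(T.τ (p * (u * x * star u))).re - (T.τ p * T.τ x).re| ≤ ‖T.ι p‖ * ε := by
  have hτ : T.τ x = (((T.τ x).re : ℝ) : ℂ) := by
    have h1 := T.τ_star x
    rw [hx.star_eq] at h1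
    exact (Complex.conj_eq_iff_re.1 h1.symm).symm
  obtain ⟨y, hy⟩ : ∃ y : A, y = x - T.τ x • (1 : A) := ⟨_, rfl⟩
  have hys : IsSelfAdjoint y := by
    rw [isSelfAdjoint_iff, hy, star_sub, star_smul, star_one, hx.star_eq, hτ, Complex.star_def,
      Complex.conj_ofReal]
  have hy0 : T.τ y = 0 := by rw [hy, T.τ_sub, T.τ_smul, T.τ_one, mul_one, sub_self]
  obtain ⟨u, hu1, hu2, huC, huE⟩ := hk Unit (fun _ => y) (fun _ => hys) (fun _ => hy0) C hC ε hε
  have huE := huE ()
  refine ⟨u, hu1, hu2, huC, fun p hp => ?_⟩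
  have e1 : p * (u * x * star u) = p * (u * y * star u) + T.τ x • p := by
    have e2 : x = y + T.τ x • (1 : A) := by rw [hy, sub_add_cancel]
    conv_lhs => rw [e2]
    rw [mul_add, add_mul, mul_smul_comm, mul_one, smul_mul_assoc, hu2, mul_add, mul_smul_comm,
      mul_one]
  have e2 : T.τ (p * (u * y * star u)) = T.τ (p * S.E (u * y * star u)) := by
    rw [← S.E_mul_left hp, S.τ_E]
  have e3 : ‖T.τ (p * S.E (u * y * star u))‖ ≤ ‖T.ι p‖ * ε := by
    have h := T.inner_eq_τ (star p) (S.E (u * y * star u))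
    rw [star_star] at h
    rw [← h, ← T.norm_star p]
    exact (norm_inner_le_norm _ _).trans (mul_le_mul_of_nonneg_left huE (norm_nonneg _))
  rw [e1, T.τ_add, T.τ_smul, Complex.add_re, e2, mul_comm (T.τ x), add_sub_cancel_right]
  exact (Complex.abs_re_le_norm _).trans e3

theorem TrAct.triple_near (g : G) (a e b : A) (ha : ‖a‖ ≤ 1) (he : ‖e‖ ≤ 1) (hb : ‖b‖ ≤ 1) :
    ‖T.ι (S.α g (a * e * b) - a * S.α g e * b)‖
      ≤ ‖T.ι (S.α g a - a)‖ + ‖T.ι (S.α g b - b)‖ := by
  have e1 : S.α g (a * e * b) - a * S.α g e * b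
      = (S.α g a - a) * (S.α g e * S.α g b) + a * S.α g e * (S.α g b - b) := by
    rw [map_mul, map_mul]
    noncomm_ring
  have n1 : ‖S.α g e‖ ≤ 1 := (S.norm_le g e).trans he
  have n2 : ‖S.α g b‖ ≤ 1 := (S.norm_le g b).trans hb
  rw [e1, map_add]
  refine (norm_add_le _ _).trans (add_le_add ?_ ?_)
  · refine (T.mul_le' _ _).trans ?_
    have n3 : ‖S.α g e * S.α g b‖ ≤ 1 := by
      refine (norm_mul_le _ _).trans ?_
      calc ‖S.α g e‖ * ‖S.α g b‖ ≤ 1 * 1 := mul_le_mul n1 n2 (norm_nonneg _) zero_le_one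
        _ = 1 := one_mul 1
    calc _ ≤ ‖T.ι (S.α g a - a)‖ * 1 := mul_le_mul_of_nonneg_left n3 (norm_nonneg _)
      _ = _ := mul_one _
  · refine (T.mul_le _ _).trans ?_
    have n3 : ‖a * S.α g e‖ ≤ 1 := by
      refine (norm_mul_le _ _).trans ?_
      calc ‖a‖ * ‖S.α g e‖ ≤ 1 * 1 := mul_le_mul ha n1 (norm_nonneg _) zero_le_one
        _ = 1 := one_mul 1
    calc _ ≤ 1 * ‖T.ι (S.α g b - b)‖ := mul_le_mul_of_nonneg_right n3 (norm_nonneg _)
      _ = _ := one_mul _

/-- **`StepADom` from KEY of `S` and of its amplification** -/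
theorem TrAct.stepADom_of_key_amp (hk : S.Key) (hk2 : (S.amp 2).Key) : S.StepADom := by
  intro b1 b2 hf1 hf2 hs1 hs2 hn1 hn2
  obtain ⟨β1, hβ1⟩ : ∃ β : ℝ, β = ‖T.ι b1‖ ^ 2 := ⟨_, rfl⟩
  obtain ⟨β2, hβ2⟩ : ∃ β : ℝ, β = ‖T.ι b2‖ ^ 2 := ⟨_, rfl⟩
  have h1 : 0 < ‖T.ι b1‖ := norm_pos_iff.2 fun h => hn1 (T.inj (by rw [h, map_zero]))
  have h2 : 0 < ‖T.ι b2‖ := norm_pos_iff.2 fun h => hn2 (T.inj (by rw [h, map_zero]))
  have hβ1p : 0 < β1 := by rw [hβ1]; positivity
  have hβ2p : 0 < β2 := by rw [hβ2]; positivity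
  obtain ⟨M, hM⟩ : ∃ M : ℝ, M = ‖b1‖ * ‖b2‖ := ⟨_, rfl⟩
  have hM0 : 0 ≤ M := by rw [hM]; positivity
  refine ⟨M ^ 2, β1 * β2 / 32, by positivity, ?_⟩
  intro D hD κ hκ
  obtain ⟨η, hη, hηκ⟩ : ∃ η : ℝ, 0 < η ∧ (3 * M * η) ^ 2 ≤ κ := by
    refine ⟨Real.sqrt κ / (3 * M + 1), by positivity, ?_⟩
    have e1 : 3 * M * (Real.sqrt κ / (3 * M + 1)) = Real.sqrt κ * (3 * M / (3 * M + 1)) := by ring
    rw [e1, mul_pow, Real.sq_sqrt hκ.le]
    have e2 : 3 * M / (3 * M + 1) ≤ 1 := by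
      rw [div_le_one (by positivity)]
      linarith
    have e3 : 0 ≤ 3 * M / (3 * M + 1) := by positivity
    have e4 : (3 * M / (3 * M + 1)) ^ 2 ≤ 1 := pow_le_one₀ e3 e2
    calc κ * (3 * M / (3 * M + 1)) ^ 2 ≤ κ * 1 := mul_le_mul_of_nonneg_left e4 hκ.le
      _ = κ := mul_one κ
  obtain ⟨e, hen, heE, hem, heD⟩ := S.exists_mean_zero hk2 D hD η hη
  obtain ⟨F, w, hw0, hw1, hwe⟩ := S.exists_avg_family Unit (fun _ => e) (η ^ 2) (by positivity)
  simp only [Finset.univ_unique, Finset.sum_const, Finset.card_singleton, one_smul, heE,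
    sub_zero] at hwe
  have hwe' : ‖T.ι (S.avg F w e)‖ ≤ η := by
    have := abs_lt_of_sq_lt_sq hwe hη.le
    exact (le_abs_self _).trans this.le
  obtain ⟨B, hB⟩ : ∃ B : ℝ, B = ‖T.ι (b1 * b1)‖ + ‖T.ι (b2 * b2)‖ * β1 + 1 := ⟨_, rfl⟩
  have hB0 : 0 < B := by rw [hB]; positivity
  obtain ⟨ε, hε, hεη, hεB⟩ : ∃ ε : ℝ, 0 < ε ∧ ε ≤ η ∧ B * ε ≤ β1 * β2 / 64 := by
    refine ⟨min η (β1 * β2 / 64 / B), lt_min hη (by positivity), min_le_left _ _, ?_⟩
    calc B * min η (β1 * β2 / 64 / B) ≤ B * (β1 * β2 / 64 / B) :=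
          mul_le_mul_of_nonneg_left (min_le_right _ _) hB0.le
      _ = β1 * β2 / 64 := by field_simp
  have hC' : IsCompact (D ∪ (F : Set G)) := hD.union F.finite_toSet.isCompact
  have hx1 : IsSelfAdjoint (star e * e) := IsSelfAdjoint.star_mul_self e
  obtain ⟨u, hu1, hu2, huC, huE⟩ := S.key_one hk (star e * e) hx1 _ hC' ε hε
  obtain ⟨y, hy⟩ : ∃ y : A, y = e * star u * b2 := ⟨_, rfl⟩
  have hx2 : IsSelfAdjoint (y * star y) := IsSelfAdjoint.mul_star_self y
  obtain ⟨v, hv1, hv2, hvC, hvE⟩ := S.key_one hk (y * star y) hx2 _ hC' ε hε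
  have hun : ‖star u‖ ≤ 1 := by rw [norm_star]; exact TrAct.norm_unit_le T u hu1
  have hvn : ‖v‖ ≤ 1 := TrAct.norm_unit_le T v hv1
  have huC' : ∀ s ∈ D ∪ (F : Set G), ‖T.ι (S.α s (star u) - star u)‖ ≤ ε := by
    intro s hs
    rw [map_star, ← star_sub, T.norm_star]
    exact huC s hs
  obtain ⟨x, hx⟩ : ∃ x : A, x = v * e * star u := ⟨_, rfl⟩
  have hxn : ‖x‖ ≤ 1 := by
    rw [hx]
    calc ‖v * e * star u‖ ≤ ‖v‖ * ‖e‖ * ‖star u‖ :=
          (norm_mul_le _ _).trans (mul_le_mul_of_nonneg_right (norm_mul_le _ _) (norm_nonneg _))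
      _ ≤ 1 * 1 * 1 := by gcongr
      _ = 1 := by norm_num
  have hbxb : ∀ z : A, ‖T.ι (b1 * z * b2)‖ ≤ M * ‖T.ι z‖ := by
    intro z
    refine (T.mul_le' _ _).trans ?_
    calc ‖T.ι (b1 * z)‖ * ‖b2‖ ≤ ‖b1‖ * ‖T.ι z‖ * ‖b2‖ :=
          mul_le_mul_of_nonneg_right (T.mul_le _ _) (norm_nonneg _)
      _ = M * ‖T.ι z‖ := by rw [hM]; ring
  have han : ‖b1 * x * b2‖ ≤ M := by
    calc ‖b1 * x * b2‖ ≤ ‖b1‖ * ‖x‖ * ‖b2‖ :=
          (norm_mul_le _ _).trans (mul_le_mul_of_nonneg_right (norm_mul_le _ _) (norm_nonneg _))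
      _ ≤ ‖b1‖ * 1 * ‖b2‖ := by gcongr
      _ = M := by rw [hM, mul_one]
  refine ⟨Unit, inferInstance, fun _ => b1 * x * b2, fun _ => x, fun _ => rfl, ?_, ?_, ?_, ?_, ?_⟩
  · -- the mass
    simp only [Finset.univ_unique, Finset.sum_const, Finset.card_singleton, one_smul]
    have m1 : ‖T.ι (b1 * x * b2)‖ ^ 2 = (T.τ (b1 * b1 * (v * (y * star y) * star v))).re := by
      rw [← T.norm_star, T.norm_sq, star_star]
      have e1 : b1 * x * b2 * star (b1 * x * b2) = b1 * (v * (y * star y) * star v * b1) := by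
        have hs1' := hs1.star_eq
        have hs2' := hs2.star_eq
        rw [hx, hy]
        simp only [star_mul, star_star, hs1', hs2']
        noncomm_ring
      rw [e1, T.τ_mul_comm, mul_assoc (v * (y * star y) * star v), T.τ_mul_comm]
    have m2 := hvE (b1 * b1) (TrAct.Fixed.mul S hf1 hf1)
    have m3 := huE (b2 * b2) (TrAct.Fixed.mul S hf2 hf2)
    have m4 : (T.τ (y * star y)).re = (T.τ (b2 * b2 * (u * (star e * e) * star u))).re := by
      have hs2' := hs2.star_eq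
      have e1 : y * star y = e * (star u * b2 * b2 * u * star e) := by
        rw [hy]
        simp only [star_mul, star_star, hs2']
        noncomm_ring
      rw [e1, T.τ_mul_comm]
      have e2 : star u * b2 * b2 * u * star e * e = star u * (b2 * b2 * u * (star e * e)) := by
        noncomm_ring
      rw [e2, T.τ_mul_comm]
      congr 2
      noncomm_ring
    have m5 : T.τ (b1 * b1) = (β1 : ℂ) := by
      have e1 := T.inner_eq_τ b1 b1
      rw [inner_self_eq_norm_sq_to_K, hs1.star_eq] at e1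
      rw [← e1, hβ1]
      norm_cast
    have m6 : T.τ (b2 * b2) = (β2 : ℂ) := by
      have e1 := T.inner_eq_τ b2 b2
      rw [inner_self_eq_norm_sq_to_K, hs2.star_eq] at e1
      rw [← e1, hβ2]
      norm_cast
    have m7 : (T.τ (star e * e)).re = ‖T.ι e‖ ^ 2 := (T.norm_sq e).symm
    rw [m5, Complex.re_ofReal_mul] at m2
    rw [m6, Complex.re_ofReal_mul, m7] at m3
    rw [m4] at m2
    rw [m1]
    have m8 := (abs_le.1 m2).1
    have m9 := (abs_le.1 m3).1
    have m10 : β1 * (β2 * ‖T.ι e‖ ^ 2 - ‖T.ι (b2 * b2)‖ * ε)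
        ≤ β1 * (T.τ (b2 * b2 * (u * (star e * e) * star u))).re :=
      mul_le_mul_of_nonneg_left (by linarith) hβ1p.le
    have m11 : β1 * β2 * (3 / 64) ≤ β1 * β2 * ‖T.ι e‖ ^ 2 :=
      mul_le_mul_of_nonneg_left hem (by positivity)
    rw [hB] at hεB
    nlinarith
  · -- the expectation
    simp only [Finset.univ_unique, Finset.sum_const, Finset.card_singleton, one_smul]
    have m1 : S.E (b1 * x * b2) = b1 * S.E x * b2 := by
      rw [S.E_mul_right hf2, S.E_mul_left hf1]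
    have m2 : ‖T.ι (S.E x)‖ ≤ 3 * η := by
      have m3 : S.E x = S.E (S.avg F w x) := by
        unfold TrAct.avg
        rw [S.E_sum]
        have m4 : ∀ g ∈ F, S.E (w g • S.α g x) = w g • S.E x := by
          intro g hg
          have m5 : w g • S.α g x = ((w g : ℝ) : ℂ) • S.α g x := (Complex.coe_smul _ _).symm
          rw [m5, S.E_smul, S.E_α]
          exact Complex.coe_smul _ _
        rw [Finset.sum_congr rfl m4, ← Finset.sum_smul, hw1, one_smul]
      rw [m3]
      refine (S.norm_E_le _).trans ?_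
      have m6 : S.avg F w x - v * S.avg F w e * star u
          = ∑ g ∈ F, w g • (S.α g x - v * S.α g e * star u) := by
        unfold TrAct.avg
        rw [Finset.mul_sum, Finset.sum_mul, ← Finset.sum_sub_distrib]
        refine Finset.sum_congr rfl fun g _ => ?_
        rw [smul_sub, mul_smul_comm, smul_mul_assoc]
      have m7 : ‖T.ι (S.avg F w x - v * S.avg F w e * star u)‖ ≤ 2 * ε := by
        rw [m6, map_sum]
        refine (norm_sum_le _ _).trans ?_
        have m8 : ∀ g ∈ F, ‖T.ι (w g • (S.α g x - v * S.α g e * star u))‖ ≤ w g * (2 * ε) := by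
          intro g hg
          have m9 : w g • (S.α g x - v * S.α g e * star u)
              = ((w g : ℝ) : ℂ) • (S.α g x - v * S.α g e * star u) := (Complex.coe_smul _ _).symm
          rw [m9, map_smul, norm_smul, Complex.norm_real, Real.norm_of_nonneg (hw0 g)]
          refine mul_le_mul_of_nonneg_left ?_ (hw0 g)
          have m10 := S.triple_near g v e (star u) hvn hen hun
          rw [← hx] at m10
          have m11 := hvC g (Or.inr hg)
          have m12 := huC' g (Or.inr hg)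
          linarith
        refine (Finset.sum_le_sum m8).trans (le_of_eq ?_)
        rw [← Finset.sum_mul, hw1, one_mul]
      have m13 : ‖T.ι (v * S.avg F w e * star u)‖ ≤ η := by
        refine (T.mul_le' _ _).trans ?_
        calc ‖T.ι (v * S.avg F w e)‖ * ‖star u‖ ≤ (‖v‖ * ‖T.ι (S.avg F w e)‖) * 1 :=
              mul_le_mul (T.mul_le _ _) hun (norm_nonneg _) (by positivity)
          _ ≤ (1 * η) * 1 := by gcongr
          _ = η := by ring
      have m14 : S.avg F w x = (S.avg F w x - v * S.avg F w e * star u)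
          + v * S.avg F w e * star u := (sub_add_cancel _ _).symm
      rw [m14, map_add]
      refine (norm_add_le _ _).trans ?_
      linarith
    rw [m1]
    refine le_trans ?_ hηκ
    refine pow_le_pow_left₀ (norm_nonneg _) ?_ 2
    refine (hbxb _).trans ?_
    calc M * ‖T.ι (S.E x)‖ ≤ M * (3 * η) := mul_le_mul_of_nonneg_left m2 hM0
      _ = 3 * M * η := by ring
  · intro s hs
    simp only [Finset.univ_unique, Finset.sum_const, Finset.card_singleton, one_smul]
    refine le_trans ?_ hηκ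
    refine pow_le_pow_left₀ (norm_nonneg _) ?_ 2
    have m1 : S.α s (b1 * x * b2) - b1 * x * b2 = b1 * (S.α s x - x) * b2 := by
      rw [map_mul, map_mul, hf1, hf2]
      noncomm_ring
    rw [m1]
    refine (hbxb _).trans ?_
    have m2 : ‖T.ι (S.α s x - x)‖ ≤ 3 * η := by
      have m3 : S.α s x - x = (S.α s x - v * S.α s e * star u) + v * (S.α s e - e) * star u := by
        rw [hx]
        noncomm_ring
      rw [m3, map_add]
      refine (norm_add_le _ _).trans ?_
      have m10 := S.triple_near s v e (star u) hvn hen hun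
      rw [← hx] at m10
      have m11 := hvC s (Or.inl hs)
      have m12 := huC' s (Or.inl hs)
      have m13 : ‖T.ι (v * (S.α s e - e) * star u)‖ ≤ η := by
        refine (T.mul_le' _ _).trans ?_
        have m14 := heD s hs
        calc ‖T.ι (v * (S.α s e - e))‖ * ‖star u‖ ≤ (‖v‖ * ‖T.ι (S.α s e - e)‖) * 1 :=
              mul_le_mul (T.mul_le _ _) hun (norm_nonneg _) (by positivity)
          _ ≤ (1 * η) * 1 := by gcongr
          _ = η := by ring
      linarith
    calc M * ‖T.ι (S.α s x - x)‖ ≤ M * (3 * η) := mul_le_mul_of_nonneg_left m2 hM0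
      _ = 3 * M * η := by ring
  · intro z
    simp only [Finset.univ_unique, Finset.sum_const, Finset.card_singleton, one_smul]
    rw [← mul_pow]
    refine pow_le_pow_left₀ (norm_nonneg _) ?_ 2
    exact (T.mul_le _ _).trans (mul_le_mul_of_nonneg_right han (norm_nonneg _))
  · intro z
    simp only [Finset.univ_unique, Finset.sum_const, Finset.card_singleton, one_smul]
    rw [← mul_pow]
    refine pow_le_pow_left₀ (norm_nonneg _) ?_ 2
    refine (T.mul_le' _ _).trans ?_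
    rw [mul_comm]
    exact mul_le_mul_of_nonneg_right han (norm_nonneg _)

end

end Pool.Agent.AbCoc
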