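import Pool.Agent.Lib_MP_418a80_t3.Comp10
import Pool.Agent.Lib_MP_418a80_t3.GoodE
import Pool.Agent.Lib_MP_418a80_t3.T3Class

/-!
# MP_418a80_an, general `M`: the end of the Heisenberg step

`KeyAll` of the kernels `{g | ⟪chi0, p g⟫ = 0}` and all types `t • chi0` in all corners give
`KeyAll G`.
-/

set_option autoImplicit false
set_option linter.unusedVariables false
set_option linter.unusedSectionVars false

open MeasureTheory Topology Filter
open scoped ENNReal NNReal ComplexConjugate RealInnerProductSpace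

namespace Pool.Agent.AbCoc

universe u v w z

section char
variable {G : Type w} [Group G] [TopologicalSpace G]
variable {V : Type z} [NormedAddCommGroup V] [InnerProductSpace ℝ V]

private theorem kh_p_one (p : G → V) (hpm : ∀ g h, p (g * h) = p g + p h) : p 1 = 0 := by
  have h1 := hpm 1 1
  rw [mul_one] at h1
  exact left_eq_add.1 h1

/-- the character `h ↦ ch ⟪r0, p h⟫` of a subgroup -/
noncomputable def chiP (N : Subgroup G) (p : G → V) (hpm : ∀ g h, p (g * h) = p g + p h)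
    (r0 : V) : N →* Circle where
  toFun h := Circle.exp ⟪r0, p h⟫
  map_one' := by rw [Subgroup.coe_one, kh_p_one p hpm, inner_zero_right, Circle.exp_zero]
  map_mul' g h := by rw [Subgroup.coe_mul, hpm, inner_add_right, Circle.exp_add]

theorem coe_chiP (N : Subgroup G) (p : G → V) (hpm : ∀ g h, p (g * h) = p g + p h)
    (r0 : V) (h : N) : ((chiP N p hpm r0 h : Circle) : ℂ) = ch ⟪r0, p h⟫ := by
  change ((Circle.exp ⟪r0, p h⟫ : Circle) : ℂ) = ch ⟪r0, p h⟫
  rw [Circle.coe_exp, ch]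

theorem continuous_chiP (N : Subgroup G) (p : G → V) (hpm : ∀ g h, p (g * h) = p g + p h)
    (hp : Continuous p) (r0 : V) : Continuous (chiP N p hpm r0) := by
  change Continuous fun h : N => Circle.exp ⟪r0, p h⟫
  exact Circle.exp.continuous.comp
    (continuous_const.inner (hp.comp continuous_subtype_val))

end char

section eig
variable {A : Type u} [CStarAlgebra A] [PartialOrder A] [StarOrderedRing A]
  {K : Type v} [NormedAddCommGroup K] [InnerProductSpace ℂ K] [CompleteSpace K]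
variable {G : Type w} [Group G] [TopologicalSpace G] [IsTopologicalGroup G] [T2Space G]
  [SecondCountableTopology G] [LocallyCompactSpace G] [MeasurableSpace G] [BorelSpace G]
  (μ : Measure G) [μ.IsHaarMeasure] {T : TrAlg A K} (S : TrAct G T)
variable {V : Type z} [NormedAddCommGroup V] [InnerProductSpace ℝ V]

include μ in
/-- **near-eigen elements for the characters `h ↦ ch ⟪r0, p h⟫`** of a closed subgroup `N` with
`KeyAll N`, bounded below by a constant of the corner -/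
theorem TrAct.eigen_of_keyAll (hR : Reiter μ) (hSO : S.SO μ Set.univ) (N : Subgroup G)
    (hN : IsClosed (N : Set G)) (hkey : KeyAll.{u, v, w} N) (p : G → V) (hp : Continuous p)
    (hpm : ∀ g h, p (g * h) = p g + p h) {b1 b2 : A} (h1 : S.IsPrj b1) (h2 : S.IsPrj b2)
    (hn1 : b1 ≠ 0) (hn2 : b2 ≠ 0) :
    ∃ c : ℝ, 0 < c ∧ ∀ (r0 : V) (D : Set G), IsCompact D → ∀ κ : ℝ, 0 < κ →
      ∃ e : A, b1 * e = e ∧ e * b2 = e ∧ ‖e‖ ≤ 1 ∧ c ≤ ‖T.ι e‖ ^ 2 ∧
        ∀ h ∈ D, h ∈ N → ‖T.ι (S.α h e - ch ⟪r0, p h⟫ • e)‖ ≤ κ := by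
  have hemb : IsClosedEmbedding (Subtype.val : N → G) := hN.isClosedEmbedding_subtypeVal
  have : LocallyCompactSpace N := hemb.locallyCompactSpace
  have : SecondCountableTopology N :=
    inferInstanceAs (SecondCountableTopology ((N : Set G) : Set G))
  have hp1 := T.norm_ι_pos hn1
  have hp2 := T.norm_ι_pos hn2
  refine ⟨‖T.ι b1‖ ^ 2 * ‖T.ι b2‖ ^ 2 / 4, by positivity, fun r0 D hD κ hκ => ?_⟩
  obtain ⟨e, e1, e2, e3, e4, e5⟩ := S.exists_eigen_prj N.subtype continuous_subtype_val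
    (chiP N p hpm r0) (continuous_chiP N p hpm hp r0)
    (hkey.key_twist μ S N.subtype continuous_subtype_val hemb hR hSO 2
      (tw2 (chiP N p hpm r0)) (tw2_cont (continuous_chiP N p hpm hp r0))) h1 h2 hn1 hn2
    (Subtype.val ⁻¹' D) (hemb.isCompact_preimage hD) κ hκ
  refine ⟨e, e1, e2, e3, e4, fun h hh hN' => ?_⟩
  have := e5 ⟨h, hN'⟩ hh
  rwa [coe_chiP] at this

end eig

section key
variable {G : Type w} [Group G] [TopologicalSpace G] [IsTopologicalGroup G] [T2Space G]
  [SecondCountableTopology G] [LocallyCompactSpace G]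
variable {V : Type z} [NormedAddCommGroup V] [InnerProductSpace ℝ V]

/-- the kernel of `⟪chi0, p ·⟫` -/
def kerP (p : G → V) (hpm : ∀ g h, p (g * h) = p g + p h) (chi0 : V) : Subgroup G where
  carrier := {g | ⟪chi0, p g⟫ = 0}
  one_mem' := by
    change ⟪chi0, p 1⟫ = 0
    rw [kh_p_one p hpm, inner_zero_right]
  mul_mem' {a b} ha hb := by
    change ⟪chi0, p (a * b)⟫ = 0
    have h1 : ⟪chi0, p a⟫ = 0 := ha
    have h2 : ⟪chi0, p b⟫ = 0 := hb
    rw [hpm, inner_add_right, h1, h2, add_zero]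
  inv_mem' {a} ha := by
    change ⟪chi0, p a⁻¹⟫ = 0
    have h1 : ⟪chi0, p a⟫ = 0 := ha
    have h2 := hpm a a⁻¹
    rw [mul_inv_cancel, kh_p_one p hpm] at h2
    have h3 := congrArg (fun x : V => ⟪chi0, x⟫) h2
    simp only [inner_zero_right, inner_add_right, h1, zero_add] at h3
    exact h3.symm

omit [IsTopologicalGroup G] [T2Space G] [SecondCountableTopology G] [LocallyCompactSpace G] in
theorem mem_kerP (p : G → V) (hpm : ∀ g h, p (g * h) = p g + p h) (chi0 : V) (g : G) :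
    g ∈ kerP p hpm chi0 ↔ ⟪chi0, p g⟫ = 0 := Iff.rfl

omit [IsTopologicalGroup G] [T2Space G] [SecondCountableTopology G] [LocallyCompactSpace G] in
theorem isClosed_kerP (p : G → V) (hpm : ∀ g h, p (g * h) = p g + p h) (hp : Continuous p)
    (chi0 : V) : IsClosed (kerP p hpm chi0 : Set G) := by
  change IsClosed {g | ⟪chi0, p g⟫ = 0}
  exact isClosed_eq (continuous_const.inner hp) continuous_const

/-- **The end of the Heisenberg step.** `p : G → V` a continuous homomorphism onto a space of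
dimension `≥ 2` with one-parameter groups over all directions. If, for every strictly outer action,
all types `t • chi0` are available in all corners for some `chi0 ≠ 0`, and all kernels
`{g | ⟪chi0, p g⟫ = 0}` have `KeyAll`, then `G` has `KeyAll`. -/
theorem keyAll_of_types (p : G → V) (hp : Continuous p) (hpm : ∀ g h, p (g * h) = p g + p h)
    (hsurj : ∀ v : V, ∃ g, p g = v) (hdim : ∀ chi0 : V, ∃ r1 : V, ‖r1‖ = 1 ∧ ⟪chi0, r1⟫ = 0)
    (hos : ∀ g : G, ∃ s : ℝ → G, Continuous s ∧ (∀ t u, s (t + u) = s t * s u) ∧ s 1 = g)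
    (hker : ∀ chi0 : V, chi0 ≠ 0 → KeyAll.{u, v, w} (kerP p hpm chi0))
    (hlab : ∀ [MeasurableSpace G] [BorelSpace G] (ν : Measure G) [ν.IsHaarMeasure], Reiter ν →
      ∀ (A : Type u) [CStarAlgebra A] [PartialOrder A] [StarOrderedRing A] (K : Type v)
      [NormedAddCommGroup K] [InnerProductSpace ℂ K] [CompleteSpace K] (T : TrAlg A K)
      (S : TrAct G T), S.SO ν Set.univ → ∃ chi0 : V, chi0 ≠ 0 ∧
        ∀ b : A, S.IsPrj b → b ≠ 0 → ∀ t ρ : ℝ, 0 < ρ →
          S.LabA (pch p) (Metric.ball (t • chi0) ρ) b) : KeyAll.{u, v, w} G := by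
  refine keyAll_of_stepATyp fun ν _ hR A _ K _ _ _ T S hSO => ?_
  let := CStarAlgebra.spectralOrder A
  have := CStarAlgebra.spectralOrderedRing A
  obtain ⟨chi0, hchi, hl⟩ := hlab ν hR A K T S hSO
  obtain ⟨r1, hr1, hr0⟩ := hdim chi0
  have hcc : ⟪chi0, chi0⟫ ≠ 0 := fun h => hchi (inner_self_eq_zero.1 h)
  obtain ⟨g, hg⟩ := hsurj ((⟪chi0, chi0⟫ : ℝ)⁻¹ • chi0)
  obtain ⟨s, hs, hsm, hs1⟩ := hos g
  -- the values of `p` along `s`
  have hps : ∀ t, ⟪chi0, p (s t)⟫ = t := by
    obtain ⟨φ, hφ⟩ : ∃ φ : ℝ →+ ℝ, ∀ t, φ t = ⟪chi0, p (s t)⟫ :=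
      ⟨AddMonoidHom.mk' (fun t => ⟪chi0, p (s t)⟫) fun t u => by
        rw [hsm, hpm, inner_add_right], fun t => rfl⟩
    have hφc : Continuous φ := by
      have : (φ : ℝ → ℝ) = fun t => ⟪chi0, p (s t)⟫ := funext hφ
      rw [this]
      exact continuous_const.inner (hp.comp hs)
    intro t
    have h1 := map_real_smul φ hφc t (1 : ℝ)
    rw [smul_eq_mul, mul_one, hφ, hφ, hs1, hg, inner_smul_right, inv_mul_cancel₀ hcc,
      smul_eq_mul, mul_one] at h1
    exact h1
  refine S.stepATyp_of_eigen p hp hpm chi0 s hs hsm hps r1 hr1 hr0 (fun t => hsurj _) hl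
    fun b1 b2 h1 h10 h2 h20 => ?_
  obtain ⟨c, hc, h⟩ := S.eigen_of_keyAll ν hR hSO (kerP p hpm chi0) (isClosed_kerP p hpm hp chi0)
    (hker chi0 hchi) p hp hpm h1 h2 h10 h20
  exact ⟨c, hc, fun r0 D hD κ hκ => h r0 D hD κ hκ⟩

end key

end Pool.Agent.AbCoc
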