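import Pool.Agent.Lib_MP_418a80_t3.Phase
import Pool.Agent.Lib_MP_418a80_t3.GoodE

/-!
# MP_418a80_an, T3-PHASE: the near-eigen elements of the kernel, from the KEY property of the twisted
matrices over `ker p`
-/

set_option autoImplicit false
set_option linter.unusedVariables false
set_option linter.unusedSectionVars false

open Topology Filter MeasureTheory

namespace Pool.Agent.AbCoc

universe u v w z

/-- the character `h ↦ ch (r χ(ξ h))` of `ker p` -/
noncomputable def WtData.chi {G : Type w} [Group G] [TopologicalSpace G] {U : Type z}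
    [NormedAddCommGroup U] [NormedSpace ℝ U] (W : WtData G U) (χ : U →L[ℝ] ℝ)
    (N : Subgroup G) (hN : ∀ g, g ∈ N ↔ W.R.p g = 0) (r : ℝ) : N →* Circle where
  toFun h := Circle.exp (r * χ (W.ξ h))
  map_one' := by
    have h1 : W.R.p (1 : G) = 0 := (hN 1).1 N.one_mem
    have h2 := W.ξ_mul 1 1 h1 h1
    rw [mul_one] at h2
    have h3 : W.ξ 1 = 0 := (left_eq_add.1 h2)
    rw [Subgroup.coe_one, h3, map_zero, mul_zero, Circle.exp_zero]
  map_mul' a b := by
    rw [Subgroup.coe_mul, W.ξ_mul _ _ ((hN _).1 a.2) ((hN _).1 b.2), map_add, mul_add,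
      Circle.exp_add]

theorem WtData.continuous_chi {G : Type w} [Group G] [TopologicalSpace G] {U : Type z}
    [NormedAddCommGroup U] [NormedSpace ℝ U] (W : WtData G U) (χ : U →L[ℝ] ℝ)
    (N : Subgroup G) (hN : ∀ g, g ∈ N ↔ W.R.p g = 0) (r : ℝ) : Continuous (W.chi χ N hN r) := by
  change Continuous fun h : N => Circle.exp (r * χ (W.ξ h))
  exact Circle.exp.continuous.comp
    (continuous_const.mul (χ.continuous.comp (W.hξ.comp continuous_subtype_val)))

theorem WtData.chi_apply {G : Type w} [Group G] [TopologicalSpace G] {U : Type z}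
    [NormedAddCommGroup U] [NormedSpace ℝ U] (W : WtData G U) (χ : U →L[ℝ] ℝ)
    (N : Subgroup G) (hN : ∀ g, g ∈ N ↔ W.R.p g = 0) (r : ℝ) (h : N) :
    ((W.chi χ N hN r h : Circle) : ℂ) = ch (r * χ (W.ξ h)) := by
  change ((Circle.exp (r * χ (W.ξ h)) : Circle) : ℂ) = _
  rw [Circle.coe_exp, ch]

section
variable {A : Type u} [CStarAlgebra A] [PartialOrder A] [StarOrderedRing A]
  {K : Type v} [NormedAddCommGroup K] [InnerProductSpace ℂ K] [CompleteSpace K]
variable {G : Type w} [Group G] [TopologicalSpace G] [IsTopologicalGroup G] {T : TrAlg A K}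
  {U : Type z} [NormedAddCommGroup U] [NormedSpace ℝ U] [FiniteDimensional ℝ U]

/-- the hypothesis of `TrAct.exists_phase` from the KEY property of the twisted matrices -/
theorem TrAct.phase_hE (S : TrAct G T) (W : WtData G U) (χ : U →L[ℝ] ℝ) (N : Subgroup G)
    (hN : ∀ g, g ∈ N ↔ W.R.p g = 0)
    (hkey : ∀ (χ : N →* Circle) (hχ : Continuous χ),
      ((S.cm N.subtype continuous_subtype_val).twist 2 (tw2 χ) (tw2_cont hχ)).Key)
    {b1 b2 : A} (h1 : S.IsPrj b1) (h2 : S.IsPrj b2) (hn1 : b1 ≠ 0) (hn2 : b2 ≠ 0) :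
    ∃ c : ℝ, 0 < c ∧ ∀ (r : ℝ) (D : Set G), IsCompact D → ∀ κ : ℝ, 0 < κ →
      ∃ e : A, b1 * e = e ∧ e * b2 = e ∧ ‖e‖ ≤ 1 ∧ c ≤ ‖T.ι e‖ ^ 2 ∧
        ∀ h ∈ D, W.R.p h = 0 → ‖T.ι (S.α h e - ch (r * χ (W.ξ h)) • e)‖ ≤ κ := by
  refine ⟨‖T.ι b1‖ ^ 2 * ‖T.ι b2‖ ^ 2 / 4, ?_, fun r D hD κ hκ => ?_⟩
  · have := T.norm_ι_pos hn1
    have := T.norm_ι_pos hn2
    positivity
  have hNc : IsClosed (N : Set G) := by
    have h3 : (N : Set G) = W.R.p ⁻¹' {0} := by
      ext g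
      exact hN g
    rw [h3]
    exact isClosed_singleton.preimage W.R.hp
  have hD' : IsCompact ((Subtype.val : N → G) ⁻¹' D) :=
    hNc.isClosedEmbedding_subtypeVal.isCompact_preimage hD
  obtain ⟨e, he1, he2, he3, he4, he5⟩ := S.exists_eigen_prj N.subtype continuous_subtype_val
    (W.chi χ N hN r) (W.continuous_chi χ N hN r) (hkey _ (W.continuous_chi χ N hN r)) h1 h2 hn1 hn2
    ((Subtype.val : N → G) ⁻¹' D) hD' κ hκ
  refine ⟨e, he1, he2, he3, he4, fun h hh hp => ?_⟩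
  have h3 := he5 ⟨h, (hN h).2 hp⟩ hh
  rw [W.chi_apply] at h3
  exact h3

/-- elements with phases, from the KEY property of the twisted matrices over the kernel -/
theorem TrAct.exists_phase_key (S : TrAct G T) (W : WtData G U) (χ : U →L[ℝ] ℝ) (N : Subgroup G)
    (hN : ∀ g, g ∈ N ↔ W.R.p g = 0)
    (hkey : ∀ (χ : N →* Circle) (hχ : Continuous χ),
      ((S.cm N.subtype continuous_subtype_val).twist 2 (tw2 χ) (tw2_cont hχ)).Key)
    {b : A} (hb : S.IsPrj b) (hb0 : b ≠ 0) :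
    ∃ c : ℝ, 0 < c ∧ ∀ (T0 : ℝ) (D : Set G), IsCompact D → ∀ κ : ℝ, 0 < κ → ∀ Λ : Set U,
      IsCompact Λ → ∃ (e : A) (β : U → G), S.PElt W.R (W.ph χ) b T0 D κ Λ e β ∧
        c ≤ ‖T.ι e‖ ^ 2 :=
  S.exists_phase W χ b hb (S.phase_hE W χ N hN hkey hb hb hb0 hb0)

end

end Pool.Agent.AbCoc
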