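import Pool.Agent.Lib_MP_418a80_t3.Wt

/-!
# MP_418a80_an, T3: the weight step without hypotheses on the deciding sequence

If all labels which are available along the deciding sequence have period `s0`, then in small
corners families which move little under `s t`, `|t| ≤ δ`, also move little under `s s0`.
-/

set_option autoImplicit false
set_option linter.unusedVariables false
set_option linter.unusedSectionVars false

open Topology Filter MeasureTheory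
open scoped RealInnerProductSpace ComplexConjugate

namespace Pool.Agent.AbCoc

universe u v w z

section
variable {A : Type u} [CStarAlgebra A] {K : Type v} [NormedAddCommGroup K]
  [InnerProductSpace ℂ K] [CompleteSpace K]
variable {G : Type w} [Group G] [TopologicalSpace G] [IsTopologicalGroup G] {T : TrAlg A K}
  (S : TrAct G T)

/-- from the label of a family to its displacement and back, at one time -/
private theorem wtf_lab_le (R : RSec G) {J : Type} [Fintype J] (x : J → A) (θ : J → ℝ) (t q : ℝ) :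
    ∑ i, ‖ch (θ i * t) - ch (q * t)‖ ^ 2 * ‖T.ι (x i)‖ ^ 2
      ≤ 2 * ∑ i, ‖T.ι (S.α (R.s t) (x i) - pch R.p (θ i) (R.s t) • x i)‖ ^ 2
        + 2 * ∑ i, ‖T.ι (S.α (R.s t) (x i) - ch (q * t) • x i)‖ ^ 2 := by
  rw [Finset.mul_sum, Finset.mul_sum, ← Finset.sum_add_distrib]
  refine Finset.sum_le_sum fun i _ => ?_
  have e1 : pch R.p (θ i) (R.s t) = ch (θ i * t) := by
    rw [pch, R.ps]
    congr 1
    simp [mul_comm]
  rw [e1, ← T.norm_smul_sq]
  have e2 : (ch (θ i * t) - ch (q * t)) • x i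
      = (S.α (R.s t) (x i) - ch (q * t) • x i) - (S.α (R.s t) (x i) - ch (θ i * t) • x i) := by
    rw [sub_smul]
    abel
  rw [e2, map_sub T.ι (S.α (R.s t) (x i) - ch (q * t) • x i)]
  have e3 := norm_sub_le (T.ι (S.α (R.s t) (x i) - ch (q * t) • x i))
    (T.ι (S.α (R.s t) (x i) - ch (θ i * t) • x i))
  have e4 := pow_le_pow_left₀ (norm_nonneg _) e3 2
  nlinarith [sq_nonneg (‖T.ι (S.α (R.s t) (x i) - ch (q * t) • x i)‖
    - ‖T.ι (S.α (R.s t) (x i) - ch (θ i * t) • x i)‖)]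

private theorem wtf_disp_le (R : RSec G) {J : Type} [Fintype J] (x : J → A) (θ : J → ℝ) (t q : ℝ) :
    ∑ i, ‖T.ι (S.α (R.s t) (x i) - ch (q * t) • x i)‖ ^ 2
      ≤ 2 * ∑ i, ‖T.ι (S.α (R.s t) (x i) - pch R.p (θ i) (R.s t) • x i)‖ ^ 2
        + 2 * ∑ i, ‖ch (θ i * t) - ch (q * t)‖ ^ 2 * ‖T.ι (x i)‖ ^ 2 := by
  rw [Finset.mul_sum, Finset.mul_sum, ← Finset.sum_add_distrib]
  refine Finset.sum_le_sum fun i _ => ?_
  have e1 : pch R.p (θ i) (R.s t) = ch (θ i * t) := by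
    rw [pch, R.ps]
    congr 1
    simp [mul_comm]
  rw [e1, ← T.norm_smul_sq]
  have e2 : S.α (R.s t) (x i) - ch (q * t) • x i
      = (S.α (R.s t) (x i) - ch (θ i * t) • x i) + (ch (θ i * t) - ch (q * t)) • x i := by
    rw [sub_smul]
    abel
  rw [e2, map_add T.ι (S.α (R.s t) (x i) - ch (θ i * t) • x i)]
  have e3 := norm_add_le (T.ι (S.α (R.s t) (x i) - ch (θ i * t) • x i))
    (T.ι ((ch (θ i * t) - ch (q * t)) • x i))
  have e4 := pow_le_pow_left₀ (norm_nonneg _) e3 2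
  nlinarith [sq_nonneg (‖T.ι (S.α (R.s t) (x i) - ch (θ i * t) • x i)‖
    - ‖T.ι ((ch (θ i * t) - ch (q * t)) • x i)‖)]

/-- the periodic lemma, with the domination constant after the corner -/
theorem TrAct.Dec.perAt_of_dec (R : RSec G) {Bk : ℕ → Set ℝ} {b : ℕ → A}
    (h : S.Dec (pch R.p) Bk b) (hBk : ∀ k, IsOpen (Bk k)) (s0 : ℝ)
    (hs0 : ∀ q ∈ S.SF (pch R.p) Bk b, ch (q * s0) = 1) (ε δ : ℝ) (hε : 0 < ε) (hδ : 0 < δ) :
    ∃ n0 : ℕ, ∀ n, n0 ≤ n → S.PerAt R (b n) s0 ε δ := by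
  classical
  -- the bad labels
  set E : Set ℝ := Set.Icc (-(2 / δ)) (2 / δ) ∩ {θ : ℝ | ε / 2 ≤ ‖ch (θ * s0) - 1‖ ^ 2}
    with hE
  have hcl : IsClosed {θ : ℝ | ε / 2 ≤ ‖ch (θ * s0) - 1‖ ^ 2} := by
    refine isClosed_le continuous_const ?_
    have h1 : Continuous fun θ : ℝ => ch (θ * s0) := continuous_ch.comp (by fun_prop)
    exact ((h1.sub continuous_const).norm).pow 2
  have hEc : IsCompact E := isCompact_Icc.inter_right hcl
  have hdisj : ∀ q ∈ E, q ∉ S.SF (pch R.p) Bk b := by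
    intro q hq hq'
    have h1 : ε / 2 ≤ ‖ch (q * s0) - 1‖ ^ 2 := hq.2
    rw [hs0 q hq', sub_self, norm_zero, zero_pow two_ne_zero] at h1
    have h2 : 0 < ε / 2 := by positivity
    linarith
  obtain ⟨n0, hcov⟩ := TrAct.Dec.cover S h hBk E hEc hdisj
  refine ⟨n0, fun n hn C => ?_⟩
  obtain ⟨D1, κ1, hD1, hκ1, hc1⟩ := hcov n hn C (ε / 100) (by positivity)
  have hκ : 0 < min κ1 (ε / 10) := lt_min hκ1 (by positivity)
  have hDD : IsCompact (D1 ∪ R.s '' Set.Icc (-(max δ |s0|)) (max δ |s0|)) :=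
    hD1.union (isCompact_Icc.image R.hs)
  obtain ⟨D', κ', hD', hκ', hc2⟩ := S.exists_cells R.p R.hp R.pmul R.s R.hs R.ps _ hDD (min κ1 (ε / 10)) C hκ
  refine ⟨D', κ', hD', hκ', ?_⟩
  intro J _ y hby hyb hDm hms1 hker hprec
  obtain ⟨J', hJ', x, θ, hlab, hmsx, hcmp⟩ := hc2 (b n) J y (h.prj n).fix hby hyb hDm hker
  have hκε : min κ1 (ε / 10) ≤ ε / 10 := min_le_right _ _
  have hmem : ∀ t : ℝ, |t| ≤ max δ |s0| →
      R.s t ∈ D1 ∪ R.s '' Set.Icc (-(max δ |s0|)) (max δ |s0|) :=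
    fun t ht => Or.inr ⟨t, abs_le.mp ht, rfl⟩
  -- (1) the mass of the large labels
  have hkey : ∀ t : ℝ, |t| ≤ 2 / (2 / δ) →
      ∑ i, ‖ch (θ i * t) - ch (0 * t)‖ ^ 2 * ‖T.ι (x i)‖ ^ 2 ≤ 44 / 10 * ε := by
    intro t ht
    have ht' : |t| ≤ δ := by
      rwa [div_div_cancel₀ two_ne_zero] at ht
    have htD := hmem t (ht'.trans (le_max_left _ _))
    have h1 := hlab.ne _ htD
    have h2 := (hcmp _ htD (ch (0 * t)) (norm_ch _)).1
    have h3 := hprec t ht'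
    have h4 := wtf_lab_le S R x θ t 0
    have h5 : ∑ j, ‖T.ι (S.α (R.s t) (y j) - ch (0 * t) • y j)‖ ^ 2
        = ∑ j, ‖T.ι (S.α (R.s t) (y j) - y j)‖ ^ 2 := by
      rw [zero_mul, ch_zero]
      simp
    rw [h5] at h2
    linarith
  have hfar := TrAct.mass_far (T := T) R x θ 0 (2 / δ) _ (by positivity) hkey
  -- (2) the mass of the bad labels
  have hbad : T.ms (fun i => if θ i ∈ E then x i else 0) ≤ ε / 100 := by
    by_cases hne : E.Nonempty
    · obtain ⟨q0, hq0⟩ := hne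
      exact hc1 J' _ _ ((hlab.cut E q0 hq0).mono subset_rfl Set.subset_union_left
        (min_le_left _ _) le_rfl)
    · rw [Set.not_nonempty_iff_eq_empty] at hne
      have h1 : T.ms (fun i => if θ i ∈ E then x i else 0) = 0 := by
        unfold TrAlg.ms
        refine Finset.sum_eq_zero fun j _ => ?_
        have h2 : θ j ∉ E := by
          rw [hne]
          exact Set.notMem_empty _
        simp only [if_neg h2, map_zero, norm_zero]
        norm_num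
      rw [h1]
      positivity
  -- (3) the labels are almost periodic
  have hms : T.ms x ≤ 1 := hmsx.le.trans hms1
  have hpt : ∀ i, ‖ch (θ i * s0) - ch (0 * s0)‖ ^ 2 * ‖T.ι (x i)‖ ^ 2
      ≤ 4 * (if θ i ∈ Metric.ball (0 : ℝ) (2 / δ) then 0 else ‖T.ι (x i)‖ ^ 2)
        + 4 * ‖T.ι (if θ i ∈ E then x i else 0)‖ ^ 2 + ε / 2 * ‖T.ι (x i)‖ ^ 2 := by
    intro i
    have hx : 0 ≤ ‖T.ι (x i)‖ ^ 2 := sq_nonneg _
    have hch : ‖ch (θ i * s0) - ch (0 * s0)‖ ^ 2 ≤ 4 := by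
      have h1 : ‖ch (θ i * s0) - ch (0 * s0)‖ ≤ 2 := by
        refine (norm_sub_le _ _).trans ?_
        rw [norm_ch, norm_ch]
        norm_num
      have h2 := pow_le_pow_left₀ (norm_nonneg _) h1 2
      linarith
    have hec : 0 ≤ ε / 2 * ‖T.ι (x i)‖ ^ 2 := by positivity
    have h4 : ‖ch (θ i * s0) - ch (0 * s0)‖ ^ 2 * ‖T.ι (x i)‖ ^ 2 ≤ 4 * ‖T.ι (x i)‖ ^ 2 :=
      mul_le_mul_of_nonneg_right hch hx
    by_cases hb : θ i ∈ Metric.ball (0 : ℝ) (2 / δ)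
    · rw [if_pos hb]
      by_cases he : θ i ∈ E
      · rw [if_pos he]
        linarith
      · rw [if_neg he]
        have h5 : ‖ch (θ i * s0) - 1‖ ^ 2 < ε / 2 := by
          by_contra hcon
          apply he
          refine ⟨?_, not_lt.1 hcon⟩
          rw [Metric.mem_ball, Real.dist_eq, sub_zero] at hb
          exact abs_le.mp hb.le
        have h6 : ‖ch (θ i * s0) - ch (0 * s0)‖ ^ 2 * ‖T.ι (x i)‖ ^ 2
            ≤ ε / 2 * ‖T.ι (x i)‖ ^ 2 := by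
          rw [zero_mul, ch_zero]
          exact mul_le_mul_of_nonneg_right h5.le hx
        have h7 : 0 ≤ ‖T.ι (0 : A)‖ ^ 2 := sq_nonneg _
        linarith
    · rw [if_neg hb]
      have h7 : 0 ≤ ‖T.ι (if θ i ∈ E then x i else 0)‖ ^ 2 := sq_nonneg _
      linarith
  have hsum := Finset.sum_le_sum fun i (_ : i ∈ Finset.univ) => hpt i
  rw [Finset.sum_add_distrib, Finset.sum_add_distrib, ← Finset.mul_sum, ← Finset.mul_sum,
    ← Finset.mul_sum] at hsum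
  have hlast : ε / 2 * ∑ i, ‖T.ι (x i)‖ ^ 2 ≤ ε := by
    have h1 : ∑ i, ‖T.ι (x i)‖ ^ 2 ≤ 2 := by
      have h2 : T.ms x = ∑ i, ‖T.ι (x i)‖ ^ 2 := rfl
      linarith
    calc ε / 2 * ∑ i, ‖T.ι (x i)‖ ^ 2 ≤ ε / 2 * 2 :=
          mul_le_mul_of_nonneg_left h1 (by positivity)
      _ = ε := div_mul_cancel₀ _ two_ne_zero
  have hbad' : ∑ i, ‖T.ι (if θ i ∈ E then x i else 0)‖ ^ 2 ≤ ε / 100 := hbad
  have hs0D := hmem s0 (le_max_right _ _)
  have g1 := hlab.ne _ hs0D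
  have g2 := wtf_disp_le S R x θ s0 0
  have g3 := (hcmp _ hs0D (ch (0 * s0)) (norm_ch _)).2
  have g4 : ∑ j, ‖T.ι (S.α (R.s s0) (y j) - ch (0 * s0) • y j)‖ ^ 2
      = ∑ j, ‖T.ι (S.α (R.s s0) (y j) - y j)‖ ^ 2 := by
    rw [zero_mul, ch_zero]
    simp
  rw [g4] at g3
  linarith

/-- T3, weight step: all labels are available in all corners -/
theorem TrAct.labA_weight {U : Type z} [NormedAddCommGroup U] [NormedSpace ℝ U]
    [FiniteDimensional ℝ U] (W : WtData G U) (χ : U →L[ℝ] ℝ) (hχ : χ ≠ 0)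
    (hE : ∀ b : A, S.IsPrj b → b ≠ 0 → ∃ c : ℝ, 0 < c ∧ ∀ (r : ℝ) (D : Set G), IsCompact D →
      ∀ κ : ℝ, 0 < κ → ∃ e : A, b * e = e ∧ e * b = e ∧ ‖e‖ ≤ 1 ∧ c ≤ ‖T.ι e‖ ^ 2 ∧
        ∀ h ∈ D, W.R.p h = 0 → ‖T.ι (S.α h e - ch (r * χ (W.ξ h)) • e)‖ ≤ κ)
    (q ρ : ℝ) (hρ : 0 < ρ) (b : A) (hb : S.IsPrj b) (h0 : b ≠ 0) :
    S.LabA (pch W.R.p) (Metric.ball q ρ) b :=
  S.labA_of_wt W χ hχ (fun _ _ h hBk s0 hs0 ε δ hε hδ =>
    TrAct.Dec.perAt_of_dec S W.R h hBk s0 hs0 ε δ hε hδ) hE q ρ hρ b hb h0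

end

end Pool.Agent.AbCoc
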