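import Pool.Agent.Lib_MP_418a80_t3.Comp10
import Pool.Agent.Lib_MP_418a80_t3.T3Class
import Pool.Agent.Lib_MP_418a80_t3.WtF
import Pool.Agent.Lib_MP_418a80_t3.PhaseE

/-!
# MP_418a80_an, T3: the weight step for the property `KeyAll`
-/

set_option autoImplicit false
set_option linter.unusedVariables false
set_option linter.unusedSectionVars false

open MeasureTheory Topology Filter
open scoped ENNReal NNReal ComplexConjugate RealInnerProductSpace

namespace Pool.Agent.AbCoc

universe u v w z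

section grp
variable {G : Type w} [Group G] [TopologicalSpace G]

/-- the kernel of `p` is normal -/
theorem RSec.normal_of_mem_iff (R : RSec G) (N : Subgroup G) (hN : ∀ g, g ∈ N ↔ R.p g = 0) :
    N.Normal := by
  constructor
  intro n hn g
  rw [hN] at hn ⊢
  rw [R.pmul, R.pmul, R.p_inv, hn]
  ring

/-- the kernel of `p` is closed -/
theorem RSec.isClosed_of_mem_iff (R : RSec G) (N : Subgroup G) (hN : ∀ g, g ∈ N ↔ R.p g = 0) :
    IsClosed (N : Set G) := by
  have h3 : (N : Set G) = R.p ⁻¹' {0} := by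
    ext g
    exact hN g
  rw [h3]
  exact isClosed_singleton.preimage R.hp

variable {U : Type z} [NormedAddCommGroup U] [NormedSpace ℝ U]

/-- small characters of the kernel from a linear functional -/
theorem WtData.hasSmallChar (W : WtData G U) (N : Subgroup G) (hN : ∀ g, g ∈ N ↔ W.R.p g = 0)
    (χ : U →L[ℝ] ℝ) (l : U) (hl : χ l ≠ 0) : HasSmallChar N := by
  have h1 : W.R.p (1 : G) = 0 := (hN 1).1 N.one_mem
  have h3 : W.ξ 1 = 0 := by
    have h2 := W.ξ_mul 1 1 h1 h1
    rw [mul_one] at h2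
    exact (left_eq_add.1 h2)
  obtain ⟨φ, hφ⟩ : ∃ φ : N →* Multiplicative ℝ, ∀ h : N, (φ h).toAdd = χ (W.ξ h) := by
    refine ⟨{ toFun := fun h => Multiplicative.ofAdd (χ (W.ξ h))
              map_one' := ?_
              map_mul' := fun a b => ?_ }, fun h => rfl⟩
    · rw [Subgroup.coe_one, h3, map_zero]
      rfl
    · rw [Subgroup.coe_mul, W.ξ_mul _ _ ((hN _).1 a.2) ((hN _).1 b.2), map_add]
      rfl
  refine hasSmallChar_of_hom φ ?_ ⟨W.ω l, (hN _).2 (W.pω l)⟩ ?_
  · simp only [hφ]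
    exact χ.continuous.comp (W.hξ.comp continuous_subtype_val)
  · rw [hφ]
    change χ (W.ξ (W.ω l)) ≠ 0
    rw [W.ξω]
    exact hl

end grp

section step
variable {G : Type w} [Group G] [TopologicalSpace G] [IsTopologicalGroup G] [T2Space G]
  [SecondCountableTopology G] [LocallyCompactSpace G]

/-- the KEY property of the twisted matrices over a closed subgroup `N` with `KeyAll N` -/
theorem KeyAll.key_tw2 (N : Subgroup G) (hNc : IsClosed (N : Set G)) (hK : KeyAll.{u, v, w} N)
    [MeasurableSpace G] [BorelSpace G] (ν : Measure G) [ν.IsHaarMeasure] (hR : Reiter ν)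
    {A : Type u} [CStarAlgebra A] [PartialOrder A] [StarOrderedRing A] {K : Type v}
    [NormedAddCommGroup K] [InnerProductSpace ℂ K] [CompleteSpace K] {T : TrAlg A K}
    (S : TrAct G T) (hSO : S.SO ν Set.univ) (χ : N →* Circle) (hχ : Continuous χ) :
    ((S.cm N.subtype continuous_subtype_val).twist 2 (tw2 χ) (tw2_cont hχ)).Key := by
  have : LocallyCompactSpace N := hNc.isClosedEmbedding_subtypeVal.locallyCompactSpace
  have : SecondCountableTopology N :=
    inferInstanceAs (SecondCountableTopology ((N : Set G) : Set G))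
  exact hK.key_twist ν S N.subtype continuous_subtype_val hNc.isClosedEmbedding_subtypeVal hR hSO 2
    (tw2 χ) (tw2_cont hχ)

/-- **Step of a one-parameter section.** `N = ker p`, `p : G → ℝ` with a one-parameter section,
`KeyAll N`, and all labels are available in all corners, for all strictly outer actions. -/
theorem keyAll_of_rsec (R : RSec G) (N : Subgroup G) (hN : ∀ g, g ∈ N ↔ R.p g = 0)
    (hK : KeyAll.{u, v, w} N) (hchar : HasSmallChar N)
    (hlab : ∀ [MeasurableSpace G] [BorelSpace G] (ν : Measure G) [ν.IsHaarMeasure], Reiter ν →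
      ∀ (A : Type u) [CStarAlgebra A] (K : Type v) [NormedAddCommGroup K] [InnerProductSpace ℂ K]
      [CompleteSpace K] (T : TrAlg A K) (S : TrAct G T), S.SO ν Set.univ →
      ∀ b : A, S.IsPrj b → b ≠ 0 → ∀ t ρ : ℝ, 0 < ρ → S.LabA (pch R.p) (Metric.ball t ρ) b) :
    KeyAll.{u, v, w} G := by
  have : N.Normal := R.normal_of_mem_iff N hN
  have hNc := R.isClosed_of_mem_iff N hN
  refine keyAll_of_stepATyp fun ν _ hR A _ K _ _ _ T S hSO => ?_
  let := CStarAlgebra.spectralOrder A
  have := CStarAlgebra.spectralOrderedRing A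
  refine S.stepATyp_of_rsec R (hlab ν hR A K T S hSO) fun b1 b2 h1 h10 h2 h20 => ?_
  exact S.goodE N hNc R.p hN R.s R.hs (hK.key_tw2 N hNc ν hR S hSO) hchar h1 h2 h10 h20

/-- **Weight step.** `G = N s(ℝ)`, `N = ker p`, `ξ : N → U` a continuous homomorphism onto a nonzero
finite dimensional space, `ξ (s(t) h s(t)⁻¹) = ρ(t) (ξ h)`, `ρ(t) - 1` injective for `t ≠ 0`. -/
theorem keyAll_of_wt {U : Type z} [NormedAddCommGroup U] [NormedSpace ℝ U]
    [FiniteDimensional ℝ U] [Nontrivial U] (W : WtData G U) (N : Subgroup G)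
    (hN : ∀ g, g ∈ N ↔ W.R.p g = 0) (hK : KeyAll.{u, v, w} N) : KeyAll.{u, v, w} G := by
  obtain ⟨l, hl⟩ := exists_ne (0 : U)
  obtain ⟨χ, hχ⟩ : ∃ χ : U →L[ℝ] ℝ, χ l ≠ 0 := by
    obtain ⟨f, _, hf⟩ := exists_dual_vector ℝ l (norm_ne_zero_iff.2 hl)
    refine ⟨f, ?_⟩
    rw [hf]
    simpa using hl
  have hχ0 : χ ≠ 0 := fun h => hχ (by rw [h]; rfl)
  refine keyAll_of_rsec W.R N hN hK (W.hasSmallChar N hN χ l hχ)
    fun ν _ hR A _ K _ _ _ T S hSO b hb hb0 t ρ hρ => ?_
  let := CStarAlgebra.spectralOrder A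
  have := CStarAlgebra.spectralOrderedRing A
  exact S.labA_weight W χ hχ0 (fun b' hb' hb0' => S.phase_hE W χ N hN
    (hK.key_tw2 N (W.R.isClosed_of_mem_iff N hN) ν hR S hSO) hb' hb' hb0' hb0') t ρ hρ b hb hb0

end step

end Pool.Agent.AbCoc
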