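import Pool.Agent.Lib_MP_418a80_t3.Fam
import Pool.Agent.Lib_MP_418a80_hyp.OrbInt

/-!
# Labelled near-eigen families with operator domination
-/

set_option autoImplicit false
set_option linter.unusedVariables false
set_option linter.unusedSectionVars false

open Topology Filter MeasureTheory

namespace Pool.Agent.AbCoc

universe u v w z

attribute [local instance] CStarAlgebra.spectralOrder CStarAlgebra.spectralOrderedRing

section
variable {A : Type u} [CStarAlgebra A] {K : Type v} [NormedAddCommGroup K]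
  [InnerProductSpace ℂ K] (T : TrAlg A K)

theorem ll_star {J : Type} [Fintype J] (x : J → A) : ll (fun j => star (x j)) = rr x := by
  unfold ll rr
  simp only [star_star]

theorem rr_star {J : Type} [Fintype J] (x : J → A) : rr (fun j => star (x j)) = ll x := by
  unfold ll rr
  simp only [star_star]

theorem ll_nonneg {J : Type} [Fintype J] (x : J → A) : 0 ≤ ll x :=
  Finset.sum_nonneg fun j _ => mul_star_self_nonneg _

theorem rr_nonneg {J : Type} [Fintype J] (x : J → A) : 0 ≤ rr x :=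
  Finset.sum_nonneg fun j _ => star_mul_self_nonneg _

theorem ll_elim {J J' : Type} [Fintype J] [Fintype J'] (x : J → A) (x' : J' → A) :
    ll (Sum.elim x x') = ll x + ll x' := by
  unfold ll
  rw [Fintype.sum_sum_type]
  rfl

theorem rr_elim {J J' : Type} [Fintype J] [Fintype J'] (x : J → A) (x' : J' → A) :
    rr (Sum.elim x x') = rr x + rr x' := by
  unfold rr
  rw [Fintype.sum_sum_type]
  rfl

theorem ll_smul {J : Type} [Fintype J] (x : J → A) (r : ℝ) :
    ll (fun j => (r : ℂ) • x j) = ((r ^ 2 : ℝ) : ℂ) • ll x := by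
  unfold ll
  rw [Finset.smul_sum]
  refine Finset.sum_congr rfl fun j _ => ?_
  rw [star_smul, smul_mul_smul_comm, RCLike.star_def, Complex.conj_ofReal]
  congr 1
  push_cast
  ring

theorem rr_smul {J : Type} [Fintype J] (x : J → A) (r : ℝ) :
    rr (fun j => (r : ℂ) • x j) = ((r ^ 2 : ℝ) : ℂ) • rr x := by
  unfold rr
  rw [Finset.smul_sum]
  refine Finset.sum_congr rfl fun j _ => ?_
  rw [star_smul, smul_mul_smul_comm, RCLike.star_def, Complex.conj_ofReal]
  congr 1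
  push_cast
  ring

theorem TrAlg.τ_sum_lab {J : Type*} (s : Finset J) (f : J → A) :
    T.τ (∑ j ∈ s, f j) = ∑ j ∈ s, T.τ (f j) := by
  unfold TrAlg.τ
  rw [map_sum, inner_sum]

/-- `∑ ‖x_j a‖² = τ(a* rr(x) a)` -/
theorem TrAlg.sum_norm_mul {J : Type} [Fintype J] (x : J → A) (a : A) :
    ∑ j, ‖T.ι (x j * a)‖ ^ 2 = (T.τ (star a * rr x * a)).re := by
  unfold rr
  rw [Finset.mul_sum, Finset.sum_mul, T.τ_sum_lab, Complex.re_sum]
  refine Finset.sum_congr rfl fun j _ => ?_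
  rw [T.norm_sq, star_mul]
  congr 2
  noncomm_ring

/-- `∑ ‖a x_j‖² = τ(a ll(x) a*)` -/
theorem TrAlg.sum_mul_norm {J : Type} [Fintype J] (x : J → A) (a : A) :
    ∑ j, ‖T.ι (a * x j)‖ ^ 2 = (T.τ (a * ll x * star a)).re := by
  unfold ll
  rw [Finset.mul_sum, Finset.sum_mul, T.τ_sum_lab, Complex.re_sum]
  refine Finset.sum_congr rfl fun j _ => ?_
  rw [← T.norm_star, T.norm_sq, star_star, star_mul]
  congr 2
  noncomm_ring

theorem TrAlg.τ_rr {J : Type} [Fintype J] (x : J → A) :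
    (T.τ (rr x)).re = ∑ j, ‖T.ι (x j)‖ ^ 2 := by
  have h := T.sum_norm_mul x 1
  simp only [mul_one, star_one, one_mul] at h
  exact h.symm

theorem TrAlg.τ_ll {J : Type} [Fintype J] (x : J → A) :
    (T.τ (ll x)).re = ∑ j, ‖T.ι (x j)‖ ^ 2 := by
  have h := T.sum_mul_norm x 1
  simp only [mul_one, star_one, one_mul] at h
  exact h.symm

theorem TrAlg.τ_ll_eq_rr {J : Type} [Fintype J] (x : J → A) : T.τ (ll x) = T.τ (rr x) := by
  unfold ll rr
  rw [T.τ_sum_lab, T.τ_sum_lab]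
  exact Finset.sum_congr rfl fun j _ => T.τ_mul_comm _ _

/-- norm form and order form of the domination -/
theorem TrAlg.rr_le {J : Type} [Fintype J] (x : J → A) (C : ℝ)
    (h : ∀ z, ∑ j, ‖T.ι (x j * z)‖ ^ 2 ≤ C * ‖T.ι z‖ ^ 2) : rr x ≤ algebraMap ℝ A C := by
  rw [← sub_nonneg]
  refine T.nonneg_of_τ ?_ fun a => ?_
  · exact (IsSelfAdjoint.algebraMap A (IsSelfAdjoint.all C)).sub
      (IsSelfAdjoint.of_nonneg (rr_nonneg x))
  · have h1 := h a
    rw [T.sum_norm_mul] at h1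
    have h2 : star a * (algebraMap ℝ A C - rr x) * a
        = C • (star a * a) - star a * rr x * a := by
      rw [Algebra.algebraMap_eq_smul_one]
      rw [mul_sub, sub_mul, mul_smul_comm, smul_mul_assoc, mul_one]
    rw [h2, T.τ_sub, Complex.sub_re]
    have h3 : (T.τ (C • (star a * a))).re = C * ‖T.ι a‖ ^ 2 := by
      rw [T.norm_sq, ← Complex.coe_smul, T.τ_smul, Complex.re_ofReal_mul]
    rw [h3]
    linarith

theorem TrAlg.ll_le {J : Type} [Fintype J] (x : J → A) (C : ℝ)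
    (h : ∀ z, ∑ j, ‖T.ι (z * x j)‖ ^ 2 ≤ C * ‖T.ι z‖ ^ 2) : ll x ≤ algebraMap ℝ A C := by
  rw [← rr_star]
  refine T.rr_le _ C fun z => ?_
  have h1 := h (star z)
  rw [T.norm_star] at h1
  refine le_trans (le_of_eq ?_) h1
  refine Finset.sum_congr rfl fun j _ => ?_
  rw [← T.norm_star, star_mul, star_star]

theorem norm_le_of_le_alg {x : A} {C : ℝ} (h0 : 0 ≤ x) (h : x ≤ algebraMap ℝ A C)
    (hC : 0 ≤ C) : ‖x‖ ≤ C :=
  (CStarAlgebra.norm_le_iff_le_algebraMap x hC h0).2 h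

end

section
variable {A : Type u} [CStarAlgebra A] {K : Type v} [NormedAddCommGroup K]
  [InnerProductSpace ℂ K] [CompleteSpace K]
  {G : Type w} [Group G] [TopologicalSpace G] {T : TrAlg A K} {Q : Type z}

variable {S : TrAct G T} {chi : Q → G → ℂ} {B : Set Q} {b : A} {C κ : ℝ} {D : Set G}
  {J : Type} [Fintype J] {y : J → A} {r : J → Q}

theorem TrAlg.ms_elim (T : TrAlg A K) {J' : Type} [Fintype J'] (y : J → A) (y' : J' → A) :
    T.ms (Sum.elim y y') = T.ms y + T.ms y' := by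
  unfold TrAlg.ms
  rw [Fintype.sum_sum_type]
  rfl

theorem TrAlg.ms_smulR (T : TrAlg A K) (y : J → A) (t : ℝ) :
    T.ms (fun j => (t : ℂ) • y j) = t ^ 2 * T.ms y := by
  unfold TrAlg.ms
  rw [Finset.mul_sum]
  refine Finset.sum_congr rfl fun j _ => ?_
  rw [map_smul, norm_smul, Complex.norm_real, Real.norm_eq_abs, mul_pow, sq_abs]

theorem TrAlg.Dm.smulR {C : ℝ} (h : T.Dm C y) (t : ℝ) :
    T.Dm (t ^ 2 * C) (fun j => (t : ℂ) • y j) := by
  have h1 := h.smul (t : ℂ)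
  rwa [Complex.norm_real, Real.norm_eq_abs, sq_abs] at h1

theorem TrAlg.Dm.norm_ll {C : ℝ} (h : T.Dm C y) : ‖ll y‖ ≤ C :=
  norm_le_of_le_alg (ll_nonneg y) (T.ll_le y C h.2) h.nonneg

theorem TrAlg.Dm.norm_rr {C : ℝ} (h : T.Dm C y) : ‖rr y‖ ≤ C :=
  norm_le_of_le_alg (rr_nonneg y) (T.rr_le y C h.1) h.nonneg

theorem TrAlg.Dm.conj {C : ℝ} (h : T.Dm C y) (p p' : A) :
    T.Dm (‖p‖ ^ 2 * ‖p'‖ ^ 2 * C) (fun j => p * y j * p') := by
  have hC := h.nonneg
  refine ⟨fun z => ?_, fun z => ?_⟩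
  · have e : ∀ j, ‖T.ι (p * y j * p' * z)‖ ^ 2 ≤ ‖p‖ ^ 2 * ‖T.ι (y j * (p' * z))‖ ^ 2 := by
      intro j
      rw [← mul_pow]
      refine pow_le_pow_left₀ (norm_nonneg _) ?_ 2
      have := T.mul_le p (y j * (p' * z))
      rwa [← mul_assoc, ← mul_assoc] at this
    refine (Finset.sum_le_sum fun j _ => e j).trans ?_
    rw [← Finset.mul_sum]
    have h1 := h.1 (p' * z)
    have h2 : ‖T.ι (p' * z)‖ ^ 2 ≤ ‖p'‖ ^ 2 * ‖T.ι z‖ ^ 2 := by
      rw [← mul_pow]
      exact pow_le_pow_left₀ (norm_nonneg _) (T.mul_le p' z) 2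
    have h3 : C * ‖T.ι (p' * z)‖ ^ 2 ≤ C * (‖p'‖ ^ 2 * ‖T.ι z‖ ^ 2) :=
      mul_le_mul_of_nonneg_left h2 hC
    calc ‖p‖ ^ 2 * ∑ j, ‖T.ι (y j * (p' * z))‖ ^ 2
        ≤ ‖p‖ ^ 2 * (C * (‖p'‖ ^ 2 * ‖T.ι z‖ ^ 2)) :=
          mul_le_mul_of_nonneg_left (h1.trans h3) (sq_nonneg _)
      _ = ‖p‖ ^ 2 * ‖p'‖ ^ 2 * C * ‖T.ι z‖ ^ 2 := by ring
  · have e : ∀ j, ‖T.ι (z * (p * y j * p'))‖ ^ 2 ≤ ‖p'‖ ^ 2 * ‖T.ι (z * p * y j)‖ ^ 2 := by
      intro j
      rw [← mul_pow]
      refine pow_le_pow_left₀ (norm_nonneg _) ?_ 2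
      have := T.mul_le' (z * p * y j) p'
      rw [mul_comm ‖p'‖]
      refine le_trans (le_of_eq ?_) this
      congr 2
      noncomm_ring
    refine (Finset.sum_le_sum fun j _ => e j).trans ?_
    rw [← Finset.mul_sum]
    have h1 := h.2 (z * p)
    have h2 : ‖T.ι (z * p)‖ ^ 2 ≤ ‖p‖ ^ 2 * ‖T.ι z‖ ^ 2 := by
      rw [← mul_pow]
      refine pow_le_pow_left₀ (norm_nonneg _) ?_ 2
      rw [mul_comm ‖p‖]
      exact T.mul_le' z p
    have h3 : C * ‖T.ι (z * p)‖ ^ 2 ≤ C * (‖p‖ ^ 2 * ‖T.ι z‖ ^ 2) :=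
      mul_le_mul_of_nonneg_left h2 hC
    calc ‖p'‖ ^ 2 * ∑ j, ‖T.ι (z * p * y j)‖ ^ 2
        ≤ ‖p'‖ ^ 2 * (C * (‖p‖ ^ 2 * ‖T.ι z‖ ^ 2)) :=
          mul_le_mul_of_nonneg_left (h1.trans h3) (sq_nonneg _)
      _ = ‖p‖ ^ 2 * ‖p'‖ ^ 2 * C * ‖T.ι z‖ ^ 2 := by ring

namespace TrAct.IsLab

theorem mono_corner (h : S.IsLab chi B b D κ C y r) {b' : A} (h1 : b' * b = b)
    (h2 : b * b' = b) : S.IsLab chi B b' D κ C y r where
  lft := fun j => by rw [← h.lft j, ← mul_assoc, h1]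
  rgt := fun j => by rw [← h.rgt j, mul_assoc, h2]
  lab := h.lab
  dm := h.dm
  ne := h.ne

theorem union {J' : Type} [Fintype J'] {y' : J' → A} {r' : J' → Q} {C' κ' : ℝ}
    (h : S.IsLab chi B b D κ C y r) (h' : S.IsLab chi B b D κ' C' y' r') :
    S.IsLab chi B b D (κ + κ') (C + C') (Sum.elim y y') (Sum.elim r r') where
  lft := by
    rintro (j | j)
    · exact h.lft j
    · exact h'.lft j
  rgt := by
    rintro (j | j)
    · exact h.rgt j
    · exact h'.rgt j
  lab := by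
    rintro (j | j)
    · exact h.lab j
    · exact h'.lab j
  dm := h.dm.sum_elim h'.dm
  ne := fun g hg => by
    rw [Fintype.sum_sum_type]
    exact add_le_add (h.ne g hg) (h'.ne g hg)

theorem smulR (h : S.IsLab chi B b D κ C y r) (t : ℝ) :
    S.IsLab chi B b D (t ^ 2 * κ) (t ^ 2 * C) (fun j => (t : ℂ) • y j) r where
  lft := fun j => by rw [mul_smul_comm, h.lft j]
  rgt := fun j => by rw [smul_mul_assoc, h.rgt j]
  lab := h.lab
  dm := h.dm.smulR t
  ne := fun g hg => by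
    have e : ∀ j, ‖T.ι (S.α g ((t : ℂ) • y j) - chi (r j) g • ((t : ℂ) • y j))‖ ^ 2
        = t ^ 2 * ‖T.ι (S.α g (y j) - chi (r j) g • y j)‖ ^ 2 := by
      intro j
      rw [map_smul, smul_comm (chi (r j) g), ← smul_sub, map_smul, norm_smul, Complex.norm_real,
        Real.norm_eq_abs, mul_pow, sq_abs]
    simp only [e]
    rw [← Finset.mul_sum]
    exact mul_le_mul_of_nonneg_left (h.ne g hg) (sq_nonneg t)

/-- multiplication by fixed elements -/
theorem conj (h : S.IsLab chi B b D κ C y r) {p p' : A} (hp : S.Fixed p) (hp' : S.Fixed p')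
    (hb : b * p = p) (hb' : p' * b = p') :
    S.IsLab chi B b D (‖p‖ ^ 2 * ‖p'‖ ^ 2 * κ) (‖p‖ ^ 2 * ‖p'‖ ^ 2 * C)
      (fun j => p * y j * p') r where
  lft := fun j => by rw [← mul_assoc, ← mul_assoc, hb]
  rgt := fun j => by rw [mul_assoc, hb']
  lab := h.lab
  dm := h.dm.conj p p'
  ne := fun g hg => by
    have e : ∀ j, ‖T.ι (S.α g (p * y j * p') - chi (r j) g • (p * y j * p'))‖ ^ 2
        ≤ ‖p‖ ^ 2 * ‖p'‖ ^ 2 * ‖T.ι (S.α g (y j) - chi (r j) g • y j)‖ ^ 2 := by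
      intro j
      have e1 : S.α g (p * y j * p') - chi (r j) g • (p * y j * p')
          = p * (S.α g (y j) - chi (r j) g • y j) * p' := by
        rw [map_mul, map_mul, hp g, hp' g, mul_sub, sub_mul, mul_smul_comm, smul_mul_assoc]
      rw [e1, ← mul_pow, ← mul_pow]
      refine pow_le_pow_left₀ (norm_nonneg _) ?_ 2
      have h1 := T.mul_le' (p * (S.α g (y j) - chi (r j) g • y j)) p'
      have h2 := mul_le_mul_of_nonneg_right (T.mul_le p (S.α g (y j) - chi (r j) g • y j))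
        (norm_nonneg p')
      refine (h1.trans h2).trans (le_of_eq (by ring))
    refine (Finset.sum_le_sum fun j _ => e j).trans ?_
    rw [← Finset.mul_sum]
    exact mul_le_mul_of_nonneg_left (h.ne g hg) (by positivity)

/-- the adjoint family has the conjugate labels -/
theorem star (h : S.IsLab chi B b D κ C y r) (hb : Star.star b = b) :
    S.IsLab (fun q g => starRingEnd ℂ (chi q g)) B b D κ C (fun j => Star.star (y j)) r where
  lft := fun j => by
    have := congrArg Star.star (h.rgt j)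
    rwa [star_mul, hb] at this
  rgt := fun j => by
    have := congrArg Star.star (h.lft j)
    rwa [star_mul, hb] at this
  lab := h.lab
  dm := h.dm.star
  ne := fun g hg => by
    refine le_trans (le_of_eq ?_) (h.ne g hg)
    refine Finset.sum_congr rfl fun j _ => ?_
    rw [← T.norm_star]
    congr 3
    rw [star_sub, star_smul, star_star, ← map_star, star_star, RCLike.star_def,
      Complex.conj_conj]

/-- the empty family -/
theorem empty (S : TrAct G T) (chi : Q → G → ℂ) (B : Set Q) (b : A) (D : Set G) {κ C : ℝ}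
    (hκ : 0 ≤ κ) (hC : 0 ≤ C) :
    S.IsLab chi B b D κ C (fun j : Empty => j.elim) (fun j : Empty => j.elim) where
  lft := fun j => j.elim
  rgt := fun j => j.elim
  lab := fun j => j.elim
  dm := ⟨fun z => by simpa using by positivity, fun z => by simpa using by positivity⟩
  ne := fun g _ => by simpa using hκ

end TrAct.IsLab

end

end Pool.Agent.AbCoc
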