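import Pool.Agent.Lib_MP_418a80_t3.Mult1
import Pool.Agent.Lib_MP_418a80_t3.Defs

/-!
# The `1`-norm `T.n1` of `Defs`; Powers-Stoermer for families; square roots
-/

set_option autoImplicit false
set_option linter.unusedVariables false
set_option linter.unusedSectionVars false

open Topology Filter
open scoped ComplexConjugate

namespace Pool.Agent.AbCoc

universe u v w

section
variable {A : Type u} [CStarAlgebra A]

theorem posE_star_mul_self (x : A) : PosE (star x * x) := ⟨x, rfl⟩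

theorem posE_mul_star_self (x : A) : PosE (x * star x) := ⟨star x, by rw [star_star]⟩

variable {K : Type v} [NormedAddCommGroup K] [InnerProductSpace ℂ K]

namespace TrAlg
variable (T : TrAlg A K)

theorem fn_app (x z : A) : T.fn x z = T.τ (x * z) := rfl

theorem fn_add (x y : A) : T.fn (x + y) = T.fn x + T.fn y := by
  ext z
  change T.τ ((x + y) * z) = T.τ (x * z) + T.τ (y * z)
  rw [add_mul, T.τ_add]

theorem fn_smul (c : ℂ) (x : A) : T.fn (c • x) = c • T.fn x := by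
  ext z
  change T.τ ((c • x) * z) = c • T.τ (x * z)
  rw [smul_mul_assoc, T.τ_smul]
  rfl

theorem fn_zero : T.fn (0 : A) = 0 := by
  ext z
  change T.τ (0 * z) = 0
  unfold TrAlg.τ
  rw [zero_mul, map_zero, inner_zero_right]

theorem fn_neg (x : A) : T.fn (-x) = -T.fn x := by
  ext z
  change T.τ (-x * z) = -T.τ (x * z)
  rw [neg_mul, T.τ_neg]

theorem fn_sub (x y : A) : T.fn (x - y) = T.fn x - T.fn y := by
  rw [sub_eq_add_neg, T.fn_add, T.fn_neg, sub_eq_add_neg]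

theorem n1_nonneg (x : A) : 0 ≤ T.n1 x := norm_nonneg _

theorem n1_zero : T.n1 (0 : A) = 0 := by unfold n1; rw [T.fn_zero, norm_zero]

theorem n1_add_le (x y : A) : T.n1 (x + y) ≤ T.n1 x + T.n1 y := by
  unfold n1; rw [T.fn_add]; exact norm_add_le _ _

theorem n1_neg (x : A) : T.n1 (-x) = T.n1 x := by unfold n1; rw [T.fn_neg, norm_neg]

theorem n1_sub_le (x y : A) : T.n1 (x - y) ≤ T.n1 x + T.n1 y := by
  unfold n1; rw [T.fn_sub]; exact norm_sub_le _ _

theorem n1_sub_comm (x y : A) : T.n1 (x - y) = T.n1 (y - x) := by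
  rw [← T.n1_neg, neg_sub]

theorem n1_sub_le_add (x y z : A) : T.n1 (x - z) ≤ T.n1 (x - y) + T.n1 (y - z) := by
  have h : x - z = (x - y) + (y - z) := by abel
  rw [h]
  exact T.n1_add_le _ _

theorem n1_smul (c : ℂ) (x : A) : T.n1 (c • x) = ‖c‖ * T.n1 x := by
  unfold n1; rw [T.fn_smul, norm_smul]

theorem n1_sum_le {J : Type*} (s : Finset J) (f : J → A) :
    T.n1 (∑ j ∈ s, f j) ≤ ∑ j ∈ s, T.n1 (f j) := by
  classical
  induction s using Finset.induction_on with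
  | empty => rw [Finset.sum_empty, Finset.sum_empty, T.n1_zero]
  | insert j s hj ih =>
    rw [Finset.sum_insert hj, Finset.sum_insert hj]
    exact (T.n1_add_le _ _).trans (add_le_add le_rfl ih)

theorem norm_τ_mul_le_n1 (x z : A) : ‖T.τ (x * z)‖ ≤ T.n1 x * ‖z‖ := (T.fn x).le_opNorm z

theorem norm_τ_mul_le_n1' (x z : A) : ‖T.τ (z * x)‖ ≤ T.n1 x * ‖z‖ := by
  rw [T.τ_mul_comm]
  exact T.norm_τ_mul_le_n1 x z

theorem norm_one_le : ‖(1 : A)‖ ≤ 1 := by
  rcases subsingleton_or_nontrivial A with h | h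
  · rw [Subsingleton.elim (1 : A) 0, norm_zero]
    exact zero_le_one
  · exact CStarRing.norm_one.le

theorem norm_τ_le_n1 (x : A) : ‖T.τ x‖ ≤ T.n1 x := by
  have h := T.norm_τ_mul_le_n1 x 1
  rw [mul_one] at h
  exact h.trans ((mul_le_mul_of_nonneg_left norm_one_le (T.n1_nonneg x)).trans (mul_one _).le)

theorem re_τ_le_n1 (x : A) : (T.τ x).re ≤ T.n1 x := (Complex.re_le_norm _).trans (T.norm_τ_le_n1 x)

theorem n1_le {x : A} {C : ℝ} (hC : 0 ≤ C) (h : ∀ z, ‖z‖ ≤ 1 → ‖T.τ (x * z)‖ ≤ C) :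
    T.n1 x ≤ C := by
  refine ContinuousLinearMap.opNorm_le_bound _ hC fun z => ?_
  rcases eq_or_ne z 0 with rfl | hz
  · rw [map_zero, norm_zero, norm_zero, mul_zero]
  · have hz0 : 0 < ‖z‖ := norm_pos_iff.2 hz
    have h1 := h (((‖z‖⁻¹ : ℝ) : ℂ) • z) (by
      rw [norm_smul, Complex.norm_real, norm_inv, norm_norm, inv_mul_cancel₀ hz0.ne'])
    rw [mul_smul_comm, T.τ_smul, norm_mul, Complex.norm_real, norm_inv, norm_norm] at h1
    have h2 : ‖z‖⁻¹ * ‖T.τ (x * z)‖ * ‖z‖ ≤ C * ‖z‖ := mul_le_mul_of_nonneg_right h1 hz0.le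
    have h3 : ‖z‖⁻¹ * ‖T.τ (x * z)‖ * ‖z‖ = ‖T.τ (x * z)‖ := by field_simp
    rwa [h3] at h2

theorem n1_star (x : A) : T.n1 (star x) = T.n1 x := by
  have key : ∀ x : A, T.n1 (star x) ≤ T.n1 x := by
    intro x
    refine T.n1_le (T.n1_nonneg x) fun z hz => ?_
    have h1 : T.τ (star x * z) = conj (T.τ (star z * x)) := by
      rw [← T.τ_star, star_mul, star_star]
    rw [h1, RCLike.norm_conj]
    refine (T.norm_τ_mul_le_n1' x (star z)).trans ?_
    rw [_root_.norm_star]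
    exact (mul_le_mul_of_nonneg_left hz (T.n1_nonneg x)).trans (mul_one _).le
  refine le_antisymm (key x) ?_
  have := key (star x)
  rwa [star_star] at this

theorem n1_mul_left (a x : A) : T.n1 (a * x) ≤ ‖a‖ * T.n1 x := by
  refine T.n1_le (mul_nonneg (norm_nonneg _) (T.n1_nonneg x)) fun z hz => ?_
  rw [mul_assoc, T.τ_mul_comm, mul_assoc]
  refine (T.norm_τ_mul_le_n1 x (z * a)).trans ?_
  have h : ‖z * a‖ ≤ ‖a‖ := (norm_mul_le _ _).trans
    ((mul_le_mul_of_nonneg_right hz (norm_nonneg _)).trans (one_mul _).le)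
  rw [mul_comm]
  exact mul_le_mul_of_nonneg_right h (T.n1_nonneg x)

theorem n1_mul_right (x a : A) : T.n1 (x * a) ≤ T.n1 x * ‖a‖ := by
  rw [← T.n1_star, star_mul, mul_comm (T.n1 x), ← T.n1_star x, ← _root_.norm_star a]
  exact T.n1_mul_left _ _

theorem n1_star_mul_le (x y : A) : T.n1 (star x * y) ≤ ‖T.ι x‖ * ‖T.ι y‖ := by
  refine T.n1_le (by positivity) fun z hz => ?_
  rw [T.τ_mul_comm]
  have h := T.norm_τ_mul_star_mul_le z x y hz
  rwa [one_mul] at h

theorem n1_mul_le (x y : A) : T.n1 (x * y) ≤ ‖T.ι x‖ * ‖T.ι y‖ := by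
  have h := T.n1_star_mul_le (star x) y
  rwa [star_star, T.norm_star] at h

theorem n1_le_norm (x : A) : T.n1 x ≤ ‖T.ι x‖ := by
  have h := T.n1_mul_le 1 x
  rwa [one_mul, T.norm_one, one_mul] at h

/-- `|x* x - y* y|_1 ≤ |x - y|_2 |x + y|_2` -/
theorem n1_sq_sub_le (x y : A) :
    T.n1 (star x * x - star y * y) ≤ ‖T.ι (x - y)‖ * ‖T.ι (x + y)‖ := by
  have e : star x * x - star y * y
      = (1 / 2 : ℂ) • (star (x - y) * (x + y) + star (x + y) * (x - y)) := by
    have h : star (x - y) * (x + y) + star (x + y) * (x - y)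
        = (2 : ℂ) • (star x * x - star y * y) := by
      rw [star_sub, star_add, two_smul]
      noncomm_ring
    rw [h, smul_smul]
    norm_num
  rw [e, T.n1_smul]
  have h1 := T.n1_star_mul_le (x - y) (x + y)
  have h2 := T.n1_star_mul_le (x + y) (x - y)
  have h3 := T.n1_add_le (star (x - y) * (x + y)) (star (x + y) * (x - y))
  have h4 : ‖(1 / 2 : ℂ)‖ = 1 / 2 := by norm_num
  rw [h4]
  linarith

/-- the mass of a positive element is its `1`-norm -/
theorem n1_star_mul_self (x : A) : T.n1 (star x * x) = ‖T.ι x‖ ^ 2 := by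
  refine le_antisymm ?_ ?_
  · rw [sq]
    exact T.n1_star_mul_le x x
  · rw [T.norm_sq]
    exact T.re_τ_le_n1 _

theorem n1_posE {x : A} (hx : PosE x) : T.n1 x = (T.τ x).re := by
  obtain ⟨y, rfl⟩ := hx
  rw [T.n1_star_mul_self, T.norm_sq]

section fam
variable {C : Type} [Fintype C]

theorem sum_n1_star_mul_le (x y : C → A) :
    ∑ c, T.n1 (star (x c) * y c) ≤ √(∑ c, ‖T.ι (x c)‖ ^ 2) * √(∑ c, ‖T.ι (y c)‖ ^ 2) :=
  (Finset.sum_le_sum fun c _ => T.n1_star_mul_le (x c) (y c)).trans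
    (Real.sum_mul_le_sqrt_mul_sqrt _ _ _)

theorem sum_n1_mul_le (x y : C → A) :
    ∑ c, T.n1 (x c * y c) ≤ √(∑ c, ‖T.ι (x c)‖ ^ 2) * √(∑ c, ‖T.ι (y c)‖ ^ 2) :=
  (Finset.sum_le_sum fun c _ => T.n1_mul_le (x c) (y c)).trans
    (Real.sum_mul_le_sqrt_mul_sqrt _ _ _)

theorem sum_n1_sq_sub_le (x y : C → A) :
    ∑ c, T.n1 (star (x c) * x c - star (y c) * y c)
      ≤ √(∑ c, ‖T.ι (x c - y c)‖ ^ 2) * √(∑ c, ‖T.ι (x c + y c)‖ ^ 2) :=
  (Finset.sum_le_sum fun c _ => T.n1_sq_sub_le (x c) (y c)).trans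
    (Real.sum_mul_le_sqrt_mul_sqrt _ _ _)

/-- Minkowski -/
theorem sqrt_sum_add_le (x y : C → A) :
    √(∑ c, ‖T.ι (x c + y c)‖ ^ 2) ≤ √(∑ c, ‖T.ι (x c)‖ ^ 2) + √(∑ c, ‖T.ι (y c)‖ ^ 2) := by
  have h : ∀ z : C → A, √(∑ c, ‖T.ι (z c)‖ ^ 2)
      = ‖(WithLp.toLp 2 (fun c => T.ι (z c)) : PiLp 2 (fun _ : C => K))‖ := by
    intro z
    rw [PiLp.norm_eq_of_L2]
  rw [h, h, h]
  refine le_trans (le_of_eq ?_) (norm_add_le _ _)
  congr 1
  ext c
  simp

theorem sqrt_sum_sub_le (x y : C → A) :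
    √(∑ c, ‖T.ι (x c - y c)‖ ^ 2) ≤ √(∑ c, ‖T.ι (x c)‖ ^ 2) + √(∑ c, ‖T.ι (y c)‖ ^ 2) := by
  have h := T.sqrt_sum_add_le x (fun c => -y c)
  simpa only [← sub_eq_add_neg, map_neg, norm_neg] using h

/-- `1`-norm of a family by duality -/
theorem sum_n1_le {z : C → A} {δ : ℝ}
    (h : ∀ w : C → A, (∀ c, ‖w c‖ ≤ 1) → ‖∑ c, T.τ (z c * w c)‖ ≤ δ) : ∑ c, T.n1 (z c) ≤ δ := by
  classical
  refine le_of_forall_pos_le_add fun ε hε => ?_
  -- near-optimal contractions
  have key : ∀ c, ∃ w : A, ‖w‖ ≤ 1 ∧ T.n1 (z c) - ε / (Fintype.card C + 1) ≤ (T.τ (z c * w)).re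
      ∧ (T.τ (z c * w)).im = 0 := by
    intro c
    rcases le_or_gt (T.n1 (z c) - ε / (Fintype.card C + 1)) 0 with h0 | h0
    · refine ⟨0, by rw [norm_zero]; exact zero_le_one, ?_, ?_⟩
      · rw [mul_zero]
        unfold TrAlg.τ
        rw [map_zero, inner_zero_right]
        exact h0
      · rw [mul_zero]
        unfold TrAlg.τ
        rw [map_zero, inner_zero_right]
        rfl
    · obtain ⟨w, hw, hw2⟩ : ∃ w : A, ‖w‖ ≤ 1 ∧
          T.n1 (z c) - ε / (Fintype.card C + 1) < ‖T.τ (z c * w)‖ := by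
        by_contra hno
        push Not at hno
        have h1 : T.n1 (z c) ≤ T.n1 (z c) - ε / (Fintype.card C + 1) :=
          T.n1_le h0.le fun w hw => hno w hw
        have h2 : 0 < ε / (Fintype.card C + 1) := by positivity
        linarith
      set t : ℂ := T.τ (z c * w) with ht
      have ht0 : 0 < ‖t‖ := h0.trans hw2
      refine ⟨((conj t) / (‖t‖ : ℂ)) • w, ?_, ?_, ?_⟩
      · rw [norm_smul, norm_div, RCLike.norm_conj, Complex.norm_real, norm_norm,
          div_self ht0.ne', one_mul]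
        exact hw
      all_goals
        have e : T.τ (z c * ((conj t) / (‖t‖ : ℂ)) • w) = ((‖t‖ : ℝ) : ℂ) := by
          rw [mul_smul_comm, T.τ_smul, ← ht, div_mul_eq_mul_div, mul_comm, Complex.mul_conj,
            Complex.normSq_eq_norm_sq]
          have : (‖t‖ : ℂ) ≠ 0 := Complex.ofReal_ne_zero.2 ht0.ne'
          rw [div_eq_iff this]
          push_cast
          ring
        rw [e]
      · rw [Complex.ofReal_re]
        exact hw2.le
      · exact Complex.ofReal_im _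
  choose w hw1 hw2 hw3 using key
  have h1 := h w hw1
  have h2 : ∑ c, (T.n1 (z c) - ε / (Fintype.card C + 1)) ≤ ‖∑ c, T.τ (z c * w c)‖ := by
    refine (Finset.sum_le_sum fun c _ => hw2 c).trans ?_
    rw [← Complex.re_sum]
    exact Complex.re_le_norm _
  rw [Finset.sum_sub_distrib, Finset.sum_const, Finset.card_univ, nsmul_eq_mul] at h2
  have h3 : (Fintype.card C : ℝ) * (ε / (Fintype.card C + 1)) ≤ ε := by
    have hc : (0 : ℝ) ≤ (Fintype.card C : ℝ) := Nat.cast_nonneg _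
    rw [← mul_div_assoc, div_le_iff₀ (by linarith)]
    nlinarith
  linarith

end fam

/-- Powers-Stoermer -/
theorem norm_sub_sq_le_n1 {a b : A} (ha : PosE a) (hb : PosE b) :
    ‖T.ι (a - b)‖ ^ 2 ≤ T.n1 (a * a - b * b) :=
  T.powers_stormer' ha hb fun y hy => (T.norm_τ_mul_le_n1 _ y).trans
    ((mul_le_mul_of_nonneg_left hy (T.n1_nonneg _)).trans (mul_one _).le)

/-- Powers-Stoermer for square roots -/
theorem norm_csqrt_sub_sq_le {x y : A} (hx : PosE x) (hy : PosE y) :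
    ‖T.ι (csqrt x - csqrt y)‖ ^ 2 ≤ T.n1 (x - y) := by
  have h := T.norm_sub_sq_le_n1 (posE_csqrt x) (posE_csqrt y)
  rwa [csqrt_mul_self hx, csqrt_mul_self hy] at h

theorem norm_csqrt_sq {x : A} (hx : PosE x) : ‖T.ι (csqrt x)‖ ^ 2 = (T.τ x).re := by
  rw [T.norm_sq, csqrt_star, csqrt_mul_self hx]

theorem norm_csqrt_star_mul_self_sq (x : A) :
    ‖T.ι (csqrt (star x * x))‖ ^ 2 = ‖T.ι x‖ ^ 2 := by
  rw [T.norm_csqrt_sq (posE_star_mul_self x), ← T.norm_sq]

/-- `||x| z|_2 = |x z|_2` -/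
theorem norm_csqrt_mul (x z : A) : ‖T.ι (csqrt (star x * x) * z)‖ = ‖T.ι (x * z)‖ := by
  have h : ‖T.ι (csqrt (star x * x) * z)‖ ^ 2 = ‖T.ι (x * z)‖ ^ 2 := by
    rw [T.norm_sq, T.norm_sq, star_mul, star_mul, csqrt_star]
    congr 2
    calc star z * csqrt (star x * x) * (csqrt (star x * x) * z)
        = star z * (csqrt (star x * x) * csqrt (star x * x)) * z := by noncomm_ring
      _ = star z * star x * (x * z) := by
          rw [csqrt_mul_self (posE_star_mul_self x)]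
          noncomm_ring
  exact (pow_left_inj₀ (norm_nonneg _) (norm_nonneg _) two_ne_zero).1 h

theorem norm_mul_csqrt (x z : A) : ‖T.ι (z * csqrt (star x * x))‖ = ‖T.ι (x * star z)‖ := by
  rw [← T.norm_star, star_mul, csqrt_star, T.norm_csqrt_mul]

/-- `||x| - |y||_2^2 ≤ |x - y|_2 |x + y|_2` -/
theorem norm_csqrt_star_mul_self_sub_sq_le (x y : A) :
    ‖T.ι (csqrt (star x * x) - csqrt (star y * y))‖ ^ 2 ≤ ‖T.ι (x - y)‖ * ‖T.ι (x + y)‖ :=
  (T.norm_csqrt_sub_sq_le (posE_star_mul_self x) (posE_star_mul_self y)).trans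
    (T.n1_sq_sub_le x y)

end TrAlg

/-- corners of square roots: `(1 - b) w = 0` gives `b √w = √w` -/
theorem csqrt_corner {b x : A} (hb : star b = b) (hx : PosE x) (h : b * x = x) :
    b * csqrt x = csqrt x ∧ csqrt x * b = csqrt x := by
  have h1 : (csqrt x - b * csqrt x) * star (csqrt x - b * csqrt x) = 0 := by
    rw [star_sub, star_mul, csqrt_star, hb]
    have e : (csqrt x - b * csqrt x) * (csqrt x - csqrt x * b)
        = csqrt x * csqrt x - b * (csqrt x * csqrt x) - (csqrt x * csqrt x) * b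
          + b * (csqrt x * csqrt x) * b := by noncomm_ring
    rw [e, csqrt_mul_self hx, h]
    abel
  have h2 : csqrt x - b * csqrt x = 0 := CStarRing.mul_star_self_eq_zero_iff _ |>.1 h1
  have h3 : b * csqrt x = csqrt x := (sub_eq_zero.1 h2).symm
  refine ⟨h3, ?_⟩
  have := congrArg star h3
  rwa [star_mul, csqrt_star, hb] at this

/-- phases do not change `x* x` -/
theorem star_mul_self_phase {c : ℂ} (hc : ‖c‖ = 1) (x : A) :
    star (c • x) * (c • x) = star x * x := by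
  rw [star_smul, smul_mul_smul_comm]
  have : star c * c = 1 := by
    rw [Complex.star_def, ← Complex.normSq_eq_conj_mul_self, Complex.normSq_eq_norm_sq, hc]
    norm_num
  rw [this, one_smul]

end

section
variable {A : Type u} [CStarAlgebra A] {K : Type v} [NormedAddCommGroup K]
  [InnerProductSpace ℂ K] [CompleteSpace K]
  {G : Type w} [Group G] [TopologicalSpace G] {T : TrAlg A K} (S : TrAct G T)

theorem TrAct.τ_act (g : G) (a : A) : T.τ (S.α g a) = T.τ a := by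
  unfold TrAlg.τ
  have h := S.inner_map g 1 a
  rwa [map_one] at h

theorem TrAct.n1_act (g : G) (x : A) : T.n1 (S.α g x) = T.n1 x := by
  have key : ∀ (g : G) (x : A), T.n1 (S.α g x) ≤ T.n1 x := by
    intro g x
    refine T.n1_le (T.n1_nonneg x) fun z hz => ?_
    have h1 : S.α g x * z = S.α g (x * S.α g⁻¹ z) := by
      rw [map_mul, S.apply_inv]
    rw [h1, S.τ_act]
    refine (T.norm_τ_mul_le_n1 x _).trans ?_
    exact (mul_le_mul_of_nonneg_left ((S.norm_le _ _).trans hz) (T.n1_nonneg x)).trans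
      (mul_one _).le
  refine le_antisymm (key g x) ?_
  have := key g⁻¹ (S.α g x)
  rwa [S.inv_apply] at this

theorem TrAct.act_csqrt (g : G) (x : A) (hx : PosE x) : S.α g (csqrt x) = csqrt (S.α g x) :=
  map_csqrt (S.α g) hx

end

/-- (M2): the `1`-norm estimate for multiplets -/
theorem Chs.sum_n1_le {Λ : Type} [AddCommGroup Λ] {F : Finset Λ} (E : Chs Λ F)
    {A : Type u} [CStarAlgebra A] {K : Type v} [NormedAddCommGroup K]
    [InnerProductSpace ℂ K] (T : TrAlg A K) (v v' : Λ → A) :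
    ∑ c, T.n1 (star (E.X v c) * E.X v' c)
      ≤ √(∑ j ∈ F, ‖T.ι (v j)‖ ^ 2) * √(∑ j ∈ F, ‖T.ι (v' j)‖ ^ 2) := by
  rw [← E.sum_norm_sq T v, ← E.sum_norm_sq T v']
  exact T.sum_n1_star_mul_le _ _

end Pool.Agent.AbCoc
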