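import Pool.Agent.Lib_MP_418a80_t3.Mult2
import Pool.Agent.Lib_MP_418a80_nm.AmpT2

/-!
# (M3): the square root of `(X; X') (X*, X'*)`

`prk X X' : Mt (Fin 2) A` is the positive square root of the `2 × 2` matrix `(X_i X_j*)`,
`py X X' = prk X X' 0 1` its corner (formally `X (X* X + X'* X')^(-1/2) X'*`).
-/

set_option autoImplicit false
set_option linter.unusedVariables false
set_option linter.unusedSectionVars false

open Topology Filter
open scoped ComplexConjugate

namespace Pool.Agent.AbCoc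

universe u v w

attribute [local instance] CStarAlgebra.spectralOrder CStarAlgebra.spectralOrderedRing

section
variable {A : Type u} [CStarAlgebra A]

/-- the column `(X; X')` as a matrix -/
def prL (X X' : A) : Mt (Fin 2) A :=
  CStarMatrix.ofMatrix fun i j => if j = 0 then (if i = 0 then X else X') else 0

/-- the positive square root of `(X; X') (X*, X'*)` -/
noncomputable def prk (X X' : A) : Mt (Fin 2) A := csqrt (prL X X' * star (prL X X'))

/-- the corner of `prk` -/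
noncomputable def py (X X' : A) : A := prk X X' 0 1

theorem prL_apply (X X' : A) (i j : Fin 2) :
    prL X X' i j = if j = 0 then (if i = 0 then X else X') else 0 := rfl

theorem mt_star_apply (M : Mt (Fin 2) A) (i j : Fin 2) : (star M) i j = star (M j i) := rfl

theorem mt_mul_apply (M N : Mt (Fin 2) A) (i j : Fin 2) :
    (M * N) i j = M i 0 * N 0 j + M i 1 * N 1 j := by
  rw [CStarMatrix.mul_apply, Fin.sum_univ_two]

theorem prW_apply (X X' : A) (i j : Fin 2) :
    (prL X X' * star (prL X X')) i j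
      = (if i = 0 then X else X') * star (if j = 0 then X else X') := by
  rw [mt_mul_apply, mt_star_apply, mt_star_apply, prL_apply, prL_apply, prL_apply, prL_apply]
  simp

theorem prk_star (X X' : A) : star (prk X X') = prk X X' := csqrt_star _

theorem prk_star_apply (X X' : A) (i j : Fin 2) : star (prk X X' i j) = prk X X' j i := by
  have h := congrArg (fun M : Mt (Fin 2) A => M j i) (prk_star X X')
  exact h

theorem prk_mul_self (X X' : A) : prk X X' * prk X X' = prL X X' * star (prL X X') :=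
  csqrt_mul_self (posE_mul_star_self _)

theorem prk_sq (X X' : A) (i j : Fin 2) :
    prk X X' i 0 * prk X X' 0 j + prk X X' i 1 * prk X X' 1 j
      = (if i = 0 then X else X') * star (if j = 0 then X else X') := by
  rw [← mt_mul_apply, prk_mul_self, prW_apply]

theorem star_py (X X' : A) : star (py X X') = prk X X' 1 0 := prk_star_apply X X' 0 1

theorem prk_00 (X X' : A) :
    prk X X' 0 0 * prk X X' 0 0 + py X X' * star (py X X') = X * star X := by
  have h := prk_sq X X' 0 0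
  rw [if_pos rfl] at h
  rw [star_py]
  exact h

theorem prk_01 (X X' : A) :
    prk X X' 0 0 * py X X' + py X X' * prk X X' 1 1 = X * star X' := by
  have h := prk_sq X X' 0 1
  rw [if_pos rfl, if_neg (by decide)] at h
  exact h

theorem prk_11 (X X' : A) :
    star (py X X') * py X X' + prk X X' 1 1 * prk X X' 1 1 = X' * star X' := by
  have h := prk_sq X X' 1 1
  rw [if_neg (by decide)] at h
  rw [star_py]
  exact h

/-- `y y* ≤ X X*` -/
theorem py_ll (X X' : A) : PosE (X * star X - py X X' * star (py X X')) := by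
  refine ⟨prk X X' 0 0, ?_⟩
  rw [← prk_00, prk_star_apply]
  abel

/-- `y* y ≤ X' X'*` -/
theorem py_rr (X X' : A) : PosE (X' * star X' - star (py X X') * py X X') := by
  refine ⟨prk X X' 1 1, ?_⟩
  rw [← prk_11, prk_star_apply]
  abel

/-- equivariance -/
theorem map_prk (φ : A →⋆ₐ[ℂ] A) (X X' : A) (i j : Fin 2) :
    φ (prk X X' i j) = prk (φ X) (φ X') i j := by
  have h1 : mtMap (Fin 2) φ (prk X X') = prk (φ X) (φ X') := by
    unfold prk
    rw [map_csqrt (mtMap (Fin 2) φ) (posE_mul_star_self _), map_mul, map_star]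
    have h2 : mtMap (Fin 2) φ (prL X X') = prL (φ X) (φ X') := by
      ext i j
      rw [mtMap_apply, prL_apply, prL_apply]
      split_ifs
      · rfl
      · rfl
      · exact map_zero φ
    rw [h2]
  rw [← h1]
  rfl

theorem map_py (φ : A →⋆ₐ[ℂ] A) (X X' : A) : φ (py X X') = py (φ X) (φ X') :=
  map_prk φ X X' 0 1

/-- phases -/
theorem prk_phase {c c' : ℂ} (hc : ‖c‖ = 1) (hc' : ‖c'‖ = 1) (X X' : A) (i j : Fin 2) :
    prk (c • X) (c' • X') i j
      = ((if i = 0 then c else c') * conj (if j = 0 then c else c')) • prk X X' i j := by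
  have e : ∀ a : ℂ, ‖a‖ = 1 → a * conj a = 1 := fun a ha => by
    rw [Complex.mul_conj, Complex.normSq_eq_norm_sq, ha]; norm_num
  have e' : ∀ a : ℂ, ‖a‖ = 1 → conj a * a = 1 := fun a ha => by rw [mul_comm, e a ha]
  obtain ⟨d, hd⟩ : ∃ d : Fin 2 → ℂ, d = fun i => if i = 0 then c else c' := ⟨_, rfl⟩
  have hd1 : ∀ i, ‖d i‖ = 1 := by
    intro i
    rw [hd]
    dsimp only
    split_ifs <;> assumption
  obtain ⟨D, hD⟩ : ∃ D : Mt (Fin 2) A, D = dgm (Fin 2) (fun i => d i • (1 : A)) := ⟨_, rfl⟩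
  have hDm : ∀ (M : Mt (Fin 2) A) (i j : Fin 2), (D * M) i j = d i • M i j := by
    intro M i j
    rw [hD, dgm_mul_apply, smul_mul_assoc, one_mul]
  have hsD : star D = dgm (Fin 2) (fun i => conj (d i) • (1 : A)) := by
    rw [hD, ← map_star]
    congr 1
    funext i
    rw [Pi.star_apply, star_smul, star_one]
    rfl
  have hmD : ∀ (M : Mt (Fin 2) A) (i j : Fin 2), (M * star D) i j = conj (d j) • M i j := by
    intro M i j
    rw [hsD, mul_dgm_apply, mul_smul_comm, mul_one]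
  have hDD : star D * D = 1 := by
    ext i j
    have h1 : (star D * D) i j = (star D * (1 * star (star D))) i j := by rw [one_mul, star_star]
    rw [hsD, dgm_mul_apply, hD, dgm_apply, smul_mul_assoc, one_mul]
    by_cases h : i = j
    · subst h
      rw [if_pos rfl, smul_smul, e' _ (hd1 i), one_smul, CStarMatrix.one_apply_eq]
    · rw [if_neg h, smul_zero, CStarMatrix.one_apply_ne h]
  have hL : prL (c • X) (c' • X') = D * prL X X' := by
    ext i j
    rw [hDm, prL_apply, prL_apply, hd]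
    dsimp only
    split_ifs <;> simp
  have h1 : prk (c • X) (c' • X') = D * prk X X' * star D := by
    refine posE_sq_inj (posE_csqrt _) ?_ ?_
    · obtain ⟨z, hz⟩ := posE_csqrt (prL X X' * star (prL X X'))
      refine ⟨z * star D, ?_⟩
      rw [star_mul, star_star]
      unfold prk
      rw [hz]
      noncomm_ring
    · have h2 : D * prk X X' * star D * (D * prk X X' * star D)
          = D * (prk X X' * (star D * D) * prk X X') * star D := by noncomm_ring
      rw [h2, hDD, mul_one, prk_mul_self, prk_mul_self, hL, star_mul]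
      noncomm_ring
  rw [h1, hmD, hDm, smul_smul, mul_comm (conj (d j))]
  rw [hd]

theorem py_phase {c c' : ℂ} (hc : ‖c‖ = 1) (hc' : ‖c'‖ = 1) (X X' : A) :
    py (c • X) (c' • X') = (c * conj c') • py X X' := by
  have h := prk_phase hc hc' X X' 0 1
  simpa [py] using h

/-- corners -/
theorem prk_corner {b : A} (hb : star b = b) {X X' : A} (hX : b * X = X) (hX' : b * X' = X')
    (i j : Fin 2) : b * prk X X' i j = prk X X' i j ∧ prk X X' i j * b = prk X X' i j := by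
  obtain ⟨D, hD⟩ : ∃ D : Mt (Fin 2) A, D = dgm (Fin 2) (fun _ => b) := ⟨_, rfl⟩
  have hsD : star D = D := by
    rw [hD, ← map_star]
    congr 1
    funext i
    exact hb
  have hL : D * prL X X' = prL X X' := by
    ext i j
    rw [hD, dgm_mul_apply, prL_apply]
    split_ifs
    · exact hX
    · exact hX'
    · exact mul_zero _
  have h := csqrt_corner hsD (posE_mul_star_self (prL X X')) (by rw [← mul_assoc, hL])
  constructor
  · have h1 : (D * prk X X') i j = prk X X' i j := congrArg (fun M : Mt (Fin 2) A => M i j) h.1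
    rw [hD, dgm_mul_apply] at h1
    exact h1
  · have h1 : (prk X X' * D) i j = prk X X' i j := congrArg (fun M : Mt (Fin 2) A => M i j) h.2
    rw [hD, mul_dgm_apply] at h1
    exact h1

theorem py_corner {b : A} (hb : star b = b) {X X' : A} (hX : b * X = X) (hX' : b * X' = X') :
    b * py X X' = py X X' ∧ py X X' * b = py X X' := prk_corner hb hX hX' 0 1

variable {K : Type v} [NormedAddCommGroup K] [InnerProductSpace ℂ K]

namespace TrAlg
variable (T : TrAlg A K)

/-- `|k_00|² + |y|² = |X|²` -/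
theorem norm_prk_0 (X X' : A) : ‖T.ι (prk X X' 0 0)‖ ^ 2 + ‖T.ι (py X X')‖ ^ 2 = ‖T.ι X‖ ^ 2 := by
  have h : (T.τ (prk X X' 0 0 * prk X X' 0 0 + py X X' * star (py X X'))).re
      = (T.τ (X * star X)).re := by rw [prk_00 X X']
  rw [T.τ_add, Complex.add_re] at h
  rw [← T.norm_star (py X X'), ← T.norm_star X, T.norm_sq, T.norm_sq, T.norm_sq, star_star,
    star_star, prk_star_apply]
  exact h

/-- `|k_11|² + |y|² = |X'|²` -/
theorem norm_prk_1 (X X' : A) : ‖T.ι (prk X X' 1 1)‖ ^ 2 + ‖T.ι (py X X')‖ ^ 2 = ‖T.ι X'‖ ^ 2 := by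
  have h : (T.τ (star (py X X') * py X X' + prk X X' 1 1 * prk X X' 1 1)).re
      = (T.τ (X' * star X')).re := by rw [prk_11 X X']
  rw [T.τ_add, Complex.add_re] at h
  rw [← T.norm_star X', T.norm_sq, T.norm_sq, T.norm_sq, star_star, prk_star_apply, ← h]
  ring

theorem norm_py_le (X X' : A) : ‖T.ι (py X X')‖ ^ 2 ≤ ‖T.ι X‖ ^ 2 := by
  have h := T.norm_prk_0 X X'
  have h1 := sq_nonneg ‖T.ι (prk X X' 0 0)‖
  linarith

theorem norm_py_le' (X X' : A) : ‖T.ι (py X X')‖ ^ 2 ≤ ‖T.ι X'‖ ^ 2 := by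
  have h := T.norm_prk_1 X X'
  have h1 := sq_nonneg ‖T.ι (prk X X' 1 1)‖
  linarith

/-- domination of `y` on the left by `X` -/
theorem norm_mul_py_le (X X' z : A) : ‖T.ι (z * py X X')‖ ^ 2 ≤ ‖T.ι (z * X)‖ ^ 2 := by
  have e : ∀ x : A, ‖T.ι (z * x)‖ ^ 2 = (T.τ (z * (x * star x) * star z)).re := by
    intro x
    rw [← T.norm_star, T.norm_sq, star_star, star_mul]
    congr 2
    noncomm_ring
  have h2 : z * (X * star X) * star z
      = z * (prk X X' 0 0 * prk X X' 0 0) * star z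
        + z * (py X X' * star (py X X')) * star z := by
    rw [← prk_00]
    noncomm_ring
  have h3 : (T.τ (z * (prk X X' 0 0 * prk X X' 0 0) * star z)).re
      = ‖T.ι (z * prk X X' 0 0)‖ ^ 2 := by
    rw [e, prk_star_apply]
  rw [e, e, h2, T.τ_add, Complex.add_re, h3]
  have := sq_nonneg ‖T.ι (z * prk X X' 0 0)‖
  linarith

/-- domination of `y` on the right by `X'*` -/
theorem norm_py_mul_le (X X' z : A) : ‖T.ι (py X X' * z)‖ ^ 2 ≤ ‖T.ι (star X' * z)‖ ^ 2 := by
  have e : ∀ x : A, ‖T.ι (x * z)‖ ^ 2 = (T.τ (star z * (star x * x) * z)).re := by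
    intro x
    rw [T.norm_sq, star_mul]
    congr 2
    noncomm_ring
  have h2 : star z * (star (star X') * star X') * z
      = star z * (star (py X X') * py X X') * z
        + star z * (prk X X' 1 1 * prk X X' 1 1) * z := by
    rw [star_star, ← prk_11]
    noncomm_ring
  have h3 : (T.τ (star z * (prk X X' 1 1 * prk X X' 1 1) * z)).re
      = ‖T.ι (prk X X' 1 1 * z)‖ ^ 2 := by
    rw [e, prk_star_apply]
  rw [e, e, h2, T.τ_add, Complex.add_re, h3]
  have := sq_nonneg ‖T.ι (prk X X' 1 1 * z)‖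
  linarith

theorem hs_prL (X X' : A) : T.hs (prL X X') = ‖T.ι X‖ ^ 2 + ‖T.ι X'‖ ^ 2 := by
  unfold hs
  simp [Fin.sum_univ_two, prL_apply]

theorem prL_sub (X X' Y Y' : A) : prL X X' - prL Y Y' = prL (X - Y) (X' - Y') := by
  ext i j
  change prL X X' i j - prL Y Y' i j = prL (X - Y) (X' - Y') i j
  simp only [prL_apply]
  split_ifs <;> simp

theorem prL_add (X X' Y Y' : A) : prL X X' + prL Y Y' = prL (X + Y) (X' + Y') := by
  ext i j
  change prL X X' i j + prL Y Y' i j = prL (X + Y) (X' + Y') i j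
  simp only [prL_apply]
  split_ifs <;> simp

/-- Powers-Stoermer for the pair square root -/
theorem hs_prk_sub_le (X X' Y Y' : A) :
    T.hs (prk X X' - prk Y Y') ≤ √(‖T.ι (X - Y)‖ ^ 2 + ‖T.ι (X' - Y')‖ ^ 2)
      * √(‖T.ι (X + Y)‖ ^ 2 + ‖T.ι (X' + Y')‖ ^ 2) := by
  refine T.powers_stormer_T (a := prk X X') (b := prk Y Y')
    (show ∃ z, prk X X' = star z * z from posE_csqrt _)
    (show ∃ z, prk Y Y' = star z * z from posE_csqrt _) fun z hz => ?_
  have h0 : prk X X' * prk X X' - prk Y Y' * prk Y Y'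
      = (1 / 2 : ℂ) • ((prL X X' - prL Y Y') * star (prL X X' + prL Y Y')
        + (prL X X' + prL Y Y') * star (prL X X' - prL Y Y')) := by
    rw [prk_mul_self, prk_mul_self]
    have h : (prL X X' - prL Y Y') * star (prL X X' + prL Y Y')
        + (prL X X' + prL Y Y') * star (prL X X' - prL Y Y')
        = (2 : ℂ) • (prL X X' * star (prL X X') - prL Y Y' * star (prL Y Y')) := by
      rw [star_sub, star_add, two_smul]
      noncomm_ring
    rw [h, smul_smul]
    norm_num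
  rw [h0, smul_mul_assoc, T.TrM_smul, add_mul, T.TrM_add, norm_mul]
  have e : ∀ M N : Mt (Fin 2) A, ‖T.TrM (M * star N * z)‖ ≤ √(T.hs M) * √(T.hs N) := by
    intro M N
    rw [mul_assoc, T.TrM_mul_comm]
    refine (T.norm_Tr_le N z M).trans ?_
    rw [mul_comm (√(T.hs M))]
    calc ‖z‖ * (√(T.hs N) * √(T.hs M)) ≤ 1 * (√(T.hs N) * √(T.hs M)) :=
          mul_le_mul_of_nonneg_right hz (by positivity)
      _ = _ := one_mul _
  have h1 := e (prL X X' - prL Y Y') (prL X X' + prL Y Y')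
  have h2 := e (prL X X' + prL Y Y') (prL X X' - prL Y Y')
  have h3 := norm_add_le (T.TrM ((prL X X' - prL Y Y') * star (prL X X' + prL Y Y') * z))
    (T.TrM ((prL X X' + prL Y Y') * star (prL X X' - prL Y Y') * z))
  have h4 : ‖(1 / 2 : ℂ)‖ = 1 / 2 := by norm_num
  rw [prL_sub, prL_add, T.hs_prL, T.hs_prL] at h1 h2
  rw [h4, prL_sub, prL_add]
  rw [prL_sub, prL_add] at h3
  rw [mul_comm (√(‖T.ι (X + Y)‖ ^ 2 + ‖T.ι (X' + Y')‖ ^ 2))] at h2
  linarith

theorem norm_prk_sub_sq_le (X X' Y Y' : A) (i j : Fin 2) :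
    ‖T.ι (prk X X' i j - prk Y Y' i j)‖ ^ 2
      ≤ √(‖T.ι (X - Y)‖ ^ 2 + ‖T.ι (X' - Y')‖ ^ 2)
        * √(‖T.ι (X + Y)‖ ^ 2 + ‖T.ι (X' + Y')‖ ^ 2) := by
  refine le_trans ?_ (T.hs_prk_sub_le X X' Y Y')
  unfold hs
  have h1 : ‖T.ι ((prk X X' - prk Y Y') i j)‖ ^ 2
      ≤ ∑ j', ‖T.ι ((prk X X' - prk Y Y') i j')‖ ^ 2 :=
    Finset.single_le_sum (f := fun j' => ‖T.ι ((prk X X' - prk Y Y') i j')‖ ^ 2)
      (fun _ _ => sq_nonneg _) (Finset.mem_univ j)
  have h2 : ∑ j', ‖T.ι ((prk X X' - prk Y Y') i j')‖ ^ 2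
      ≤ ∑ i', ∑ j', ‖T.ι ((prk X X' - prk Y Y') i' j')‖ ^ 2 :=
    Finset.single_le_sum (f := fun i' => ∑ j', ‖T.ι ((prk X X' - prk Y Y') i' j')‖ ^ 2)
      (fun _ _ => Finset.sum_nonneg fun _ _ => sq_nonneg _) (Finset.mem_univ i)
  exact h1.trans h2

theorem norm_py_sub_sq_le (X X' Y Y' : A) :
    ‖T.ι (py X X' - py Y Y')‖ ^ 2
      ≤ √(‖T.ι (X - Y)‖ ^ 2 + ‖T.ι (X' - Y')‖ ^ 2)
        * √(‖T.ι (X + Y)‖ ^ 2 + ‖T.ι (X' + Y')‖ ^ 2) := T.norm_prk_sub_sq_le X X' Y Y' 0 1

/-- approximate polar decomposition -/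
theorem exists_polar (X : A) {ε : ℝ} (hε : 0 < ε) :
    ∃ u : A, ‖u‖ ≤ 1 ∧ ‖csqrt (star X * X) - star u * X‖ ≤ ε := by
  obtain ⟨c, hc1, hc2, hc3, hc4⟩ := exists_resolvent (posE_csqrt (star X * X)) hε
  have haa := csqrt_mul_self (posE_star_mul_self X)
  refine ⟨X * c, ?_, ?_⟩
  · have h1 : ‖X * c‖ * ‖X * c‖ = ‖star (X * c) * (X * c)‖ := (CStarRing.norm_star_mul_self).symm
    have h2 : star (X * c) * (X * c)
        = (c * csqrt (star X * X)) * (csqrt (star X * X) * c) := by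
      rw [star_mul, hc1]
      calc c * star X * (X * c) = c * (star X * X) * c := by noncomm_ring
        _ = c * (csqrt (star X * X) * csqrt (star X * X)) * c := by rw [haa]
        _ = _ := by noncomm_ring
    rw [h2, ← hc2] at h1
    have h3 : ‖(c * csqrt (star X * X)) * (c * csqrt (star X * X))‖ ≤ 1 :=
      (norm_mul_le _ _).trans (by nlinarith [norm_nonneg (c * csqrt (star X * X))])
    nlinarith [norm_nonneg (X * c)]
  · have h5 : star (X * c) * X = c * (csqrt (star X * X) * csqrt (star X * X)) := by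
      rw [star_mul, hc1, mul_assoc, haa]
    rw [h5]
    exact hc4

/-- the overlap of the moduli is controlled by `y` -/
theorem norm_τ_csqrt_mul_csqrt_le (X X' : A) :
    ‖T.τ (csqrt (star X * X) * csqrt (star X' * X'))‖
      ≤ (‖T.ι (prk X X' 0 0)‖ + ‖T.ι (prk X X' 1 1)‖) * ‖T.ι (py X X')‖ := by
  obtain ⟨M, hM⟩ : ∃ M : ℝ, M = ‖T.ι (csqrt (star X' * X'))‖ + ‖T.ι X‖ := ⟨_, rfl⟩
  have hM0 : 0 ≤ M := by rw [hM]; positivity
  refine le_of_forall_pos_le_add fun δ hδ => ?_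
  have hε : 0 < δ / (M + 1) := by positivity
  obtain ⟨u, hu1, hu2⟩ := exists_polar X hε
  obtain ⟨u', hu1', hu2'⟩ := exists_polar X' hε
  set a := csqrt (star X * X) with ha
  set a' := csqrt (star X' * X') with ha'
  have hsa' : star a' = a' := csqrt_star _
  have e1 : a * a' = (a - star u * X) * a' + star u * X * (a' - star X' * u')
      + star u * (X * star X') * u' := by noncomm_ring
  have h1 : ‖T.τ ((a - star u * X) * a')‖ ≤ δ / (M + 1) * ‖T.ι a'‖ := by
    have h := T.norm_τ_mul_le_n1' a' (a - star u * X)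
    refine h.trans ?_
    rw [mul_comm]
    exact mul_le_mul hu2 (T.n1_le_norm a') (T.n1_nonneg _) hε.le
  have h2 : ‖T.τ (star u * X * (a' - star X' * u'))‖ ≤ δ / (M + 1) * ‖T.ι X‖ := by
    have h3 : ‖a' - star X' * u'‖ ≤ δ / (M + 1) := by
      have h4 : a' - star X' * u' = star (a' - star u' * X') := by
        rw [star_sub, star_mul, star_star, hsa']
      rw [h4, _root_.norm_star]
      exact hu2'
    refine (T.norm_τ_mul_le_n1 _ _).trans ?_
    rw [mul_comm]
    refine mul_le_mul h3 ?_ (T.n1_nonneg _) hε.le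
    refine (T.n1_le_norm _).trans ((T.mul_le _ _).trans ?_)
    rw [_root_.norm_star]
    calc ‖u‖ * ‖T.ι X‖ ≤ 1 * ‖T.ι X‖ := mul_le_mul_of_nonneg_right hu1 (norm_nonneg _)
      _ = _ := one_mul _
  have h3 : ∀ x y : A, ‖T.τ (star u * (x * y) * u')‖ ≤ ‖T.ι x‖ * ‖T.ι y‖ := by
    intro x y
    have e2 : star u * (x * y) * u' = (star u * x) * (y * u') := by noncomm_ring
    rw [e2]
    refine (T.norm_τ_le_n1 _).trans ((T.n1_mul_le _ _).trans ?_)
    refine mul_le_mul ?_ ?_ (norm_nonneg _) (norm_nonneg _)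
    · refine (T.mul_le _ _).trans ?_
      rw [_root_.norm_star]
      calc ‖u‖ * ‖T.ι x‖ ≤ 1 * ‖T.ι x‖ := mul_le_mul_of_nonneg_right hu1 (norm_nonneg _)
        _ = _ := one_mul _
    · refine (T.mul_le' _ _).trans ?_
      calc ‖T.ι y‖ * ‖u'‖ ≤ ‖T.ι y‖ * 1 := mul_le_mul_of_nonneg_left hu1' (norm_nonneg _)
        _ = _ := mul_one _
  have h4 : ‖T.τ (star u * (X * star X') * u')‖
      ≤ (‖T.ι (prk X X' 0 0)‖ + ‖T.ι (prk X X' 1 1)‖) * ‖T.ι (py X X')‖ := by
    have e3 : star u * (X * star X') * u' = star u * (prk X X' 0 0 * py X X') * u'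
        + star u * (py X X' * prk X X' 1 1) * u' := by
      rw [← prk_01 X X']
      noncomm_ring
    rw [e3, T.τ_add]
    refine (norm_add_le _ _).trans ?_
    have h5 := h3 (prk X X' 0 0) (py X X')
    have h6 := h3 (py X X') (prk X X' 1 1)
    linarith
  rw [e1, T.τ_add, T.τ_add]
  refine (norm_add_le _ _).trans ((add_le_add (norm_add_le _ _) le_rfl).trans ?_)
  have h5 : δ / (M + 1) * ‖T.ι a'‖ + δ / (M + 1) * ‖T.ι X‖ ≤ δ := by
    rw [← mul_add, ← hM, div_mul_eq_mul_div, div_le_iff₀ (by linarith)]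
    nlinarith
  linarith

/-- the same with the masses -/
theorem norm_τ_csqrt_mul_csqrt_le' (X X' : A) :
    ‖T.τ (csqrt (star X * X) * csqrt (star X' * X'))‖
      ≤ √2 * √(‖T.ι X‖ ^ 2 + ‖T.ι X'‖ ^ 2) * ‖T.ι (py X X')‖ := by
  refine (T.norm_τ_csqrt_mul_csqrt_le X X').trans ?_
  refine mul_le_mul_of_nonneg_right ?_ (norm_nonneg _)
  rw [← Real.sqrt_mul (by norm_num : (0 : ℝ) ≤ 2)]
  refine Real.le_sqrt_of_sq_le ?_
  have h1 := T.norm_prk_0 X X'
  have h2 := T.norm_prk_1 X X'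
  have h3 := sq_nonneg (‖T.ι (prk X X' 0 0)‖ - ‖T.ι (prk X X' 1 1)‖)
  have h4 := sq_nonneg ‖T.ι (py X X')‖
  nlinarith

/-- lower bound for the mass of `y`, linear form -/
theorem py_mass (X X' : A) :
    (‖T.ι X‖ ^ 2 + ‖T.ι X'‖ ^ 2) / 8 - T.n1 (star X * X - star X' * X') / 4
      ≤ ‖T.ι (py X X')‖ ^ 2 := by
  have h1 := T.norm_csqrt_sub_sq_le (posE_star_mul_self X) (posE_star_mul_self X')
  have h2 : ‖T.ι (csqrt (star X * X) - csqrt (star X' * X'))‖ ^ 2
      = ‖T.ι X‖ ^ 2 + ‖T.ι X'‖ ^ 2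
        - 2 * (T.τ (csqrt (star X * X) * csqrt (star X' * X'))).re := by
    rw [map_sub, @norm_sub_sq ℂ, T.norm_csqrt_star_mul_self_sq, T.norm_csqrt_star_mul_self_sq,
      T.inner_eq_τ, csqrt_star]
    simp only [RCLike.re_to_complex]
    ring
  have h3 := (Complex.re_le_norm _).trans (T.norm_τ_csqrt_mul_csqrt_le' X X')
  have h4 := Real.sqrt_nonneg (‖T.ι X‖ ^ 2 + ‖T.ι X'‖ ^ 2)
  have h5 : √(‖T.ι X‖ ^ 2 + ‖T.ι X'‖ ^ 2) ^ 2 = ‖T.ι X‖ ^ 2 + ‖T.ι X'‖ ^ 2 :=
    Real.sq_sqrt (by positivity)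
  have h6 : √2 ^ 2 = (2 : ℝ) := Real.sq_sqrt (by norm_num)
  set s := √(‖T.ι X‖ ^ 2 + ‖T.ι X'‖ ^ 2) with hs
  set y := ‖T.ι (py X X')‖ with hy
  have h7 : 2 * (√2 * s * y) ≤ s ^ 2 / 2 + 4 * y ^ 2 := by
    nlinarith [sq_nonneg (s - 2 * √2 * y)]
  rw [h2] at h1
  linarith

section fam
variable {C : Type} [Fintype C]

theorem sum_norm_py_sub_sq_le (X X' Y Y' : C → A) :
    ∑ c, ‖T.ι (py (X c) (X' c) - py (Y c) (Y' c))‖ ^ 2
      ≤ √(∑ c, (‖T.ι (X c - Y c)‖ ^ 2 + ‖T.ι (X' c - Y' c)‖ ^ 2))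
        * √(∑ c, (‖T.ι (X c + Y c)‖ ^ 2 + ‖T.ι (X' c + Y' c)‖ ^ 2)) := by
  refine (Finset.sum_le_sum fun c _ => T.norm_py_sub_sq_le (X c) (X' c) (Y c) (Y' c)).trans ?_
  refine (Real.sum_mul_le_sqrt_mul_sqrt _ _ _).trans (le_of_eq ?_)
  congr 2
  · exact Finset.sum_congr rfl fun c _ => Real.sq_sqrt (by positivity)
  · exact Finset.sum_congr rfl fun c _ => Real.sq_sqrt (by positivity)

theorem sum_py_mass (X X' : C → A) :
    (∑ c, ‖T.ι (X c)‖ ^ 2 + ∑ c, ‖T.ι (X' c)‖ ^ 2) / 8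
        - (∑ c, T.n1 (star (X c) * X c - star (X' c) * X' c)) / 4
      ≤ ∑ c, ‖T.ι (py (X c) (X' c))‖ ^ 2 := by
  refine le_trans (le_of_eq ?_) (Finset.sum_le_sum fun c _ => T.py_mass (X c) (X' c))
  rw [Finset.sum_sub_distrib, ← Finset.sum_div, ← Finset.sum_div, Finset.sum_add_distrib]

theorem sum_τ_csqrt_le (X X' : C → A) :
    ∑ c, ‖T.τ (csqrt (star (X c) * X c) * csqrt (star (X' c) * X' c))‖
      ≤ √2 * √(∑ c, ‖T.ι (X c)‖ ^ 2 + ∑ c, ‖T.ι (X' c)‖ ^ 2)
        * √(∑ c, ‖T.ι (py (X c) (X' c))‖ ^ 2) := by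
  have h1 : ∀ c, ‖T.τ (csqrt (star (X c) * X c) * csqrt (star (X' c) * X' c))‖
      ≤ √2 * (√(‖T.ι (X c)‖ ^ 2 + ‖T.ι (X' c)‖ ^ 2) * ‖T.ι (py (X c) (X' c))‖) := by
    intro c
    refine (T.norm_τ_csqrt_mul_csqrt_le' (X c) (X' c)).trans (le_of_eq ?_)
    ring
  refine (Finset.sum_le_sum fun c _ => h1 c).trans ?_
  rw [← Finset.mul_sum, mul_assoc]
  refine mul_le_mul_of_nonneg_left ?_ (Real.sqrt_nonneg _)
  refine (Real.sum_mul_le_sqrt_mul_sqrt _ _ _).trans (le_of_eq ?_)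
  congr 2
  rw [← Finset.sum_add_distrib]
  exact Finset.sum_congr rfl fun c _ => Real.sq_sqrt (by positivity)

end fam

end TrAlg

end

end Pool.Agent.AbCoc
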