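import Pool.Agent.Lib_MP_418a80_t3.NG1

/-!
# MP_418a80_an, T3, group side: the upper central series is good; the form
-/

set_option autoImplicit false
set_option linter.unusedSectionVars false
set_option linter.unusedVariables false

open Topology Filter
open scoped commutatorElement

namespace Pool.Agent.AbCoc

universe u v w

variable {G : Type w} [Group G] [TopologicalSpace G]

namespace RPow

variable [T2Space G] (R : RPow G)

theorem rn_bot : R.RN ⊥ where
  normal := inferInstance
  closed := by
    rw [Subgroup.coe_bot]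
    exact isClosed_singleton
  root n hn g h hgh := by
    rw [Subgroup.mem_bot, inv_mul_eq_one] at hgh ⊢
    exact R.root n hn g h hgh

variable [IsTopologicalGroup G]

/-- the upper central series is good -/
theorem rn_upper (i : ℕ) : R.RN (Subgroup.upperCentralSeries G i) := by
  induction i with
  | zero => exact R.rn_bot
  | succ i ih =>
    have hmem : ∀ g : G, g ∈ Subgroup.upperCentralSeries G (i + 1) ↔
        ∀ h : G, ⁅g, h⁆ ∈ Subgroup.upperCentralSeries G i := fun g => Iff.rfl
    have hle : Subgroup.upperCentralSeries G i ≤ Subgroup.upperCentralSeries G (i + 1) :=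
      Subgroup.upperCentralSeries_mono G (Nat.le_succ i)
    have hst : R.St (Subgroup.upperCentralSeries G (i + 1)) := by
      intro t g hg
      rw [hmem] at hg ⊢
      intro h
      have h1 := hg h
      have e1 : ⁅g, h⁆ = g * (h * g * h⁻¹)⁻¹ := by
        rw [commutatorElement_def]
        group
      have e2 : ⁅R.pw t g, h⁆ = R.pw t g * (R.pw t (h * g * h⁻¹))⁻¹ := by
        rw [commutatorElement_def, R.pw_conj]
        group
      rw [e1, ih.normal.mem_comm_iff] at h1
      rw [e2, ih.normal.mem_comm_iff]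
      exact ih.pw_congr h1 t
    refine ⟨inferInstance, ?_, fun n hn g h hgh => ?_⟩
    · have e : ((Subgroup.upperCentralSeries G (i + 1) : Subgroup G) : Set G)
          = ⋂ h : G, {g | ⁅g, h⁆ ∈ Subgroup.upperCentralSeries G i} := by
        ext g
        simp only [SetLike.mem_coe, hmem, Set.mem_iInter, Set.mem_ofPred_eq]
      rw [e]
      refine isClosed_iInter fun h => ih.closed.preimage ?_
      simp only [commutatorElement_def]
      fun_prop
    · have := ih.normal
      set z := (g ^ n)⁻¹ * h ^ n with hz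
      set w := R.pw (n : ℝ)⁻¹ z with hw
      have hwm : w ∈ Subgroup.upperCentralSeries G (i + 1) := hst _ _ hgh
      have hwn : w ^ n = z := R.inv_pow n hn z
      have hc : Commute ((g : G) : G ⧸ Subgroup.upperCentralSeries G i) (w : G) := by
        change ((g : G) : G ⧸ Subgroup.upperCentralSeries G i) * (w : G)
          = ((w : G) : G ⧸ Subgroup.upperCentralSeries G i) * (g : G)
        rw [← QuotientGroup.mk_mul, ← QuotientGroup.mk_mul, QuotientGroup.eq]
        have h1 := (hmem w).1 hwm g
        rw [commutatorElement_def] at h1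
        have e : (g * w)⁻¹ * (w * g) = w⁻¹ * g⁻¹ * (w * g * w⁻¹ * g⁻¹) * (w⁻¹ * g⁻¹)⁻¹ := by group
        rw [e]
        exact ih.normal.conj_mem _ h1 _
      have h2 : ((g * w : G) : G ⧸ Subgroup.upperCentralSeries G i) = (h : G) := by
        refine ih.quot_root n hn _ _ ?_
        rw [QuotientGroup.mk_mul, hc.mul_pow, ← QuotientGroup.mk_pow, ← QuotientGroup.mk_pow,
          ← QuotientGroup.mk_mul, hwn, hz, mul_inv_cancel_left, QuotientGroup.mk_pow]
      rw [QuotientGroup.eq] at h2
      have e : g⁻¹ * h = w * ((g * w)⁻¹ * h) := by group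
      rw [e]
      exact mul_mem hwm (hle h2)

end RPow

/-- the data of the form -/
structure ZData [T2Space G] [IsTopologicalGroup G] (R : RPow G) where
  C : Subgroup G
  closed : IsClosed (C : Set G)
  st : R.St C
  comm : ∀ g h : G, ⁅g, h⁆ ∈ C
  ζ : ↥C → ℝ
  cont : Continuous ζ
  mul : ∀ c d, ζ (c * d) = ζ c + ζ d
  inv : ∀ (g : G) (c : C), ζ ⟨⁅g, (c : G)⁆, comm g c⟩ = 0
  ne : ∃ g h, ζ ⟨⁅g, h⁆, comm g h⟩ ≠ 0

section hull
variable [T2Space G] [IsTopologicalGroup G] (R : RPow G)

/-- the closed normal stable hull of the commutators -/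
def RPow.hull : Subgroup G :=
  sInf {H | H.Normal ∧ IsClosed (H : Set G) ∧ R.St H ∧ ∀ g h : G, ⁅g, h⁆ ∈ H}

theorem RPow.hull_closed : IsClosed (R.hull : Set G) := by
  unfold RPow.hull
  rw [Subgroup.coe_sInf]
  exact isClosed_biInter fun H hH => hH.2.1

theorem RPow.hull_st : R.St R.hull := RPow.st_sInf fun H hH => hH.2.2.1

theorem RPow.comm_mem_hull (g h : G) : ⁅g, h⁆ ∈ R.hull :=
  Subgroup.mem_sInf.2 fun H hH => hH.2.2.2 g h

theorem RPow.hull_le {H : Subgroup G} (h1 : H.Normal) (h2 : IsClosed (H : Set G)) (h3 : R.St H)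
    (h4 : ∀ g h : G, ⁅g, h⁆ ∈ H) : R.hull ≤ H := sInf_le ⟨h1, h2, h3, h4⟩

theorem RPow.exists_zdata [LocallyCompactSpace G] [Group.IsNilpotent G]
    (hna : ∃ g h : G, g * h ≠ h * g) : Nonempty (ZData R) := by
  classical
  obtain ⟨N, hN⟩ := Group.IsNilpotent.nilpotent G
  have hex : ∃ i, R.hull ≤ Subgroup.upperCentralSeries G i := ⟨N, by rw [hN]; exact le_top⟩
  have hmin := fun i => Nat.find_min hex (m := i)
  have hsp := Nat.find_spec hex
  obtain ⟨i, hi⟩ : ∃ i, i = Nat.find hex := ⟨_, rfl⟩
  rw [← hi] at hmin hsp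
  cases i with
  | zero =>
    exfalso
    obtain ⟨g, h, hgh⟩ := hna
    apply hgh
    have h1 := hsp (R.comm_mem_hull g h)
    rw [Subgroup.upperCentralSeries_zero, Subgroup.mem_bot] at h1
    exact commutatorElement_eq_one_iff_mul_comm.1 h1
  | succ j =>
    have hj : ¬ R.hull ≤ Subgroup.upperCentralSeries G j := hmin j (Nat.lt_succ_self j)
    have hZ := R.rn_upper j
    have hbr : ∀ (g : G) (c : G), c ∈ R.hull → ⁅g, c⁆ ∈ Subgroup.upperCentralSeries G j := by
      intro g c hc
      have h1 : ⁅c, g⁆ ∈ Subgroup.upperCentralSeries G j :=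
        Subgroup.mem_upperCentralSeries_succ_iff.1 (hsp hc) g
      rw [← commutatorElement_inv]
      exact inv_mem h1
    -- the subgroup of the hull
    have : LocallyCompactSpace R.hull := R.hull_closed.isClosedEmbedding_subtypeVal.locallyCompactSpace
    obtain ⟨m, q, hq, hqm, hqs, hqk⟩ := RPow.exists_hom (R.res R.hull R.hull_st)
      (K := (Subgroup.upperCentralSeries G j).subgroupOf R.hull)
      (hZ.closed.preimage continuous_subtype_val) (R.st_subgroupOf R.hull_st hZ.st) (by
        intro g h
        rw [Subgroup.mem_subgroupOf]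
        have := hbr g h h.2
        rwa [commutatorElement_def] at this)
    obtain ⟨c0, hc0, hc1⟩ := Set.not_subset.1 hj
    have hne : q ⟨c0, hc0⟩ ≠ 0 := by
      intro h
      rw [hqk, Subgroup.mem_subgroupOf] at h
      exact hc1 h
    obtain ⟨l, hl⟩ : ∃ l, q ⟨c0, hc0⟩ l ≠ 0 := by
      by_contra h
      push Not at h
      exact hne (by ext l; exact h l)
    have hqcont : Continuous fun c : R.hull => q c l := (EuclideanSpace.proj l).continuous.comp hq
    have hinv : ∀ (g : G) (c : R.hull), q ⟨⁅g, (c : G)⁆, R.comm_mem_hull g c⟩ l = 0 := by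
      intro g c
      have h1 : q ⟨⁅g, (c : G)⁆, R.comm_mem_hull g c⟩ = 0 := by
        rw [hqk, Subgroup.mem_subgroupOf]
        exact hbr g c c.2
      rw [h1]
      rfl
    refine ⟨⟨R.hull, R.hull_closed, R.hull_st, R.comm_mem_hull, fun c => q c l, hqcont,
      fun c d => by rw [hqm]; rfl, hinv, ?_⟩⟩
    by_contra hcon
    push Not at hcon
    -- the kernel of the functional contains all commutators
    let K : Subgroup G :=
      { carrier := {g | ∃ h : g ∈ R.hull, q ⟨g, h⟩ l = 0}
        mul_mem' := by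
          rintro a b ⟨ha, ha'⟩ ⟨hb, hb'⟩
          refine ⟨mul_mem ha hb, ?_⟩
          have := hqm ⟨a, ha⟩ ⟨b, hb⟩
          have h2 := congrArg (fun x => x l) this
          simp only [PiLp.add_apply, ha', hb', add_zero] at h2
          exact h2
        one_mem' := by
          refine ⟨one_mem _, ?_⟩
          have := hqm 1 1
          have h2 := congrArg (fun x => x l) this
          simp only [PiLp.add_apply, mul_one] at h2
          exact left_eq_add.1 h2
        inv_mem' := by
          rintro a ⟨ha, ha'⟩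
          refine ⟨inv_mem ha, ?_⟩
          have := hqm ⟨a⁻¹, inv_mem ha⟩ ⟨a, ha⟩
          have h2 := congrArg (fun x => x l) this
          have h3 : (⟨a⁻¹, inv_mem ha⟩ : R.hull) * ⟨a, ha⟩ = 1 := Subtype.ext (inv_mul_cancel a)
          have h4 := hqm 1 1
          have h5 := congrArg (fun x => x l) h4
          simp only [PiLp.add_apply, mul_one] at h5
          rw [h3] at h2
          simp only [PiLp.add_apply, ha', add_zero] at h2
          rw [← h2]
          exact left_eq_add.1 h5 }
    have hKmem : ∀ g, g ∈ K ↔ ∃ h : g ∈ R.hull, q ⟨g, h⟩ l = 0 := fun g => Iff.rfl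
    have hKn : K.Normal := by
      refine ⟨fun a ha g => ?_⟩
      obtain ⟨ha1, ha2⟩ := (hKmem a).1 ha
      have h1 : ⁅g, a⁆ ∈ K := (hKmem _).2 ⟨R.comm_mem_hull g a, hcon g a⟩
      have h2 := mul_mem h1 ha
      rwa [commutatorElement_def, inv_mul_cancel_right] at h2
    have hKc : IsClosed (K : Set G) := by
      have e : (K : Set G) = Subtype.val '' {c : R.hull | q c l = 0} := by
        ext g
        constructor
        · intro hg
          obtain ⟨h1, h2⟩ := (hKmem g).1 hg
          exact ⟨⟨g, h1⟩, h2, rfl⟩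
        · rintro ⟨c, hc, rfl⟩
          exact (hKmem _).2 ⟨c.2, hc⟩
      rw [e]
      exact R.hull_closed.isClosedEmbedding_subtypeVal.isClosedMap _
        (isClosed_singleton.preimage hqcont)
    have hKs : R.St K := by
      intro t g hg
      obtain ⟨h1, h2⟩ := (hKmem g).1 hg
      refine (hKmem _).2 ⟨R.hull_st t g h1, ?_⟩
      have h3 := (R.res R.hull R.hull_st).map_pw (fun c => q c l) hqcont
        (fun a b => by rw [hqm]; rfl) t ⟨g, h1⟩
      have h4 : (R.res R.hull R.hull_st).pw t ⟨g, h1⟩ = ⟨R.pw t g, R.hull_st t g h1⟩ := rfl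
      rw [h4] at h3
      rw [h3, h2, smul_zero]
    have hle := R.hull_le hKn hKc hKs fun g h => (hKmem _).2 ⟨R.comm_mem_hull g h, hcon g h⟩
    obtain ⟨h1, h2⟩ := (hKmem c0).1 (hle hc0)
    exact hl h2

end hull

end Pool.Agent.AbCoc
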