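import Mathlib

/-!
# MP_418a80_an, T3, group side: symplectic basis of a nonzero alternating form (with radical)

[NG3] Proof: take `n` maximal such that there is a symplectic family `x y : Fin n → V` (first three
relations; such a family is linearly independent, so `n ≤ finrank ℝ V`; `n = 0` is possible).
If `v` is orthogonal to all `x i`, `y i` and `ω v w ≠ 0`, then `w' = w + ∑ (ω (y i) w • x i - ω (x i) w • y i)`
is orthogonal to all `x i`, `y i`, `ω v w' = ω v w`, and `v`, `(ω v w')⁻¹ • w'` extend the family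
(`Fin.cons` or `Fin.snoc`). So every `v` orthogonal to the family is in the radical. Last formula: apply
this to `v - ∑ (ω v (y i) • x i + ω (x i) v • y i)`. `0 < n` because `ω ≠ 0`.
-/

set_option autoImplicit false

open Finset

namespace Pool.Agent.AbCoc

private def NG3_S {V : Type*} [AddCommGroup V] [Module ℝ V] (ω : V →ₗ[ℝ] V →ₗ[ℝ] ℝ) (n : ℕ)
    (x y : Fin n → V) : Prop :=
  (∀ i j, ω (x i) (x j) = 0) ∧ (∀ i j, ω (y i) (y j) = 0) ∧ ∀ i j, ω (x i) (y j) = if i = j then 1 else 0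

private theorem NG3_swap {V : Type*} [AddCommGroup V] [Module ℝ V] (ω : V →ₗ[ℝ] V →ₗ[ℝ] ℝ)
    (halt : ∀ v, ω v v = 0) (v w : V) : ω v w = -ω w v := by
  have h := halt (v + w)
  simp only [map_add, LinearMap.add_apply, halt] at h
  linarith

private theorem NG3_le {V : Type*} [AddCommGroup V] [Module ℝ V] [FiniteDimensional ℝ V]
    (ω : V →ₗ[ℝ] V →ₗ[ℝ] ℝ) {n : ℕ} {x y : Fin n → V} (h : NG3_S ω n x y) : n ≤ Module.finrank ℝ V := by
  have hli : LinearIndependent ℝ x := by
    rw [Fintype.linearIndependent_iff]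
    intro g hg j
    have h1 : ω (∑ i, g i • x i) (y j) = 0 := by rw [hg]; simp
    rw [map_sum, LinearMap.sum_apply] at h1
    simp only [map_smul, LinearMap.smul_apply, h.2.2, smul_eq_mul, mul_ite, mul_one, mul_zero,
      Finset.sum_ite_eq', Finset.mem_univ, if_true] at h1
    exact h1
  simpa using hli.fintype_card_le_finrank

private theorem NG3_ext {V : Type*} [AddCommGroup V] [Module ℝ V]
    (ω : V →ₗ[ℝ] V →ₗ[ℝ] ℝ) (halt : ∀ v, ω v v = 0) {n : ℕ} {x y : Fin n → V} (h : NG3_S ω n x y)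
    (v : V) (hx : ∀ i, ω v (x i) = 0) (hy : ∀ i, ω v (y i) = 0) (w : V) (hw : ω v w ≠ 0) :
    ∃ x' y' : Fin (n + 1) → V, NG3_S ω (n + 1) x' y' := by
  obtain ⟨h1, h2, h3⟩ := h
  set w' : V := w + ∑ i, (ω (y i) w • x i - ω (x i) w • y i) with hw'
  have h4 : ∀ i j, ω (y i) (x j) = -if j = i then 1 else 0 := by
    intro i j
    rw [NG3_swap ω halt, h3]
  have ev : ω v w' = ω v w := by
    rw [hw', map_add, map_sum]
    simp [hx, hy]
  have ex : ∀ j, ω (x j) w' = 0 := by
    intro j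
    rw [hw', map_add, map_sum]
    simp [h1, h3]
  have ey : ∀ j, ω (y j) w' = 0 := by
    intro j
    rw [hw', map_add, map_sum]
    simp [h2, h4]
  have hc : ω v w' ≠ 0 := by rw [ev]; exact hw
  refine ⟨Fin.cons v x, Fin.cons ((ω v w')⁻¹ • w') y, ?_, ?_, ?_⟩
  · intro i j
    refine Fin.cases ?_ (fun i => ?_) i <;> refine Fin.cases ?_ (fun j => ?_) j
    · simp [halt]
    · simp [hx]
    · simp only [Fin.cons_succ, Fin.cons_zero]
      rw [NG3_swap ω halt, hx, neg_zero]
    · simp [h1]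
  · intro i j
    refine Fin.cases ?_ (fun i => ?_) i <;> refine Fin.cases ?_ (fun j => ?_) j
    · simp only [Fin.cons_zero]
      rw [halt]
    · simp only [Fin.cons_succ, Fin.cons_zero]
      rw [NG3_swap ω halt, map_smul, ey, smul_zero, neg_zero]
    · simp only [Fin.cons_succ, Fin.cons_zero]
      rw [map_smul, ey, smul_zero]
    · simp [h2]
  · intro i j
    refine Fin.cases ?_ (fun i => ?_) i <;> refine Fin.cases ?_ (fun j => ?_) j
    · simp only [Fin.cons_zero, if_true]
      rw [map_smul, smul_eq_mul, inv_mul_cancel₀ hc]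
    · simp only [Fin.cons_succ, Fin.cons_zero]
      rw [hy, if_neg (Fin.succ_ne_zero j).symm]
    · simp only [Fin.cons_succ, Fin.cons_zero]
      rw [map_smul, ex, smul_zero, if_neg (Fin.succ_ne_zero i)]
    · simp only [Fin.cons_succ, Fin.succ_inj]
      rw [h3]

theorem exists_symplectic {V : Type*} [AddCommGroup V] [Module ℝ V] [FiniteDimensional ℝ V]
    (ω : V →ₗ[ℝ] V →ₗ[ℝ] ℝ) (halt : ∀ v, ω v v = 0) (hne : ∃ v w, ω v w ≠ 0) :
    ∃ (n : ℕ) (x y : Fin n → V), 0 < n ∧ (∀ i j, ω (x i) (x j) = 0) ∧ (∀ i j, ω (y i) (y j) = 0) ∧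
      (∀ i j, ω (x i) (y j) = if i = j then 1 else 0) ∧
      ∀ v w, ω v w = ∑ i, (ω v (y i) * ω (x i) w - ω (x i) v * ω w (y i)) := by
  classical
  let P : ℕ → Prop := fun n => ∃ x y : Fin n → V, NG3_S ω n x y
  have hP0 : P 0 := ⟨Fin.elim0, Fin.elim0, fun i => i.elim0, fun i => i.elim0, fun i => i.elim0⟩
  set n := Nat.findGreatest P (Module.finrank ℝ V) with hn
  have hPn : P n := Nat.findGreatest_spec (Nat.zero_le _) hP0
  have hmax : ¬ P (n + 1) := by
    intro h
    obtain ⟨x, y, h'⟩ := h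
    exact Nat.findGreatest_is_greatest (P := P) (n := Module.finrank ℝ V) (k := n + 1)
      (Nat.lt_succ_self n) (NG3_le ω h') ⟨x, y, h'⟩
  obtain ⟨x, y, hS⟩ := hPn
  have hrad : ∀ v, (∀ i, ω v (x i) = 0) → (∀ i, ω v (y i) = 0) → ∀ w, ω v w = 0 := by
    intro v hx hy w
    by_contra hw
    exact hmax (NG3_ext ω halt hS v hx hy w hw)
  have hform : ∀ v w, ω v w = ∑ i, (ω v (y i) * ω (x i) w - ω (x i) v * ω w (y i)) := by
    intro v w
    have h4 : ∀ i j, ω (y i) (x j) = -if j = i then 1 else 0 := by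
      intro i j
      rw [NG3_swap ω halt, hS.2.2]
    have h := hrad (v - ∑ i, (ω v (y i) • x i + ω (x i) v • y i)) (fun j => by
      rw [map_sub, map_sum, LinearMap.sub_apply, LinearMap.sum_apply, NG3_swap ω halt v (x j)]
      simp [hS.1, h4]) (fun j => by
      rw [map_sub, map_sum, LinearMap.sub_apply, LinearMap.sum_apply]
      simp [hS.2.1, hS.2.2]) w
    rw [map_sub, map_sum, LinearMap.sub_apply, LinearMap.sum_apply, sub_eq_zero] at h
    rw [h]
    refine Finset.sum_congr rfl fun i _ => ?_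
    rw [map_add, LinearMap.add_apply, map_smul, map_smul, LinearMap.smul_apply, LinearMap.smul_apply,
      smul_eq_mul, smul_eq_mul, NG3_swap ω halt w (y i)]
    ring
  refine ⟨n, x, y, ?_, hS.1, hS.2.1, hS.2.2, hform⟩
  rcases Nat.eq_zero_or_pos n with h0 | h0
  · exfalso
    obtain ⟨v, w, hvw⟩ := hne
    apply hvw
    rw [hform v w]
    apply Finset.sum_eq_zero
    intro i _
    exact absurd i.2 (by omega)
  · exact h0

end Pool.Agent.AbCoc
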