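import Pool.Agent.Lib_MP_418a80_t3.NG2
import Pool.Agent.Lib_MP_418a80_t3.NG3
import Pool.Agent.Lib_MP_418a80_t3.Heis7

/-!
# MP_418a80_an, T3, group side: the Heisenberg data of a group with `ZData`
-/

set_option autoImplicit false
set_option linter.unusedSectionVars false
set_option linter.unusedVariables false

open Topology Filter
open scoped commutatorElement RealInnerProductSpace

namespace Pool.Agent.AbCoc

universe u v w

variable {G : Type w} [Group G] [TopologicalSpace G] [T2Space G] [IsTopologicalGroup G]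

theorem RPow.prd_single {G : Type w} [Group G] [TopologicalSpace G] (R : RPow G) {n : ℕ}
    (X : Fin n → G) (i : Fin n) (t : ℝ) :
    R.prd X (EuclideanSpace.single i t) = R.pw t (X i) := by
  unfold RPow.prd
  have h1 : ∀ l : List (Fin n), l.Nodup →
      (l.map fun j => R.pw ((EuclideanSpace.single i t : EuclideanSpace ℝ (Fin n)) j) (X j)).prod
        = if i ∈ l then R.pw t (X i) else 1 := by
    intro l
    induction l with
    | nil => intro _; simp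
    | cons a l ih =>
      intro hl
      rw [List.nodup_cons] at hl
      rw [List.map_cons, List.prod_cons, ih hl.2]
      by_cases ha : a = i
      · subst ha
        rw [if_neg hl.1, mul_one, if_pos List.mem_cons_self]
        simp
      · have h2 : (EuclideanSpace.single i t : EuclideanSpace ℝ (Fin n)) a = 0 := by
          simp [EuclideanSpace.single, ha]
        rw [h2, R.zero, one_mul]
        by_cases hi : i ∈ l
        · rw [if_pos hi, if_pos (List.mem_cons_of_mem _ hi)]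
        · rw [if_neg hi, if_neg]
          intro h3
          rcases List.mem_cons.1 h3 with h4 | h4
          · exact ha h4.symm
          · exact hi h4
  rw [h1 _ (List.nodup_finRange n), if_pos (List.mem_finRange i)]

namespace ZData

variable {R : RPow G} (Z : ZData R)

theorem ζ_one : Z.ζ 1 = 0 := by
  have h := Z.mul 1 1
  rw [mul_one] at h
  exact left_eq_add.1 h

theorem ζ_inv (c : Z.C) : Z.ζ c⁻¹ = -Z.ζ c := by
  have h := Z.mul c⁻¹ c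
  rw [inv_mul_cancel, Z.ζ_one] at h
  linarith

/-- the form -/
def om (g h : G) : ℝ := Z.ζ ⟨⁅g, h⁆, Z.comm g h⟩

theorem ζ_eq {a b : G} (ha : a ∈ Z.C) (hb : b ∈ Z.C) (h : a = b) : Z.ζ ⟨a, ha⟩ = Z.ζ ⟨b, hb⟩ := by
  subst h
  rfl

theorem ζ_conj (g c : G) (hc : c ∈ Z.C) (hc' : g * c * g⁻¹ ∈ Z.C) :
    Z.ζ ⟨g * c * g⁻¹, hc'⟩ = Z.ζ ⟨c, hc⟩ := by
  have h1 := Z.mul ⟨⁅g, c⁆, Z.comm g c⟩ ⟨c, hc⟩
  rw [Z.inv g ⟨c, hc⟩, zero_add] at h1
  rw [← h1]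
  refine Z.ζ_eq _ _ ?_
  change g * c * g⁻¹ = ⁅g, c⁆ * c
  rw [commutatorElement_def]
  group

theorem conj_mem (g c : G) (hc : c ∈ Z.C) : g * c * g⁻¹ ∈ Z.C := by
  have h := mul_mem (Z.comm g c) hc
  rwa [commutatorElement_def, inv_mul_cancel_right] at h

theorem om_mul_left (g g' h : G) : Z.om (g * g') h = Z.om g h + Z.om g' h := by
  unfold om
  rw [← Z.ζ_conj g ⁅g', h⁆ (Z.comm _ _) (Z.conj_mem _ _ (Z.comm _ _)), add_comm, ← Z.mul]
  refine Z.ζ_eq _ _ ?_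
  change _ = g * ⁅g', h⁆ * g⁻¹ * ⁅g, h⁆
  rw [commutatorElement_def, commutatorElement_def, commutatorElement_def]
  group

theorem om_self (g : G) : Z.om g g = 0 := by
  unfold om
  rw [← Z.ζ_one]
  exact Z.ζ_eq _ _ (commutatorElement_self g)

theorem om_symm (g h : G) : Z.om g h = -Z.om h g := by
  unfold om
  rw [← Z.ζ_inv]
  refine Z.ζ_eq _ _ ?_
  exact (commutatorElement_inv h g).symm

theorem om_mul_right (g h h' : G) : Z.om g (h * h') = Z.om g h + Z.om g h' := by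
  rw [Z.om_symm, Z.om_mul_left, neg_add, ← Z.om_symm, ← Z.om_symm]

theorem om_of_mem (g c : G) (hc : c ∈ Z.C) : Z.om g c = 0 := Z.inv g ⟨c, hc⟩

theorem om_of_mem' (g c : G) (hc : c ∈ Z.C) : Z.om c g = 0 := by
  rw [Z.om_symm, Z.om_of_mem g c hc, neg_zero]

theorem continuous_om (h : G) : Continuous fun g => Z.om g h := by
  refine Z.cont.comp (Continuous.subtype_mk ?_ _)
  change Continuous fun g => g * h * g⁻¹ * h⁻¹
  fun_prop

theorem continuous_om' (g : G) : Continuous fun h => Z.om g h := by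
  refine Z.cont.comp (Continuous.subtype_mk ?_ _)
  change Continuous fun h => g * h * g⁻¹ * h⁻¹
  fun_prop

theorem om_pw (t : ℝ) (g h : G) : Z.om (R.pw t g) h = t * Z.om g h :=
  R.map_pw (fun g => Z.om g h) (Z.continuous_om h) (fun a b => Z.om_mul_left a b h) t g

/-- the kernel of the functional -/
def K1 : Subgroup G where
  carrier := {g | ∃ h : g ∈ Z.C, Z.ζ ⟨g, h⟩ = 0}
  mul_mem' := by
    rintro a b ⟨ha, ha'⟩ ⟨hb, hb'⟩
    refine ⟨mul_mem ha hb, ?_⟩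
    have h := Z.mul ⟨a, ha⟩ ⟨b, hb⟩
    rw [ha', hb', add_zero] at h
    exact h
  one_mem' := ⟨one_mem _, Z.ζ_one⟩
  inv_mem' := by
    rintro a ⟨ha, ha'⟩
    refine ⟨inv_mem ha, ?_⟩
    have h := Z.ζ_inv ⟨a, ha⟩
    rw [ha', neg_zero] at h
    exact h

theorem mem_K1 (g : G) : g ∈ Z.K1 ↔ ∃ h : g ∈ Z.C, Z.ζ ⟨g, h⟩ = 0 := Iff.rfl

theorem K1_closed : IsClosed (Z.K1 : Set G) := by
  have e : (Z.K1 : Set G) = Subtype.val '' {c : Z.C | Z.ζ c = 0} := by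
    ext g
    constructor
    · intro hg
      obtain ⟨h1, h2⟩ := (Z.mem_K1 g).1 hg
      exact ⟨⟨g, h1⟩, h2, rfl⟩
    · rintro ⟨c, hc, rfl⟩
      exact (Z.mem_K1 _).2 ⟨c.2, hc⟩
  rw [e]
  exact Z.closed.isClosedEmbedding_subtypeVal.isClosedMap _ (isClosed_singleton.preimage Z.cont)

theorem ζ_pw (t : ℝ) (c : G) (hc : c ∈ Z.C) :
    Z.ζ ⟨R.pw t c, Z.st t c hc⟩ = t * Z.ζ ⟨c, hc⟩ :=
  (R.res Z.C Z.st).map_pw Z.ζ Z.cont Z.mul t ⟨c, hc⟩

theorem K1_st : R.St Z.K1 := by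
  intro t g hg
  obtain ⟨h1, h2⟩ := (Z.mem_K1 g).1 hg
  refine (Z.mem_K1 _).2 ⟨Z.st t g h1, ?_⟩
  rw [Z.ζ_pw t g h1, h2, mul_zero]

variable [LocallyCompactSpace G]

/-- on an isotropic subgroup the quotient by the kernel is a vector group -/
theorem exists_q {P : Subgroup G} (hP : IsClosed (P : Set G)) (hPs : R.St P)
    (hiso : ∀ g ∈ P, ∀ h ∈ P, Z.om g h = 0) :
    ∃ (m : ℕ) (q : P → EuclideanSpace ℝ (Fin m)), Continuous q ∧
      (∀ a b, q (a * b) = q a + q b) ∧ Function.Surjective q ∧ ∀ g : P, q g = 0 ↔ (g : G) ∈ Z.K1 := by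
  have : LocallyCompactSpace P := hP.isClosedEmbedding_subtypeVal.locallyCompactSpace
  obtain ⟨m, q, h1, h2, h3, h4⟩ := RPow.exists_hom (R.res P hPs) (K := Z.K1.subgroupOf P)
    (Z.K1_closed.preimage continuous_subtype_val) (R.st_subgroupOf hPs Z.K1_st) (by
      intro g h
      rw [Subgroup.mem_subgroupOf]
      have h5 : Z.om g h = 0 := hiso g g.2 h h.2
      have h6 := (Z.mem_K1 _).2 ⟨Z.comm g h, h5⟩
      rwa [commutatorElement_def] at h6)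
  exact ⟨m, q, h1, h2, h3, fun g => by rw [h4, Subgroup.mem_subgroupOf]⟩

/-- extension of the functional to an isotropic subgroup -/
theorem exists_ext {P : Subgroup G} (hP : IsClosed (P : Set G)) (hPs : R.St P)
    (hiso : ∀ g ∈ P, ∀ h ∈ P, Z.om g h = 0) (hCP : Z.C ≤ P) :
    ∃ ξ0 : P → ℝ, Continuous ξ0 ∧ (∀ a b, ξ0 (a * b) = ξ0 a + ξ0 b) ∧
      ∀ (c : G) (hc : c ∈ Z.C), ξ0 ⟨c, hCP hc⟩ = Z.ζ ⟨c, hc⟩ := by
  obtain ⟨m, q, hq, hqm, hqs, hqk⟩ := Z.exists_q hP hPs hiso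
  obtain ⟨g0, h0, hne⟩ := Z.ne
  obtain ⟨z, hz⟩ : ∃ z : Z.C, z = ⟨⁅g0, h0⁆, Z.comm g0 h0⟩ := ⟨_, rfl⟩
  rw [← hz] at hne
  have hqz : q ⟨z, hCP z.2⟩ ≠ 0 := by
    intro h
    rw [hqk, Z.mem_K1] at h
    obtain ⟨h1, h2⟩ := h
    exact hne h2
  have hn : ‖q ⟨z, hCP z.2⟩‖ ^ 2 ≠ 0 := pow_ne_zero _ (norm_ne_zero_iff.2 hqz)
  refine ⟨fun g => Z.ζ z / ‖q ⟨z, hCP z.2⟩‖ ^ 2 * ⟪q ⟨z, hCP z.2⟩, q g⟫,
    continuous_const.mul (continuous_const.inner hq), fun a b => by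
      simp only [hqm, inner_add_right, mul_add], fun c hc => ?_⟩
  -- `c` is a multiple of `z` modulo the kernel
  have h1 : q ⟨c, hCP hc⟩ = (Z.ζ ⟨c, hc⟩ / Z.ζ z) • q ⟨z, hCP z.2⟩ := by
    have h2 : c * (R.pw (Z.ζ ⟨c, hc⟩ / Z.ζ z) z)⁻¹ ∈ Z.K1 := by
      refine (Z.mem_K1 _).2 ⟨mul_mem hc (inv_mem (Z.st _ _ z.2)), ?_⟩
      have h3 := Z.mul ⟨c, hc⟩ (⟨R.pw (Z.ζ ⟨c, hc⟩ / Z.ζ z) z, Z.st _ _ z.2⟩)⁻¹
      rw [Z.ζ_inv, Z.ζ_pw _ _ z.2] at h3
      change Z.ζ (⟨c, hc⟩ * (⟨R.pw (Z.ζ ⟨c, hc⟩ / Z.ζ z) z, Z.st _ _ z.2⟩)⁻¹) = 0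
      rw [h3, div_mul_cancel₀ _ hne, add_neg_cancel]
    have h4 := (hqk (⟨c, hCP hc⟩ * (⟨R.pw (Z.ζ ⟨c, hc⟩ / Z.ζ z) z, hPs _ _ (hCP z.2)⟩)⁻¹)).2 h2
    have h5 := hqm (⟨c, hCP hc⟩ * (⟨R.pw (Z.ζ ⟨c, hc⟩ / Z.ζ z) z, hPs _ _ (hCP z.2)⟩)⁻¹)
      ⟨R.pw (Z.ζ ⟨c, hc⟩ / Z.ζ z) z, hPs _ _ (hCP z.2)⟩
    rw [h4, zero_add, inv_mul_cancel_right] at h5
    rw [h5]
    exact (R.res P hPs).map_pw q hq hqm _ ⟨z, hCP z.2⟩
  change Z.ζ z / ‖q ⟨z, hCP z.2⟩‖ ^ 2 * ⟪q ⟨z, hCP z.2⟩, q ⟨c, hCP hc⟩⟫ = Z.ζ ⟨c, hc⟩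
  rw [h1, inner_smul_right, real_inner_self_eq_norm_sq]
  field_simp

/-- products of one-parameter groups in an isotropic subgroup -/
theorem prd_mem_K1 {P : Subgroup G} (hP : IsClosed (P : Set G)) (hPs : R.St P)
    (hiso : ∀ g ∈ P, ∀ h ∈ P, Z.om g h = 0) {n : ℕ} (X : Fin n → G) (hX : ∀ i, X i ∈ P)
    (u u' : EuclideanSpace ℝ (Fin n)) :
    R.prd X u * R.prd X u' * (R.prd X (u + u'))⁻¹ ∈ Z.K1 := by
  obtain ⟨m, q, hq, hqm, hqs, hqk⟩ := Z.exists_q hP hPs hiso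
  have hval : ∀ u, ((R.res P hPs).prd (fun i => (⟨X i, hX i⟩ : P)) u : G) = R.prd X u := by
    intro u
    unfold RPow.prd
    rw [Subgroup.val_list_prod, List.map_map]
    rfl
  have h1 := fun u => (R.res P hPs).map_prd q hq hqm (fun i => (⟨X i, hX i⟩ : P)) u
  have hq1 : q 1 = 0 := by
    have h := hqm 1 1
    rw [mul_one] at h
    exact left_eq_add.1 h
  have hinv : ∀ a, q a⁻¹ = -q a := by
    intro a
    have h := hqm a⁻¹ a
    rw [inv_mul_cancel, hq1] at h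
    exact eq_neg_of_add_eq_zero_left h.symm
  have h2 := (hqk ((R.res P hPs).prd (fun i => (⟨X i, hX i⟩ : P)) u
    * (R.res P hPs).prd (fun i => (⟨X i, hX i⟩ : P)) u'
    * ((R.res P hPs).prd (fun i => (⟨X i, hX i⟩ : P)) (u + u'))⁻¹)).1 (by
      rw [hqm, hqm, hinv, h1, h1, h1, ← Finset.sum_add_distrib, ← sub_eq_add_neg, sub_eq_zero]
      refine Finset.sum_congr rfl fun i _ => ?_
      rw [PiLp.add_apply, add_smul])
  rw [Subgroup.coe_mul, Subgroup.coe_mul, Subgroup.coe_inv, hval, hval, hval] at h2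
  exact h2

end ZData

end Pool.Agent.AbCoc
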