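import Pool.Agent.Lib_MP_418a80_t3.NG4

/-!
# MP_418a80_an, T3, group side: the Heisenberg data of a group with `ZData`, end
-/

set_option autoImplicit false
set_option linter.unusedSectionVars false
set_option linter.unusedVariables false
set_option linter.unusedSimpArgs false

open Topology Filter
open scoped commutatorElement RealInnerProductSpace

namespace Pool.Agent.AbCoc

universe u v w

variable {G : Type w} [Group G] [TopologicalSpace G]

/-- the kernel of an additive map -/
def kerHom {V : Type v} [AddCommGroup V] (f : G → V) (hm : ∀ g h, f (g * h) = f g + f h) :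
    Subgroup G where
  carrier := {g | f g = 0}
  one_mem' := by
    have h := hm 1 1
    rw [mul_one] at h
    exact left_eq_add.1 h
  mul_mem' {a b} ha hb := by
    change f (a * b) = 0
    rw [hm, show f a = 0 from ha, show f b = 0 from hb, add_zero]
  inv_mem' {a} ha := by
    change f a⁻¹ = 0
    have h := hm a⁻¹ a
    have h1 := hm 1 1
    rw [mul_one] at h1
    rw [inv_mul_cancel, left_eq_add.1 h1, show f a = 0 from ha, add_zero] at h
    exact h.symm

theorem mem_kerHom {V : Type v} [AddCommGroup V] (f : G → V) (hm : ∀ g h, f (g * h) = f g + f h)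
    (g : G) : g ∈ kerHom f hm ↔ f g = 0 := Iff.rfl

theorem inner_eq_sum {n : ℕ} (u v : EuclideanSpace ℝ (Fin n)) : ⟪u, v⟫ = ∑ i, u i * v i := by
  rw [PiLp.inner_apply]
  refine Finset.sum_congr rfl fun i _ => ?_
  simp [mul_comm]

variable [T2Space G] [IsTopologicalGroup G] [LocallyCompactSpace G] {R : RPow G}

theorem ZData.exists_heis (Z : ZData R) : ∃ (n : ℕ) (_ : HeisData G n), 0 < n := by
  obtain ⟨N, q, hq, hqm, hqs, hqk⟩ := RPow.exists_hom R (K := Z.C) Z.closed Z.st
    (fun g h => Z.comm g h)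
  set σ := Function.surjInv hqs with hσdef
  have hσ : ∀ v, q (σ v) = v := Function.surjInv_eq hqs
  have hq1 : q 1 = 0 := by
    have h := hqm 1 1
    rw [mul_one] at h
    exact left_eq_add.1 h
  have hcongr : ∀ g g' h, q g = q g' → Z.om g h = Z.om g' h := by
    intro g g' h hgg
    have h1 : g'⁻¹ * g ∈ Z.C := by
      rw [← hqk]
      have h2 := hqm g' (g'⁻¹ * g)
      rw [mul_inv_cancel_left, hgg] at h2
      exact left_eq_add.1 h2
    calc Z.om g h = Z.om (g' * (g'⁻¹ * g)) h := by rw [mul_inv_cancel_left]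
      _ = Z.om g' h := by rw [Z.om_mul_left, Z.om_of_mem' _ _ h1, add_zero]
  have hcongr' : ∀ g h h', q h = q h' → Z.om g h = Z.om g h' := by
    intro g h h' hh
    rw [Z.om_symm, hcongr h h' g hh, ← Z.om_symm]
  have hadd : ∀ v v' w, Z.om (σ (v + v')) (σ w) = Z.om (σ v) (σ w) + Z.om (σ v') (σ w) := by
    intro v v' w
    rw [← Z.om_mul_left]
    exact hcongr _ _ _ (by rw [hqm, hσ, hσ, hσ])
  have hsmul : ∀ (c : ℝ) v w, Z.om (σ (c • v)) (σ w) = c • Z.om (σ v) (σ w) := by
    intro c v w
    rw [smul_eq_mul, ← Z.om_pw]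
    exact hcongr _ _ _ (by rw [R.map_pw q hq hqm, hσ, hσ])
  let ω : EuclideanSpace ℝ (Fin N) →ₗ[ℝ] EuclideanSpace ℝ (Fin N) →ₗ[ℝ] ℝ :=
    LinearMap.mk₂ ℝ (fun v w => Z.om (σ v) (σ w)) hadd hsmul
      (fun v w w' => by rw [Z.om_symm, hadd, neg_add, ← Z.om_symm, ← Z.om_symm])
      (fun c v w => by rw [Z.om_symm, hsmul, ← smul_neg, ← Z.om_symm])
  have hω0 : ∀ v w, ω v w = Z.om (σ v) (σ w) := fun v w => rfl
  have hω : ∀ g h, Z.om g h = ω (q g) (q h) := by
    intro g h
    rw [hω0, hcongr (σ (q g)) g _ (hσ _), hcongr' g (σ (q h)) h (hσ _)]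
  obtain ⟨n, x, y, hn, hxx, hyy, hxy, hfor⟩ := exists_symplectic ω (fun v => Z.om_self _) (by
    obtain ⟨g, h, hgh⟩ := Z.ne
    exact ⟨q g, q h, by rw [← hω]; exact hgh⟩)
  -- the lifts
  set X : Fin n → G := fun i => σ (x i) with hX
  set Y : Fin n → G := fun i => σ (y i) with hY
  have hqX : ∀ i, q (X i) = x i := fun i => hσ _
  have hqY : ∀ i, q (Y i) = y i := fun i => hσ _
  set a : G → EuclideanSpace ℝ (Fin n) := fun g => WithLp.toLp 2 (fun i => Z.om g (Y i)) with hadef
  set b : G → EuclideanSpace ℝ (Fin n) := fun g => WithLp.toLp 2 (fun i => Z.om (X i) g) with hbdef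
  have hac : Continuous a := (PiLp.continuous_toLp 2 _).comp
    (continuous_pi fun i => Z.continuous_om (Y i))
  have hbc : Continuous b := (PiLp.continuous_toLp 2 _).comp
    (continuous_pi fun i => Z.continuous_om' (X i))
  have ham : ∀ g h, a (g * h) = a g + a h := by
    intro g h
    ext i
    exact Z.om_mul_left g h (Y i)
  have hbm : ∀ g h, b (g * h) = b g + b h := by
    intro g h
    ext i
    exact Z.om_mul_right (X i) g h
  have haX : ∀ i, a (X i) = EuclideanSpace.single i 1 := by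
    intro i
    ext j
    change Z.om (X i) (Y j) = _
    rw [hω, hqX, hqY, hxy]
    simp [EuclideanSpace.single, Pi.single_apply, eq_comm]
  have hbX : ∀ i, b (X i) = 0 := by
    intro i
    ext j
    change Z.om (X j) (X i) = 0
    rw [hω, hqX, hqX, hxx]
  have haY : ∀ i, a (Y i) = 0 := by
    intro i
    ext j
    change Z.om (Y i) (Y j) = 0
    rw [hω, hqY, hqY, hyy]
  have hbY : ∀ i, b (Y i) = EuclideanSpace.single i 1 := by
    intro i
    ext j
    change Z.om (X j) (Y i) = _
    rw [hω, hqX, hqY, hxy]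
    simp [EuclideanSpace.single, Pi.single_apply]
  have hform : ∀ g h, Z.om g h = ⟪a g, b h⟫ - ⟪b g, a h⟫ := by
    intro g h
    rw [hω, hfor, Finset.sum_sub_distrib, inner_eq_sum, inner_eq_sum]
    congr 1
    · refine Finset.sum_congr rfl fun i _ => ?_
      change _ = Z.om g (Y i) * Z.om (X i) h
      rw [hω g (Y i), hω (X i) h, hqX, hqY]
    · refine Finset.sum_congr rfl fun i _ => ?_
      change _ = Z.om (X i) g * Z.om h (Y i)
      rw [hω h (Y i), hω (X i) g, hqX, hqY]
  -- the two isotropic subgroups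
  have hPc : IsClosed (kerHom a ham : Set G) := isClosed_eq hac continuous_const
  have hPs : R.St (kerHom a ham) := R.st_of_hom a hac ham _ fun g => Iff.rfl
  have hPi : ∀ g ∈ kerHom a ham, ∀ h ∈ kerHom a ham, Z.om g h = 0 := by
    intro g hg h hh
    rw [hform, (mem_kerHom a ham g).1 hg, (mem_kerHom a ham h).1 hh, inner_zero_left,
      inner_zero_right, sub_zero]
  have hCP : Z.C ≤ kerHom a ham := by
    intro c hc
    rw [mem_kerHom]
    ext i
    exact Z.om_of_mem' _ _ hc
  have hQc : IsClosed (kerHom b hbm : Set G) := isClosed_eq hbc continuous_const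
  have hQs : R.St (kerHom b hbm) := R.st_of_hom b hbc hbm _ fun g => Iff.rfl
  have hQi : ∀ g ∈ kerHom b hbm, ∀ h ∈ kerHom b hbm, Z.om g h = 0 := by
    intro g hg h hh
    rw [hform, (mem_kerHom b hbm g).1 hg, (mem_kerHom b hbm h).1 hh, inner_zero_left,
      inner_zero_right, sub_zero]
  obtain ⟨ξ0, hξc, hξm, hξC⟩ := Z.exists_ext hPc hPs hPi hCP
  have hξ1 : ξ0 1 = 0 := by
    have h := hξm 1 1
    rw [mul_one] at h
    exact left_eq_add.1 h
  have has : ∀ u, a (R.prd X u) = u := by
    intro u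
    rw [R.map_prd a hac ham, ← HeisData.sum_single u]
    refine Finset.sum_congr rfl fun i _ => ?_
    rw [haX, HeisData.sum_single u]
    ext j
    simp [EuclideanSpace.single, Pi.single_apply]
  have hbs : ∀ u, b (R.prd X u) = 0 := by
    intro u
    rw [R.map_prd b hbc hbm]
    exact Finset.sum_eq_zero fun i _ => by rw [hbX, smul_zero]
  have hainv : ∀ g, a g⁻¹ = -a g := by
    intro g
    have h := ham g⁻¹ g
    have h1 := ham 1 1
    rw [mul_one] at h1
    rw [inv_mul_cancel, left_eq_add.1 h1] at h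
    exact eq_neg_of_add_eq_zero_left h.symm
  have hbinv : ∀ g, b g⁻¹ = -b g := by
    intro g
    have h := hbm g⁻¹ g
    have h1 := hbm 1 1
    rw [mul_one] at h1
    rw [inv_mul_cancel, left_eq_add.1 h1] at h
    exact eq_neg_of_add_eq_zero_left h.symm
  have hmem : ∀ g, g * (R.prd X (a g))⁻¹ ∈ kerHom a ham := by
    intro g
    rw [mem_kerHom, ham, hainv, has, add_neg_cancel]
  set ξ : G → ℝ := fun g => ξ0 ⟨g * (R.prd X (a g))⁻¹, hmem g⟩ with hξdef
  have hξcont : Continuous ξ := hξc.comp (Continuous.subtype_mk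
    (continuous_id.mul ((R.continuous_prd X).comp hac).inv) _)
  have hξeq : ∀ {g h : G} (hg : g ∈ kerHom a ham) (hh : h ∈ kerHom a ham), g = h →
      ξ0 ⟨g, hg⟩ = ξ0 ⟨h, hh⟩ := by
    intro g h hg hh hgh
    subst hgh
    rfl
  have hconjmem : ∀ g c, c ∈ kerHom a ham → g * c * g⁻¹ ∈ kerHom a ham := by
    intro g c hc
    rw [mem_kerHom] at hc ⊢
    rw [ham, ham, hainv, hc, add_zero, add_neg_cancel]
  have hξconj : ∀ g c (hc : c ∈ kerHom a ham),
      ξ0 ⟨g * c * g⁻¹, hconjmem g c hc⟩ = Z.om g c + ξ0 ⟨c, hc⟩ := by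
    intro g c hc
    have h1 : ξ0 ⟨⁅g, c⁆, hCP (Z.comm g c)⟩ = Z.om g c := hξC _ _
    rw [← h1, ← hξm]
    refine hξeq _ _ ?_
    change g * c * g⁻¹ = ⁅g, c⁆ * c
    rw [commutatorElement_def]
    group
  have hξmul : ∀ g h, ξ (g * h) = ξ g + ξ h + ⟪a g, b h⟫ := by
    intro g h
    have e1 : ⟪a g, b h⟫ = Z.om (R.prd X (a g)) (h * (R.prd X (a h))⁻¹) := by
      rw [hform, has, hbs, inner_zero_left, sub_zero, hbm, hbinv, hbs, neg_zero, add_zero]
    have hK := Z.prd_mem_K1 hQc hQs hQi X (fun i => hbX i) (a g) (a h)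
    obtain ⟨hK1, hK2⟩ := (Z.mem_K1 _).1 hK
    have e2 : ξ0 ⟨R.prd X (a g) * R.prd X (a h) * (R.prd X (a g + a h))⁻¹, hCP hK1⟩ = 0 := by
      rw [hξC _ hK1, hK2]
    have e3 := hξconj (R.prd X (a g)) (h * (R.prd X (a h))⁻¹) (hmem h)
    calc ξ (g * h) = ξ0 (⟨g * (R.prd X (a g))⁻¹, hmem g⟩
          * ⟨R.prd X (a g) * (h * (R.prd X (a h))⁻¹) * (R.prd X (a g))⁻¹,
              hconjmem _ _ (hmem h)⟩
          * ⟨R.prd X (a g) * R.prd X (a h) * (R.prd X (a g + a h))⁻¹, hCP hK1⟩) := by
          refine hξeq _ _ ?_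
          change g * h * (R.prd X (a (g * h)))⁻¹ = (g * (R.prd X (a g))⁻¹)
            * (R.prd X (a g) * (h * (R.prd X (a h))⁻¹) * (R.prd X (a g))⁻¹)
            * (R.prd X (a g) * R.prd X (a h) * (R.prd X (a g + a h))⁻¹)
          rw [ham]
          group
      _ = ξ g + (Z.om (R.prd X (a g)) (h * (R.prd X (a h))⁻¹) + ξ h) + 0 := by
          rw [hξm, hξm, e2, e3]
      _ = ξ g + ξ h + ⟪a g, b h⟫ := by rw [e1]; ring
  exact ⟨n,
    { a := a
      b := b
      ξ := ξ
      ha := hac
      hb := hbc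
      hξ := hξcont
      amul := ham
      bmul := hbm
      ξmul := hξmul
      x := fun i t => R.pw t (X i)
      y := fun i t => R.pw t (Y i)
      hx := fun i => R.cont_left _
      hy := fun i => R.cont_left _
      xadd := fun i s t => R.add s t _
      yadd := fun i s t => R.add s t _
      ax := fun i t => by
        rw [R.map_pw a hac ham, haX]
        ext j
        simp [EuclideanSpace.single, Pi.single_apply]
      bx := fun i t => by rw [R.map_pw b hbc hbm, hbX, smul_zero]
      ξx := fun i t => by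
        change ξ0 _ = 0
        rw [← hξ1]
        refine hξeq _ (one_mem _) ?_
        have h1 : a (R.pw t (X i)) = EuclideanSpace.single i t := by
          rw [R.map_pw a hac ham, haX]
          ext j
          simp [EuclideanSpace.single, Pi.single_apply]
        rw [h1, R.prd_single, mul_inv_cancel]
      ay := fun i t => by rw [R.map_pw a hac ham, haY, smul_zero]
      by' := fun i t => by
        rw [R.map_pw b hbc hbm, hbY]
        ext j
        simp [EuclideanSpace.single, Pi.single_apply] }, hn⟩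

end Pool.Agent.AbCoc
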