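import Pool.Agent.Lib_MP_418a80_t3.T3Grp

/-!
# MP_418a80_an, T3: the class of groups of the statement
-/

set_option autoImplicit false
set_option linter.unusedVariables false

open Topology TopologicalSpace
open scoped Pointwise

namespace Pool.Agent.AbCoc

universe u v w

/-- the smallest class of topological groups which contains the noncompact groups with an open
subgroup `L` and a continuous homomorphism with compact kernel of `L` onto `ℝⁿ`, the groups with an
open normal nontrivial nilpotent subgroup with continuous real powers, and the groups contracting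
to a closed subgroup of the class -/
inductive NilClass.{w'} : (G : Type w') → [Group G] → [TopologicalSpace G] → Prop
  | base (G : Type w') [Group G] [TopologicalSpace G] [NoncompactSpace G] (L : Subgroup G)
      (hL : IsOpen (L : Set G)) (n : ℕ) (q : L →* Multiplicative (EuclideanSpace ℝ (Fin n)))
      (hq : Continuous q) (hs : Function.Surjective q) (hk : IsCompact (q.ker : Set L)) : NilClass G
  | nilpotent (G : Type w') [Group G] [TopologicalSpace G] (S : Subgroup G) [S.Normal]
      (hS : IsOpen (S : Set G)) [Nontrivial S] [Group.IsNilpotent S] (R : RPow S) : NilClass G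
  | contraction (G : Type w') [Group G] [TopologicalSpace G] (H : Subgroup G)
      (hH : IsClosed (H : Set G)) (hc : ∀ D : Set G, IsCompact D → ∃ C : Set G, IsCompact C ∧
        C ⊆ (H : Set G) ∧ ∀ V ∈ 𝓝 (1 : G), ∃ z ∈ H, ∀ s ∈ D, z⁻¹ * s * z ∈ C * V)
      (h : NilClass H) : NilClass G

/-- the contraction property in terms of the inclusion map -/
theorem contracts_of_subset {G : Type w} [Group G] [TopologicalSpace G] (H : Subgroup G)
    (hH : IsClosed (H : Set G)) (hc : ∀ D : Set G, IsCompact D → ∃ C : Set G, IsCompact C ∧
      C ⊆ (H : Set G) ∧ ∀ V ∈ 𝓝 (1 : G), ∃ z ∈ H, ∀ s ∈ D, z⁻¹ * s * z ∈ C * V) :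
    Contracts H.subtype := by
  intro D hD
  obtain ⟨C, hC, hCN, h⟩ := hc D hD
  refine ⟨Subtype.val ⁻¹' C, hH.isClosedEmbedding_subtypeVal.isCompact_preimage hC, ?_⟩
  intro V hV
  obtain ⟨z, hz, hzD⟩ := h V hV
  refine ⟨⟨z, hz⟩, fun s hs => ?_⟩
  obtain ⟨c, hcC, w, hw, e⟩ := Set.mem_mul.1 (hzD s hs)
  exact ⟨⟨c, hCN hcC⟩, hcC, w, hw, e.symm⟩

theorem NilClass.keyAll {G : Type w} [Group G] [TopologicalSpace G] (h : NilClass G) :
    ∀ [IsTopologicalGroup G] [T2Space G] [SecondCountableTopology G] [LocallyCompactSpace G],
      KeyAll.{u, v, w} G := by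
  induction h with
  | base G L hL n q hq hs hk => exact keyAll_of_euclByCo L n q hL hq hs hk
  | nilpotent G S hS R => exact keyAll_of_open_nilpotent S hS R
  | contraction G H hH hc h ih =>
    intro _ _ _ _
    have : LocallyCompactSpace H := hH.isClosedEmbedding_subtypeVal.locallyCompactSpace
    have : SecondCountableTopology H :=
      inferInstanceAs (SecondCountableTopology ((H : Set G) : Set G))
    exact keyAll_of_contracts H.subtype hH.isClosedEmbedding_subtypeVal
      (contracts_of_subset H hH hc) ih

end Pool.Agent.AbCoc
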