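import Pool.Agent.Lib_MP_418a80_t3.WtDefs

/-!
# MP_418a80_an, T3-PHASE: elements with phases from near-eigen elements of the kernel
-/

set_option autoImplicit false
set_option linter.unusedVariables false
set_option linter.unusedSectionVars false

open Topology Filter MeasureTheory

namespace Pool.Agent.AbCoc

universe u v w z

variable {A : Type u} [CStarAlgebra A] {K : Type v} [NormedAddCommGroup K]
  [InnerProductSpace ℂ K] [CompleteSpace K]
variable {G : Type w} [Group G] [TopologicalSpace G] [IsTopologicalGroup G] {T : TrAlg A K} (S : TrAct G T)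
  {U : Type z} [NormedAddCommGroup U] [NormedSpace ℝ U] [FiniteDimensional ℝ U]

namespace RSec
variable (R : RSec G)

theorem s_zero : R.s 0 = 1 := by
  have h := R.smul 0 0
  rw [add_zero] at h
  exact (mul_eq_left.1 h.symm)

theorem s_neg (t : ℝ) : R.s (-t) = (R.s t)⁻¹ := by
  have h := R.smul (-t) t
  rw [neg_add_cancel, R.s_zero] at h
  exact eq_inv_of_mul_eq_one_left h.symm

theorem p_conj (t : ℝ) (h : G) (hh : R.p h = 0) : R.p ((R.s t)⁻¹ * h * R.s t) = 0 := by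
  rw [R.pmul, R.pmul, R.p_inv, R.ps, hh]
  ring

end RSec

omit [IsTopologicalGroup G] [FiniteDimensional ℝ U] in
theorem WtData.ξ_conj_inv (W : WtData G U) (t : ℝ) (h : G) (hh : W.R.p h = 0) :
    W.ξ ((W.R.s t)⁻¹ * h * W.R.s t) = W.ρ (-t) (W.ξ h) := by
  have h1 := W.ξ_conj (-t) h hh
  have h2 : W.R.s (-t) = (W.R.s t)⁻¹ := by
    have h0 : W.R.s 0 = 1 := by
      have h := W.R.smul 0 0
      rw [add_zero] at h
      exact (mul_eq_left.1 h.symm)
    have h := W.R.smul (-t) t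
    rw [neg_add_cancel, h0] at h
    exact eq_inv_of_mul_eq_one_left h.symm
  rw [h2, inv_inv] at h1
  exact h1

/-- T3-PHASE: elements with phases in the corner `b A b`, from near-eigen elements for the characters
`h ↦ ch (r χ(ξ h))` of `H = ker p` -/
theorem TrAct.exists_phase (W : WtData G U) (χ : U →L[ℝ] ℝ) (b : A) (hb : S.IsPrj b)
    (hE : ∃ c : ℝ, 0 < c ∧ ∀ (r : ℝ) (D : Set G), IsCompact D → ∀ κ : ℝ, 0 < κ →
      ∃ e : A, b * e = e ∧ e * b = e ∧ ‖e‖ ≤ 1 ∧ c ≤ ‖T.ι e‖ ^ 2 ∧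
        ∀ h ∈ D, W.R.p h = 0 → ‖T.ι (S.α h e - ch (r * χ (W.ξ h)) • e)‖ ≤ κ) :
    ∃ c : ℝ, 0 < c ∧ ∀ (T0 : ℝ) (D : Set G), IsCompact D → ∀ κ : ℝ, 0 < κ → ∀ Λ : Set U,
      IsCompact Λ → ∃ (e : A) (β : U → G), S.PElt W.R (W.ph χ) b T0 D κ Λ e β ∧
        c ≤ ‖T.ι e‖ ^ 2 := by
  obtain ⟨c, hc, hE⟩ := hE
  refine ⟨c, hc, fun T0 D hD κ hκ Λ hΛ => ?_⟩
  -- bounds
  obtain ⟨M, hM⟩ : ∃ M : ℝ, ∀ t ∈ Set.Icc (-T0) T0, ‖W.ρ (-t)‖ ≤ M := by
    have h1 : IsCompact (Set.Icc (-T0) T0) := isCompact_Icc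
    have h2 : Continuous fun t : ℝ => ‖W.ρ (-t)‖ := (W.hρ.comp continuous_neg).norm
    obtain ⟨M, hM⟩ := (h1.image h2).bddAbove
    exact ⟨M, fun t ht => hM ⟨t, ht, rfl⟩⟩
  obtain ⟨B, hB⟩ : ∃ B : ℝ, ∀ h ∈ D, ‖W.ξ h‖ ≤ B := by
    obtain ⟨B, hB⟩ := (hD.image W.hξ.norm).bddAbove
    exact ⟨B, fun h hh => hB ⟨h, hh, rfl⟩⟩
  set M1 : ℝ := max M 0 with hM1
  set B1 : ℝ := max B 0 with hB1
  have hM10 : 0 ≤ M1 := le_max_right _ _
  have hB10 : 0 ≤ B1 := le_max_right _ _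
  set L : ℝ := ‖χ‖ * (M1 * B1) with hL
  have hL0 : 0 ≤ L := by positivity
  set r : ℝ := κ / (2 * (L + 1)) with hr
  have hr0 : 0 < r := by positivity
  have hrL : r * L ≤ κ / 2 := by
    have h1 : r * (L + 1) = κ / 2 := by
      rw [hr]
      field_simp
    nlinarith
  set β : U → G := fun l => W.ω (r⁻¹ • l) with hβ
  have hβc : Continuous β := W.hω.comp (continuous_const_smul _)
  set I : Set ℝ := Set.Icc (-T0) T0 with hI
  have hIc : IsCompact I := isCompact_Icc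
  set cj : G × ℝ → G := fun x => (W.R.s x.2)⁻¹ * x.1 * W.R.s x.2 with hcj
  have hcjc : Continuous cj := by
    have h1 : Continuous fun x : G × ℝ => W.R.s x.2 := W.R.hs.comp continuous_snd
    exact (h1.inv.mul continuous_fst).mul h1
  set D' : Set G := cj '' (D ×ˢ I) ∪ cj '' ((β '' Λ) ×ˢ I) with hD'
  have hD'c : IsCompact D' :=
    ((hD.prod hIc).image hcjc).union (((hΛ.image hβc).prod hIc).image hcjc)
  obtain ⟨e, he1, he2, he3, he4, he5⟩ := hE r D' hD'c (κ / 2) (by linarith)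
  have hιe : ‖T.ι e‖ ≤ 1 := (T.norm_le e).trans he3
  have hmove : ∀ (h : G) (t : ℝ) (z : ℂ), ‖T.ι (S.α h (S.α (W.R.s t) e) - z • S.α (W.R.s t) e)‖
      = ‖T.ι (S.α (cj (h, t)) e - z • e)‖ := by
    intro h t z
    have e1 : W.R.s t * cj (h, t) = h * W.R.s t := by
      rw [hcj]
      group
    rw [← S.norm_map (W.R.s t) (S.α (cj (h, t)) e - z • e), map_sub (S.α (W.R.s t)), map_smul,
      ← S.mul, ← S.mul, e1]
  refine ⟨e, β, ⟨he1, he2, he3, ?_, fun l => W.pω _, ?_⟩, he4⟩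
  · intro h hh hp t ht
    have htI : t ∈ I := abs_le.1 ht
    have h1 := hmove h t 1
    rw [one_smul, one_smul] at h1
    rw [h1]
    have hmem : cj (h, t) ∈ D' := Or.inl ⟨(h, t), ⟨hh, htI⟩, rfl⟩
    have hp' : W.R.p (cj (h, t)) = 0 := W.R.p_conj t h hp
    have h2 := he5 _ hmem hp'
    have h3 : W.ξ (cj (h, t)) = W.ρ (-t) (W.ξ h) := W.ξ_conj_inv t h hp
    rw [h3] at h2
    have h4 : |r * χ (W.ρ (-t) (W.ξ h))| ≤ κ / 2 := by
      rw [abs_mul, abs_of_pos hr0]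
      refine le_trans (mul_le_mul_of_nonneg_left ?_ hr0.le) hrL
      rw [← Real.norm_eq_abs]
      refine (χ.le_opNorm _).trans (mul_le_mul_of_nonneg_left ?_ (norm_nonneg _))
      refine (ContinuousLinearMap.le_opNorm _ _).trans ?_
      exact mul_le_mul ((hM t htI).trans (le_max_left _ _)) ((hB h hh).trans (le_max_left _ _))
        (norm_nonneg _) hM10
    have h5 : S.α (cj (h, t)) e - e = (S.α (cj (h, t)) e - ch (r * χ (W.ρ (-t) (W.ξ h))) • e)
        + (ch (r * χ (W.ρ (-t) (W.ξ h))) - 1) • e := by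
      rw [sub_smul, one_smul]
      abel
    rw [h5, map_add, map_smul]
    refine (norm_add_le _ _).trans ?_
    rw [norm_smul]
    have h6 : ‖ch (r * χ (W.ρ (-t) (W.ξ h))) - 1‖ * ‖T.ι e‖ ≤ κ / 2 * 1 :=
      mul_le_mul ((norm_ch_sub_one_le _).trans h4) hιe (norm_nonneg _) (by linarith)
    linarith
  · intro l hl t ht
    have htI : t ∈ I := abs_le.1 ht
    rw [hmove (β l) t]
    have hmem : cj (β l, t) ∈ D' := Or.inr ⟨(β l, t), ⟨⟨l, hl, rfl⟩, htI⟩, rfl⟩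
    have hp' : W.R.p (cj (β l, t)) = 0 := W.R.p_conj t _ (W.pω _)
    have h2 := he5 _ hmem hp'
    have h3 : W.ξ (cj (β l, t)) = W.ρ (-t) (W.ξ (β l)) := W.ξ_conj_inv t _ (W.pω _)
    have h4 : r * χ (W.ξ (cj (β l, t))) = χ (W.ρ (-t) l) := by
      rw [h3, hβ]
      dsimp only
      rw [W.ξω, map_smul, map_smul, smul_eq_mul, mul_inv_cancel_left₀ hr0.ne']
    rw [h4] at h2
    refine h2.trans ?_
    linarith

end Pool.Agent.AbCoc
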