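import Pool.Agent.Lib_MP_418a80_t3.PhaseE
import Pool.Agent.Lib_MP_418a80_t3.Inv2

/-!
# MP_418a80_an, T3-PHASE: normalised elements with phases
-/

set_option autoImplicit false
set_option linter.unusedVariables false
set_option linter.unusedSectionVars false

open Topology Filter MeasureTheory

namespace Pool.Agent.AbCoc

universe u v w z

section
variable {A : Type u} [CStarAlgebra A]
  {K : Type v} [NormedAddCommGroup K] [InnerProductSpace ℂ K] [CompleteSpace K]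
variable {G : Type w} [Group G] [TopologicalSpace G] [IsTopologicalGroup G] {T : TrAlg A K}
  {U : Type z} [NormedAddCommGroup U] [NormedSpace ℝ U] [FiniteDimensional ℝ U]

/-- normalised elements with phases in the corner `b A b`; `C` depends on `b` only -/
theorem TrAct.exists_nelt (S : TrAct G T) (W : WtData G U) (χ : U →L[ℝ] ℝ) (b : A) (hb : S.IsPrj b)
    (hE : ∃ c : ℝ, 0 < c ∧ ∀ (r : ℝ) (D : Set G), IsCompact D → ∀ κ : ℝ, 0 < κ →
      ∃ e : A, b * e = e ∧ e * b = e ∧ ‖e‖ ≤ 1 ∧ c ≤ ‖T.ι e‖ ^ 2 ∧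
        ∀ h ∈ D, W.R.p h = 0 → ‖T.ι (S.α h e - ch (r * χ (W.ξ h)) • e)‖ ≤ κ) :
    ∃ C : ℝ, 0 < C ∧ ∀ (T0 : ℝ) (D : Set G), IsCompact D → ∀ κ : ℝ, 0 < κ → ∀ Λ : Set U,
      IsCompact Λ → ∃ (e : A) (β : U → G), S.NElt W.R (W.ph χ) b T0 D κ Λ C e β := by
  obtain ⟨c, hc, h⟩ := S.exists_phase W χ b hb hE
  refine ⟨1 / c, by positivity, fun T0 D hD κ hκ Λ hΛ => ?_⟩
  have hsc : 0 < √c := Real.sqrt_pos.2 hc
  obtain ⟨e, β, he, hce⟩ := h T0 D hD (κ * √c) (by positivity) Λ hΛ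
  have h1 := he.normalise hc hce
  rw [mul_div_cancel_right₀ _ hsc.ne'] at h1
  exact ⟨_, β, h1⟩

end

section
variable {A : Type u} [CStarAlgebra A] [PartialOrder A] [StarOrderedRing A]
  {K : Type v} [NormedAddCommGroup K] [InnerProductSpace ℂ K] [CompleteSpace K]
variable {G : Type w} [Group G] [TopologicalSpace G] [IsTopologicalGroup G] {T : TrAlg A K}
  {U : Type z} [NormedAddCommGroup U] [NormedSpace ℝ U] [FiniteDimensional ℝ U]

/-- normalised elements with phases, from the KEY property of the twisted matrices over the kernel -/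
theorem TrAct.exists_nelt_key (S : TrAct G T) (W : WtData G U) (χ : U →L[ℝ] ℝ) (N : Subgroup G)
    (hN : ∀ g, g ∈ N ↔ W.R.p g = 0)
    (hkey : ∀ (χ : N →* Circle) (hχ : Continuous χ),
      ((S.cm N.subtype continuous_subtype_val).twist 2 (tw2 χ) (tw2_cont hχ)).Key)
    {b : A} (hb : S.IsPrj b) (hb0 : b ≠ 0) :
    ∃ C : ℝ, 0 < C ∧ ∀ (T0 : ℝ) (D : Set G), IsCompact D → ∀ κ : ℝ, 0 < κ → ∀ Λ : Set U,
      IsCompact Λ → ∃ (e : A) (β : U → G), S.NElt W.R (W.ph χ) b T0 D κ Λ C e β :=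
  S.exists_nelt W χ b hb (S.phase_hE W χ N hN hkey hb hb hb0 hb0)

end

end Pool.Agent.AbCoc
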