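import Pool.Agent.Lib_MP_418a80_t3.Defs

set_option autoImplicit false
set_option linter.unusedVariables false
set_option linter.unusedSectionVars false

open Topology Filter MeasureTheory
open scoped RealInnerProductSpace ComplexConjugate

namespace Pool.Agent.AbCoc

theorem sw_ch_add (s t : ℝ) : ch (s + t) = ch s * ch t := by
  unfold ch
  rw [← Complex.exp_add]
  push_cast
  ring_nf

theorem sw_ch_zero : ch 0 = 1 := by
  unfold ch
  simp

theorem sw_ch_neg (t : ℝ) : ch (-t) = star (ch t) := by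
  unfold ch
  rw [Complex.star_def, ← Complex.exp_conj, map_mul, Complex.conj_ofReal, Complex.conj_I]
  push_cast
  ring_nf

theorem sw_ch_cont : Continuous ch := by
  unfold ch
  fun_prop

theorem sw_ch_eq {s t : ℝ} (h : ch s = ch t) : ∃ n : ℤ, s - t = n * (2 * Real.pi) := by
  unfold ch at h
  rw [Complex.exp_eq_exp_iff_exists_int] at h
  obtain ⟨n, hn⟩ := h
  refine ⟨n, ?_⟩
  have h1 := congrArg Complex.im hn
  simp at h1
  linarith

/-- T3-SW: Stone-Weierstrass -/
theorem sw_phases {U : Type*} [NormedAddCommGroup U] [NormedSpace ℝ U] [FiniteDimensional ℝ U]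
    (R : ℝ → U →L[ℝ] U) (hRc : Continuous R) (hR : ∀ s t, R (s + t) = (R s).comp (R t))
    (hR0 : R 0 = ContinuousLinearMap.id ℝ U)
    (hRi : ∀ t, t ≠ 0 → ∀ l, R t l = l → l = 0) (χ : U →L[ℝ] ℝ) (hχ : χ ≠ 0)
    (T : ℝ) (φ : ℝ → ℂ) (hφ : Continuous φ) (ε : ℝ) (hε : 0 < ε) :
    ∃ (n : ℕ) (k : Fin n → U) (h : Fin n → ℂ), ∀ t : ℝ, |t| ≤ T →
      ‖φ t - ∑ i, h i * ch (χ (R (-t) (k i)))‖ ≤ ε := by
  classical
  set X := Set.Icc (-T) T with hX
  have hfc : ∀ l : U, Continuous fun t : X => ch (χ (R (-(t : ℝ)) l)) := by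
    intro l
    refine sw_ch_cont.comp (χ.continuous.comp ?_)
    exact (hRc.comp (continuous_subtype_val.neg)).clm_apply continuous_const
  let E : Multiplicative U →* C(X, ℂ) :=
    { toFun := fun l => ⟨fun t : X => ch (χ (R (-(t : ℝ)) (Multiplicative.toAdd l))), hfc _⟩
      map_one' := by
        ext t
        show ch (χ (R (-(t : ℝ)) 0)) = 1
        rw [map_zero, map_zero, sw_ch_zero]
      map_mul' := by
        intro a b
        ext t
        show ch (χ (R (-(t : ℝ)) (Multiplicative.toAdd a + Multiplicative.toAdd b))) =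
          ch (χ (R (-(t : ℝ)) (Multiplicative.toAdd a))) * ch (χ (R (-(t : ℝ)) (Multiplicative.toAdd b)))
        rw [map_add, map_add, sw_ch_add] }
  have hEs : ∀ l, star (E l) = E (l⁻¹) := by
    intro l
    ext t
    show star (ch (χ (R (-(t : ℝ)) (Multiplicative.toAdd l)))) =
      ch (χ (R (-(t : ℝ)) (-(Multiplicative.toAdd l))))
    rw [map_neg, map_neg, sw_ch_neg]
  have hstar : star (Set.range E) = Set.range E := by
    ext f
    rw [Set.mem_star]
    constructor
    · rintro ⟨l, hl⟩
      exact ⟨l⁻¹, by rw [← hEs, hl, star_star]⟩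
    · rintro ⟨l, hl⟩
      exact ⟨l⁻¹, by rw [← hEs, hl]⟩
  let A : StarSubalgebra ℂ C(X, ℂ) := StarAlgebra.adjoin ℂ (Set.range E)
  have hAspan : ∀ f ∈ A, f ∈ Submodule.span ℂ (Set.range E) := by
    intro f hf
    have h1 : f ∈ A.toSubalgebra := hf
    rw [StarAlgebra.adjoin_toSubalgebra, hstar, Set.union_self] at h1
    have h2 : f ∈ Subalgebra.toSubmodule (Algebra.adjoin ℂ (Set.range E)) := h1
    rw [Algebra.adjoin_eq_span] at h2
    have h3 : (Submonoid.closure (Set.range E) : Set C(X, ℂ)) = Set.range E := by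
      rw [← MonoidHom.coe_mrange, Submonoid.closure_eq]
    rwa [h3] at h2
  have hsep : A.SeparatesPoints := by
    intro t t' htt
    have hl : ∃ l : U, ch (χ (R (-(t : ℝ)) l)) ≠ ch (χ (R (-(t' : ℝ)) l)) := by
      by_contra hcon
      push Not at hcon
      -- the two functionals agree
      have h1 : ∀ l, χ (R (-(t : ℝ)) l) = χ (R (-(t' : ℝ)) l) := by
        intro l
        by_contra h2
        set d := χ (R (-(t : ℝ)) l) - χ (R (-(t' : ℝ)) l) with hd
        have hd0 : d ≠ 0 := sub_ne_zero.2 h2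
        obtain ⟨n, hn⟩ := sw_ch_eq (hcon ((Real.pi / d) • l))
        rw [map_smul, map_smul, map_smul, map_smul, smul_eq_mul, smul_eq_mul, ← mul_sub, ← hd,
          div_mul_cancel₀ _ hd0] at hn
        have h3 : (1 : ℝ) = n * 2 := by
          have hpi := Real.pi_ne_zero
          have : Real.pi * 1 = Real.pi * (n * 2) := by linarith
          exact mul_left_cancel₀ hpi this
        have h4 : (1 : ℤ) = n * 2 := by exact_mod_cast h3
        omega
      set s := (t' : ℝ) - t with hs
      have hs0 : s ≠ 0 := sub_ne_zero.2 fun h => htt (Subtype.ext h.symm)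
      -- surjectivity of R s - 1
      let f : U →ₗ[ℝ] U := (R s : U →ₗ[ℝ] U) - LinearMap.id
      have hinj : Function.Injective f := by
        rw [injective_iff_map_eq_zero]
        intro l hl
        refine hRi s hs0 l ?_
        have : R s l - l = 0 := hl
        exact sub_eq_zero.1 this
      have hsurj : Function.Surjective f := LinearMap.surjective_of_injective hinj
      have h2 : ∀ l, χ (R (-(t' : ℝ)) l) = 0 := by
        intro l
        obtain ⟨l', hl'⟩ := hsurj l
        have h3 : R s l' - l' = l := hl'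
        have h4 : R (-(t : ℝ)) l' = R (-(t' : ℝ)) (R s l') := by
          have h5 := hR (-(t' : ℝ)) s
          have h6 : -(t' : ℝ) + s = -(t : ℝ) := by rw [hs]; ring
          rw [h6] at h5
          rw [h5]
          rfl
        rw [← h3, map_sub, map_sub, ← h4, h1, sub_self]
      apply hχ
      ext l
      have h5 := hR (-(t' : ℝ)) t'
      rw [neg_add_cancel, hR0] at h5
      have h6 : l = R (-(t' : ℝ)) (R t' l) := by
        have h7 := congrArg (fun f : U →L[ℝ] U => f l) h5
        exact h7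
      rw [h6, h2]
      rfl
    obtain ⟨l, hl⟩ := hl
    refine ⟨fun x => E (Multiplicative.ofAdd l) x, ⟨E (Multiplicative.ofAdd l), ?_, rfl⟩, hl⟩
    exact StarAlgebra.subset_adjoin ℂ _ ⟨_, rfl⟩
  have htop := ContinuousMap.starSubalgebra_topologicalClosure_eq_top_of_separatesPoints A hsep
  let f0 : C(X, ℂ) := ⟨fun t : X => φ t, hφ.comp continuous_subtype_val⟩
  have hf0 : f0 ∈ A.topologicalClosure := by
    rw [htop]
    trivial
  have hf1 : f0 ∈ closure (A : Set C(X, ℂ)) := hf0
  rw [Metric.mem_closure_iff] at hf1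
  obtain ⟨a, ha, hda⟩ := hf1 ε hε
  obtain ⟨n, c, gg, hsum⟩ := Submodule.mem_span_set'.1 (hAspan a ha)
  choose kk hkk using fun i => (gg i).2
  refine ⟨n, fun i => Multiplicative.toAdd (kk i), c, fun t ht => ?_⟩
  have htX : t ∈ X := abs_le.1 ht
  have h1 : a ⟨t, htX⟩ = ∑ i, c i * ch (χ (R (-t) (Multiplicative.toAdd (kk i)))) := by
    rw [← hsum, ContinuousMap.sum_apply]
    refine Finset.sum_congr rfl fun i _ => ?_
    rw [← hkk i]
    rfl
  rw [← h1]
  have h2 := ContinuousMap.dist_apply_le_dist (f := f0) (g := a) ⟨t, htX⟩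
  rw [dist_eq_norm] at h2
  exact h2.trans hda.le

end Pool.Agent.AbCoc
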