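import Pool.Agent.Lib_MP_418a80_t3.KeyIso
import Pool.Agent.Lib_MP_418a80_t3.KeyWt
import Pool.Agent.Lib_MP_418a80_t3.Heis8

/-!
# MP_418a80_an, T3: the class of groups
-/

set_option autoImplicit false
set_option linter.unusedVariables false
set_option linter.unusedSectionVars false

open MeasureTheory Topology Filter TopologicalSpace
open scoped ENNReal

namespace Pool.Agent.AbCoc

universe u v w z

/-- the class of groups -/
inductive T3Grp.{w'} : (G : Type w') → [Group G] → [TopologicalSpace G] → Prop
  /-- noncompact groups with an open subgroup which has a compact normal subgroup with quotient `ℝⁿ` -/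
  | base (G : Type w') [Group G] [TopologicalSpace G] [NoncompactSpace G] (L : Subgroup G) (n : ℕ)
      (q : L →* Multiplicative (EuclideanSpace ℝ (Fin n))) (hL : IsOpen (L : Set G))
      (hq : Continuous q) (hs : Function.Surjective q) (hk : IsCompact (q.ker : Set L)) : T3Grp G
  /-- nilpotent groups with continuous real powers -/
  | nilpotent (G : Type w') [Group G] [TopologicalSpace G] [Nontrivial G] [Group.IsNilpotent G]
      (R : RPow G) : T3Grp G
  /-- the Heisenberg step -/
  | heisenberg (G : Type w') [Group G] [TopologicalSpace G] [IsTopologicalGroup G] (n : ℕ)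
      (H : HeisData G n) (hn : 0 < n) (hA : T3Grp H.toHData.kerA)
      (hX : ∀ χ0 : LV n, χ0 ≠ 0 → T3Grp (H.toHData.kerX χ0)) : T3Grp G
  /-- the weight step -/
  | weight (G : Type w') [Group G] [TopologicalSpace G] (U : Type) [NormedAddCommGroup U]
      [NormedSpace ℝ U] [FiniteDimensional ℝ U] [Nontrivial U] (W : WtData G U) (N : Subgroup G)
      (hN : ∀ g, g ∈ N ↔ W.R.p g = 0) (h : T3Grp N) : T3Grp G
  /-- the contraction step -/
  | contraction (G : Type w') [Group G] [TopologicalSpace G] (H : Subgroup G)
      (hH : IsClosed (H : Set G)) (hc : Contracts H.subtype) (h : T3Grp H) : T3Grp G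
  /-- the open normal step -/
  | openNormal (G : Type w') [Group G] [TopologicalSpace G] (k : ℕ) (N : ℕ → Subgroup G)
      (hn : (N 0).Normal) (ho : IsOpen (N 0 : Set G)) (hne : N 0 ≠ ⊥) (hk : N k = ⊥)
      (m : ℕ → ℕ) (hm : ∀ i < k, 0 < m i) (p : ∀ i, G → EuclideanSpace ℝ (Fin (m i)))
      (hcl : ∀ i < k, IsClosed (N i : Set G)) (hp : ∀ i < k, IsLayer (N i) (N (i + 1)) (p i))
      (h : ∀ i < k, T3Grp (N i)) : T3Grp G

theorem T3Grp.keyAll {G : Type w} [Group G] [TopologicalSpace G] (h : T3Grp G) :
    ∀ [IsTopologicalGroup G] [T2Space G] [SecondCountableTopology G] [LocallyCompactSpace G],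
      KeyAll.{u, v, w} G := by
  induction h with
  | base G L n q hL hq hs hk => exact keyAll_of_euclByCo L n q hL hq hs hk
  | nilpotent G R => exact nilpotent_keyAll R
  | heisenberg G n H hn hA hX ihA ihX =>
    intro _ _ _ _
    have hcA := H.toHData.isClosed_kerA
    have : LocallyCompactSpace H.toHData.kerA := hcA.isClosedEmbedding_subtypeVal.locallyCompactSpace
    have : SecondCountableTopology H.toHData.kerA :=
      inferInstanceAs (SecondCountableTopology ((H.toHData.kerA : Set G) : Set G))
    refine keyAll_heis H hn ihA fun χ0 hχ0 => ?_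
    have hcX := H.toHData.isClosed_kerX χ0
    have : LocallyCompactSpace (H.toHData.kerX χ0) :=
      hcX.isClosedEmbedding_subtypeVal.locallyCompactSpace
    have : SecondCountableTopology (H.toHData.kerX χ0) :=
      inferInstanceAs (SecondCountableTopology ((H.toHData.kerX χ0 : Set G) : Set G))
    exact ihX χ0 hχ0
  | weight G U W N hN h ih =>
    intro _ _ _ _
    have hNc := W.R.isClosed_of_mem_iff N hN
    have : LocallyCompactSpace N := hNc.isClosedEmbedding_subtypeVal.locallyCompactSpace
    have : SecondCountableTopology N :=
      inferInstanceAs (SecondCountableTopology ((N : Set G) : Set G))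
    exact keyAll_of_wt W N hN ih
  | contraction G H hH hc h ih =>
    intro _ _ _ _
    have : LocallyCompactSpace H := hH.isClosedEmbedding_subtypeVal.locallyCompactSpace
    have : SecondCountableTopology H :=
      inferInstanceAs (SecondCountableTopology ((H : Set G) : Set G))
    exact keyAll_of_contracts H.subtype hH.isClosedEmbedding_subtypeVal hc ih
  | openNormal G k N hn ho hne hk m hm p hcl hp h ih =>
    intro _ _ _ _
    have htow : ∀ j, j ≤ k → KTower.{u, v, _} (N (k - j)) := by
      intro j
      induction j with
      | zero =>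
        intro _
        rw [Nat.sub_zero, hk]
        exact KTower.bot
      | succ j ihj =>
        intro hj
        have h1 := ihj (by omega)
        have hlt : k - (j + 1) < k := by omega
        have e : k - (j + 1) + 1 = k - j := by omega
        have h2 := hp _ hlt
        rw [e] at h2
        have hc := hcl _ hlt
        have : LocallyCompactSpace (N (k - (j + 1))) :=
          hc.isClosedEmbedding_subtypeVal.locallyCompactSpace
        have : SecondCountableTopology (N (k - (j + 1))) :=
          inferInstanceAs (SecondCountableTopology ((N (k - (j + 1)) : Set G) : Set G))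
        exact KTower.step _ _ _ _ (hm _ hlt) hc h2 (ih _ hlt) h1
    have h0 := htow k le_rfl
    rw [Nat.sub_self] at h0
    exact keyAll_of_kTower (N 0) ho hne h0

end Pool.Agent.AbCoc
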