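import Pool.Agent.Lib_MP_418a80_hyp.AmpAct
import Pool.Agent.Lib_MP_418a80_hyp.HZ
import Pool.Agent.Lib_MP_418a80_ab.Coc

/-!
# The amplification twisted by characters

`α_g ⊗ Ad diag(χ_0(g), …, χ_{N-1}(g))` on the matrices over a tracial algebra, and its strict
outerness.
-/

set_option autoImplicit false
set_option linter.unusedVariables false
set_option linter.unusedSectionVars false

open Topology Filter MeasureTheory
open scoped ENNReal

namespace Pool.Agent.AbCoc

universe u v w

theorem circle_mul_star (z : Circle) : (z : ℂ) * star (z : ℂ) = 1 := by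
  have h := Circle.normSq_coe z
  rw [Complex.star_def, Complex.mul_conj, h]
  norm_num

theorem circle_mul_conj (z : Circle) : (z : ℂ) * (starRingEnd ℂ) (z : ℂ) = 1 :=
  circle_mul_star z

theorem circle_star_mul (z : Circle) : star (z : ℂ) * (z : ℂ) = 1 := by
  rw [mul_comm, circle_mul_star]

section
variable {A : Type u} [CStarAlgebra A] [PartialOrder A] [StarOrderedRing A]

/-- a *-homomorphism, entrywise, followed by conjugation with a diagonal unitary -/
noncomputable def twMap (f : A →⋆ₐ[ℂ] A) (N : ℕ) (z : Fin N → Circle) :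
    Mat N A →⋆ₐ[ℂ] Mat N A where
  toFun M := CStarMatrix.ofMatrix fun i j => ((z i : ℂ) * star (z j : ℂ)) • f (M i j)
  map_one' := by
    ext i j
    by_cases h : i = j
    · subst h; simp [circle_mul_conj]
    · simp [CStarMatrix.one_apply_ne h]
  map_mul' a b := by
    ext i j
    change ((z i : ℂ) * star (z j : ℂ)) • f ((a * b) i j) =
      (CStarMatrix.ofMatrix (fun i j => ((z i : ℂ) * star (z j : ℂ)) • f (a i j)) *
        CStarMatrix.ofMatrix (fun i j => ((z i : ℂ) * star (z j : ℂ)) • f (b i j))) i j
    rw [CStarMatrix.mul_apply, CStarMatrix.mul_apply, map_sum, Finset.smul_sum]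
    refine Finset.sum_congr rfl fun k _ => ?_
    change _ = (((z i : ℂ) * star (z k : ℂ)) • f (a i k)) * (((z k : ℂ) * star (z j : ℂ)) • f (b k j))
    rw [smul_mul_smul_comm, map_mul]
    congr 1
    calc (z i : ℂ) * star (z j : ℂ) = (z i : ℂ) * (star (z k : ℂ) * (z k : ℂ)) * star (z j : ℂ) := by
          rw [circle_star_mul, mul_one]
      _ = _ := by ring
  map_zero' := by
    ext i j
    simp
  map_add' a b := by
    ext i j
    simp
  commutes' r := by
    ext i j
    by_cases h : i = j
    · subst h; simp [CStarMatrix.algebraMap_apply, AlgHomClass.commutes, circle_mul_conj]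
    · simp [CStarMatrix.algebraMap_apply, h]
  map_star' a := by
    ext i j
    simp [CStarMatrix.star_apply, map_star, mul_comm]

theorem twMap_apply (f : A →⋆ₐ[ℂ] A) (N : ℕ) (z : Fin N → Circle) (M : Mat N A) (i j : Fin N) :
    twMap f N z M i j = ((z i : ℂ) * star (z j : ℂ)) • f (M i j) := rfl

end

section
variable {A : Type u} [CStarAlgebra A] [PartialOrder A] [StarOrderedRing A]
  {K : Type v} [NormedAddCommGroup K] [InnerProductSpace ℂ K]
variable {G : Type w} [Group G] [TopologicalSpace G] {T : TrAlg A K} (S : TrAct G T)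

theorem norm_circle_mul_star (z w : Circle) : ‖(z : ℂ) * star (w : ℂ)‖ = 1 := by
  rw [norm_mul, norm_star, Circle.norm_coe, Circle.norm_coe, one_mul]

/-- the amplification twisted by characters -/
noncomputable def TrAct.twist (N : ℕ) [NeZero N] (χ : Fin N → (G →* Circle))
    (hχ : ∀ i, Continuous (χ i)) : TrAct G (T.amp N) where
  α g := twMap (S.α g) N fun i => χ i g
  one a := by
    ext i j
    rw [twMap_apply, S.one]
    simp
  mul g h a := by
    ext i j
    rw [twMap_apply, twMap_apply, twMap_apply, S.mul, map_smul, smul_smul]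
    congr 1
    rw [map_mul, map_mul, Circle.coe_mul, Circle.coe_mul, star_mul]
    ring
  norm_map g a := by
    have h : ‖(T.amp N).ι (twMap (S.α g) N (fun i => χ i g) a)‖ ^ 2 = ‖(T.amp N).ι a‖ ^ 2 := by
      rw [T.amp_norm_sq, T.amp_norm_sq]
      congr 1
      refine Finset.sum_congr rfl fun i _ => Finset.sum_congr rfl fun j _ => ?_
      rw [twMap_apply, map_smul, norm_smul, norm_circle_mul_star, one_mul, S.norm_map]
    exact (pow_left_inj₀ (norm_nonneg _) (norm_nonneg _) two_ne_zero).1 h
  cont a := (PiLp.continuous_toLp 2 _).comp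
    (continuous_pi fun p => by
      have h : (fun g => T.ι (((χ p.1 g : ℂ) * star (χ p.2 g : ℂ)) • S.α g (a p.1 p.2))) =
          fun g => ((χ p.1 g : ℂ) * star (χ p.2 g : ℂ)) • T.ι (S.α g (a p.1 p.2)) := by
        funext g
        rw [map_smul]
      have h2 : Continuous fun g => T.ι (((χ p.1 g : ℂ) * star (χ p.2 g : ℂ)) •
          S.α g (a p.1 p.2)) := by
        rw [h]
        exact (((continuous_subtype_val.comp (hχ p.1)).mul
          (continuous_star.comp (continuous_subtype_val.comp (hχ p.2))))).smul (S.cont _)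
      exact h2.const_smul _)

theorem TrAct.twist_α_apply (N : ℕ) [NeZero N] (χ : Fin N → (G →* Circle))
    (hχ : ∀ i, Continuous (χ i)) (g : G) (M : Mat N A) (i j : Fin N) :
    (S.twist N χ hχ).α g M i j = ((χ i g : ℂ) * star (χ j g : ℂ)) • S.α g (M i j) := rfl

end

end Pool.Agent.AbCoc
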