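import Pool.Agent.Lib_MP_418a80_t3.Twist
import Pool.Agent.Lib_MP_418a80_nm.NAmp
import Pool.Agent.Lib_MP_418a80_hyp.Fields

/-!
# The amplification twisted by characters is strictly outer
-/

set_option autoImplicit false
set_option linter.unusedVariables false
set_option linter.unusedSectionVars false

open Topology Filter MeasureTheory
open scoped ENNReal

namespace Pool.Agent.AbCoc

universe u v w

section inc
variable (N : ℕ) (K : Type v) [NormedAddCommGroup K] [InnerProductSpace ℂ K]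

/-- the coordinate inclusion -/
noncomputable def incK (p : Fin N × Fin N) : K →L[ℂ] MatK N K :=
  ((PiLp.continuousLinearEquiv 2 ℂ fun _ : Fin N × Fin N => K).symm :
    ((Fin N × Fin N) → K) →L[ℂ] MatK N K).comp
    (ContinuousLinearMap.single ℂ (fun _ : Fin N × Fin N => K) p)

/-- the coordinate projection -/
noncomputable def prjK (p : Fin N × Fin N) : MatK N K →L[ℂ] K :=
  PiLp.proj 2 (fun _ : Fin N × Fin N => K) p

theorem incK_apply (p q : Fin N × Fin N) (ξ : K) : incK N K p ξ q = if q = p then ξ else 0 := by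
  change (Pi.single p ξ : (Fin N × Fin N) → K) q = _
  rw [Pi.single_apply]

theorem prjK_incK (p q : Fin N × Fin N) (ξ : K) :
    prjK N K p (incK N K q ξ) = if p = q then ξ else 0 := incK_apply N K q p ξ

theorem sum_incK_prjK (η : MatK N K) : ∑ p, incK N K p (prjK N K p η) = η := by
  ext q
  have h : (∑ p, incK N K p (prjK N K p η)) q = ∑ p, (incK N K p (prjK N K p η)) q := by
    have := map_sum (prjK N K q) (fun p => incK N K p (prjK N K p η)) Finset.univ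
    exact this
  rw [h, Finset.sum_eq_single q]
  · rw [incK_apply, if_pos rfl]; rfl
  · intro p _ hp
    rw [incK_apply, if_neg (Ne.symm hp)]
  · intro h; exact absurd (Finset.mem_univ q) h

end inc

section lm
variable {A : Type u} [CStarAlgebra A] [PartialOrder A] [StarOrderedRing A]
  {K : Type v} [NormedAddCommGroup K] [InnerProductSpace ℂ K] [CompleteSpace K] (T : TrAlg A K)

theorem TrAlg.incK_ι (N : ℕ) [NeZero N] (l k : Fin N) (a : A) :
    (((N : ℝ) ^ (-(1 / 2) : ℝ) : ℝ) : ℂ) • incK N K (l, k) (T.ι a) = (T.amp N).ι (ent N l k a) := by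
  ext q
  have h1 : ((((N : ℝ) ^ (-(1 / 2) : ℝ) : ℝ) : ℂ) • incK N K (l, k) (T.ι a)) q
      = (((N : ℝ) ^ (-(1 / 2) : ℝ) : ℝ) : ℂ) • (incK N K (l, k) (T.ι a) q) := rfl
  rw [h1, incK_apply, T.amp_ι, T.ampι_apply]
  congr 1
  obtain ⟨i, j⟩ := q
  change (if (i, j) = (l, k) then T.ι a else 0) = T.ι (if i = l then (if j = k then a else 0) else 0)
  by_cases hi : i = l
  · by_cases hj : j = k
    · rw [if_pos (by rw [hi, hj]), if_pos hi, if_pos hj]
    · rw [if_neg (by rintro h; exact hj (Prod.ext_iff.1 h).2), if_pos hi, if_neg hj, map_zero]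
  · rw [if_neg (by rintro h; exact hi (Prod.ext_iff.1 h).1), if_neg hi, map_zero]

theorem mul_ent_eq (N : ℕ) (b : Mat N A) (l k : Fin N) (a : A) :
    b * ent N l k a = ∑ i, ent N i k (b i l * a) := by
  ext i j
  rw [CStarMatrix.mul_apply, Finset.sum_eq_single l]
  · have h : (∑ i', ent N i' k (b i' l * a)) i j = ∑ i', (ent N i' k (b i' l * a)) i j := by
      have : ∀ s : Finset (Fin N), (∑ i' ∈ s, ent N i' k (b i' l * a)) i j
          = ∑ i' ∈ s, (ent N i' k (b i' l * a)) i j := by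
        classical
        intro s
        induction s using Finset.induction_on with
        | empty => simp
        | insert x s hx ih => rw [Finset.sum_insert hx, Finset.sum_insert hx, ← ih]; rfl
      exact this _
    rw [h, Finset.sum_eq_single i, ent_apply, ent_apply, if_pos rfl, if_pos rfl]
    · by_cases hj : j = k
      · rw [if_pos hj, if_pos hj]
      · rw [if_neg hj, if_neg hj, mul_zero]
    · intro i' _ hi'
      rw [ent_apply, if_neg (Ne.symm hi')]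
    · intro h; exact absurd (Finset.mem_univ i) h
  · intro m _ hm
    rw [ent_apply, if_neg hm, mul_zero]
  · intro h; exact absurd (Finset.mem_univ l) h

theorem TrAlg.amp_Lm_incK (N : ℕ) [NeZero N] (b : Mat N A) (l k : Fin N) (ξ : K) :
    (T.amp N).Lm b (incK N K (l, k) ξ) = ∑ i, incK N K (i, k) (T.Lm (b i l) ξ) := by
  have hN : (0 : ℝ) < (N : ℝ) ^ (-(1 / 2) : ℝ) :=
    Real.rpow_pos_of_pos (Nat.cast_pos.2 (Nat.pos_of_ne_zero (NeZero.ne N))) _
  have hc : (((N : ℝ) ^ (-(1 / 2) : ℝ) : ℝ) : ℂ) ≠ 0 := Complex.ofReal_ne_zero.2 hN.ne'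
  refine T.dense.induction_on (p := fun ξ => (T.amp N).Lm b (incK N K (l, k) ξ)
    = ∑ i, incK N K (i, k) (T.Lm (b i l) ξ)) ξ ?_ ?_
  · refine isClosed_eq (((T.amp N).Lm b).continuous.comp (incK N K (l, k)).continuous) ?_
    exact continuous_finset_sum _ fun i _ =>
      (incK N K (i, k)).continuous.comp (T.Lm (b i l)).continuous
  · intro a
    have h : (((N : ℝ) ^ (-(1 / 2) : ℝ) : ℝ) : ℂ) • (T.amp N).Lm b (incK N K (l, k) (T.ι a))
        = (((N : ℝ) ^ (-(1 / 2) : ℝ) : ℝ) : ℂ) • ∑ i, incK N K (i, k) (T.Lm (b i l) (T.ι a)) := by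
      rw [← map_smul, T.incK_ι, TrAlg.Lm_ι, mul_ent_eq, map_sum, Finset.smul_sum]
      refine Finset.sum_congr rfl fun i _ => ?_
      rw [← T.incK_ι, T.Lm_ι]
    exact smul_right_injective _ hc h

end lm

section so
variable {A : Type u} [CStarAlgebra A] [PartialOrder A] [StarOrderedRing A]
  {K : Type v} [NormedAddCommGroup K] [InnerProductSpace ℂ K] [CompleteSpace K]
variable {G : Type w} [Group G] [TopologicalSpace G] [IsTopologicalGroup G]
  [SecondCountableTopology G] [LocallyCompactSpace G] [MeasurableSpace G] [BorelSpace G]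
  (μ : Measure G) [μ.IsHaarMeasure] {T : TrAlg A K} (S : TrAct G T)
  (N : ℕ) [NeZero N] (χ : Fin N → (G →* Circle)) (hχ : ∀ i, Continuous (χ i))

/-- the inclusion twisted by the character -/
noncomputable def twJ (p : Fin N × Fin N) : Field G K (MatK N K) :=
  Field.ofStrong (fun g => (star (χ p.1 g : ℂ)) • incK N K p) ‖incK N K p‖ (fun g => by
    rw [norm_smul, norm_star, Circle.norm_coe, one_mul]) (fun ξ => by
    change Continuous fun g => (star (χ p.1 g : ℂ)) • incK N K p ξ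
    exact (continuous_star.comp (continuous_subtype_val.comp (hχ p.1))).smul continuous_const)

/-- the projection twisted by the character -/
noncomputable def twQ (p : Fin N × Fin N) : Field G (MatK N K) K :=
  Field.ofStrong (fun g => (χ p.1 g : ℂ) • prjK N K p) ‖prjK N K p‖ (fun g => by
    rw [norm_smul, Circle.norm_coe, one_mul]) (fun ξ => by
    change Continuous fun g => (χ p.1 g : ℂ) • prjK N K p ξ
    exact (continuous_subtype_val.comp (hχ p.1)).smul continuous_const)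

/-- `J_p` -/
noncomputable def twJo (p : Fin N × Fin N) : Lp K 2 μ →L[ℂ] Lp (MatK N K) 2 μ :=
  (twJ (K := K) N χ hχ p).op μ

/-- `Q_p` -/
noncomputable def twQo (p : Fin N × Fin N) : Lp (MatK N K) 2 μ →L[ℂ] Lp K 2 μ :=
  (twQ (K := K) N χ hχ p).op μ

theorem twQ_twJ (p q : Fin N × Fin N) (ξ : Lp K 2 μ) :
    twQo μ N χ hχ p (twJo μ N χ hχ q ξ) = if p = q then ξ else 0 := by
  apply Lp.ext
  have h0 := (twJ (K := K) N χ hχ q).op_ae μ ξ
  have h1 := (twQ (K := K) N χ hχ p).op_ae μ (twJo μ N χ hχ q ξ)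
  by_cases hpq : p = q
  · rw [if_pos hpq]
    filter_upwards [h0, h1] with g h0 h1
    change (((twQ (K := K) N χ hχ p).op μ) (twJo μ N χ hχ q ξ)) g = _
    rw [h1]
    change (χ p.1 g : ℂ) • prjK N K p (((twJ (K := K) N χ hχ q).op μ ξ) g) = _
    rw [h0]
    change (χ p.1 g : ℂ) • prjK N K p ((star (χ q.1 g : ℂ)) • incK N K q (ξ g)) = _
    rw [map_smul, prjK_incK, if_pos hpq, smul_smul, hpq, circle_mul_star, one_smul]
  · rw [if_neg hpq]
    filter_upwards [h0, h1, Lp.coeFn_zero K 2 μ] with g h0 h1 h2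
    change (((twQ (K := K) N χ hχ p).op μ) (twJo μ N χ hχ q ξ)) g = _
    rw [h1, h2]
    change (χ p.1 g : ℂ) • prjK N K p (((twJ (K := K) N χ hχ q).op μ ξ) g) = _
    rw [h0]
    change (χ p.1 g : ℂ) • prjK N K p ((star (χ q.1 g : ℂ)) • incK N K q (ξ g)) = _
    rw [map_smul, prjK_incK, if_neg hpq, smul_zero, smul_zero]
    rfl

theorem Lp_coeFn_sum {E : Type*} [NormedAddCommGroup E] {J : Type*} (s : Finset J)
    (f : J → Lp E 2 μ) : (∑ j ∈ s, f j : Lp E 2 μ) =ᵐ[μ] fun g => ∑ j ∈ s, f j g := by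
  classical
  induction s using Finset.induction_on with
  | empty =>
    filter_upwards [Lp.coeFn_zero E 2 μ] with g h
    rw [Finset.sum_empty, Finset.sum_empty, h]
    rfl
  | insert x s hx ih =>
    filter_upwards [ih, Lp.coeFn_add (f x) (∑ j ∈ s, f j)] with g h1 h2
    rw [Finset.sum_insert hx, h2, Pi.add_apply, h1, Finset.sum_insert hx]

theorem sum_twJ_twQ (ξ : Lp (MatK N K) 2 μ) :
    ∑ p, twJo μ N χ hχ p (twQo μ N χ hχ p ξ) = ξ := by
  apply Lp.ext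
  have h0 : ∀ p, ∀ᵐ g ∂μ, (twQo μ N χ hχ p ξ) g = (χ p.1 g : ℂ) • prjK N K p (ξ g) := fun p =>
    (twQ (K := K) N χ hχ p).op_ae μ ξ
  have h1 : ∀ p, ∀ᵐ g ∂μ, (twJo μ N χ hχ p (twQo μ N χ hχ p ξ)) g =
      (star (χ p.1 g : ℂ)) • incK N K p ((twQo μ N χ hχ p ξ) g) := fun p =>
    (twJ (K := K) N χ hχ p).op_ae μ _
  filter_upwards [ae_all_iff.2 h0, ae_all_iff.2 h1,
    Lp_coeFn_sum μ Finset.univ (fun p => twJo μ N χ hχ p (twQo μ N χ hχ p ξ))] with g h0 h1 h2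
  rw [h2]
  conv_rhs => rw [← sum_incK_prjK N K (ξ g)]
  refine Finset.sum_congr rfl fun p _ => ?_
  rw [h1, h0, map_smul, smul_smul, circle_star_mul, one_smul]

theorem TrAct.twist_pi_J (b : Mat N A) (l k : Fin N) (ξ : Lp K 2 μ) :
    (S.twist N χ hχ).pi μ b (twJo μ N χ hχ (l, k) ξ)
      = ∑ i, twJo μ N χ hχ (i, k) (S.pi μ (b i l) ξ) := by
  apply Lp.ext
  have h0 := (twJ (K := K) N χ hχ (l, k)).op_ae μ ξ
  have h1 := (S.twist N χ hχ).pi_ae μ b (twJo μ N χ hχ (l, k) ξ)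
  have h2 : ∀ i, ∀ᵐ g ∂μ, (twJo μ N χ hχ (i, k) (S.pi μ (b i l) ξ)) g =
      (star (χ i g : ℂ)) • incK N K (i, k) ((S.pi μ (b i l) ξ) g) := fun i =>
    (twJ (K := K) N χ hχ (i, k)).op_ae μ _
  have h3 : ∀ i, ∀ᵐ g ∂μ, (S.pi μ (b i l) ξ) g = T.Lm (S.α g⁻¹ (b i l)) (ξ g) := fun i =>
    S.pi_ae μ (b i l) ξ
  filter_upwards [h0, h1, ae_all_iff.2 h2, ae_all_iff.2 h3,
    Lp_coeFn_sum μ Finset.univ (fun i => twJo μ N χ hχ (i, k) (S.pi μ (b i l) ξ))]
    with g h0 h1 h2 h3 h4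
  rw [h1, h4]
  change (T.amp N).Lm ((S.twist N χ hχ).α g⁻¹ b) (((twJ (K := K) N χ hχ (l, k)).op μ ξ) g) = _
  rw [h0]
  change (T.amp N).Lm ((S.twist N χ hχ).α g⁻¹ b) ((star (χ l g : ℂ)) • incK N K (l, k) (ξ g)) = _
  rw [map_smul, T.amp_Lm_incK, Finset.smul_sum]
  refine Finset.sum_congr rfl fun i _ => ?_
  rw [h2, h3, S.twist_α_apply, T.Lm_smul]
  change (star (χ l g : ℂ)) • incK N K (i, k)
    ((((χ i g⁻¹ : ℂ) * star (χ l g⁻¹ : ℂ)) • T.Lm (S.α g⁻¹ (b i l))) (ξ g)) = _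
  have e : ((((χ i g⁻¹ : ℂ) * star (χ l g⁻¹ : ℂ)) • T.Lm (S.α g⁻¹ (b i l))) (ξ g))
      = ((χ i g⁻¹ : ℂ) * star (χ l g⁻¹ : ℂ)) • (T.Lm (S.α g⁻¹ (b i l)) (ξ g)) := rfl
  rw [e, map_smul, smul_smul]
  congr 1
  rw [map_inv, map_inv, Circle.coe_inv, Circle.coe_inv]
  have hi : ∀ z : Circle, (z : ℂ)⁻¹ = star (z : ℂ) := fun z => by
    have h := circle_mul_star z
    exact inv_eq_of_mul_eq_one_right h
  rw [hi, hi, star_star]
  calc star (χ l g : ℂ) * (star (χ i g : ℂ) * (χ l g : ℂ))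
      = star (χ i g : ℂ) * (star (χ l g : ℂ) * (χ l g : ℂ)) := by ring
    _ = star (χ i g : ℂ) := by rw [circle_star_mul, mul_one]

theorem twJ_lam (s : G) (p : Fin N × Fin N) (ξ : Lp K 2 μ) :
    (lam μ (MatK N K)).U s (twJo μ N χ hχ p ξ)
      = (χ p.1 s : ℂ) • twJo μ N χ hχ p ((lam μ K).U s ξ) := by
  apply Lp.ext
  have h0 := ae_translate μ s⁻¹ ((twJ (K := K) N χ hχ p).op_ae μ ξ)
  have h1 := lam_ae μ s (twJo μ N χ hχ p ξ)
  have h2 := (twJ (K := K) N χ hχ p).op_ae μ ((lam μ K).U s ξ)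
  have h3 := lam_ae μ s ξ
  filter_upwards [h0, h1, h2, h3,
    Lp.coeFn_smul (χ p.1 s : ℂ) (twJo μ N χ hχ p ((lam μ K).U s ξ))] with g h0 h1 h2 h3 h4
  rw [h1, h4, Pi.smul_apply]
  change ((twJ (K := K) N χ hχ p).op μ ξ) (s⁻¹ * g)
    = (χ p.1 s : ℂ) • (((twJ (K := K) N χ hχ p).op μ ((lam μ K).U s ξ)) g)
  rw [h0, h2, h3]
  change (star (χ p.1 (s⁻¹ * g) : ℂ)) • incK N K p (ξ (s⁻¹ * g))
    = (χ p.1 s : ℂ) • ((star (χ p.1 g : ℂ)) • incK N K p (ξ (s⁻¹ * g)))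
  rw [smul_smul]
  congr 1
  rw [map_mul, map_inv, Circle.coe_mul, Circle.coe_inv, star_mul]
  have hi : star ((χ p.1 s : ℂ)⁻¹) = (χ p.1 s : ℂ) := by
    have h := circle_mul_star (χ p.1 s)
    rw [inv_eq_of_mul_eq_one_right h, star_star]
  rw [hi, mul_comm]

theorem TrAct.twist_Q_pi (b : Mat N A) (i k : Fin N) (η : Lp (MatK N K) 2 μ) :
    twQo μ N χ hχ (i, k) ((S.twist N χ hχ).pi μ b η)
      = ∑ l, S.pi μ (b i l) (twQo μ N χ hχ (l, k) η) := by
  conv_lhs => rw [← sum_twJ_twQ μ N χ hχ η, map_sum, map_sum, Fintype.sum_prod_type]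
  refine Finset.sum_congr rfl fun l _ => ?_
  rw [Finset.sum_eq_single k]
  · rw [S.twist_pi_J μ N χ hχ, map_sum, Finset.sum_eq_single i]
    · rw [twQ_twJ, if_pos rfl]
    · intro i' _ hi'
      rw [twQ_twJ, if_neg fun h => hi' (Prod.ext_iff.1 h).1.symm]
    · intro h; exact absurd (Finset.mem_univ i) h
  · intro k' _ hk'
    rw [S.twist_pi_J μ N χ hχ, map_sum]
    refine Finset.sum_eq_zero fun i' _ => ?_
    rw [twQ_twJ, if_neg fun h => hk' (Prod.ext_iff.1 h).2.symm]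
  · intro h; exact absurd (Finset.mem_univ k) h

theorem twQ_lam (s : G) (p : Fin N × Fin N) (η : Lp (MatK N K) 2 μ) :
    twQo μ N χ hχ p ((lam μ (MatK N K)).U s η)
      = (χ p.1 s : ℂ) • (lam μ K).U s (twQo μ N χ hχ p η) := by
  conv_lhs => rw [← sum_twJ_twQ μ N χ hχ η, map_sum, map_sum]
  rw [Finset.sum_eq_single p]
  · rw [twJ_lam, map_smul, twQ_twJ, if_pos rfl]
  · intro q _ hq
    rw [twJ_lam, map_smul, twQ_twJ, if_neg (Ne.symm hq), smul_zero]
  · intro h; exact absurd (Finset.mem_univ p) h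

/-- `X ⊗ 1` in the twisted coordinates, followed by a move of the column `k` to the column `j` -/
noncomputable def twTh (X : Lp K 2 μ →L[ℂ] Lp K 2 μ) (j k : Fin N) :
    Lp (MatK N K) 2 μ →L[ℂ] Lp (MatK N K) 2 μ :=
  ∑ i, (twJo μ N χ hχ (i, j)).comp (X.comp (twQo μ N χ hχ (i, k)))

theorem twTh_apply (X : Lp K 2 μ →L[ℂ] Lp K 2 μ) (j k : Fin N) (η : Lp (MatK N K) 2 μ) :
    twTh μ N χ hχ X j k η = ∑ i, twJo μ N χ hχ (i, j) (X (twQo μ N χ hχ (i, k) η)) := by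
  rw [twTh, sum_apply]
  rfl

theorem TrAct.twTh_comm_pi (X : Lp K 2 μ →L[ℂ] Lp K 2 μ) (hX : ∀ a, X * S.pi μ a = S.pi μ a * X)
    (j k : Fin N) (b : Mat N A) :
    twTh μ N χ hχ X j k * (S.twist N χ hχ).pi μ b = (S.twist N χ hχ).pi μ b * twTh μ N χ hχ X j k := by
  ext1 η
  change twTh μ N χ hχ X j k ((S.twist N χ hχ).pi μ b η)
    = (S.twist N χ hχ).pi μ b (twTh μ N χ hχ X j k η)
  rw [twTh_apply, twTh_apply, map_sum]
  have h1 : ∀ i, twJo μ N χ hχ (i, j) (X (twQo μ N χ hχ (i, k) ((S.twist N χ hχ).pi μ b η)))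
      = ∑ l, twJo μ N χ hχ (i, j) (S.pi μ (b i l) (X (twQo μ N χ hχ (l, k) η))) := by
    intro i
    rw [S.twist_Q_pi μ N χ hχ, map_sum, map_sum]
    refine Finset.sum_congr rfl fun l _ => ?_
    have h2 := congrArg (fun Y : Lp K 2 μ →L[ℂ] Lp K 2 μ => Y (twQo μ N χ hχ (l, k) η)) (hX (b i l))
    change X (S.pi μ (b i l) (twQo μ N χ hχ (l, k) η))
      = S.pi μ (b i l) (X (twQo μ N χ hχ (l, k) η)) at h2
    rw [h2]
  rw [Finset.sum_congr rfl fun i _ => h1 i, Finset.sum_comm]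
  refine Finset.sum_congr rfl fun l _ => ?_
  rw [S.twist_pi_J μ N χ hχ]

theorem twTh_comm_lam (X : Lp K 2 μ →L[ℂ] Lp K 2 μ)
    (hX : ∀ s, X * (lam μ K).U s = (lam μ K).U s * X) (j k : Fin N) (s : G) :
    twTh μ N χ hχ X j k * (lam μ (MatK N K)).U s = (lam μ (MatK N K)).U s * twTh μ N χ hχ X j k := by
  ext1 η
  change twTh μ N χ hχ X j k ((lam μ (MatK N K)).U s η)
    = (lam μ (MatK N K)).U s (twTh μ N χ hχ X j k η)
  rw [twTh_apply, twTh_apply, map_sum]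
  refine Finset.sum_congr rfl fun i _ => ?_
  have h2 := congrArg (fun Y : Lp K 2 μ →L[ℂ] Lp K 2 μ => Y (twQo μ N χ hχ (i, k) η)) (hX s)
  change X ((lam μ K).U s (twQo μ N χ hχ (i, k) η))
    = (lam μ K).U s (X (twQo μ N χ hχ (i, k) η)) at h2
  rw [twQ_lam, twJ_lam, map_smul, map_smul, h2]

/-- **the amplification twisted by characters is strictly outer** -/
theorem TrAct.SO_twist [PartialOrder (Mat N A)] [StarOrderedRing (Mat N A)]
    (hSO : S.SO μ Set.univ) : (S.twist N χ hχ).SO μ Set.univ := by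
  intro n hn hcomm
  have z0 : Fin N := ⟨0, Nat.pos_of_ne_zero (NeZero.ne N)⟩
  -- `n` commutes with the commutant
  have hTh : ∀ X : Lp K 2 μ →L[ℂ] Lp K 2 μ, (∀ a, X * S.pi μ a = S.pi μ a * X) →
      (∀ s, X * (lam μ K).U s = (lam μ K).U s * X) → ∀ (j k : Fin N) (η : Lp (MatK N K) 2 μ),
      n (twTh μ N χ hχ X j k η) = twTh μ N χ hχ X j k (n η) := by
    intro X hX1 hX2 j k η
    have h1 : twTh μ N χ hχ X j k ∈ Set.centralizer (Set.range ((S.twist N χ hχ).pi μ) ∪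
        Set.range (lam μ (MatK N K)).U) := by
      rintro _ (⟨b, rfl⟩ | ⟨s, rfl⟩)
      · exact (S.twTh_comm_pi μ N χ hχ X hX1 j k b).symm
      · exact (twTh_comm_lam μ N χ hχ X hX2 j k s).symm
    have h2 := hn _ h1
    exact (congrArg (fun Y : Lp (MatK N K) 2 μ →L[ℂ] Lp (MatK N K) 2 μ => Y η) h2).symm
  have hpi : ∀ (b : Mat N A) (η : Lp (MatK N K) 2 μ),
      n ((S.twist N χ hχ).pi μ b η) = (S.twist N χ hχ).pi μ b (n η) := fun b η =>
    congrArg (fun Y : Lp (MatK N K) 2 μ →L[ℂ] Lp (MatK N K) 2 μ => Y η) (hcomm b (Set.mem_univ _))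
  have hT1 : ∀ (j k : Fin N) (η : Lp (MatK N K) 2 μ),
      n (twTh μ N χ hχ 1 j k η) = twTh μ N χ hχ 1 j k (n η) :=
    hTh 1 (fun a => by rw [one_mul, mul_one]) (fun s => by rw [one_mul, mul_one])
  -- the corner
  obtain ⟨n1, hn1⟩ : ∃ n1 : Lp K 2 μ →L[ℂ] Lp K 2 μ, ∀ ξ,
      n1 ξ = twQo μ N χ hχ (z0, z0) (n (twJo μ N χ hχ (z0, z0) ξ)) :=
    ⟨(twQo μ N χ hχ (z0, z0)).comp (n.comp (twJo μ N χ hχ (z0, z0))), fun _ => rfl⟩
  have hThJ : ∀ (X : Lp K 2 μ →L[ℂ] Lp K 2 μ) (j k l : Fin N) (ξ : Lp K 2 μ),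
      twTh μ N χ hχ X j k (twJo μ N χ hχ (l, k) ξ) = twJo μ N χ hχ (l, j) (X ξ) := by
    intro X j k l ξ
    rw [twTh_apply, Finset.sum_eq_single l]
    · rw [twQ_twJ, if_pos rfl]
    · intro i _ hi
      rw [twQ_twJ, if_neg fun h => hi (Prod.ext_iff.1 h).1, map_zero, map_zero]
    · intro h; exact absurd (Finset.mem_univ l) h
  have hQTh : ∀ (X : Lp K 2 μ →L[ℂ] Lp K 2 μ) (j k l : Fin N) (η : Lp (MatK N K) 2 μ),
      twQo μ N χ hχ (l, j) (twTh μ N χ hχ X j k η) = X (twQo μ N χ hχ (l, k) η) := by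
    intro X j k l η
    rw [twTh_apply, map_sum, Finset.sum_eq_single l]
    · rw [twQ_twJ, if_pos rfl]
    · intro i _ hi
      rw [twQ_twJ, if_neg fun h => hi (Prod.ext_iff.1 h).1.symm]
    · intro h; exact absurd (Finset.mem_univ l) h
  have hn1X : ∀ X : Lp K 2 μ →L[ℂ] Lp K 2 μ, (∀ a, X * S.pi μ a = S.pi μ a * X) →
      (∀ s, X * (lam μ K).U s = (lam μ K).U s * X) → X * n1 = n1 * X := by
    intro X hX1 hX2
    ext1 ξ
    change X (n1 ξ) = n1 (X ξ)
    rw [hn1, hn1, ← hThJ X z0 z0 z0 ξ, hTh X hX1 hX2, hQTh]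
  have hmem : n1 ∈ Set.centralizer (Set.centralizer (Set.range (S.pi μ) ∪
      Set.range (lam μ K).U)) := by
    intro X hX
    exact hn1X X (fun a => (hX _ (Or.inl ⟨a, rfl⟩)).symm) (fun s => (hX _ (Or.inr ⟨s, rfl⟩)).symm)
  have hpJ : ∀ (b : Mat N A) (l k : Fin N) (ξ : Lp K 2 μ),
      (S.twist N χ hχ).pi μ b (twJo μ N χ hχ (l, k) ξ)
        = ∑ i, twJo μ N χ hχ (i, k) (S.pi μ (b i l) ξ) := S.twist_pi_J μ N χ hχ
  have hQp := S.twist_Q_pi μ N χ hχ
  have hpi0 : S.pi μ (0 : A) = 0 := by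
    have h := S.pi_smul μ 0 (0 : A)
    rwa [zero_smul, zero_smul] at h
  have hentJ : ∀ (i' l' l k : Fin N) (a : A) (ξ : Lp K 2 μ), l' = l →
      (S.twist N χ hχ).pi μ (ent N i' l' a) (twJo μ N χ hχ (l, k) ξ)
        = twJo μ N χ hχ (i', k) (S.pi μ a ξ) := by
    intro i' l' l k a ξ hl
    rw [hpJ, Finset.sum_eq_single i']
    · rw [ent_apply, if_pos rfl, if_pos hl.symm]
    · intro i _ hi
      rw [ent_apply, if_neg hi, hpi0]
      change twJo μ N χ hχ (i, k) 0 = 0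
      rw [map_zero]
    · intro h; exact absurd (Finset.mem_univ i') h
  have hQent : ∀ (i' l' i k : Fin N) (a : A) (η : Lp (MatK N K) 2 μ), i = i' →
      twQo μ N χ hχ (i, k) ((S.twist N χ hχ).pi μ (ent N i' l' a) η)
        = S.pi μ a (twQo μ N χ hχ (l', k) η) := by
    intro i' l' i k a η hi
    rw [hQp, Finset.sum_eq_single l']
    · rw [ent_apply, if_pos hi, if_pos rfl]
    · intro l _ hl
      rw [ent_apply, if_pos hi, if_neg hl, hpi0]
      rfl
    · intro h; exact absurd (Finset.mem_univ l') h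
  have hcomm1 : ∀ x ∈ (Set.univ : Set A), n1 * S.pi μ x = S.pi μ x * n1 := by
    intro a _
    ext1 ξ
    change n1 (S.pi μ a ξ) = S.pi μ a (n1 ξ)
    rw [hn1, hn1, ← hentJ z0 z0 z0 z0 a ξ rfl, hpi, hQent z0 z0 z0 z0 a _ rfl]
  obtain ⟨c, hc⟩ := hSO n1 hmem hcomm1
  refine ⟨c, ?_⟩
  -- `n J_00 = c J_00`
  have hJ00 : ∀ ξ, n (twJo μ N χ hχ (z0, z0) ξ) = c • twJo μ N χ hχ (z0, z0) ξ := by
    intro ξ
    have e1 : twJo μ N χ hχ (z0, z0) ξ = twTh μ N χ hχ 1 z0 z0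
        ((S.twist N χ hχ).pi μ (ent N z0 z0 1) (twJo μ N χ hχ (z0, z0) ξ)) := by
      rw [hentJ z0 z0 z0 z0 1 ξ rfl, hThJ, S.pi_one μ]
      rfl
    have e2 : ∀ η : Lp (MatK N K) 2 μ, twTh μ N χ hχ 1 z0 z0
        ((S.twist N χ hχ).pi μ (ent N z0 z0 1) η)
        = twJo μ N χ hχ (z0, z0) (twQo μ N χ hχ (z0, z0) η) := by
      intro η
      rw [twTh_apply, Finset.sum_eq_single z0]
      · rw [hQent z0 z0 z0 z0 1 η rfl, S.pi_one μ]
        rfl
      · intro i _ hi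
        have h0 : twQo μ N χ hχ (i, z0) ((S.twist N χ hχ).pi μ (ent N z0 z0 1) η) = 0 := by
          rw [hQp]
          refine Finset.sum_eq_zero fun l _ => ?_
          rw [ent_apply, if_neg hi, hpi0]
          rfl
        rw [h0, map_zero, map_zero]
      · intro h; exact absurd (Finset.mem_univ z0) h
    rw [e1, hT1, hpi, e2, ← e1, ← hn1, hc]
    change twJo μ N χ hχ (z0, z0) (c • ξ) = _
    rw [map_smul]
  have hJ : ∀ p ξ, n (twJo μ N χ hχ p ξ) = c • twJo μ N χ hχ p ξ := by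
    rintro ⟨i, j⟩ ξ
    have e1 : twJo μ N χ hχ (i, j) ξ = twTh μ N χ hχ 1 j z0
        ((S.twist N χ hχ).pi μ (ent N i z0 1) (twJo μ N χ hχ (z0, z0) ξ)) := by
      rw [hentJ i z0 z0 z0 1 ξ rfl, hThJ, S.pi_one μ]
      rfl
    rw [e1, hT1, hpi, hJ00, map_smul, map_smul]
  ext1 η
  change n η = c • η
  conv_lhs => rw [← sum_twJ_twQ μ N χ hχ η, map_sum]
  conv_rhs => rw [← sum_twJ_twQ μ N χ hχ η, Finset.smul_sum]
  exact Finset.sum_congr rfl fun p _ => hJ _ _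

end so

end Pool.Agent.AbCoc
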