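import Pool.Agent.Lib_MP_418a80_t3.Gram0

/-!
# MP_418a80_an, T3: near-eigenvectors of the one-parameter group from two packets (2241 (4))
-/

set_option autoImplicit false
set_option linter.unusedVariables false
set_option linter.unusedSectionVars false

open scoped ComplexConjugate

namespace Pool.Agent.AbCoc

universe u v w

section
variable {A : Type u} [CStarAlgebra A] {K : Type v} [NormedAddCommGroup K]
  [InnerProductSpace ℂ K] [CompleteSpace K]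
variable {G : Type w} [Group G] [TopologicalSpace G] {T : TrAlg A K} (S : TrAct G T)

theorem win_sum_shift_le (L : ℕ) (m : ℤ) (F : Finset ℤ) : ∑ j ∈ F, ‖win L (j - m)‖ ^ 2 ≤ 1 := by
  classical
  have h := win_sum_le L (F.image fun j => j - m)
  rwa [Finset.sum_image fun a _ b _ hab => by simpa using hab] at h

/-- `|y - y'|` for two pairs of packets, from the displacement of the packets -/
theorem TrAlg.py_family_le (T : TrAlg A K) {C : Type} [Fintype C] (X X' Z Z' : C → A) {δ : ℝ}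
    (hδ : 0 ≤ δ) (hX : ∑ c, ‖T.ι (X c)‖ ^ 2 ≤ 1) (hX' : ∑ c, ‖T.ι (X' c)‖ ^ 2 ≤ 1)
    (hZ : ∑ c, ‖T.ι (Z c)‖ ^ 2 ≤ 1) (hZ' : ∑ c, ‖T.ι (Z' c)‖ ^ 2 ≤ 1)
    (h : ∑ c, ‖T.ι (Z c - X c)‖ ^ 2 ≤ δ ^ 2) (h' : ∑ c, ‖T.ι (Z' c - X' c)‖ ^ 2 ≤ δ ^ 2) :
    ∑ c, ‖T.ι (py (Z c) (Z' c) - py (X c) (X' c))‖ ^ 2 ≤ 8 * δ := by
  refine (T.sum_norm_py_sub_sq_le Z Z' X X').trans ?_
  have e1 : ∑ c, (‖T.ι (Z c - X c)‖ ^ 2 + ‖T.ι (Z' c - X' c)‖ ^ 2) ≤ (2 * δ) ^ 2 := by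
    rw [Finset.sum_add_distrib]
    nlinarith [sq_nonneg δ]
  have e2 : ∑ c, (‖T.ι (Z c + X c)‖ ^ 2 + ‖T.ι (Z' c + X' c)‖ ^ 2) ≤ 4 ^ 2 := by
    have hp : ∀ x y : A, ‖T.ι (x + y)‖ ^ 2 ≤ 2 * ‖T.ι x‖ ^ 2 + 2 * ‖T.ι y‖ ^ 2 := by
      intro x y
      rw [map_add]
      have h3 := pow_le_pow_left₀ (norm_nonneg _) (norm_add_le (T.ι x) (T.ι y)) 2
      nlinarith [sq_nonneg (‖T.ι x‖ - ‖T.ι y‖)]
    have h5 : ∑ c, (‖T.ι (Z c + X c)‖ ^ 2 + ‖T.ι (Z' c + X' c)‖ ^ 2)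
        ≤ ∑ c, ((2 * ‖T.ι (Z c)‖ ^ 2 + 2 * ‖T.ι (X c)‖ ^ 2)
          + (2 * ‖T.ι (Z' c)‖ ^ 2 + 2 * ‖T.ι (X' c)‖ ^ 2)) :=
      Finset.sum_le_sum fun c _ => add_le_add (hp _ _) (hp _ _)
    refine h5.trans ?_
    simp only [Finset.sum_add_distrib, ← Finset.mul_sum]
    linarith
  have e3 : √(∑ c, (‖T.ι (Z c - X c)‖ ^ 2 + ‖T.ι (Z' c - X' c)‖ ^ 2)) ≤ 2 * δ := by
    rw [← Real.sqrt_sq (show 0 ≤ 2 * δ by positivity)]
    exact Real.sqrt_le_sqrt e1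
  have e4 : √(∑ c, (‖T.ι (Z c + X c)‖ ^ 2 + ‖T.ι (Z' c + X' c)‖ ^ 2)) ≤ 4 := by
    rw [← Real.sqrt_sq (show (0 : ℝ) ≤ 4 by norm_num)]
    exact Real.sqrt_le_sqrt e2
  calc _ ≤ (2 * δ) * 4 := mul_le_mul e3 e4 (Real.sqrt_nonneg _) (by positivity)
    _ = 8 * δ := by ring

/-- a packet of `e` and a packet of `e'` -/
theorem TrAct.pk_sub_le (R : RSec G) {F : Finset ℤ} (E : Chs ℤ F) (a : ℝ) (e e' : A)
    (he : ‖T.ι e'‖ ≤ 1) (f f' : ℤ → ℂ) (hf : ∑ j ∈ F, ‖f j‖ ^ 2 ≤ 1) {ε κ : ℝ} (hε : 0 ≤ ε)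
    (hκ : 0 ≤ κ) (h1 : ∑ j ∈ F, ‖f' j - f j‖ ^ 2 ≤ ε ^ 2) (h2 : ‖T.ι (e' - e)‖ ≤ κ) :
    ∑ c, ‖T.ι (S.pk R E a e' f' c - S.pk R E a e f c)‖ ^ 2 ≤ (ε + κ) ^ 2 := by
  have e1 : ∀ c, S.pk R E a e' f' c - S.pk R E a e f c
      = S.pk R E a e' (fun j => f' j - f j) c + S.pk R E a (e' - e) f c := by
    intro c
    have e2 : S.pk R E a (e' - e) f c = S.pk R E a e' f c - S.pk R E a e f c := by
      unfold TrAct.pk
      rw [← E.X_sub]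
      refine E.X_congr (fun j _ => ?_) c
      rw [map_sub, smul_sub]
    rw [e2, ← S.pk_sub R E f' f c]
    abel
  simp only [e1]
  have h3 := T.sqrt_sum_add_le (S.pk R E a e' fun j => f' j - f j) (S.pk R E a (e' - e) f)
  rw [S.pk_norm, S.pk_norm] at h3
  have h4 : √((∑ j ∈ F, ‖f' j - f j‖ ^ 2) * ‖T.ι e'‖ ^ 2) ≤ ε := by
    rw [← Real.sqrt_sq hε]
    refine Real.sqrt_le_sqrt ?_
    calc (∑ j ∈ F, ‖f' j - f j‖ ^ 2) * ‖T.ι e'‖ ^ 2 ≤ ε ^ 2 * 1 :=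
          mul_le_mul h1 (pow_le_one₀ (norm_nonneg _) he) (sq_nonneg _) (sq_nonneg _)
      _ = ε ^ 2 := mul_one _
  have h5 : √((∑ j ∈ F, ‖f j‖ ^ 2) * ‖T.ι (e' - e)‖ ^ 2) ≤ κ := by
    rw [← Real.sqrt_sq hκ]
    refine Real.sqrt_le_sqrt ?_
    calc (∑ j ∈ F, ‖f j‖ ^ 2) * ‖T.ι (e' - e)‖ ^ 2 ≤ 1 * κ ^ 2 :=
          mul_le_mul hf (pow_le_pow_left₀ (norm_nonneg _) h2 2) (sq_nonneg _) zero_le_one
      _ = κ ^ 2 := one_mul _
  have h6 := h3.trans (add_le_add h4 h5)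
  have h7 : (0 : ℝ) ≤ ∑ c, ‖T.ι (S.pk R E a e' (fun j => f' j - f j) c
      + S.pk R E a (e' - e) f c)‖ ^ 2 := Finset.sum_nonneg fun _ _ => sq_nonneg _
  rw [← Real.sq_sqrt h7]
  exact pow_le_pow_left₀ (Real.sqrt_nonneg _) h6 2

/-- translations of packets by arbitrary times -/
theorem TrAct.time_pk (R : RSec G) {F : Finset ℤ} (E : Chs ℤ F) (a : ℝ) (e : A) (m : ℤ) (r : ℝ)
    (f : ℤ → ℂ) (h1 : ∀ j, f j ≠ 0 → j ∈ F ∧ j + m ∈ F) (c : E.C) :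
    S.α (R.s (a * m + r)) (S.pk R E a e f c)
      = conj (E.χ c m) • S.pk R E a (S.α (R.s r) e) (fun j => f (j - m)) c := by
  have e1 : S.α (R.s r) (S.pk R E a e f c) = S.pk R E a (S.α (R.s r) e) f c := by
    unfold TrAct.pk
    rw [E.map_X]
    refine E.X_congr (fun j _ => ?_) c
    rw [map_smul, ← S.mul, ← S.mul, ← R.smul, ← R.smul, add_comm]
  rw [R.smul, S.mul, e1, S.shift_pk R E m f h1]

/-- the version for `‖ι e‖ ≤ 1`, with `‖e‖` arbitrary -/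
theorem TrAct.exists_type' (R : RSec G) {F : Finset ℤ} (E : Chs ℤ F) (b e : A) (hb : S.IsPrj b)
    (hbe : b * e = e) (heb : e * b = e) (he : ‖T.ι e‖ ≤ 1) (a : ℝ) (L M : ℕ) (hLM : L ≤ M)
    (hF : F = Finset.Icc (-(M : ℤ)) M) (q : ℝ)
    (hG : ∑ c, T.n1 (S.gr R E a e (fun j => ch (q * (a * j)) * win L j) c
      - S.gr R E a e (win L) c) ≤ ‖T.ι e‖ ^ 2 / 2) :
    ∃ y : E.C → A, (∀ c, b * y c = y c) ∧ (∀ c, y c * b = y c) ∧ T.Dm (‖e‖ ^ 2) y ∧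
      ‖T.ι e‖ ^ 2 / 8 ≤ T.ms y ∧
      (∀ (h : G) (κ : ℝ), (∀ j : ℤ, |j| ≤ (L : ℤ) →
          ‖T.ι (S.α h (S.α (R.s (a * j)) e) - S.α (R.s (a * j)) e)‖ ≤ κ) →
        ∑ c, ‖T.ι (S.α h (y c) - y c)‖ ^ 2 ≤ 8 * κ) ∧
      ∀ (m : ℤ) (r κ : ℝ), |m| + L ≤ M → ‖T.ι (S.α (R.s r) e - e)‖ ≤ κ →
        ∑ c, ‖T.ι (S.α (R.s (a * m + r)) (y c) - ch (q * (a * m)) • y c)‖ ^ 2
          ≤ 8 * (√(2 * |(m : ℝ)| / (2 * (L : ℝ) + 1)) + κ) := by
  have hιe : ‖T.ι e‖ ≤ 1 := he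
  have hιe2 : ‖T.ι e‖ ^ 2 ≤ 1 := pow_le_one₀ (norm_nonneg _) hιe
  set f : ℤ → ℂ := win L with hf
  set f' : ℤ → ℂ := fun j => ch (q * (a * j)) * win L j with hf'
  have hIcc : Finset.Icc (-(L : ℤ)) L ⊆ F := by
    rw [hF]
    exact Finset.Icc_subset_Icc (by omega) (by omega)
  have hnf : ∑ j ∈ F, ‖f j‖ ^ 2 = 1 := win_sum_eq L F hIcc
  have hnf' : ∑ j ∈ F, ‖f' j‖ ^ 2 = 1 := by
    rw [← hnf]
    refine Finset.sum_congr rfl fun j _ => ?_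
    rw [hf', norm_mul, norm_ch, one_mul]
  have hX : ∑ c, ‖T.ι (S.pk R E a e f c)‖ ^ 2 = ‖T.ι e‖ ^ 2 := by rw [S.pk_norm, hnf, one_mul]
  have hX' : ∑ c, ‖T.ι (S.pk R E a e f' c)‖ ^ 2 = ‖T.ι e‖ ^ 2 := by rw [S.pk_norm, hnf', one_mul]
  refine ⟨fun c => py (S.pk R E a e f c) (S.pk R E a e f' c), ?_, ?_, ?_, ?_, ?_, ?_⟩
  · exact fun c => (py_corner hb.star_eq (S.mul_pk R E hb.fix hbe f c)
      (S.mul_pk R E hb.fix hbe f' c)).1
  · exact fun c => (py_corner hb.star_eq (S.mul_pk R E hb.fix hbe f c)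
      (S.mul_pk R E hb.fix hbe f' c)).2
  · have hd := S.pk_dm R E (a := a) (e := e) f
    have hd' := S.pk_dm R E (a := a) (e := e) f'
    rw [hnf, one_mul] at hd
    rw [hnf', one_mul] at hd'
    constructor
    · intro z
      calc ∑ c, ‖T.ι (py (S.pk R E a e f c) (S.pk R E a e f' c) * z)‖ ^ 2
          ≤ ∑ c, ‖T.ι (star (S.pk R E a e f' c) * z)‖ ^ 2 :=
            Finset.sum_le_sum fun c _ => T.norm_py_mul_le _ _ z
        _ = ∑ c, ‖T.ι (star z * S.pk R E a e f' c)‖ ^ 2 := by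
            refine Finset.sum_congr rfl fun c _ => ?_
            rw [← T.norm_star, star_mul, star_star]
        _ ≤ ‖e‖ ^ 2 * ‖T.ι (star z)‖ ^ 2 := hd'.2 (star z)
        _ = ‖e‖ ^ 2 * ‖T.ι z‖ ^ 2 := by rw [T.norm_star]
    · intro z
      calc ∑ c, ‖T.ι (z * py (S.pk R E a e f c) (S.pk R E a e f' c))‖ ^ 2
          ≤ ∑ c, ‖T.ι (z * S.pk R E a e f c)‖ ^ 2 :=
            Finset.sum_le_sum fun c _ => T.norm_mul_py_le _ _ z
        _ ≤ ‖e‖ ^ 2 * ‖T.ι z‖ ^ 2 := hd.2 z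
  · have h1 := T.sum_py_mass (S.pk R E a e f) (S.pk R E a e f')
    rw [hX, hX'] at h1
    have h2 : ∑ c, T.n1 (star (S.pk R E a e f c) * S.pk R E a e f c
        - star (S.pk R E a e f' c) * S.pk R E a e f' c) ≤ ‖T.ι e‖ ^ 2 / 2 := by
      refine le_trans (le_of_eq ?_) hG
      refine Finset.sum_congr rfl fun c _ => ?_
      rw [T.n1_sub_comm]
      rfl
    change ‖T.ι e‖ ^ 2 / 8 ≤ ∑ c, ‖T.ι (py (S.pk R E a e f c) (S.pk R E a e f' c))‖ ^ 2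
    linarith
  · intro h κ H
    have hκ : 0 ≤ κ := (norm_nonneg _).trans (H 0 (by simp))
    have k1 : ∑ c, ‖T.ι (S.α h (S.pk R E a e f c) - S.pk R E a e f c)‖ ^ 2 ≤ κ ^ 2 := by
      have h1 := S.act_pk R E (a := a) (e := e) h f (fun _ => 1) (κ := κ) (fun j _ hj => by
        rw [one_smul]
        exact H j (win_ne hj))
      simp only [one_mul] at h1
      rwa [hnf, mul_one] at h1
    have k2 : ∑ c, ‖T.ι (S.α h (S.pk R E a e f' c) - S.pk R E a e f' c)‖ ^ 2 ≤ κ ^ 2 := by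
      have h1 := S.act_pk R E (a := a) (e := e) h f' (fun _ => 1) (κ := κ) (fun j _ hj => by
        rw [one_smul]
        exact H j (win_ne (right_ne_zero_of_mul hj)))
      simp only [one_mul] at h1
      rwa [hnf', mul_one] at h1
    simp only [map_py]
    refine T.py_family_le _ _ _ _ hκ (hX.le.trans hιe2) (hX'.le.trans hιe2) ?_ ?_ k1 k2
    · simp only [S.norm_map]
      exact hX.le.trans hιe2
    · simp only [S.norm_map]
      exact hX'.le.trans hιe2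
  · intro m r κ hm H
    have hκ : 0 ≤ κ := (norm_nonneg _).trans H
    obtain ⟨ε, hε⟩ : ∃ ε : ℝ, ε = √(2 * |(m : ℝ)| / (2 * (L : ℝ) + 1)) := ⟨_, rfl⟩
    have hε0 : 0 ≤ ε := by rw [hε]; exact Real.sqrt_nonneg _
    have hε2 : ε ^ 2 = 2 * |(m : ℝ)| / (2 * (L : ℝ) + 1) := by
      rw [hε, Real.sq_sqrt (by positivity)]
    rw [← hε]
    have hsupp : ∀ j : ℤ, |j| ≤ (L : ℤ) → j ∈ F ∧ j + m ∈ F := by
      intro j hj
      rw [hF, Finset.mem_Icc, Finset.mem_Icc]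
      have h1 := abs_le.1 hj
      have h2 := abs_le.1 (le_refl |m|)
      omega
    set e' := S.α (R.s r) e with he'
    have hιe' : ‖T.ι e'‖ ≤ 1 := by rw [he', S.norm_map]; exact hιe
    have t1 : ∀ c, S.α (R.s (a * m + r)) (S.pk R E a e f c)
        = conj (E.χ c m) • S.pk R E a e' (fun j => f (j - m)) c := fun c =>
      S.time_pk R E a e m r f (fun j hj => hsupp j (win_ne hj)) c
    have t2 : ∀ c, S.α (R.s (a * m + r)) (S.pk R E a e f' c)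
        = (conj (E.χ c m) * ch (-(q * (a * m)))) • S.pk R E a e'
          (fun j => ch (q * (a * j)) * f (j - m)) c := by
      intro c
      have e2 : S.pk R E a e' (fun j => f' (j - m)) c = ch (-(q * (a * m))) • S.pk R E a e'
          (fun j => ch (q * (a * j)) * f (j - m)) c := by
        rw [← S.pk_smul]
        refine S.pk_congr R E (fun j _ => ?_) c
        have e3 : -(q * (a * m)) + q * (a * j) = q * (a * ((j - m : ℤ) : ℝ)) := by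
          push_cast
          ring
        rw [hf', ← mul_assoc, ← ch_add, hf, e3]
      rw [S.time_pk R E a e m r f' (fun j hj => hsupp j (win_ne (right_ne_zero_of_mul hj))) c,
        ← smul_smul, ← e2]
    have hsq : ∑ j ∈ F, ‖f (j - m) - f j‖ ^ 2 ≤ ε ^ 2 := by
      rw [hε2]
      exact win_shift L m F
    have hsq' : ∑ j ∈ F, ‖ch (q * (a * j)) * f (j - m) - f' j‖ ^ 2 ≤ ε ^ 2 := by
      refine le_trans (le_of_eq ?_) hsq
      refine Finset.sum_congr rfl fun j _ => ?_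
      rw [hf', ← mul_sub, norm_mul, norm_ch, one_mul]
    have z1 : ∑ c, ‖T.ι (S.pk R E a e' (fun j => f (j - m)) c)‖ ^ 2 ≤ 1 := by
      rw [S.pk_norm]
      calc _ ≤ 1 * 1 := mul_le_mul (win_sum_shift_le L m F) (pow_le_one₀ (norm_nonneg _) hιe')
            (sq_nonneg _) zero_le_one
        _ = 1 := one_mul 1
    have z2 : ∑ c, ‖T.ι (S.pk R E a e' (fun j => ch (q * (a * j)) * f (j - m)) c)‖ ^ 2 ≤ 1 := by
      rw [S.pk_norm]
      simp only [norm_mul, norm_ch, one_mul]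
      calc _ ≤ 1 * 1 := mul_le_mul (win_sum_shift_le L m F) (pow_le_one₀ (norm_nonneg _) hιe')
            (sq_nonneg _) zero_le_one
        _ = 1 := one_mul 1
    have key := T.py_family_le (S.pk R E a e f) (S.pk R E a e f')
      (S.pk R E a e' fun j => f (j - m))
      (S.pk R E a e' fun j => ch (q * (a * j)) * f (j - m)) (δ := ε + κ) (by positivity)
      (hX.le.trans hιe2) (hX'.le.trans hιe2) z1 z2
      (S.pk_sub_le R E a e e' hιe' f (fun j => f (j - m)) hnf.le hε0 hκ hsq H)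
      (S.pk_sub_le R E a e e' hιe' f' (fun j => ch (q * (a * j)) * f (j - m)) hnf'.le hε0 hκ
        hsq' H)
    refine le_trans (le_of_eq ?_) key
    refine Finset.sum_congr rfl fun c _ => ?_
    have hχ : ‖conj (E.χ c m)‖ = 1 := by rw [RCLike.norm_conj, E.unit]
    have hχ' : ‖conj (E.χ c m) * ch (-(q * (a * m)))‖ = 1 := by
      rw [norm_mul, hχ, norm_ch, one_mul]
    have hph : conj (E.χ c m) * conj (conj (E.χ c m) * ch (-(q * (a * m))))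
        = ch (q * (a * m)) := by
      rw [map_mul, conj_ch, neg_neg, ← mul_assoc, Complex.mul_conj, Complex.normSq_eq_norm_sq, hχ]
      norm_num
    rw [map_py, t1, t2, py_phase hχ hχ', hph, ← smul_sub, map_smul, norm_smul, norm_ch, one_mul]

theorem TrAct.exists_type (R : RSec G) {F : Finset ℤ} (E : Chs ℤ F) (b e : A) (hb : S.IsPrj b)
    (hbe : b * e = e) (heb : e * b = e) (he : ‖e‖ ≤ 1) (a : ℝ) (L M : ℕ) (hLM : L ≤ M)
    (hF : F = Finset.Icc (-(M : ℤ)) M) (q : ℝ)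
    (hG : ∑ c, T.n1 (S.gr R E a e (fun j => ch (q * (a * j)) * win L j) c
      - S.gr R E a e (win L) c) ≤ ‖T.ι e‖ ^ 2 / 2) :
    ∃ y : E.C → A, (∀ c, b * y c = y c) ∧ (∀ c, y c * b = y c) ∧ T.Dm 1 y ∧
      ‖T.ι e‖ ^ 2 / 8 ≤ T.ms y ∧
      (∀ (h : G) (κ : ℝ), (∀ j : ℤ, |j| ≤ (L : ℤ) →
          ‖T.ι (S.α h (S.α (R.s (a * j)) e) - S.α (R.s (a * j)) e)‖ ≤ κ) →
        ∑ c, ‖T.ι (S.α h (y c) - y c)‖ ^ 2 ≤ 8 * κ) ∧
      ∀ (m : ℤ) (r κ : ℝ), |m| + L ≤ M → ‖T.ι (S.α (R.s r) e - e)‖ ≤ κ →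
        ∑ c, ‖T.ι (S.α (R.s (a * m + r)) (y c) - ch (q * (a * m)) • y c)‖ ^ 2
          ≤ 8 * (√(2 * |(m : ℝ)| / (2 * (L : ℝ) + 1)) + κ) := by
  obtain ⟨y, h1, h2, h3, h4, h5, h6⟩ := S.exists_type' R E b e hb hbe heb
    ((T.norm_le e).trans he) a L M hLM hF q hG
  exact ⟨y, h1, h2, h3.mono (pow_le_one₀ (norm_nonneg _) he), h4, h5, h6⟩

end

end Pool.Agent.AbCoc
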