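import Pool.Agent.Lib_MP_418a80_t3.Inv2
import Pool.Agent.Lib_MP_418a80_t3.HSG
import Pool.Agent.Lib_MP_418a80_t3.SW
import Pool.Agent.Lib_MP_418a80_t3.Type1
import Pool.Agent.Lib_MP_418a80_t3.Phase
import Pool.Agent.Lib_MP_418a80_t3.Eig
import Pool.Agent.Lib_MP_418a80_t3.CellsV
import Pool.Agent.Lib_MP_418a80_t3.Dec
import Pool.Agent.Lib_MP_418a80_t3.Prod

/-!
# MP_418a80_an, T3: the weight step, all labels are available in all corners
-/

set_option autoImplicit false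
set_option linter.unusedVariables false
set_option linter.unusedSectionVars false

open Topology Filter MeasureTheory
open scoped RealInnerProductSpace ComplexConjugate

namespace Pool.Agent.AbCoc

universe u v w z

/-- a countable base of balls -/
theorem exists_base (V : Type z) [PseudoMetricSpace V] [SecondCountableTopology V] :
    ∃ Bk : ℕ → Set V, (∀ k, IsOpen (Bk k)) ∧
      ∀ (q : V) (ρ : ℝ), 0 < ρ → ∃ k, q ∈ Bk k ∧ Bk k ⊆ Metric.ball q ρ := by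
  obtain ⟨B, hBc, hBne, hB⟩ := TopologicalSpace.exists_countable_basis V
  obtain ⟨f, hf⟩ := (hBc.insert Set.univ).exists_eq_range (Set.insert_nonempty _ _)
  refine ⟨f, fun k => ?_, fun q ρ hρ => ?_⟩
  · have h1 : f k ∈ insert Set.univ B := by rw [hf]; exact ⟨k, rfl⟩
    rcases Set.mem_insert_iff.1 h1 with h2 | h2
    · rw [h2]; exact isOpen_univ
    · exact hB.isOpen h2
  · obtain ⟨s, hs, hqs, hsb⟩ := hB.mem_nhds_iff.1 (Metric.ball_mem_nhds q hρ)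
    have h1 : s ∈ Set.range f := by rw [← hf]; exact Set.mem_insert_of_mem _ hs
    obtain ⟨k, rfl⟩ := h1
    exact ⟨k, hqs, hsb⟩

theorem exists_pos_le_all {I : Type*} [Finite I] (δ : I → ℝ) (h : ∀ i, 0 < δ i) :
    ∃ δ0 : ℝ, 0 < δ0 ∧ ∀ i, δ0 ≤ δ i := by
  rcases isEmpty_or_nonempty I with hI | hI
  · exact ⟨1, one_pos, fun i => hI.elim i⟩
  · obtain ⟨i0, hi0⟩ := Finite.exists_min δ
    exact ⟨δ i0, h i0, hi0⟩

theorem ch_two_pi (n : ℤ) : ch (n * (2 * Real.pi)) = 1 := by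
  unfold ch
  push_cast
  rw [mul_assoc]
  exact Complex.exp_int_mul_two_pi_mul_I n

/-- a proper closed subgroup of `ℝ` is annihilated by a translation -/
theorem exists_period (H : AddSubgroup ℝ) (hc : IsClosed (H : Set ℝ)) (q : ℝ) (hq : q ∉ H) :
    ∃ s0 : ℝ, 0 < s0 ∧ ∀ x ∈ H, ch (x * s0) = 1 := by
  rcases AddSubgroup.dense_or_cyclic H with h | ⟨a, ha⟩
  · exfalso
    apply hq
    have h1 : (H : Set ℝ) = Set.univ := by
      rw [← hc.closure_eq]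
      exact h.closure_eq
    rw [← SetLike.mem_coe, h1]
    exact Set.mem_univ q
  · rcases eq_or_ne a 0 with h0 | h0
    · refine ⟨1, one_pos, fun x hx => ?_⟩
      rw [ha, AddSubgroup.mem_closure_singleton] at hx
      obtain ⟨n, rfl⟩ := hx
      rw [h0, smul_zero, zero_mul, ch_zero]
    · refine ⟨2 * Real.pi / |a|, by have := Real.pi_pos; have := abs_pos.2 h0; positivity,
        fun x hx => ?_⟩
      rw [ha, AddSubgroup.mem_closure_singleton] at hx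
      obtain ⟨n, rfl⟩ := hx
      rcases lt_or_gt_of_ne h0 with h1 | h1
      · have h2 : n • a * (2 * Real.pi / |a|) = ((-n : ℤ) : ℝ) * (2 * Real.pi) := by
          rw [abs_of_neg h1, zsmul_eq_mul]
          push_cast
          field_simp
        rw [h2, ch_two_pi]
      · have h2 : n • a * (2 * Real.pi / |a|) = (n : ℝ) * (2 * Real.pi) := by
          rw [abs_of_pos h1, zsmul_eq_mul]
          field_simp
        rw [h2, ch_two_pi]

section
variable {A : Type u} [CStarAlgebra A] {K : Type v} [NormedAddCommGroup K]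
  [InnerProductSpace ℂ K] [CompleteSpace K]
variable {G : Type w} [Group G] [TopologicalSpace G] {T : TrAlg A K} (S : TrAct G T)
  {U : Type z} [NormedAddCommGroup U] [NormedSpace ℝ U] [FiniteDimensional ℝ U]

theorem TrAct.exists_reg (R : RSec G) (e : A) (η : ℝ) (hη : 0 < η) :
    ∃ a1 : ℝ, 0 < a1 ∧ ∀ r : ℝ, |r| ≤ a1 → ‖T.ι (S.α (R.s r) e - e)‖ ≤ η := by
  have hc : Continuous fun r : ℝ => ‖T.ι (S.α (R.s r) e) - T.ι e‖ :=
    (((S.cont e).comp R.hs).sub continuous_const).norm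
  have h0 : ‖T.ι (S.α (R.s 0) e) - T.ι e‖ = 0 := by
    have hs00 : R.s 0 = 1 := by
      have := R.smul 0 0
      rw [add_zero] at this
      exact (mul_eq_left.1 this.symm)
    rw [hs00, S.one, sub_self, norm_zero]
  have h1 := hc.tendsto 0
  rw [h0] at h1
  obtain ⟨d, hd, h3⟩ := (Metric.tendsto_nhds_nhds.1 h1) η hη
  refine ⟨d / 2, by positivity, fun r hr => ?_⟩
  have h4 := h3 (x := r) (by rw [Real.dist_eq, sub_zero]; linarith)
  rw [Real.dist_eq, sub_zero, abs_of_nonneg (norm_nonneg _)] at h4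
  rw [map_sub]
  exact h4.le

/-- the core of the weight step: in the corner `b` the periodic lemma holds at all relevant
precisions, hence all labels are available in `b` -/
theorem TrAct.labA_of_perAt [IsTopologicalGroup G] (W : WtData G U) (χ : U →L[ℝ] ℝ) (hχ : χ ≠ 0)
    (q ρ : ℝ) (hρ : 0 < ρ) (s0 : ℝ) (hs0 : 0 < s0) :
    ∃ ε δ : ℝ, 0 < ε ∧ 0 < δ ∧ ∀ b : A, S.IsPrj b → S.PerAt W.R b s0 ε δ →
      (∃ c : ℝ, 0 < c ∧ ∀ (T0 : ℝ) (D : Set G), IsCompact D → ∀ κ : ℝ, 0 < κ → ∀ Λ : Set U,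
        IsCompact Λ → ∃ (e : A) (β : U → G), S.PElt W.R (W.ph χ) b T0 D κ Λ e β ∧
          c ≤ ‖T.ι e‖ ^ 2) →
      ∃ C c : ℝ, 0 < c ∧ ∀ D : Set G, IsCompact D → ∀ κ : ℝ, 0 < κ →
        ∃ (J : Type) (_ : Fintype J) (y : J → A), (∀ j, b * y j = y j) ∧ (∀ j, y j * b = y j) ∧
          T.Dm C y ∧ c ≤ T.ms y ∧
          (∀ h ∈ D, W.R.p h = 0 → ∑ j, ‖T.ι (S.α h (y j) - y j)‖ ^ 2 ≤ κ) ∧
          (∀ t, |t| ≤ 2 / ρ →
            ∑ j, ‖T.ι (S.α (W.R.s t) (y j) - ch (q * t) • y j)‖ ^ 2 ≤ T.ms y / 16) := by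
  classical
  obtain ⟨T1, hT1⟩ : ∃ T1 : ℝ, T1 = 2 / ρ := ⟨_, rfl⟩
  have hT10 : 0 < T1 := by rw [hT1]; positivity
  rw [← hT1]
  obtain ⟨T0, hT0⟩ : ∃ T0 : ℝ, T0 = 4 * 8192 ^ 2 * T1 := ⟨_, rfl⟩
  have hT00 : 0 < T0 := by rw [hT0]; positivity
  -- the phases
  obtain ⟨n, k, h, hsw⟩ := sw_phases W.ρ W.hρ W.ρ_add W.ρ_zero W.ρ_fix χ hχ T0
    (fun t => ch (q * t)) (continuous_ch.comp (continuous_const.mul continuous_id)) (1 / 32)
    (by norm_num)
  obtain ⟨N, hN0, hN⟩ : ∃ N : ℕ, 0 < N ∧ 2 * (∑ i, ‖h i‖) / (N : ℝ) ≤ 1 / 16 := by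
    obtain ⟨N, hN⟩ := exists_nat_gt (32 * ∑ i, ‖h i‖)
    refine ⟨N + 1, Nat.succ_pos _, ?_⟩
    have h1 : (0 : ℝ) < ((N + 1 : ℕ) : ℝ) := by positivity
    rw [div_le_iff₀ h1]
    push_cast
    linarith
  obtain ⟨φs, hφs⟩ : ∃ φs : Bool → ℝ → ℂ, ∀ x t, φs x t = if x then ch (q * t) else 1 :=
    ⟨_, fun _ _ => rfl⟩
  have hφt : ∀ t, φs true t = ch (q * t) := fun t => by rw [hφs]; rfl
  have hφf : ∀ t, φs false t = 1 := fun t => by rw [hφs]; rfl
  have hφc : ∀ x, Continuous (φs x) := by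
    intro x
    cases x
    · rw [funext hφf]; exact continuous_const
    · rw [funext hφt]; exact continuous_ch.comp (continuous_const.mul continuous_id)
  have hφn : ∀ x t, ‖φs x t‖ = 1 := by
    intro x t
    cases x
    · rw [hφf, norm_one]
    · rw [hφt, norm_ch]
  obtain ⟨lm, hlm⟩ : ∃ lm : (Fin n → Fin N) → U, ∀ m, lm m = ∑ i, (m i : ℕ) • k i :=
    ⟨_, fun _ => rfl⟩
  choose δ hδ hinv using fun i : (Fin n → Fin N) × Bool =>
    S.gram_inv W χ s0 T0 (1 / 16) hs0 hT00 (by norm_num) (φs i.2) (hφc i.2) (hφn i.2) (lm i.1)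
  obtain ⟨δ0, hδ0, hδle⟩ := exists_pos_le_all δ hδ
  refine ⟨(1 / 16 / 80) ^ 2, δ0, by positivity, hδ0, fun b hb hper hph => ?_⟩
  obtain ⟨c, hc, hph⟩ := hph
  choose D1 κ1 l1 hD1 hκ1 hinv using fun i : (Fin n → Fin N) × Bool =>
    hinv i b hb (hper.mono (hδle i)) (1 / c)
  obtain ⟨κ0, hκ0, hκle⟩ := exists_pos_le_all κ1 hκ1
  have hD1c : IsCompact (⋃ i, D1 i) := isCompact_iUnion hD1
  have hΛ : IsCompact (Set.range l1) := (Set.finite_range l1).isCompact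
  refine ⟨1 / c, 1 / 8, by norm_num, fun D hD κ hκ => ?_⟩
  obtain ⟨κ2, hκ2⟩ : ∃ κ2 : ℝ, κ2 = min κ0 (κ / 8) := ⟨_, rfl⟩
  have hκ20 : 0 < κ2 := by rw [hκ2]; exact lt_min hκ0 (by positivity)
  have hsc : 0 < √c := Real.sqrt_pos.2 hc
  obtain ⟨e0, β, he0, hce0⟩ := hph (T0 + s0) (D ∪ ⋃ i, D1 i) (hD.union hD1c) (κ2 * √c)
    (by positivity) (Set.range l1) hΛ
  have he := he0.normalise hc hce0
  rw [mul_div_cancel_right₀ _ hsc.ne'] at he
  obtain ⟨e, heq⟩ : ∃ e : A, e = ((‖T.ι e0‖⁻¹ : ℝ) : ℂ) • e0 := ⟨_, rfl⟩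
  rw [← heq] at he
  choose a0 ha0 hinv using fun i : (Fin n → Fin N) × Bool =>
    hinv i e β (he.mono le_rfl
      ((Set.subset_iUnion D1 i).trans Set.subset_union_right)
      ((show κ2 ≤ κ0 by rw [hκ2]; exact min_le_left _ _).trans (hκle i))
      (Set.singleton_subset_iff.2 ⟨i, rfl⟩))
  obtain ⟨a1, ha1, ha1le⟩ := exists_pos_le_all a0 ha0
  obtain ⟨a2, ha2, hreg⟩ := S.exists_reg W.R e (1 / 8192) (by norm_num)
  -- the mesh
  obtain ⟨a3, ha3⟩ : ∃ a3 : ℝ, a3 = min (min a1 a2) (min T1 (1 / (8 * (|q| + 1)))) := ⟨_, rfl⟩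
  have hq1 : 0 < |q| + 1 := by positivity
  have ha30 : 0 < a3 := by
    rw [ha3]
    exact lt_min (lt_min ha1 ha2) (lt_min hT10 (by positivity))
  obtain ⟨m0, hm0⟩ := exists_nat_gt (s0 / a3)
  have hm0r : (0 : ℝ) < m0 := (by positivity : 0 < s0 / a3).trans hm0
  have hm0n : 0 < m0 := by exact_mod_cast hm0r
  obtain ⟨a, haeq⟩ : ∃ a : ℝ, a = s0 / m0 := ⟨_, rfl⟩
  have hapos : 0 < a := by rw [haeq]; positivity
  have haa3 : a ≤ a3 := by
    rw [haeq, div_le_iff₀ hm0r]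
    rw [div_lt_iff₀ ha30] at hm0
    linarith
  have haa1 : a ≤ a1 := by
    rw [ha3] at haa3
    exact haa3.trans ((min_le_left _ _).trans (min_le_left _ _))
  have haa2 : a ≤ a2 := by
    rw [ha3] at haa3
    exact haa3.trans ((min_le_left _ _).trans (min_le_right _ _))
  have haT1 : a ≤ T1 := by
    rw [ha3] at haa3
    exact haa3.trans ((min_le_right _ _).trans (min_le_left _ _))
  have haq : |q| * a ≤ 1 / 8 := by
    have h1 : a ≤ 1 / (8 * (|q| + 1)) := by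
      rw [ha3] at haa3
      exact haa3.trans ((min_le_right _ _).trans (min_le_right _ _))
    rw [le_div_iff₀ (by positivity)] at h1
    nlinarith [abs_nonneg q]
  obtain ⟨L, hL⟩ : ∃ L : ℕ, L = ⌊T0 / a⌋₊ := ⟨_, rfl⟩
  have hL1 : a * L ≤ T0 := by
    have h1 : (L : ℝ) ≤ T0 / a := by rw [hL]; exact Nat.floor_le (by positivity)
    rw [le_div_iff₀ hapos] at h1
    linarith
  have hL2 : T0 < a * (L + 1) := by
    have h1 : T0 / a < (L : ℝ) + 1 := by rw [hL]; exact Nat.lt_floor_add_one _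
    rw [div_lt_iff₀ hapos] at h1
    linarith
  obtain ⟨M1, hM1⟩ := exists_nat_gt (T1 / a)
  obtain ⟨M, hM⟩ : ∃ M : ℕ, M = L + m0 + 1 + (M1 + 1) := ⟨_, rfl⟩
  obtain ⟨E⟩ := exists_chs_int (Finset.Icc (-(M : ℤ)) M)
  have hιe : ‖T.ι e‖ = 1 := he.nrm
  -- the phase `ch (q t)`
  have hG : ∑ c, T.n1 (S.gr W.R E a e (fun j => ch (q * (a * j)) * win L j) c
      - S.gr W.R E a e (win L) c) ≤ ‖T.ι e‖ ^ 2 / 2 := by
    have key := S.hs_gram W.R E a e (fun l j => W.ph χ l (a * j))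
      (fun l m j => W.ph_add χ l m _) (fun l j => W.norm_ph χ l _) (win L)
      (fun j => ch (q * (a * j))) (win_sum_le L _) (fun j => norm_ch _) n k h (1 / 32)
      (by norm_num) (fun j _ hj => ?_) N hN0 (1 / 16) (fun m hm => ?_)
    · rw [hιe] at key ⊢
      have h1 : 2 * (1 : ℝ) ^ 2 * (∑ i, ‖h i‖) / (N : ℝ) = 2 * (∑ i, ‖h i‖) / (N : ℝ) := by ring
      rw [h1] at key
      linarith
    · have h1 : |(j : ℝ)| ≤ L := by
        have := win_ne hj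
        exact_mod_cast this
      refine hsw (a * j) ?_
      rw [abs_mul, abs_of_pos hapos]
      exact (mul_le_mul_of_nonneg_left h1 hapos.le).trans hL1
    · have hmL : L + m0 + 1 ≤ M := by omega
      have hsum : lm (fun i => ⟨m i, hm i⟩) = ∑ i, m i • k i := hlm _
      have h1 := hinv (fun i => ⟨m i, hm i⟩, false) m0 L M hm0n
        (by rw [← haeq]; exact haa1.trans (ha1le _)) (by rw [← haeq]; exact hL1)
        (by rw [← haeq]; exact hL2) hmL E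
      have h2 := hinv (fun i => ⟨m i, hm i⟩, true) m0 L M hm0n
        (by rw [← haeq]; exact haa1.trans (ha1le _)) (by rw [← haeq]; exact hL1)
        (by rw [← haeq]; exact hL2) hmL E
      rw [← haeq] at h1 h2
      simp only [hφf, one_mul, hsum] at h1
      simp only [hφt, hsum] at h2
      exact ⟨h1, h2⟩
  obtain ⟨y, hy1, hy2, hy3, hy4, hy5, hy6⟩ := S.exists_type' W.R E b e hb he.lft he.rgt hιe.le a L M
    (by omega) rfl q hG
  rw [hιe] at hy4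
  refine ⟨E.C, E.fin, y, hy1, hy2, hy3.mono he.op, by linarith, fun x hx hp => ?_, fun t ht => ?_⟩
  · have h1 := hy5 x κ2 fun j hj => ?_
    · have h2 : κ2 ≤ κ / 8 := by rw [hκ2]; exact min_le_right _ _
      exact h1.trans (by linarith)
    · refine he.nearH x (Or.inl hx) hp _ ?_
      have h2 : |(j : ℝ)| ≤ L := by exact_mod_cast hj
      rw [abs_mul, abs_of_pos hapos]
      exact (mul_le_mul_of_nonneg_left h2 hapos.le).trans (hL1.trans (by linarith))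
  · obtain ⟨m, hm⟩ : ∃ m : ℤ, m = ⌊t / a⌋ := ⟨_, rfl⟩
    obtain ⟨r, hr⟩ : ∃ r : ℝ, r = t - a * m := ⟨_, rfl⟩
    have h1 : (m : ℝ) ≤ t / a := by rw [hm]; exact Int.floor_le _
    have h2 : t / a < m + 1 := by rw [hm]; exact Int.lt_floor_add_one _
    have h3 : a * m ≤ t := by
      rw [le_div_iff₀ hapos] at h1
      linarith
    have h4 : t < a * m + a := by
      rw [div_lt_iff₀ hapos] at h2
      linarith
    have hr0 : 0 ≤ r := by rw [hr]; linarith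
    have hra : r ≤ a := by rw [hr]; linarith
    have ht' := abs_le.1 ht
    have htr : t = a * m + r := by rw [hr]; ring
    have ham : a * |(m : ℝ)| ≤ T1 + a := by
      rw [show a * |(m : ℝ)| = |a * m| by rw [abs_mul, abs_of_pos hapos], abs_le]
      constructor <;> linarith
    have hmM : |m| + (L : ℤ) ≤ (M : ℤ) := by
      have h5 : a * |(m : ℝ)| < a * (M1 + 1) := by
        rw [div_lt_iff₀ hapos] at hM1
        linarith
      have h6 : |(m : ℝ)| < (M1 : ℝ) + 1 := lt_of_mul_lt_mul_left h5 hapos.le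
      have h7 : |m| < (M1 : ℤ) + 1 := by exact_mod_cast h6
      omega
    have hreg' := hreg r (by rw [abs_of_nonneg hr0]; exact hra.trans haa2)
    have h5 := hy6 m r (1 / 8192) hmM hreg'
    rw [← htr] at h5
    have h6 : 2 * |(m : ℝ)| / (2 * (L : ℝ) + 1) ≤ (1 / 8192) ^ 2 := by
      rw [div_le_iff₀ (by positivity)]
      have h7 : T0 ≤ a * (2 * (L : ℝ) + 1) := by
        have : a * ((L : ℝ) + 1) ≤ a * (2 * (L : ℝ) + 1) :=
          mul_le_mul_of_nonneg_left (by linarith [Nat.cast_nonneg (α := ℝ) L]) hapos.le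
        linarith
      have h8 : a * (2 * |(m : ℝ)|) ≤ a * ((1 / 8192) ^ 2 * (2 * (L : ℝ) + 1)) := by
        calc a * (2 * |(m : ℝ)|) = 2 * (a * |(m : ℝ)|) := by ring
          _ ≤ 4 * T1 := by linarith
          _ = (1 / 8192) ^ 2 * T0 := by rw [hT0]; ring
          _ ≤ (1 / 8192) ^ 2 * (a * (2 * (L : ℝ) + 1)) :=
              mul_le_mul_of_nonneg_left h7 (by positivity)
          _ = a * ((1 / 8192) ^ 2 * (2 * (L : ℝ) + 1)) := by ring
      exact le_of_mul_le_mul_left h8 hapos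
    have h7 : √(2 * |(m : ℝ)| / (2 * (L : ℝ) + 1)) ≤ 1 / 8192 := by
      rw [← Real.sqrt_sq (show (0 : ℝ) ≤ 1 / 8192 by norm_num)]
      exact Real.sqrt_le_sqrt h6
    have h8 : ∑ c, ‖T.ι (S.α (W.R.s t) (y c) - ch (q * (a * m)) • y c)‖ ^ 2 ≤ 1 / 512 := by
      linarith
    -- from `ch (q a m)` to `ch (q t)`
    have h9 : ∀ c, ‖T.ι (S.α (W.R.s t) (y c) - ch (q * t) • y c)‖ ^ 2
        ≤ 2 * ‖T.ι (S.α (W.R.s t) (y c) - ch (q * (a * m)) • y c)‖ ^ 2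
          + 1 / 32 * ‖T.ι (y c)‖ ^ 2 := by
      intro c
      have e1 : S.α (W.R.s t) (y c) - ch (q * t) • y c
          = (S.α (W.R.s t) (y c) - ch (q * (a * m)) • y c)
            + (ch (q * (a * m)) - ch (q * t)) • y c := by
        rw [sub_smul]
        abel
      have e2 : ‖T.ι ((ch (q * (a * m)) - ch (q * t)) • y c)‖ ≤ 1 / 8 * ‖T.ι (y c)‖ := by
        rw [map_smul, norm_smul]
        refine mul_le_mul_of_nonneg_right ?_ (norm_nonneg _)
        refine (norm_ch_sub_ch_le _ _).trans ?_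
        have e3 : q * (a * m) - q * t = -(q * r) := by rw [hr]; ring
        rw [e3, abs_neg, abs_mul, abs_of_nonneg hr0]
        exact (mul_le_mul_of_nonneg_left hra (abs_nonneg q)).trans haq
      rw [e1, map_add]
      have e3 := norm_add_le (T.ι (S.α (W.R.s t) (y c) - ch (q * (a * m)) • y c))
        (T.ι ((ch (q * (a * m)) - ch (q * t)) • y c))
      have e4 := e3.trans (add_le_add le_rfl e2)
      have e5 := pow_le_pow_left₀ (norm_nonneg _) e4 2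
      refine e5.trans ?_
      nlinarith [sq_nonneg (‖T.ι (S.α (W.R.s t) (y c) - ch (q * (a * m)) • y c)‖
        - 1 / 8 * ‖T.ι (y c)‖)]
    have h10 := Finset.sum_le_sum fun c (_ : c ∈ Finset.univ) => h9 c
    rw [Finset.sum_add_distrib, ← Finset.mul_sum, ← Finset.mul_sum] at h10
    have h11 : ∑ c, ‖T.ι (y c)‖ ^ 2 = T.ms y := rfl
    rw [h11] at h10
    refine h10.trans ?_
    linarith

/-- the weight step: all labels are available in all corners -/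
theorem TrAct.labA_of_wt [IsTopologicalGroup G] (W : WtData G U) (χ : U →L[ℝ] ℝ) (hχ : χ ≠ 0)
    (hperiodic : ∀ (Bk : ℕ → Set ℝ) (bs : ℕ → A), S.Dec (pch W.R.p) Bk bs → (∀ k, IsOpen (Bk k)) →
      ∀ s0 : ℝ, (∀ q ∈ S.SF (pch W.R.p) Bk bs, ch (q * s0) = 1) → ∀ ε δ : ℝ, 0 < ε → 0 < δ →
        ∃ n0 : ℕ, ∀ n, n0 ≤ n → S.PerAt W.R (bs n) s0 ε δ)
    (hE : ∀ b : A, S.IsPrj b → b ≠ 0 → ∃ c : ℝ, 0 < c ∧ ∀ (r : ℝ) (D : Set G), IsCompact D →
      ∀ κ : ℝ, 0 < κ → ∃ e : A, b * e = e ∧ e * b = e ∧ ‖e‖ ≤ 1 ∧ c ≤ ‖T.ι e‖ ^ 2 ∧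
        ∀ h ∈ D, W.R.p h = 0 → ‖T.ι (S.α h e - ch (r * χ (W.ξ h)) • e)‖ ≤ κ)
    (q ρ : ℝ) (hρ : 0 < ρ) (b : A) (hb : S.IsPrj b) (h0 : b ≠ 0) :
    S.LabA (pch W.R.p) (Metric.ball q ρ) b := by
  by_contra hn
  obtain ⟨Bk, hBk, hbase⟩ := exists_base ℝ
  obtain ⟨bs, hdec, hbs0⟩ := S.exists_dec (pch W.R.p) Bk b hb h0
  have hno : ∀ n, ¬ S.LabA (pch W.R.p) (Metric.ball q ρ) (bs n) := by
    intro n h1
    refine hn (h1.of_le hb.star_eq (hdec.prj n).star_eq ?_)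
    rw [← hbs0]
    exact hdec.le_of_le (Nat.zero_le n)
  obtain ⟨H, hH⟩ := TrAct.Dec.exists_subgroup S hdec hBk hbase fun B1 B2 b' hb' =>
    S.hlabA_add B1 B2 b' hb'
  have hcl : IsClosed (H : Set ℝ) := by
    rw [hH]
    exact TrAct.Dec.isClosed_SF S hdec hBk
  have hq : q ∉ H := by
    intro h1
    rw [← SetLike.mem_coe, hH, TrAct.Dec.mem_SF_iff S hdec hBk hbase] at h1
    obtain ⟨n, h2⟩ := h1 ρ hρ
    exact hno n (h2.labA (hdec.prj n) (hdec.ne n))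
  obtain ⟨s0, hs0, hper⟩ := exists_period H hcl q hq
  obtain ⟨ε, δ, hε, hδ, hcore⟩ := S.labA_of_perAt W χ hχ q ρ hρ s0 hs0
  obtain ⟨n0, hn0⟩ := hperiodic Bk bs hdec hBk s0
    (fun x hx => hper x (by rw [← SetLike.mem_coe, hH]; exact hx)) ε δ hε hδ
  refine hno n0 (TrAct.labA_of_prec_cells S W.R ?_ (bs n0) (hdec.prj n0).fix q ρ hρ
    (hcore (bs n0) (hdec.prj n0) (hn0 n0 le_rfl)
      (S.exists_phase W χ (bs n0) (hdec.prj n0) (hE (bs n0) (hdec.prj n0) (hdec.ne n0)))))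
  intro D hD κ C hκ
  exact S.exists_cells W.R.p W.R.hp W.R.pmul W.R.s W.R.hs W.R.ps D hD κ C hκ

theorem TrAct.hlabA_of_wt [IsTopologicalGroup G] (W : WtData G U) (χ : U →L[ℝ] ℝ) (hχ : χ ≠ 0)
    (hperiodic : ∀ (Bk : ℕ → Set ℝ) (bs : ℕ → A), S.Dec (pch W.R.p) Bk bs → (∀ k, IsOpen (Bk k)) →
      ∀ s0 : ℝ, (∀ q ∈ S.SF (pch W.R.p) Bk bs, ch (q * s0) = 1) → ∀ ε δ : ℝ, 0 < ε → 0 < δ →
        ∃ n0 : ℕ, ∀ n, n0 ≤ n → S.PerAt W.R (bs n) s0 ε δ)
    (hE : ∀ b : A, S.IsPrj b → b ≠ 0 → ∃ c : ℝ, 0 < c ∧ ∀ (r : ℝ) (D : Set G), IsCompact D →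
      ∀ κ : ℝ, 0 < κ → ∃ e : A, b * e = e ∧ e * b = e ∧ ‖e‖ ≤ 1 ∧ c ≤ ‖T.ι e‖ ^ 2 ∧
        ∀ h ∈ D, W.R.p h = 0 → ‖T.ι (S.α h e - ch (r * χ (W.ξ h)) • e)‖ ≤ κ)
    (q ρ : ℝ) (hρ : 0 < ρ) (b : A) : S.HLabA (pch W.R.p) (Metric.ball q ρ) b :=
  fun b' hb' h0 _ => S.labA_of_wt W χ hχ hperiodic hE q ρ hρ b' hb' h0

end

end Pool.Agent.AbCoc
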