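import Mathlib

/-!
# Real functions for the weight step

`wx μ p = log((1-p)/p)/(2μ)`, so that `p = (1 + D²)⁻¹` gives `wx μ p = log|D|/μ`;
`wh a p = p/(p + a²(1-p))` is `(1 + a²D²)⁻¹`.
-/

set_option autoImplicit false
set_option linter.unusedVariables false

open Set

namespace Pool.Agent.AbCoc

/-- the tent function -/
noncomputable def wtent (u : ℝ) : ℝ := max 0 (1 - |u|)

theorem wtent_nonneg (u : ℝ) : 0 ≤ wtent u := le_max_left _ _

theorem wtent_le_one (u : ℝ) : wtent u ≤ 1 :=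
  max_le zero_le_one (by linarith [abs_nonneg u])

theorem wtent_lip (u v : ℝ) : |wtent u - wtent v| ≤ |u - v| := by
  unfold wtent
  have h1 := abs_max_sub_max_le_abs (1 - |u|) (1 - |v|) (0 : ℝ)
  rw [max_comm (1 - |u|) 0, max_comm (1 - |v|) 0] at h1
  refine h1.trans ?_
  have e : 1 - |u| - (1 - |v|) = -(|u| - |v|) := by ring
  rw [e, abs_neg]
  exact abs_abs_sub_abs_le_abs_sub u v

theorem continuous_wtent : Continuous wtent := by
  unfold wtent
  fun_prop

theorem wtent_eq_zero {u : ℝ} (h : 1 ≤ |u|) : wtent u = 0 := by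
  unfold wtent
  exact max_eq_left (by linarith)

theorem wtent_half {u : ℝ} (h : |u| ≤ 1 / 2) : 1 / 2 ≤ wtent u := by
  unfold wtent
  exact le_max_of_le_right (by linarith)

/-- the logarithmic coordinate -/
noncomputable def wx (μ p : ℝ) : ℝ := Real.log ((1 - p) / p) / (2 * μ)

/-- the action of dilations in the coordinate `p` -/
noncomputable def wh (a p : ℝ) : ℝ := p / (p + a ^ 2 * (1 - p))

theorem wh_den_pos {a p : ℝ} (ha : a ≠ 0) (h0 : 0 ≤ p) (h1 : p ≤ 1) :
    0 < p + a ^ 2 * (1 - p) := by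
  have ha2 : 0 < a ^ 2 := by positivity
  rcases h0.lt_or_eq with h | h
  · have : 0 ≤ a ^ 2 * (1 - p) := mul_nonneg ha2.le (by linarith)
    linarith
  · rw [← h]
    linarith

theorem wh_mem {a p : ℝ} (ha : a ≠ 0) (h0 : 0 ≤ p) (h1 : p ≤ 1) : wh a p ∈ Icc (0 : ℝ) 1 := by
  have hd := wh_den_pos ha h0 h1
  constructor
  · exact div_nonneg h0 hd.le
  · rw [wh, div_le_one hd]
    have : 0 ≤ a ^ 2 * (1 - p) := mul_nonneg (sq_nonneg a) (by linarith)
    linarith

theorem wh_pos {a p : ℝ} (ha : a ≠ 0) (h0 : 0 < p) (h1 : p < 1) : 0 < wh a p :=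
  div_pos h0 (wh_den_pos ha h0.le h1.le)

theorem one_sub_wh {a p : ℝ} (ha : a ≠ 0) (h0 : 0 ≤ p) (h1 : p ≤ 1) :
    1 - wh a p = a ^ 2 * (1 - p) / (p + a ^ 2 * (1 - p)) := by
  have hd := wh_den_pos ha h0 h1
  rw [wh]
  field_simp
  ring

theorem wh_ratio {a p : ℝ} (ha : a ≠ 0) (h0 : 0 < p) (h1 : p < 1) :
    (1 - wh a p) / wh a p = a ^ 2 * ((1 - p) / p) := by
  have hd := wh_den_pos ha h0.le h1.le
  rw [one_sub_wh ha h0.le h1.le, wh]
  field_simp

theorem wh_lt_one {a p : ℝ} (ha : a ≠ 0) (h0 : 0 < p) (h1 : p < 1) : wh a p < 1 := by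
  have h2 := wh_ratio ha h0 h1
  have h3 : 0 < a ^ 2 * ((1 - p) / p) := by
    have : 0 < (1 - p) / p := div_pos (by linarith) h0
    positivity
  rw [← h2] at h3
  have h4 := wh_pos ha h0 h1
  have h5 := mul_pos h3 h4
  rw [div_mul_cancel₀ _ h4.ne'] at h5
  linarith

theorem wx_wh {μ : ℝ} (hμ : μ ≠ 0) (s : ℝ) {p : ℝ} (h0 : 0 < p) (h1 : p < 1) :
    wx μ (wh (Real.exp (μ * s)) p) = wx μ p + s := by
  have ha : Real.exp (μ * s) ≠ 0 := (Real.exp_pos _).ne'
  unfold wx
  rw [wh_ratio ha h0 h1, Real.log_mul (by positivity)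
    (div_pos (by linarith) h0).ne', Real.log_pow, Real.log_exp]
  field_simp
  push_cast
  ring

/-- the ends of the band -/
noncomputable def wlo (μ R : ℝ) : ℝ := 1 / (1 + Real.exp (2 * |μ| * R))
noncomputable def whi (μ R : ℝ) : ℝ := 1 / (1 + Real.exp (-(2 * |μ| * R)))
noncomputable def wclip (μ R p : ℝ) : ℝ := max (wlo μ R) (min p (whi μ R))

theorem wlo_pos (μ R : ℝ) : 0 < wlo μ R := by unfold wlo; positivity

theorem whi_lt_one (μ R : ℝ) : whi μ R < 1 := by
  unfold whi
  rw [div_lt_one (by positivity)]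
  linarith [Real.exp_pos (-(2 * |μ| * R))]

theorem wlo_lt_one (μ R : ℝ) : wlo μ R < 1 := by
  unfold wlo
  rw [div_lt_one (by positivity)]
  linarith [Real.exp_pos (2 * |μ| * R)]

theorem wclip_mem (μ R p : ℝ) : 0 < wclip μ R p ∧ wclip μ R p < 1 :=
  ⟨lt_of_lt_of_le (wlo_pos μ R) (le_max_left _ _),
    max_lt (wlo_lt_one μ R) (lt_of_le_of_lt (min_le_right _ _) (whi_lt_one μ R))⟩

theorem ratio_wlo (μ R : ℝ) : (1 - wlo μ R) / wlo μ R = Real.exp (2 * |μ| * R) := by
  unfold wlo
  have := Real.exp_pos (2 * |μ| * R)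
  field_simp
  ring

theorem ratio_whi (μ R : ℝ) : (1 - whi μ R) / whi μ R = Real.exp (-(2 * |μ| * R)) := by
  unfold whi
  have := Real.exp_pos (-(2 * |μ| * R))
  field_simp
  ring

theorem abs_wx_wlo {μ : ℝ} (hμ : μ ≠ 0) {R : ℝ} (hR : 0 < R) : |wx μ (wlo μ R)| = R := by
  unfold wx
  rw [ratio_wlo, Real.log_exp, abs_div, abs_mul 2 μ, abs_of_pos (show (0 : ℝ) < 2 by norm_num),
    abs_of_nonneg (by positivity)]
  have := abs_pos.2 hμ
  field_simp

theorem abs_wx_whi {μ : ℝ} (hμ : μ ≠ 0) {R : ℝ} (hR : 0 < R) : |wx μ (whi μ R)| = R := by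
  unfold wx
  rw [ratio_whi, Real.log_exp, abs_div, abs_mul 2 μ, abs_of_pos (show (0 : ℝ) < 2 by norm_num),
    abs_neg, abs_of_nonneg (by positivity)]
  have := abs_pos.2 hμ
  field_simp

theorem wx_lt_wlo {μ : ℝ} (hμ : μ ≠ 0) {R : ℝ} (hR : 0 < R) {p : ℝ} (h0 : 0 < p)
    (h : p < wlo μ R) : R ≤ |wx μ p| := by
  have h2 : Real.exp (2 * |μ| * R) ≤ (1 - p) / p := by
    rw [← ratio_wlo]
    have := wlo_pos μ R
    rw [div_le_div_iff₀ this h0]
    nlinarith
  have h3 : 2 * |μ| * R ≤ Real.log ((1 - p) / p) :=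
    (Real.le_log_iff_exp_le (lt_of_lt_of_le (Real.exp_pos _) h2)).2 h2
  have hm := abs_pos.2 hμ
  unfold wx
  rw [abs_div, abs_mul 2 μ, abs_of_pos (show (0 : ℝ) < 2 by norm_num), le_div_iff₀ (by positivity)]
  refine le_trans ?_ (le_abs_self _)
  linarith

theorem wx_gt_whi {μ : ℝ} (hμ : μ ≠ 0) {R : ℝ} (hR : 0 < R) {p : ℝ} (h1 : p < 1)
    (h : whi μ R < p) : R ≤ |wx μ p| := by
  have hpos : 0 < whi μ R := by unfold whi; positivity
  have h0 : 0 < p := hpos.trans h
  have hr : 0 < (1 - p) / p := div_pos (by linarith) h0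
  have h2 : (1 - p) / p ≤ Real.exp (-(2 * |μ| * R)) := by
    rw [← ratio_whi]
    rw [div_le_div_iff₀ h0 hpos]
    nlinarith
  have h3 : Real.log ((1 - p) / p) ≤ -(2 * |μ| * R) :=
    (Real.log_le_iff_le_exp hr).2 h2
  have hm := abs_pos.2 hμ
  unfold wx
  rw [abs_div, abs_mul 2 μ, abs_of_pos (show (0 : ℝ) < 2 by norm_num), le_div_iff₀ (by positivity)]
  refine le_trans ?_ (neg_le_abs _)
  linarith

/-- the multiplier, with values in a band -/
noncomputable def wf (μ R : ℝ) (g : ℝ → ℝ) (p : ℝ) : ℝ :=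
  wtent (wx μ (wclip μ R p) / R) * g (wx μ (wclip μ R p))

theorem wf_eq {μ : ℝ} (hμ : μ ≠ 0) {R : ℝ} (hR : 0 < R) (g : ℝ → ℝ) {p : ℝ} (h0 : 0 < p)
    (h1 : p < 1) : wf μ R g p = wtent (wx μ p / R) * g (wx μ p) := by
  have hz : ∀ q : ℝ, R ≤ |wx μ q| → wtent (wx μ q / R) = 0 := fun q hq => by
    refine wtent_eq_zero ?_
    rw [abs_div, abs_of_pos hR, le_div_iff₀ hR, one_mul]
    exact hq
  unfold wf
  by_cases hlo : p < wlo μ R
  · have e : wclip μ R p = wlo μ R := max_eq_left ((min_le_left _ _).trans hlo.le)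
    rw [e, hz _ (abs_wx_wlo hμ hR).ge, hz _ (wx_lt_wlo hμ hR h0 hlo), zero_mul, zero_mul]
  · push Not at hlo
    by_cases hhi : whi μ R < p
    · by_cases hlh : wlo μ R ≤ whi μ R
      · have e : wclip μ R p = whi μ R := by
          unfold wclip
          rw [min_eq_right hhi.le, max_eq_right hlh]
        rw [e, hz _ (abs_wx_whi hμ hR).ge, hz _ (wx_gt_whi hμ hR h1 hhi), zero_mul, zero_mul]
      · push Not at hlh
        have e : wclip μ R p = wlo μ R := by
          unfold wclip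
          rw [min_eq_right hhi.le, max_eq_left hlh.le]
        rw [e, hz _ (abs_wx_wlo hμ hR).ge, hz _ (wx_gt_whi hμ hR h1 hhi), zero_mul, zero_mul]
    · push Not at hhi
      have e : wclip μ R p = p := by
        unfold wclip
        rw [min_eq_left hhi, max_eq_right hlo]
      rw [e]

theorem wf_of_le {μ : ℝ} (hμ : μ ≠ 0) {R : ℝ} (hR : 0 < R) (g : ℝ → ℝ) {p : ℝ} (h : p ≤ 0) :
    wf μ R g p = 0 := by
  have e : wclip μ R p = wlo μ R :=
    max_eq_left ((min_le_left _ _).trans (h.trans (wlo_pos μ R).le))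
  unfold wf
  rw [e, wtent_eq_zero, zero_mul]
  rw [abs_div, abs_of_pos hR, abs_wx_wlo hμ hR, div_self hR.ne']

theorem wlo_le_whi {μ R : ℝ} (hR : 0 < R) : wlo μ R ≤ whi μ R := by
  unfold wlo whi
  have h : Real.exp (-(2 * |μ| * R)) ≤ Real.exp (2 * |μ| * R) :=
    Real.exp_le_exp.2 (by
      have : 0 ≤ 2 * |μ| * R := by positivity
      linarith)
  exact one_div_le_one_div_of_le (by positivity) (by linarith)

theorem wf_of_ge {μ : ℝ} (hμ : μ ≠ 0) {R : ℝ} (hR : 0 < R) (g : ℝ → ℝ) {p : ℝ} (h : 1 ≤ p) :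
    wf μ R g p = 0 := by
  have e : wclip μ R p = whi μ R := by
    unfold wclip
    rw [min_eq_right ((whi_lt_one μ R).le.trans h), max_eq_right (wlo_le_whi hR)]
  unfold wf
  rw [e, wtent_eq_zero, zero_mul]
  rw [abs_div, abs_of_pos hR, abs_wx_whi hμ hR, div_self hR.ne']

theorem continuous_wf (μ R : ℝ) {g : ℝ → ℝ} (hg : Continuous g) : Continuous (wf μ R g) := by
  have h1 : Continuous fun p => wx μ (wclip μ R p) := by
    unfold wx
    have hc : Continuous (wclip μ R) := by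
      unfold wclip
      fun_prop
    refine Continuous.div_const ?_ _
    refine Continuous.log ?_ ?_
    · exact (continuous_const.sub hc).div hc fun p => (wclip_mem μ R p).1.ne'
    · intro p
      exact (div_pos (by linarith [(wclip_mem μ R p).2]) (wclip_mem μ R p).1).ne'
  unfold wf
  exact (continuous_wtent.comp (h1.div_const R)).mul (hg.comp h1)

theorem abs_wf_le (μ R : ℝ) {g : ℝ → ℝ} (hg : ∀ u, |g u| ≤ 1) (p : ℝ) : |wf μ R g p| ≤ 1 := by
  unfold wf
  rw [abs_mul, abs_of_nonneg (wtent_nonneg _)]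
  calc wtent (wx μ (wclip μ R p) / R) * |g (wx μ (wclip μ R p))| ≤ 1 * 1 :=
        mul_le_mul (wtent_le_one _) (hg _) (abs_nonneg _) zero_le_one
    _ = 1 := one_mul 1

/-- covariance, cosine part -/
theorem wf_cos {μ : ℝ} (hμ : μ ≠ 0) {R : ℝ} (hR : 0 < R) (ω s : ℝ) {p : ℝ}
    (hp : p ∈ Icc (0 : ℝ) 1) :
    |wf μ R (fun u => Real.cos (ω * u)) (wh (Real.exp (μ * s)) p)
      - (Real.cos (ω * s) * wf μ R (fun u => Real.cos (ω * u)) p
        - Real.sin (ω * s) * wf μ R (fun u => Real.sin (ω * u)) p)| ≤ |s| / R := by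
  have hsR : 0 ≤ |s| / R := by positivity
  rcases hp.1.lt_or_eq with h0 | h0
  · rcases hp.2.lt_or_eq with h1 | h1
    · have ha : Real.exp (μ * s) ≠ 0 := (Real.exp_pos _).ne'
      rw [wf_eq hμ hR _ (wh_pos ha h0 h1) (wh_lt_one ha h0 h1), wf_eq hμ hR _ h0 h1,
        wf_eq hμ hR _ h0 h1, wx_wh hμ s h0 h1]
      set x := wx μ p
      have e : wtent ((x + s) / R) * Real.cos (ω * (x + s))
          - (Real.cos (ω * s) * (wtent (x / R) * Real.cos (ω * x))
            - Real.sin (ω * s) * (wtent (x / R) * Real.sin (ω * x)))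
          = (wtent ((x + s) / R) - wtent (x / R)) * Real.cos (ω * (x + s)) := by
        rw [mul_add, Real.cos_add]
        ring
      rw [e, abs_mul]
      have h2 := wtent_lip ((x + s) / R) (x / R)
      have h3 : (x + s) / R - x / R = s / R := by ring
      rw [h3, abs_div, abs_of_pos hR] at h2
      calc |wtent ((x + s) / R) - wtent (x / R)| * |Real.cos (ω * (x + s))|
          ≤ |s| / R * 1 := mul_le_mul h2 (Real.abs_cos_le_one _) (abs_nonneg _) hsR
        _ = |s| / R := mul_one _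
    · subst h1
      have e : wh (Real.exp (μ * s)) 1 = 1 := by simp [wh]
      rw [e, wf_of_ge hμ hR _ le_rfl, wf_of_ge hμ hR _ le_rfl]
      simpa using hsR
  · subst h0
    have e : wh (Real.exp (μ * s)) 0 = 0 := by simp [wh]
    rw [e, wf_of_le hμ hR _ le_rfl, wf_of_le hμ hR _ le_rfl]
    simpa using hsR

/-- covariance, sine part -/
theorem wf_sin {μ : ℝ} (hμ : μ ≠ 0) {R : ℝ} (hR : 0 < R) (ω s : ℝ) {p : ℝ}
    (hp : p ∈ Icc (0 : ℝ) 1) :
    |wf μ R (fun u => Real.sin (ω * u)) (wh (Real.exp (μ * s)) p)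
      - (Real.cos (ω * s) * wf μ R (fun u => Real.sin (ω * u)) p
        + Real.sin (ω * s) * wf μ R (fun u => Real.cos (ω * u)) p)| ≤ |s| / R := by
  have hsR : 0 ≤ |s| / R := by positivity
  rcases hp.1.lt_or_eq with h0 | h0
  · rcases hp.2.lt_or_eq with h1 | h1
    · have ha : Real.exp (μ * s) ≠ 0 := (Real.exp_pos _).ne'
      rw [wf_eq hμ hR _ (wh_pos ha h0 h1) (wh_lt_one ha h0 h1), wf_eq hμ hR _ h0 h1,
        wf_eq hμ hR _ h0 h1, wx_wh hμ s h0 h1]
      set x := wx μ p
      have e : wtent ((x + s) / R) * Real.sin (ω * (x + s))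
          - (Real.cos (ω * s) * (wtent (x / R) * Real.sin (ω * x))
            + Real.sin (ω * s) * (wtent (x / R) * Real.cos (ω * x)))
          = (wtent ((x + s) / R) - wtent (x / R)) * Real.sin (ω * (x + s)) := by
        rw [mul_add, Real.sin_add]
        ring
      rw [e, abs_mul]
      have h2 := wtent_lip ((x + s) / R) (x / R)
      have h3 : (x + s) / R - x / R = s / R := by ring
      rw [h3, abs_div, abs_of_pos hR] at h2
      calc |wtent ((x + s) / R) - wtent (x / R)| * |Real.sin (ω * (x + s))|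
          ≤ |s| / R * 1 := mul_le_mul h2 (Real.abs_sin_le_one _) (abs_nonneg _) hsR
        _ = |s| / R := mul_one _
    · subst h1
      have e : wh (Real.exp (μ * s)) 1 = 1 := by simp [wh]
      rw [e, wf_of_ge hμ hR _ le_rfl, wf_of_ge hμ hR _ le_rfl]
      simpa using hsR
  · subst h0
    have e : wh (Real.exp (μ * s)) 0 = 0 := by simp [wh]
    rw [e, wf_of_le hμ hR _ le_rfl, wf_of_le hμ hR _ le_rfl]
    simpa using hsR

/-- the band captures the mass -/
theorem wf_band {μ : ℝ} (hμ : μ ≠ 0) {R : ℝ} (hR : 0 < R) {L : ℝ} (hL : 0 < L) (ω : ℝ) {p : ℝ}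
    (hp : p ∈ Icc (0 : ℝ) 1) :
    1 - wh L p ≤ 4 * (wf μ R (fun u => Real.cos (ω * u)) p ^ 2
        + wf μ R (fun u => Real.sin (ω * u)) p ^ 2)
      + 2 * (1 - wh (Real.exp (-(|μ| * R / 2))) p) + L ^ 2 * Real.exp (-(|μ| * R)) := by
  set a := Real.exp (-(|μ| * R / 2)) with ha
  have ha0 : 0 < a := Real.exp_pos _
  have ha2 : a ^ 2 = Real.exp (-(|μ| * R)) := by
    rw [ha, ← Real.exp_nat_mul]
    congr 1
    push_cast
    ring
  rw [← ha2]
  have hwa := wh_mem ha0.ne' hp.1 hp.2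
  have hwL := wh_mem hL.ne' hp.1 hp.2
  have hsq : 0 ≤ 4 * (wf μ R (fun u => Real.cos (ω * u)) p ^ 2
        + wf μ R (fun u => Real.sin (ω * u)) p ^ 2) := by positivity
  have hLa : 0 ≤ L ^ 2 * a ^ 2 := by positivity
  rcases hp.1.lt_or_eq with h0 | h0
  · rcases hp.2.lt_or_eq with h1 | h1
    · have hr : 0 < (1 - p) / p := div_pos (by linarith) h0
      obtain ⟨D, hD⟩ : ∃ D : ℝ, D = (1 - p) / p := ⟨_, rfl⟩
      have hp1 : 1 - p = D * p := by rw [hD]; field_simp
      have hDpos : 0 < D := by rw [hD]; exact hr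
      have hform : ∀ c : ℝ, 0 < c → 1 - wh c p = c ^ 2 * D / (1 + c ^ 2 * D) := by
        intro c hc
        rw [one_sub_wh hc.ne' hp.1 hp.2, hp1]
        have : p + c ^ 2 * (D * p) = (1 + c ^ 2 * D) * p := by ring
        rw [this]
        field_simp
      by_cases hx : |wx μ p / R| ≤ 1 / 2
      · have h2 := wtent_half hx
        rw [wf_eq hμ hR _ h0 h1, wf_eq hμ hR _ h0 h1]
        have h3 : 4 * ((wtent (wx μ p / R) * Real.cos (ω * wx μ p)) ^ 2
            + (wtent (wx μ p / R) * Real.sin (ω * wx μ p)) ^ 2)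
            = 4 * wtent (wx μ p / R) ^ 2 := by
          have := Real.cos_sq_add_sin_sq (ω * wx μ p)
          calc _ = 4 * wtent (wx μ p / R) ^ 2
                * (Real.cos (ω * wx μ p) ^ 2 + Real.sin (ω * wx μ p) ^ 2) := by ring
            _ = _ := by rw [this, mul_one]
        have h4 : 1 ≤ 4 * wtent (wx μ p / R) ^ 2 := by nlinarith
        rw [h3]
        have := hwL.1
        have := hwa.2
        linarith
      · push Not at hx
        rw [abs_div, abs_of_pos hR, lt_div_iff₀ hR] at hx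
        unfold wx at hx
        have hm := abs_pos.2 hμ
        rw [abs_div, abs_mul 2 μ, abs_of_pos (show (0 : ℝ) < 2 by norm_num),
          lt_div_iff₀ (by positivity), ← hD] at hx
        have hx2 : |μ| * R < |Real.log D| := by linarith
        rcases lt_abs.1 hx2 with h | h
        · -- high frequencies
          have h2 : Real.exp (|μ| * R) < D := (Real.lt_log_iff_exp_lt hDpos).1 h
          have h3 : 1 ≤ a ^ 2 * D := by
            rw [ha2]
            have := mul_le_mul_of_nonneg_left h2.le (Real.exp_pos (-(|μ| * R))).le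
            rwa [← Real.exp_add, neg_add_cancel, Real.exp_zero] at this
          have h4 : 1 / 2 ≤ 1 - wh a p := by
            rw [hform a ha0, div_le_div_iff₀ (by norm_num) (by positivity)]
            linarith
          have := hwL.1
          linarith
        · have h2 : D < Real.exp (-(|μ| * R)) := by
            rw [← Real.log_lt_iff_lt_exp hDpos]
            linarith
          have h3 : 1 - wh L p ≤ L ^ 2 * D := by
            rw [hform L hL]
            exact div_le_self (by positivity) (by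
              have : 0 ≤ L ^ 2 * D := by positivity
              linarith)
          have h4 : L ^ 2 * D ≤ L ^ 2 * a ^ 2 := by
            rw [ha2]
            exact mul_le_mul_of_nonneg_left h2.le (by positivity)
          have := hwa.2
          linarith
    · subst h1
      have e : wh L 1 = 1 := by simp [wh]
      rw [e]
      have := hwa.2
      linarith
  · subst h0
    have e : wh a 0 = 0 := by simp [wh]
    have e2 : wh L 0 = 0 := by simp [wh]
    rw [e, e2]
    linarith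

end Pool.Agent.AbCoc
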