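import Mathlib

/-!
# One unitary one-parameter group: the resolvents

`UG K` is a strongly continuous one-parameter group of isometries of the Hilbert space `K`;
`B.res a` is `y ↦ ∫₀^∞ e^{-t} b(a t) y dt`, i.e. `(1 - i a D)⁻¹`.
-/

set_option autoImplicit false
set_option linter.unusedVariables false
set_option linter.unusedSectionVars false

open Topology Filter MeasureTheory Set

namespace Pool.Agent.AbCoc

universe v

/-- a strongly continuous one-parameter group of isometries -/
structure UG (K : Type v) [NormedAddCommGroup K] [InnerProductSpace ℂ K] where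
  b : ℝ → K →L[ℂ] K
  zero : b 0 = 1
  add : ∀ s t, b (s + t) = b s * b t
  norm : ∀ t v, ‖b t v‖ = ‖v‖
  cont : ∀ v, Continuous fun t => b t v

namespace UG

variable {K : Type v} [NormedAddCommGroup K] [InnerProductSpace ℂ K] (B : UG K)

theorem add_apply (s t : ℝ) (v : K) : B.b (s + t) v = B.b s (B.b t v) := by
  rw [B.add]
  rfl

theorem neg_apply (t : ℝ) (v : K) : B.b (-t) (B.b t v) = v := by
  rw [← B.add_apply, neg_add_cancel, B.zero]
  rfl

theorem apply_neg (t : ℝ) (v : K) : B.b t (B.b (-t) v) = v := by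
  rw [← B.add_apply, add_neg_cancel, B.zero]
  rfl

theorem inner_map (t : ℝ) (x y : K) : inner ℂ (B.b t x) (B.b t y) = inner ℂ x y :=
  (LinearMap.norm_map_iff_inner_map_map (B.b t)).1 (B.norm t) x y

theorem inner_left (t : ℝ) (x y : K) : inner ℂ (B.b t x) y = inner ℂ x (B.b (-t) y) := by
  rw [← B.inner_map t x (B.b (-t) y), B.apply_neg]

theorem commute (s t : ℝ) : B.b s * B.b t = B.b t * B.b s := by
  rw [← B.add, ← B.add, add_comm]

theorem norm_neg_sub (t : ℝ) (y : K) : ‖B.b (-t) y - y‖ = ‖B.b t y - y‖ := by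
  rw [← B.norm t (B.b (-t) y - y), map_sub, B.apply_neg, norm_sub_rev]

theorem cont_mul (a : ℝ) (v : K) : Continuous fun t => B.b (a * t) v :=
  (B.cont v).comp (continuous_const.mul continuous_id)

theorem integrable_exp_neg : IntegrableOn (fun t : ℝ => Real.exp (-t)) (Ioi 0) :=
  integrableOn_exp_neg_Ioi 0

theorem integral_exp_neg : ∫ t in Ioi (0 : ℝ), Real.exp (-t) = 1 := by
  rw [integral_exp_neg_Ioi]
  simp

theorem cont_exp_neg : Continuous fun t : ℝ => Real.exp (-t) :=
  Real.continuous_exp.comp continuous_neg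

theorem cont_exp_smul (a : ℝ) (v : K) : Continuous fun t : ℝ => Real.exp (-t) • B.b (a * t) v :=
  cont_exp_neg.smul (B.cont_mul a v)

theorem integral_Ioi_shift {E : Type*} [NormedAddCommGroup E] [NormedSpace ℝ E] (f : ℝ → E)
    (τ : ℝ) : ∫ t in Ioi (0 : ℝ), f (t + τ) = ∫ t in Ioi τ, f t := by
  rw [← integral_indicator measurableSet_Ioi, ← integral_indicator measurableSet_Ioi,
    ← integral_add_right_eq_self ((Ioi τ).indicator f) τ]
  refine integral_congr_ae (Eventually.of_forall fun t => ?_)
  by_cases ht : 0 < t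
  · have h2 : t + τ ∈ Ioi τ := by rw [mem_Ioi]; linarith
    simp only [indicator_of_mem (show t ∈ Ioi (0 : ℝ) from ht), indicator_of_mem h2]
  · have h2 : t + τ ∉ Ioi τ := by rw [mem_Ioi]; linarith
    simp only [indicator_of_notMem (show t ∉ Ioi (0 : ℝ) from ht), indicator_of_notMem h2]

variable [CompleteSpace K]

theorem integrable_res (a : ℝ) (v : K) :
    IntegrableOn (fun t : ℝ => Real.exp (-t) • B.b (a * t) v) (Ioi 0) := by
  refine Integrable.mono' (g := fun t : ℝ => Real.exp (-t) * ‖v‖)
    (integrable_exp_neg.mul_const _) ?_ ?_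
  · exact (B.cont_exp_smul a v).aestronglyMeasurable
  · refine Eventually.of_forall fun t => ?_
    rw [norm_smul, B.norm, Real.norm_eq_abs, abs_of_pos (Real.exp_pos _)]

/-- the resolvent -/
noncomputable def res (a : ℝ) : K →L[ℂ] K :=
  LinearMap.mkContinuous
    { toFun := fun v => ∫ t in Ioi (0 : ℝ), Real.exp (-t) • B.b (a * t) v
      map_add' := fun x y => by
        rw [← integral_add (B.integrable_res a x) (B.integrable_res a y)]
        refine integral_congr_ae (Eventually.of_forall fun t => ?_)
        simp only [map_add, smul_add]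
      map_smul' := fun c x => by
        rw [RingHom.id_apply, ← integral_smul]
        refine integral_congr_ae (Eventually.of_forall fun t => ?_)
        simp only [map_smul]
        rw [smul_comm] } 1 (fun v => by
      rw [one_mul]
      refine (norm_integral_le_integral_norm _).trans ?_
      calc ∫ t in Ioi (0 : ℝ), ‖Real.exp (-t) • B.b (a * t) v‖
          = ∫ t in Ioi (0 : ℝ), Real.exp (-t) * ‖v‖ := by
            refine integral_congr_ae (Eventually.of_forall fun t => ?_)
            simp only [norm_smul, B.norm, Real.norm_eq_abs, abs_of_pos (Real.exp_pos _)]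
        _ = ‖v‖ := by rw [integral_mul_const, integral_exp_neg, one_mul]
        _ ≤ ‖v‖ := le_rfl)

theorem res_apply (a : ℝ) (v : K) :
    B.res a v = ∫ t in Ioi (0 : ℝ), Real.exp (-t) • B.b (a * t) v := rfl

theorem norm_res_le (a : ℝ) : ‖B.res a‖ ≤ 1 := LinearMap.mkContinuous_norm_le _ zero_le_one _

/-- everything commuting with the group commutes with the resolvent -/
theorem commute_res (L : K →L[ℂ] K) (hL : ∀ t, L * B.b t = B.b t * L) (a : ℝ) :
    L * B.res a = B.res a * L := by
  ext v
  change L (B.res a v) = B.res a (L v)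
  rw [res_apply, res_apply, ← ContinuousLinearMap.integral_comp_comm _ (B.integrable_res a v)]
  refine integral_congr_ae (Eventually.of_forall fun t => ?_)
  have h := DFunLike.congr_fun (hL (a * t)) v
  change L (Real.exp (-t) • B.b (a * t) v) = Real.exp (-t) • B.b (a * t) (L v)
  have e : L (Real.exp (-t) • B.b (a * t) v) = Real.exp (-t) • L (B.b (a * t) v) := by
    have : Real.exp (-t) • B.b (a * t) v = (Real.exp (-t) : ℂ) • B.b (a * t) v := by
      rw [Complex.coe_smul]
    rw [this, map_smul, Complex.coe_smul]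
  rw [e]
  exact congrArg _ h

theorem res_b (a t : ℝ) : B.b t * B.res a = B.res a * B.b t :=
  B.commute_res (B.b t) (fun s => B.commute t s) a

theorem res_res (a a' : ℝ) : B.res a * B.res a' = B.res a' * B.res a :=
  B.commute_res (B.res a) (fun t => (B.res_b a t).symm) a'

theorem inner_res (a : ℝ) (x y : K) : inner ℂ (B.res a x) y = inner ℂ x (B.res (-a) y) := by
  have h1 : inner ℂ (B.res a x) y
      = ∫ t in Ioi (0 : ℝ), inner ℂ (Real.exp (-t) • B.b (a * t) x) y := by
    rw [res_apply, ← inner_conj_symm, ← integral_inner (B.integrable_res a x) y,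
      ← integral_conj]
    refine integral_congr_ae (Eventually.of_forall fun t => ?_)
    exact inner_conj_symm _ _
  have h2 : inner ℂ x (B.res (-a) y)
      = ∫ t in Ioi (0 : ℝ), inner ℂ x (Real.exp (-t) • B.b (-a * t) y) := by
    rw [res_apply, ← integral_inner (B.integrable_res (-a) y) x]
  rw [h1, h2]
  refine integral_congr_ae (Eventually.of_forall fun t => ?_)
  change inner ℂ (Real.exp (-t) • B.b (a * t) x) y = inner ℂ x (Real.exp (-t) • B.b (-a * t) y)
  have e1 : ∀ v : K, Real.exp (-t) • v = ((Real.exp (-t) : ℝ) : ℂ) • v := fun v => by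
    rw [Complex.coe_smul]
  rw [e1, e1, inner_smul_left, inner_smul_right, B.inner_left, Complex.conj_ofReal, neg_mul]

theorem star_res (a : ℝ) : star (B.res a) = B.res (-a) := by
  rw [ContinuousLinearMap.star_eq_adjoint]
  symm
  rw [ContinuousLinearMap.eq_adjoint_iff]
  intro x y
  rw [B.inner_res, neg_neg]

/-- `b(a' τ) (res a' y)` is differentiable in `τ` -/
theorem hasDerivAt_res (a' : ℝ) (y : K) (τ : ℝ) :
    HasDerivAt (fun τ => B.b (a' * τ) (B.res a' y))
      (B.b (a' * τ) (B.res a' y) - B.b (a' * τ) y) τ := by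
  have hint : ∀ τ : ℝ, IntegrableOn (fun u : ℝ => Real.exp (-u) • B.b (a' * u) y) (Ioi τ) := by
    intro τ
    refine Integrable.mono' (g := fun t : ℝ => Real.exp (-t) * ‖y‖)
      ((integrableOn_exp_neg_Ioi τ).mul_const _) ?_ ?_
    · exact (B.cont_exp_smul a' y).aestronglyMeasurable
    · refine Eventually.of_forall fun t => ?_
      rw [norm_smul, B.norm, Real.norm_eq_abs, abs_of_pos (Real.exp_pos _)]
  have h1 : ∀ τ : ℝ, B.b (a' * τ) (B.res a' y)
      = Real.exp τ • (B.res a' y - ∫ u in (0 : ℝ)..τ, Real.exp (-u) • B.b (a' * u) y) := by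
    intro τ
    have e1 : B.b (a' * τ) (B.res a' y)
        = ∫ t in Ioi (0 : ℝ), Real.exp (-t) • B.b (a' * (t + τ)) y := by
      rw [res_apply, ← ContinuousLinearMap.integral_comp_comm _ (B.integrable_res a' y)]
      refine integral_congr_ae (Eventually.of_forall fun t => ?_)
      change B.b (a' * τ) (Real.exp (-t) • B.b (a' * t) y) = _
      have : Real.exp (-t) • B.b (a' * t) y = (Real.exp (-t) : ℂ) • B.b (a' * t) y := by
        rw [Complex.coe_smul]
      rw [this, map_smul, Complex.coe_smul, ← B.add_apply]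
      have : a' * τ + a' * t = a' * (t + τ) := by ring
      rw [this]
    have e2 : ∫ t in Ioi (0 : ℝ), Real.exp (-t) • B.b (a' * (t + τ)) y
        = Real.exp τ • ∫ u in Ioi τ, Real.exp (-u) • B.b (a' * u) y := by
      rw [← integral_smul]
      have := integral_Ioi_shift (fun u : ℝ => Real.exp (-(u - τ)) • B.b (a' * u) y) τ
      simp only [add_sub_cancel_right] at this
      rw [this]
      refine integral_congr_ae (Eventually.of_forall fun t => ?_)
      change Real.exp (-(t - τ)) • B.b (a' * t) y = Real.exp τ • Real.exp (-t) • B.b (a' * t) y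
      rw [smul_smul, ← Real.exp_add]
      congr 2
      ring
    rw [e1, e2]
    congr 1
    have e3 := intervalIntegral.integral_Ioi_sub_Ioi' (hint 0) (hint τ)
    rw [← e3, ← B.res_apply]
    abel
  have h2 : HasDerivAt (fun τ => ∫ u in (0 : ℝ)..τ, Real.exp (-u) • B.b (a' * u) y)
      (Real.exp (-τ) • B.b (a' * τ) y) τ := by
    have hc : Continuous fun u : ℝ => Real.exp (-u) • B.b (a' * u) y := B.cont_exp_smul a' y
    exact intervalIntegral.integral_hasDerivAt_right (hc.intervalIntegrable _ _)
      hc.stronglyMeasurable.stronglyMeasurableAtFilter hc.continuousAt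
  have h3 : HasDerivAt (fun τ => Real.exp τ •
      (B.res a' y - ∫ u in (0 : ℝ)..τ, Real.exp (-u) • B.b (a' * u) y))
      (Real.exp τ • (0 - Real.exp (-τ) • B.b (a' * τ) y)
        + Real.exp τ • (B.res a' y - ∫ u in (0 : ℝ)..τ, Real.exp (-u) • B.b (a' * u) y)) τ :=
    (Real.hasDerivAt_exp τ).smul ((hasDerivAt_const τ _).sub h2)
  have h4 : (fun τ => B.b (a' * τ) (B.res a' y)) = fun τ => Real.exp τ •
      (B.res a' y - ∫ u in (0 : ℝ)..τ, Real.exp (-u) • B.b (a' * u) y) := funext h1
  rw [h4]
  refine h3.congr_deriv ?_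
  rw [← h1 τ, zero_sub, smul_neg, smul_smul, ← Real.exp_add, add_neg_cancel, Real.exp_zero,
    one_smul]
  abel

theorem res_zero : B.res 0 = 1 := by
  ext v
  rw [res_apply]
  simp only [zero_mul, B.zero]
  change ∫ t in Ioi (0 : ℝ), Real.exp (-t) • v = v
  rw [integral_smul_const, integral_exp_neg, one_smul]

/-- the resolvent identity -/
theorem res_identity (a a' : ℝ) :
    (a - a') • (B.res a * B.res a') = a • B.res a - a' • B.res a' := by
  by_cases ha' : a' = 0
  · subst ha'
    rw [B.res_zero]
    simp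
  ext y
  set z := B.res a' y with hz
  have hd : ∀ t : ℝ, HasDerivAt (fun t => B.b (a * t) z)
      ((a / a') • (B.b (a * t) z - B.b (a * t) y)) t := by
    intro t
    have h1 := B.hasDerivAt_res a' y (a / a' * t)
    have e1 : ∀ t : ℝ, a' * (a / a' * t) = a * t := fun t => by field_simp
    have h2 := HasDerivAt.scomp t h1 ((hasDerivAt_id t).const_mul (a / a'))
    have e2 : (fun t => B.b (a * t) z) = (fun τ => B.b (a' * τ) (B.res a' y)) ∘
        (fun t => a / a' * id t) := by
      funext t
      change _ = B.b (a' * (a / a' * t)) (B.res a' y)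
      rw [e1]
    rw [e2]
    refine h2.congr_deriv ?_
    rw [e1, mul_one]
  have hd2 : ∀ t : ℝ, HasDerivAt (fun t => Real.exp (-t) • B.b (a * t) z)
      (Real.exp (-t) • ((a / a') • (B.b (a * t) z - B.b (a * t) y))
        + (-Real.exp (-t)) • B.b (a * t) z) t := by
    intro t
    have h1 : HasDerivAt (fun t : ℝ => Real.exp (-t)) (-Real.exp (-t)) t := by
      have := (hasDerivAt_id t).neg.exp
      simpa using this
    exact h1.smul (hd t)
  have hi1 : IntegrableOn (fun t : ℝ => Real.exp (-t) • ((a / a') • (B.b (a * t) z - B.b (a * t) y))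
      + (-Real.exp (-t)) • B.b (a * t) z) (Ioi 0) := by
    have e : (fun t : ℝ => Real.exp (-t) • ((a / a') • (B.b (a * t) z - B.b (a * t) y))
        + (-Real.exp (-t)) • B.b (a * t) z)
        = fun t : ℝ => ((a / a') • (Real.exp (-t) • B.b (a * t) z)
          - (a / a') • (Real.exp (-t) • B.b (a * t) y)) - Real.exp (-t) • B.b (a * t) z := by
      funext t
      rw [neg_smul, smul_comm, smul_sub, smul_sub, sub_eq_add_neg _ (Real.exp (-t) • B.b (a * t) z)]
    rw [e]
    exact (((B.integrable_res a z).smul (a / a')).sub ((B.integrable_res a y).smul (a / a'))).sub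
      (B.integrable_res a z)
  have hlim : Tendsto (fun t : ℝ => Real.exp (-t) • B.b (a * t) z) atTop (𝓝 0) := by
    rw [tendsto_zero_iff_norm_tendsto_zero]
    have e : (fun t : ℝ => ‖Real.exp (-t) • B.b (a * t) z‖) = fun t => Real.exp (-t) * ‖z‖ := by
      funext t
      rw [norm_smul, B.norm, Real.norm_eq_abs, abs_of_pos (Real.exp_pos _)]
    rw [e]
    have := (Real.tendsto_exp_neg_atTop_nhds_zero).mul_const ‖z‖
    rwa [zero_mul] at this
  have key := integral_Ioi_of_hasDerivAt_of_tendsto' (fun t _ => hd2 t) hi1 hlim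
  have e : (fun t : ℝ => Real.exp (-t) • ((a / a') • (B.b (a * t) z - B.b (a * t) y))
      + (-Real.exp (-t)) • B.b (a * t) z)
      = fun t : ℝ => ((a / a') • (Real.exp (-t) • B.b (a * t) z)
        - (a / a') • (Real.exp (-t) • B.b (a * t) y)) - Real.exp (-t) • B.b (a * t) z := by
    funext t
    rw [neg_smul, smul_comm, smul_sub, smul_sub, sub_eq_add_neg _ (Real.exp (-t) • B.b (a * t) z)]
  have j1 : IntegrableOn (fun t : ℝ => (a / a') • (Real.exp (-t) • B.b (a * t) z)) (Ioi 0) :=
    (B.integrable_res a z).smul (a / a')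
  have j2 : IntegrableOn (fun t : ℝ => (a / a') • (Real.exp (-t) • B.b (a * t) y)) (Ioi 0) :=
    (B.integrable_res a y).smul (a / a')
  have j3 : IntegrableOn (fun t : ℝ => (a / a') • (Real.exp (-t) • B.b (a * t) z)
      - (a / a') • (Real.exp (-t) • B.b (a * t) y)) (Ioi 0) := j1.sub j2
  rw [e, integral_sub j3 (B.integrable_res a z), integral_sub j1 j2,
    integral_smul, integral_smul, ← B.res_apply, ← B.res_apply] at key
  rw [mul_zero, B.zero, neg_zero, Real.exp_zero, one_smul, zero_sub] at key
  change (a - a') • B.res a (B.res a' y) = a • B.res a y - a' • B.res a' y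
  rw [← hz]
  have key2 := congrArg (fun v : K => a' • v) key
  simp only [smul_sub, smul_smul, smul_neg] at key2
  rw [mul_div_cancel₀ a ha'] at key2
  change a • B.res a z - a • B.res a y - a' • B.res a z = -(a' • z) at key2
  rw [sub_smul]
  have : a • B.res a z - a' • B.res a z
      = (a • B.res a z - a • B.res a y - a' • B.res a z) + a • B.res a y := by abel
  rw [this, key2]
  abel

end UG

end Pool.Agent.AbCoc
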