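import Pool.Agent.Lib_MP_418a80_t3.WtR0
import Pool.Agent.Lib_MP_418a80_t3.WtR1

/-!
# The operators `(1 + a²D²)⁻¹` and their finite approximations
-/

set_option autoImplicit false
set_option linter.unusedVariables false
set_option linter.unusedSectionVars false

open Topology Filter MeasureTheory Set

namespace Pool.Agent.AbCoc

universe v

namespace UG

variable {K : Type v} [NormedAddCommGroup K] [InnerProductSpace ℂ K] [CompleteSpace K] (B : UG K)

/-- `(1 + a²D²)⁻¹` -/
noncomputable def lap (a : ℝ) : K →L[ℂ] K := (2⁻¹ : ℝ) • (B.res a + B.res (-a))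

theorem lap_eq (a : ℝ) : B.lap a = B.res a * B.res (-a) := by
  by_cases ha : a = 0
  · subst ha
    unfold lap
    rw [neg_zero, B.res_zero, one_mul, ← two_smul ℝ, smul_smul]
    norm_num
  · have h := B.res_identity a (-a)
    have e1 : a - -a = 2 * a := by ring
    rw [e1, neg_smul, sub_neg_eq_add, ← smul_add, mul_comm 2 a, ← smul_smul] at h
    have h2 : (2 : ℝ) • (B.res a * B.res (-a)) = B.res a + B.res (-a) :=
      smul_right_injective _ ha h
    unfold lap
    rw [← h2, smul_smul]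
    norm_num

theorem lap_comm (L : K →L[ℂ] K) (hL : ∀ t, L * B.b t = B.b t * L) (a : ℝ) :
    L * B.lap a = B.lap a * L := by
  unfold lap
  rw [mul_smul_comm, smul_mul_assoc, mul_add, add_mul, B.commute_res L hL a,
    B.commute_res L hL (-a)]

theorem lap_sa (a : ℝ) : IsSelfAdjoint (B.lap a) := by
  rw [isSelfAdjoint_iff]
  unfold lap
  rw [star_smul, star_add, B.star_res, B.star_res, neg_neg, star_trivial, add_comm]

theorem norm_lap_le (a : ℝ) : ‖B.lap a‖ ≤ 1 := by
  unfold lap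
  rw [norm_smul, Real.norm_eq_abs, abs_of_pos (by norm_num : (0 : ℝ) < 2⁻¹)]
  have := (norm_add_le (B.res a) (B.res (-a))).trans
    (add_le_add (B.norm_res_le a) (B.norm_res_le (-a)))
  linarith

theorem lap_nonneg (a : ℝ) : 0 ≤ B.lap a := by
  rw [lap_eq, ← B.star_res]
  exact mul_star_self_nonneg _

theorem lap_rel (a : ℝ) : B.lap a * (B.lap 1 + a ^ 2 • (1 - B.lap 1)) = B.lap 1 := by
  set X := B.res a with hX
  set X' := B.res (-a) with hX'
  set Y := B.res 1 with hY
  set Y' := B.res (-1) with hY'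
  have h1 : X * (a • (1 : K →L[ℂ] K) - (a - 1) • Y) = Y := by
    have h := B.res_identity a 1
    rw [← hX, ← hY, one_smul] at h
    rw [mul_sub, mul_smul_comm, mul_one, mul_smul_comm, h]
    abel
  have h2 : X' * (a • (1 : K →L[ℂ] K) - (a - 1) • Y') = Y' := by
    have h := B.res_identity (-a) (-1)
    have e : -a - -1 = -(a - 1) := by ring
    rw [← hX', ← hY', e, neg_smul, neg_smul, neg_smul, one_smul, sub_neg_eq_add] at h
    rw [mul_sub, mul_smul_comm, mul_one, mul_smul_comm]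
    have h3 : (a - 1) • (X' * Y') = a • X' - Y' := by
      have := congrArg Neg.neg h
      rw [neg_neg] at this
      rw [this]
      abel
    rw [h3]
    abel
  have hP : B.lap 1 = Y * Y' := B.lap_eq 1
  have hP2 : Y + Y' = (2 : ℝ) • B.lap 1 := by
    unfold lap
    rw [smul_smul, ← hY, ← hY']
    norm_num
  have hc : X' * (a • (1 : K →L[ℂ] K) - (a - 1) • Y) = (a • (1 : K →L[ℂ] K) - (a - 1) • Y) * X' := by
    have h := B.res_res (-a) 1
    rw [← hX', ← hY] at h
    rw [mul_sub, sub_mul, mul_smul_comm, smul_mul_assoc, mul_one, one_mul, mul_smul_comm,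
      smul_mul_assoc, h]
  have hU : (a • (1 : K →L[ℂ] K) - (a - 1) • Y) * (a • (1 : K →L[ℂ] K) - (a - 1) • Y')
      = B.lap 1 + a ^ 2 • (1 - B.lap 1) := by
    have e : (a • (1 : K →L[ℂ] K) - (a - 1) • Y) * (a • (1 : K →L[ℂ] K) - (a - 1) • Y')
        = (a ^ 2) • (1 : K →L[ℂ] K) - (a * (a - 1)) • (Y + Y')
          + ((a - 1) ^ 2) • (Y * Y') := by
      rw [sub_mul, mul_sub, mul_sub, smul_mul_smul_comm, smul_mul_smul_comm, smul_mul_smul_comm,
        smul_mul_smul_comm, one_mul, one_mul, mul_one, smul_add]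
      have e1 : a * a = a ^ 2 := by ring
      have e2 : (a - 1) * a = a * (a - 1) := by ring
      have e3 : (a - 1) * (a - 1) = (a - 1) ^ 2 := by ring
      rw [e1, e2, e3]
      abel
    rw [e, hP2, ← hP, smul_smul, smul_sub]
    have e4 : (a - 1) ^ 2 = a * (a - 1) * 2 + (1 - a ^ 2) := by ring
    rw [e4, add_smul, sub_smul 1 (a ^ 2), one_smul]
    abel
  rw [← hU, B.lap_eq a, ← hX, ← hX', hP]
  calc X * X' * ((a • (1 : K →L[ℂ] K) - (a - 1) • Y) * (a • (1 : K →L[ℂ] K) - (a - 1) • Y'))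
      = X * (X' * (a • (1 : K →L[ℂ] K) - (a - 1) • Y))
        * (a • (1 : K →L[ℂ] K) - (a - 1) • Y') := by simp only [mul_assoc]
    _ = X * ((a • (1 : K →L[ℂ] K) - (a - 1) • Y) * X')
        * (a • (1 : K →L[ℂ] K) - (a - 1) • Y') := by rw [hc]
    _ = (X * (a • (1 : K →L[ℂ] K) - (a - 1) • Y))
        * (X' * (a • (1 : K →L[ℂ] K) - (a - 1) • Y')) := by simp only [mul_assoc]
    _ = Y * Y' := by rw [h1, h2]

theorem norm_one_le : ‖(1 : K →L[ℂ] K)‖ ≤ 1 := ContinuousLinearMap.norm_id_le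

theorem spec_le {P : K →L[ℂ] K} {c : ℝ} (hn : ‖P‖ ≤ c) {x : ℝ} (hx : x ∈ spectrum ℝ P) :
    |x| ≤ c := by
  have h := spectrum.norm_le_norm_mul_of_mem hx
  rw [Real.norm_eq_abs] at h
  refine h.trans ?_
  calc ‖P‖ * ‖(1 : K →L[ℂ] K)‖ ≤ ‖P‖ * 1 :=
        mul_le_mul_of_nonneg_left norm_one_le (norm_nonneg _)
    _ ≤ c := by rw [mul_one]; exact hn

theorem spec_lap {a x : ℝ} (hx : x ∈ spectrum ℝ (B.lap a)) : x ∈ Icc (0 : ℝ) 1 :=
  ⟨spectrum_nonneg_of_nonneg (B.lap_nonneg a) hx,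
    (le_abs_self x).trans (spec_le (B.norm_lap_le a) hx)⟩

theorem continuousOn_wh {a : ℝ} (ha : a ≠ 0) : ContinuousOn (wh a) (Icc (0 : ℝ) 1) := by
  unfold wh
  refine ContinuousOn.div (by fun_prop) (by fun_prop) fun p hp => ?_
  exact (wh_den_pos ha hp.1 hp.2).ne'

theorem lap_cfc {a : ℝ} (ha : a ≠ 0) : B.lap a = cfc (wh a) (B.lap 1) := by
  have hsa := B.lap_sa 1
  have hsub : spectrum ℝ (B.lap 1) ⊆ Icc (0 : ℝ) 1 := fun x hx => B.spec_lap hx
  have hg : cfc (fun p : ℝ => p + a ^ 2 * (1 - p)) (B.lap 1)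
      = B.lap 1 + a ^ 2 • (1 - B.lap 1) := by
    rw [cfc_add (a := B.lap 1) (fun p : ℝ => p) (fun p : ℝ => a ^ 2 * (1 - p)),
      cfc_const_mul (a ^ 2) (fun p : ℝ => 1 - p) (B.lap 1), cfc_id' ℝ (B.lap 1),
      cfc_sub (fun _ : ℝ => (1 : ℝ)) (fun p : ℝ => p) (B.lap 1), cfc_id' ℝ (B.lap 1),
      cfc_const_one ℝ (B.lap 1)]
  have hcont : ContinuousOn (fun p : ℝ => (p + a ^ 2 * (1 - p))⁻¹) (spectrum ℝ (B.lap 1)) :=
    ContinuousOn.inv₀ (by fun_prop) fun p hp =>
      (wh_den_pos ha (hsub hp).1 (hsub hp).2).ne'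
  have hgg : cfc (fun p : ℝ => p + a ^ 2 * (1 - p)) (B.lap 1)
      * cfc (fun p : ℝ => (p + a ^ 2 * (1 - p))⁻¹) (B.lap 1) = 1 := by
    rw [← cfc_mul (fun p : ℝ => p + a ^ 2 * (1 - p)) (fun p : ℝ => (p + a ^ 2 * (1 - p))⁻¹)
      (B.lap 1) (by fun_prop) hcont, ← cfc_const_one ℝ (B.lap 1)]
    refine cfc_congr fun p hp => ?_
    exact mul_inv_cancel₀ (wh_den_pos ha (hsub hp).1 (hsub hp).2).ne'
  calc B.lap a = B.lap a * (cfc (fun p : ℝ => p + a ^ 2 * (1 - p)) (B.lap 1)
        * cfc (fun p : ℝ => (p + a ^ 2 * (1 - p))⁻¹) (B.lap 1)) := by rw [hgg, mul_one]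
    _ = B.lap 1 * cfc (fun p : ℝ => (p + a ^ 2 * (1 - p))⁻¹) (B.lap 1) := by
        rw [← mul_assoc, hg, B.lap_rel]
    _ = cfc (fun p : ℝ => p) (B.lap 1)
        * cfc (fun p : ℝ => (p + a ^ 2 * (1 - p))⁻¹) (B.lap 1) := by rw [cfc_id' ℝ (B.lap 1)]
    _ = cfc (wh a) (B.lap 1) := by
        rw [← cfc_mul (fun p : ℝ => p) (fun p : ℝ => (p + a ^ 2 * (1 - p))⁻¹) (B.lap 1)
          (by fun_prop) hcont]
        rfl

/-- polynomials of `lap a` -/
theorem aeval_lap {a : ℝ} (ha : a ≠ 0) (π : Polynomial ℝ) :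
    Polynomial.aeval (B.lap a) π = cfc (fun p => π.eval (wh a p)) (B.lap 1) := by
  have hsub : spectrum ℝ (B.lap 1) ⊆ Icc (0 : ℝ) 1 := fun x hx => B.spec_lap hx
  rw [← cfc_polynomial π (B.lap a) (B.lap_sa a), B.lap_cfc ha,
    ← cfc_comp (fun x => π.eval x) (wh a) (B.lap 1) (B.lap_sa 1)
      (π.continuous.continuousOn) ((continuousOn_wh ha).mono hsub)]
  rfl

/-- real part of the Dirichlet form -/
theorem re_inner_res (a : ℝ) (y : K) : (inner ℂ (y - B.res a y) y).re
    = ∫ t in Ioi (0 : ℝ), Real.exp (-t) * (‖B.b (a * t) y - y‖ ^ 2 / 2) := by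
  have h1 : y - B.res a y = ∫ t in Ioi (0 : ℝ), Real.exp (-t) • (y - B.b (a * t) y) := by
    have e : ∀ t : ℝ, Real.exp (-t) • (y - B.b (a * t) y)
        = Real.exp (-t) • y - Real.exp (-t) • B.b (a * t) y := fun t => smul_sub _ _ _
    simp only [e]
    have hi : IntegrableOn (fun t : ℝ => Real.exp (-t) • y) (Ioi 0) :=
      integrable_exp_neg.smul_const y
    rw [integral_sub hi (B.integrable_res a y), integral_smul_const, integral_exp_neg, one_smul,
      ← B.res_apply]
  have hi2 : IntegrableOn (fun t : ℝ => Real.exp (-t) • (y - B.b (a * t) y)) (Ioi 0) := by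
    have e : (fun t : ℝ => Real.exp (-t) • (y - B.b (a * t) y))
        = fun t => Real.exp (-t) • y - Real.exp (-t) • B.b (a * t) y := funext fun t =>
      smul_sub _ _ _
    rw [e]
    exact (integrable_exp_neg.smul_const y).sub (B.integrable_res a y)
  rw [h1, ← inner_conj_symm, Complex.conj_re, ← integral_inner hi2 y]
  have h3 : (∫ t in Ioi (0 : ℝ), inner ℂ y (Real.exp (-t) • (y - B.b (a * t) y))).re
      = ∫ t in Ioi (0 : ℝ), (inner ℂ y (Real.exp (-t) • (y - B.b (a * t) y))).re :=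
    (Complex.reCLM.integral_comp_comm (hi2.const_inner y)).symm
  rw [h3]
  refine integral_congr_ae (Eventually.of_forall fun t => ?_)
  change (inner ℂ y (Real.exp (-t) • (y - B.b (a * t) y))).re
    = Real.exp (-t) * (‖B.b (a * t) y - y‖ ^ 2 / 2)
  have e1 : Real.exp (-t) • (y - B.b (a * t) y)
      = ((Real.exp (-t) : ℝ) : ℂ) • (y - B.b (a * t) y) := by rw [Complex.coe_smul]
  rw [e1, inner_smul_right, Complex.re_ofReal_mul]
  congr 1
  have h4 := norm_sub_sq (𝕜 := ℂ) (B.b (a * t) y) y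
  rw [B.norm] at h4
  rw [h4, inner_sub_right, Complex.sub_re]
  have h5 : (inner ℂ y y).re = ‖y‖ ^ 2 := by
    have := inner_self_eq_norm_sq (𝕜 := ℂ) y
    simpa using this
  have h6 : (inner ℂ y (B.b (a * t) y)).re = RCLike.re (inner ℂ (B.b (a * t) y) y) :=
    inner_re_symm (𝕜 := ℂ) y (B.b (a * t) y)
  rw [h5, h6]
  ring

theorem re_inner_lap (a : ℝ) (y : K) : (inner ℂ (y - B.lap a y) y).re
    = ∫ t in Ioi (0 : ℝ), Real.exp (-t) * (‖B.b (a * t) y - y‖ ^ 2 / 2) := by
  have h1 := B.re_inner_res a y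
  have h2 := B.re_inner_res (-a) y
  have h3 : ∀ t : ℝ, ‖B.b (-a * t) y - y‖ = ‖B.b (a * t) y - y‖ := fun t => by
    rw [neg_mul, B.norm_neg_sub]
  simp only [h3] at h2
  have e : y - B.lap a y = ((2⁻¹ : ℝ) : ℂ) • ((y - B.res a y) + (y - B.res (-a) y)) := by
    have h0 : B.lap a y = (2⁻¹ : ℝ) • (B.res a y + B.res (-a) y) := rfl
    have h4 : (y - B.res a y) + (y - B.res (-a) y)
        = (2 : ℝ) • y - (B.res a y + B.res (-a) y) := by
      rw [two_smul]
      abel
    rw [h0, Complex.coe_smul, h4, smul_sub, smul_smul]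
    norm_num
  rw [e, inner_smul_left, Complex.conj_ofReal, Complex.re_ofReal_mul, inner_add_left,
    Complex.add_re, h1, h2]
  ring

theorem lap_high {C κ : ℝ} (hC : 0 ≤ C) (hκ : 0 ≤ κ) (y : K)
    (h : ∀ l, ‖B.b l y - y‖ ^ 2 ≤ C * |l| + κ) {a : ℝ} (ha : 0 ≤ a) :
    (inner ℂ (y - B.lap a y) y).re ≤ (C * a + κ) / 2 := by
  rw [re_inner_lap]
  have hint2 : IntegrableOn (fun t : ℝ => Real.exp (-t) * t) (Ioi 0) := by
    have := Real.GammaIntegral_convergent (s := 2) (by norm_num)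
    refine this.congr_fun ?_ measurableSet_Ioi
    intro t ht
    norm_num
  have hval : ∫ t in Ioi (0 : ℝ), Real.exp (-t) * t = 1 := by
    have h1 := Real.Gamma_eq_integral (s := 2) (by norm_num)
    rw [Real.Gamma_two] at h1
    rw [h1]
    refine setIntegral_congr_fun measurableSet_Ioi fun t ht => ?_
    norm_num
  calc ∫ t in Ioi (0 : ℝ), Real.exp (-t) * (‖B.b (a * t) y - y‖ ^ 2 / 2)
      ≤ ∫ t in Ioi (0 : ℝ), (C * a / 2) * (Real.exp (-t) * t) + (κ / 2) * Real.exp (-t) := by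
        refine setIntegral_mono_on ?_ ?_ measurableSet_Ioi fun t ht => ?_
        · refine Integrable.mono' (g := fun t : ℝ => Real.exp (-t) * (2 * ‖y‖ ^ 2))
            (integrable_exp_neg.mul_const _) ?_ ?_
          · have hc : Continuous fun t : ℝ => Real.exp (-t) * (‖B.b (a * t) y - y‖ ^ 2 / 2) :=
              cont_exp_neg.mul ((((B.cont_mul a y).sub continuous_const).norm.pow 2).div_const 2)
            exact hc.aestronglyMeasurable
          · refine Eventually.of_forall fun t => ?_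
            rw [Real.norm_eq_abs, abs_of_nonneg (by positivity)]
            refine mul_le_mul_of_nonneg_left ?_ (Real.exp_pos _).le
            have h5 : ‖B.b (a * t) y - y‖ ≤ 2 * ‖y‖ := by
              have := norm_sub_le (B.b (a * t) y) y
              rw [B.norm] at this
              linarith
            have h6 := pow_le_pow_left₀ (norm_nonneg _) h5 2
            nlinarith
        · exact (hint2.const_mul _).add (integrable_exp_neg.const_mul _)
        · have ht0 : 0 < t := ht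
          have h5 := h (a * t)
          rw [abs_of_nonneg (by positivity)] at h5
          have h6 : Real.exp (-t) * (‖B.b (a * t) y - y‖ ^ 2 / 2)
              ≤ Real.exp (-t) * ((C * (a * t) + κ) / 2) :=
            mul_le_mul_of_nonneg_left (by linarith) (Real.exp_pos _).le
          refine h6.trans (le_of_eq ?_)
          ring
    _ = (C * a + κ) / 2 := by
        rw [integral_add (hint2.const_mul _) (integrable_exp_neg.const_mul _),
          integral_const_mul, integral_const_mul, hval, integral_exp_neg]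
        ring

theorem lap_low (y : K) {l ε : ℝ} (hε : 0 ≤ ε) (h : ε ≤ ‖B.b l y - y‖) :
    ε ^ 2 / 24 ≤ (inner ℂ (y - B.lap l y) y).re := by
  rw [re_inner_lap]
  have hc : Continuous fun t : ℝ => Real.exp (-t) * (‖B.b (l * t) y - y‖ ^ 2 / 2) :=
    cont_exp_neg.mul ((((B.cont_mul l y).sub continuous_const).norm.pow 2).div_const 2)
  have hc2 : Continuous fun t : ℝ => ‖B.b (l * t) y - y‖ ^ 2 :=
    ((B.cont_mul l y).sub continuous_const).norm.pow 2
  have hi : IntegrableOn (fun t : ℝ => Real.exp (-t) * (‖B.b (l * t) y - y‖ ^ 2 / 2)) (Ioi 0) := by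
    refine Integrable.mono' (g := fun t : ℝ => Real.exp (-t) * (2 * ‖y‖ ^ 2))
      (integrable_exp_neg.mul_const _) hc.aestronglyMeasurable ?_
    refine Eventually.of_forall fun t => ?_
    rw [Real.norm_eq_abs, abs_of_nonneg (by positivity)]
    refine mul_le_mul_of_nonneg_left ?_ (Real.exp_pos _).le
    have h5 : ‖B.b (l * t) y - y‖ ≤ 2 * ‖y‖ := by
      have := norm_sub_le (B.b (l * t) y) y
      rw [B.norm] at this
      linarith
    have h6 := pow_le_pow_left₀ (norm_nonneg _) h5 2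
    nlinarith
  have h1 : ∫ t in (0 : ℝ)..1, Real.exp (-t) * (‖B.b (l * t) y - y‖ ^ 2 / 2)
      ≤ ∫ t in Ioi (0 : ℝ), Real.exp (-t) * (‖B.b (l * t) y - y‖ ^ 2 / 2) := by
    rw [intervalIntegral.integral_of_le zero_le_one]
    exact setIntegral_mono_set hi (Eventually.of_forall fun t => by positivity)
      (Eventually.of_forall Ioc_subset_Ioi_self)
  refine le_trans ?_ h1
  have h2 : ∫ t in (0 : ℝ)..1, (1 / 6 : ℝ) * ‖B.b (l * t) y - y‖ ^ 2
      ≤ ∫ t in (0 : ℝ)..1, Real.exp (-t) * (‖B.b (l * t) y - y‖ ^ 2 / 2) := by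
    refine intervalIntegral.integral_mono_on zero_le_one
      ((continuous_const.mul hc2).intervalIntegrable _ _) (hc.intervalIntegrable _ _)
      fun t ht => ?_
    have h3 : (1 / 3 : ℝ) ≤ Real.exp (-t) := by
      have h4 : Real.exp (-1) ≤ Real.exp (-t) := Real.exp_le_exp.2 (by linarith [ht.2])
      have h5 : (1 / 3 : ℝ) ≤ Real.exp (-1) := by
        rw [Real.exp_neg, ← one_div]
        exact one_div_le_one_div_of_le (Real.exp_pos _)
          (by linarith [Real.exp_one_lt_d9])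
      exact h5.trans h4
    have h6 := mul_le_mul_of_nonneg_right h3
      (show 0 ≤ ‖B.b (l * t) y - y‖ ^ 2 / 2 by positivity)
    linarith
  refine le_trans ?_ h2
  rw [intervalIntegral.integral_const_mul]
  have h7 : ∫ t in (0 : ℝ)..1, ‖B.b (l * (1 - t)) y - y‖ ^ 2
      = ∫ t in (0 : ℝ)..1, ‖B.b (l * t) y - y‖ ^ 2 := by
    have := intervalIntegral.integral_comp_sub_left (a := 0) (b := 1)
      (fun t : ℝ => ‖B.b (l * t) y - y‖ ^ 2) 1
    rw [this]
    norm_num
  have hc3 : Continuous fun t : ℝ => ‖B.b (l * (1 - t)) y - y‖ ^ 2 :=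
    hc2.comp (continuous_const.sub continuous_id)
  have h8 : ∫ t in (0 : ℝ)..1, (ε ^ 2 / 2)
      ≤ ∫ t in (0 : ℝ)..1, (‖B.b (l * t) y - y‖ ^ 2 + ‖B.b (l * (1 - t)) y - y‖ ^ 2) := by
    refine intervalIntegral.integral_mono_on zero_le_one
      (continuous_const.intervalIntegrable _ _) ((hc2.add hc3).intervalIntegrable _ _)
      fun t ht => ?_
    have e : B.b l y - y = B.b (l * t) (B.b (l * (1 - t)) y - y) + (B.b (l * t) y - y) := by
      rw [map_sub, ← B.add_apply]
      have : l * t + l * (1 - t) = l := by ring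
      rw [this]
      abel
    have h9 : ε ≤ ‖B.b (l * (1 - t)) y - y‖ + ‖B.b (l * t) y - y‖ := by
      refine h.trans ?_
      rw [e]
      refine (norm_add_le _ _).trans ?_
      rw [B.norm]
    have h10 := pow_le_pow_left₀ hε h9 2
    nlinarith [sq_nonneg (‖B.b (l * (1 - t)) y - y‖ - ‖B.b (l * t) y - y‖)]
  rw [intervalIntegral.integral_add (hc2.intervalIntegrable _ _) (hc3.intervalIntegrable _ _),
    h7, intervalIntegral.integral_const] at h8
  simp only [sub_zero, one_smul] at h8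
  linarith

end UG

end Pool.Agent.AbCoc
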