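import Pool.Agent.Lib_MP_418a80_t3.WtR2

/-!
# Lemma R: a finite combination of translates which is almost an eigenvector of dilations
-/

set_option autoImplicit false
set_option linter.unusedVariables false
set_option linter.unusedSectionVars false

open Topology Filter MeasureTheory Set

namespace Pool.Agent.AbCoc

universe v

/-- weights of the cells -/
noncomputable def rw0 (d : ℝ) (k : ℕ) : ℝ := Real.exp (-(k * d)) - Real.exp (-((k + 1 : ℕ) * d))

theorem rw0_nonneg {d : ℝ} (hd : 0 ≤ d) (k : ℕ) : 0 ≤ rw0 d k := by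
  unfold rw0
  rw [sub_nonneg]
  refine Real.exp_le_exp.2 ?_
  push_cast
  nlinarith

theorem sum_rw0 (d : ℝ) (n : ℕ) :
    ∑ k ∈ Finset.range n, rw0 d k + Real.exp (-(n * d)) = 1 := by
  have h := Finset.sum_range_sub' (fun k : ℕ => Real.exp (-(k * d))) n
  have e : ∑ k ∈ Finset.range n, rw0 d k
      = ∑ k ∈ Finset.range n, (Real.exp (-((k : ℕ) * d)) - Real.exp (-(((k + 1 : ℕ) : ℝ) * d))) :=
    rfl
  rw [e, h]
  simp

/-- the formal one-sided sum -/
noncomputable def rt (n : ℕ) (d : ℝ) (σ : ℝ) : AddMonoidAlgebra ℂ ℝ :=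
  ∑ k ∈ Finset.range n, AddMonoidAlgebra.single (σ * (k * d)) ((rw0 d k : ℝ) : ℂ)
    + AddMonoidAlgebra.single (σ * (n * d)) ((Real.exp (-(n * d)) : ℝ) : ℂ)

/-- the formal symmetric sum -/
noncomputable def rp (n : ℕ) (d : ℝ) : AddMonoidAlgebra ℂ ℝ :=
  (2⁻¹ : ℂ) • (rt n d 1 + rt n d (-1))

namespace UG

variable {K : Type v} [NormedAddCommGroup K] [InnerProductSpace ℂ K] (B : UG K)

/-- evaluation of a finite combination, dilated by `a` -/
noncomputable def ev (F : ℝ →₀ ℂ) (a : ℝ) : K →L[ℂ] K := F.sum fun l c => c • B.b (a * l)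

/-- the multiplicative homomorphism `l ↦ b (a l)` -/
noncomputable def hom (a : ℝ) : Multiplicative ℝ →* (K →L[ℂ] K) where
  toFun l := B.b (a * l.toAdd)
  map_one' := by
    change B.b (a * 0) = 1
    rw [mul_zero, B.zero]
  map_mul' x y := by
    change B.b (a * (x.toAdd + y.toAdd)) = _
    rw [mul_add, B.add]

/-- evaluation as an algebra homomorphism -/
noncomputable def evA (a : ℝ) : AddMonoidAlgebra ℂ ℝ →ₐ[ℂ] (K →L[ℂ] K) :=
  AddMonoidAlgebra.lift ℂ (K →L[ℂ] K) ℝ (B.hom a)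

theorem evA_single (a l : ℝ) (c : ℂ) :
    B.evA a (AddMonoidAlgebra.single l c) = c • B.b (a * l) :=
  AddMonoidAlgebra.lift_single _ _ _

theorem evA_eq (a : ℝ) (F : AddMonoidAlgebra ℂ ℝ) : B.evA a F = B.ev F.coeff a :=
  AddMonoidAlgebra.lift_apply _ _

variable [CompleteSpace K]

theorem evA_rt (a : ℝ) (n : ℕ) (d σ : ℝ) : B.evA a (rt n d σ)
    = ∑ k ∈ Finset.range n, rw0 d k • B.b (a * (σ * (k * d)))
      + Real.exp (-(n * d)) • B.b (a * (σ * (n * d))) := by
  unfold rt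
  rw [map_add, map_sum, B.evA_single]
  simp only [B.evA_single, Complex.coe_smul]

theorem norm_b_le (t : ℝ) : ‖B.b t‖ ≤ 1 :=
  ContinuousLinearMap.opNorm_le_bound _ zero_le_one fun v => by rw [B.norm, one_mul]

theorem star_b (t : ℝ) : star (B.b t) = B.b (-t) := by
  rw [ContinuousLinearMap.star_eq_adjoint]
  symm
  rw [ContinuousLinearMap.eq_adjoint_iff]
  intro x y
  rw [B.inner_left, neg_neg]

theorem norm_evA_rt_le (a : ℝ) (n : ℕ) {d : ℝ} (hd : 0 ≤ d) (σ : ℝ) :
    ‖B.evA a (rt n d σ)‖ ≤ 1 := by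
  rw [evA_rt]
  refine (norm_add_le _ _).trans ?_
  refine (add_le_add (norm_sum_le _ _) le_rfl).trans ?_
  rw [← sum_rw0 d n]
  refine add_le_add (Finset.sum_le_sum fun k _ => ?_) ?_
  · rw [norm_smul, Real.norm_eq_abs, abs_of_nonneg (rw0_nonneg hd k)]
    calc rw0 d k * ‖B.b (a * (σ * (k * d)))‖ ≤ rw0 d k * 1 :=
          mul_le_mul_of_nonneg_left (B.norm_b_le _) (rw0_nonneg hd k)
      _ = rw0 d k := mul_one _
  · rw [norm_smul, Real.norm_eq_abs, abs_of_pos (Real.exp_pos _)]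
    calc Real.exp (-(n * d)) * ‖B.b (a * (σ * (n * d)))‖ ≤ Real.exp (-(n * d)) * 1 :=
          mul_le_mul_of_nonneg_left (B.norm_b_le _) (Real.exp_pos _).le
      _ = Real.exp (-(n * d)) := mul_one _

theorem evA_rp (a : ℝ) (n : ℕ) (d : ℝ) : B.evA a (rp n d)
    = (2⁻¹ : ℝ) • (B.evA a (rt n d 1) + B.evA a (rt n d (-1))) := by
  unfold rp
  rw [map_smul, map_add]
  have e : (2⁻¹ : ℂ) = ((2⁻¹ : ℝ) : ℂ) := by norm_num
  rw [e, Complex.coe_smul]

theorem norm_evA_rp_le (a : ℝ) (n : ℕ) {d : ℝ} (hd : 0 ≤ d) : ‖B.evA a (rp n d)‖ ≤ 1 := by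
  rw [evA_rp, norm_smul, Real.norm_eq_abs, abs_of_pos (by norm_num : (0 : ℝ) < 2⁻¹)]
  have := (norm_add_le (B.evA a (rt n d 1)) (B.evA a (rt n d (-1)))).trans
    (add_le_add (B.norm_evA_rt_le a n hd 1) (B.norm_evA_rt_le a n hd (-1)))
  linarith

theorem star_evA_rt (a : ℝ) (n : ℕ) (d σ : ℝ) :
    star (B.evA a (rt n d σ)) = B.evA a (rt n d (-σ)) := by
  rw [evA_rt, evA_rt, star_add, star_sum, star_smul, B.star_b, star_trivial]
  congr 1
  · refine Finset.sum_congr rfl fun k _ => ?_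
    rw [star_smul, B.star_b, star_trivial]
    congr 2
    ring
  · congr 2
    ring

theorem evA_rp_sa (a : ℝ) (n : ℕ) (d : ℝ) : IsSelfAdjoint (B.evA a (rp n d)) := by
  rw [isSelfAdjoint_iff, evA_rp, star_smul, star_add, star_evA_rt, star_evA_rt, star_trivial,
    neg_neg, add_comm]

theorem commute_evA (L : K →L[ℂ] K) (hL : ∀ t, L * B.b t = B.b t * L) (a : ℝ)
    (F : AddMonoidAlgebra ℂ ℝ) : L * B.evA a F = B.evA a F * L := by
  rw [evA_eq]
  unfold ev Finsupp.sum
  rw [Finset.mul_sum, Finset.sum_mul]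
  refine Finset.sum_congr rfl fun l _ => ?_
  rw [mul_smul_comm, smul_mul_assoc, hL]

/-- the one-sided Riemann sum -/
theorem norm_res_sub_rt (y : K) (hy : ‖y‖ ≤ 1) {d σ0 : ℝ} (hd : 0 ≤ d) (a : ℝ)
    (h : ∀ t, 0 ≤ t → t ≤ d → ‖B.b (a * t) y - y‖ ≤ σ0) (n : ℕ) :
    ‖B.res a y - B.evA a (rt n d 1) y‖ ≤ σ0 + 2 * Real.exp (-(n * d)) := by
  have hσ : 0 ≤ σ0 := (norm_nonneg _).trans (h 0 le_rfl hd)
  have hint : ∀ τ : ℝ, IntegrableOn (fun u : ℝ => Real.exp (-u) • B.b (a * u) y) (Ioi τ) := by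
    intro τ
    refine Integrable.mono' (g := fun t : ℝ => Real.exp (-t) * ‖y‖)
      ((integrableOn_exp_neg_Ioi τ).mul_const _) ?_ ?_
    · exact (B.cont_exp_smul a y).aestronglyMeasurable
    · refine Eventually.of_forall fun t => ?_
      rw [norm_smul, B.norm, Real.norm_eq_abs, abs_of_pos (Real.exp_pos _)]
  have hcell : ∀ k : ℕ, ‖(∫ t in ((k : ℝ) * d)..((k + 1 : ℕ) * d), Real.exp (-t) • B.b (a * t) y)
      - rw0 d k • B.b (a * (k * d)) y‖ ≤ rw0 d k * σ0 := by
    intro k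
    have hle : (k : ℝ) * d ≤ ((k + 1 : ℕ) : ℝ) * d := by push_cast; nlinarith
    have e1 : rw0 d k • B.b (a * (k * d)) y
        = ∫ t in ((k : ℝ) * d)..((k + 1 : ℕ) * d), Real.exp (-t) • B.b (a * (k * d)) y := by
      rw [intervalIntegral.integral_smul_const]
      congr 1
      rw [intervalIntegral.integral_comp_neg (fun t => Real.exp t), integral_exp]
      rfl
    have hcc : Continuous fun t : ℝ => Real.exp (-t) • B.b (a * (k * d)) y :=
      cont_exp_neg.smul continuous_const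
    rw [e1, ← intervalIntegral.integral_sub
      ((B.cont_exp_smul a y).intervalIntegrable _ _) (hcc.intervalIntegrable _ _)]
    have e2 : rw0 d k * σ0 = ∫ t in ((k : ℝ) * d)..((k + 1 : ℕ) * d), Real.exp (-t) * σ0 := by
      rw [intervalIntegral.integral_mul_const]
      congr 1
      rw [intervalIntegral.integral_comp_neg (fun t => Real.exp t), integral_exp]
      rfl
    rw [e2]
    refine intervalIntegral.norm_integral_le_of_norm_le hle ?_
      ((cont_exp_neg.mul continuous_const).intervalIntegrable _ _)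
    refine Eventually.of_forall fun t ht => ?_
    rw [← smul_sub, norm_smul, Real.norm_eq_abs, abs_of_pos (Real.exp_pos _)]
    refine mul_le_mul_of_nonneg_left ?_ (Real.exp_pos _).le
    have e3 : B.b (a * t) y - B.b (a * (k * d)) y
        = B.b (a * (k * d)) (B.b (a * (t - k * d)) y - y) := by
      rw [map_sub, ← B.add_apply]
      congr 3
      ring
    rw [e3, B.norm]
    refine h _ (by linarith [ht.1]) ?_
    have := ht.2
    push_cast at this
    linarith
  have hmain : ∀ m : ℕ, ‖B.res a y - (∑ k ∈ Finset.range m, rw0 d k • B.b (a * (k * d)) y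
      + ∫ t in Ioi ((m : ℝ) * d), Real.exp (-t) • B.b (a * t) y)‖
      ≤ (∑ k ∈ Finset.range m, rw0 d k) * σ0 := by
    intro m
    induction m with
    | zero =>
      rw [Finset.sum_range_zero, Finset.sum_range_zero, zero_add, Nat.cast_zero, zero_mul,
        ← B.res_apply, sub_self, norm_zero, zero_mul]
    | succ m ih =>
      have e1 : ∫ t in Ioi ((m : ℝ) * d), Real.exp (-t) • B.b (a * t) y
          = (∫ t in ((m : ℝ) * d)..((m + 1 : ℕ) * d), Real.exp (-t) • B.b (a * t) y)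
            + ∫ t in Ioi (((m + 1 : ℕ) : ℝ) * d), Real.exp (-t) • B.b (a * t) y := by
        have := intervalIntegral.integral_Ioi_sub_Ioi' (hint ((m : ℝ) * d))
          (hint (((m + 1 : ℕ) : ℝ) * d))
        rw [← this]
        abel
      rw [Finset.sum_range_succ, Finset.sum_range_succ]
      have e2 : B.res a y - (∑ k ∈ Finset.range m, rw0 d k • B.b (a * (k * d)) y
            + rw0 d m • B.b (a * (m * d)) y
            + ∫ t in Ioi (((m + 1 : ℕ) : ℝ) * d), Real.exp (-t) • B.b (a * t) y)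
          = (B.res a y - (∑ k ∈ Finset.range m, rw0 d k • B.b (a * (k * d)) y
              + ∫ t in Ioi ((m : ℝ) * d), Real.exp (-t) • B.b (a * t) y))
            + ((∫ t in ((m : ℝ) * d)..((m + 1 : ℕ) * d), Real.exp (-t) • B.b (a * t) y)
              - rw0 d m • B.b (a * (m * d)) y) := by
        rw [e1]
        abel
      rw [e2, add_mul]
      exact (norm_add_le _ _).trans (add_le_add ih (hcell m))
  have htail : ‖(∫ t in Ioi ((n : ℝ) * d), Real.exp (-t) • B.b (a * t) y)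
      - Real.exp (-(n * d)) • B.b (a * (1 * (n * d))) y‖ ≤ 2 * Real.exp (-(n * d)) := by
    refine (norm_sub_le _ _).trans ?_
    have h1 : ‖∫ t in Ioi ((n : ℝ) * d), Real.exp (-t) • B.b (a * t) y‖
        ≤ Real.exp (-(n * d)) := by
      refine (norm_integral_le_integral_norm _).trans ?_
      have e : ∫ t in Ioi ((n : ℝ) * d), ‖Real.exp (-t) • B.b (a * t) y‖
          = Real.exp (-(n * d)) * ‖y‖ := by
        rw [← integral_exp_neg_Ioi, ← integral_mul_const]
        refine integral_congr_ae (Eventually.of_forall fun t => ?_)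
        simp only [norm_smul, B.norm, Real.norm_eq_abs, abs_of_pos (Real.exp_pos _)]
      rw [e]
      exact mul_le_of_le_one_right (Real.exp_pos _).le hy
    have h2 : ‖Real.exp (-(n * d)) • B.b (a * (1 * (n * d))) y‖ ≤ Real.exp (-(n * d)) := by
      rw [norm_smul, B.norm, Real.norm_eq_abs, abs_of_pos (Real.exp_pos _)]
      exact mul_le_of_le_one_right (Real.exp_pos _).le hy
    linarith
  have e : B.res a y - B.evA a (rt n d 1) y
      = (B.res a y - (∑ k ∈ Finset.range n, rw0 d k • B.b (a * (k * d)) y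
          + ∫ t in Ioi ((n : ℝ) * d), Real.exp (-t) • B.b (a * t) y))
        + ((∫ t in Ioi ((n : ℝ) * d), Real.exp (-t) • B.b (a * t) y)
          - Real.exp (-(n * d)) • B.b (a * (1 * (n * d))) y) := by
    rw [evA_rt]
    simp only [_root_.add_apply, _root_.sum_apply,
      _root_.smul_apply, one_mul]
    abel
  rw [e]
  refine (norm_add_le _ _).trans (add_le_add ((hmain n).trans ?_) htail)
  have h3 : ∑ k ∈ Finset.range n, rw0 d k ≤ 1 := by
    have := sum_rw0 d n
    linarith [Real.exp_pos (-(n * d))]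
  exact mul_le_of_le_one_left hσ h3

theorem evA_rt_neg (a : ℝ) (n : ℕ) (d : ℝ) : B.evA a (rt n d (-1)) = B.evA (-a) (rt n d 1) := by
  rw [evA_rt, evA_rt]
  congr 1
  · refine Finset.sum_congr rfl fun k _ => ?_
    congr 2
    ring
  · congr 2
    ring

theorem norm_lap_sub_rp (y : K) (hy : ‖y‖ ≤ 1) {d σ0 : ℝ} (hd : 0 ≤ d) (a : ℝ)
    (h : ∀ t, 0 ≤ t → t ≤ d → ‖B.b (a * t) y - y‖ ≤ σ0) (n : ℕ) :
    ‖B.lap a y - B.evA a (rp n d) y‖ ≤ σ0 + 2 * Real.exp (-(n * d)) := by
  have h1 := B.norm_res_sub_rt y hy hd a h n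
  have h2 := B.norm_res_sub_rt y hy hd (-a) (σ0 := σ0) (fun t ht htd => by
    rw [neg_mul, B.norm_neg_sub]
    exact h t ht htd) n
  rw [← evA_rt_neg] at h2
  have e : B.lap a y - B.evA a (rp n d) y
      = (2⁻¹ : ℝ) • ((B.res a y - B.evA a (rt n d 1) y)
        + (B.res (-a) y - B.evA a (rt n d (-1)) y)) := by
    have e1 : B.lap a y = (2⁻¹ : ℝ) • (B.res a y + B.res (-a) y) := rfl
    have e2 : B.evA a (rp n d) y
        = (2⁻¹ : ℝ) • (B.evA a (rt n d 1) y + B.evA a (rt n d (-1)) y) := by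
      rw [evA_rp]
      rfl
    rw [e1, e2, ← smul_sub]
    congr 1
    abel
  rw [e, norm_smul, Real.norm_eq_abs, abs_of_pos (by norm_num : (0 : ℝ) < 2⁻¹)]
  have h3 := (norm_add_le (B.res a y - B.evA a (rt n d 1) y)
    (B.res (-a) y - B.evA a (rt n d (-1)) y)).trans (add_le_add h1 h2)
  linarith

/-- powers of commuting contractions -/
theorem norm_pow_sub_pow_le {P Q : K →L[ℂ] K} (hP : ‖P‖ ≤ 1) (hQ : ‖Q‖ ≤ 1) (hPQ : P * Q = Q * P)
    (y : K) {ε : ℝ} (h : ‖P y - Q y‖ ≤ ε) (k : ℕ) : ‖(P ^ k) y - (Q ^ k) y‖ ≤ k * ε := by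
  induction k with
  | zero => simp
  | succ k ih =>
    have hc : Commute P Q := hPQ
    have e1 : (P ^ (k + 1)) y = (P ^ k) (P y) := by rw [pow_succ]; rfl
    have e2 : (Q ^ (k + 1)) y = Q ((Q ^ k) y) := by rw [pow_succ']; rfl
    have e3 : (P ^ k) (Q y) = Q ((P ^ k) y) := by
      have := (hc.pow_left k).eq
      exact DFunLike.congr_fun this y
    have e4 : (P ^ (k + 1)) y - (Q ^ (k + 1)) y
        = (P ^ k) (P y - Q y) + Q ((P ^ k) y - (Q ^ k) y) := by
      rw [e1, e2, map_sub, map_sub, e3]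
      abel
    rw [e4]
    have h1 : ‖(P ^ k) (P y - Q y)‖ ≤ ε := by
      refine ((P ^ k).le_opNorm _).trans ?_
      have : ‖P ^ k‖ ≤ 1 := by
        rcases Nat.eq_zero_or_pos k with hk | hk
        · rw [hk, pow_zero]
          exact norm_one_le
        · exact (norm_pow_le' P hk).trans (pow_le_one₀ (norm_nonneg _) hP)
      calc ‖P ^ k‖ * ‖P y - Q y‖ ≤ 1 * ε :=
            mul_le_mul this h (norm_nonneg _) zero_le_one
        _ = ε := one_mul _
    have h2 : ‖Q ((P ^ k) y - (Q ^ k) y)‖ ≤ k * ε := by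
      refine (Q.le_opNorm _).trans ?_
      calc ‖Q‖ * ‖(P ^ k) y - (Q ^ k) y‖ ≤ 1 * (k * ε) :=
            mul_le_mul hQ ih (norm_nonneg _) zero_le_one
        _ = k * ε := one_mul _
    refine ((norm_add_le _ _).trans (add_le_add h1 h2)).trans (le_of_eq ?_)
    rw [Nat.cast_succ]
    ring

/-- polynomials of commuting contractions -/
theorem norm_aeval_sub_le {P Q : K →L[ℂ] K} (hP : ‖P‖ ≤ 1) (hQ : ‖Q‖ ≤ 1) (hPQ : P * Q = Q * P)
    (y : K) {ε : ℝ} (h : ‖P y - Q y‖ ≤ ε) (π : Polynomial ℝ) :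
    ‖Polynomial.aeval P π y - Polynomial.aeval Q π y‖
      ≤ (∑ k ∈ Finset.range (π.natDegree + 1), |π.coeff k| * k) * ε := by
  rw [Polynomial.aeval_eq_sum_range, Polynomial.aeval_eq_sum_range]
  simp only [_root_.sum_apply, _root_.smul_apply]
  rw [← Finset.sum_sub_distrib, Finset.sum_mul]
  refine (norm_sum_le _ _).trans (Finset.sum_le_sum fun k _ => ?_)
  rw [← smul_sub, norm_smul, Real.norm_eq_abs, mul_assoc]
  exact mul_le_mul_of_nonneg_left (norm_pow_sub_pow_le hP hQ hPQ y h k) (abs_nonneg _)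

end UG

end Pool.Agent.AbCoc
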