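import Pool.Agent.Lib_MP_418a80_t3.WtR3

/-!
# Lemma R: a finite combination of translates which is almost an eigenvector of dilations
-/

set_option autoImplicit false
set_option linter.unusedVariables false
set_option linter.unusedSectionVars false

open Topology Filter MeasureTheory Set

namespace Pool.Agent.AbCoc

universe v

namespace UG

section
variable {K : Type v} [NormedAddCommGroup K] [InnerProductSpace ℂ K] [CompleteSpace K] (B : UG K)

theorem cfc_wh_sub_le {a : ℝ} (ha : a ≠ 0) (π : Polynomial ℝ) (f : ℝ → ℝ) (hf : Continuous f)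
    {ε : ℝ} (hε : 0 ≤ ε) (h : ∀ t ∈ Icc (-1 : ℝ) 1, |π.eval t - f t| ≤ ε) :
    ‖Polynomial.aeval (B.lap a) π - cfc (fun p => f (wh a p)) (B.lap 1)‖ ≤ ε := by
  have hsub : spectrum ℝ (B.lap 1) ⊆ Icc (0 : ℝ) 1 := fun x hx => B.spec_lap hx
  have hc : ContinuousOn (wh a) (spectrum ℝ (B.lap 1)) := (continuousOn_wh ha).mono hsub
  rw [B.aeval_lap ha, ← cfc_sub (fun p => π.eval (wh a p)) (fun p => f (wh a p)) (B.lap 1)
    (π.continuous.comp_continuousOn hc) (hf.comp_continuousOn hc)]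
  refine norm_cfc_le hε fun x hx => ?_
  have hm := wh_mem ha (hsub hx).1 (hsub hx).2
  exact h _ ⟨by linarith [hm.1], hm.2⟩

theorem norm_aeval_le {Q : K →L[ℂ] K} (hQ : IsSelfAdjoint Q) (hn : ‖Q‖ ≤ 1) (π : Polynomial ℝ)
    {c : ℝ} (hc : 0 ≤ c) (h : ∀ t ∈ Icc (-1 : ℝ) 1, |π.eval t| ≤ c) :
    ‖Polynomial.aeval Q π‖ ≤ c := by
  rw [← cfc_polynomial π Q hQ]
  refine norm_cfc_le hc fun x hx => ?_
  have := spec_le hn hx
  exact h x ⟨(abs_le.1 this).1, (abs_le.1 this).2⟩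

/-- the norm of `(A₁ + i A₂) y` for commuting self-adjoint operators -/
theorem norm_sq_comb {A1 A2 : K →L[ℂ] K} (h1 : IsSelfAdjoint A1) (h2 : IsSelfAdjoint A2)
    (hc : A1 * A2 = A2 * A1) (y : K) :
    ‖A1 y + Complex.I • A2 y‖ ^ 2 = (inner ℂ ((A1 * A1 + A2 * A2) y) y).re := by
  have s1 : ∀ u v : K, inner ℂ (A1 u) v = inner ℂ u (A1 v) := fun u v => by
    have := h1.isSymmetric u v
    exact this
  have s2 : ∀ u v : K, inner ℂ (A2 u) v = inner ℂ u (A2 v) := fun u v => by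
    have := h2.isSymmetric u v
    exact this
  have e : (A1 * A1 + A2 * A2) y = A1 (A1 y) + A2 (A2 y) := rfl
  rw [e, inner_add_left, s1, s2, Complex.add_re]
  have e1 : (inner ℂ (A1 y) (A1 y)).re = ‖A1 y‖ ^ 2 := by
    have := inner_self_eq_norm_sq (𝕜 := ℂ) (A1 y)
    simpa using this
  have e2 : (inner ℂ (A2 y) (A2 y)).re = ‖A2 y‖ ^ 2 := by
    have := inner_self_eq_norm_sq (𝕜 := ℂ) (A2 y)
    simpa using this
  rw [e1, e2]
  have h3 := norm_add_sq (𝕜 := ℂ) (A1 y) (Complex.I • A2 y)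
  have h4 : RCLike.re (inner ℂ (A1 y) (Complex.I • A2 y)) = 0 := by
    have h5 : inner ℂ (A1 y) (A2 y) = inner ℂ (A2 y) (A1 y) := by
      rw [s1, s2]
      have : A1 (A2 y) = A2 (A1 y) := DFunLike.congr_fun hc y
      rw [this]
    have h6 : (inner ℂ (A1 y) (A2 y)).im = 0 := by
      have h7 := inner_conj_symm (𝕜 := ℂ) (A1 y) (A2 y)
      rw [← h5] at h7
      exact Complex.conj_eq_iff_im.1 h7
    rw [inner_smul_right]
    change (Complex.I * inner ℂ (A1 y) (A2 y)).re = 0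
    rw [Complex.I_mul_re, h6, neg_zero]
  rw [h3, h4, norm_smul, Complex.norm_I, one_mul]
  ring

/-- the band carries mass -/
theorem band_mass {μ R : ℝ} (hμ : μ ≠ 0) (hR : 0 < R) (ω : ℝ) {C κ : ℝ} (hC : 0 ≤ C) (hκ : 0 ≤ κ)
    (y : K) (hy : ‖y‖ ≤ 1) (h : ∀ l, ‖B.b l y - y‖ ^ 2 ≤ C * |l| + κ) {l ε : ℝ} (hl : 0 < l)
    (hε : 0 ≤ ε) (hlow : ε ≤ ‖B.b l y - y‖) :
    ε ^ 2 / 24 ≤ 4 * ‖cfc (wf μ R fun u => Real.cos (ω * u)) (B.lap 1) y
        + Complex.I • cfc (wf μ R fun u => Real.sin (ω * u)) (B.lap 1) y‖ ^ 2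
      + (C * Real.exp (-(|μ| * R / 2)) + κ) + l ^ 2 * Real.exp (-(|μ| * R)) := by
  have hsa : IsSelfAdjoint (B.lap 1) := B.lap_sa 1
  have hsub : spectrum ℝ (B.lap 1) ⊆ Icc (0 : ℝ) 1 := fun x hx => B.spec_lap hx
  set f1 := wf μ R fun u => Real.cos (ω * u) with hf1
  set f2 := wf μ R fun u => Real.sin (ω * u) with hf2
  have c1 : Continuous f1 := continuous_wf μ R (by fun_prop)
  have c2 : Continuous f2 := continuous_wf μ R (by fun_prop)
  set a := Real.exp (-(|μ| * R / 2)) with ha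
  have ha0 : 0 < a := Real.exp_pos _
  set c := l ^ 2 * Real.exp (-(|μ| * R)) with hcdef
  have hc0 : 0 ≤ c := by positivity
  have cl : ContinuousOn (wh l) (spectrum ℝ (B.lap 1)) := (continuousOn_wh hl.ne').mono hsub
  have ca : ContinuousOn (wh a) (spectrum ℝ (B.lap 1)) := (continuousOn_wh ha0.ne').mono hsub
  have hle : cfc (fun p => 1 - wh l p) (B.lap 1)
      ≤ cfc (fun p => 4 * (f1 p ^ 2 + f2 p ^ 2) + 2 * (1 - wh a p) + c) (B.lap 1) := by
    refine cfc_mono (fun x hx => ?_) (continuousOn_const.sub cl) ?_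
    · exact wf_band hμ hR hl ω (hsub hx)
    · exact (((continuousOn_const.mul ((c1.pow 2).add (c2.pow 2)).continuousOn).add
        (continuousOn_const.mul (continuousOn_const.sub ca))).add continuousOn_const)
  have e1 : cfc (fun p => 1 - wh l p) (B.lap 1) = 1 - B.lap l := by
    rw [cfc_sub (fun _ : ℝ => (1 : ℝ)) (wh l) (B.lap 1) (by fun_prop) cl, ← B.lap_cfc hl.ne',
      cfc_const_one ℝ (B.lap 1)]
  have e2 : cfc (fun p => 4 * (f1 p ^ 2 + f2 p ^ 2) + 2 * (1 - wh a p) + c) (B.lap 1)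
      = (4 : ℝ) • (cfc f1 (B.lap 1) * cfc f1 (B.lap 1) + cfc f2 (B.lap 1) * cfc f2 (B.lap 1))
        + (2 : ℝ) • (1 - B.lap a) + c • (1 : K →L[ℂ] K) := by
    rw [cfc_add (a := B.lap 1) (fun p => 4 * (f1 p ^ 2 + f2 p ^ 2) + 2 * (1 - wh a p))
        (fun _ => c)
        ((continuousOn_const.mul ((c1.pow 2).add (c2.pow 2)).continuousOn).add
          (continuousOn_const.mul (continuousOn_const.sub ca))) continuousOn_const,
      cfc_add (a := B.lap 1) (fun p => 4 * (f1 p ^ 2 + f2 p ^ 2)) (fun p => 2 * (1 - wh a p))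
        (continuousOn_const.mul ((c1.pow 2).add (c2.pow 2)).continuousOn)
        (continuousOn_const.mul (continuousOn_const.sub ca)),
      cfc_const_mul 4 (fun p => f1 p ^ 2 + f2 p ^ 2) (B.lap 1)
        ((c1.pow 2).add (c2.pow 2)).continuousOn,
      cfc_const_mul 2 (fun p => 1 - wh a p) (B.lap 1) (continuousOn_const.sub ca),
      cfc_add (a := B.lap 1) (fun p => f1 p ^ 2) (fun p => f2 p ^ 2)
        (c1.pow 2).continuousOn (c2.pow 2).continuousOn,
      cfc_sub (fun _ : ℝ => (1 : ℝ)) (wh a) (B.lap 1) (by fun_prop) ca, ← B.lap_cfc ha0.ne',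
      cfc_const_one ℝ (B.lap 1), cfc_const c (B.lap 1), Algebra.algebraMap_eq_smul_one,
      cfc_pow f1 2 (B.lap 1) c1.continuousOn, cfc_pow f2 2 (B.lap 1) c2.continuousOn, pow_two,
      pow_two]
  rw [e1, e2] at hle
  have hpos := (ContinuousLinearMap.le_def _ _).1 hle
  have h5 := hpos.re_inner_nonneg_left y
  have hlow2 := B.lap_low y hε hlow
  have hhigh := B.lap_high hC hκ y h ha0.le
  have hcomm : cfc f1 (B.lap 1) * cfc f2 (B.lap 1) = cfc f2 (B.lap 1) * cfc f1 (B.lap 1) := by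
    rw [← cfc_mul f1 f2 (B.lap 1) c1.continuousOn c2.continuousOn,
      ← cfc_mul f2 f1 (B.lap 1) c2.continuousOn c1.continuousOn]
    exact cfc_congr fun x _ => mul_comm _ _
  have hnorm := norm_sq_comb (cfc_predicate f1 (B.lap 1)) (cfc_predicate f2 (B.lap 1)) hcomm y
  rw [hnorm]
  have e3 : ((4 : ℝ) • (cfc f1 (B.lap 1) * cfc f1 (B.lap 1) + cfc f2 (B.lap 1) * cfc f2 (B.lap 1))
        + (2 : ℝ) • (1 - B.lap a) + c • (1 : K →L[ℂ] K) - (1 - B.lap l)) y
      = ((4 : ℝ) : ℂ) • ((cfc f1 (B.lap 1) * cfc f1 (B.lap 1)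
          + cfc f2 (B.lap 1) * cfc f2 (B.lap 1)) y)
        + ((2 : ℝ) : ℂ) • (y - B.lap a y) + (c : ℂ) • y - (y - B.lap l y) := by
    simp only [Complex.coe_smul]
    rfl
  rw [e3, inner_sub_left, inner_add_left, inner_add_left, inner_smul_left, inner_smul_left,
    inner_smul_left, Complex.conj_ofReal, Complex.conj_ofReal, Complex.conj_ofReal] at h5
  have e4 : (inner ℂ y y : ℂ) = ((‖y‖ ^ 2 : ℝ) : ℂ) := by
    rw [inner_self_eq_norm_sq_to_K]
    push_cast
    rfl
  rw [e4] at h5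
  rw [RCLike.re_eq_complex_re, Complex.sub_re, Complex.add_re, Complex.add_re, Complex.re_ofReal_mul,
    Complex.re_ofReal_mul, ← Complex.ofReal_mul, Complex.ofReal_re] at h5
  have h6 : c * ‖y‖ ^ 2 ≤ c := by
    have : ‖y‖ ^ 2 ≤ 1 := pow_le_one₀ (norm_nonneg _) hy
    calc c * ‖y‖ ^ 2 ≤ c * 1 := mul_le_mul_of_nonneg_left this hc0
      _ = c := mul_one c
  linarith

/-- the combination, evaluated -/
theorem evA_comb (X : AddMonoidAlgebra ℂ ℝ) (π1 π2 : Polynomial ℝ) (a : ℝ) :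
    B.evA a (Polynomial.aeval X (π1.map (algebraMap ℝ ℂ))
        + Complex.I • Polynomial.aeval X (π2.map (algebraMap ℝ ℂ)))
      = Polynomial.aeval (B.evA a X) π1 + Complex.I • Polynomial.aeval (B.evA a X) π2 := by
  rw [map_add, map_smul, ← Polynomial.aeval_algHom_apply, ← Polynomial.aeval_algHom_apply,
    Polynomial.aeval_map_algebraMap, Polynomial.aeval_map_algebraMap]

end

/-- Lemma R -/
theorem lemR {μ S C ε L δ : ℝ} (hμ : μ ≠ 0) (hS : 0 ≤ S) (hC : 0 ≤ C) (hε : 0 < ε) (hL : 0 < L)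
    (ω : ℝ) (hδ : 0 < δ) :
    ∃ (F : ℝ →₀ ℂ) (κ : ℝ), 0 < κ ∧
      ∀ (K : Type v) [NormedAddCommGroup K] [InnerProductSpace ℂ K] [CompleteSpace K]
        (B : UG K) (y : K), ‖y‖ ≤ 1 → (∀ l, ‖B.b l y - y‖ ^ 2 ≤ C * |l| + κ) →
        (∃ l, 0 < l ∧ l ≤ L ∧ ε ≤ ‖B.b l y - y‖) →
        ε ^ 2 / 400 ≤ ‖B.ev F 1 y‖ ^ 2 ∧
        (∀ s, |s| ≤ S → ‖B.ev F (Real.exp (μ * s)) y
          - Complex.exp (Complex.I * (ω * s)) • B.ev F 1 y‖ ≤ δ) ∧
        ∀ a v, ‖B.ev F a v‖ ≤ 3 * ‖v‖ := by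
  have hm := abs_pos.2 hμ
  -- the width of the band
  obtain ⟨η, hη⟩ : ∃ η : ℝ, η = min 1 (ε ^ 2 / (200 * (C + L ^ 2 + 1))) := ⟨_, rfl⟩
  have hηp : 0 < η := by rw [hη]; positivity
  have hη1 : η ≤ 1 := by rw [hη]; exact min_le_left _ _
  have hη2 : η * (200 * (C + L ^ 2 + 1)) ≤ ε ^ 2 := by
    have h := min_le_right 1 (ε ^ 2 / (200 * (C + L ^ 2 + 1)))
    rw [← hη, le_div_iff₀ (by positivity)] at h
    exact h
  obtain ⟨R, hR⟩ : ∃ R : ℝ, R = 2 / (|μ| * η) + 8 * S / δ := ⟨_, rfl⟩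
  have hR0 : 0 < R := by rw [hR]; positivity
  have hRS : S / R ≤ δ / 8 := by
    rw [div_le_div_iff₀ hR0 (by norm_num)]
    have h1 : 8 * S / δ ≤ R := by
      rw [hR]
      have : 0 < 2 / (|μ| * η) := by positivity
      linarith
    have h2 := mul_le_mul_of_nonneg_left h1 hδ.le
    rw [mul_div_cancel₀ _ hδ.ne'] at h2
    linarith
  have hexp : Real.exp (-(|μ| * R / 2)) ≤ η := by
    have h1 : 1 / η ≤ |μ| * R / 2 := by
      have h2 : 2 / (|μ| * η) ≤ R := by
        rw [hR]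
        have : 0 ≤ 8 * S / δ := by positivity
        linarith
      have h3 := mul_le_mul_of_nonneg_left h2 hm.le
      have h4 : |μ| * (2 / (|μ| * η)) = 2 * (1 / η) := by
        field_simp
      rw [h4] at h3
      linarith
    have h2 : 1 / η ≤ Real.exp (|μ| * R / 2) := by
      have := Real.add_one_le_exp (|μ| * R / 2)
      linarith
    rw [Real.exp_neg]
    rw [one_div] at h2
    exact inv_le_of_inv_le₀ hηp h2
  have hexp2 : Real.exp (-(|μ| * R)) ≤ η := by
    refine le_trans ?_ hexp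
    refine Real.exp_le_exp.2 ?_
    have : 0 ≤ |μ| * R := by positivity
    linarith
  -- polynomials
  set f1 := wf μ R fun u => Real.cos (ω * u) with hf1
  set f2 := wf μ R fun u => Real.sin (ω * u) with hf2
  have c1 : Continuous f1 := continuous_wf μ R (by fun_prop)
  have c2 : Continuous f2 := continuous_wf μ R (by fun_prop)
  have b1 : ∀ p, |f1 p| ≤ 1 := abs_wf_le μ R fun u => Real.abs_cos_le_one _
  have b2 : ∀ p, |f2 p| ≤ 1 := abs_wf_le μ R fun u => Real.abs_sin_le_one _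
  obtain ⟨ε', hε'⟩ : ∃ ε' : ℝ, ε' = min (1 / 2) (min (δ / 16) (ε / 200)) := ⟨_, rfl⟩
  have hε'p : 0 < ε' := by rw [hε']; positivity
  have hε'1 : ε' ≤ 1 / 2 := by rw [hε']; exact min_le_left _ _
  have hε'2 : ε' ≤ δ / 16 := by rw [hε']; exact (min_le_right _ _).trans (min_le_left _ _)
  have hε'3 : ε' ≤ ε / 200 := by rw [hε']; exact (min_le_right _ _).trans (min_le_right _ _)
  obtain ⟨π1, hπ1⟩ := exists_polynomial_near_of_continuousOn (-1) 1 f1 c1.continuousOn ε' hε'p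
  obtain ⟨π2, hπ2⟩ := exists_polynomial_near_of_continuousOn (-1) 1 f2 c2.continuousOn ε' hε'p
  obtain ⟨M, hM⟩ : ∃ M : ℝ, M = (∑ k ∈ Finset.range (π1.natDegree + 1), |π1.coeff k| * k)
      + (∑ k ∈ Finset.range (π2.natDegree + 1), |π2.coeff k| * k) + 1 := ⟨_, rfl⟩
  have hM1 : 0 ≤ ∑ k ∈ Finset.range (π1.natDegree + 1), |π1.coeff k| * k :=
    Finset.sum_nonneg fun k _ => by positivity
  have hM2 : 0 ≤ ∑ k ∈ Finset.range (π2.natDegree + 1), |π2.coeff k| * k :=
    Finset.sum_nonneg fun k _ => by positivity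
  have hMp : 0 < M := by rw [hM]; linarith
  -- mesh
  obtain ⟨e2, he2⟩ : ∃ e2 : ℝ, e2 = ε' / M := ⟨_, rfl⟩
  have he2p : 0 < e2 := by rw [he2]; positivity
  have hMe : M * e2 = ε' := by rw [he2]; field_simp
  obtain ⟨κ, hκ⟩ : ∃ κ : ℝ, κ = min (ε ^ 2 / 200) (e2 ^ 2 / 8) := ⟨_, rfl⟩
  have hκp : 0 < κ := by rw [hκ]; positivity
  have hκ1 : κ ≤ ε ^ 2 / 200 := by rw [hκ]; exact min_le_left _ _
  have hκ2 : κ ≤ e2 ^ 2 / 8 := by rw [hκ]; exact min_le_right _ _
  obtain ⟨A, hA⟩ : ∃ A : ℝ, A = Real.exp (|μ| * S) := ⟨_, rfl⟩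
  have hAp : 0 < A := by rw [hA]; exact Real.exp_pos _
  obtain ⟨d, hd⟩ : ∃ d : ℝ, d = e2 ^ 2 / (8 * (C * A + 1)) := ⟨_, rfl⟩
  have hdp : 0 < d := by rw [hd]; positivity
  have hCAd : C * A * d ≤ e2 ^ 2 / 8 := by
    have h1 : d * (8 * (C * A + 1)) = e2 ^ 2 := by rw [hd]; field_simp
    nlinarith
  obtain ⟨n, hn⟩ : ∃ n : ℕ, 2 * Real.exp (-(n * d)) ≤ e2 / 2 := by
    obtain ⟨n, hn⟩ := exists_nat_gt (4 / e2 / d)
    refine ⟨n, ?_⟩
    have h1 : 4 / e2 ≤ n * d := by
      rw [div_lt_iff₀ hdp] at hn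
      exact hn.le
    have h2 : 4 / e2 ≤ Real.exp (n * d) := by
      have := Real.add_one_le_exp (n * d)
      linarith
    have h3 : Real.exp (-(n * d)) ≤ e2 / 4 := by
      rw [Real.exp_neg]
      have h4 : (e2 / 4)⁻¹ ≤ Real.exp (n * d) := by
        rw [inv_div]
        exact h2
      exact inv_le_of_inv_le₀ (by positivity) h4
    linarith
  refine ⟨(Polynomial.aeval (rp n d) (π1.map (algebraMap ℝ ℂ))
        + Complex.I • Polynomial.aeval (rp n d) (π2.map (algebraMap ℝ ℂ))).coeff, κ, hκp, ?_⟩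
  intro K _ _ _ B y hy hcont hlow
  have hsa : IsSelfAdjoint (B.lap 1) := B.lap_sa 1
  have hsub : spectrum ℝ (B.lap 1) ⊆ Icc (0 : ℝ) 1 := fun x hx => B.spec_lap hx
  -- approximation of the Laplace operators
  have happ : ∀ a : ℝ, 0 ≤ a → a ≤ A → ‖B.lap a y - B.evA a (rp n d) y‖ ≤ e2 := by
    intro a ha0 haA
    have h1 := B.norm_lap_sub_rp y hy hdp.le a (σ0 := e2 / 2) (fun t ht htd => by
      have h2 := hcont (a * t)
      rw [abs_of_nonneg (by positivity)] at h2
      have h3 : C * (a * t) ≤ C * A * d := by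
        have : a * t ≤ A * d := mul_le_mul haA htd ht hAp.le
        calc C * (a * t) ≤ C * (A * d) := mul_le_mul_of_nonneg_left this hC
          _ = C * A * d := by ring
      have h4 : ‖B.b (a * t) y - y‖ ^ 2 ≤ (e2 / 2) ^ 2 := by
        have : (e2 / 2) ^ 2 = e2 ^ 2 / 8 + e2 ^ 2 / 8 := by ring
        rw [this]
        linarith
      exact abs_le_of_sq_le_sq' h4 (by positivity) |>.2) n
    linarith
  have hdiff : ∀ a : ℝ, 0 < a → a ≤ A → ‖B.ev (Polynomial.aeval (rp n d) (π1.map (algebraMap ℝ ℂ))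
        + Complex.I • Polynomial.aeval (rp n d) (π2.map (algebraMap ℝ ℂ))).coeff a y
        - (cfc (fun p => f1 (wh a p)) (B.lap 1) y
          + Complex.I • cfc (fun p => f2 (wh a p)) (B.lap 1) y)‖ ≤ 3 * ε' := by
    intro a ha0 haA
    rw [← B.evA_eq, B.evA_comb]
    have hcomm : B.lap a * B.evA a (rp n d) = B.evA a (rp n d) * B.lap a :=
      B.commute_evA (B.lap a) (fun t => (B.lap_comm (B.b t) (fun s => B.commute t s) a).symm) a _
    have j1 := norm_aeval_sub_le (B.norm_lap_le a) (B.norm_evA_rp_le a n hdp.le) hcomm y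
      (happ a ha0.le haA) π1
    have j2 := norm_aeval_sub_le (B.norm_lap_le a) (B.norm_evA_rp_le a n hdp.le) hcomm y
      (happ a ha0.le haA) π2
    have k1 := B.cfc_wh_sub_le ha0.ne' π1 f1 c1 hε'p.le fun t ht => (hπ1 t ht).le
    have k2 := B.cfc_wh_sub_le ha0.ne' π2 f2 c2 hε'p.le fun t ht => (hπ2 t ht).le
    have k1' : ‖Polynomial.aeval (B.lap a) π1 y - cfc (fun p => f1 (wh a p)) (B.lap 1) y‖ ≤ ε' := by
      have := (Polynomial.aeval (B.lap a) π1 - cfc (fun p => f1 (wh a p)) (B.lap 1)).le_opNorm y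
      refine this.trans ?_
      calc _ ≤ ε' * 1 := mul_le_mul k1 hy (norm_nonneg _) hε'p.le
        _ = ε' := mul_one _
    have k2' : ‖Polynomial.aeval (B.lap a) π2 y - cfc (fun p => f2 (wh a p)) (B.lap 1) y‖ ≤ ε' := by
      have := (Polynomial.aeval (B.lap a) π2 - cfc (fun p => f2 (wh a p)) (B.lap 1)).le_opNorm y
      refine this.trans ?_
      calc _ ≤ ε' * 1 := mul_le_mul k2 hy (norm_nonneg _) hε'p.le
        _ = ε' := mul_one _
    have e : (Polynomial.aeval (B.evA a (rp n d)) π1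
          + Complex.I • Polynomial.aeval (B.evA a (rp n d)) π2) y
        - (cfc (fun p => f1 (wh a p)) (B.lap 1) y
          + Complex.I • cfc (fun p => f2 (wh a p)) (B.lap 1) y)
        = -(Polynomial.aeval (B.lap a) π1 y - Polynomial.aeval (B.evA a (rp n d)) π1 y)
          + -(Complex.I • (Polynomial.aeval (B.lap a) π2 y
            - Polynomial.aeval (B.evA a (rp n d)) π2 y))
          + (Polynomial.aeval (B.lap a) π1 y - cfc (fun p => f1 (wh a p)) (B.lap 1) y)
          + Complex.I • (Polynomial.aeval (B.lap a) π2 y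
            - cfc (fun p => f2 (wh a p)) (B.lap 1) y) := by
      change Polynomial.aeval (B.evA a (rp n d)) π1 y
          + Complex.I • Polynomial.aeval (B.evA a (rp n d)) π2 y - _ = _
      simp only [smul_sub]
      abel
    rw [e]
    refine (norm_add_le _ _).trans ?_
    refine (add_le_add ((norm_add_le _ _).trans (add_le_add (norm_add_le _ _) le_rfl)) le_rfl).trans
      ?_
    rw [norm_neg, norm_neg, norm_smul, norm_smul, Complex.norm_I, one_mul, one_mul]
    have h5 : (∑ k ∈ Finset.range (π1.natDegree + 1), |π1.coeff k| * k) * e2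
        + (∑ k ∈ Finset.range (π2.natDegree + 1), |π2.coeff k| * k) * e2 ≤ ε' := by
      rw [← hMe, hM]
      nlinarith
    linarith
  have hcov : ∀ s : ℝ, |s| ≤ S → ‖(cfc (fun p => f1 (wh (Real.exp (μ * s)) p)) (B.lap 1) y
          + Complex.I • cfc (fun p => f2 (wh (Real.exp (μ * s)) p)) (B.lap 1) y)
        - Complex.exp (Complex.I * (ω * s)) • (cfc f1 (B.lap 1) y
          + Complex.I • cfc f2 (B.lap 1) y)‖ ≤ 2 * (S / R) := by
    intro s hs
    have ha : Real.exp (μ * s) ≠ 0 := (Real.exp_pos _).ne'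
    have hc : ContinuousOn (wh (Real.exp (μ * s))) (spectrum ℝ (B.lap 1)) :=
      (continuousOn_wh ha).mono hsub
    have hsR : |s| / R ≤ S / R := by gcongr
    have q1 : ‖cfc (fun p => f1 (wh (Real.exp (μ * s)) p)) (B.lap 1)
        - (Real.cos (ω * s) • cfc f1 (B.lap 1) - Real.sin (ω * s) • cfc f2 (B.lap 1))‖ ≤ S / R := by
      rw [← cfc_const_mul (Real.cos (ω * s)) f1 (B.lap 1) c1.continuousOn,
        ← cfc_const_mul (Real.sin (ω * s)) f2 (B.lap 1) c2.continuousOn,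
        ← cfc_sub (fun p => Real.cos (ω * s) * f1 p) (fun p => Real.sin (ω * s) * f2 p) (B.lap 1)
          (continuous_const.mul c1).continuousOn (continuous_const.mul c2).continuousOn,
        ← cfc_sub (fun p => f1 (wh (Real.exp (μ * s)) p))
          (fun p => Real.cos (ω * s) * f1 p - Real.sin (ω * s) * f2 p) (B.lap 1)
          (c1.comp_continuousOn hc)
          ((continuous_const.mul c1).sub (continuous_const.mul c2)).continuousOn]
      refine norm_cfc_le (by positivity) fun x hx => ?_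
      exact (wf_cos hμ hR0 ω s (hsub hx)).trans hsR
    have q2 : ‖cfc (fun p => f2 (wh (Real.exp (μ * s)) p)) (B.lap 1)
        - (Real.cos (ω * s) • cfc f2 (B.lap 1) + Real.sin (ω * s) • cfc f1 (B.lap 1))‖ ≤ S / R := by
      rw [← cfc_const_mul (Real.cos (ω * s)) f2 (B.lap 1) c2.continuousOn,
        ← cfc_const_mul (Real.sin (ω * s)) f1 (B.lap 1) c1.continuousOn,
        ← cfc_add (a := B.lap 1) (fun p => Real.cos (ω * s) * f2 p)
          (fun p => Real.sin (ω * s) * f1 p)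
          (continuous_const.mul c2).continuousOn (continuous_const.mul c1).continuousOn,
        ← cfc_sub (fun p => f2 (wh (Real.exp (μ * s)) p))
          (fun p => Real.cos (ω * s) * f2 p + Real.sin (ω * s) * f1 p) (B.lap 1)
          (c2.comp_continuousOn hc)
          ((continuous_const.mul c2).add (continuous_const.mul c1)).continuousOn]
      refine norm_cfc_le (by positivity) fun x hx => ?_
      exact (wf_sin hμ hR0 ω s (hsub hx)).trans hsR
    have q1' := (cfc (fun p => f1 (wh (Real.exp (μ * s)) p)) (B.lap 1)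
        - (Real.cos (ω * s) • cfc f1 (B.lap 1) - Real.sin (ω * s) • cfc f2 (B.lap 1))).le_opNorm y
    have q2' := (cfc (fun p => f2 (wh (Real.exp (μ * s)) p)) (B.lap 1)
        - (Real.cos (ω * s) • cfc f2 (B.lap 1) + Real.sin (ω * s) • cfc f1 (B.lap 1))).le_opNorm y
    have e0 : Complex.exp (Complex.I * (ω * s))
        = (Real.cos (ω * s) : ℂ) + (Real.sin (ω * s) : ℂ) * Complex.I := by
      rw [mul_comm, Complex.exp_mul_I]
      push_cast
      ring
    have e : (cfc (fun p => f1 (wh (Real.exp (μ * s)) p)) (B.lap 1) y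
          + Complex.I • cfc (fun p => f2 (wh (Real.exp (μ * s)) p)) (B.lap 1) y)
        - Complex.exp (Complex.I * (ω * s)) • (cfc f1 (B.lap 1) y
          + Complex.I • cfc f2 (B.lap 1) y)
        = (cfc (fun p => f1 (wh (Real.exp (μ * s)) p)) (B.lap 1)
            - (Real.cos (ω * s) • cfc f1 (B.lap 1) - Real.sin (ω * s) • cfc f2 (B.lap 1))) y
          + Complex.I • (cfc (fun p => f2 (wh (Real.exp (μ * s)) p)) (B.lap 1)
            - (Real.cos (ω * s) • cfc f2 (B.lap 1) + Real.sin (ω * s) • cfc f1 (B.lap 1))) y := by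
      rw [e0]
      have e1 : ∀ (c : ℝ) (v : K), c • v = (c : ℂ) • v := fun c v => (Complex.coe_smul c v).symm
      change _ = (cfc (fun p => f1 (wh (Real.exp (μ * s)) p)) (B.lap 1) y
            - (Real.cos (ω * s) • cfc f1 (B.lap 1) y - Real.sin (ω * s) • cfc f2 (B.lap 1) y))
          + Complex.I • (cfc (fun p => f2 (wh (Real.exp (μ * s)) p)) (B.lap 1) y
            - (Real.cos (ω * s) • cfc f2 (B.lap 1) y + Real.sin (ω * s) • cfc f1 (B.lap 1) y))
      rw [e1, e1, e1, e1]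
      simp only [smul_sub, smul_add, add_smul, smul_smul]
      have e2 : ((Real.cos (ω * s) : ℂ) + (Real.sin (ω * s) : ℂ) * Complex.I) * Complex.I
          = (Real.cos (ω * s) : ℂ) * Complex.I - (Real.sin (ω * s) : ℂ) := by
        rw [add_mul, mul_assoc (Real.sin (ω * s) : ℂ), Complex.I_mul_I]
        ring
      rw [e2, sub_smul, mul_comm Complex.I (Real.cos (ω * s) : ℂ),
        mul_comm Complex.I (Real.sin (ω * s) : ℂ)]
      abel
    rw [e]
    refine (norm_add_le _ _).trans ?_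
    rw [norm_smul, Complex.norm_I, one_mul]
    have hSR0 : 0 ≤ S / R := by positivity
    have r1 : ‖cfc (fun p => f1 (wh (Real.exp (μ * s)) p)) (B.lap 1)
        - (Real.cos (ω * s) • cfc f1 (B.lap 1) - Real.sin (ω * s) • cfc f2 (B.lap 1))‖ * ‖y‖
        ≤ S / R * 1 := mul_le_mul q1 hy (norm_nonneg _) hSR0
    have r2 : ‖cfc (fun p => f2 (wh (Real.exp (μ * s)) p)) (B.lap 1)
        - (Real.cos (ω * s) • cfc f2 (B.lap 1) + Real.sin (ω * s) • cfc f1 (B.lap 1))‖ * ‖y‖
        ≤ S / R * 1 := mul_le_mul q2 hy (norm_nonneg _) hSR0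
    linarith
  have hA1 : 1 ≤ A := by
    rw [hA]
    exact Real.one_le_exp (by positivity)
  have hone : ∀ p ∈ spectrum ℝ (B.lap 1), wh 1 p = p := fun p _ => by
    unfold wh
    have : p + 1 ^ 2 * (1 - p) = 1 := by ring
    rw [this, div_one]
  have hd1 := hdiff 1 one_pos hA1
  have hone1 : cfc (fun p => f1 (wh 1 p)) (B.lap 1) = cfc f1 (B.lap 1) :=
    cfc_congr fun p hp => by rw [hone p hp]
  have hone2 : cfc (fun p => f2 (wh 1 p)) (B.lap 1) = cfc f2 (B.lap 1) :=
    cfc_congr fun p hp => by rw [hone p hp]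
  rw [hone1, hone2] at hd1
  refine ⟨?_, ?_, ?_⟩
  · obtain ⟨l, hl0, hlL, hll⟩ := hlow
    have h1 := B.band_mass hμ hR0 ω hC hκp.le y hy hcont hl0 hε.le hll
    set V := cfc f1 (B.lap 1) y + Complex.I • cfc f2 (B.lap 1) y with hV
    have h2 : C * Real.exp (-(|μ| * R / 2)) ≤ ε ^ 2 / 200 := by
      have h3 := mul_le_mul_of_nonneg_left hexp hC
      nlinarith [mul_nonneg hηp.le (sq_nonneg L)]
    have h4 : l ^ 2 * Real.exp (-(|μ| * R)) ≤ ε ^ 2 / 200 := by
      have h5 : l ^ 2 ≤ L ^ 2 := pow_le_pow_left₀ hl0.le hlL 2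
      have h6 : l ^ 2 * Real.exp (-(|μ| * R)) ≤ L ^ 2 * η :=
        mul_le_mul h5 hexp2 (Real.exp_pos _).le (by positivity)
      nlinarith [mul_nonneg hηp.le hC]
    have h7 : ε ^ 2 / 150 ≤ ‖V‖ ^ 2 := by
      linarith
    have h8 : 8 / 100 * ε ≤ ‖V‖ := by
      have h9 : (8 / 100 * ε) ^ 2 ≤ ‖V‖ ^ 2 := by nlinarith [sq_nonneg ε]
      exact abs_le_of_sq_le_sq' h9 (norm_nonneg _) |>.2
    set W := B.ev (Polynomial.aeval (rp n d) (π1.map (algebraMap ℝ ℂ))
        + Complex.I • Polynomial.aeval (rp n d) (π2.map (algebraMap ℝ ℂ))).coeff 1 y with hW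
    have h10 : ‖V‖ ≤ ‖W‖ + 3 * ε' := by
      have h11 := norm_sub_norm_le V W
      rw [norm_sub_rev V W] at h11
      linarith
    have h12 : 6 / 100 * ε ≤ ‖W‖ := by linarith
    nlinarith [sq_nonneg ε]
  · intro s hs
    have ha0 : 0 < Real.exp (μ * s) := Real.exp_pos _
    have haA : Real.exp (μ * s) ≤ A := by
      rw [hA]
      refine Real.exp_le_exp.2 ?_
      calc μ * s ≤ |μ * s| := le_abs_self _
        _ = |μ| * |s| := abs_mul _ _
        _ ≤ |μ| * S := mul_le_mul_of_nonneg_left hs hm.le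
    have h1 := hdiff _ ha0 haA
    have h2 := hcov s hs
    set V := cfc f1 (B.lap 1) y + Complex.I • cfc f2 (B.lap 1) y with hV
    set W := B.ev (Polynomial.aeval (rp n d) (π1.map (algebraMap ℝ ℂ))
        + Complex.I • Polynomial.aeval (rp n d) (π2.map (algebraMap ℝ ℂ))).coeff 1 y with hW
    set W' := B.ev (Polynomial.aeval (rp n d) (π1.map (algebraMap ℝ ℂ))
        + Complex.I • Polynomial.aeval (rp n d) (π2.map (algebraMap ℝ ℂ))).coeff
          (Real.exp (μ * s)) y with hW'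
    set V' := cfc (fun p => f1 (wh (Real.exp (μ * s)) p)) (B.lap 1) y
          + Complex.I • cfc (fun p => f2 (wh (Real.exp (μ * s)) p)) (B.lap 1) y with hV'
    have hph : ‖Complex.exp (Complex.I * (ω * s))‖ = 1 := by
      have : Complex.I * (ω * s) = ((ω * s : ℝ) : ℂ) * Complex.I := by push_cast; ring
      rw [this, Complex.norm_exp_ofReal_mul_I]
    have e : W' - Complex.exp (Complex.I * (ω * s)) • W
        = (W' - V') + (V' - Complex.exp (Complex.I * (ω * s)) • V)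
          + -(Complex.exp (Complex.I * (ω * s)) • (W - V)) := by
      rw [smul_sub]
      abel
    rw [e]
    refine (norm_add_le _ _).trans ?_
    refine (add_le_add (norm_add_le _ _) le_rfl).trans ?_
    rw [norm_neg, norm_smul, hph, one_mul]
    linarith
  · intro a v
    rw [← B.evA_eq, B.evA_comb]
    have hb : ∀ (π : Polynomial ℝ) (f : ℝ → ℝ), (∀ p, |f p| ≤ 1) →
        (∀ x ∈ Icc (-1 : ℝ) 1, |π.eval x - f x| < ε') →
        ‖Polynomial.aeval (B.evA a (rp n d)) π v‖ ≤ 3 / 2 * ‖v‖ := by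
      intro π f hf hπ
      have h1 := norm_aeval_le (B.evA_rp_sa a n d) (B.norm_evA_rp_le a n hdp.le) π
        (c := 3 / 2) (by norm_num) (fun t ht => by
          have h2 := hπ t ht
          have h3 := hf t
          have h4 : |π.eval t| ≤ |π.eval t - f t| + |f t| := by
            have := abs_add_le (π.eval t - f t) (f t)
            rwa [sub_add_cancel] at this
          linarith)
      exact ((Polynomial.aeval (B.evA a (rp n d)) π).le_opNorm v).trans
        (mul_le_mul_of_nonneg_right h1 (norm_nonneg _))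
    have h1 := hb π1 f1 b1 hπ1
    have h2 := hb π2 f2 b2 hπ2
    change ‖Polynomial.aeval (B.evA a (rp n d)) π1 v
      + Complex.I • Polynomial.aeval (B.evA a (rp n d)) π2 v‖ ≤ 3 * ‖v‖
    refine (norm_add_le _ _).trans ?_
    rw [norm_smul, Complex.norm_I, one_mul]
    linarith

end UG

end Pool.Agent.AbCoc
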